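import Pool.Agent.N729.HQ.Stm

/-!
Project HQ: part B4 (copy a, helper562): `C = 0`, `κ = 2`, i.e. `t = g + 1`, `n = 2 g`.
-/

set_option autoImplicit false

namespace Pool.Agent.N729.HQ.B4a

open Finset
open Pool.Agent.N186.HK (pm pm_nil pm_cons)
open Pool.Agent.N729.HP
open Pool.Agent.N729.HP.BA (pd_nil pd_cons swap_sum pm_perm pd_perm)
open Pool.Agent.N729.HQ

section gen

variable {D : Type*} [CommRing D]

lemma pq_nil (x y : ℕ → D) (J : Finset ℕ) : pq x y J [] = 0 := by
  unfold pq; rfl

lemma pq_cons (x y : ℕ → D) (J : Finset ℕ) (c : ℕ) (L : List ℕ) :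
    pq x y J (c :: L) =
      ∑ j ∈ J, (y (j + c) * pd x y (J.erase j) L + x (j + c) * pq x y (J.erase j) L) := by
  rw [pq]

lemma pq_perm (x y : ℕ → D) {L L' : List ℕ} (h : L.Perm L') :
    ∀ J, pq x y J L = pq x y J L' := by
  induction h with
  | nil => intro J; rfl
  | cons c h ih =>
    intro J
    rw [pq_cons, pq_cons]
    exact Finset.sum_congr rfl fun j _ => by rw [ih, pd_perm x y h]
  | swap c d L =>
    intro J
    simp only [pd_cons, pq_cons, Finset.mul_sum, ← Finset.sum_add_distrib]
    rw [swap_sum]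
    refine Finset.sum_congr rfl fun i _ => Finset.sum_congr rfl fun j _ => ?_
    rw [Finset.erase_right_comm]
    ring
  | trans _ _ ih1 ih2 => intro J; rw [ih1, ih2]

lemma ins_erase {a i : ℕ} {K : Finset ℕ} (h : i ≠ a) :
    (insert a K).erase i = insert a (K.erase i) := by
  rw [Finset.erase_insert_of_ne h.symm]

/-- two columns which look the same -/
lemma pm_swap (x : ℕ → D) (a b : ℕ) (L : List ℕ) : ∀ K : Finset ℕ, a ∉ K → b ∉ K →
    (∀ c ∈ L, x (a + c) = x (b + c)) → pm x (insert a K) L = pm x (insert b K) L := by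
  induction L with
  | nil => intro K _ _ _; rw [pm_nil, pm_nil]
  | cons c L ih =>
    intro K ha hb h
    rw [pm_cons, pm_cons, Finset.sum_insert ha, Finset.sum_insert hb, Finset.erase_insert ha,
      Finset.erase_insert hb, h c List.mem_cons_self]
    congr 1
    refine Finset.sum_congr rfl fun i hi => ?_
    have h1 : i ≠ a := fun e => ha (e ▸ hi)
    have h2 : i ≠ b := fun e => hb (e ▸ hi)
    rw [ins_erase h1, ins_erase h2, ih (K.erase i) (fun e => ha (Finset.mem_of_mem_erase e))
      (fun e => hb (Finset.mem_of_mem_erase e)) fun d hd => h d (List.mem_cons_of_mem _ hd)]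

lemma pd_swap (x y : ℕ → D) (a b : ℕ) (L : List ℕ) : ∀ K : Finset ℕ, a ∉ K → b ∉ K →
    (∀ c ∈ L, x (a + c) = x (b + c)) → (∀ c ∈ L, y (a + c) = y (b + c)) →
    pd x y (insert a K) L = pd x y (insert b K) L := by
  induction L with
  | nil => intro K _ _ _ _; rw [pd_nil, pd_nil]
  | cons c L ih =>
    intro K ha hb h h'
    rw [pd_cons, pd_cons, Finset.sum_insert ha, Finset.sum_insert hb, Finset.erase_insert ha,
      Finset.erase_insert hb, h c List.mem_cons_self, h' c List.mem_cons_self]
    congr 1
    refine Finset.sum_congr rfl fun i hi => ?_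
    have h1 : i ≠ a := fun e => ha (e ▸ hi)
    have h2 : i ≠ b := fun e => hb (e ▸ hi)
    rw [ins_erase h1, ins_erase h2, ih (K.erase i) (fun e => ha (Finset.mem_of_mem_erase e))
      (fun e => hb (Finset.mem_of_mem_erase e)) (fun d hd => h d (List.mem_cons_of_mem _ hd))
      (fun d hd => h' d (List.mem_cons_of_mem _ hd)),
      pm_swap x a b L (K.erase i) (fun e => ha (Finset.mem_of_mem_erase e))
      (fun e => hb (Finset.mem_of_mem_erase e)) fun d hd => h d (List.mem_cons_of_mem _ hd)]

end gen

section main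

variable {k : Type*} [Field k]

/-- the point -/
def q (k : Type*) [Field k] (g v : ℕ) : k :=
  if v = 0 then 1 else if v = g then 1 else if v = 2 * g then -1 else 0

/-- the tangent vector -/
def w (k : Type*) [Field k] (g v : ℕ) : k := if v % g = 1 ∨ v % g + 1 = g then 1 else 0

lemma w_per (g v : ℕ) : w k g (v + g) = w k g v := by
  unfold w; rw [Nat.add_mod_right]

lemma row_h (g h : ℕ) (h1 : 1 ≤ h) (h2 : h < g) (J : Finset ℕ) (F : ℕ → k) :
    ∑ j ∈ J, q k g (j + h) * F j =
      (if g - h ∈ J then F (g - h) else 0) - (if 2 * g - h ∈ J then F (2 * g - h) else 0) := by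
  have h3 : ∀ j ∈ J, q k g (j + h) * F j =
      (if j = g - h then F j else 0) - (if j = 2 * g - h then F j else 0) := by
    intro j _
    unfold q
    by_cases ha : j = g - h
    · rw [if_neg (by omega), if_pos (by omega), if_pos ha, if_neg (by omega)]; ring
    · by_cases hb : j = 2 * g - h
      · rw [if_neg (by omega), if_neg (by omega), if_pos (by omega), if_neg ha, if_pos hb]; ring
      · rw [if_neg (by omega), if_neg (by omega), if_neg (by omega), if_neg ha, if_neg hb]; ring
  rw [Finset.sum_congr rfl h3, Finset.sum_sub_distrib, Finset.sum_ite_eq', Finset.sum_ite_eq']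

lemma row_0 (g : ℕ) (hg : 2 ≤ g) (J : Finset ℕ) (hJ : ∀ j ∈ J, j < 2 * g) (F : ℕ → k) :
    ∑ j ∈ J, q k g (j + 0) * F j = (if 0 ∈ J then F 0 else 0) + (if g ∈ J then F g else 0) := by
  have h3 : ∀ j ∈ J, q k g (j + 0) * F j =
      (if j = 0 then F j else 0) + (if j = g then F j else 0) := by
    intro j hj
    have := hJ j hj
    unfold q
    by_cases ha : j = 0
    · rw [if_pos (by omega), if_pos ha, if_neg (by omega)]; ring
    · by_cases hb : j = g
      · rw [if_neg (by omega), if_pos (by omega), if_neg ha, if_pos hb]; ring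
      · rw [if_neg (by omega), if_neg (by omega), if_neg (by omega), if_neg ha, if_neg hb]; ring
  rw [Finset.sum_congr rfl h3, Finset.sum_add_distrib, Finset.sum_ite_eq', Finset.sum_ite_eq']

lemma row_g (g : ℕ) (hg : 2 ≤ g) (J : Finset ℕ) (F : ℕ → k) :
    ∑ j ∈ J, q k g (j + g) * F j = (if 0 ∈ J then F 0 else 0) - (if g ∈ J then F g else 0) := by
  have h3 : ∀ j ∈ J, q k g (j + g) * F j =
      (if j = 0 then F j else 0) - (if j = g then F j else 0) := by
    intro j hj
    unfold q
    by_cases ha : j = 0
    · rw [if_neg (by omega), if_pos (by omega), if_pos ha, if_neg (by omega)]; ring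
    · by_cases hb : j = g
      · rw [if_neg (by omega), if_neg (by omega), if_pos (by omega), if_neg ha, if_pos hb]; ring
      · rw [if_neg (by omega), if_neg (by omega), if_neg (by omega), if_neg ha, if_neg hb]; ring
  rw [Finset.sum_congr rfl h3, Finset.sum_sub_distrib, Finset.sum_ite_eq', Finset.sum_ite_eq']

lemma pm_g (g : ℕ) (hg : 2 ≤ g) (K : Finset ℕ) :
    pm (q k g) K [g] = (if 0 ∈ K then 1 else 0) - (if g ∈ K then 1 else 0) := by
  rw [pm_cons]
  simp only [pm_nil]
  exact row_g g hg K fun _ => 1

lemma pd_g (g : ℕ) (y : ℕ → k) (K : Finset ℕ) : pd (q k g) y K [g] = ∑ i ∈ K, y (i + g) := by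
  rw [pd_cons]
  simp only [pm_nil, pd_nil, mul_one, mul_zero, add_zero]

lemma pm_0g (g : ℕ) (hg : 2 ≤ g) (J : Finset ℕ) (hJ : ∀ j ∈ J, j < 2 * g) :
    pm (q k g) J [0, g] = 0 := by
  rw [pm_cons, row_0 g hg J hJ, pm_g g hg, pm_g g hg]
  have h0 : g ≠ 0 := by omega
  by_cases ha : 0 ∈ J <;> by_cases hb : g ∈ J <;> simp [ha, hb, h0, h0.symm]

/-- all permanents vanish -/
lemma P (g : ℕ) (hg : 2 ≤ g) (M : List ℕ) : ∀ (J : Finset ℕ), (∀ j ∈ J, j < 2 * g) →
    (∀ h ∈ M, 1 ≤ h ∧ h < g) → pm (q k g) J (M ++ [0, g]) = 0 := by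
  induction M with
  | nil => intro J hJ _; exact pm_0g g hg J hJ
  | cons h M ih =>
    intro J hJ _
    rw [List.cons_append, pm_cons]
    refine Finset.sum_eq_zero fun j _ => ?_
    rw [ih _ (fun i hi => hJ i (Finset.mem_of_mem_erase hi)) (fun c hc => by
      rename_i hM _
      exact hM c (List.mem_cons_of_mem _ hc)), mul_zero]

/-- derivative: expansion along a row `1 ≤ h < g` -/
lemma pd_row (g : ℕ) (hg : 2 ≤ g) (y : ℕ → k) (h : ℕ) (M : List ℕ) (J : Finset ℕ)
    (hJ : ∀ j ∈ J, j < 2 * g) (hM : ∀ c ∈ h :: M, 1 ≤ c ∧ c < g) :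
    pd (q k g) y J (h :: (M ++ [0, g])) =
      (if g - h ∈ J then pd (q k g) y (J.erase (g - h)) (M ++ [0, g]) else 0) -
      (if 2 * g - h ∈ J then pd (q k g) y (J.erase (2 * g - h)) (M ++ [0, g]) else 0) := by
  have hh := hM h List.mem_cons_self
  rw [pd_cons, Finset.sum_add_distrib, Finset.sum_eq_zero, zero_add]
  · exact row_h g h hh.1 hh.2 J fun j => pd (q k g) y (J.erase j) (M ++ [0, g])
  · intro j _
    rw [P g hg M _ (fun i hi => hJ i (Finset.mem_of_mem_erase hi))
      (fun c hc => hM c (List.mem_cons_of_mem _ hc)), mul_zero]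

lemma pd_0g (g : ℕ) (hg : 2 ≤ g) (y : ℕ → k) (J : Finset ℕ) (hJ : ∀ j ∈ J, j < 2 * g) :
    pd (q k g) y J [0, g] = ∑ j ∈ J, y j * ((if 0 ∈ J.erase j then 1 else 0) -
      (if g ∈ J.erase j then 1 else 0)) +
      ((if 0 ∈ J then ∑ i ∈ J.erase 0, y (i + g) else 0) +
       (if g ∈ J then ∑ i ∈ J.erase g, y (i + g) else 0)) := by
  rw [pd_cons, Finset.sum_add_distrib]
  congr 1
  · refine Finset.sum_congr rfl fun j _ => ?_
    rw [pm_g g hg, add_zero]
  · rw [row_0 g hg J hJ, pd_g, pd_g]

lemma b1 (g : ℕ) (hg : 2 ≤ g) (y : ℕ → k) :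
    pd (q k g) y {0, g} [0, g] = - y 0 + 2 * y g + y (2 * g) := by
  have h0 : g ≠ 0 := by omega
  rw [pd_0g g hg y _ (by intro j hj; simp only [Finset.mem_insert, Finset.mem_singleton] at hj; omega),
    Finset.sum_pair h0.symm]
  have e1 : ({0, g} : Finset ℕ).erase 0 = {g} := by
    ext j; simp only [Finset.mem_erase, Finset.mem_insert, Finset.mem_singleton]; omega
  have e2 : ({0, g} : Finset ℕ).erase g = {0} := by
    ext j; simp only [Finset.mem_erase, Finset.mem_insert, Finset.mem_singleton]; omega
  rw [e1, e2, Finset.sum_singleton, Finset.sum_singleton]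
  simp only [Finset.mem_singleton, Finset.mem_insert, h0, h0.symm, if_true, if_false, true_or,
    or_true, zero_add]
  rw [show g + g = 2 * g by omega]
  ring

lemma b2 (g : ℕ) (hg : 2 ≤ g) (y : ℕ → k) (b : ℕ) (hb0 : b ≠ 0) (hbg : b ≠ g) (hb : b < 2 * g) :
    pd (q k g) y {0, b} [0, g] = y b + y (b + g) := by
  have h0 : g ≠ 0 := by omega
  rw [pd_0g g hg y _ (by intro j hj; simp only [Finset.mem_insert, Finset.mem_singleton] at hj; omega),
    Finset.sum_pair hb0.symm]
  have e1 : ({0, b} : Finset ℕ).erase 0 = {b} := by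
    ext j; simp only [Finset.mem_erase, Finset.mem_insert, Finset.mem_singleton]; omega
  have e2 : ({0, b} : Finset ℕ).erase b = {0} := by
    ext j; simp only [Finset.mem_erase, Finset.mem_insert, Finset.mem_singleton]; omega
  rw [e1, e2, Finset.sum_singleton]
  simp only [Finset.mem_singleton, Finset.mem_insert, h0, h0.symm, hb0, hb0.symm, hbg, hbg.symm,
    if_true, if_false, true_or, or_true, or_false, false_or, or_self]
  ring

lemma b3 (g : ℕ) (hg : 2 ≤ g) (y : ℕ → k) (b : ℕ) (hb0 : b ≠ 0) (hbg : b ≠ g) (hb : b < 2 * g) :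
    pd (q k g) y {g, b} [0, g] = - y b + y (b + g) := by
  have h0 : g ≠ 0 := by omega
  rw [pd_0g g hg y _ (by intro j hj; simp only [Finset.mem_insert, Finset.mem_singleton] at hj; omega),
    Finset.sum_pair hbg.symm]
  have e1 : ({g, b} : Finset ℕ).erase g = {b} := by
    ext j; simp only [Finset.mem_erase, Finset.mem_insert, Finset.mem_singleton]; omega
  have e2 : ({g, b} : Finset ℕ).erase b = {g} := by
    ext j; simp only [Finset.mem_erase, Finset.mem_insert, Finset.mem_singleton]; omega
  rw [e1, e2, Finset.sum_singleton]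
  simp only [Finset.mem_singleton, Finset.mem_insert, h0, h0.symm, hb0, hb0.symm, hbg, hbg.symm,
    if_true, if_false, true_or, or_true, or_false, false_or, or_self]
  ring

/-- rows with only one column -/
lemma proc (g : ℕ) (hg : 2 ≤ g) (y : ℕ → k) (M₀ M : List ℕ) : ∀ (J : Finset ℕ),
    (∀ j ∈ J, j < 2 * g) → M.Nodup → (∀ c ∈ M, 1 ≤ c ∧ c < g ∧ g - c ∈ J ∧ 2 * g - c ∉ J) →
    (∀ c ∈ M₀, 1 ≤ c ∧ c < g) →
    pd (q k g) y J (M ++ (M₀ ++ [0, g])) =
      pd (q k g) y (J.filter fun j => ∀ c ∈ M, j ≠ g - c) (M₀ ++ [0, g]) := by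
  induction M with
  | nil =>
    intro J _ _ _ _
    rw [List.nil_append]
    congr 1
    ext j
    simp
  | cons h M ih =>
    intro J hJ hnd hM hM₀
    have hh := hM h List.mem_cons_self
    have h1 := pd_row g hg y h (M ++ M₀) J hJ (by
      intro c hc
      rw [List.mem_cons, List.mem_append] at hc
      rcases hc with rfl | hc | hc
      · exact ⟨hh.1, hh.2.1⟩
      · have := hM c (List.mem_cons_of_mem _ hc); exact ⟨this.1, this.2.1⟩
      · exact hM₀ c hc)
    rw [List.append_assoc] at h1
    rw [List.cons_append, h1, if_pos hh.2.2.1, if_neg hh.2.2.2, sub_zero]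
    rw [List.nodup_cons] at hnd
    rw [ih (J.erase (g - h)) (fun i hi => hJ i (Finset.mem_of_mem_erase hi)) hnd.2 ?_ hM₀]
    · congr 1
      ext j
      simp only [Finset.mem_filter, Finset.mem_erase, List.mem_cons, forall_eq_or_imp]
      tauto
    · intro c hc
      have h2 := hM c (List.mem_cons_of_mem _ hc)
      refine ⟨h2.1, h2.2.1, ?_, fun h3 => h2.2.2.2 (Finset.mem_of_mem_erase h3)⟩
      rw [Finset.mem_erase]
      refine ⟨fun h3 => hnd.1 ?_, h2.2.2.1⟩
      have : c = h := by omega
      rw [← this]; exact hc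

/-- derivative if the columns `0` and `g` are present -/
lemma PD (g : ℕ) (hg : 2 ≤ g) (y : ℕ → k) (M : List ℕ) : ∀ (J : Finset ℕ),
    (∀ j ∈ J, j < 2 * g) → (∀ c ∈ M, 1 ≤ c ∧ c < g) → 0 ∈ J → g ∈ J → J.card = M.length + 2 →
    pd (q k g) y J (M ++ [0, g]) =
      pm (q k g) ((J.erase 0).erase g) M * (- y 0 + 2 * y g + y (2 * g)) := by
  induction M with
  | nil =>
    intro J _ _ h0 h1 hc
    have : J = {0, g} := by
      symm
      apply Finset.eq_of_subset_of_card_le
      · intro j hj
        simp only [Finset.mem_insert, Finset.mem_singleton] at hj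
        rcases hj with rfl | rfl
        · exact h0
        · exact h1
      · rw [hc, Finset.card_pair (by omega)]; rfl
    rw [this, List.nil_append, b1 g hg, pm_nil, one_mul]
  | cons h M ih =>
    intro J hJ hM h0 h1 hc
    have hh := hM h List.mem_cons_self
    rw [List.cons_append, pd_row g hg y h M J hJ hM, pm_cons,
      row_h g h hh.1 hh.2 _ fun j => pm (q k g) (((J.erase 0).erase g).erase j) M]
    have key : ∀ a, a ≠ 0 → a ≠ g →
        (if a ∈ J then pd (q k g) y (J.erase a) (M ++ [0, g]) else 0) =
        (if a ∈ (J.erase 0).erase g then pm (q k g) (((J.erase 0).erase g).erase a) M else 0) *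
          (- y 0 + 2 * y g + y (2 * g)) := by
      intro a ha0 hag
      by_cases ha : a ∈ J
      · rw [if_pos ha, if_pos (by simp [ha, ha0, hag]),
          ih (J.erase a) (fun i hi => hJ i (Finset.mem_of_mem_erase hi))
          (fun c hc => hM c (List.mem_cons_of_mem _ hc)) (by simp [h0, ha0.symm])
          (by simp [h1, hag.symm]) (by
            rw [Finset.card_erase_of_mem ha, hc, List.length_cons]; omega)]
        congr 2
        ext j
        simp only [Finset.mem_erase]
        tauto
      · rw [if_neg ha, if_neg (by simp [ha]), zero_mul]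
    rw [key _ (by omega) (by omega), key _ (by omega) (by omega)]
    ring

/-- the rows -/
lemma rows (g : ℕ) (hg : 2 ≤ g) : (List.range (g + 1)).Perm (List.range' 1 (g - 1) ++ [0, g]) := by
  rw [List.perm_ext_iff_of_nodup List.nodup_range]
  · intro a
    simp only [List.mem_range, List.mem_append, List.mem_range'_1, List.mem_cons,
      List.not_mem_nil, or_false]
    omega
  · rw [List.nodup_append]
    refine ⟨List.nodup_range', ?_, ?_⟩
    · rw [List.nodup_cons]; simp; omega
    · intro a ha b hb
      simp only [List.mem_range'_1, List.mem_cons, List.not_mem_nil, or_false] at ha hb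
      omega

lemma mem_rows (g : ℕ) (hg : 2 ≤ g) (c : ℕ) (hc : c ∈ List.range' 1 (g - 1)) : 1 ≤ c ∧ c < g := by
  rw [List.mem_range'_1] at hc; omega

lemma perm_erase (g h : ℕ) (hg : 2 ≤ g) (h1 : 1 ≤ h) (h2 : h < g) :
    (List.range (g + 1)).Perm (h :: ((List.range' 1 (g - 1)).erase h ++ [0, g])) := by
  refine (rows g hg).trans ?_
  rw [← List.cons_append]
  refine List.Perm.append_right _ (List.perm_cons_erase ?_)
  rw [List.mem_range'_1]; omega

lemma mem_er (g h c : ℕ) (hc : c ∈ (List.range' 1 (g - 1)).erase h) :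
    1 ≤ c ∧ c < g ∧ c ≠ h := by
  rw [(List.nodup_range' (step := 1)).mem_erase_iff, List.mem_range'_1] at hc; omega

lemma vt (g : ℕ) (hg : 2 ≤ g) : Vt (2 * g) (g + 1) (q k g) := by
  intro J _ hJ
  rw [pm_perm _ (rows g hg)]
  exact P g hg _ J hJ (mem_rows g hg)

lemma tt (g : ℕ) (hg : 2 ≤ g) : Tt (2 * g) (g + 1) (q k g) (w k g) := by
  intro J hJc hJ
  by_cases hA : ∃ τ, 1 ≤ τ ∧ τ < g ∧ τ ∈ J ∧ τ + g ∈ J
  · obtain ⟨τ, h1, h2, h3, h4⟩ := hA
    rw [pd_perm _ _ (perm_erase g (g - τ) hg (by omega) (by omega)),
      pd_row g hg (w k g) (g - τ) _ J hJ (by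
        intro c hc
        rw [List.mem_cons] at hc
        rcases hc with rfl | hc
        · omega
        · have := mem_er g _ c hc; omega)]
    rw [show g - (g - τ) = τ by omega, show 2 * g - (g - τ) = τ + g by omega, if_pos h3, if_pos h4]
    have e1 : J.erase τ = insert (τ + g) ((J.erase τ).erase (τ + g)) := by
      rw [Finset.insert_erase]; rw [Finset.mem_erase]; exact ⟨by omega, h4⟩
    have e2 : J.erase (τ + g) = insert τ ((J.erase τ).erase (τ + g)) := by
      rw [Finset.erase_right_comm, Finset.insert_erase]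
      rw [Finset.mem_erase]; exact ⟨by omega, h3⟩
    rw [e1, e2, pd_swap (q k g) (w k g) (τ + g) τ, sub_self]
    · simp
    · simp
    · intro c hc
      rw [List.mem_append, List.mem_cons, List.mem_singleton] at hc
      have hc' : c ≤ g ∧ c ≠ g - τ := by
        rcases hc with hc | rfl | rfl
        · have := mem_er g _ c hc; omega
        · omega
        · omega
      unfold q
      rw [if_neg (by omega), if_neg (by omega), if_neg (by omega), if_neg (by omega),
        if_neg (by omega), if_neg (by omega)]
    · intro c _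
      rw [show τ + g + c = τ + c + g by omega, w_per]
  · have h0g : 0 ∈ J ∧ g ∈ J := by
      by_contra hn
      have hinj : Set.InjOn (fun j => j % g) (J : Set ℕ) := by
        intro a ha b hb hab
        have ha' := hJ a ha
        have hb' := hJ b hb
        have hab' : a % g = b % g := hab
        by_contra hne
        wlog hlt : a < b generalizing a b
        · exact this hb ha hab.symm hb' ha' hab'.symm (fun e => hne e.symm) (by omega)
        have hag : a < g := by
          by_contra hge
          have e1 : a % g = a - g := by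
            rw [Nat.mod_eq_sub_mod (by omega), Nat.mod_eq_of_lt (by omega)]
          have e2 : b % g = b - g := by
            rw [Nat.mod_eq_sub_mod (by omega), Nat.mod_eq_of_lt (by omega)]
          omega
        have e1 : a % g = a := Nat.mod_eq_of_lt hag
        have hbg : g ≤ b := by
          by_contra hlt'
          rw [e1, Nat.mod_eq_of_lt (by omega)] at hab'
          omega
        have e2 : b % g = b - g := by
          rw [Nat.mod_eq_sub_mod hbg, Nat.mod_eq_of_lt (by omega)]
        have hb2 : b = a + g := by omega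
        rcases Nat.eq_zero_or_pos a with rfl | hpos
        · exact hn ⟨ha, by rw [zero_add] at hb2; rw [← hb2]; exact hb⟩
        · exact hA ⟨a, hpos, hag, ha, by rw [← hb2]; exact hb⟩
      have h5 := Finset.card_le_card_of_injOn (s := J) (t := Finset.range g) (fun j => j % g)
        (fun j _ => Finset.mem_coe.2 (Finset.mem_range.2 (Nat.mod_lt _ (by omega)))) hinj
      rw [Finset.card_range] at h5
      omega
    rw [pd_perm _ _ (rows g hg), PD g hg (w k g) _ J hJ (mem_rows g hg) h0g.1 h0g.2 (by
      rw [hJc, List.length_range']; omega)]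
    have : - w k g 0 + 2 * w k g g + w k g (2 * g) = 0 := by
      have h1 : w k g 0 = 0 := by
        unfold w; rw [Nat.zero_mod, if_neg (by omega)]
      have h2 : w k g g = 0 := by
        unfold w; rw [Nat.mod_self, if_neg (by omega)]
      have h3 : w k g (2 * g) = 0 := by
        unfold w; rw [Nat.mul_mod_left, if_neg (by omega)]
      rw [h1, h2, h3]; ring
    rw [this, mul_zero]

lemma kill (h2 : (2 : k) ≠ 0) (g : ℕ) (hg : 2 ≤ g) (y : ℕ → k)
    (hy0 : ∀ s ∈ Finset.range (g + 1), y s = 0) (hy : Tt (2 * g) (g + 1) (q k g) y) :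
    ∀ v, v + 1 < 2 * g + (g + 1) → y v = 0 := by
  have hz : ∀ s, s ≤ g → y s = 0 := fun s hs => hy0 s (Finset.mem_range.2 (by omega))
  have hd : y (2 * g) = 0 := by
    have h := hy (Finset.range (g + 1)) (Finset.card_range _) (by
      intro j hj; rw [Finset.mem_range] at hj; omega)
    rw [pd_perm _ _ (rows g hg)] at h
    have h1 := proc g hg y [] (List.range' 1 (g - 1)) (Finset.range (g + 1)) (by
      intro j hj; rw [Finset.mem_range] at hj; omega) List.nodup_range' (by
      intro c hc
      have := mem_rows g hg c hc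
      refine ⟨this.1, this.2, ?_, ?_⟩
      · rw [Finset.mem_range]; omega
      · rw [Finset.mem_range]; omega) (by simp)
    rw [List.nil_append] at h1
    have h3 : ∀ M : List ℕ, (∀ c, c ∈ M ↔ 1 ≤ c ∧ c < g) →
        (Finset.range (g + 1)).filter (fun j => ∀ c ∈ M, j ≠ g - c) = {0, g} := by
      intro M hM
      ext j
      simp only [Finset.mem_filter, Finset.mem_range, hM, Finset.mem_insert,
        Finset.mem_singleton]
      constructor
      · rintro ⟨ha, hb⟩
        by_contra hn
        exact hb (g - j) (by omega) (by omega)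
      · intro ha
        refine ⟨by omega, fun c hc => by omega⟩
    rw [h1, h3 _ (fun c => by rw [List.mem_range'_1]; omega), b1 g hg, hz 0 (by omega),
      hz g le_rfl] at h
    simpa using h
  have hτ : ∀ τ, 1 ≤ τ → τ < g → y (τ + 2 * g) = 0 ∧ y (τ + g) = 0 := by
    intro τ h1 h3
    set E := (List.range' 1 (g - 1)).erase (g - τ) with hE
    have hperm : (List.range (g + 1)).Perm (E ++ ([g - τ] ++ [0, g])) := by
      refine (perm_erase g (g - τ) hg (by omega) (by omega)).trans ?_
      exact List.perm_middle.symm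
    have hnd : E.Nodup := (List.nodup_range' (step := 1)).erase _
    have key : ∀ a, (a = 0 ∨ a = g) → ∀ J : Finset ℕ, (∀ j, j ∈ J ↔ j = a ∨ (1 ≤ j ∧ j < g) ∨
        j = τ + g) → J.card = g + 1 →
        pd (q k g) y {a, τ + g} [0, g] - pd (q k g) y {a, τ} [0, g] = 0 := by
      intro a ha J hJ hc
      have hJ2 : ∀ j ∈ J, j < 2 * g := by
        intro j hj; rw [hJ] at hj; omega
      have h := hy J hc hJ2
      rw [pd_perm _ _ hperm, proc g hg y [g - τ] E J hJ2 hnd (by
        intro c hc'
        have := mem_er g _ c hc'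
        refine ⟨this.1, this.2.1, ?_, ?_⟩
        · rw [hJ]; omega
        · rw [hJ]; omega) (by
        intro c hc'
        rw [List.mem_singleton] at hc'
        omega)] at h
      have h4 : J.filter (fun j => ∀ c ∈ E, j ≠ g - c) = {a, τ, τ + g} := by
        ext j
        simp only [Finset.mem_filter, hJ, Finset.mem_insert, Finset.mem_singleton]
        constructor
        · rintro ⟨hb, hc'⟩
          by_contra hn
          refine hc' (g - j) ?_ (by omega)
          rw [hE, (List.nodup_range' (step := 1)).mem_erase_iff, List.mem_range'_1]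
          omega
        · intro hb
          refine ⟨by omega, fun c hc' => ?_⟩
          have := mem_er g _ c hc'
          omega
      rw [h4] at h
      have h5 := pd_row g hg y (g - τ) [] {a, τ, τ + g} (by
        intro j hj
        simp only [Finset.mem_insert, Finset.mem_singleton] at hj
        omega) (by
        intro c hc'
        rw [List.mem_singleton] at hc'
        omega)
      rw [show g - (g - τ) = τ by omega, show 2 * g - (g - τ) = τ + g by omega, if_pos (by simp),
        if_pos (by simp)] at h5
      have e1 : ({a, τ, τ + g} : Finset ℕ).erase τ = {a, τ + g} := by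
        ext j; simp only [Finset.mem_erase, Finset.mem_insert, Finset.mem_singleton]; omega
      have e2 : ({a, τ, τ + g} : Finset ℕ).erase (τ + g) = {a, τ} := by
        ext j; simp only [Finset.mem_erase, Finset.mem_insert, Finset.mem_singleton]; omega
      rw [e1, e2] at h5
      rw [← h]
      exact h5.symm
    have k0 := key 0 (Or.inl rfl) (insert (τ + g) (Finset.range g)) (by
      intro j; simp only [Finset.mem_insert, Finset.mem_range]; omega) (by
      rw [Finset.card_insert_of_notMem (by rw [Finset.mem_range]; omega), Finset.card_range])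
    have kg := key g (Or.inr rfl) (insert (τ + g) ((Finset.range (g + 1)).erase 0)) (by
      intro j; simp only [Finset.mem_insert, Finset.mem_erase, Finset.mem_range]; omega) (by
      rw [Finset.card_insert_of_notMem (by
        simp only [Finset.mem_erase, Finset.mem_range]; omega), Finset.card_erase_of_mem (by
        rw [Finset.mem_range]; omega), Finset.card_range]; omega)
    rw [b2 g hg y _ (by omega) (by omega) (by omega), b2 g hg y _ (by omega) (by omega) (by omega),
      hz τ (by omega), show τ + g + g = τ + 2 * g by omega] at k0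
    rw [b3 g hg y _ (by omega) (by omega) (by omega), b3 g hg y _ (by omega) (by omega) (by omega),
      hz τ (by omega), show τ + g + g = τ + 2 * g by omega] at kg
    have e3 : y (τ + 2 * g) = 0 := by linear_combination k0
    refine ⟨e3, ?_⟩
    rw [e3] at kg
    have e4 : (2 : k) * y (τ + g) = 0 := by linear_combination -kg
    exact (mul_eq_zero.1 e4).resolve_left h2
  intro v hv
  rcases Nat.lt_or_ge v (g + 1) with h | h
  · exact hz v (by omega)
  · rcases Nat.lt_trichotomy v (2 * g) with h' | h' | h'
    · have := (hτ (v - g) (by omega) (by omega)).2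
      rwa [show v - g + g = v by omega] at this
    · rw [h']; exact hd
    · have := (hτ (v - 2 * g) (by omega) (by omega)).1
      rwa [show v - 2 * g + 2 * g = v by omega] at this

/-- the index sets of the quadric -/
def Jb (g b : ℕ) : Finset ℕ := insert b ((Finset.range (g + 1)).erase 1)

lemma mem_Jb (g b j : ℕ) : j ∈ Jb g b ↔ j = b ∨ (j ≠ 1 ∧ j < g + 1) := by
  unfold Jb
  simp only [Finset.mem_insert, Finset.mem_erase, Finset.mem_range]

lemma erase_Jb (g b : ℕ) (hg : 2 ≤ g) (hb : b = 1 ∨ b = g + 1) :
    (Jb g b).erase b = (Finset.range (g + 1)).erase 1 := by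
  unfold Jb
  rw [Finset.erase_insert]
  simp only [Finset.mem_erase, Finset.mem_range]; omega

lemma card_Jb (g b : ℕ) (hg : 2 ≤ g) (hb : b = 1 ∨ b = g + 1) : (Jb g b).card = g + 1 := by
  unfold Jb
  rw [Finset.card_insert_of_notMem (by simp only [Finset.mem_erase, Finset.mem_range]; omega),
    Finset.card_erase_of_mem (by rw [Finset.mem_range]; omega), Finset.card_range]
  omega

lemma Jb_lt (g b : ℕ) (hg : 2 ≤ g) (hb : b = 1 ∨ b = g + 1) : ∀ j ∈ Jb g b, j < 2 * g := by
  intro j hj; rw [mem_Jb] at hj; omega

/-- the sum over the row `g - 1` -/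
lemma row_sub (g b : ℕ) (hg : 2 ≤ g) (hb : b = 1 ∨ b = g + 1) (F : Finset ℕ → k) :
    (if g - (g - 1) ∈ Jb g b then F ((Jb g b).erase (g - (g - 1))) else 0) -
      (if 2 * g - (g - 1) ∈ Jb g b then F ((Jb g b).erase (2 * g - (g - 1))) else 0) =
    (if b = 1 then 1 else -1) * F ((Finset.range (g + 1)).erase 1) := by
  rw [show g - (g - 1) = 1 by omega, show 2 * g - (g - 1) = g + 1 by omega]
  rcases hb with rfl | rfl
  · rw [if_pos (by rw [mem_Jb]; omega), if_neg (by rw [mem_Jb]; omega), if_pos rfl,
      erase_Jb g 1 hg (Or.inl rfl)]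
    ring
  · rw [if_neg (by rw [mem_Jb]; omega), if_pos (by rw [mem_Jb]; omega), if_neg (by omega),
      erase_Jb g (g + 1) hg (Or.inr rfl)]
    ring

lemma pd_Jb (g b : ℕ) (hg : 2 ≤ g) (hb : b = 1 ∨ b = g + 1) (y : ℕ → k) :
    pd (q k g) y (Jb g b) (List.range (g + 1)) = (if b = 1 then 1 else -1) *
      pd (q k g) y ((Finset.range (g + 1)).erase 1)
        ((List.range' 1 (g - 1)).erase (g - 1) ++ [0, g]) := by
  rw [pd_perm _ _ (perm_erase g (g - 1) hg (by omega) (by omega)),
    pd_row g hg y (g - 1) _ _ (Jb_lt g b hg hb) (by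
      intro c hc
      rw [List.mem_cons] at hc
      rcases hc with rfl | hc
      · omega
      · have := mem_er g _ c hc; omega)]
  exact row_sub g b hg hb fun K => pd (q k g) y K
    ((List.range' 1 (g - 1)).erase (g - 1) ++ [0, g])

lemma w_one (g v : ℕ) (h : v % g = 1 ∨ v % g + 1 = g) : w k g v = 1 := by
  unfold w; rw [if_pos h]

lemma pq_Jb (g b : ℕ) (hg : 2 ≤ g) (hb : b = 1 ∨ b = g + 1) :
    pq (q k g) (w k g) (Jb g b) (List.range (g + 1)) = 2 + (if b = 1 then 1 else -1) *
      pq (q k g) (w k g) ((Finset.range (g + 1)).erase 1)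
        ((List.range' 1 (g - 1)).erase (g - 1) ++ [0, g]) := by
  set M := (List.range' 1 (g - 1)).erase (g - 1) with hM
  have hnd : M.Nodup := (List.nodup_range' (step := 1)).erase _
  have hMlen : M.length = g - 2 := by
    rw [hM, List.length_erase_of_mem (by rw [List.mem_range'_1]; omega), List.length_range']
    omega
  rw [pq_perm _ _ (perm_erase g (g - 1) hg (by omega) (by omega)), ← hM, pq_cons,
    Finset.sum_add_distrib]
  congr 1
  · have hw0 : - w k g 0 + 2 * w k g g + w k g (2 * g) = 0 := by
      have h1 : w k g 0 = 0 := by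
        unfold w; rw [Nat.zero_mod, if_neg (by omega)]
      have h2 : w k g g = 0 := by
        unfold w; rw [Nat.mod_self, if_neg (by omega)]
      have h3 : w k g (2 * g) = 0 := by
        unfold w; rw [Nat.mul_mod_left, if_neg (by omega)]
      rw [h1, h2, h3]; ring
    have hsub : ({0, g} : Finset ℕ) ⊆ Jb g b := by
      intro j hj
      simp only [Finset.mem_insert, Finset.mem_singleton] at hj
      rw [mem_Jb]; omega
    rw [← Finset.sum_subset hsub, Finset.sum_pair (by omega)]
    · have hone : w k g 1 = 1 := by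
        apply w_one
        rcases Nat.lt_or_ge 2 g with h | h
        · left; exact Nat.mod_eq_of_lt (by omega)
        · have : g = 2 := by omega
          subst this; left; rfl
      have hwb : w k g b = 1 := by
        rcases hb with rfl | rfl
        · exact hone
        · rw [show g + 1 = 1 + g by omega, w_per]; exact hone
      have hlast : w k g (g + (g - 1)) = 1 := by
        apply w_one
        right
        rw [Nat.add_mod_left, Nat.mod_eq_of_lt (by omega)]; omega
      have hproc : ∀ a, (a = 0 ∨ a = g) → ∀ a', (a' = 0 ∨ a' = g) → a ≠ a' →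
          pd (q k g) (w k g) ((Jb g b).erase a) (M ++ [0, g]) =
            pd (q k g) (w k g) {a', b} [0, g] := by
        intro a ha a' ha' haa
        have h1 := proc g hg (w k g) [] M ((Jb g b).erase a)
          (fun j hj => Jb_lt g b hg hb j (Finset.mem_of_mem_erase hj)) hnd (by
          intro c hc
          have := mem_er g _ c hc
          refine ⟨this.1, this.2.1, ?_, ?_⟩
          · rw [Finset.mem_erase, mem_Jb]; omega
          · rw [Finset.mem_erase, mem_Jb]; omega) (by simp)
        rw [List.nil_append] at h1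
        rw [h1]
        congr 1
        ext j
        simp only [Finset.mem_filter, Finset.mem_erase, mem_Jb, Finset.mem_insert,
          Finset.mem_singleton]
        constructor
        · rintro ⟨⟨h3, h4⟩, h5⟩
          by_contra hn
          refine h5 (g - j) ?_ (by omega)
          rw [hM, (List.nodup_range' (step := 1)).mem_erase_iff, List.mem_range'_1]
          omega
        · intro h3
          refine ⟨⟨by omega, by omega⟩, fun c hc => ?_⟩
          have := mem_er g _ c hc
          omega
      rw [hproc 0 (Or.inl rfl) g (Or.inr rfl) (by omega), hproc g (Or.inr rfl) 0 (Or.inl rfl)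
        (by omega), b2 g hg _ b (by omega) (by omega) (by omega),
        b3 g hg _ b (by omega) (by omega) (by omega), w_per, hwb, hlast]
      ring
    · intro j hj hj'
      simp only [Finset.mem_insert, Finset.mem_singleton, not_or] at hj'
      rw [PD g hg (w k g) M _ (fun i hi => Jb_lt g b hg hb i (Finset.mem_of_mem_erase hi))
        (fun c hc => by have := mem_er g _ c hc; omega)
        (by rw [Finset.mem_erase, mem_Jb]; omega) (by rw [Finset.mem_erase, mem_Jb]; omega)
        (by rw [Finset.card_erase_of_mem hj, card_Jb g b hg hb, hMlen]; omega), hw0]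
      ring
  · rw [row_h g (g - 1) (by omega) (by omega) (Jb g b)
      fun j => pq (q k g) (w k g) ((Jb g b).erase j) (M ++ [0, g])]
    exact row_sub g b hg hb fun K => pq (q k g) (w k g) K (M ++ [0, g])

end main

/-- B4 -/
theorem t (k : Type*) [Field k] : StmB4 k := by
  intro h2 hT g hg
  refine hT (2 * g) (g + 1) (by omega) (by omega) (q k g) (vt g hg) (Finset.range (g + 1))
    (by rw [Finset.card_range]) (fun y hy0 hy => kill h2 g hg y hy0 hy) (w k g) (tt g hg)
    {0, 1} (fun _ => 1) (fun a => Jb g (if a = 0 then 1 else g + 1)) ?_ ?_ ?_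
  · intro a _
    have hb : (if a = 0 then 1 else g + 1) = 1 ∨ (if a = 0 then 1 else g + 1) = g + 1 := by
      by_cases ha : a = 0
      · left; rw [if_pos ha]
      · right; rw [if_neg ha]
    exact ⟨card_Jb g _ hg hb, Jb_lt g _ hg hb⟩
  · intro y
    rw [Finset.sum_pair (by omega), if_pos rfl, if_neg (by omega), pd_Jb g 1 hg (Or.inl rfl),
      pd_Jb g (g + 1) hg (Or.inr rfl), if_pos rfl, if_neg (by omega)]
    ring
  · rw [Finset.sum_pair (by omega), if_pos rfl, if_neg (by omega), pq_Jb g 1 hg (Or.inl rfl),
      pq_Jb g (g + 1) hg (Or.inr rfl), if_pos rfl, if_neg (by omega)]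
    intro h
    have h4 : (2 : k) * 2 = 0 := by linear_combination h
    exact h2 (by simpa using h4)

end Pool.Agent.N729.HQ.B4a
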