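import Pool.Agent.N729.HQ.Stm

/-!
Project HQ (MP_9bc296_ag), part C2a: the point of the family C2 (`g = 2`, `t = 2 κ - 1`) and its tangent
space (helper438).
-/

set_option autoImplicit false

namespace Pool.Agent.N729.HQ.C2a

open Finset
open Pool.Agent.N186.HK (pm vm IsHankel)
open Pool.Agent.N729.HP
open Pool.Agent.N729.HQ

/-- two blocks -/
def sel {α : Type*} (a b : α) (ρ : ℕ) : α := if ρ = 0 then a else b

lemma sel_zero {α : Type*} (a b : α) : sel a b 0 = a := rfl

lemma sel_one {α : Type*} (a b : α) : sel a b 1 = b := rfl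

lemma JG_two (A B : Finset ℕ) :
    JG 2 0 (sel A B) [0, 1] = (A.image fun l => 2 * l) ∪ (B.image fun l => 2 * l + 1) := by
  ext j
  unfold JG
  simp only [mem_biUnion, List.mem_toFinset, List.mem_cons, List.not_mem_nil, or_false, mem_image, mem_union]
  constructor
  · rintro ⟨ρ, rfl | rfl, l, hl, rfl⟩
    · left
      exact ⟨l, hl, by simp [cc]⟩
    · right
      exact ⟨l, hl, by simp [cc]; omega⟩
  · rintro (⟨l, hl, rfl⟩ | ⟨l, hl, rfl⟩)
    · exact ⟨0, Or.inl rfl, l, hl, by simp [cc]⟩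
    · exact ⟨1, Or.inr rfl, l, hl, by simp [cc]; omega⟩

lemma LG_two (A B : List ℕ) :
    LG 2 (sel A B) [0, 1] = (A.map fun i => 0 + 2 * i) ++ (B.map fun i => 1 + 2 * i) := by
  unfold LG
  simp [sel]

section

variable {k : Type*} [Field k]

lemma two_pm0 (hRF : StmRF k) (u : ℕ → k) (A B : Finset ℕ) (LA LB : List ℕ) (hA : LA.Nodup) (hB : LB.Nodup)
    (h : A.card < LA.length ∨ B.card < LB.length) :
    pm (cst 2 0 u) (JG 2 0 (sel A B) [0, 1]) (LG 2 (sel LA LB) [0, 1]) = 0 := by
  have h1 := hRF 2 0 u u (by norm_num) (sel A B) (sel LA LB) [0, 1] (by simp) (by simp) (by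
    intro ρ hρ
    simp only [List.mem_cons, List.not_mem_nil, or_false] at hρ
    rcases hρ with rfl | rfl
    · exact hA
    · exact hB)
  apply h1.1
  rcases h with h | h
  · exact ⟨0, by simp, h⟩
  · exact ⟨1, by simp, h⟩

lemma two_pm (u : ℕ → k) (A B : Finset ℕ) (LA LB : List ℕ) :
    pm (cst 2 0 u) (JG 2 0 (sel A B) [0, 1]) (LG 2 (sel LA LB) [0, 1]) =
      pm u A LA * pm (fun s => u (s + 1)) B LB := by
  have h1 := (ra k 2 0 u (by norm_num) (sel A B) (sel LA LB) [0, 1] [] (by simp) (by simp)).2.2.2.2.2.2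
  rw [h1]
  have e : ([0, 1] : List ℕ).toFinset = {0, 1} := by rfl
  rw [e, Finset.prod_pair (by norm_num)]
  rfl

lemma two_sq (hRF : StmRF k) (u y : ℕ → k) (A B : Finset ℕ) (LA LB : List ℕ) (hA : LA.Nodup) (hB : LB.Nodup)
    (cA : A.card = LA.length) (cB : B.card = LB.length) :
    pd (cst 2 0 u) y (JG 2 0 (sel A B) [0, 1]) (LG 2 (sel LA LB) [0, 1]) =
      pd u (fun s => y (2 * s)) A LA * pm (fun s => u (s + 1)) B LB +
      pd (fun s => u (s + 1)) (fun s => y (2 * (s + 1))) B LB * pm u A LA := by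
  have h1 := hRF 2 0 u y (by norm_num) (sel A B) (sel LA LB) [0, 1] (by simp) (by simp) (by
    intro ρ hρ
    simp only [List.mem_cons, List.not_mem_nil, or_false] at hρ
    rcases hρ with rfl | rfl
    · exact hA
    · exact hB)
  rw [h1.2.1 (by
    intro ρ hρ
    simp only [List.mem_cons, List.not_mem_nil, or_false] at hρ
    rcases hρ with rfl | rfl
    · exact cA
    · exact cB)]
  have e : ([0, 1] : List ℕ).toFinset = {0, 1} := by rfl
  have e0 : ({0, 1} : Finset ℕ).erase 0 = {1} := by rfl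
  have e1 : ({0, 1} : Finset ℕ).erase 1 = {0} := by rfl
  rw [e, Finset.sum_pair (by norm_num), e0, e1, Finset.prod_singleton, Finset.prod_singleton]
  simp only [sel_zero, sel_one, sh, zero_add, le_refl, if_true, add_zero]
  have e2 : ¬ (1 ≤ 0) := by norm_num
  simp only [if_neg e2]

lemma two_pd01 (hRF : StmRF k) (u y : ℕ → k) (A B : Finset ℕ) (LA LB : List ℕ) (hA : LA.Nodup) (hB : LB.Nodup)
    (cA : A.card + 1 = LA.length) (cB : B.card = LB.length + 1) :
    pd (cst 2 0 u) y (JG 2 0 (sel A B) [0, 1]) (LG 2 (sel LA LB) [0, 1]) =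
      ∑ i ∈ LA.toFinset, ∑ l ∈ B, y (2 * (i + l) + 1) * pm u A (LA.erase i) *
        pm (fun s => u (s + 1)) (B.erase l) LB := by
  have h1 := hRF 2 0 u y (by norm_num) (sel A B) (sel LA LB) [0, 1] (by simp) (by simp) (by
    intro ρ hρ
    simp only [List.mem_cons, List.not_mem_nil, or_false] at hρ
    rcases hρ with rfl | rfl
    · exact hA
    · exact hB)
  rw [h1.2.2.1 0 (by simp) 1 (by simp) (by norm_num) cA cB (by
    intro ρ hρ h0 h1
    simp only [List.mem_cons, List.not_mem_nil, or_false] at hρ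
    rcases hρ with rfl | rfl
    · exact absurd rfl h0
    · exact absurd rfl h1)]
  have e : (([0, 1] : List ℕ).toFinset.erase 0).erase 1 = ∅ := by rfl
  rw [e, Finset.prod_empty, mul_one]
  refine Finset.sum_congr rfl fun i _ => Finset.sum_congr rfl fun l _ => ?_
  have e3 : 0 + 2 * i + (cc 2 0 1 + 2 * l) = 2 * (i + l) + 1 := by
    have : cc 2 0 1 = 1 := by rfl
    rw [this]
    ring
  rw [e3]
  rfl

lemma two_pd10 (hRF : StmRF k) (u y : ℕ → k) (A B : Finset ℕ) (LA LB : List ℕ) (hA : LA.Nodup) (hB : LB.Nodup)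
    (cA : A.card = LA.length + 1) (cB : B.card + 1 = LB.length) :
    pd (cst 2 0 u) y (JG 2 0 (sel A B) [0, 1]) (LG 2 (sel LA LB) [0, 1]) =
      ∑ i ∈ LB.toFinset, ∑ l ∈ A, y (2 * (i + l) + 1) * pm (fun s => u (s + 1)) B (LB.erase i) *
        pm u (A.erase l) LA := by
  have h1 := hRF 2 0 u y (by norm_num) (sel A B) (sel LA LB) [0, 1] (by simp) (by simp) (by
    intro ρ hρ
    simp only [List.mem_cons, List.not_mem_nil, or_false] at hρ
    rcases hρ with rfl | rfl
    · exact hA
    · exact hB)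
  rw [h1.2.2.1 1 (by simp) 0 (by simp) (by norm_num) cB cA (by
    intro ρ hρ h0 h1
    simp only [List.mem_cons, List.not_mem_nil, or_false] at hρ
    rcases hρ with rfl | rfl
    · exact absurd rfl h1
    · exact absurd rfl h0)]
  have e : (([0, 1] : List ℕ).toFinset.erase 1).erase 0 = ∅ := by rfl
  rw [e, Finset.prod_empty, mul_one]
  refine Finset.sum_congr rfl fun i _ => Finset.sum_congr rfl fun l _ => ?_
  have e3 : 1 + 2 * i + (cc 2 0 0 + 2 * l) = 2 * (i + l) + 1 := by
    have : cc 2 0 0 = 0 := by rfl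
    rw [this]
    ring
  rw [e3]
  rfl

/-! ### the decompositions -/

lemma J0 {κ l0 : ℕ} : (range (2 * κ)).erase (2 * l0) = JG 2 0 (sel ((range κ).erase l0) (range κ)) [0, 1] := by
  rw [JG_two]
  ext j
  simp only [mem_erase, mem_range, mem_union, mem_image]
  constructor
  · rintro ⟨h1, h2⟩
    rcases Nat.even_or_odd' j with ⟨s, rfl | rfl⟩
    · left
      exact ⟨s, ⟨by omega, by omega⟩, rfl⟩
    · right
      exact ⟨s, by omega, rfl⟩
  · rintro (⟨l, ⟨h1, h2⟩, rfl⟩ | ⟨l, h1, rfl⟩)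
    · omega
    · omega

lemma J1 {κ l1 : ℕ} : (range (2 * κ)).erase (2 * l1 + 1) =
    JG 2 0 (sel (range κ) ((range κ).erase l1)) [0, 1] := by
  rw [JG_two]
  ext j
  simp only [mem_erase, mem_range, mem_union, mem_image]
  constructor
  · rintro ⟨h1, h2⟩
    rcases Nat.even_or_odd' j with ⟨s, rfl | rfl⟩
    · left
      exact ⟨s, by omega, rfl⟩
    · right
      exact ⟨s, ⟨by omega, by omega⟩, rfl⟩
  · rintro (⟨l, h1, rfl⟩ | ⟨l, ⟨h1, h2⟩, rfl⟩)
    · omega
    · omega

lemma J0' {κ l0 : ℕ} (hκ : 1 ≤ κ) : ((range (2 * κ)).erase (2 * l0)).erase (2 * κ - 1) =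
    JG 2 0 (sel ((range κ).erase l0) (range (κ - 1))) [0, 1] := by
  rw [JG_two]
  ext j
  simp only [mem_erase, mem_range, mem_union, mem_image]
  constructor
  · rintro ⟨h0, h1, h2⟩
    rcases Nat.even_or_odd' j with ⟨s, rfl | rfl⟩
    · left
      exact ⟨s, ⟨by omega, by omega⟩, rfl⟩
    · right
      exact ⟨s, by omega, rfl⟩
  · rintro (⟨l, ⟨h1, h2⟩, rfl⟩ | ⟨l, h1, rfl⟩)
    · omega
    · omega

lemma J1' {κ l1 : ℕ} (hκ : 1 ≤ κ) : ((range (2 * κ)).erase (2 * l1 + 1)).erase (2 * κ - 1) =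
    JG 2 0 (sel (range κ) ((range (κ - 1)).erase l1)) [0, 1] := by
  rw [JG_two]
  ext j
  simp only [mem_erase, mem_range, mem_union, mem_image]
  constructor
  · rintro ⟨h0, h1, h2⟩
    rcases Nat.even_or_odd' j with ⟨s, rfl | rfl⟩
    · left
      exact ⟨s, by omega, rfl⟩
    · right
      exact ⟨s, ⟨by omega, by omega⟩, rfl⟩
  · rintro (⟨l, h1, rfl⟩ | ⟨l, ⟨h1, h2⟩, rfl⟩)
    · omega
    · omega

lemma nodup_two (A B : List ℕ) (hA : A.Nodup) (hB : B.Nodup) :
    ((A.map fun i => 0 + 2 * i) ++ (B.map fun i => 1 + 2 * i)).Nodup := by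
  rw [List.nodup_append]
  refine ⟨hA.map (fun a b h => ?_), hB.map (fun a b h => ?_), ?_⟩
  · have h' : 0 + 2 * a = 0 + 2 * b := h
    omega
  · have h' : 1 + 2 * a = 1 + 2 * b := h
    omega
  intro a ha b hb
  rw [List.mem_map] at ha hb
  obtain ⟨s, -, rfl⟩ := ha
  obtain ⟨r, -, rfl⟩ := hb
  omega

lemma L0 {κ : ℕ} (hκ : 1 ≤ κ) : (List.range (2 * κ - 1)).Perm
    (LG 2 (sel (List.range κ) (List.range (κ - 1))) [0, 1]) := by
  rw [LG_two, List.perm_ext_iff_of_nodup List.nodup_range (nodup_two _ _ List.nodup_range List.nodup_range)]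
  intro j
  simp only [List.mem_range, List.mem_append, List.mem_map]
  constructor
  · intro h
    rcases Nat.even_or_odd' j with ⟨s, rfl | rfl⟩
    · left
      exact ⟨s, by omega, by omega⟩
    · right
      exact ⟨s, by omega, by omega⟩
  · rintro (⟨l, h1, rfl⟩ | ⟨l, h1, rfl⟩)
    · omega
    · omega

lemma L1 {κ : ℕ} (hκ : 1 ≤ κ) : ((List.range (2 * κ - 1)).erase (2 * κ - 2)).Perm
    (LG 2 (sel (List.range (κ - 1)) (List.range (κ - 1))) [0, 1]) := by
  rw [LG_two, List.perm_ext_iff_of_nodup (List.nodup_range.erase _)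
    (nodup_two _ _ List.nodup_range List.nodup_range)]
  intro j
  rw [List.nodup_range.mem_erase_iff]
  simp only [List.mem_range, List.mem_append, List.mem_map]
  constructor
  · rintro ⟨h0, h⟩
    rcases Nat.even_or_odd' j with ⟨s, rfl | rfl⟩
    · left
      exact ⟨s, by omega, by omega⟩
    · right
      exact ⟨s, by omega, by omega⟩
  · rintro (⟨l, h1, rfl⟩ | ⟨l, h1, rfl⟩)
    · omega
    · omega

lemma range_erase_last {κ : ℕ} (hκ : 1 ≤ κ) : (List.range κ).erase (κ - 1) = List.range (κ - 1) := by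
  obtain ⟨q, rfl⟩ : ∃ q, κ = q + 1 := ⟨κ - 1, by omega⟩
  rw [Nat.add_sub_cancel, List.range_succ, List.erase_append_right _ (by simp)]
  simp

/-! ### the link -/

lemma cst_q (κ : ℕ) (h : 4 ≤ κ) (v : ℕ) (hv : v ≠ 4 * κ - 3) : qC2 k κ v = cst 2 0 (uN k κ) v := by
  unfold qC2 cst uN
  rcases Nat.even_or_odd' v with ⟨s, rfl | rfl⟩
  · rw [if_pos (by omega : 2 * s % 2 = 0), show 2 * s / 2 = s by omega]
    split_ifs <;> first | rfl | (exfalso; omega)
  · rw [if_neg (by omega : ¬ (2 * s + 1) % 2 = 0), if_neg (by omega), if_neg (by omega)]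

lemma q_z (κ : ℕ) (h : 4 ≤ κ) : qC2 k κ (4 * κ - 3) - cst 2 0 (uN k κ) (4 * κ - 3) = 1 := by
  unfold qC2 cst
  rw [if_pos (by omega), if_neg (by omega), sub_zero]

lemma link (hLK : StmLK k) {κ : ℕ} (h : 4 ≤ κ) (y : ℕ → k) (J : Finset ℕ) (hJ : ∀ j ∈ J, j < 2 * κ) :
    pm (qC2 k κ) J (List.range (2 * κ - 1)) = pm (cst 2 0 (uN k κ)) J (List.range (2 * κ - 1)) +
      (if 2 * κ - 1 ∈ J then pm (cst 2 0 (uN k κ)) (J.erase (2 * κ - 1))
        ((List.range (2 * κ - 1)).erase (2 * κ - 2)) else 0) ∧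
    pd (qC2 k κ) y J (List.range (2 * κ - 1)) = pd (cst 2 0 (uN k κ)) y J (List.range (2 * κ - 1)) +
      (if 2 * κ - 1 ∈ J then pd (cst 2 0 (uN k κ)) y (J.erase (2 * κ - 1))
        ((List.range (2 * κ - 1)).erase (2 * κ - 2)) else 0) := by
  have h1 := hLK.1 (cst 2 0 (uN k κ)) (qC2 k κ) y (4 * κ - 3) (2 * κ - 1) (2 * κ - 2) (by omega)
    (cst_q κ h) J (List.range (2 * κ - 1)) List.nodup_range (by
      intro j hj c hc h2
      have h3 := hJ j hj
      have h4 := List.mem_range.1 hc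
      omega)
  obtain ⟨a1, a2, -⟩ := h1
  rw [a1, a2, q_z κ h]
  have h5 : 2 * κ - 2 ∈ List.range (2 * κ - 1) := List.mem_range.2 (by omega)
  simp only [h5, and_true, one_mul]

lemma pmp (x : ℕ → k) {L L' : List ℕ} (h : L.Perm L') (J : Finset ℕ) : pm x J L = pm x J L' :=
  (BA.ta k).1 x L L' h J

lemma pdp (x y : ℕ → k) {L L' : List ℕ} (h : L.Perm L') (J : Finset ℕ) : pd x y J L = pd x y J L' :=
  (BA.ta k).2.1 x y L L' h J

/-! ### the cofactors -/

/-- the cofactors of the block `A` -/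
def cb (κ i l : ℕ) : k :=
  if i + 1 = κ ∧ l + 1 = κ then 2 else if i + 1 = κ ∨ l + 1 = κ then 0 else
    if i + l < κ then 1 else -1

/-- the cofactors of the block `B` without the last column -/
def ca (κ i l : ℕ) : k := if i + l + 1 < κ then 1 else -1

/-- the derivative of the block `A` -/
def dB (κ : ℕ) (y : ℕ → k) : k := ∑ i ∈ range κ, ∑ l ∈ range κ, y (2 * (l + i)) * cb κ i l

/-- the derivative of the block `B` -/
def dA (κ : ℕ) (y : ℕ → k) : k :=
  ∑ i ∈ range (κ - 1), ∑ l ∈ range (κ - 1), y (2 * (l + i + 1)) * ca κ i l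

/-- the sums -/
def WW (κ : ℕ) (y : ℕ → k) (i : ℕ) : k := ∑ l ∈ range (κ - 1), y (2 * (i + l) + 1)

lemma fin_range (κ : ℕ) : (List.range κ).toFinset = range κ := by
  ext i
  simp

lemma card_er {κ l : ℕ} (h : l < κ) : ((range κ).erase l).card = κ - 1 := by
  rw [card_erase_of_mem (mem_range.2 h), card_range]

lemma pdA (κ : ℕ) (hκ : 3 ≤ κ) (y : ℕ → k) :
    pd (uN k κ) (fun s => y (2 * s)) (range κ) (List.range κ) = dB κ y := by
  rw [bf k _ _ _ _ List.nodup_range, fin_range]
  unfold dB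
  refine Finset.sum_congr rfl fun i hi => Finset.sum_congr rfl fun l hl => ?_
  rw [(cn k κ hκ).2.1 i (mem_range.1 hi) l (mem_range.1 hl)]
  rfl

lemma pdB (κ : ℕ) (hκ : 3 ≤ κ) (y : ℕ → k) :
    pd (fun s => uN k κ (s + 1)) (fun s => y (2 * (s + 1))) (range (κ - 1)) (List.range (κ - 1)) = dA κ y := by
  rw [bf k _ _ _ _ List.nodup_range, fin_range]
  unfold dA
  refine Finset.sum_congr rfl fun i hi => Finset.sum_congr rfl fun l hl => ?_
  rw [(cn k κ hκ).2.2.2.1 i (mem_range.1 hi) l (mem_range.1 hl)]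
  rfl

lemma pmA (κ : ℕ) (hκ : 3 ≤ κ) {l : ℕ} (hl : l < κ) :
    pm (uN k κ) ((range κ).erase l) (List.range (κ - 1)) = cb κ (κ - 1) l := by
  rw [← range_erase_last (by omega : 1 ≤ κ), (cn k κ hκ).2.1 (κ - 1) (by omega) l hl]
  rfl

/-! ### the permanents and the derivatives at the point -/

lemma pm_even (hLK : StmLK k) (hRF : StmRF k) {κ : ℕ} (h : 4 ≤ κ) {l0 : ℕ} (hl : l0 < κ) :
    pm (qC2 k κ) ((range (2 * κ)).erase (2 * l0)) (List.range (2 * κ - 1)) = 0 := by
  have h1 := (link hLK h (fun _ => 0) ((range (2 * κ)).erase (2 * l0)) (by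
    intro j hj
    exact mem_range.1 (mem_of_mem_erase hj))).1
  have e1 : pm (cst 2 0 (uN k κ)) ((range (2 * κ)).erase (2 * l0)) (List.range (2 * κ - 1)) = 0 := by
    rw [pmp _ (L0 (by omega : 1 ≤ κ)), J0, two_pm0 hRF]
    · exact List.nodup_range
    · exact List.nodup_range
    · left
      rw [card_er hl, List.length_range]
      omega
  have e2 : pm (cst 2 0 (uN k κ)) (((range (2 * κ)).erase (2 * l0)).erase (2 * κ - 1))
      ((List.range (2 * κ - 1)).erase (2 * κ - 2)) = 0 := by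
    rw [pmp _ (L1 (by omega : 1 ≤ κ)), J0' (by omega), two_pm, (cn k κ (by omega)).2.2.1, mul_zero]
  rw [h1, e1, e2]
  simp

lemma pm_odd (hLK : StmLK k) (hRF : StmRF k) {κ : ℕ} (h : 4 ≤ κ) {l1 : ℕ} (hl : l1 < κ) :
    pm (qC2 k κ) ((range (2 * κ)).erase (2 * l1 + 1)) (List.range (2 * κ - 1)) = 0 := by
  have h1 := (link hLK h (fun _ => 0) ((range (2 * κ)).erase (2 * l1 + 1)) (by
    intro j hj
    exact mem_range.1 (mem_of_mem_erase hj))).1
  have e1 : pm (cst 2 0 (uN k κ)) ((range (2 * κ)).erase (2 * l1 + 1)) (List.range (2 * κ - 1)) = 0 := by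
    rw [pmp _ (L0 (by omega : 1 ≤ κ)), J1, two_pm, (cn k κ (by omega)).1, zero_mul]
  rw [h1, e1, zero_add]
  split_ifs with h2
  · rw [pmp _ (L1 (by omega : 1 ≤ κ)), J1' (by omega), two_pm0 hRF]
    · exact List.nodup_range
    · exact List.nodup_range
    · right
      rw [mem_erase] at h2
      rw [card_er (by omega : l1 < κ - 1), List.length_range]
      omega
  · rfl

lemma pd_even (hLK : StmLK k) (hRF : StmRF k) {κ : ℕ} (h : 4 ≤ κ) (y : ℕ → k) {l0 : ℕ} (hl : l0 < κ) :
    pd (qC2 k κ) y ((range (2 * κ)).erase (2 * l0)) (List.range (2 * κ - 1)) =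
      ∑ i ∈ range κ, WW κ y i * cb κ i l0 + cb κ (κ - 1) l0 * dA κ y := by
  have h1 := (link hLK h y ((range (2 * κ)).erase (2 * l0)) (by
    intro j hj
    exact mem_range.1 (mem_of_mem_erase hj))).2
  have e1 : pd (cst 2 0 (uN k κ)) y ((range (2 * κ)).erase (2 * l0)) (List.range (2 * κ - 1)) =
      ∑ i ∈ range κ, WW κ y i * cb κ i l0 := by
    rw [pdp _ _ (L0 (by omega : 1 ≤ κ)), J0,
      two_pd01 hRF _ _ _ _ _ _ List.nodup_range List.nodup_range (by
        rw [card_er hl, List.length_range]; omega) (by rw [card_range, List.length_range]; omega), fin_range]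
    refine Finset.sum_congr rfl fun i hi => ?_
    unfold WW
    rw [Finset.sum_mul]
    have h5 := (cn k κ (by omega)).2.2.2.2
    have h6 := (cn k κ (by omega)).2.1 i (mem_range.1 hi) l0 hl
    rw [h6]
    have h7 : ∀ l ∈ range κ, y (2 * (i + l) + 1) *
        (if i + 1 = κ ∧ l0 + 1 = κ then 2 else if i + 1 = κ ∨ l0 + 1 = κ then 0 else
          if i + l0 < κ then 1 else -1) *
        pm (fun s => uN k κ (s + 1)) ((range κ).erase l) (List.range (κ - 1)) =
        if l + 1 = κ then 0 else y (2 * (i + l) + 1) * cb κ i l0 := by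
      intro l hl'
      rw [h5 l (mem_range.1 hl')]
      unfold cb
      by_cases h8 : l + 1 = κ
      · rw [if_pos h8, if_pos h8, mul_zero]
      · rw [if_neg h8, if_neg h8, mul_one]
    rw [Finset.sum_congr rfl h7]
    have h9 : range κ = range (κ - 1 + 1) := by rw [Nat.sub_add_cancel (by omega)]
    rw [h9, Finset.sum_range_succ, if_pos (by omega), add_zero]
    refine Finset.sum_congr rfl fun l hl' => ?_
    have h2 := mem_range.1 hl'
    rw [if_neg (by omega)]
  have e2 : pd (cst 2 0 (uN k κ)) y (((range (2 * κ)).erase (2 * l0)).erase (2 * κ - 1))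
      ((List.range (2 * κ - 1)).erase (2 * κ - 2)) = cb κ (κ - 1) l0 * dA κ y := by
    rw [pdp _ _ (L1 (by omega : 1 ≤ κ)), J0' (by omega),
      two_sq hRF _ _ _ _ _ _ List.nodup_range List.nodup_range (by
        rw [card_er hl, List.length_range]) (by rw [card_range, List.length_range]),
      (cn k κ (by omega)).2.2.1, mul_zero, zero_add, pdB κ (by omega), pmA κ (by omega) hl, mul_comm]
  rw [h1, if_pos (by rw [mem_erase, mem_range]; omega), e1, e2]

lemma pd_odd (hLK : StmLK k) (hRF : StmRF k) {κ : ℕ} (h : 4 ≤ κ) (y : ℕ → k) {l1 : ℕ} (hl : l1 < κ - 1) :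
    pd (qC2 k κ) y ((range (2 * κ)).erase (2 * l1 + 1)) (List.range (2 * κ - 1)) =
      dB κ y + ∑ i ∈ range (κ - 1), (2 * y (2 * (i + (κ - 1)) + 1)) * ca κ i l1 := by
  have h1 := (link hLK h y ((range (2 * κ)).erase (2 * l1 + 1)) (by
    intro j hj
    exact mem_range.1 (mem_of_mem_erase hj))).2
  have e1 : pd (cst 2 0 (uN k κ)) y ((range (2 * κ)).erase (2 * l1 + 1)) (List.range (2 * κ - 1)) =
      dB κ y := by
    rw [pdp _ _ (L0 (by omega : 1 ≤ κ)), J1,
      two_sq hRF _ _ _ _ _ _ List.nodup_range List.nodup_range (by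
        rw [card_range, List.length_range]) (by rw [card_er (by omega), List.length_range]),
      (cn k κ (by omega)).1, mul_zero, add_zero, pdA κ (by omega), (cn k κ (by omega)).2.2.2.2 l1 (by omega),
      if_neg (by omega), mul_one]
  have e2 : pd (cst 2 0 (uN k κ)) y (((range (2 * κ)).erase (2 * l1 + 1)).erase (2 * κ - 1))
      ((List.range (2 * κ - 1)).erase (2 * κ - 2)) =
      ∑ i ∈ range (κ - 1), (2 * y (2 * (i + (κ - 1)) + 1)) * ca κ i l1 := by
    rw [pdp _ _ (L1 (by omega : 1 ≤ κ)), J1' (by omega),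
      two_pd10 hRF _ _ _ _ _ _ List.nodup_range List.nodup_range (by
        rw [card_range, List.length_range]; omega) (by rw [card_er (by omega), List.length_range]; omega),
      fin_range]
    refine Finset.sum_congr rfl fun i hi => ?_
    have h2 := mem_range.1 hi
    rw [Finset.sum_eq_single (κ - 1)]
    · have e5 : (cb κ (κ - 1) (κ - 1) : k) = 2 := by
        unfold cb
        rw [if_pos (by omega)]
      rw [pmA κ (by omega) (by omega), (cn k κ (by omega)).2.2.2.1 i h2 l1 hl, e5]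
      unfold ca
      ring
    · intro l hl' hne
      have h3 := mem_range.1 hl'
      rw [pmA κ (by omega) h3]
      unfold cb
      rw [if_neg (by omega), if_pos (by omega), mul_zero]
    · intro h3
      exact absurd (mem_range.2 (by omega)) h3
  rw [h1, if_pos (by rw [mem_erase, mem_range]; omega), e1, e2]

lemma pd_last (hLK : StmLK k) (hRF : StmRF k) {κ : ℕ} (h : 4 ≤ κ) (y : ℕ → k) :
    pd (qC2 k κ) y ((range (2 * κ)).erase (2 * (κ - 1) + 1)) (List.range (2 * κ - 1)) = 0 := by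
  have h1 := (link hLK h y ((range (2 * κ)).erase (2 * (κ - 1) + 1)) (by
    intro j hj
    exact mem_range.1 (mem_of_mem_erase hj))).2
  rw [h1, if_neg (by rw [mem_erase]; omega), pdp _ _ (L0 (by omega : 1 ≤ κ)), J1,
    two_sq hRF _ _ _ _ _ _ List.nodup_range List.nodup_range (by
      rw [card_range, List.length_range]) (by rw [card_er (by omega), List.length_range]),
    (cn k κ (by omega)).1, (cn k κ (by omega)).2.2.2.2 (κ - 1) (by omega), if_pos (by omega)]
  ring

/-- the maximal submatrices -/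
lemma cases_J {κ : ℕ} (h : 4 ≤ κ) {J : Finset ℕ} (hc : J.card = 2 * κ - 1) (hJ : ∀ j ∈ J, j < 2 * κ) :
    (∃ l0 < κ, J = (range (2 * κ)).erase (2 * l0)) ∨
    (∃ l1 < κ - 1, J = (range (2 * κ)).erase (2 * l1 + 1)) ∨
    J = (range (2 * κ)).erase (2 * (κ - 1) + 1) := by
  have h1 : J ⊆ range (2 * κ) := fun j hj => mem_range.2 (hJ j hj)
  have h2 : (range (2 * κ) \ J).card = 1 := by
    rw [card_sdiff_of_subset h1, card_range, hc]
    omega
  obtain ⟨c, h3⟩ := card_eq_one.1 h2
  have h4 : J = (range (2 * κ)).erase c := by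
    rw [← sdiff_singleton_eq_erase, ← h3, Finset.sdiff_sdiff_eq_self h1]
  have h5 : c ∈ range (2 * κ) := by
    have : c ∈ range (2 * κ) \ J := by rw [h3]; exact mem_singleton_self c
    exact (mem_sdiff.1 this).1
  have h6 := mem_range.1 h5
  rcases Nat.even_or_odd' c with ⟨s, rfl | rfl⟩
  · left
    exact ⟨s, by omega, h4⟩
  · right
    rcases Nat.lt_or_ge s (κ - 1) with h7 | h7
    · left
      exact ⟨s, h7, h4⟩
    · right
      have : s = κ - 1 := by omega
      rw [this] at h4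
      exact h4

lemma tt_iff (hLK : StmLK k) (hRF : StmRF k) {κ : ℕ} (h : 4 ≤ κ) (y : ℕ → k) :
    Tt (2 * κ) (2 * κ - 1) (qC2 k κ) y ↔
      (∀ l0 < κ, ∑ i ∈ range κ, WW κ y i * cb κ i l0 + cb κ (κ - 1) l0 * dA κ y = 0) ∧
      (∀ l1 < κ - 1, dB κ y + ∑ i ∈ range (κ - 1), (2 * y (2 * (i + (κ - 1)) + 1)) * ca κ i l1 = 0) := by
  constructor
  · intro hT
    constructor
    · intro l0 hl
      rw [← pd_even hLK hRF h y hl]
      apply hT
      · rw [card_er (by omega)]
      · intro j hj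
        exact mem_range.1 (mem_of_mem_erase hj)
    · intro l1 hl
      rw [← pd_odd hLK hRF h y hl]
      apply hT
      · rw [card_er (by omega)]
      · intro j hj
        exact mem_range.1 (mem_of_mem_erase hj)
  · rintro ⟨h1, h2⟩ J hc hJ
    rcases cases_J h hc hJ with ⟨l0, hl, rfl⟩ | ⟨l1, hl, rfl⟩ | rfl
    · rw [pd_even hLK hRF h y hl]
      exact h1 l0 hl
    · rw [pd_odd hLK hRF h y hl]
      exact h2 l1 hl
    · exact pd_last hLK hRF h y

lemma vt (hLK : StmLK k) (hRF : StmRF k) {κ : ℕ} (h : 4 ≤ κ) : Vt (2 * κ) (2 * κ - 1) (qC2 k κ) := by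
  intro J hc hJ
  rcases cases_J h hc hJ with ⟨l0, hl, rfl⟩ | ⟨l1, hl, rfl⟩ | rfl
  · exact pm_even hLK hRF h hl
  · exact pm_odd hLK hRF h (by omega)
  · exact pm_odd hLK hRF h (by omega)

/-! ### the tangent space -/

lemma WW_diff (κ : ℕ) (y : ℕ → k) (i : ℕ) :
    WW κ y i - WW κ y (i + 1) = y (2 * i + 1) - y (2 * (i + (κ - 1)) + 1) := by
  unfold WW
  generalize κ - 1 = m
  induction m with
  | zero => simp
  | succ m ih =>
    rw [Finset.sum_range_succ, Finset.sum_range_succ]
    have e : i + 1 + m = i + (m + 1) := by ring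
    rw [e]
    linear_combination ih

lemma dA_zero {κ : ℕ} (y : ℕ → k) (h : ∀ s, 1 ≤ s → s + 1 < 2 * κ → y (2 * s) = 0) : dA κ y = 0 := by
  unfold dA
  refine Finset.sum_eq_zero fun i hi => Finset.sum_eq_zero fun l hl => ?_
  have h1 := mem_range.1 hi
  have h2 := mem_range.1 hl
  rw [h (l + i + 1) (by omega) (by omega), zero_mul]

lemma dB_one {κ : ℕ} (hκ : 4 ≤ κ) (y : ℕ → k) (h : ∀ s, 1 ≤ s → s + 1 < 2 * κ → y (2 * s) = 0) :
    dB κ y = y 0 := by
  unfold dB
  rw [Finset.sum_eq_single 0, Finset.sum_eq_single 0]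
  · unfold cb
    rw [if_neg (by omega), if_neg (by omega), if_pos (by omega), mul_one]
  · intro l hl hne
    have h2 := mem_range.1 hl
    rw [h (l + 0) (by omega) (by omega), zero_mul]
  · intro h3
    exact absurd (mem_range.2 (by omega)) h3
  · intro i hi hne
    have h1 := mem_range.1 hi
    refine Finset.sum_eq_zero fun l hl => ?_
    have h2 := mem_range.1 hl
    rw [h (l + i) (by omega) (by omega), zero_mul]
  · intro h3
    exact absurd (mem_range.2 (by omega)) h3

lemma uniq (h2 : (2 : k) ≠ 0) {κ : ℕ} (h : 4 ≤ κ) (y : ℕ → k)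
    (hf : ∀ s, 1 ≤ s → s + 1 < 2 * κ → y (2 * s) = 0) (hy3 : y 3 = 0) (hyl : y (4 * κ - 3) = 0)
    (H1 : ∀ l0 < κ, ∑ i ∈ range κ, WW κ y i * cb κ i l0 + cb κ (κ - 1) l0 * dA κ y = 0)
    (H2 : ∀ l1 < κ - 1, dB κ y + ∑ i ∈ range (κ - 1), (2 * y (2 * (i + (κ - 1)) + 1)) * ca κ i l1 = 0) :
    ∀ v, v + 2 < 4 * κ → y v = 0 := by
  have hA := dA_zero y hf
  have hB := dB_one h y hf
  -- the second system
  have a1 := (ci k h2 (κ - 1) (fun i => 2 * y (2 * (i + (κ - 1)) + 1) + if i = 0 then dB κ y else 0)).1 (by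
    intro l hl
    have h3 := H2 l hl
    have e1 : ∀ i ∈ range (κ - 1), (2 * y (2 * (i + (κ - 1)) + 1) + if i = 0 then dB κ y else 0) *
        (if i + l < κ - 1 then (1 : k) else -1) = 2 * y (2 * (i + (κ - 1)) + 1) * ca κ i l +
          (if i = 0 then dB κ y * (if i + l < κ - 1 then (1 : k) else -1) else 0) := by
      intro i hi
      have e2 : (ca κ i l : k) = if i + l < κ - 1 then (1 : k) else -1 := by
        unfold ca
        by_cases h4 : i + l + 1 < κ
        · rw [if_pos h4, if_pos (by omega)]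
        · rw [if_neg h4, if_neg (by omega)]
      rw [e2]
      by_cases h5 : i = 0
      · rw [if_pos h5, if_pos h5]; ring
      · rw [if_neg h5, if_neg h5]; ring
    rw [Finset.sum_congr rfl e1, Finset.sum_add_distrib, Finset.sum_ite_eq' (range (κ - 1)) 0, if_pos (by
      rw [mem_range]; omega), if_pos (by omega), mul_one]
    linear_combination h3)
  -- the first system
  have a2 := (ci k h2 κ (fun i => WW κ y i)).2.2 (by omega) (by
    intro l hl
    have h3 := H1 l hl
    rw [hA, mul_zero, add_zero] at h3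
    exact h3)
  obtain ⟨a3, a4⟩ := a2
  -- consequences
  have hs1 : ∀ s, κ ≤ s → s + 3 ≤ 2 * κ → y (2 * s + 1) = 0 := by
    intro s hs hs2
    have h3 := a1 (s - (κ - 1)) (by omega)
    rw [if_neg (by omega), add_zero, Nat.sub_add_cancel (by omega)] at h3
    rcases mul_eq_zero.1 h3 with h4 | h4
    · exact absurd h4 h2
    · exact h4
  have hWl : WW κ y (κ - 1) = y (2 * (κ - 1) + 1) := by
    unfold WW
    rw [Finset.sum_eq_single 0]
    · rw [add_zero]
    · intro l hl hne
      have h3 := mem_range.1 hl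
      exact hs1 _ (by omega) (by omega)
    · intro h3
      exact absurd (mem_range.2 (by omega)) h3
  have hk1 : y (2 * (κ - 1) + 1) = 0 := by
    rw [← hWl]
    exact a4 (κ - 1) (by omega) (by omega)
  have hB0 : dB κ y = 0 := by
    have h3 : 2 * y (2 * (0 + (κ - 1)) + 1) + (if 0 = 0 then dB κ y else 0) = 0 := a1 0 (by omega)
    rw [if_pos rfl, zero_add, hk1, mul_zero, zero_add] at h3
    exact h3
  have hlow : ∀ i, 1 ≤ i → i + 2 ≤ κ → y (2 * i + 1) = 0 := by
    intro i hi hi2
    rcases Nat.eq_or_lt_of_le hi with h3 | h3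
    · rw [← h3]
      exact hy3
    · have h4 := WW_diff κ y i
      rw [a4 i (by omega) (by omega), a4 (i + 1) (by omega) (by omega), hs1 (i + (κ - 1)) (by omega) (by omega)] at h4
      linear_combination -h4
  have hW1 : WW κ y 1 = 0 := by
    have h4 := WW_diff κ y 1
    rw [a4 (1 + 1) (by omega) (by omega), hs1 (1 + (κ - 1)) (by omega) (by omega), hlow 1 le_rfl (by omega)] at h4
    linear_combination h4
  have h0 : y 1 = 0 := by
    have h4 := WW_diff κ y 0
    rw [zero_add, hW1, zero_add, hk1] at h4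
    have h5 : WW κ y 0 = 0 := by
      rw [hW1, add_zero] at a3
      exact a3
    rw [h5] at h4
    have h6 : y (2 * 0 + 1) = y 1 := rfl
    rw [h6] at h4
    linear_combination -h4
  intro v hv
  rcases Nat.even_or_odd' v with ⟨s, rfl | rfl⟩
  · rcases Nat.eq_zero_or_pos s with h3 | h3
    · rw [h3, mul_zero, ← hB]
      exact hB0
    · exact hf s h3 (by omega)
  · rcases Nat.eq_zero_or_pos s with h3 | h3
    · rw [h3]
      exact h0
    · rcases Nat.lt_or_ge s (κ - 1) with h4 | h4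
      · exact hlow s h3 (by omega)
      · rcases Nat.eq_or_lt_of_le h4 with h5 | h5
        · rw [← h5]
          exact hk1
        · rcases Nat.lt_or_ge (2 * κ) (s + 3) with h6 | h6
          · have : 2 * s + 1 = 4 * κ - 3 := by omega
            rw [this]
            exact hyl
          · exact hs1 s (by omega) h6

/-! ### the tangent vectors -/

lemma WW_S (κ : ℕ) (y : ℕ → k) (i : ℕ) :
    WW κ y i = ∑ s ∈ range (i + (κ - 1)), y (2 * s + 1) - ∑ s ∈ range i, y (2 * s + 1) := by
  rw [Finset.sum_range_add, add_sub_cancel_left]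
  rfl

lemma double_sum {m : ℕ} (F : ℕ → ℕ → k) (P : Finset (ℕ × ℕ)) (hP : ∀ p ∈ P, p.1 < m ∧ p.2 < m)
    (hF : ∀ i < m, ∀ l < m, (i, l) ∉ P → F i l = 0) :
    ∑ i ∈ range m, ∑ l ∈ range m, F i l = ∑ p ∈ P, F p.1 p.2 := by
  rw [← Finset.sum_product' (range m) (range m) F]
  symm
  apply Finset.sum_subset
  · intro p hp
    rw [mem_product, mem_range, mem_range]
    exact hP p hp
  · intro p hp hn
    rw [mem_product, mem_range, mem_range] at hp
    exact hF p.1 hp.1 p.2 hp.2 hn

lemma w_odd {κ : ℕ} (h : 4 ≤ κ) (s : ℕ) : wC2 k κ (2 * s + 1) =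
    if s = 0 ∨ s + 1 = κ then 1 else if s + 2 = κ then -1 else 0 := by
  unfold wC2
  by_cases h1 : s = 0 ∨ s + 1 = κ
  · rw [if_pos h1, if_pos (by omega)]
  · rw [if_neg h1, if_neg (by omega)]
    by_cases h2 : s + 2 = κ
    · rw [if_pos h2, if_pos (by omega)]
    · rw [if_neg h2, if_neg (by omega)]

lemma w_even {κ : ℕ} (s : ℕ) : wC2 k κ (2 * s) = if s = 1 then -1 else 0 := by
  unfold wC2
  rw [if_neg (by omega)]
  by_cases h1 : s = 1
  · rw [if_pos h1, if_pos (by omega)]
  · rw [if_neg h1, if_neg (by omega)]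

lemma w_S {κ : ℕ} (h : 4 ≤ κ) (m : ℕ) : ∑ s ∈ range m, wC2 k κ (2 * s + 1) =
    if m = 0 ∨ m + 1 = κ then 0 else 1 := by
  induction m with
  | zero => simp
  | succ m ih =>
    rw [Finset.sum_range_succ, ih, w_odd h]
    by_cases h1 : m = 0 ∨ m + 1 = κ
    · rw [if_pos h1, if_pos h1, if_neg (by omega)]
      ring
    · by_cases h2 : m + 2 = κ
      · rw [if_neg h1, if_neg h1, if_pos h2, if_pos (by omega)]
        ring
      · rw [if_neg h1, if_neg h1, if_neg h2, if_neg (by omega)]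
        ring

lemma t1 (hLK : StmLK k) (hRF : StmRF k) {κ : ℕ} (h : 4 ≤ κ) : Tt (2 * κ) (2 * κ - 1) (qC2 k κ) (wC2 k κ) := by
  rw [tt_iff hLK hRF h]
  have hW : ∀ i < κ, WW κ (wC2 k κ) i = if i = κ - 1 then 1 else 0 := by
    intro i hi
    rw [WW_S, w_S h, w_S h]
    split_ifs <;> first | (exfalso; omega) | ring
  have hA : dA κ (wC2 k κ) = -1 := by
    unfold dA
    rw [double_sum _ {(0, 0)}]
    · rw [Finset.sum_singleton, w_even, if_pos (by omega)]
      unfold ca
      rw [if_pos (by omega)]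
      ring
    · intro p hp
      rw [mem_singleton] at hp
      rw [hp]
      constructor <;> (simp only; omega)
    · intro i hi l hl hn
      rw [mem_singleton, Prod.mk.injEq] at hn
      rw [w_even, if_neg (by omega), zero_mul]
  have hB : dB κ (wC2 k κ) = -2 := by
    unfold dB
    rw [double_sum _ {(0, 1), (1, 0)}]
    · rw [Finset.sum_pair (by simp), w_even, w_even, if_pos (by omega), if_pos (by omega)]
      unfold cb
      rw [if_neg (by omega), if_neg (by omega), if_pos (by omega), if_neg (by omega), if_neg (by omega),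
        if_pos (by omega)]
      ring
    · intro p hp
      rw [mem_insert, mem_singleton] at hp
      rcases hp with rfl | rfl <;> constructor <;> (simp only; omega)
    · intro i hi l hl hn
      rw [mem_insert, mem_singleton, Prod.mk.injEq, Prod.mk.injEq] at hn
      rw [w_even, if_neg (by omega), zero_mul]
  constructor
  · intro l0 hl0
    rw [hA, Finset.sum_congr rfl (g := fun i => if i = κ - 1 then cb κ i l0 else 0), Finset.sum_ite_eq',
      if_pos (by rw [mem_range]; omega)]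
    · ring
    · intro i hi
      rw [hW i (mem_range.1 hi)]
      split_ifs <;> ring
  · intro l1 hl1
    rw [hB, Finset.sum_congr rfl (g := fun i => if i = 0 then 2 * ca κ i l1 else 0), Finset.sum_ite_eq',
      if_pos (by rw [mem_range]; omega)]
    · unfold ca
      rw [if_pos (by omega)]
      ring
    · intro i hi
      have h1 := mem_range.1 hi
      rw [w_odd h]
      by_cases h2 : i = 0
      · rw [if_pos h2, if_pos (by omega)]; ring
      · rw [if_neg h2, if_neg (by omega), if_neg (by omega)]; ring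

lemma w'_odd {κ : ℕ} (s : ℕ) : wC2' k κ (2 * s + 1) =
    if s = 0 then -2 else if s = 1 then 1 else 0 := by
  unfold wC2'
  by_cases h1 : s = 0
  · rw [if_pos h1, if_pos (by omega)]
  · rw [if_neg h1, if_neg (by omega)]
    by_cases h2 : s = 1
    · rw [if_pos h2, if_pos (by omega)]
    · rw [if_neg h2, if_neg (by omega)]

lemma w'_even {κ : ℕ} (s : ℕ) : wC2' k κ (2 * s) = if s = 0 then -2 else if s + 2 = 2 * κ then 1 else 0 := by
  unfold wC2'
  by_cases h1 : s = 0
  · rw [if_pos h1, if_pos (by omega)]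
  · rw [if_neg h1, if_neg (by omega)]
    by_cases h2 : s + 2 = 2 * κ
    · rw [if_pos h2, if_pos (by omega)]
    · rw [if_neg h2, if_neg (by omega)]

lemma w'_S {κ : ℕ} (m : ℕ) : ∑ s ∈ range m, wC2' k κ (2 * s + 1) =
    if m = 0 then 0 else if m = 1 then -2 else -1 := by
  induction m with
  | zero => simp
  | succ m ih =>
    rw [Finset.sum_range_succ, ih, w'_odd]
    split_ifs <;> first | (exfalso; omega) | ring

lemma t2 (hLK : StmLK k) (hRF : StmRF k) {κ : ℕ} (h : 4 ≤ κ) : Tt (2 * κ) (2 * κ - 1) (qC2 k κ) (wC2' k κ) := by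
  rw [tt_iff hLK hRF h]
  have hW : ∀ i < κ, WW κ (wC2' k κ) i = if i = 0 then -1 else if i = 1 then 1 else 0 := by
    intro i hi
    rw [WW_S, w'_S, w'_S]
    split_ifs <;> first | (exfalso; omega) | ring
  have hA : dA κ (wC2' k κ) = 0 := by
    unfold dA
    refine Finset.sum_eq_zero fun i hi => Finset.sum_eq_zero fun l hl => ?_
    have h1 := mem_range.1 hi
    have h2 := mem_range.1 hl
    rw [w'_even, if_neg (by omega), if_neg (by omega), zero_mul]
  have hB : dB κ (wC2' k κ) = 0 := by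
    unfold dB
    rw [double_sum _ {(0, 0), (κ - 1, κ - 1)}]
    · rw [Finset.sum_pair (by
        intro h1
        rw [Prod.mk.injEq] at h1
        omega), w'_even, w'_even, if_pos (by omega), if_neg (by omega), if_pos (by omega)]
      unfold cb
      rw [if_neg (by omega), if_neg (by omega), if_pos (by omega), if_pos (by omega)]
      ring
    · intro p hp
      rw [mem_insert, mem_singleton] at hp
      rcases hp with rfl | rfl <;> constructor <;> (simp only; omega)
    · intro i hi l hl hn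
      rw [mem_insert, mem_singleton, Prod.mk.injEq, Prod.mk.injEq] at hn
      rw [w'_even, if_neg (by omega), if_neg (by omega), zero_mul]
  constructor
  · intro l0 hl0
    have e : ∑ i ∈ range κ, WW κ (wC2' k κ) i * cb κ i l0 = - cb κ 0 l0 + cb κ 1 l0 := by
      rw [← Finset.sum_subset (s₁ := {0, 1}), Finset.sum_pair (by norm_num), hW 0 (by omega), hW 1 (by omega),
        if_pos rfl, if_neg (by norm_num), if_pos rfl]
      · ring
      · intro i hi
        rw [mem_insert, mem_singleton] at hi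
        rw [mem_range]
        omega
      · intro i hi hn
        rw [mem_insert, mem_singleton] at hn
        rw [hW i (mem_range.1 hi), if_neg (by omega), if_neg (by omega), zero_mul]
    rw [hA, e]
    unfold cb
    by_cases h1 : l0 + 1 = κ
    · rw [if_neg (by omega), if_pos (by omega), if_neg (by omega), if_pos (by omega)]
      ring
    · rw [if_neg (by omega), if_neg (by omega), if_pos (by omega), if_neg (by omega), if_neg (by omega),
        if_pos (by omega)]
      ring
  · intro l1 hl1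
    rw [hB, zero_add]
    refine Finset.sum_eq_zero fun i hi => ?_
    rw [w'_odd, if_neg (by omega), if_neg (by omega)]
    ring

/-- C2a -/
theorem t (k : Type*) [Field k] (hLK : StmLK k) (hRF : StmRF k) (_hRD : StmRD) : StmC2a k := by
  intro h2 κ h
  refine ⟨vt hLK hRF h, ?_, t1 hLK hRF h, t2 hLK hRF h⟩
  intro y hf hy3 hyl hT
  obtain ⟨H1, H2⟩ := (tt_iff hLK hRF h y).1 hT
  exact uniq h2 h y hf hy3 hyl H1 H2

end

end Pool.Agent.N729.HQ.C2a
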