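import Pool.Agent.N729.HQ.Stm

/-!
Project HQ, part C2b: the first quadric for the family C2 (helper82).
-/

set_option autoImplicit false

namespace Pool.Agent.N729.HQ.C2b

open Finset
open Pool.Agent.N186.HK (pm vm IsHankel)
open Pool.Agent.R831.PermIdeal (permIdeal)
open Pool.Agent.N729.HP

variable {k : Type*} [Field k]

/-! ### indices -/

lemma perm_split (K : ℕ) (hK : 1 ≤ K) : (List.range (2 * K - 1)).Perm
    ((List.range K).map (fun i => 0 + 2 * i) ++ (List.range (K - 1)).map (fun i => 1 + 2 * i)) := by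
  rw [List.perm_ext_iff_of_nodup List.nodup_range]
  · intro a
    simp only [List.mem_range, List.mem_append, List.mem_map]
    constructor
    · intro h
      rcases Nat.even_or_odd' a with ⟨b, hb | hb⟩
      · exact Or.inl ⟨b, by omega, by omega⟩
      · exact Or.inr ⟨b, by omega, by omega⟩
    · rintro (⟨b, hb, rfl⟩ | ⟨b, hb, rfl⟩) <;> omega
  · rw [List.nodup_append]
    refine ⟨List.nodup_range.map (fun a b h => by simpa using h),
      List.nodup_range.map (fun a b h => by simpa using h), ?_⟩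
    intro a ha b hb
    simp only [List.mem_map] at ha hb
    obtain ⟨a', -, rfl⟩ := ha
    obtain ⟨b', -, rfl⟩ := hb
    omega

lemma range_split (K : ℕ) (hK : 1 ≤ K) : range (2 * K - 1) =
    (range K).image (fun i => 0 + 2 * i) ∪ (range (K - 1)).image (fun i => 1 + 2 * i) := by
  ext a
  simp only [mem_range, mem_union, mem_image]
  constructor
  · intro h
    rcases Nat.even_or_odd' a with ⟨b, hb | hb⟩
    · exact Or.inl ⟨b, by omega, by omega⟩
    · exact Or.inr ⟨b, by omega, by omega⟩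
  · rintro (⟨b, hb, rfl⟩ | ⟨b, hb, rfl⟩) <;> omega

lemma inj0 : Function.Injective (fun i : ℕ => 0 + 2 * i) := fun a b h => by simpa using h

lemma inj1 : Function.Injective (fun i : ℕ => 1 + 2 * i) := fun a b h => by simpa using h

lemma disj (A B : Finset ℕ) : Disjoint (A.image (fun i => 0 + 2 * i)) (B.image (fun i => 1 + 2 * i)) := by
  rw [Finset.disjoint_left]
  intro a ha hb
  simp only [mem_image] at ha hb
  obtain ⟨a', -, rfl⟩ := ha
  obtain ⟨b', -, h⟩ := hb
  omega

lemma toF (f : ℕ → ℕ) (L : ℕ) : ((List.range L).map f).toFinset = (range L).image f := by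
  ext a
  simp

lemma q_even (K : ℕ) (hK : 4 ≤ K) (s : ℕ) : qC2 k K (2 * s) = uN k K s := by
  unfold qC2 uN
  split_ifs <;> first | rfl | (exfalso; omega)

lemma q_odd (K : ℕ) (s : ℕ) (h : 2 * s + 4 < 4 * K) : qC2 k K (2 * s + 1) = 0 := by
  unfold qC2
  rw [if_neg (by omega), if_neg (by omega)]

/-! ### cofactors -/

/-- cofactors of the even block -/
def ce (k : Type*) [Field k] (K i l : ℕ) : k :=
  if i + 1 = K ∧ l + 1 = K then 2 else if i + 1 = K ∨ l + 1 = K then 0 else
    if i + l < K then 1 else -1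

/-- cofactors of the odd block -/
def ca (k : Type*) [Field k] (K i l : ℕ) : k := if i + l + 1 < K then 1 else -1

lemma pmA (K : ℕ) (hK : 4 ≤ K) (J : Finset ℕ) (L : List ℕ) :
    pm (qC2 k K) (J.image (fun i => 0 + 2 * i)) (L.map (fun i => 0 + 2 * i)) = pm (uN k K) J L := by
  rw [(BA.te k (qC2 k K) (qC2 k K) 2 0 0 (by norm_num) J L).1]
  congr 1
  ext s
  rw [← q_even K hK]
  congr 1
  ring

lemma pmB (K : ℕ) (hK : 4 ≤ K) (J : Finset ℕ) (L : List ℕ) :
    pm (qC2 k K) (J.image (fun i => 1 + 2 * i)) (L.map (fun i => 1 + 2 * i)) =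
      pm (fun s => uN k K (s + 1)) J L := by
  rw [(BA.te k (qC2 k K) (qC2 k K) 2 1 1 (by norm_num) J L).1]
  congr 1
  ext s
  rw [← q_even K hK]
  congr 1
  ring

lemma pdA (K : ℕ) (hK : 4 ≤ K) (y : ℕ → k) (J : Finset ℕ) (L : List ℕ) :
    pd (qC2 k K) y (J.image (fun i => 0 + 2 * i)) (L.map (fun i => 0 + 2 * i)) =
      pd (uN k K) (fun s => y (2 * s)) J L := by
  rw [(BA.te k (qC2 k K) y 2 0 0 (by norm_num) J L).2]
  have h1 : (fun s => qC2 k K (0 + 0 + 2 * s)) = uN k K := by
    ext s
    rw [← q_even K hK]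
    congr 1
    ring
  have h2 : (fun s => y (0 + 0 + 2 * s)) = fun s => y (2 * s) := by
    ext s
    congr 1
    ring
  rw [h1, h2]

lemma pdB (K : ℕ) (hK : 4 ≤ K) (y : ℕ → k) (J : Finset ℕ) (L : List ℕ) :
    pd (qC2 k K) y (J.image (fun i => 1 + 2 * i)) (L.map (fun i => 1 + 2 * i)) =
      pd (fun s => uN k K (s + 1)) (fun s => y (2 * (s + 1))) J L := by
  rw [(BA.te k (qC2 k K) y 2 1 1 (by norm_num) J L).2]
  have h1 : (fun s => qC2 k K (1 + 1 + 2 * s)) = fun s => uN k K (s + 1) := by
    ext s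
    rw [← q_even K hK]
    congr 1
    ring
  have h2 : (fun s => y (1 + 1 + 2 * s)) = fun s => y (2 * (s + 1)) := by
    ext s
    congr 1
    ring
  rw [h1, h2]

/-- the cofactor sum of the even block -/
lemma pdA_sum (K : ℕ) (hK : 4 ≤ K) (f : ℕ → k) :
    pd (uN k K) f (range K) (List.range K) = ∑ i ∈ range K, ∑ l ∈ range K, f (i + l) * ce k K i l := by
  rw [bf k (uN k K) f (range K) (List.range K) List.nodup_range, List.toFinset_range]
  refine sum_congr rfl fun i hi => sum_congr rfl fun l hl => ?_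
  rw [mem_range] at hi hl
  rw [(cn k K (by omega)).2.1 i hi l hl, Nat.add_comm l i]
  rfl

lemma pdB_sum (K : ℕ) (hK : 4 ≤ K) (f : ℕ → k) :
    pd (fun s => uN k K (s + 1)) f (range (K - 1)) (List.range (K - 1)) =
      ∑ i ∈ range (K - 1), ∑ l ∈ range (K - 1), f (i + l) * ca k K i l := by
  rw [bf k _ f (range (K - 1)) (List.range (K - 1)) List.nodup_range, List.toFinset_range]
  refine sum_congr rfl fun i hi => sum_congr rfl fun l hl => ?_
  rw [mem_range] at hi hl
  rw [(cn k K (by omega)).2.2.2.1 i hi l hl, Nat.add_comm l i]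
  rfl

/-- the first derivative vanishes -/
lemma pd_zero (K : ℕ) (hK : 4 ≤ K) (y : ℕ → k) :
    pd (qC2 k K) y (range (2 * K - 1)) (List.range (2 * K - 1)) = 0 := by
  rw [(BA.ta k).2.1 _ _ _ _ (perm_split K (by omega)), range_split K (by omega),
    bc k _ _ _ _ _ _ (disj _ _), pmA K hK, pmB K hK, (cn k K (by omega)).1,
    (cn k K (by omega)).2.2.1, mul_zero, zero_mul, add_zero]
  · intro c hc j hj
    simp only [List.mem_map, List.mem_range, mem_image, mem_range] at hc hj
    obtain ⟨i, hi, rfl⟩ := hc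
    obtain ⟨l, hl, rfl⟩ := hj
    rw [show 1 + 2 * l + (0 + 2 * i) = 2 * (l + i) + 1 by ring]
    exact q_odd K _ (by omega)
  · intro c hc j hj
    simp only [List.mem_map, List.mem_range, mem_image, mem_range] at hc hj
    obtain ⟨i, hi, rfl⟩ := hc
    obtain ⟨l, hl, rfl⟩ := hj
    rw [show 0 + 2 * l + (1 + 2 * i) = 2 * (l + i) + 1 by ring]
    exact q_odd K _ (by omega)
  · rw [card_image_of_injective _ inj0, card_range, List.length_map, List.length_range]
  · rw [card_image_of_injective _ inj1, card_range, List.length_map, List.length_range]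

/-- the mixed term -/
def E (K : ℕ) (h : ℕ → k) (i i' : ℕ) : k := ∑ l ∈ range K, ce k K i l * h (i' + l)

/-- the mixed term -/
def G (K : ℕ) (h : ℕ → k) (i' i : ℕ) : k := ∑ l ∈ range (K - 1), ca k K i' l * h (i + l)

/-- the second order term -/
lemma pq_eq (hQB : StmQB k) (K : ℕ) (hK : 4 ≤ K) (y : ℕ → k) :
    pq (qC2 k K) y (range (2 * K - 1)) (List.range (2 * K - 1)) =
      (∑ i ∈ range K, ∑ l ∈ range K, y (2 * (i + l)) * ce k K i l) *
        (∑ i ∈ range (K - 1), ∑ l ∈ range (K - 1), y (2 * (i + l + 1)) * ca k K i l) +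
      ∑ i ∈ range K, ∑ i' ∈ range (K - 1), E K (fun s => y (2 * s + 1)) i i' *
        G K (fun s => y (2 * s + 1)) i' i := by
  obtain ⟨h1, h2, -⟩ := hQB
  rw [h1 _ _ _ _ (perm_split K (by omega)), range_split K (by omega),
    h2 _ _ _ _ _ _ (disj _ _), pmA K hK, pmB K hK, (cn k K (by omega)).1,
    (cn k K (by omega)).2.2.1, mul_zero, zero_mul, add_zero, zero_add, pdA K hK, pdB K hK,
    pdA_sum K hK, pdB_sum K hK]
  · congr 1
    rw [toF, toF, sum_image fun a _ b _ h => inj0 h]
    refine sum_congr rfl fun i hi => ?_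
    rw [mem_range] at hi
    rw [sum_image fun a _ b _ h => inj1 h]
    have h3 : ∀ l ∈ range (K - 1), ∑ c' ∈ (range (K - 1)).image (fun i => 1 + 2 * i),
        ∑ j' ∈ (range K).image (fun i => 0 + 2 * i),
        y (1 + 2 * l + (0 + 2 * i)) * y (j' + c') *
          pm (qC2 k K) (((range K).image (fun i => 0 + 2 * i)).erase j')
            (((List.range K).map (fun i => 0 + 2 * i)).erase (0 + 2 * i)) *
          pm (qC2 k K) (((range (K - 1)).image (fun i => 1 + 2 * i)).erase (1 + 2 * l))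
            (((List.range (K - 1)).map (fun i => 1 + 2 * i)).erase c') =
        ∑ i' ∈ range (K - 1), E K (fun s => y (2 * s + 1)) i i' *
          (ca k K i' l * y (2 * (i + l) + 1)) := by
      intro l hl
      rw [mem_range] at hl
      rw [sum_image fun a _ b _ h => inj1 h]
      refine sum_congr rfl fun i' hi' => ?_
      rw [mem_range] at hi'
      rw [sum_image fun a _ b _ h => inj0 h, E, sum_mul]
      refine sum_congr rfl fun l' hl' => ?_
      rw [mem_range] at hl'
      rw [← Finset.image_erase inj0, ← Finset.image_erase inj1, ← List.map_erase inj0,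
        ← List.map_erase inj1, pmA K hK, pmB K hK, (cn k K (by omega)).2.1 i hi l' hl',
        (cn k K (by omega)).2.2.2.1 i' hi' l hl]
      rw [show 1 + 2 * l + (0 + 2 * i) = 2 * (i + l) + 1 by ring,
        show 0 + 2 * l' + (1 + 2 * i') = 2 * (i' + l') + 1 by ring]
      change _ * _ * ce k K i l' * ca k K i' l = _
      ring
    rw [sum_congr rfl h3, sum_comm]
    refine sum_congr rfl fun i' _ => ?_
    rw [← mul_sum]
    rfl
  · rw [List.nodup_append]
    refine ⟨List.nodup_range.map inj0, List.nodup_range.map inj1, ?_⟩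
    intro a ha b hb
    simp only [List.mem_map] at ha hb
    obtain ⟨a', -, rfl⟩ := ha
    obtain ⟨b', -, rfl⟩ := hb
    omega
  · intro c hc j hj
    simp only [List.mem_map, List.mem_range, mem_image, mem_range] at hc hj
    obtain ⟨i, hi, rfl⟩ := hc
    obtain ⟨l, hl, rfl⟩ := hj
    rw [show 1 + 2 * l + (0 + 2 * i) = 2 * (l + i) + 1 by ring]
    exact q_odd K _ (by omega)
  · intro c hc j hj
    simp only [List.mem_map, List.mem_range, mem_image, mem_range] at hc hj
    obtain ⟨i, hi, rfl⟩ := hc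
    obtain ⟨l, hl, rfl⟩ := hj
    rw [show 0 + 2 * l + (1 + 2 * i) = 2 * (l + i) + 1 by ring]
    exact q_odd K _ (by omega)
  · rw [card_image_of_injective _ inj0, card_range, List.length_map, List.length_range]
  · rw [card_image_of_injective _ inj1, card_range, List.length_map, List.length_range]

/-! ### the sums -/

lemma del (N : ℕ) (F : ℕ → k) (a s : ℕ) :
    ∑ l ∈ range N, F l * (if a + l = s then 1 else 0) = if a ≤ s ∧ s < a + N then F (s - a) else 0 := by
  split_ifs with h
  · rw [sum_eq_single (s - a)]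
    · rw [if_pos (by omega), mul_one]
    · intro b _ hb
      rw [if_neg (by omega), mul_zero]
    · intro h1
      rw [mem_range] at h1
      omega
  · refine sum_eq_zero fun l hl => ?_
    rw [mem_range] at hl
    rw [if_neg (by omega), mul_zero]

/-- a function with four values -/
def hh (K : ℕ) (c₀ c₁ c₂ : k) (s : ℕ) : k :=
  c₀ * (if s = 0 then 1 else 0) + c₁ * (if s = 1 then 1 else 0) +
    c₂ * (if s = K - 1 then 1 else 0) - c₂ * (if s = K - 2 then 1 else 0)

lemma sum_hh (K N : ℕ) (c₀ c₁ c₂ : k) (F : ℕ → k) (a : ℕ) :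
    ∑ l ∈ range N, F l * hh K c₀ c₁ c₂ (a + l) =
      c₀ * (if a ≤ 0 ∧ 0 < a + N then F (0 - a) else 0) +
      c₁ * (if a ≤ 1 ∧ 1 < a + N then F (1 - a) else 0) +
      c₂ * (if a ≤ K - 1 ∧ K - 1 < a + N then F (K - 1 - a) else 0) -
      c₂ * (if a ≤ K - 2 ∧ K - 2 < a + N then F (K - 2 - a) else 0) := by
  rw [← del, ← del, ← del, ← del, mul_sum, mul_sum, mul_sum, mul_sum, ← sum_add_distrib,
    ← sum_add_distrib, ← sum_sub_distrib]
  refine sum_congr rfl fun l _ => ?_
  unfold hh
  ring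

lemma mixed (m : ℕ) (c₀ c₁ c₂ : k) :
    ∑ i ∈ range (m + 4), ∑ i' ∈ range (m + 4 - 1), E (m + 4) (hh (m + 4) c₀ c₁ c₂) i i' *
      G (m + 4) (hh (m + 4) c₀ c₁ c₂) i' i =
    (c₀ + c₁ - c₂) ^ 2 + c₁ * (c₀ + c₁ + c₂) + (c₀ + c₁ - c₂) * c₁ + c₁ * (c₁ - 2 * c₂) +
      2 * c₂ ^ 2 := by
  have hE : ∀ i i', E (m + 4) (hh (m + 4) c₀ c₁ c₂) i i' = _ := fun i i' =>
    sum_hh (m + 4) (m + 4) c₀ c₁ c₂ (ce k (m + 4) i) i'
  have hG : ∀ i' i, G (m + 4) (hh (m + 4) c₀ c₁ c₂) i' i = _ := fun i' i =>
    sum_hh (m + 4) (m + 4 - 1) c₀ c₁ c₂ (ca k (m + 4) i') i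
  -- the values
  have e1 : ∀ i, i ≤ 1 → E (m + 4) (hh (m + 4) c₀ c₁ c₂) i 0 = c₀ + c₁ - c₂ := by
    intro i hi
    rw [hE, if_pos (by omega), if_pos (by omega), if_pos (by omega), if_pos (by omega)]
    simp only [ce]
    rw [if_neg (by omega), if_neg (by omega), if_pos (by omega), if_neg (by omega),
      if_neg (by omega), if_pos (by omega), if_neg (by omega), if_pos (by omega),
      if_neg (by omega), if_neg (by omega), if_pos (by omega)]
    ring
  have e2 : ∀ i, i ≤ 1 → E (m + 4) (hh (m + 4) c₀ c₁ c₂) i 1 = c₁ := by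
    intro i hi
    rw [hE, if_neg (by omega), if_pos (by omega), if_pos (by omega), if_pos (by omega)]
    simp only [ce]
    rw [if_neg (by omega), if_neg (by omega), if_pos (by omega), if_neg (by omega),
      if_neg (by omega), if_pos (by omega), if_neg (by omega),
      if_neg (by omega), if_pos (by omega)]
    ring
  have e3 : ∀ i i', i ≤ 1 → 2 ≤ i' → i' < m + 3 → E (m + 4) (hh (m + 4) c₀ c₁ c₂) i i' = 0 := by
    intro i i' hi hi' hi''
    rw [hE, if_neg (by omega), if_neg (by omega), if_pos (by omega), if_pos (by omega)]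
    simp only [ce]
    rw [if_neg (by omega), if_neg (by omega), if_pos (by omega), if_neg (by omega),
      if_neg (by omega), if_pos (by omega)]
    ring
  have e4 : E (m + 4) (hh (m + 4) c₀ c₁ c₂) (m + 3) 0 = 2 * c₂ := by
    rw [hE, if_pos (by omega), if_pos (by omega), if_pos (by omega), if_pos (by omega)]
    have w1 : ce k (m + 4) (m + 3) (0 - 0) = 0 := by
      unfold ce
      rw [if_neg (by omega), if_pos (by omega)]
    have w2 : ce k (m + 4) (m + 3) (1 - 0) = 0 := by
      unfold ce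
      rw [if_neg (by omega), if_pos (by omega)]
    have w3 : ce k (m + 4) (m + 3) (m + 4 - 1 - 0) = 2 := by
      unfold ce
      rw [if_pos (by omega)]
    have w4 : ce k (m + 4) (m + 3) (m + 4 - 2 - 0) = 0 := by
      unfold ce
      rw [if_neg (by omega), if_pos (by omega)]
    rw [w1, w2, w3, w4]
    ring
  have e5 : ∀ i', 1 ≤ i' → i' < m + 3 → E (m + 4) (hh (m + 4) c₀ c₁ c₂) (m + 3) i' = 0 := by
    intro i' hi' hi''
    have w : ∀ l, l < m + 3 → ce k (m + 4) (m + 3) l = 0 := by
      intro l hl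
      unfold ce
      rw [if_neg (by omega), if_pos (by omega)]
    by_cases h : i' = 1
    · rw [hE, if_neg (by omega), if_pos (by omega), if_pos (by omega), if_pos (by omega),
        w (m + 4 - 1 - i') (by omega), w (m + 4 - 2 - i') (by omega), w (1 - i') (by omega)]
      ring
    · rw [hE, if_neg (by omega), if_neg (by omega), if_pos (by omega), if_pos (by omega),
        w (m + 4 - 1 - i') (by omega), w (m + 4 - 2 - i') (by omega)]
      ring
  have e6 : ∀ i, 2 ≤ i → i < m + 3 → E (m + 4) (hh (m + 4) c₀ c₁ c₂) i i = 0 := by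
    intro i hi hi'
    rw [hE, if_neg (by omega), if_neg (by omega), if_pos (by omega), if_pos (by omega)]
    simp only [ce]
    rw [if_neg (by omega), if_neg (by omega), if_pos (by omega), if_neg (by omega),
      if_neg (by omega), if_pos (by omega)]
    ring
  have g1 : G (m + 4) (hh (m + 4) c₀ c₁ c₂) 0 0 = c₀ + c₁ - c₂ := by
    rw [hG, if_pos (by omega), if_pos (by omega), if_neg (by omega), if_pos (by omega)]
    simp only [ca]
    rw [if_pos (by omega), if_pos (by omega), if_pos (by omega)]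
    ring
  have g2 : G (m + 4) (hh (m + 4) c₀ c₁ c₂) 1 0 = c₀ + c₁ + c₂ := by
    rw [hG, if_pos (by omega), if_pos (by omega), if_neg (by omega), if_pos (by omega)]
    simp only [ca]
    rw [if_pos (by omega), if_pos (by omega), if_neg (by omega)]
    ring
  have g3 : G (m + 4) (hh (m + 4) c₀ c₁ c₂) 0 1 = c₁ := by
    rw [hG, if_neg (by omega), if_pos (by omega), if_pos (by omega), if_pos (by omega)]
    simp only [ca]
    rw [if_pos (by omega), if_pos (by omega), if_pos (by omega)]
    ring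
  have g4 : G (m + 4) (hh (m + 4) c₀ c₁ c₂) 1 1 = c₁ - 2 * c₂ := by
    rw [hG, if_neg (by omega), if_pos (by omega), if_pos (by omega), if_pos (by omega)]
    simp only [ca]
    rw [if_pos (by omega), if_neg (by omega), if_pos (by omega)]
    ring
  have g5 : ∀ i' i, i' ≠ i → 2 ≤ i → i < m + 3 → i' < m + 3 →
      G (m + 4) (hh (m + 4) c₀ c₁ c₂) i' i = 0 := by
    intro i' i hne hi hi' hi''
    rw [hG, if_neg (by omega), if_neg (by omega), if_pos (by omega), if_pos (by omega)]
    simp only [ca]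
    by_cases h : i' < i
    · rw [if_pos (by omega), if_pos (by omega)]
      ring
    · rw [if_neg (by omega), if_neg (by omega)]
      ring
  have g6 : G (m + 4) (hh (m + 4) c₀ c₁ c₂) 0 (m + 3) = c₂ := by
    rw [hG, if_neg (by omega), if_neg (by omega), if_pos (by omega), if_neg (by omega)]
    simp only [ca]
    rw [if_pos (by omega)]
    ring
  -- the sum
  have hm : m + 4 - 1 = m + 1 + 1 + 1 := by omega
  rw [hm, show m + 4 = m + 1 + 1 + 1 + 1 by ring]
  rw [sum_range_succ, sum_range_succ', sum_range_succ']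
  have s1 : ∀ i ∈ range (m + 1), ∑ i' ∈ range (m + 1 + 1 + 1), E (m + 1 + 1 + 1 + 1) (hh (m + 1 + 1 + 1 + 1) c₀ c₁ c₂) (i + 1 + 1) i' *
      G (m + 1 + 1 + 1 + 1) (hh (m + 1 + 1 + 1 + 1) c₀ c₁ c₂) i' (i + 1 + 1) = 0 := by
    intro i hi
    rw [mem_range] at hi
    refine sum_eq_zero fun i' hi' => ?_
    rw [mem_range] at hi'
    by_cases h : i' = i + 1 + 1
    · rw [h]
      have := e6 (i + 1 + 1) (by omega) (by omega)
      rw [show m + 4 = m + 1 + 1 + 1 + 1 by ring] at this
      rw [this, zero_mul]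
    · have := g5 i' (i + 1 + 1) h (by omega) (by omega) (by omega)
      rw [show m + 4 = m + 1 + 1 + 1 + 1 by ring] at this
      rw [this, mul_zero]
  rw [sum_eq_zero s1]
  have s2 : ∀ i, i ≤ 1 → ∑ i' ∈ range (m + 1 + 1 + 1), E (m + 4) (hh (m + 4) c₀ c₁ c₂) i i' *
      G (m + 4) (hh (m + 4) c₀ c₁ c₂) i' i = (c₀ + c₁ - c₂) * G (m + 4) (hh (m + 4) c₀ c₁ c₂) 0 i +
        c₁ * G (m + 4) (hh (m + 4) c₀ c₁ c₂) 1 i := by
    intro i hi
    rw [sum_range_succ', sum_range_succ', sum_eq_zero, zero_add, e1 i hi, show 0 + 1 = 1 from rfl, e2 i hi]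
    · ring
    · intro i' hi'
      rw [mem_range] at hi'
      rw [e3 i (i' + 1 + 1) hi (by omega) (by omega), zero_mul]
  have s3 : ∑ i' ∈ range (m + 1 + 1 + 1), E (m + 4) (hh (m + 4) c₀ c₁ c₂) (m + 3) i' *
      G (m + 4) (hh (m + 4) c₀ c₁ c₂) i' (m + 3) = 2 * c₂ ^ 2 := by
    rw [sum_range_succ', sum_eq_zero, zero_add, e4, g6]
    · ring
    · intro i' hi'
      rw [mem_range] at hi'
      rw [e5 (i' + 1) (by omega) (by omega), zero_mul]
  have s20 := s2 0 (by omega)
  have s21 := s2 1 (by omega)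
  rw [g1, g2] at s20
  rw [g3, g4] at s21
  rw [show m + 1 + 1 + 1 + 1 = m + 4 by ring, show m + 1 + 1 + 1 = m + 3 by ring] at *
  rw [s20, show 0 + 1 = 1 from rfl, s21, s3]
  ring

lemma dA_sum (m : ℕ) (d₀ d₁ d₂ : k) : ∑ i ∈ range (m + 4), ∑ l ∈ range (m + 4),
    (d₀ * (if i + l = 0 then 1 else 0) + d₁ * (if i + l = 1 then 1 else 0) +
      d₂ * (if i + l = 2 * (m + 4) - 2 then 1 else 0)) * ce k (m + 4) i l = d₀ + 2 * d₁ + 2 * d₂ := by
  have h1 : ∀ i ∈ range (m + 4), ∑ l ∈ range (m + 4),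
    (d₀ * (if i + l = 0 then 1 else 0) + d₁ * (if i + l = 1 then 1 else 0) +
      d₂ * (if i + l = 2 * (m + 4) - 2 then 1 else 0)) * ce k (m + 4) i l =
      (if i = 0 then d₀ + d₁ else 0) + (if i = 1 then d₁ else 0) + (if i = m + 3 then 2 * d₂ else 0) := by
    intro i hi
    rw [mem_range] at hi
    have h2 : ∑ l ∈ range (m + 4),
      (d₀ * (if i + l = 0 then 1 else 0) + d₁ * (if i + l = 1 then 1 else 0) +
      d₂ * (if i + l = 2 * (m + 4) - 2 then 1 else 0)) * ce k (m + 4) i l =
      d₀ * (∑ l ∈ range (m + 4), ce k (m + 4) i l * (if i + l = 0 then 1 else 0)) +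
      d₁ * (∑ l ∈ range (m + 4), ce k (m + 4) i l * (if i + l = 1 then 1 else 0)) +
      d₂ * (∑ l ∈ range (m + 4), ce k (m + 4) i l * (if i + l = 2 * (m + 4) - 2 then 1 else 0)) := by
      rw [mul_sum, mul_sum, mul_sum, ← sum_add_distrib, ← sum_add_distrib]
      refine sum_congr rfl fun l _ => ?_
      ring
    rw [h2, del, del, del]
    by_cases a0 : i = 0
    · subst a0
      have w1 : ce k (m + 4) 0 (0 - 0) = 1 := by
        unfold ce
        rw [if_neg (by omega), if_neg (by omega), if_pos (by omega)]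
      have w2 : ce k (m + 4) 0 (1 - 0) = 1 := by
        unfold ce
        rw [if_neg (by omega), if_neg (by omega), if_pos (by omega)]
      rw [if_pos (by omega), if_pos (by omega), if_neg (by omega), w1, w2,
        if_pos rfl, if_neg (by omega), if_neg (by omega)]
      ring
    · by_cases a1 : i = 1
      · subst a1
        have w2 : ce k (m + 4) 1 (1 - 1) = 1 := by
          unfold ce
          rw [if_neg (by omega), if_neg (by omega), if_pos (by omega)]
        rw [if_neg (by omega), if_pos (by omega), if_neg (by omega), w2,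
          if_neg (by omega), if_pos rfl, if_neg (by omega)]
        ring
      · rw [if_neg (by omega), if_neg (by omega)]
        by_cases a2 : i = m + 3
        · subst a2
          have w3 : ce k (m + 4) (m + 3) (2 * (m + 4) - 2 - (m + 3)) = 2 := by
            unfold ce
            rw [if_pos (by omega)]
          rw [if_pos (by omega), w3, if_neg (by omega), if_neg (by omega), if_pos rfl]
          ring
        · rw [if_neg (by omega), if_neg (by omega), if_neg (by omega), if_neg (by omega)]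
          ring
  rw [sum_congr rfl h1, sum_add_distrib, sum_add_distrib, sum_ite_eq', sum_ite_eq', sum_ite_eq',
    if_pos (by rw [mem_range]; omega), if_pos (by rw [mem_range]; omega), if_pos (by rw [mem_range]; omega)]
  ring

lemma dB_sum (m : ℕ) (d₀ d₁ d₂ : k) : ∑ i ∈ range (m + 4 - 1), ∑ l ∈ range (m + 4 - 1),
    (d₀ * (if i + l + 1 = 0 then 1 else 0) + d₁ * (if i + l + 1 = 1 then 1 else 0) +
      d₂ * (if i + l + 1 = 2 * (m + 4) - 2 then 1 else 0)) * ca k (m + 4) i l = d₁ := by
  have h1 : ∀ i ∈ range (m + 4 - 1), ∑ l ∈ range (m + 4 - 1),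
    (d₀ * (if i + l + 1 = 0 then 1 else 0) + d₁ * (if i + l + 1 = 1 then 1 else 0) +
      d₂ * (if i + l + 1 = 2 * (m + 4) - 2 then 1 else 0)) * ca k (m + 4) i l =
      if i = 0 then d₁ else 0 := by
    intro i hi
    rw [mem_range] at hi
    have h2 : ∑ l ∈ range (m + 4 - 1),
      (d₀ * (if i + l + 1 = 0 then 1 else 0) + d₁ * (if i + l + 1 = 1 then 1 else 0) +
      d₂ * (if i + l + 1 = 2 * (m + 4) - 2 then 1 else 0)) * ca k (m + 4) i l =
      d₁ * (∑ l ∈ range (m + 4 - 1), ca k (m + 4) i l * (if i + l = 0 then 1 else 0)) := by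
      rw [mul_sum]
      refine sum_congr rfl fun l hl => ?_
      rw [mem_range] at hl
      rw [if_neg (by omega), if_neg (show ¬ i + l + 1 = 2 * (m + 4) - 2 by omega)]
      by_cases h : i + l = 0
      · rw [if_pos (by omega), if_pos h]
        ring
      · rw [if_neg (by omega), if_neg h]
        ring
    rw [h2, del]
    simp only [ca]
    by_cases a0 : i = 0
    · subst a0
      rw [if_pos (by omega), if_pos (by omega), if_pos rfl]
      ring
    · rw [if_neg (by omega), if_neg a0, mul_zero]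
  rw [sum_congr rfl h1, sum_ite_eq', if_pos (by rw [mem_range]; omega)]

/-- the second order term for all vectors of the shape at hand -/
lemma pq_val (hQB : StmQB k) (m : ℕ) (c₀ c₁ c₂ d₀ d₁ d₂ : k) (y : ℕ → k)
    (hf : ∀ s, y (2 * s) = d₀ * (if s = 0 then 1 else 0) + d₁ * (if s = 1 then 1 else 0) +
      d₂ * (if s = 2 * (m + 4) - 2 then 1 else 0))
    (hg : ∀ s, y (2 * s + 1) = hh (m + 4) c₀ c₁ c₂ s) :
    pq (qC2 k (m + 4)) y (range (2 * (m + 4) - 1)) (List.range (2 * (m + 4) - 1)) =
      (d₀ + 2 * d₁ + 2 * d₂) * d₁ +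
      ((c₀ + c₁ - c₂) ^ 2 + c₁ * (c₀ + c₁ + c₂) + (c₀ + c₁ - c₂) * c₁ + c₁ * (c₁ - 2 * c₂) +
      2 * c₂ ^ 2) := by
  rw [pq_eq hQB (m + 4) (by omega) y]
  have h1 : (fun s => y (2 * s + 1)) = hh (m + 4) c₀ c₁ c₂ := funext hg
  rw [h1, mixed]
  simp only [hf]
  rw [dA_sum, dB_sum]

theorem t (k : Type*) [Field k] (hQB : StmQB k) : StmC2b k := by
  intro K hK
  obtain ⟨m, rfl⟩ : ∃ m, K = m + 4 := ⟨K - 4, by omega⟩
  refine ⟨pd_zero _ hK, ?_, ?_, ?_⟩
  · rw [pq_val hQB m 1 0 1 0 (-1) 0 (wC2 k (m + 4))]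
    · ring
    · intro s
      unfold wC2
      split_ifs <;> first | (exfalso; omega) | (exfalso; simp only [false_or] at *; omega) | ring
    · intro s
      unfold wC2 hh
      split_ifs <;> first | (exfalso; omega) | (exfalso; simp only [false_or] at *; omega) | ring
  · rw [pq_val hQB m (-2) 1 0 (-2) 0 1 (wC2' k (m + 4))]
    · ring
    · intro s
      unfold wC2'
      split_ifs <;> first | (exfalso; omega) | (exfalso; simp only [false_or] at *; omega) | ring
    · intro s
      unfold wC2' hh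
      split_ifs <;> first | (exfalso; omega) | (exfalso; simp only [false_or] at *; omega) | ring
  · rw [pq_val hQB m (-1) 1 1 (-2) (-1) 1 (fun v => wC2 k (m + 4) v + wC2' k (m + 4) v)]
    · ring
    · intro s
      unfold wC2 wC2'
      split_ifs <;> first | (exfalso; omega) | (exfalso; simp only [false_or] at *; omega) | ring
    · intro s
      unfold wC2 wC2' hh
      split_ifs <;> first | (exfalso; omega) | (exfalso; simp only [false_or] at *; omega) | ring

end Pool.Agent.N729.HQ.C2b
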