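import Pool.Agent.N729.HQ.Stm

/-!
HQ/C2c (copy a, helper723): family `t = 2 K - 1`, the second quadric.
-/

set_option autoImplicit false

namespace Pool.Agent.N729.HQ.C2ca

open Finset
open Pool.Agent.N186.HK (pm pm_cons pm_nil pm_congr)
open Pool.Agent.N729.HP

section Gen

variable {k : Type*} [Field k]

/-! ### General lemmas -/

theorem pm_mem (x : ℕ → k) (J : Finset ℕ) {L L' : List ℕ} (h1 : L.Nodup) (h2 : L'.Nodup)
    (h : ∀ c, c ∈ L ↔ c ∈ L') : pm x J L = pm x J L' :=
  (BA.ta k).1 x L L' ((List.perm_ext_iff_of_nodup h1 h2).2 h) J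

theorem hsum (m₁ m₂ : ℕ) (h₁ : 2 ≤ m₁) (h₂ : 2 ≤ m₂) (h : ℕ → k) (hh : ∀ s, 2 ≤ s → h s = 0)
    (G : ℕ → ℕ → k) : ∑ i ∈ range m₁, ∑ l ∈ range m₂, h (l + i) * G i l
      = h 0 * G 0 0 + h 1 * G 0 1 + h 1 * G 1 0 := by
  obtain ⟨a, rfl⟩ : ∃ a, m₁ = a + 2 := ⟨m₁ - 2, by omega⟩
  obtain ⟨b, rfl⟩ : ∃ b, m₂ = b + 2 := ⟨m₂ - 2, by omega⟩
  rw [Finset.sum_range_succ', Finset.sum_range_succ']
  have z1 : ∑ i ∈ range a, ∑ l ∈ range (b + 2), h (l + (i + 1 + 1)) * G (i + 1 + 1) l = 0 := by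
    refine Finset.sum_eq_zero fun i _ => Finset.sum_eq_zero fun l _ => ?_
    rw [hh _ (by omega), zero_mul]
  have z2 : ∑ l ∈ range (b + 2), h (l + (0 + 1)) * G (0 + 1) l = h 1 * G 1 0 := by
    rw [Finset.sum_range_succ', Finset.sum_eq_zero, zero_add]
    · intro l _
      rw [hh _ (by omega), zero_mul]
  have z3 : ∑ l ∈ range (b + 2), h (l + 0) * G 0 l = h 1 * G 0 1 + h 0 * G 0 0 := by
    rw [Finset.sum_range_succ', Finset.sum_range_succ', Finset.sum_eq_zero, zero_add]
    · intro l _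
      rw [hh _ (by omega), zero_mul]
  rw [z1, z2, z3]
  ring

theorem hsumE (m₁ m₂ l₀ : ℕ) (h₁ : 2 ≤ m₁) (h₂ : 2 ≤ m₂) (h : ℕ → k)
    (hh : ∀ s, 2 ≤ s → h s = 0) (G : ℕ → ℕ → k) :
    ∑ i ∈ range m₁, ∑ l ∈ (range m₂).erase l₀, h (l + i) * G i l
      = h 0 * (if 0 = l₀ then 0 else G 0 0) + h 1 * (if 1 = l₀ then 0 else G 0 1)
        + h 1 * (if 0 = l₀ then 0 else G 1 0) := by
  rw [← hsum m₁ m₂ h₁ h₂ h hh (fun i l => if l = l₀ then 0 else G i l)]
  refine Finset.sum_congr rfl fun i _ => ?_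
  rw [← Finset.sum_erase (range m₂) (a := l₀) (by simp)]
  refine Finset.sum_congr rfl fun l hl => ?_
  rw [if_neg (Finset.ne_of_mem_erase hl)]

/-- the derivative in a direction with few nonzero entries -/
theorem pd_supp (u f : ℕ → k) (J : Finset ℕ) (L : List ℕ) (hL : L.Nodup) (c₀ j₀ c₁ j₁ : ℕ)
    (a₀ a₁ : k) (hf : ∀ c ∈ L, ∀ j ∈ J, f (j + c) =
      (if c = c₀ ∧ j = j₀ then a₀ else 0) + (if c = c₁ ∧ j = j₁ then a₁ else 0)) :
    pd u f J L = (if c₀ ∈ L ∧ j₀ ∈ J then a₀ * pm u (J.erase j₀) (L.erase c₀) else 0)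
      + (if c₁ ∈ L ∧ j₁ ∈ J then a₁ * pm u (J.erase j₁) (L.erase c₁) else 0) := by
  rw [bf k u f J L hL]
  have e1 : ∀ c ∈ L.toFinset, ∀ j ∈ J, f (j + c) * pm u (J.erase j) (L.erase c)
      = (if c = c₀ then (if j = j₀ then a₀ * pm u (J.erase j₀) (L.erase c₀) else 0) else 0)
        + (if c = c₁ then (if j = j₁ then a₁ * pm u (J.erase j₁) (L.erase c₁) else 0) else 0) := by
    intro c hc j hj
    rw [hf c (List.mem_toFinset.1 hc) j hj]
    by_cases h1 : c = c₀ ∧ j = j₀
    · obtain ⟨rfl, rfl⟩ := h1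
      by_cases h2 : c = c₁ ∧ j = j₁
      · obtain ⟨rfl, rfl⟩ := h2
        simp; ring
      · by_cases h3 : c = c₁
        · have h4 : j ≠ j₁ := fun h => h2 ⟨h3, h⟩
          simp [h4]
        · simp [h3]
    · by_cases h2 : c = c₁ ∧ j = j₁
      · obtain ⟨rfl, rfl⟩ := h2
        by_cases h3 : c = c₀
        · have h4 : j ≠ j₀ := fun h => h1 ⟨h3, h⟩
          simp [h4]
        · simp [h3]
      · rw [if_neg h1, if_neg h2]
        by_cases h3 : c = c₀
        · have h4 : j ≠ j₀ := fun h => h1 ⟨h3, h⟩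
          by_cases h5 : c = c₁
          · have h6 : j ≠ j₁ := fun h => h2 ⟨h5, h⟩
            simp [h4, h6]
          · simp [h4, h5]
        · by_cases h5 : c = c₁
          · have h6 : j ≠ j₁ := fun h => h2 ⟨h5, h⟩
            simp [h3, h6]
          · simp [h3, h5]
  rw [Finset.sum_congr rfl fun c hc => Finset.sum_congr rfl fun j hj => e1 c hc j hj]
  simp only [Finset.sum_add_distrib]
  have e2 : ∀ (c₂ j₂ : ℕ) (A : k), ∑ c ∈ L.toFinset, ∑ j ∈ J,
      (if c = c₂ then (if j = j₂ then A else 0) else 0) = if c₂ ∈ L ∧ j₂ ∈ J then A else 0 := by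
    intro c₂ j₂ A
    have e3 : ∀ c, ∑ j ∈ J, (if c = c₂ then (if j = j₂ then A else 0) else 0)
        = if c = c₂ then (if j₂ ∈ J then A else 0) else 0 := by
      intro c
      by_cases hc : c = c₂
      · simp [hc]
      · simp [hc]
    simp only [e3]
    rw [Finset.sum_ite_eq']
    by_cases h1 : c₂ ∈ L <;> by_cases h2 : j₂ ∈ J <;> simp [h1, h2]
  rw [e2, e2]

/-! ### The blocks -/

/-- long indices of the even block -/
def JA (K l₀ : ℕ) : Finset ℕ := ((range K).erase l₀).image fun l => 0 + 2 * l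

/-- long indices of the odd block -/
def JB (m : ℕ) : Finset ℕ := (range m).image fun l => 1 + 2 * l

/-- short indices of the even block -/
def LA (m : ℕ) : List ℕ := (List.range m).map fun i => 0 + 2 * i

/-- short indices of the odd block -/
def LB (m : ℕ) : List ℕ := (List.range m).map fun i => 1 + 2 * i

theorem inj0 (a : ℕ) : Function.Injective fun l : ℕ => a + 2 * l := fun x y h => by
  simp only [] at h; omega

theorem mJA (K l₀ j : ℕ) : j ∈ JA K l₀ ↔ j % 2 = 0 ∧ j / 2 < K ∧ j / 2 ≠ l₀ := by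
  unfold JA
  rw [Finset.mem_image]
  constructor
  · rintro ⟨l, hl, rfl⟩
    rw [Finset.mem_erase, Finset.mem_range] at hl
    omega
  · intro h
    refine ⟨j / 2, ?_, by omega⟩
    rw [Finset.mem_erase, Finset.mem_range]
    omega

theorem mJB (m j : ℕ) : j ∈ JB m ↔ j % 2 = 1 ∧ j / 2 < m := by
  unfold JB
  rw [Finset.mem_image]
  constructor
  · rintro ⟨l, hl, rfl⟩
    rw [Finset.mem_range] at hl
    omega
  · intro h
    refine ⟨j / 2, ?_, by omega⟩
    rw [Finset.mem_range]
    omega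

theorem mLA (m c : ℕ) : c ∈ LA m ↔ c % 2 = 0 ∧ c / 2 < m := by
  unfold LA
  rw [List.mem_map]
  constructor
  · rintro ⟨l, hl, rfl⟩
    rw [List.mem_range] at hl
    omega
  · intro h
    refine ⟨c / 2, ?_, by omega⟩
    rw [List.mem_range]
    omega

theorem mLB (m c : ℕ) : c ∈ LB m ↔ c % 2 = 1 ∧ c / 2 < m := by
  unfold LB
  rw [List.mem_map]
  constructor
  · rintro ⟨l, hl, rfl⟩
    rw [List.mem_range] at hl
    omega
  · intro h
    refine ⟨c / 2, ?_, by omega⟩
    rw [List.mem_range]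
    omega

theorem nLA (m : ℕ) : (LA m).Nodup := List.nodup_range.map (inj0 0)

theorem nLB (m : ℕ) : (LB m).Nodup := List.nodup_range.map (inj0 1)

theorem nLAB (m m' : ℕ) : (LA m ++ LB m').Nodup := by
  rw [List.nodup_append]
  refine ⟨nLA m, nLB m', ?_⟩
  intro a ha b hb
  rw [mLA] at ha
  rw [mLB] at hb
  intro h
  omega

theorem dJ (K l₀ m : ℕ) : Disjoint (JA K l₀) (JB m) := by
  rw [Finset.disjoint_left]
  intro j h1 h2
  rw [mJA] at h1
  rw [mJB] at h2
  omega

theorem cJA (K l₀ : ℕ) (h : l₀ < K) : (JA K l₀).card = K - 1 := by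
  unfold JA
  rw [Finset.card_image_of_injective _ (inj0 0), Finset.card_erase_of_mem (Finset.mem_range.2 h),
    Finset.card_range]

theorem cJB (m : ℕ) : (JB m).card = m := by
  unfold JB
  rw [Finset.card_image_of_injective _ (inj0 1), Finset.card_range]

theorem cLA (m : ℕ) : (LA m).length = m := by simp [LA]

theorem cLB (m : ℕ) : (LB m).length = m := by simp [LB]

/-- the point without the link -/
def xx (k : Type*) [Field k] (K : ℕ) : ℕ → k := cst 2 0 (uN k K)

theorem xx_odd (K v : ℕ) (hv : v % 2 = 1) : xx k K v = 0 := by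
  unfold xx cst
  rw [if_neg (by omega)]

theorem xx_even (K s : ℕ) : xx k K (2 * s) = uN k K s := by
  unfold xx cst
  rw [if_pos (by omega)]
  congr 1
  omega

theorem z1 (K m : ℕ) (m' : ℕ) : ∀ c ∈ LA m, ∀ j ∈ JB m', xx k K (j + c) = 0 := by
  intro c hc j hj
  rw [mLA] at hc
  rw [mJB] at hj
  exact xx_odd K _ (by omega)

theorem z2 (K l₀ m : ℕ) : ∀ c ∈ LB m, ∀ j ∈ JA K l₀, xx k K (j + c) = 0 := by
  intro c hc j hj
  rw [mLB] at hc
  rw [mJA] at hj
  exact xx_odd K _ (by omega)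

theorem fA (K : ℕ) : (fun s => xx k K (0 + 0 + 2 * s)) = uN k K := by
  funext s
  rw [show 0 + 0 + 2 * s = 2 * s by omega, xx_even]

theorem fB (K : ℕ) : (fun s => xx k K (1 + 1 + 2 * s)) = fun s => uN k K (s + 1) := by
  funext s
  rw [show 1 + 1 + 2 * s = 2 * (s + 1) by omega, xx_even]

/-! ### Sums over the blocks -/

theorem sLA (m : ℕ) (F : ℕ → k) : ∑ c ∈ (LA m).toFinset, F c = ∑ i ∈ range m, F (0 + 2 * i) := by
  have e : (LA m).toFinset = (range m).image fun i => 0 + 2 * i := by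
    ext c
    rw [List.mem_toFinset, mLA, Finset.mem_image]
    constructor
    · intro h
      exact ⟨c / 2, Finset.mem_range.2 h.2, by omega⟩
    · rintro ⟨i, hi, rfl⟩
      rw [Finset.mem_range] at hi
      omega
  rw [e, Finset.sum_image fun x _ y _ h => inj0 0 h]

theorem sLB (m : ℕ) (F : ℕ → k) : ∑ c ∈ (LB m).toFinset, F c = ∑ i ∈ range m, F (1 + 2 * i) := by
  have e : (LB m).toFinset = (range m).image fun i => 1 + 2 * i := by
    ext c
    rw [List.mem_toFinset, mLB, Finset.mem_image]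
    constructor
    · intro h
      exact ⟨c / 2, Finset.mem_range.2 h.2, by omega⟩
    · rintro ⟨i, hi, rfl⟩
      rw [Finset.mem_range] at hi
      omega
  rw [e, Finset.sum_image fun x _ y _ h => inj0 1 h]

theorem sJA (K l₀ : ℕ) (F : ℕ → k) :
    ∑ j ∈ JA K l₀, F j = ∑ l ∈ (range K).erase l₀, F (0 + 2 * l) := by
  unfold JA
  rw [Finset.sum_image fun x _ y _ h => inj0 0 h]

theorem sJB (m : ℕ) (F : ℕ → k) : ∑ j ∈ JB m, F j = ∑ l ∈ range m, F (1 + 2 * l) := by
  unfold JB
  rw [Finset.sum_image fun x _ y _ h => inj0 1 h]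

theorem eJA (K l₀ l : ℕ) :
    (JA K l₀).erase (0 + 2 * l) = (((range K).erase l₀).erase l).image fun l => 0 + 2 * l :=
  (Finset.image_erase (inj0 0) ((range K).erase l₀) l).symm

theorem eJB (m l : ℕ) : (JB m).erase (1 + 2 * l) = ((range m).erase l).image fun l => 1 + 2 * l := by
  unfold JB
  rw [Finset.image_erase (inj0 1)]

theorem eLA (m i : ℕ) :
    (LA m).erase (0 + 2 * i) = ((List.range m).erase i).map fun i => 0 + 2 * i := by
  unfold LA
  rw [List.map_erase (inj0 0)]

theorem eLB (m i : ℕ) :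
    (LB m).erase (1 + 2 * i) = ((List.range m).erase i).map fun i => 1 + 2 * i := by
  unfold LB
  rw [List.map_erase (inj0 1)]

theorem pmA (K : ℕ) (J : Finset ℕ) (L : List ℕ) :
    pm (xx k K) (J.image fun l => 0 + 2 * l) (L.map fun i => 0 + 2 * i) = pm (uN k K) J L := by
  rw [(BA.te k (xx k K) (xx k K) 2 0 0 (by norm_num) J L).1, fA]

theorem pmB (K : ℕ) (J : Finset ℕ) (L : List ℕ) :
    pm (xx k K) (J.image fun l => 1 + 2 * l) (L.map fun i => 1 + 2 * i)
      = pm (fun s => uN k K (s + 1)) J L := by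
  rw [(BA.te k (xx k K) (xx k K) 2 1 1 (by norm_num) J L).1, fB]

theorem pdA (K : ℕ) (y : ℕ → k) (J : Finset ℕ) (L : List ℕ) :
    pd (xx k K) y (J.image fun l => 0 + 2 * l) (L.map fun i => 0 + 2 * i)
      = pd (uN k K) (fun s => y (0 + 0 + 2 * s)) J L := by
  rw [(BA.te k (xx k K) y 2 0 0 (by norm_num) J L).2, fA]

theorem pdB (K : ℕ) (y : ℕ → k) (J : Finset ℕ) (L : List ℕ) :
    pd (xx k K) y (J.image fun l => 1 + 2 * l) (L.map fun i => 1 + 2 * i)
      = pd (fun s => uN k K (s + 1)) (fun s => y (1 + 1 + 2 * s)) J L := by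
  rw [(BA.te k (xx k K) y 2 1 1 (by norm_num) J L).2, fB]

/-! ### Decomposition -/

theorem decJ (K l₀ : ℕ) : (range (2 * K)).erase (2 * l₀) = JA K l₀ ∪ JB K := by
  ext j
  rw [Finset.mem_erase, Finset.mem_range, Finset.mem_union, mJA, mJB]
  omega

theorem decJ' (K l₀ : ℕ) (h : l₀ < K) :
    ((range (2 * K)).erase (2 * l₀)).erase (2 * K - 1) = JA K l₀ ∪ JB (K - 1) := by
  ext j
  rw [Finset.mem_erase, Finset.mem_erase, Finset.mem_range, Finset.mem_union, mJA, mJB]
  omega

theorem decL (K : ℕ) (h : 1 ≤ K) : (List.range (2 * K - 1)).Perm (LA K ++ LB (K - 1)) := by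
  rw [List.perm_ext_iff_of_nodup List.nodup_range (nLAB _ _)]
  intro c
  rw [List.mem_range, List.mem_append, mLA, mLB]
  omega

theorem decL' (K : ℕ) (h : 1 ≤ K) :
    ((List.range (2 * K - 1)).erase (2 * K - 2)).Perm (LA (K - 1) ++ LB (K - 1)) := by
  rw [List.perm_ext_iff_of_nodup (List.nodup_range.erase _) (nLAB _ _)]
  intro c
  rw [List.Nodup.mem_erase_iff List.nodup_range, List.mem_range, List.mem_append, mLA, mLB]
  omega

/-! ### The link -/

theorem q_ne (K v : ℕ) (hK : 4 ≤ K) (hv : v ≠ 4 * K - 3) : qC2 k K v = xx k K v := by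
  rcases Nat.even_or_odd' v with ⟨s, hs | hs⟩
  · subst hs
    rw [xx_even]
    unfold qC2 uN
    by_cases h0 : s = 0
    · rw [if_pos (by omega), if_pos h0]
    by_cases h1 : s = 1
    · rw [if_neg (by omega), if_pos (by omega), if_neg h0, if_pos h1]
    by_cases h2 : s + 1 = K
    · rw [if_pos (by omega), if_neg h0, if_neg h1, if_pos h2]
    by_cases h3 : s = K
    · rw [if_pos (by omega), if_neg h0, if_neg h1, if_neg h2, if_pos h3]
    · rw [if_neg (by omega), if_neg (by omega), if_neg h0, if_neg h1, if_neg h2, if_neg h3]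
  · rw [xx_odd K v (by omega)]
    unfold qC2
    rw [if_neg (by omega), if_neg (by omega)]

theorem q_at (K : ℕ) (hK : 4 ≤ K) : qC2 k K (4 * K - 3) - xx k K (4 * K - 3) = 1 := by
  rw [xx_odd K _ (by omega)]
  unfold qC2
  rw [if_pos (by omega)]
  ring

theorem lk (hLK : StmLK k) (hQB : StmQB k) (K l₀ : ℕ) (hK : 4 ≤ K) (h : l₀ < K) (y : ℕ → k) :
    pd (qC2 k K) y ((range (2 * K)).erase (2 * l₀)) (List.range (2 * K - 1))
      = pd (xx k K) y (JA K l₀ ∪ JB K) (LA K ++ LB (K - 1))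
        + pd (xx k K) y (JA K l₀ ∪ JB (K - 1)) (LA (K - 1) ++ LB (K - 1)) ∧
    pq (qC2 k K) y ((range (2 * K)).erase (2 * l₀)) (List.range (2 * K - 1))
      = pq (xx k K) y (JA K l₀ ∪ JB K) (LA K ++ LB (K - 1))
        + pq (xx k K) y (JA K l₀ ∪ JB (K - 1)) (LA (K - 1) ++ LB (K - 1)) := by
  obtain ⟨-, h2, h3⟩ := hLK.1 (xx k K) (qC2 k K) y (4 * K - 3) (2 * K - 1) (2 * K - 2) (by omega)
    (fun v hv => q_ne K v hK hv) ((range (2 * K)).erase (2 * l₀)) (List.range (2 * K - 1))
    List.nodup_range (by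
      intro j hj c hc hjc
      rw [Finset.mem_erase, Finset.mem_range] at hj
      rw [List.mem_range] at hc
      omega)
  have hin : (2 * K - 1 ∈ (range (2 * K)).erase (2 * l₀)) ∧ (2 * K - 2 ∈ List.range (2 * K - 1)) := by
    rw [Finset.mem_erase, Finset.mem_range, List.mem_range]
    omega
  rw [if_pos hin, q_at K hK, one_mul, decJ' K l₀ h, decJ K l₀] at h2 h3
  rw [decJ K l₀]
  constructor
  · rw [h2, (BA.ta k).2.1 _ _ _ _ (decL K (by omega)), (BA.ta k).2.1 _ _ _ _ (decL' K (by omega))]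
  · rw [h3, hQB.1 _ _ _ _ (decL K (by omega)), hQB.1 _ _ _ _ (decL' K (by omega))]

/-! ### Reindexing -/

theorem pmA0 (K l₀ m : ℕ) : pm (xx k K) (JA K l₀) (LA m)
    = pm (uN k K) ((range K).erase l₀) (List.range m) := pmA K _ _

theorem pmA1 (K l₀ m i : ℕ) : pm (xx k K) (JA K l₀) ((LA m).erase (0 + 2 * i))
    = pm (uN k K) ((range K).erase l₀) ((List.range m).erase i) := by
  rw [eLA]; exact pmA K _ _

theorem pmA2 (K l₀ m l i : ℕ) : pm (xx k K) ((JA K l₀).erase (0 + 2 * l)) ((LA m).erase (0 + 2 * i))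
    = pm (uN k K) (((range K).erase l₀).erase l) ((List.range m).erase i) := by
  rw [eLA, eJA]; exact pmA K _ _

theorem pmB0 (K m m' : ℕ) : pm (xx k K) (JB m) (LB m')
    = pm (fun s => uN k K (s + 1)) (range m) (List.range m') := pmB K _ _

theorem pmB1 (K m m' l : ℕ) : pm (xx k K) ((JB m).erase (1 + 2 * l)) (LB m')
    = pm (fun s => uN k K (s + 1)) ((range m).erase l) (List.range m') := by
  rw [eJB]; exact pmB K _ _

theorem pmB2 (K m m' l i : ℕ) : pm (xx k K) ((JB m).erase (1 + 2 * l)) ((LB m').erase (1 + 2 * i))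
    = pm (fun s => uN k K (s + 1)) ((range m).erase l) ((List.range m').erase i) := by
  rw [eJB, eLB]; exact pmB K _ _

theorem pdA1 (K l₀ m i : ℕ) (y : ℕ → k) : pd (xx k K) y (JA K l₀) ((LA m).erase (0 + 2 * i))
    = pd (uN k K) (fun s => y (0 + 0 + 2 * s)) ((range K).erase l₀) ((List.range m).erase i) := by
  rw [eLA]; exact pdA K y _ _

theorem pdB0 (K m m' : ℕ) (y : ℕ → k) : pd (xx k K) y (JB m) (LB m')
    = pd (fun s => uN k K (s + 1)) (fun s => y (1 + 1 + 2 * s)) (range m) (List.range m') :=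
  pdB K y _ _

theorem pdB1 (K m m' l : ℕ) (y : ℕ → k) : pd (xx k K) y ((JB m).erase (1 + 2 * l)) (LB m')
    = pd (fun s => uN k K (s + 1)) (fun s => y (1 + 1 + 2 * s)) ((range m).erase l)
      (List.range m') := by
  rw [eJB]; exact pdB K y _ _

/-! ### The formulas -/

theorem fd1 (K l₀ : ℕ) (hK : 4 ≤ K) (h : l₀ < K) (y : ℕ → k) :
    pd (xx k K) y (JA K l₀ ∪ JB K) (LA K ++ LB (K - 1)) =
      ∑ i ∈ range K, ∑ l ∈ range K, y (1 + 2 * l + (0 + 2 * i)) *
        pm (uN k K) ((range K).erase l₀) ((List.range K).erase i) *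
        pm (fun s => uN k K (s + 1)) ((range K).erase l) (List.range (K - 1)) := by
  rw [bd k (xx k K) y (JA K l₀) (JB K) (LA K) (LB (K - 1)) (dJ _ _ _) (nLA _) (z1 _ _ _) (z2 _ _ _)
    (by rw [cJA K l₀ h, cLA]; omega) (by rw [cJB, cLB]; omega), sLA]
  refine Finset.sum_congr rfl fun i _ => ?_
  rw [sJB]
  refine Finset.sum_congr rfl fun l _ => ?_
  rw [pmA1, pmB1]

theorem last_erase (K : ℕ) (hK : 1 ≤ K) : (List.range K).erase (K - 1) = List.range (K - 1) := by
  obtain ⟨n, rfl⟩ : ∃ n, K = n + 1 := ⟨K - 1, by omega⟩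
  rw [Nat.add_sub_cancel, List.range_succ, List.erase_append_right _ (by simp)]
  simp

theorem eLast (K l₀ : ℕ) (hK : 4 ≤ K) (h : l₀ + 1 < K) :
    pm (uN k K) ((range K).erase l₀) (List.range (K - 1)) = 0 := by
  obtain ⟨-, c2, -⟩ := cn k K (by omega)
  have e := c2 (K - 1) (by omega) l₀ (by omega)
  rw [last_erase K (by omega), if_neg (by omega), if_pos (by omega)] at e
  exact e

theorem ei (K l₀ i : ℕ) (h : l₀ < 2) (hi : i < K) (hK : 4 ≤ K) :
    pm (uN k K) ((range K).erase l₀) ((List.range K).erase i) = if i + 1 = K then 0 else 1 := by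
  obtain ⟨-, c2, -⟩ := cn k K (by omega)
  rw [c2 i hi l₀ (by omega), if_neg (by omega)]
  by_cases h1 : i + 1 = K
  · rw [if_pos (Or.inl h1), if_pos h1]
  · rw [if_neg (by omega), if_pos (by omega), if_neg h1]

theorem B0 (K : ℕ) (hK : 4 ≤ K) :
    pm (fun s => uN k K (s + 1)) (range (K - 1)) (List.range (K - 1)) = 0 :=
  (cn k K (by omega)).2.2.1

theorem fd2 (K l₀ : ℕ) (hK : 4 ≤ K) (h : l₀ + 1 < K) (y : ℕ → k) :
    pd (xx k K) y (JA K l₀ ∪ JB (K - 1)) (LA (K - 1) ++ LB (K - 1)) = 0 := by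
  rw [bc k (xx k K) y (JA K l₀) (JB (K - 1)) (LA (K - 1)) (LB (K - 1)) (dJ _ _ _) (z1 _ _ _)
    (z2 _ _ _) (by rw [cJA K l₀ (by omega), cLA]) (by rw [cJB, cLB]), pmA0, pmB0, eLast K l₀ hK h,
    B0 K hK]
  ring

theorem part1 (hLK : StmLK k) (hQB : StmQB k) (K : ℕ) (hK : 4 ≤ K) (y : ℕ → k) :
    pd (qC2 k K) y ((range (2 * K)).erase 0) (List.range (2 * K - 1)) =
      pd (qC2 k K) y ((range (2 * K)).erase 2) (List.range (2 * K - 1)) := by
  have e0 := (lk hLK hQB K 0 hK (by omega) y).1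
  have e1 := (lk hLK hQB K 1 hK (by omega) y).1
  rw [show 2 * 0 = 0 by norm_num] at e0
  rw [show 2 * 1 = 2 by norm_num] at e1
  rw [e0, e1, fd2 K 0 hK (by omega), fd2 K 1 hK (by omega), fd1 K 0 hK (by omega),
    fd1 K 1 hK (by omega)]
  congr 1
  refine Finset.sum_congr rfl fun i hi => Finset.sum_congr rfl fun l _ => ?_
  rw [Finset.mem_range] at hi
  rw [ei K 0 i (by norm_num) hi hK, ei K 1 i (by norm_num) hi hK]

theorem fq1 (hQB : StmQB k) (K l₀ : ℕ) (hK : 4 ≤ K) (h : l₀ < K) (w : ℕ → k) :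
    pq (xx k K) w (JA K l₀ ∪ JB K) (LA K ++ LB (K - 1)) =
      ∑ i ∈ range K, ∑ l ∈ range K, w (1 + 2 * l + (0 + 2 * i)) *
        (pd (uN k K) (fun s => w (0 + 0 + 2 * s)) ((range K).erase l₀) ((List.range K).erase i) *
          pm (fun s => uN k K (s + 1)) ((range K).erase l) (List.range (K - 1)) +
        pm (uN k K) ((range K).erase l₀) ((List.range K).erase i) *
          pd (fun s => uN k K (s + 1)) (fun s => w (1 + 1 + 2 * s)) ((range K).erase l)
            (List.range (K - 1))) := by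
  rw [hQB.2.2 (xx k K) w (JA K l₀) (JB K) (LA K) (LB (K - 1)) (dJ _ _ _) (nLAB _ _) (z1 _ _ _)
    (z2 _ _ _) (by rw [cJA K l₀ h, cLA]; omega) (by rw [cJB, cLB]; omega), sLA]
  refine Finset.sum_congr rfl fun i _ => ?_
  rw [sJB]
  refine Finset.sum_congr rfl fun l _ => ?_
  rw [pmA1, pmB1, pdA1, pdB1]

theorem fq2 (hQB : StmQB k) (K l₀ : ℕ) (hK : 4 ≤ K) (h : l₀ + 1 < K) (w : ℕ → k)
    (hw : pd (xx k K) w (JB (K - 1)) (LB (K - 1)) = 0) :
    pq (xx k K) w (JA K l₀ ∪ JB (K - 1)) (LA (K - 1) ++ LB (K - 1)) =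
      ∑ i ∈ range (K - 1), ∑ l ∈ range (K - 1), w (1 + 2 * l + (0 + 2 * i)) *
        ∑ i' ∈ range (K - 1), ∑ l' ∈ (range K).erase l₀, w (0 + 2 * l' + (1 + 2 * i')) *
          (pm (uN k K) (((range K).erase l₀).erase l') ((List.range (K - 1)).erase i) *
          pm (fun s => uN k K (s + 1)) ((range (K - 1)).erase l)
            ((List.range (K - 1)).erase i')) := by
  rw [hQB.2.1 (xx k K) w (JA K l₀) (JB (K - 1)) (LA (K - 1)) (LB (K - 1)) (dJ _ _ _) (nLAB _ _)
    (z1 _ _ _) (z2 _ _ _) (by rw [cJA K l₀ (by omega), cLA]) (by rw [cJB, cLB]), hw, pmA0,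
    eLast K l₀ hK h, pmB0, B0 K hK, mul_zero, mul_zero, zero_mul, zero_add, zero_add, zero_add, sLA]
  refine Finset.sum_congr rfl fun i _ => ?_
  rw [sJB]
  refine Finset.sum_congr rfl fun l _ => ?_
  rw [sLB, Finset.mul_sum]
  refine Finset.sum_congr rfl fun i' _ => ?_
  rw [sJA, Finset.mul_sum]
  refine Finset.sum_congr rfl fun l' _ => ?_
  rw [pmA2, pmB2]
  ring

/-! ### The small minors -/

theorem uN_strip (K s : ℕ) (hs : 2 ≤ s) :
    uN k K s = if s + 1 = K ∨ s = K then 1 else 0 := by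
  unfold uN
  rw [if_neg (by omega), if_neg (by omega)]
  by_cases h1 : s + 1 = K
  · rw [if_pos h1, if_pos (Or.inl h1)]
  · by_cases h2 : s = K
    · rw [if_neg h1, if_pos h2, if_pos (Or.inr h2)]
    · rw [if_neg h1, if_neg h2, if_neg (by tauto)]

theorem s1 (K z : ℕ) (hK : 4 ≤ K) (h1 : 1 ≤ z) (h2 : z ≤ K - 1) (J : Finset ℕ)
    (hJ : ∀ j, j ∈ J ↔ j ≠ z ∧ 1 ≤ j ∧ j ≤ K - 1) :
    pm (uN k K) J (List.range' 1 (K - 2)) = 1 := by
  have h := (sl k).2.1 (uN k K) K 1 (K - 1) (by omega) (by omega) (by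
    intro j hj1 hj2 c hc1 hc2
    rw [uN_strip K _ (by omega)]) z (by rw [Finset.mem_Icc]; omega)
  have e : (Icc (K - (K - 1)) (K - 1)).erase z = J := by
    ext j
    rw [Finset.mem_erase, Finset.mem_Icc, hJ]
    omega
  rw [e] at h
  rw [← h]
  congr 1

theorem s2 (K z : ℕ) (hK : 4 ≤ K) (h1 : 1 ≤ z) (h2 : z ≤ K - 2) (J : Finset ℕ)
    (hJ : ∀ j, j ∈ J ↔ j ≠ z ∧ 1 ≤ j ∧ j ≤ K - 2) :
    pm (uN k K) J (List.range' 2 (K - 3)) = 1 := by
  have h := (sl k).2.1 (uN k K) K 2 (K - 1) (by omega) (by omega) (by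
    intro j hj1 hj2 c hc1 hc2
    rw [uN_strip K _ (by omega)]) z (by rw [Finset.mem_Icc]; omega)
  have e : (Icc (K - (K - 1)) (K - 2)).erase z = J := by
    ext j
    rw [Finset.mem_erase, Finset.mem_Icc, hJ]
    omega
  rw [e] at h
  rw [← h]
  congr 1

theorem uN0 (K : ℕ) : uN k K 0 = 1 := by simp [uN]

theorem uN1 (K : ℕ) : uN k K 1 = -1 := by simp [uN]

theorem uNz (K s : ℕ) (h2 : 2 ≤ s) (h3 : s + 1 ≠ K) (h4 : s ≠ K) : uN k K s = 0 := by
  rw [uN_strip K s h2, if_neg (by omega)]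

theorem uNo (K s : ℕ) (h2 : 2 ≤ s) (h3 : s + 1 = K) : uN k K s = 1 := by
  rw [uN_strip K s h2, if_pos (Or.inl h3)]

theorem nL2 (K : ℕ) : (0 :: List.range' 2 (K - 3)).Nodup := by
  rw [List.nodup_cons]
  refine ⟨?_, List.nodup_range'⟩
  rw [List.mem_range'_1]
  omega

/-- rows `0, 2, …, K - 2`, columns `2, …, K - 1` -/
theorem s3 (K : ℕ) (hK : 4 ≤ K) (J : Finset ℕ) (hJ : ∀ j, j ∈ J ↔ 2 ≤ j ∧ j ≤ K - 1) :
    pm (uN k K) J (0 :: List.range' 2 (K - 3)) = 1 := by
  rw [pm_cons, Finset.sum_eq_single (K - 1)]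
  · rw [uNo K _ (by omega) (by omega), one_mul]
    exact s2 K 1 hK (by omega) (by omega) _ (by
      intro j
      rw [Finset.mem_erase, hJ]
      omega)
  · intro j hj hne
    rw [hJ] at hj
    rw [uNz K _ (by omega) (by omega) (by omega), zero_mul]
  · intro h
    exact absurd ((hJ _).2 (by omega)) h

/-- rows `0, 2, …, K - 2`, columns `1, …, K - 2` -/
theorem s4 (K : ℕ) (hK : 4 ≤ K) (J : Finset ℕ) (hJ : ∀ j, j ∈ J ↔ 1 ≤ j ∧ j ≤ K - 2) :
    pm (uN k K) J (0 :: List.range' 2 (K - 3)) = -1 := by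
  rw [pm_cons, Finset.sum_eq_single 1]
  · rw [Nat.add_zero, uN1, s2 K 1 hK (by omega) (by omega) _ (by
      intro j
      rw [Finset.mem_erase, hJ])]
    ring
  · intro j hj hne
    rw [hJ] at hj
    rw [uNz K _ (by omega) (by omega) (by omega), zero_mul]
  · intro h
    exact absurd ((hJ _).2 (by omega)) h

/-- rows `1, …, K - 2`, columns `0, 2, …, K - 2` -/
theorem s5 (K : ℕ) (hK : 4 ≤ K) (J : Finset ℕ) (hJ : ∀ j, j ∈ J ↔ j ≠ 1 ∧ j ≤ K - 2) :
    pm (uN k K) J (List.range' 1 (K - 2)) = -1 := by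
  have hc : J.card = K - 2 := by
    have e : J = (range (K - 1)).erase 1 := by
      ext j
      rw [hJ, Finset.mem_erase, Finset.mem_range]
      omega
    rw [e, Finset.card_erase_of_mem (Finset.mem_range.2 (by omega)), Finset.card_range]
    omega
  have e : List.range' 1 (K - 2) = 1 :: List.range' 2 (K - 3) := by
    obtain ⟨n, rfl⟩ : ∃ n, K = n + 3 := ⟨K - 3, by omega⟩
    rw [show n + 3 - 2 = n + 1 by omega, show n + 3 - 3 = n by omega, List.range'_succ]
  rw [e, pm_cons, Finset.sum_eq_single 0]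
  · rw [Nat.zero_add, uN1, s2 K 1 hK (by omega) (by omega) _ (by
      intro j
      rw [Finset.mem_erase, hJ]
      omega)]
    ring
  · intro j hj hne
    have h0 : pm (uN k K) (J.erase j) (List.range' 2 (K - 3)) = 0 := by
      refine (sl k).1 (uN k K) (J.erase j) (List.range' 2 (K - 3)) ?_ 0 ?_ ?_
      · rw [Finset.card_erase_of_mem hj, hc, List.length_range']
        omega
      · rw [Finset.mem_erase, hJ]
        omega
      · intro c hc'
        rw [List.mem_range'_1] at hc'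
        exact uNz K _ (by omega) (by omega) (by omega)
    rw [h0, mul_zero]
  · intro h
    exact absurd ((hJ _).2 (by omega)) h

/-- rows and columns `0, 2, …, K - 2` -/
theorem s6 (K : ℕ) (hK : 4 ≤ K) (J : Finset ℕ) (hJ : ∀ j, j ∈ J ↔ j ≠ 1 ∧ j ≤ K - 2) :
    pm (uN k K) J (0 :: List.range' 2 (K - 3)) = 1 := by
  rw [pm_cons, Finset.sum_eq_single 0]
  · rw [Nat.add_zero, uN0, s2 K 1 hK (by omega) (by omega) _ (by
      intro j
      rw [Finset.mem_erase, hJ]
      omega)]
    ring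
  · intro j hj hne
    rw [hJ] at hj
    rw [uNz K _ (by omega) (by omega) (by omega), zero_mul]
  · intro h
    exact absurd ((hJ _).2 (by omega)) h

/-- rows and columns `2, …, K - 1` -/
theorem s7 (K : ℕ) (hK : 4 ≤ K) (J : Finset ℕ) (hJ : ∀ j, j ∈ J ↔ 2 ≤ j ∧ j ≤ K - 1)
    (L : List ℕ) (hL : L.length = K - 2) (hL2 : ∀ c ∈ L, 2 ≤ c) :
    pm (uN k K) J L = 0 := by
  have hc : J.card = K - 2 := by
    have e : J = Icc 2 (K - 1) := by
      ext j
      rw [hJ, Finset.mem_Icc]
    rw [e, Nat.card_Icc]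
    omega
  refine (sl k).1 (uN k K) J L (by omega) (K - 1) ((hJ _).2 (by omega)) ?_
  intro c hc'
  have := hL2 c hc'
  exact uNz K _ (by omega) (by omega) (by omega)

/-! ### The derivatives of the blocks in the direction `w` -/

theorem wA_ (K j c : ℕ) (hK : 4 ≤ K) (hj : j < K) (hc : c < K) :
    wC2' k K (0 + 0 + 2 * (j + c)) =
      (if c = 0 ∧ j = 0 then (-2 : k) else 0) + (if c = K - 1 ∧ j = K - 1 then (1 : k) else 0) := by
  unfold wC2'
  by_cases h0 : c = 0 ∧ j = 0
  · rw [if_pos (by omega), if_pos h0, if_neg (by omega), add_zero]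
  · by_cases h1 : c = K - 1 ∧ j = K - 1
    · rw [if_neg (by omega), if_pos (by omega), if_neg h0, if_pos h1, zero_add]
    · rw [if_neg (by omega), if_neg (by omega), if_neg h0, if_neg h1, zero_add]

theorem wB_ (K j c : ℕ) (hK : 4 ≤ K) (hj : j < K) (hc : c < K - 1) :
    wC2' k K (1 + 1 + 2 * (j + c)) =
      (if c = K - 2 ∧ j = K - 1 then (1 : k) else 0) + (if c = 0 ∧ j = 0 then (0 : k) else 0) := by
  unfold wC2'
  rw [if_neg (by omega)]
  by_cases h1 : c = K - 2 ∧ j = K - 1
  · rw [if_pos (by omega), if_pos h1, ite_self, add_zero]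
  · rw [if_neg (by omega), if_neg h1, ite_self, add_zero]

theorem pA00 (K : ℕ) (hK : 4 ≤ K) : pd (uN k K) (fun s => wC2' k K (0 + 0 + 2 * s))
    ((range K).erase 0) ((List.range K).erase 0) = 1 := by
  rw [pd_supp _ _ _ _ (List.nodup_range.erase _) 0 0 (K - 1) (K - 1) (-2) 1 (by
    intro c hc j hj
    rw [List.Nodup.mem_erase_iff List.nodup_range, List.mem_range] at hc
    rw [Finset.mem_erase, Finset.mem_range] at hj
    exact wA_ K j c hK (by omega) (by omega)), if_neg (by simp), if_pos (by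
    rw [List.Nodup.mem_erase_iff List.nodup_range, List.mem_range, Finset.mem_erase,
      Finset.mem_range]
    omega), pm_mem _ _ ((List.nodup_range.erase _).erase _) (List.nodup_range' (s := 1) (n := K - 2))
      (by
        intro c
        rw [List.Nodup.mem_erase_iff (List.nodup_range.erase _),
          List.Nodup.mem_erase_iff List.nodup_range, List.mem_range, List.mem_range'_1]
        omega), s1 K (K - 1) hK (by omega) (by omega) _ (by
        intro j
        rw [Finset.mem_erase, Finset.mem_erase, Finset.mem_range]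
        omega)]
  ring

theorem pA01 (K : ℕ) (hK : 4 ≤ K) : pd (uN k K) (fun s => wC2' k K (0 + 0 + 2 * s))
    ((range K).erase 0) ((List.range K).erase 1) = -1 := by
  rw [pd_supp _ _ _ _ (List.nodup_range.erase _) 0 0 (K - 1) (K - 1) (-2) 1 (by
    intro c hc j hj
    rw [List.Nodup.mem_erase_iff List.nodup_range, List.mem_range] at hc
    rw [Finset.mem_erase, Finset.mem_range] at hj
    exact wA_ K j c hK (by omega) (by omega)), if_neg (by simp), if_pos (by
    rw [List.Nodup.mem_erase_iff List.nodup_range, List.mem_range, Finset.mem_erase,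
      Finset.mem_range]
    omega), pm_mem _ _ ((List.nodup_range.erase _).erase _) (nL2 K)
      (by
        intro c
        rw [List.Nodup.mem_erase_iff (List.nodup_range.erase _),
          List.Nodup.mem_erase_iff List.nodup_range, List.mem_range, List.mem_cons,
          List.mem_range'_1]
        omega), s4 K hK _ (by
        intro j
        rw [Finset.mem_erase, Finset.mem_erase, Finset.mem_range]
        omega)]
  ring

theorem pA10 (K : ℕ) (hK : 4 ≤ K) : pd (uN k K) (fun s => wC2' k K (0 + 0 + 2 * s))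
    ((range K).erase 1) ((List.range K).erase 0) = -1 := by
  rw [pd_supp _ _ _ _ (List.nodup_range.erase _) 0 0 (K - 1) (K - 1) (-2) 1 (by
    intro c hc j hj
    rw [List.Nodup.mem_erase_iff List.nodup_range, List.mem_range] at hc
    rw [Finset.mem_erase, Finset.mem_range] at hj
    exact wA_ K j c hK (by omega) (by omega)), if_neg (by
    rw [List.Nodup.mem_erase_iff List.nodup_range]; tauto), if_pos (by
    rw [List.Nodup.mem_erase_iff List.nodup_range, List.mem_range, Finset.mem_erase,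
      Finset.mem_range]
    omega), pm_mem _ _ ((List.nodup_range.erase _).erase _) (List.nodup_range' (s := 1) (n := K - 2))
      (by
        intro c
        rw [List.Nodup.mem_erase_iff (List.nodup_range.erase _),
          List.Nodup.mem_erase_iff List.nodup_range, List.mem_range, List.mem_range'_1]
        omega), s5 K hK _ (by
        intro j
        rw [Finset.mem_erase, Finset.mem_erase, Finset.mem_range]
        omega)]
  ring

theorem pA11 (K : ℕ) (hK : 4 ≤ K) : pd (uN k K) (fun s => wC2' k K (0 + 0 + 2 * s))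
    ((range K).erase 1) ((List.range K).erase 1) = 1 := by
  rw [pd_supp _ _ _ _ (List.nodup_range.erase _) 0 0 (K - 1) (K - 1) (-2) 1 (by
    intro c hc j hj
    rw [List.Nodup.mem_erase_iff List.nodup_range, List.mem_range] at hc
    rw [Finset.mem_erase, Finset.mem_range] at hj
    exact wA_ K j c hK (by omega) (by omega)), if_pos (by
    rw [List.Nodup.mem_erase_iff List.nodup_range, List.mem_range, Finset.mem_erase,
      Finset.mem_range]
    omega), if_pos (by
    rw [List.Nodup.mem_erase_iff List.nodup_range, List.mem_range, Finset.mem_erase,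
      Finset.mem_range]
    omega), s7 K hK _ (by
        intro j
        rw [Finset.mem_erase, Finset.mem_erase, Finset.mem_range]
        omega) _ (by
        rw [List.length_erase_of_mem, List.length_erase_of_mem, List.length_range]
        · omega
        · rw [List.mem_range]; omega
        · rw [List.Nodup.mem_erase_iff List.nodup_range, List.mem_range]; omega) (by
        intro c
        rw [List.Nodup.mem_erase_iff (List.nodup_range.erase _),
          List.Nodup.mem_erase_iff List.nodup_range]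
        omega), pm_mem _ _ ((List.nodup_range.erase _).erase _) (nL2 K)
      (by
        intro c
        rw [List.Nodup.mem_erase_iff (List.nodup_range.erase _),
          List.Nodup.mem_erase_iff List.nodup_range, List.mem_range, List.mem_cons,
          List.mem_range'_1]
        omega), s6 K hK _ (by
        intro j
        rw [Finset.mem_erase, Finset.mem_erase, Finset.mem_range]
        omega)]
  ring

theorem pBl (K l : ℕ) (hK : 4 ≤ K) (hl : l < 2) :
    pd (fun s => uN k K (s + 1)) (fun s => wC2' k K (1 + 1 + 2 * s)) ((range K).erase l)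
      (List.range (K - 1)) = if l = 0 then 1 else -1 := by
  rw [pd_supp _ _ _ _ List.nodup_range (K - 2) (K - 1) 0 0 1 0 (by
    intro c hc j hj
    rw [List.mem_range] at hc
    rw [Finset.mem_erase, Finset.mem_range] at hj
    exact wB_ K j c hK (by omega) (by omega)), if_pos (by
    rw [List.mem_range, Finset.mem_erase, Finset.mem_range]
    omega)]
  have e : ((range K).erase l).erase (K - 1) = (range (K - 1)).erase l := by
    ext j
    rw [Finset.mem_erase, Finset.mem_erase, Finset.mem_range, Finset.mem_erase, Finset.mem_range]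
    omega
  rw [e, (cn k K (by omega)).2.2.2.1 (K - 2) (by omega) l (by omega)]
  simp only [zero_mul, ite_self, add_zero, one_mul]
  by_cases h0 : l = 0
  · rw [if_pos (by omega), if_pos h0]
  · rw [if_neg (by omega), if_neg h0]

theorem pB' (K : ℕ) (hK : 4 ≤ K) :
    pd (xx k K) (wC2' k K) (JB (K - 1)) (LB (K - 1)) = 0 := by
  rw [pdB0, pd_supp _ _ _ _ List.nodup_range 0 0 0 0 0 0 (by
    intro c hc j hj
    rw [List.mem_range] at hc
    rw [Finset.mem_range] at hj
    rw [wB_ K j c hK (by omega) (by omega), if_neg (by omega)]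
    simp)]
  simp

theorem bl (K l : ℕ) (hK : 4 ≤ K) (hl : l < 2) :
    pm (fun s => uN k K (s + 1)) ((range K).erase l) (List.range (K - 1)) = 1 := by
  rw [(cn k K (by omega)).2.2.2.2 l (by omega), if_neg (by omega)]

/-- the odd part of `w` -/
def hh (k : Type*) [Field k] (K s : ℕ) : k := wC2' k K (2 * s + 1)

theorem hh0 (K : ℕ) : hh k K 0 = -2 := by simp [hh, wC2']

theorem hh1 (K : ℕ) : hh k K 1 = 1 := by simp [hh, wC2']

theorem hh2 (K : ℕ) : ∀ s, 2 ≤ s → hh k K s = 0 := by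
  intro s hs
  unfold hh wC2'
  rw [if_neg (by omega), if_neg (by omega)]

theorem ei' (K l₀ i : ℕ) (h : l₀ < 2) (hi : i < 2) (hK : 4 ≤ K) :
    pm (uN k K) ((range K).erase l₀) ((List.range K).erase i) = 1 := by
  rw [ei K l₀ i h (by omega) hK, if_neg (by omega)]

theorem pBl0 (K : ℕ) (hK : 4 ≤ K) :
    pd (fun s => uN k K (s + 1)) (fun s => wC2' k K (1 + 1 + 2 * s)) ((range K).erase 0)
      (List.range (K - 1)) = 1 := by
  rw [pBl K 0 hK (by omega), if_pos rfl]

theorem pBl1 (K : ℕ) (hK : 4 ≤ K) :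
    pd (fun s => uN k K (s + 1)) (fun s => wC2' k K (1 + 1 + 2 * s)) ((range K).erase 1)
      (List.range (K - 1)) = -1 := by
  rw [pBl K 1 hK (by omega), if_neg (by omega)]

/-- without the link -/
theorem nolink (hQB : StmQB k) (K : ℕ) (hK : 4 ≤ K) :
    pq (xx k K) (wC2' k K) (JA K 0 ∪ JB K) (LA K ++ LB (K - 1)) = -4 ∧
    pq (xx k K) (wC2' k K) (JA K 1 ∪ JB K) (LA K ++ LB (K - 1)) = 0 := by
  have e : ∀ i l, wC2' k K (1 + 2 * l + (0 + 2 * i)) = hh k K (l + i) := by
    intro i l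
    unfold hh
    congr 1
    ring
  constructor
  · rw [fq1 hQB K 0 hK (by omega)]
    simp only [e]
    rw [hsum K K (by omega) (by omega) (hh k K) (hh2 K) (fun i l =>
        (pd (uN k K) (fun s => wC2' k K (0 + 0 + 2 * s)) ((range K).erase 0) ((List.range K).erase i) *
          pm (fun s => uN k K (s + 1)) ((range K).erase l) (List.range (K - 1)) +
        pm (uN k K) ((range K).erase 0) ((List.range K).erase i) *
          pd (fun s => uN k K (s + 1)) (fun s => wC2' k K (1 + 1 + 2 * s)) ((range K).erase l)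
            (List.range (K - 1))))]
    rw [hh0, hh1, pA00 K hK, pA01 K hK, bl K 0 hK (by omega), bl K 1 hK (by omega),
      pBl0 K hK, pBl1 K hK, ei' K 0 0 (by omega) (by omega) hK,
      ei' K 0 1 (by omega) (by omega) hK]
    ring
  · rw [fq1 hQB K 1 hK (by omega)]
    simp only [e]
    rw [hsum K K (by omega) (by omega) (hh k K) (hh2 K) (fun i l =>
        (pd (uN k K) (fun s => wC2' k K (0 + 0 + 2 * s)) ((range K).erase 1) ((List.range K).erase i) *
          pm (fun s => uN k K (s + 1)) ((range K).erase l) (List.range (K - 1)) +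
        pm (uN k K) ((range K).erase 1) ((List.range K).erase i) *
          pd (fun s => uN k K (s + 1)) (fun s => wC2' k K (1 + 1 + 2 * s)) ((range K).erase l)
            (List.range (K - 1))))]
    rw [hh0, hh1, pA10 K hK, pA11 K hK, bl K 0 hK (by omega), bl K 1 hK (by omega),
      pBl0 K hK, pBl1 K hK, ei' K 1 0 (by omega) (by omega) hK,
      ei' K 1 1 (by omega) (by omega) hK]
    ring

/-- the minors with columns `2, …, K - 1` -/
theorem Pi (K l₀ l' i : ℕ) (hK : 4 ≤ K) (h0 : l₀ + l' = 1) (hi : i < 2) :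
    pm (uN k K) (((range K).erase l₀).erase l') ((List.range (K - 1)).erase i) = 1 := by
  have hJ : ∀ j, j ∈ ((range K).erase l₀).erase l' ↔ 2 ≤ j ∧ j ≤ K - 1 := by
    intro j
    rw [Finset.mem_erase, Finset.mem_erase, Finset.mem_range]
    omega
  by_cases h1 : i = 0
  · subst h1
    rw [pm_mem _ _ (List.nodup_range.erase _) (List.nodup_range' (s := 1) (n := K - 2)) (by
      intro c
      rw [List.Nodup.mem_erase_iff List.nodup_range, List.mem_range, List.mem_range'_1]
      omega)]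
    exact s1 K 1 hK (by omega) (by omega) _ (by
      intro j
      rw [hJ]
      omega)
  · have h2 : i = 1 := by omega
    subst h2
    rw [pm_mem _ _ (List.nodup_range.erase _) (nL2 K) (by
      intro c
      rw [List.Nodup.mem_erase_iff List.nodup_range, List.mem_range, List.mem_cons,
        List.mem_range'_1]
      omega)]
    exact s3 K hK _ hJ

theorem Ql (K l i : ℕ) (hK : 4 ≤ K) (hl : l < 2) (hi : i < 2) :
    pm (fun s => uN k K (s + 1)) ((range (K - 1)).erase l) ((List.range (K - 1)).erase i) = 1 := by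
  rw [(cn k K (by omega)).2.2.2.1 i (by omega) l (by omega), if_pos (by omega)]

/-- the link -/
theorem link (hQB : StmQB k) (K l₀ : ℕ) (hK : 4 ≤ K) (h : l₀ < 2) :
    pq (xx k K) (wC2' k K) (JA K l₀ ∪ JB (K - 1)) (LA (K - 1) ++ LB (K - 1)) = 0 := by
  have e : ∀ i l, wC2' k K (1 + 2 * l + (0 + 2 * i)) = hh k K (l + i) := by
    intro i l
    unfold hh
    congr 1
    ring
  have e' : ∀ i l, wC2' k K (0 + 2 * l + (1 + 2 * i)) = hh k K (l + i) := by
    intro i l
    unfold hh
    congr 1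
    ring
  rw [fq2 hQB K l₀ hK (by omega) _ (pB' K hK)]
  simp only [e, e']
  have g1 : ∀ i < 2, ∀ l < 2, ∑ i' ∈ range (K - 1), ∑ l' ∈ (range K).erase l₀, hh k K (l' + i') *
          (pm (uN k K) (((range K).erase l₀).erase l') ((List.range (K - 1)).erase i) *
          pm (fun s => uN k K (s + 1)) ((range (K - 1)).erase l)
            ((List.range (K - 1)).erase i')) = if l₀ = 0 then 1 else -1 := by
    intro i hi l hl
    rw [hsumE (K - 1) K l₀ (by omega) (by omega) (hh k K) (hh2 K) (fun i' l' =>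
      (pm (uN k K) (((range K).erase l₀).erase l') ((List.range (K - 1)).erase i) *
          pm (fun s => uN k K (s + 1)) ((range (K - 1)).erase l)
            ((List.range (K - 1)).erase i'))), hh0, hh1]
    by_cases h0 : l₀ = 0
    · subst h0
      rw [if_pos rfl, if_neg (by omega), if_pos rfl, if_pos rfl,
        Pi K 0 1 i hK (by omega) hi, Ql K l 0 hK hl (by omega)]
      ring
    · have h1 : l₀ = 1 := by omega
      subst h1
      rw [if_neg (by omega), if_pos rfl, if_neg (by omega), if_neg (by omega),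
        Pi K 1 0 i hK (by omega) hi, Ql K l 0 hK hl (by omega), Ql K l 1 hK hl (by omega)]
      ring
  rw [hsum (K - 1) (K - 1) (by omega) (by omega) (hh k K) (hh2 K) (fun i l =>
    ∑ i' ∈ range (K - 1), ∑ l' ∈ (range K).erase l₀, hh k K (l' + i') *
          (pm (uN k K) (((range K).erase l₀).erase l') ((List.range (K - 1)).erase i) *
          pm (fun s => uN k K (s + 1)) ((range (K - 1)).erase l)
            ((List.range (K - 1)).erase i'))), hh0, hh1, g1 0 (by omega) 0 (by omega),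
    g1 0 (by omega) 1 (by omega), g1 1 (by omega) 0 (by omega)]
  ring

end Gen

theorem t (k : Type*) [Field k] (hLK : StmLK k) (hQB : StmQB k) : StmC2c k := by
  intro K hK
  refine ⟨part1 hLK hQB K hK, ?_, ?_⟩
  · have e0 := (lk hLK hQB K 0 hK (by omega) (wC2' k K)).2
    rw [show 2 * 0 = 0 by norm_num] at e0
    rw [e0, (nolink hQB K hK).1, link hQB K 0 hK (by omega), add_zero]
  · have e1 := (lk hLK hQB K 1 hK (by omega) (wC2' k K)).2
    rw [show 2 * 1 = 2 by norm_num] at e1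
    rw [e1, (nolink hQB K hK).2, link hQB K 1 hK (by omega), add_zero]

end Pool.Agent.N729.HQ.C2ca
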