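import Pool.Agent.N729.HQ.Stm

/-!
# Project HQ (helper729), part CH: the chain equations (helper862)
-/

set_option autoImplicit false

namespace Pool.Agent.N729.HQ.CH

open Finset

theorem c1 (k : Type*) [Field k] (I₀ I₁ : Finset ℕ) (X₀ X₁ a b : ℕ → k)
    (h : ∀ l₀ ∈ I₀, ∀ l₁ ∈ I₁, X₀ l₀ * a l₁ + b l₀ * X₁ l₁ = 0)
    (ha : ∃ l ∈ I₁, a l ≠ 0) (hb : ∃ l ∈ I₀, b l ≠ 0) :
    ∃ w : k, (∀ l ∈ I₀, X₀ l = - w * b l) ∧ ∀ l ∈ I₁, X₁ l = w * a l := by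
  obtain ⟨l₁, hl₁, ha⟩ := ha
  obtain ⟨l₀, hl₀, hb⟩ := hb
  have h0 : ∀ l ∈ I₀, X₀ l = - (X₁ l₁ / a l₁) * b l := by
    intro l hl
    have h1 := h l hl l₁ hl₁
    field_simp
    linear_combination h1
  refine ⟨X₁ l₁ / a l₁, h0, fun l hl => ?_⟩
  have h1 := h l₀ hl₀ l hl
  rw [h0 l₀ hl₀] at h1
  have h2 : b l₀ * (X₁ l - X₁ l₁ / a l₁ * a l) = 0 := by
    linear_combination h1
  have h3 := (mul_eq_zero.1 h2).resolve_left hb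
  exact sub_eq_zero.1 h3

theorem t (k : Type*) [Field k] : StmCH k := by
  refine ⟨fun I₀ I₁ X₀ X₁ a b h ha hb => c1 k I₀ I₁ X₀ X₁ a b h ha hb, ?_⟩
  intro I₀ I₁ I₂ X₀ X₁ X₂ a₁ a₂ b₀ b₁ h ha₁ hb₁ ha₂ hb₀
  obtain ⟨l₁, hl₁, hb₁⟩ := hb₁
  obtain ⟨l₂, hl₂, ha₂⟩ := ha₂
  obtain ⟨l₀, hl₀, hb₀'⟩ := hb₀
  obtain ⟨w₁, hw₁⟩ : ∃ w₁, w₁ = X₂ l₂ / a₂ l₂ := ⟨_, rfl⟩
  have hX : X₂ l₂ = w₁ * a₂ l₂ := by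
    rw [hw₁, div_mul_cancel₀ _ ha₂]
  have h1 : ∀ i ∈ I₀, ∀ j ∈ I₁, X₀ i * a₁ j + b₀ i * (X₁ j + w₁ * b₁ j) = 0 := by
    intro i hi j hj
    have h2 := h i hi j hj l₂ hl₂
    rw [hX] at h2
    have h3 : a₂ l₂ * (X₀ i * a₁ j + b₀ i * (X₁ j + w₁ * b₁ j)) = 0 := by
      linear_combination h2
    exact (mul_eq_zero.1 h3).resolve_left ha₂
  have h2 : ∀ l ∈ I₂, X₂ l = w₁ * a₂ l := by
    intro l hl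
    have h3 := h l₀ hl₀ l₁ hl₁ l hl
    have h4 := h1 l₀ hl₀ l₁ hl₁
    have h5 : b₀ l₀ * b₁ l₁ * (X₂ l - w₁ * a₂ l) = 0 := by
      linear_combination h3 - a₂ l * h4
    have h6 := (mul_eq_zero.1 h5).resolve_left (mul_ne_zero hb₀' hb₁)
    exact sub_eq_zero.1 h6
  obtain ⟨w, hw, hw'⟩ := c1 k I₀ I₁ X₀ (fun j => X₁ j + w₁ * b₁ j) a₁ b₀ h1 ha₁
    ⟨l₀, hl₀, hb₀'⟩
  refine ⟨w, w₁, hw, fun l hl => ?_, h2⟩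
  have h3 := hw' l hl
  linear_combination h3

end Pool.Agent.N729.HQ.CH
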