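import Pool.Agent.N729.HQ.Stm
set_option autoImplicit false

namespace Pool.Agent.N729.HQ.IG
open MvPolynomial

theorem perm_expand {R : Type*} [CommRing R] (n : ℕ) (M : Matrix (Fin (n + 1)) (Fin (n + 1)) R) :
    M.permanent = M 0 0 * (∑ e : Equiv.Perm (Fin n), ∏ x : Fin n, M (e x).succ x.succ) +
      ∑ p : Fin n, M p.succ 0 * ∑ e : Equiv.Perm (Fin n),
        ∏ x : Fin n, M (Equiv.swap 0 p.succ (e x).succ) x.succ := by
  unfold Matrix.permanent
  rw [← Equiv.sum_comp (Equiv.Perm.decomposeFin (n := n)).symm]
  rw [Fintype.sum_prod_type]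
  simp only [Fin.prod_univ_succ, Equiv.Perm.decomposeFin_symm_apply_zero,
    Equiv.Perm.decomposeFin_symm_apply_succ]
  rw [Fin.sum_univ_succ]
  simp only [Finset.mul_sum, Equiv.swap_self, Equiv.refl_apply]

theorem irreducible_rename {σ τ k : Type*} [Field k] (f : σ → τ) (hf : Function.Injective f)
    (p : MvPolynomial σ k) (hp : Irreducible p) : Irreducible (rename f p) := by
  have h1 : rename f p = rename ((↑) : Set.range f → τ)
      (rename (Equiv.ofInjective f hf) p) := by
    rw [rename_rename]; rfl
  rw [h1]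
  have h2 : Prime (rename (Equiv.ofInjective f hf) p) := by
    have := (MulEquiv.prime_iff (renameEquiv k (Equiv.ofInjective f hf))).2 hp.prime
    simpa using this
  exact ((prime_rename_iff (Set.range f)).2 h2).irreducible

theorem t (k : Type*) [Field k] : StmIG k := by
  intro n hn
  induction n, hn using Nat.le_induction with
  | base =>
    have h : (Matrix.permanent (Matrix.of fun i j : Fin 1 =>
      (MvPolynomial.X (i, j) : MvPolynomial (Fin 1 × Fin 1) k))) = X (0, 0) := by
      simp [Matrix.permanent]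
    rw [h]
    exact (MvPolynomial.X_prime).irreducible
  | succ n hn ih =>
    set m : MvPolynomial (Fin (n + 1) × Fin (n + 1)) k :=
      ∑ e : Equiv.Perm (Fin n), ∏ x : Fin n, X ((e x).succ, x.succ) with hm
    set c : MvPolynomial (Fin (n + 1) × Fin (n + 1)) k :=
      ∑ p : Fin n, X (p.succ, 0) * ∑ e : Equiv.Perm (Fin n),
        ∏ x : Fin n, X (Equiv.swap 0 p.succ (e x).succ, x.succ) with hc
    have hexp : (Matrix.permanent (Matrix.of fun i j : Fin (n + 1) =>
      (MvPolynomial.X (i, j) : MvPolynomial (Fin (n + 1) × Fin (n + 1)) k))) =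
        m * X (0, 0) + c := by
      rw [perm_expand]
      simp only [Matrix.of_apply, hm, hc]
      ring
    have hmren : m = rename (Prod.map Fin.succ Fin.succ)
        (Matrix.permanent (Matrix.of fun i j : Fin n =>
          (MvPolynomial.X (i, j) : MvPolynomial (Fin n × Fin n) k))) := by
      simp [hm, Matrix.permanent, map_sum, map_prod]
    have hmirr : Irreducible m := by
      rw [hmren]
      exact irreducible_rename _ (Function.Injective.prodMap (Fin.succ_injective _)
        (Fin.succ_injective _)) _ ih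
    have hmem : ∀ a b : Fin (n + 1), ¬ (a = 0 ∧ b = 0) →
        (X (a, b) : MvPolynomial (Fin (n + 1) × Fin (n + 1)) k) ∈
          supported k ({(0, 0)}ᶜ : Set (Fin (n + 1) × Fin (n + 1))) := by
      intro a b hab
      apply Algebra.subset_adjoin
      refine ⟨(a, b), ?_, rfl⟩
      simpa [Prod.ext_iff] using hab
    have hmv : ((0, 0) : Fin (n + 1) × Fin (n + 1)) ∉ m.vars := by
      have h1 : m ∈ supported k ({(0, 0)}ᶜ : Set (Fin (n + 1) × Fin (n + 1))) := by
        refine Subalgebra.sum_mem _ fun e _ => Subalgebra.prod_mem _ fun x _ => ?_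
        exact hmem _ _ (fun h => Fin.succ_ne_zero _ h.2)
      intro h0
      have := (mem_supported.1 h1) h0
      simp at this
    have hcv : ((0, 0) : Fin (n + 1) × Fin (n + 1)) ∉ c.vars := by
      have h1 : c ∈ supported k ({(0, 0)}ᶜ : Set (Fin (n + 1) × Fin (n + 1))) := by
        refine Subalgebra.sum_mem _ fun p _ => Subalgebra.mul_mem _
          (hmem _ _ (fun h => Fin.succ_ne_zero _ h.1)) ?_
        refine Subalgebra.sum_mem _ fun e _ => Subalgebra.prod_mem _ fun x _ => ?_
        exact hmem _ _ (fun h => Fin.succ_ne_zero _ h.2)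
      intro h0
      have := (mem_supported.1 h1) h0
      simp at this
    rw [hexp]
    refine irreducible_mul_X_add m c (0, 0) hmirr.ne_zero hmv hcv ?_
    rw [hmirr.isRelPrime_iff_not_dvd]
    rintro ⟨q, hq⟩
    -- the evaluation point
    obtain ⟨n', rfl⟩ : ∃ n', n = n' + 1 := ⟨n - 1, by omega⟩
    let v : Fin (n' + 1 + 1) × Fin (n' + 1 + 1) → k :=
      fun ab => if ab.1 = Equiv.swap (0 : Fin (n' + 1 + 1)) 1 ab.2 then 1 else 0
    have hm0 : eval v m = 0 := by
      simp only [hm, map_sum, map_prod, eval_X]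
      refine Finset.sum_eq_zero fun e _ => Finset.prod_eq_zero (Finset.mem_univ (e.symm 0)) ?_
      simp only [v, Equiv.apply_symm_apply]
      rw [if_neg]
      intro h
      have h2 : (e.symm 0).succ = 0 := by
        have h3 := congrArg (Equiv.swap (0 : Fin (n' + 1 + 1)) 1) h
        rw [Equiv.swap_apply_self] at h3
        have h4 : (Fin.succ (0 : Fin (n' + 1))) = 1 := rfl
        rw [h4, Equiv.swap_apply_right] at h3
        exact h3.symm
      exact Fin.succ_ne_zero _ h2
    have hP : eval v (Matrix.permanent (Matrix.of fun i j : Fin (n' + 1 + 1) =>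
      (MvPolynomial.X (i, j) : MvPolynomial (Fin (n' + 1 + 1) × Fin (n' + 1 + 1)) k))) = 1 := by
      simp only [Matrix.permanent, map_sum, map_prod, Matrix.of_apply, eval_X, v]
      rw [Finset.sum_eq_single (Equiv.swap (0 : Fin (n' + 1 + 1)) 1)]
      · simp
      · intro σ _ hσ
        obtain ⟨i, hi⟩ : ∃ i, σ i ≠ Equiv.swap (0 : Fin (n' + 1 + 1)) 1 i := by
          by_contra hcon
          push Not at hcon
          exact hσ (Equiv.ext hcon)
        exact Finset.prod_eq_zero (Finset.mem_univ i) (if_neg hi)
      · intro h; exact absurd (Finset.mem_univ _) h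
    have h1 := hP
    rw [hexp, map_add, map_mul, hq, map_mul, hm0] at h1
    simp at h1

end Pool.Agent.N729.HQ.IG
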