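import Pool.Agent.N729.HQ.Stm

/-! Project HQ (helper729), part IH: the Hankel permanent is irreducible. -/

set_option autoImplicit false

namespace Pool.Agent.N729.HQ.IH

open Finset MvPolynomial

variable {k : Type*} [Field k]

/-- the Hankel matrix with a shift -/
noncomputable def hm (k : Type*) [Field k] (n s : ℕ) : Matrix (Fin n) (Fin n) (MvPolynomial ℕ k) :=
  Matrix.of fun i j => X (i.val + j.val + s)

/-- expansion at the first entry -/
lemma perm_succ {R : Type*} [CommRing R] {n : ℕ} (A : Matrix (Fin (n + 1)) (Fin (n + 1)) R) :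
    A.permanent = A 0 0 * (A.submatrix Fin.succ Fin.succ).permanent +
      ∑ p : Fin n, ∑ τ : Equiv.Perm (Fin n), ∏ i : Fin (n + 1),
        A (Equiv.Perm.decomposeFin.symm (p.succ, τ) i) i := by
  unfold Matrix.permanent
  rw [← Equiv.sum_comp (Equiv.Perm.decomposeFin (n := n)).symm, Fintype.sum_prod_type,
    Fin.sum_univ_succ]
  congr 1
  rw [Finset.mul_sum]
  refine Finset.sum_congr rfl fun τ _ => ?_
  rw [Fin.prod_univ_succ, Equiv.Perm.decomposeFin_symm_apply_zero]
  congr 1

lemma sub_hm (n s : ℕ) : (hm k (n + 1) s).submatrix Fin.succ Fin.succ = hm k n (s + 2) := by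
  ext1 i j
  simp only [hm, Matrix.submatrix_apply, Matrix.of_apply, Fin.val_succ]
  congr 1
  ring

/-- the evaluation at a standard basis vector -/
noncomputable def ev (k : Type*) [Field k] (v : ℕ) : MvPolynomial ℕ k →+* k :=
  eval (fun w => if w = v then 1 else 0)

lemma ev_X (v w : ℕ) : ev k v (X w) = if w = v then 1 else 0 := by
  unfold ev
  rw [eval_X]

lemma ev_perm (n s : ℕ) : ev k (n + s) (hm k (n + 1) s).permanent = 1 := by
  unfold Matrix.permanent
  rw [map_sum, Finset.sum_eq_single Fin.revPerm]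
  · rw [map_prod]
    refine Finset.prod_eq_one fun i _ => ?_
    simp only [hm, Matrix.of_apply, ev_X, Fin.revPerm_apply, Fin.val_rev]
    rw [if_pos]
    omega
  · intro σ _ hσ
    rw [map_prod]
    obtain ⟨i, hi⟩ : ∃ i, σ i ≠ Fin.revPerm i := by
      by_contra hcon
      push Not at hcon
      exact hσ (Equiv.ext hcon)
    refine Finset.prod_eq_zero (Finset.mem_univ i) ?_
    simp only [hm, Matrix.of_apply, ev_X]
    rw [if_neg]
    intro h
    apply hi
    ext
    rw [Fin.revPerm_apply, Fin.val_rev]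
    omega
  · intro h
    exact absurd (Finset.mem_univ _) h

lemma ev_small (n s : ℕ) : ev k (n + 1 + s) (hm k (n + 1) (s + 2)).permanent = 0 := by
  unfold Matrix.permanent
  rw [map_sum]
  refine Finset.sum_eq_zero fun σ _ => ?_
  rw [map_prod]
  refine Finset.prod_eq_zero (Finset.mem_univ (Fin.last n)) ?_
  simp only [hm, Matrix.of_apply, ev_X, Fin.val_last]
  rw [if_neg]
  omega

lemma vars_hm (n s v : ℕ) (hv : v < s) : v ∉ (hm k n s).permanent.vars := by
  classical
  unfold Matrix.permanent
  intro h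
  obtain ⟨σ, _, h1⟩ := Finset.mem_biUnion.1 ((vars_sum_subset _ _) h)
  obtain ⟨i, _, h2⟩ := Finset.mem_biUnion.1 ((vars_prod _) h1)
  simp only [hm, Matrix.of_apply, vars_X, Finset.mem_singleton] at h2
  omega

lemma main_irr (n : ℕ) : ∀ s : ℕ, Irreducible (hm k (n + 1) s).permanent := by
  classical
  induction n with
  | zero =>
    intro s
    have h1 : (hm k (0 + 1) s).permanent = X s := by
      rw [perm_succ]
      simp [hm, Matrix.permanent]
    rw [h1]
    exact (X_prime (R := k) (i := s)).irreducible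
  | succ n ih =>
    intro s
    have h1 := perm_succ (hm k (n + 1 + 1) s)
    rw [sub_hm] at h1
    set m := (hm k (n + 1) (s + 2)).permanent with hm'
    set c := ∑ p : Fin (n + 1), ∑ τ : Equiv.Perm (Fin (n + 1)), ∏ i : Fin (n + 1 + 1),
        (hm k (n + 1 + 1) s) (Equiv.Perm.decomposeFin.symm (p.succ, τ) i) i with hc
    have h0 : (hm k (n + 1 + 1) s) 0 0 = X s := by
      simp [hm]
    rw [h0, mul_comm] at h1
    rw [h1]
    have hmi : Irreducible m := ih (s + 2)
    refine irreducible_mul_X_add m c s hmi.ne_zero (vars_hm _ _ _ (by omega)) ?_ ?_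
    · intro h
      rw [hc] at h
      obtain ⟨p, _, h2⟩ := Finset.mem_biUnion.1 ((vars_sum_subset _ _) h)
      obtain ⟨τ, _, h3⟩ := Finset.mem_biUnion.1 ((vars_sum_subset _ _) h2)
      obtain ⟨i, _, h4⟩ := Finset.mem_biUnion.1 ((vars_prod _) h3)
      simp only [hm, Matrix.of_apply, vars_X, Finset.mem_singleton] at h4
      have h5 : (Equiv.Perm.decomposeFin.symm (p.succ, τ) i).val = 0 ∧ i.val = 0 := by omega
      have h6 : i = 0 := Fin.ext h5.2
      rw [h6, Equiv.Perm.decomposeFin_symm_apply_zero] at h5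
      simp at h5
    · rw [hmi.isRelPrime_iff_not_dvd]
      intro hd
      have h2 := ev_perm (k := k) (n + 1) s
      rw [h1, map_add, map_mul, hm', ev_small, zero_mul, zero_add] at h2
      have h3 := map_dvd (ev k (n + 1 + s)) hd
      rw [hm', ev_small, h2] at h3
      simp at h3

theorem t (k : Type*) [Field k] : StmIH k := by
  intro n hn
  obtain ⟨m, rfl⟩ : ∃ m, n = m + 1 := ⟨n - 1, by omega⟩
  have hinj : Function.Injective (Fin.val : Fin (m + 1 + (m + 1) - 1) → ℕ) := Fin.val_injective
  let φ : MvPolynomial (Fin (m + 1 + (m + 1) - 1)) k →ₐ[k] MvPolynomial ℕ k := rename Fin.val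
  have hloc : IsLocalHom φ := by
    constructor
    intro a ha
    have h1 := ha.map (killCompl hinj)
    have h2 : killCompl hinj (φ a) = a := killCompl_rename_app hinj a
    rwa [h2] at h1
  refine Irreducible.of_map (f := φ) ?_
  have h1 : φ (Matrix.permanent (Matrix.of fun i j : Fin (m + 1) =>
      (MvPolynomial.X (⟨i.val + j.val, by omega⟩ : Fin (m + 1 + (m + 1) - 1)) :
      MvPolynomial (Fin (m + 1 + (m + 1) - 1)) k))) = (hm k (m + 1) 0).permanent := by
    unfold Matrix.permanent
    rw [map_sum]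
    refine Finset.sum_congr rfl fun σ _ => ?_
    rw [map_prod]
    refine Finset.prod_congr rfl fun i _ => ?_
    simp only [hm, Matrix.of_apply, add_zero]
    exact rename_X _ _
  rw [h1]
  exact main_irr m 0

end Pool.Agent.N729.HQ.IH
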