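import Pool.Agent.N729.HQ.Stm

/-!
# Project HQ (MP_9bc296_ag): the symmetric permanent is irreducible (IS)
-/

set_option autoImplicit false

namespace Pool.Agent.N729.HQ.IS

open MvPolynomial Finset

variable {k : Type*} [Field k]

theorem irreducible_rename {σ τ : Type*} {f : σ → τ} (hf : Function.Injective f)
    {p : MvPolynomial σ k} (hp : Irreducible p) : Irreducible (rename f p) := by
  have h1 : Prime p := UniqueFactorizationMonoid.irreducible_iff_prime.1 hp
  have h2 : Prime (rename (Equiv.ofInjective f hf) p) :=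
    (MulEquiv.prime_iff (renameEquiv k (Equiv.ofInjective f hf))).2 h1
  have h3 : Prime (rename ((↑) : Set.range f → τ) (rename (Equiv.ofInjective f hf) p)) :=
    (prime_rename_iff (Set.range f)).2 h2
  rw [rename_rename] at h3
  exact h3.irreducible

/-- the symmetric matrix -/
noncomputable def A (k : Type*) [Field k] (n : ℕ) :
    Matrix (Fin n) (Fin n) (MvPolynomial (Sym2 (Fin n)) k) :=
  Matrix.of fun i j : Fin n => (MvPolynomial.X s(i, j) : MvPolynomial (Sym2 (Fin n)) k)

/-- the terms in which the variable `s(0,0)` does not occur -/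
noncomputable def cc (k : Type*) [Field k] (n : ℕ) : MvPolynomial (Sym2 (Fin (n + 1))) k :=
  ∑ p : Fin n, ∑ e : Equiv.Perm (Fin n), ∏ i : Fin (n + 1),
    (MvPolynomial.X s(Equiv.Perm.decomposeFin.symm (p.succ, e) i, i) :
      MvPolynomial (Sym2 (Fin (n + 1))) k)

theorem perm_eq (n : ℕ) : (A k (n + 1)).permanent =
    rename (Sym2.map Fin.succ) (A k n).permanent * MvPolynomial.X s(0, 0) + cc k n := by
  unfold Matrix.permanent A cc
  rw [← Equiv.sum_comp (Equiv.Perm.decomposeFin (n := n)).symm, Fintype.sum_prod_type,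
    Fin.sum_univ_succ]
  congr 1
  rw [map_sum, Finset.sum_mul]
  refine Finset.sum_congr rfl fun e _ => ?_
  rw [Fin.prod_univ_succ, map_prod, mul_comm]
  congr 1
  refine Finset.prod_congr rfl fun x _ => ?_
  rw [Equiv.Perm.decomposeFin_symm_apply_succ]
  simp

theorem not_mem_vars_m (n : ℕ) (p : MvPolynomial (Sym2 (Fin n)) k) :
    s((0 : Fin (n + 1)), 0) ∉ (rename (Sym2.map Fin.succ) p).vars := by
  classical
  intro h
  obtain ⟨z, -, hz⟩ := mem_vars_rename _ _ h
  revert hz
  induction z with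
  | _ a b =>
    intro hz
    rw [Sym2.map_mk, Sym2.eq_iff] at hz
    rcases hz with ⟨h1, -⟩ | ⟨h1, -⟩ <;> exact Fin.succ_ne_zero _ h1

theorem not_mem_vars_c (n : ℕ) : s((0 : Fin (n + 1)), 0) ∉ (cc k n).vars := by
  classical
  intro h
  unfold cc at h
  have h1 := vars_sum_subset _ _ h
  simp only [Finset.mem_biUnion, Finset.mem_univ, true_and] at h1
  obtain ⟨p, hp⟩ := h1
  have h2 := vars_sum_subset _ _ hp
  simp only [Finset.mem_biUnion, Finset.mem_univ, true_and] at h2
  obtain ⟨e, he⟩ := h2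
  have h3 := vars_prod _ he
  simp only [Finset.mem_biUnion, Finset.mem_univ, true_and] at h3
  obtain ⟨i, hi⟩ := h3
  rw [vars_X, Finset.mem_singleton, Sym2.eq_iff] at hi
  have h4 : i = 0 ∧ Equiv.Perm.decomposeFin.symm (p.succ, e) i = 0 := by
    rcases hi with ⟨h5, h6⟩ | ⟨h5, h6⟩
    · exact ⟨h6.symm, h5.symm⟩
    · exact ⟨h5.symm, h6.symm⟩
  obtain ⟨rfl, h5⟩ := h4
  rw [Equiv.Perm.decomposeFin_symm_apply_zero] at h5
  exact Fin.succ_ne_zero _ h5

/-- the point -/
def pt (k : Type*) [Field k] (M : ℕ) (z : Sym2 (Fin (M + 2))) : k :=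
  open Classical in if ∃ i, z = s(i, Equiv.swap 0 1 i) then 1 else 0

theorem pt_eq (M : ℕ) (i j : Fin (M + 2)) :
    pt k M s(i, j) = if Equiv.swap 0 1 i = j then 1 else 0 := by
  unfold pt
  congr 1
  rw [eq_iff_iff]
  constructor
  · rintro ⟨a, ha⟩
    rw [Sym2.eq_iff] at ha
    rcases ha with ⟨rfl, rfl⟩ | ⟨rfl, rfl⟩
    · rfl
    · exact Equiv.swap_apply_self 0 1 _
  · rintro rfl
    exact ⟨i, rfl⟩

theorem eval_perm (M : ℕ) : MvPolynomial.eval (pt k M) (A k (M + 2)).permanent = 1 := by
  have h1 : MvPolynomial.eval (pt k M) (A k (M + 2)).permanent =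
      ((1 : Matrix (Fin (M + 2)) (Fin (M + 2)) k).submatrix (Equiv.swap 0 1) id).permanent := by
    unfold Matrix.permanent A
    rw [map_sum]
    refine Finset.sum_congr rfl fun σ _ => ?_
    rw [map_prod]
    refine Finset.prod_congr rfl fun i _ => ?_
    simp only [Matrix.of_apply, eval_X, Matrix.submatrix_apply, id, pt_eq, Matrix.one_apply]
  rw [h1, Matrix.permanent_permute_cols]
  exact Matrix.permanent_one

theorem eval_m (M : ℕ) :
    MvPolynomial.eval (pt k M) (rename (Sym2.map Fin.succ) (A k (M + 1)).permanent) = 0 := by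
  unfold Matrix.permanent A
  rw [map_sum, map_sum]
  refine Finset.sum_eq_zero fun σ _ => ?_
  rw [map_prod, map_prod]
  refine Finset.prod_eq_zero (Finset.mem_univ 0) ?_
  simp only [Matrix.of_apply, rename_X, eval_X, Sym2.map_mk, pt_eq]
  rw [if_neg]
  intro h
  have h2 : (σ 0).succ = Equiv.swap 0 1 (Fin.succ 0) := by
    rw [← h, Equiv.swap_apply_self]
  rw [Fin.succ_zero_eq_one, Equiv.swap_apply_right] at h2
  exact Fin.succ_ne_zero _ h2

theorem main (n : ℕ) : Irreducible (A k (n + 1)).permanent := by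
  induction n with
  | zero =>
    have : (A k (0 + 1)).permanent = MvPolynomial.X s(0, 0) := by
      have := Matrix.permanent_unique (A k 1)
      rw [this]
      rfl
    rw [this]
    have h := irreducible_mul_X_add (n := Sym2 (Fin 1)) (R := k) 1 0 s(0, 0) one_ne_zero
      (by simp) (by simp) isRelPrime_one_left
    rwa [one_mul, add_zero] at h
  | succ M ih =>
    have hm : Irreducible (rename (Sym2.map (Fin.succ (n := M + 1))) (A k (M + 1)).permanent) :=
      irreducible_rename (Sym2.map.injective (Fin.succ_injective _)) ih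
    rw [perm_eq]
    refine irreducible_mul_X_add _ _ _ hm.ne_zero (not_mem_vars_m _ _) (not_mem_vars_c _) ?_
    rw [hm.isRelPrime_iff_not_dvd]
    rintro ⟨h, hh⟩
    have h1 := eval_perm (k := k) M
    rw [perm_eq, map_add, map_mul, eval_m, zero_mul, zero_add, hh, map_mul, eval_m,
      zero_mul] at h1
    exact zero_ne_one h1

/-- IS -/
theorem t (k : Type*) [Field k] : StmIS k := by
  intro n hn
  obtain ⟨m, rfl⟩ : ∃ m, n = m + 1 := ⟨n - 1, by omega⟩
  exact main m

end Pool.Agent.N729.HQ.IS
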