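import Pool.Agent.N729.HQ.Stm

/-!
Project HQ: part J1 (helper454), the Jacobian criterion for `m = t`, and the tools `sub_perm`,
`pm_sub`, `pd_sub`, `sub_range`.
-/

set_option autoImplicit false

namespace Pool.Agent.N729.HQ.J1

open Finset
open Pool.Agent.N186.HK (pm vm IsHankel)
open Pool.Agent.R831.PermIdeal (permIdeal)
open Pool.Agent.N729.HP

/-- the short indices of a `t × t` submatrix of a matrix with `t` rows are all of them -/
lemma sub_perm {n t : ℕ} {J : Finset ℕ} {L : List ℕ} (h : Sub n t t J L) :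
    L.Perm (List.range t) := by
  obtain ⟨_, hl, hn, _, hc⟩ := h
  have hsub : L ⊆ List.range t := fun c h => List.mem_range.mpr (hc c h)
  have h1 : L.Subperm (List.range t) := List.subperm_of_subset hn hsub
  exact h1.perm_of_length_le (by rw [List.length_range, hl])

lemma sub_range {n t : ℕ} {J : Finset ℕ} (hJ : J.card = t) (hn : ∀ j ∈ J, j < n) :
    Sub n t t J (List.range t) :=
  ⟨hJ, List.length_range, List.nodup_range, hn, fun _ h => List.mem_range.mp h⟩

lemma pm_sub {D : Type*} [CommRing D] {n t : ℕ} {J : Finset ℕ} {L : List ℕ} (h : Sub n t t J L)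
    (q : ℕ → D) : pm q J L = pm q J (List.range t) :=
  (BA.ta D).1 q L (List.range t) (sub_perm h) J

lemma pd_sub {D : Type*} [CommRing D] {n t : ℕ} {J : Finset ℕ} {L : List ℕ} (h : Sub n t t J L)
    (q y : ℕ → D) : pd q y J L = pd q y J (List.range t) :=
  (BA.ta D).2.1 q y L (List.range t) (sub_perm h) J

/-- a zero of the maximal permanents, in terms of `Sub` -/
lemma vt_iff {D : Type*} [CommRing D] {n t : ℕ} {q : ℕ → D} :
    Vt n t q ↔ ∀ J L, Sub n t t J L → pm q J L = 0 :=
  ⟨fun hq J L h => by rw [pm_sub h]; exact hq J h.1 h.2.2.2.1,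
    fun hq J hJ hn => hq J _ (sub_range hJ hn)⟩

/-- a tangent vector, in terms of `Sub` -/
lemma tt_iff {D : Type*} [CommRing D] {n t : ℕ} {q y : ℕ → D} :
    Tt n t q y ↔ ∀ J L, Sub n t t J L → pd q y J L = 0 :=
  ⟨fun hq J L h => by rw [pd_sub h]; exact hq J h.1 h.2.2.2.1,
    fun hq J hJ hn => hq J _ (sub_range hJ hn)⟩

/-- J1: the Jacobian criterion for `m = t` -/
theorem t (k : Type*) [Field k] : StmJ1 k := by
  intro n t ht htn q hq S hS hy N h
  refine jc k N n t t h ht htn le_rfl q (vt_iff.mp hq) S hS ?_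
  intro y hyS hyT v hv
  exact hy y hyS (tt_iff.mpr hyT) v (by omega)

end Pool.Agent.N729.HQ.J1
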