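import Pool.Agent.N729.HQ.Stm

/-!
Project HQ (MP_9bc296_ag), part LB1: the linear algebra of the family B1 (helper521).
-/

set_option autoImplicit false

namespace Pool.Agent.N729.HQ.LB1

open Finset
open Pool.Agent.N729.HQ

theorem shift {k : Type*} [Field k] (f : ℕ → k) (i K : ℕ) :
    ∑ l ∈ range K, f (i + 1 + l) + f i = ∑ l ∈ range K, f (i + l) + f (i + K) := by
  rw [← sum_range_succ (fun l => f (i + l)), sum_range_succ']
  rw [add_zero]
  congr 1
  exact sum_congr rfl fun l _ => by rw [show i + (l + 1) = i + 1 + l by omega]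

theorem split0 {k : Type*} [Field k] (f : ℕ → k) (i K : ℕ) (hK : 1 ≤ K) :
    ∑ l ∈ range K, f (i + l) = f i + ∑ l ∈ Ico 1 K, f (i + l) := by
  rw [range_eq_Ico, sum_eq_sum_Ico_succ_bot (by omega), add_zero]

/-- **LB1.** -/
theorem t (k : Type*) [Field k] : StmLB1 k := by
  classical
  intro h2 g K hg hK
  refine ⟨((Ico 2 g ×ˢ range (K - 1)).image (fun p : ℕ × ℕ => p.1 + g * p.2)) ∪
    ({0} ∪ (Icc 1 (2 * K - 2)).image (fun i => 1 + g * i)), ?_, ?_⟩
  · refine lt_of_le_of_lt (card_union_le _ _) ?_
    refine lt_of_le_of_lt (Nat.add_le_add card_image_le (card_union_le _ _)) ?_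
    refine lt_of_le_of_lt (Nat.add_le_add_left (Nat.add_le_add_left card_image_le _) _) ?_
    rw [card_product, Nat.card_Ico, card_range, card_singleton, Nat.card_Icc]
    obtain ⟨a, rfl⟩ : ∃ a, g = a + 2 := ⟨g - 2, by omega⟩
    obtain ⟨b, rfl⟩ : ∃ b, K = b + 1 := ⟨K - 1, by omega⟩
    have e1 : a + 2 - 2 = a := by omega
    have e2 : b + 1 - 1 = b := by omega
    have e3 : 2 * (b + 1) - 2 + 1 - 1 = 2 * b := by omega
    rw [e1, e2, e3]
    have e4 : (a + 2) * b = a * b + 2 * b := by ring
    rw [e4]
    omega
  · intro y w hS h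
    have hS1 : ∀ s i, 2 ≤ s → s < g → i + 1 < K → y (s + g * i) = 0 := by
      intro s i h1 h3 h4
      refine hS _ (mem_union_left _ (mem_image.2 ⟨(s, i), ?_, rfl⟩))
      rw [mem_product, mem_Ico, mem_range]
      exact ⟨⟨h1, h3⟩, by omega⟩
    have hS2 : y 0 = 0 := hS _ (mem_union_right _ (mem_union_left _ (mem_singleton_self 0)))
    have hS3 : ∀ i, 1 ≤ i → i + 2 ≤ 2 * K → y (1 + g * i) = 0 := by
      intro i h1 h3
      refine hS _ (mem_union_right _ (mem_union_right _ (mem_image.2 ⟨i, ?_, rfl⟩)))
      rw [mem_Icc]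
      omega
    -- the windows of the classes `s ≥ 2`
    have hW0 : ∀ s, 2 ≤ s → s < g → ∀ i < K, ∑ l ∈ range K, y (s + g * (i + l)) =
        if i = 0 then - w s else 0 := by
      intro s h1 h3 i hi
      rw [← h.r0 i hi s h1 h3]
      exact sum_congr rfl fun l _ => congrArg y (by ring)
    have hW1 : ∀ s, 2 ≤ s → s < g → ∀ i < K, ∑ l ∈ range K, y (s + g * (i + l)) =
        if i = 0 then - w (s - 1) else if i + 1 = K then w (s - 1) else 0 := by
      intro s h1 h3 i hi
      rw [← h.r1 i hi (s - 1) (by omega) (by omega)]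
      obtain ⟨r, rfl⟩ : ∃ r, s = r + 1 := ⟨s - 1, by omega⟩
      exact sum_congr rfl fun l _ => congrArg y (by
        rw [Nat.add_sub_cancel]
        ring)
    have hw1 : ∀ s, 2 ≤ s → s < g → w (s - 1) = 0 := by
      intro s h1 h3
      have a1 := hW0 s h1 h3 (K - 1) (by omega)
      have a2 := hW1 s h1 h3 (K - 1) (by omega)
      rw [if_neg (by omega)] at a1
      rw [if_neg (by omega), if_pos (by omega), a1] at a2
      exact a2.symm
    have hw2 : ∀ s, 2 ≤ s → s < g → w s = 0 := by
      intro s h1 h3
      have a1 := hW0 s h1 h3 0 (by omega)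
      have a2 := hW1 s h1 h3 0 (by omega)
      rw [if_pos rfl] at a1 a2
      rw [hw1 s h1 h3, a1, neg_zero, neg_eq_zero] at a2
      exact a2
    have hww : ∀ s, 1 ≤ s → s < g → w s = 0 := by
      intro s h1 h3
      rcases Nat.lt_or_ge 1 s with h4 | h4
      · exact hw2 s h4 h3
      · have h5 := hw1 2 le_rfl (by omega)
        have h6 : s = 2 - 1 := by omega
        rw [h6]
        exact h5
    have hW : ∀ s, 2 ≤ s → s < g → ∀ i < K, ∑ l ∈ range K, y (s + g * (i + l)) = 0 := by
      intro s h1 h3 i hi
      rw [hW0 s h1 h3 i hi, hw2 s h1 h3, neg_zero, ite_self]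
    -- the classes `s ≥ 2`
    have hA : ∀ s, 2 ≤ s → s < g → ∀ j, j + 1 < 2 * K → y (s + g * j) = 0 := by
      intro s h1 h3 j hj
      rcases Nat.lt_or_ge (j + 1) K with h4 | h4
      · exact hS1 s j h1 h3 h4
      rcases Nat.eq_or_lt_of_le h4 with h5 | h5
      · have a1 := hW s h1 h3 0 (by omega)
        rw [h5, sum_range_succ, Nat.zero_add] at a1
        rw [sum_eq_zero, zero_add] at a1
        · exact a1
        · intro l hl
          rw [mem_range] at hl
          rw [Nat.zero_add]
          exact hS1 s l h1 h3 (by omega)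
      · obtain ⟨i, rfl⟩ : ∃ i, j = i + K := ⟨j - K, by omega⟩
        have a1 := shift (fun r => y (s + g * r)) i K
        have a2 := hW s h1 h3 i (by omega)
        have a3 := hW s h1 h3 (i + 1) (by omega)
        rw [a2, a3, hS1 s i h1 h3 (by omega), zero_add, zero_add] at a1
        exact a1.symm
    -- the class `0`
    have hV : ∀ i < K, ∑ l ∈ range K, y (g * (i + 1 + l)) = 0 := by
      intro i hi
      have a1 := h.r1 i hi (g - 1) (by omega) (by omega)
      rw [hww (g - 1) (by omega) (by omega), neg_zero, ite_self, ite_self] at a1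
      rw [← a1]
      obtain ⟨r, hr⟩ : ∃ r, g = r + 1 := ⟨g - 1, by omega⟩
      exact sum_congr rfl fun l _ => congrArg y (by
        rw [hr, Nat.add_sub_cancel]
        ring)
    have hR : ∀ i < K, 1 ≤ i → ∑ l ∈ Ico 1 K, y (g * (i + l)) = 0 := by
      intro i hi h1
      have a1 := h.r2 i hi
      rw [if_neg (by omega), ← mul_sum] at a1
      rcases mul_eq_zero.1 a1 with a2 | a2
      · exact absurd a2 h2
      · rw [← a2]
        exact sum_congr rfl fun l _ => congrArg y (by ring)
    have hB1 : ∀ i, 1 ≤ i → i < K → y (g * i) = 0 := by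
      intro i h1 hi
      obtain ⟨j, rfl⟩ : ∃ j, i = j + 1 := ⟨i - 1, by omega⟩
      have a1 := hV j (by omega)
      have a2 := split0 (fun r => y (g * r)) (j + 1) K (by omega)
      rw [a1, hR (j + 1) hi (by omega), add_zero] at a2
      exact a2.symm
    have hB2 : y (g * K) = 0 := by
      have a1 := hR 1 (by omega) le_rfl
      obtain ⟨r, hr⟩ : ∃ r, K = r + 1 := ⟨K - 1, by omega⟩
      rw [hr, sum_Ico_succ_top (by omega), sum_eq_zero, zero_add] at a1
      · rw [hr, Nat.add_comm r 1]
        exact a1
      · intro l hl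
        rw [mem_Ico] at hl
        exact hB1 (1 + l) (by omega) (by omega)
    have hB : ∀ j, j < 2 * K → y (g * j) = 0 := by
      intro j hj
      rcases Nat.eq_zero_or_pos j with h0 | h0
      · rw [h0, Nat.mul_zero]
        exact hS2
      rcases Nat.lt_trichotomy j K with h4 | h4 | h4
      · exact hB1 j h0 h4
      · rw [h4]
        exact hB2
      · obtain ⟨i, rfl⟩ : ∃ i, j = i + 1 + K := ⟨j - K - 1, by omega⟩
        have a1 := shift (fun r => y (g * r)) (i + 1) K
        have a2 := hV i (by omega)
        have a3 := hV (i + 1) (by omega)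
        rw [a2, a3, hB1 (i + 1) (by omega) (by omega), zero_add, zero_add] at a1
        exact a1.symm
    have hw0 : w 0 = 0 := by
      have a1 := h.r2 0 (by omega)
      rw [if_pos rfl, sum_eq_zero] at a1
      · exact neg_eq_zero.1 a1.symm
      · intro l hl
        rw [mem_Ico] at hl
        rw [Nat.mul_zero, Nat.zero_add, hB l (by omega), mul_zero]
    -- the class `1`
    have hC1 : y (1 + g * 0) = 0 := by
      have a1 := h.d1
      rw [hww 1 le_rfl (by omega)] at a1
      have a2 : ∑ i ∈ range K, ∑ l ∈ range K,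
          (if i + l < K then (1 : k) else -1) * y (1 + g * (i + l)) = y (1 + g * 0) := by
        rw [sum_eq_single 0, sum_eq_single 0]
        · rw [if_pos (by omega), one_mul]
        · intro l hl hl0
          rw [mem_range] at hl
          rw [Nat.zero_add, hS3 l (by omega) (by omega), mul_zero]
        · intro hl
          exact absurd (mem_range.2 (by omega)) hl
        · intro i hi hi0
          refine sum_eq_zero fun l hl => ?_
          rw [mem_range] at hi hl
          rw [hS3 (i + l) (by omega) (by omega), mul_zero]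
        · intro hl
          exact absurd (mem_range.2 (by omega)) hl
      rw [a2] at a1
      exact neg_eq_zero.1 a1.symm
    have hC2 : y (1 + g * (2 * K - 1)) = 0 := by
      have a1 := h.d0
      rw [hw0] at a1
      have a2 : ∑ i ∈ range K, ∑ l ∈ range K,
          (if i + l + 1 < K then (-1 : k) else 1) * y (1 + g * (i + l + 1)) =
            y (1 + g * (2 * K - 1)) := by
        rw [sum_eq_single (K - 1), sum_eq_single (K - 1)]
        · rw [if_neg (by omega), one_mul]
          congr 3
          omega
        · intro l hl hl0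
          rw [mem_range] at hl
          rw [hS3 (K - 1 + l + 1) (by omega) (by omega), mul_zero]
        · intro hl
          exact absurd (mem_range.2 (by omega)) hl
        · intro i hi hi0
          refine sum_eq_zero fun l hl => ?_
          rw [mem_range] at hi hl
          rw [hS3 (i + l + 1) (by omega) (by omega), mul_zero]
        · intro hl
          exact absurd (mem_range.2 (by omega)) hl
      rw [a2] at a1
      exact a1.symm
    have hC : ∀ j, j < 2 * K → y (1 + g * j) = 0 := by
      intro j hj
      rcases Nat.eq_zero_or_pos j with h0 | h0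
      · rw [h0]
        exact hC1
      rcases Nat.lt_or_ge (j + 1) (2 * K) with h4 | h4
      · exact hS3 j h0 (by omega)
      · have : j = 2 * K - 1 := by omega
        rw [this]
        exact hC2
    -- the end
    intro v hv
    have hv1 := Nat.div_add_mod v g
    have hv2 := Nat.mod_lt v (show 0 < g by omega)
    set q := v / g
    set s := v % g
    have hq : q < 2 * K := by
      by_contra hcon
      push Not at hcon
      have h5 : g * (2 * K) ≤ g * q := Nat.mul_le_mul_left g hcon
      have h6 : g * (2 * K) = g * (2 * K - 1) + g := by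
        obtain ⟨b, rfl⟩ : ∃ b, K = b + 1 := ⟨K - 1, by omega⟩
        have e : 2 * (b + 1) - 1 = 2 * b + 1 := by omega
        rw [e]
        ring
      omega
    rcases Nat.lt_or_ge 1 s with h4 | h4
    · have hq2 : q + 1 < 2 * K := by
        by_contra hcon
        have h5 : q = 2 * K - 1 := by omega
        rw [h5] at hv1
        omega
      have := hA s h4 hv2 q hq2
      rw [← hv1, Nat.add_comm]
      exact this
    · rcases Nat.eq_zero_or_pos s with h5 | h5
      · rw [← hv1, h5, Nat.add_zero]
        exact hB q hq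
      · have h6 : s = 1 := by omega
        rw [← hv1, h6, Nat.add_comm]
        exact hC q hq

end Pool.Agent.N729.HQ.LB1
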