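import Pool.Agent.N729.HQ.Stm

/-!
Project HQ, part LB2: the linear algebra of the family B2 (`2 ≤ C < g`).
-/

set_option autoImplicit false

namespace Pool.Agent.N729.HQ.LB2

open Finset

variable {k : Type*} [Field k]

/-- window sum -/
def V (K : ℕ) (f : ℕ → k) (i : ℕ) : k := ∑ l ∈ range K, f (i + 1 + l)

/-- the class sequence -/
def F (g : ℕ) (y : ℕ → k) (s i : ℕ) : k := y (s + g * i)

theorem V_succ (K : ℕ) (f : ℕ → k) (i : ℕ) :
    f (i + 1) + V K f (i + 1) = V K f i + f (i + 1 + K) := by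
  unfold V
  have h1 : ∑ l ∈ range (K + 1), f (i + 1 + l) = ∑ l ∈ range K, f (i + 1 + l) + f (i + 1 + K) :=
    sum_range_succ _ _
  have h2 : ∑ l ∈ range (K + 1), f (i + 1 + l) =
      ∑ l ∈ range K, f (i + 1 + (l + 1)) + f (i + 1 + 0) := sum_range_succ' _ _
  rw [← h1, h2, add_comm]
  congr 1
  refine sum_congr rfl fun l _ => ?_
  congr 1
  omega

theorem V_zero_last (K : ℕ) (f : ℕ → k) (hf : ∀ i, 1 ≤ i → i ≤ K → f i = 0) :
    V (K + 1) f 0 = f (K + 1) := by
  unfold V
  rw [sum_range_succ, sum_eq_zero, zero_add]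
  · congr 1
    omega
  · intro l hl
    rw [mem_range] at hl
    exact hf _ (by omega) (by omega)

theorem V_zero_first (K : ℕ) (f : ℕ → k) (hf : ∀ i, 2 ≤ i → i ≤ K + 1 → f i = 0) :
    V (K + 1) f 0 = f 1 := by
  unfold V
  rw [sum_range_succ', sum_eq_zero, zero_add]
  intro l hl
  rw [mem_range] at hl
  exact hf _ (by omega) (by omega)

theorem w_low (C g K : ℕ) (y : ℕ → k) (h σ s i : ℕ) (hs : h + σ = s) :
    wB2 C g (K + 1) y h σ i = if C ≤ σ then F g y s i + V K (F g y s) i
      else 2 * V K (F g y s) i := by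
  unfold wB2 V F
  split_ifs with hc
  · rw [sum_range_succ', add_comm]
    congr 1
    · congr 1
      subst hs
      ring
    · refine sum_congr rfl fun l _ => ?_
      congr 1
      subst hs
      ring
  · rw [sum_Ico_eq_sum_range, mul_sum, Nat.add_sub_cancel]
    refine sum_congr rfl fun l _ => ?_
    congr 2
    subst hs
    ring

theorem w_high (C g K : ℕ) (y : ℕ → k) (h σ s i : ℕ) (hs : h + σ = s + g) :
    wB2 C g (K + 1) y h σ i = if C ≤ σ then F g y s (i + 1) + V K (F g y s) (i + 1)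
      else 2 * V K (F g y s) (i + 1) := by
  unfold wB2 V F
  split_ifs with hc
  · rw [sum_range_succ', add_comm]
    congr 1
    · congr 1
      linear_combination hs
    · refine sum_congr rfl fun l _ => ?_
      congr 1
      linear_combination hs
  · rw [sum_Ico_eq_sum_range, mul_sum, Nat.add_sub_cancel]
    refine sum_congr rfl fun l _ => ?_
    congr 2
    linear_combination hs

/-- two descriptions of the same sequence -/
theorem ab {K : ℕ} (hK : 1 ≤ K) (X : ℕ → k) (a b : k)
    (h1 : ∀ i < K + 1, X i = if i = 0 then -a else 0)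
    (h2 : ∀ i < K + 1, X i = if i = 0 then b else if i + 1 = K + 1 then -b else 0) :
    a = 0 ∧ b = 0 ∧ ∀ i < K + 1, X i = 0 := by
  have hb : b = 0 := by
    have e1 := h1 K (by omega)
    have e2 := h2 K (by omega)
    rw [if_neg (by omega)] at e1 e2
    rw [if_pos rfl] at e2
    linear_combination e2 - e1
  have ha : a = 0 := by
    have e1 := h1 0 (by omega)
    have e2 := h2 0 (by omega)
    rw [if_pos rfl] at e1 e2
    linear_combination e1 - e2 - hb
  refine ⟨ha, hb, fun i hi => ?_⟩
  rw [h1 i hi, ha]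
  simp

/-- classes `0` and `1` -/
theorem cl01 {K : ℕ} (f : ℕ → k) (a b : k)
    (h1 : ∀ i < K + 2, 2 * V (K + 1) f i = if i = 0 then -a else 0) (h2 : (2 : k) ≠ 0)
    (h3 : ∀ i < K + 2, f (i + 1) + V (K + 1) f (i + 1) =
      if i = 0 then b else if i + 1 = K + 2 then -b else 0) :
    f 1 = b ∧ 2 * b = -a ∧ (∀ i, 2 ≤ i → i ≤ 2 * K + 2 → f i = 0) ∧ f (2 * K + 3) = -b ∧
      V (K + 1) f (K + 2) = -b ∧ V (K + 1) f 1 = 0 := by
  have hV : ∀ i, 1 ≤ i → i < K + 2 → V (K + 1) f i = 0 := by
    intro i hi1 hi2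
    have := h1 i hi2
    rw [if_neg (by omega)] at this
    exact (mul_eq_zero.1 this).resolve_left h2
  have hf1 : f 1 = b := by
    have := h3 0 (by omega)
    rw [if_pos rfl, hV _ (by omega) (by omega), add_zero] at this
    exact this
  have hf2 : ∀ i, 2 ≤ i → i ≤ K + 1 → f i = 0 := by
    intro i hi1 hi2
    obtain ⟨j, rfl⟩ : ∃ j, i = j + 1 := ⟨i - 1, by omega⟩
    have := h3 j (by omega)
    rwa [if_neg (by omega), if_neg (by omega), hV _ (by omega) (by omega), add_zero] at this
  have hV0 : V (K + 1) f 0 = b := by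
    rw [V_zero_first K f hf2, hf1]
  have hab : 2 * b = -a := by
    have := h1 0 (by omega)
    rwa [if_pos rfl, hV0] at this
  have hf3 : ∀ i, K + 2 ≤ i → i ≤ 2 * K + 2 → f i = 0 := by
    intro i hi1 hi2
    obtain ⟨j, rfl⟩ : ∃ j, i = j + 1 + (K + 1) := ⟨i - (K + 2), by omega⟩
    have e := V_succ (K + 1) f j
    rw [h3 j (by omega)] at e
    by_cases hj : j = 0
    · subst hj
      rw [if_pos rfl, hV0] at e
      linear_combination -e
    · rw [if_neg hj, if_neg (by omega), hV j (by omega) (by omega)] at e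
      linear_combination -e
  have hf4 : f (2 * K + 3) = -b := by
    have e := V_succ (K + 1) f (K + 1)
    rw [h3 (K + 1) (by omega), if_neg (by omega), if_pos rfl, hV (K + 1) (by omega) (by omega),
      zero_add] at e
    rw [e]
    congr 1
    omega
  refine ⟨hf1, hab, ?_, hf4, ?_, hV 1 (by omega) (by omega)⟩
  · intro i hi1 hi2
    by_cases hi : i ≤ K + 1
    · exact hf2 i hi1 hi
    · exact hf3 i (by omega) hi2
  · have := h3 (K + 1) (by omega)
    rw [if_neg (by omega), if_pos rfl, hf3 _ (by omega) (by omega), zero_add] at this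
    exact this

/-- classes `2 ≤ s < C`, `2 C - g ≤ s` -/
theorem clB1 {K : ℕ} (f : ℕ → k) (a b : k) (hV : ∀ i < K + 2, V (K + 1) f i = 0)
    (h3 : ∀ i < K + 2, f (i + 1) + V (K + 1) f (i + 1) =
      if i = 0 then -a else if i + 1 = K + 2 then a - b else 0) :
    a = 0 ∧ (∀ i, 1 ≤ i → i ≤ 2 * K + 2 → f i = 0) ∧ f (2 * K + 3) = -b := by
  have hf1 : f 1 = -a := by
    have := h3 0 (by omega)
    rw [if_pos rfl, hV _ (by omega), add_zero] at this
    exact this
  have hf2 : ∀ i, 2 ≤ i → i ≤ K + 1 → f i = 0 := by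
    intro i hi1 hi2
    obtain ⟨j, rfl⟩ : ∃ j, i = j + 1 := ⟨i - 1, by omega⟩
    have := h3 j (by omega)
    rwa [if_neg (by omega), if_neg (by omega), hV _ (by omega), add_zero] at this
  have ha : a = 0 := by
    have := V_zero_first K f hf2
    rw [hV 0 (by omega), hf1] at this
    linear_combination this
  have hf3 : ∀ i, K + 2 ≤ i → i ≤ 2 * K + 2 → f i = 0 := by
    intro i hi1 hi2
    obtain ⟨j, rfl⟩ : ∃ j, i = j + 1 + (K + 1) := ⟨i - (K + 2), by omega⟩
    have e := V_succ (K + 1) f j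
    rw [h3 j (by omega), hV j (by omega), ha] at e
    by_cases hj : j = 0
    · subst hj
      rw [if_pos rfl] at e
      linear_combination -e
    · rw [if_neg hj, if_neg (by omega)] at e
      linear_combination -e
  have hf4 : f (2 * K + 3) = -b := by
    have e := V_succ (K + 1) f (K + 1)
    rw [h3 (K + 1) (by omega), if_neg (by omega), if_pos rfl, hV (K + 1) (by omega), ha,
      zero_add, zero_sub] at e
    rw [e]
    congr 1
    omega
  refine ⟨ha, ?_, hf4⟩
  intro i hi1 hi2
  by_cases hi : i = 1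
  · rw [hi, hf1, ha, neg_zero]
  by_cases hi : i ≤ K + 1
  · exact hf2 i (by omega) hi
  · exact hf3 i (by omega) hi2

/-- classes `2 ≤ s < 2 C - g` -/
theorem clB2 {K : ℕ} (f : ℕ → k) (a b : k)
    (hV : ∀ i < K + 2, V (K + 1) f i = 0)
    (h3 : ∀ i < K + 2, 2 * V (K + 1) f (i + 1) =
      if i = 0 then -a else if i + 1 = K + 2 then a - b else 0)
    (hf : ∀ i, 1 ≤ i → i ≤ K → f i = 0) :
    a = 0 ∧ (∀ i, 1 ≤ i → i ≤ 2 * K + 2 → f i = 0) ∧ 2 * f (2 * K + 3) = -b := by
  have ha : a = 0 := by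
    have := h3 0 (by omega)
    rw [if_pos rfl, hV _ (by omega)] at this
    linear_combination this
  have hfK : f (K + 1) = 0 := by
    rw [← V_zero_last K f hf, hV 0 (by omega)]
  have hf2 : ∀ i, 1 ≤ i → i ≤ K + 1 → f i = 0 := by
    intro i hi1 hi2
    by_cases hi : i = K + 1
    · rw [hi, hfK]
    · exact hf i hi1 (by omega)
  have hf3 : ∀ i, K + 2 ≤ i → i ≤ 2 * K + 2 → f i = 0 := by
    intro i hi1 hi2
    obtain ⟨j, rfl⟩ : ∃ j, i = j + 1 + (K + 1) := ⟨i - (K + 2), by omega⟩
    have e := V_succ (K + 1) f j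
    rw [hf2 (j + 1) (by omega) (by omega), hV j (by omega), hV (j + 1) (by omega)] at e
    linear_combination -e
  have hf4 : 2 * f (2 * K + 3) = -b := by
    have e := V_succ (K + 1) f (K + 1)
    have e3 := h3 (K + 1) (by omega)
    rw [if_neg (by omega), if_pos rfl, ha, zero_sub] at e3
    rw [hf3 (K + 1 + 1) (by omega) (by omega), hV (K + 1) (by omega), zero_add, zero_add] at e
    rw [← e3, e]
    congr 2
    omega
  refine ⟨ha, ?_, hf4⟩
  intro i hi1 hi2
  by_cases hi : i ≤ K + 1
  · exact hf2 i (by omega) hi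
  · exact hf3 i (by omega) hi2

/-- classes `C < s < g` -/
theorem clA {K : ℕ} (f : ℕ → k) (hW : ∀ i < K + 2, f i + V (K + 1) f i = 0)
    (hf : ∀ i ≤ K, f i = 0) : ∀ i ≤ 2 * K + 2, f i = 0 := by
  have hV : ∀ i < K + 1, V (K + 1) f i = 0 := by
    intro i hi
    have := hW i (by omega)
    rwa [hf i (by omega), zero_add] at this
  have hfK : f (K + 1) = 0 := by
    rw [← V_zero_last K f (fun i _ hi => hf i hi), hV 0 (by omega)]
  intro i hi
  by_cases hi1 : i ≤ K
  · exact hf i hi1
  by_cases hi2 : i = K + 1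
  · rw [hi2, hfK]
  obtain ⟨j, rfl⟩ : ∃ j, i = j + 1 + (K + 1) := ⟨i - (K + 2), by omega⟩
  have e := V_succ (K + 1) f j
  rw [hW (j + 1) (by omega), hV j (by omega), zero_add] at e
  exact e.symm

/-- classes `C < s < g`, `s < 2 C` -/
theorem clA2 {K : ℕ} (f : ℕ → k) (a b : k) (h2 : (2 : k) ≠ 0)
    (hW : ∀ i < K + 2, f i + V (K + 1) f i = 0)
    (h3 : ∀ i < K + 2, 2 * V (K + 1) f i =
      if i = 0 then -a else if i + 1 = K + 2 then a - b else 0) :
    b = 0 ∧ (a = 0 → ∀ i ≤ 2 * K + 2, f i = 0) := by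
  have hV : ∀ i, 1 ≤ i → i ≤ K → V (K + 1) f i = 0 := by
    intro i hi1 hi2
    have := h3 i (by omega)
    rw [if_neg (by omega), if_neg (by omega)] at this
    exact (mul_eq_zero.1 this).resolve_left h2
  have hf : ∀ i, 1 ≤ i → i ≤ K → f i = 0 := by
    intro i hi1 hi2
    have := hW i (by omega)
    rwa [hV i hi1 hi2, add_zero] at this
  have e0 := h3 0 (by omega)
  rw [if_pos rfl, V_zero_last K f hf] at e0
  have e1 := h3 (K + 1) (by omega)
  rw [if_neg (by omega), if_pos rfl] at e1
  have e2 := hW (K + 1) (by omega)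
  have hb : b = 0 := by linear_combination e0 + e1 - 2 * e2
  refine ⟨hb, fun ha => clA f hW fun i hi => ?_⟩
  by_cases hi0 : i = 0
  · subst hi0
    have e3 := hW 0 (by omega)
    rw [V_zero_last K f hf] at e3
    have : 2 * f 0 = 0 := by linear_combination 2 * e3 - e0 + ha
    exact (mul_eq_zero.1 this).resolve_left h2
  · exact hf i (by omega) hi

/-- double sums with one nonzero term -/
theorem dsum {K : ℕ} (c : ℕ → ℕ → k) (f : ℕ → k) (hf : ∀ j < 2 * K + 2, f j = 0) :
    ∑ i ∈ range (K + 2), ∑ l ∈ range (K + 2), c i l * f (i + l) =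
      c (K + 1) (K + 1) * f (2 * K + 2) := by
  rw [sum_eq_single (K + 1), sum_eq_single (K + 1)]
  · congr 2
    omega
  · intro l hl hl2
    rw [mem_range] at hl
    rw [hf _ (by omega), mul_zero]
  · intro h
    exact absurd (mem_range.2 (by omega)) h
  · intro i hi hi2
    rw [mem_range] at hi
    refine sum_eq_zero fun l hl => ?_
    rw [mem_range] at hl
    rw [hf _ (by omega), mul_zero]
  · intro h
    exact absurd (mem_range.2 (by omega)) h

/-- the coordinates -/
def SS (C g K : ℕ) : Finset ℕ :=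
  Ico (g * (2 * K + 3) + C + 1) (g * (2 * K + 3) + 2 * C) ∪ range C ∪
    (range (2 * K + 2)).image (fun i => C + g * i) ∪
    ((Ico 2 (2 * C - g)) ×ˢ (Ico 1 (K + 1))).image (fun p => p.1 + g * p.2) ∪
    ((Ico (2 * C) g) ×ˢ range (K + 1)).image (fun p => p.1 + g * p.2) ∪
    (if g + 1 = 2 * C ∧ 3 ≤ C then {g} else ∅)

theorem card_SS {C g K : ℕ} (hC : 2 ≤ C) (hg : C < g) : (SS C g K).card < g * (K + 1) + C + 1 := by
  have h1 : (SS C g K).card ≤ (C - 1) + C + (2 * K + 2) + (2 * C - g - 2) * K +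
      (g - 2 * C) * (K + 1) + (if g + 1 = 2 * C ∧ 3 ≤ C then 1 else 0) := by
    unfold SS
    refine (card_union_le _ _).trans (add_le_add ((card_union_le _ _).trans (add_le_add
      ((card_union_le _ _).trans (add_le_add ((card_union_le _ _).trans (add_le_add
      ((card_union_le _ _).trans (add_le_add ?_ ?_)) ?_)) ?_)) ?_)) ?_)
    · rw [Nat.card_Ico]
      omega
    · rw [card_range]
    · exact card_image_le.trans (by rw [card_range])
    · refine card_image_le.trans ?_
      rw [card_product, Nat.card_Ico, Nat.card_Ico, Nat.add_sub_cancel]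
    · refine card_image_le.trans ?_
      rw [card_product, Nat.card_Ico, card_range]
    · split_ifs
      · simp
      · simp
  refine lt_of_le_of_lt h1 ?_
  rcases le_or_gt (2 * C) g with h | h
  · obtain ⟨d, rfl⟩ : ∃ d, g = 2 * C + d := ⟨g - 2 * C, by omega⟩
    rw [if_neg (by omega), show 2 * C - (2 * C + d) - 2 = 0 by omega,
      show 2 * C + d - 2 * C = d by omega]
    obtain ⟨c, rfl⟩ : ∃ c, C = c + 2 := ⟨C - 2, by omega⟩
    rw [show c + 2 - 1 = c + 1 by omega]
    nlinarith [Nat.zero_le (c * K)]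
  · rcases Nat.lt_or_ge (g + 1) (2 * C) with h' | h'
    · obtain ⟨m, hm⟩ : ∃ m, 2 * C - g = m + 2 := ⟨2 * C - g - 2, by omega⟩
      obtain ⟨e, he⟩ : ∃ e, C = m + 3 + e := ⟨C - m - 3, by omega⟩
      have hge : g = m + 4 + 2 * e := by omega
      subst he
      subst hge
      rw [if_neg (by omega), hm, show m + 4 + 2 * e - 2 * (m + 3 + e) = 0 by omega,
        show m + 2 - 2 = m by omega, show m + 3 + e - 1 = m + 2 + e by omega]
      nlinarith [Nat.zero_le (e * K)]
    · have hge : g + 1 = 2 * C := by omega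
      rcases Nat.lt_or_ge C 3 with h3 | h3
      · obtain rfl : C = 2 := by omega
        obtain rfl : g = 3 := by omega
        norm_num
        omega
      · rw [if_pos ⟨hge, h3⟩, show 2 * C - g - 2 = 0 by omega, show g - 2 * C = 0 by omega]
        obtain ⟨c, rfl⟩ : ∃ c, C = c + 3 := ⟨C - 3, by omega⟩
        obtain rfl : g = 2 * c + 5 := by omega
        rw [show c + 3 - 1 = c + 2 by omega]
        nlinarith [Nat.zero_le (c * K)]

section main

variable {C g K : ℕ} {y w₀ w₁ : ℕ → k}

/-- rows `C`, same block -/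
theorem cLow (R : RelB2 C g (K + 2) y w₀ w₁) {s σ : ℕ} (hσ : σ < g) (h0 : σ ≠ 0) (hs : C + σ = s)
    {i : ℕ} (hi : i < K + 2) :
    (if C ≤ σ then F g y s i + V (K + 1) (F g y s) i else 2 * V (K + 1) (F g y s) i) =
      if i = 0 then -w₀ σ else if i + 1 = K + 2 then w₀ σ - w₁ σ else 0 := by
  rw [← w_low C g (K + 1) y C σ s i hs]
  exact R.c i hi σ hσ h0

/-- rows `C`, next block -/
theorem cHigh (R : RelB2 C g (K + 2) y w₀ w₁) {s σ : ℕ} (hσ : σ < g) (h0 : σ ≠ 0)
    (hs : C + σ = s + g) {i : ℕ} (hi : i < K + 2) :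
    (if C ≤ σ then F g y s (i + 1) + V (K + 1) (F g y s) (i + 1)
      else 2 * V (K + 1) (F g y s) (i + 1)) =
      if i = 0 then -w₀ σ else if i + 1 = K + 2 then w₀ σ - w₁ σ else 0 := by
  rw [← w_high C g (K + 1) y C σ s i hs]
  exact R.c i hi σ hσ h0

theorem factA (hC : 2 ≤ C) (R : RelB2 C g (K + 2) y w₀ w₁) {s : ℕ} (h1 : C < s) (hs : s < g) :
    w₀ s = 0 ∧ w₁ (s - 1) = 0 ∧ ∀ i < K + 2, F g y s i + V (K + 1) (F g y s) i = 0 := by
  refine ab (K := K + 1) (by omega) (fun i => F g y s i + V (K + 1) (F g y s) i) _ _ ?_ ?_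
  · intro i hi
    have := R.z i hi s hs (by omega)
    rwa [w_low C g (K + 1) y 0 s s i (by omega), if_pos (by omega)] at this
  · intro i hi
    have := R.b i hi (s - 1) (by omega) (by omega) (by omega)
    rwa [w_low C g (K + 1) y 1 (s - 1) s i (by omega), if_pos (by omega)] at this

theorem factB (h2 : (2 : k) ≠ 0) (hg : C < g) (R : RelB2 C g (K + 2) y w₀ w₁) {s : ℕ}
    (h1 : 2 ≤ s) (hs : s < C) :
    w₀ s = 0 ∧ w₁ (s - 1) = 0 ∧ ∀ i < K + 2, V (K + 1) (F g y s) i = 0 := by
  have key : w₀ s = 0 ∧ w₁ (s - 1) = 0 ∧ ∀ i < K + 2, 2 * V (K + 1) (F g y s) i = 0 := by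
    refine ab (K := K + 1) (by omega) (fun i => 2 * V (K + 1) (F g y s) i) _ _ ?_ ?_
    · intro i hi
      have := R.z i hi s (by omega) (by omega)
      rwa [w_low C g (K + 1) y 0 s s i (by omega), if_neg (by omega)] at this
    · intro i hi
      have := R.b i hi (s - 1) (by omega) (by omega) (by omega)
      rwa [w_low C g (K + 1) y 1 (s - 1) s i (by omega), if_neg (by omega)] at this
  exact ⟨key.1, key.2.1, fun i hi => (mul_eq_zero.1 (key.2.2 i hi)).resolve_left h2⟩

theorem fact0 (h2 : (2 : k) ≠ 0) (hC : 2 ≤ C) (hg : C < g) (R : RelB2 C g (K + 2) y w₀ w₁) :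
    F g y 0 1 = w₁ (g - 1) ∧ 2 * w₁ (g - 1) = -w₀ 0 ∧
      (∀ i, 2 ≤ i → i ≤ 2 * K + 2 → F g y 0 i = 0) ∧ F g y 0 (2 * K + 3) = -w₁ (g - 1) ∧
      V (K + 1) (F g y 0) (K + 2) = -w₁ (g - 1) ∧ V (K + 1) (F g y 0) 1 = 0 := by
  refine cl01 (F g y 0) (w₀ 0) (w₁ (g - 1)) ?_ h2 ?_
  · intro i hi
    have := R.z i hi 0 (by omega) (by omega)
    rwa [w_low C g (K + 1) y 0 0 0 i (by omega), if_neg (by omega)] at this
  · intro i hi
    have := R.b i hi (g - 1) (by omega) (by omega) (by omega)
    rwa [w_high C g (K + 1) y 1 (g - 1) 0 i (by omega), if_pos (by omega)] at this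

theorem fact1 (h2 : (2 : k) ≠ 0) (hC : 2 ≤ C) (hg : C < g) (R : RelB2 C g (K + 2) y w₀ w₁) :
    F g y 1 1 = w₁ 0 ∧ 2 * w₁ 0 = -w₀ 1 ∧
      (∀ i, 2 ≤ i → i ≤ 2 * K + 2 → F g y 1 i = 0) ∧ F g y 1 (2 * K + 3) = -w₁ 0 ∧
      V (K + 1) (F g y 1) (K + 2) = -w₁ 0 ∧ V (K + 1) (F g y 1) 1 = 0 := by
  refine cl01 (F g y 1) (w₀ 1) (w₁ 0) ?_ h2 ?_
  · intro i hi
    have := R.z i hi 1 (by omega) (by omega)
    rwa [w_low C g (K + 1) y 0 1 1 i (by omega), if_neg (by omega)] at this
  · intro i hi
    rw [← R.b0 i hi, sum_Ico_eq_sum_range, Nat.add_sub_cancel, sum_range_succ', add_comm]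
    unfold V F
    congr 1
    · refine sum_congr rfl fun l _ => ?_
      congr 1
      ring
    · congr 1
      ring

theorem factD (R : RelB2 C g (K + 2) y w₀ w₁) : w₁ (C - 1) = -w₀ C := by
  rw [R.d0, R.d2, neg_neg]

/-- the coupling unknowns vanish -/
theorem hw (h2 : (2 : k) ≠ 0) (hC : 2 ≤ C) (hg : C < g) (R : RelB2 C g (K + 2) y w₀ w₁)
    (hS6 : g + 1 = 2 * C → 3 ≤ C → F g y 0 1 = 0) :
    w₀ C = 0 ∧ w₁ 0 = 0 ∧ w₁ (g - 1) = 0 := by
  obtain ⟨p1, p2, p3, p4, p5, p6⟩ := fact0 h2 hC hg R
  obtain ⟨q1, q2, q3, q4, q5, q6⟩ := fact1 h2 hC hg R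
  have hD := factD R
  rcases lt_trichotomy g (2 * C) with h | h | h
  · rcases Nat.lt_or_ge (g + 1) (2 * C) with h' | h'
    · have hwC : w₀ C = 0 := by
        have hV := (factB h2 hg R (s := 2 * C - g) (by omega) (by omega)).2.2
        refine (clB1 (F g y (2 * C - g)) (w₀ C) (w₁ C) hV fun i hi => ?_).1
        have := cHigh R (s := 2 * C - g) (σ := C) hg (by omega) (by omega) hi
        rwa [if_pos le_rfl] at this
      have hwC1 : w₁ (C - 1) = 0 := by rw [hD, hwC, neg_zero]
      have hg1 : w₁ (g - 1) = 0 := by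
        have e0 := cHigh R (s := 0) (σ := g - C) (by omega) (by omega) (by omega)
          (i := 0) (by omega)
        rw [if_neg (by omega), if_pos rfl, p6] at e0
        have e1 := cHigh R (s := 0) (σ := g - C) (by omega) (by omega) (by omega)
          (i := K + 1) (by omega)
        rw [if_neg (by omega), if_neg (by omega), if_pos rfl, p5] at e1
        have e2 := (factB h2 hg R (s := g - C + 1) (by omega) (by omega)).2.1
        rw [Nat.add_sub_cancel] at e2
        have : 2 * w₁ (g - 1) = 0 := by linear_combination -e1 - e0 + e2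
        exact (mul_eq_zero.1 this).resolve_left h2
      have h10 : w₁ 0 = 0 := by
        have e0 := cHigh R (s := 1) (σ := g - C + 1) (by omega) (by omega) (by omega)
          (i := 0) (by omega)
        rw [if_neg (by omega), if_pos rfl, q6] at e0
        have e1 := cHigh R (s := 1) (σ := g - C + 1) (by omega) (by omega) (by omega)
          (i := K + 1) (by omega)
        rw [if_neg (by omega), if_neg (by omega), if_pos rfl, q5] at e1
        have e2 : w₁ (g - C + 1) = 0 := by
          by_cases hh : g - C + 2 < C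
          · have := (factB h2 hg R (s := g - C + 2) (by omega) hh).2.1
            rwa [show g - C + 2 - 1 = g - C + 1 by omega] at this
          · rw [show g - C + 1 = C - 1 by omega, hwC1]
        have : 2 * w₁ 0 = 0 := by linear_combination -e1 - e0 + e2
        exact (mul_eq_zero.1 this).resolve_left h2
      exact ⟨hwC, h10, hg1⟩
    · have hge : g + 1 = 2 * C := by omega
      have e0 := cHigh R (s := 1) (σ := C) hg (by omega) (by omega) (i := 0) (by omega)
      rw [if_pos le_rfl, if_pos rfl, q6, q1] at e0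
      have e1 := cHigh R (s := 1) (σ := C) hg (by omega) (by omega) (i := K + 1) (by omega)
      rw [if_pos le_rfl, if_neg (by omega), if_pos rfl, q5, q3 _ (by omega) (by omega)] at e1
      have e2 := cHigh R (s := 0) (σ := C - 1) (by omega) (by omega) (by omega)
        (i := 0) (by omega)
      rw [if_neg (by omega), if_pos rfl, p6] at e2
      have e3 := cHigh R (s := 0) (σ := C - 1) (by omega) (by omega) (by omega)
        (i := K + 1) (by omega)
      rw [if_neg (by omega), if_neg (by omega), if_pos rfl, p5] at e3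
      have hg1 : w₁ (g - 1) = 0 := by
        by_cases h3 : 3 ≤ C
        · rw [← p1, hS6 hge h3]
        · rw [show g - 1 = C by omega]
          linear_combination e0 + e1
      have hwC1 : w₁ (C - 1) = 0 := by linear_combination e3 + e2 + 2 * hg1
      have hwC : w₀ C = 0 := by linear_combination hD - hwC1
      exact ⟨hwC, by linear_combination e0 - hwC, hg1⟩
  · have hwC1 : w₁ (C - 1) = 0 := by
      have hW := (factA hC R (s := 2 * C - 1) (by omega) (by omega)).2.2
      refine (clA2 (F g y (2 * C - 1)) (w₀ (C - 1)) (w₁ (C - 1)) h2 hW fun i hi => ?_).1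
      have := cLow R (s := 2 * C - 1) (σ := C - 1) (by omega) (by omega) (by omega) hi
      rwa [if_neg (by omega)] at this
    have hwC : w₀ C = 0 := by linear_combination hD - hwC1
    have e0 := cHigh R (s := 0) (σ := C) hg (by omega) (by omega) (i := 0) (by omega)
    rw [if_pos le_rfl, if_pos rfl, p6, p1] at e0
    have e1 := cHigh R (s := 1) (σ := C + 1) (by omega) (by omega) (by omega)
      (i := 0) (by omega)
    rw [if_pos (by omega), if_pos rfl, q6, q1] at e1
    have e2 := (factA hC R (s := C + 1) (by omega) (by omega)).1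
    exact ⟨hwC, by linear_combination e1 - e2, by linear_combination e0 - hwC⟩
  · have hW := (factA hC R (s := 2 * C) (by omega) h).2.2
    have e := cLow R (s := 2 * C) (σ := C) hg (by omega) (by omega) (i := 0) (by omega)
    rw [if_pos le_rfl, if_pos rfl, hW 0 (by omega)] at e
    have e0 := cHigh R (s := 0) (σ := g - C) (by omega) (by omega) (by omega)
      (i := 0) (by omega)
    rw [if_pos (by omega), if_pos rfl, p6, p1] at e0
    have e1 := cHigh R (s := 1) (σ := g - C + 1) (by omega) (by omega) (by omega)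
      (i := 0) (by omega)
    rw [if_pos (by omega), if_pos rfl, q6, q1] at e1
    have e2 := (factA hC R (s := g - C) (by omega) (by omega)).1
    have e3 := (factA hC R (s := g - C + 1) (by omega) (by omega)).1
    exact ⟨by linear_combination e, by linear_combination e1 - e3,
      by linear_combination e0 - e2⟩

theorem main (h2 : (2 : k) ≠ 0) (hC : 2 ≤ C) (hg : C < g) (R : RelB2 C g (K + 2) y w₀ w₁)
    (hS : ∀ s ∈ SS C g K, y s = 0) :
    ∀ v, v < g * (2 * K + 3) + 2 * C → y v = 0 := by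
  have S1 : ∀ s < C, F g y s 0 = 0 := by
    intro s hs
    refine hS _ ?_
    unfold SS
    simp only [mem_union, mem_range]
    exact Or.inl (Or.inl (Or.inl (Or.inl (Or.inr (by omega)))))
  have S2 : ∀ v, g * (2 * K + 3) + C + 1 ≤ v → v < g * (2 * K + 3) + 2 * C → y v = 0 := by
    intro v h1 h2
    refine hS _ ?_
    unfold SS
    simp only [mem_union, mem_Ico]
    exact Or.inl (Or.inl (Or.inl (Or.inl (Or.inl ⟨h1, h2⟩))))
  have S3 : ∀ i < 2 * K + 2, F g y C i = 0 := by
    intro i hi
    refine hS _ ?_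
    unfold SS
    simp only [mem_union, mem_image]
    exact Or.inl (Or.inl (Or.inl (Or.inr ⟨i, mem_range.2 hi, rfl⟩)))
  have S4 : ∀ s, 2 ≤ s → s + g < 2 * C → ∀ i, 1 ≤ i → i ≤ K → F g y s i = 0 := by
    intro s h1 h2 i h3 h4
    refine hS _ ?_
    unfold SS
    simp only [mem_union, mem_image, mem_product, mem_Ico]
    exact Or.inl (Or.inl (Or.inr ⟨(s, i), ⟨⟨h1, by omega⟩, ⟨h3, by omega⟩⟩, rfl⟩))
  have S5 : ∀ s, 2 * C ≤ s → s < g → ∀ i, i ≤ K → F g y s i = 0 := by
    intro s h1 h2 i h3
    refine hS _ ?_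
    unfold SS
    simp only [mem_union, mem_image, mem_product, mem_Ico, mem_range]
    exact Or.inl (Or.inr ⟨(s, i), ⟨⟨h1, by omega⟩, by omega⟩, rfl⟩)
  have S6 : g + 1 = 2 * C → 3 ≤ C → F g y 0 1 = 0 := by
    intro h1 h2
    refine hS _ ?_
    unfold SS
    rw [if_pos ⟨h1, h2⟩]
    simp
  obtain ⟨hwC, hw10, hw1g⟩ := hw h2 hC hg R S6
  obtain ⟨p1, p2, p3, p4, p5, p6⟩ := fact0 h2 hC hg R
  obtain ⟨q1, q2, q3, q4, q5, q6⟩ := fact1 h2 hC hg R
  have hwC1 : w₁ (C - 1) = 0 := by rw [factD R, hwC, neg_zero]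
  have hw0 : ∀ σ < g, w₀ σ = 0 := by
    intro σ hσ
    rcases Nat.lt_or_ge C σ with h | h
    · exact (factA hC R h hσ).1
    rcases Nat.eq_or_lt_of_le h with h | h
    · rw [h, hwC]
    rcases Nat.lt_or_ge σ 2 with h3 | h3
    · interval_cases σ
      · linear_combination p2 - 2 * hw1g
      · linear_combination q2 - 2 * hw10
    · exact (factB h2 hg R h3 h).1
  have hw1 : ∀ σ < g, w₁ σ = 0 := by
    intro σ hσ
    by_cases h0 : σ = 0
    · rw [h0, hw10]
    by_cases h1 : σ + 1 = g
    · rw [show σ = g - 1 by omega, hw1g]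
    by_cases h3 : σ + 1 = C
    · rw [show σ = C - 1 by omega, hwC1]
    rcases Nat.lt_or_ge (σ + 1) C with h | h
    · exact (factB h2 hg R (s := σ + 1) (by omega) h).2.1
    · exact (factA hC R (s := σ + 1) (by omega) (by omega)).2.1
  have G1 : ∀ s < g, ∀ i ≤ 2 * K + 2, F g y s i = 0 := by
    intro s hs i hi
    rcases Nat.lt_trichotomy s C with h | h | h
    · by_cases hi0 : i = 0
      · rw [hi0, S1 s h]
      by_cases hs0 : s = 0
      · subst hs0
        by_cases hi1 : i = 1
        · rw [hi1, p1, hw1g]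
        · exact p3 i (by omega) hi
      by_cases hs1 : s = 1
      · subst hs1
        by_cases hi1 : i = 1
        · rw [hi1, q1, hw10]
        · exact q3 i (by omega) hi
      have hV := (factB h2 hg R (s := s) (by omega) h).2.2
      rcases Nat.lt_or_ge (s + g) (2 * C) with h4 | h4
      · refine (clB2 (F g y s) (w₀ (s + g - C)) (w₁ (s + g - C)) hV (fun j hj => ?_)
          (S4 s (by omega) h4)).2.1 i (by omega) hi
        have := cHigh R (s := s) (σ := s + g - C) (by omega) (by omega) (by omega) hj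
        rwa [if_neg (by omega)] at this
      · refine (clB1 (F g y s) (w₀ (s + g - C)) (w₁ (s + g - C)) hV (fun j hj => ?_)).2.1 i
          (by omega) hi
        have := cHigh R (s := s) (σ := s + g - C) (by omega) (by omega) (by omega) hj
        rwa [if_pos (by omega)] at this
    · subst h
      by_cases hi2 : i < 2 * K + 2
      · exact S3 i hi2
      · obtain rfl : i = 2 * K + 2 := by omega
        have e := R.d0
        rw [hwC] at e
        have e2 := dsum (K := K) (fun i l => if i + l < K + 2 then (1 : k) else -1) (F g y s) S3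
        simp only [F] at e2
        rw [e2, if_neg (by omega)] at e
        unfold F
        linear_combination -e
    · rcases Nat.lt_or_ge s (2 * C) with h4 | h4
      · refine (clA2 (F g y s) (w₀ (s - C)) (w₁ (s - C)) h2 (factA hC R h hs).2.2
          (fun j hj => ?_)).2 (hw0 _ (by omega)) i hi
        have := cLow R (s := s) (σ := s - C) (by omega) (by omega) (by omega) hj
        rwa [if_neg (by omega)] at this
      · exact clA (F g y s) (factA hC R h hs).2.2 (S5 s h4 hs) i hi
  have G2 : ∀ s ≤ C, F g y s (2 * K + 3) = 0 := by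
    intro s hs
    rcases Nat.eq_or_lt_of_le hs with h | h
    · subst h
      have e := R.d1
      have e2 := dsum (K := K) (fun i l => if i + l + 1 < K + 2 then (-1 : k) else 1)
        (fun i => F g y s (i + 1)) (fun j hj => G1 s hg (j + 1) (by omega))
      simp only [F] at e2
      rw [hw10, hw0 0 (by omega), e2, if_neg (by omega)] at e
      unfold F
      linear_combination e
    · by_cases hs0 : s = 0
      · subst hs0
        rw [p4, hw1g, neg_zero]
      by_cases hs1 : s = 1
      · subst hs1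
        rw [q4, hw10, neg_zero]
      have hV := (factB h2 hg R (s := s) (by omega) h).2.2
      have h5 := hw1 (s + g - C) (by omega)
      rcases Nat.lt_or_ge (s + g) (2 * C) with h4 | h4
      · have e := (clB2 (F g y s) (w₀ (s + g - C)) (w₁ (s + g - C)) hV (fun j hj => by
          have := cHigh R (s := s) (σ := s + g - C) (by omega) (by omega) (by omega) hj
          rwa [if_neg (by omega)] at this) (S4 s (by omega) h4)).2.2
        rw [h5, neg_zero] at e
        exact (mul_eq_zero.1 e).resolve_left h2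
      · have e := (clB1 (F g y s) (w₀ (s + g - C)) (w₁ (s + g - C)) hV (fun j hj => by
          have := cHigh R (s := s) (σ := s + g - C) (by omega) (by omega) (by omega) hj
          rwa [if_pos (by omega)] at this)).2.2
        rw [e, h5, neg_zero]
  intro v hv
  rcases Nat.lt_or_ge (g * (2 * K + 3) + C) v with h | h
  · exact S2 v h hv
  have hgp : 0 < g := by omega
  have hv1 : v % g + g * (v / g) = v := Nat.mod_add_div v g
  have hlt := Nat.mod_lt v hgp
  have hi : v / g ≤ 2 * K + 3 := by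
    by_contra hcon
    have h6 : g * (2 * K + 4) ≤ g * (v / g) := Nat.mul_le_mul_left g (by omega)
    have h7 : g * (2 * K + 4) = g * (2 * K + 3) + g := by ring
    rw [h7] at h6
    omega
  rcases Nat.eq_or_lt_of_le hi with h3 | h3
  · have := G2 (v % g) (by rw [h3] at hv1; omega)
    unfold F at this
    rwa [← h3, hv1] at this
  · have := G1 (v % g) hlt (v / g) (by omega)
    unfold F at this
    rwa [hv1] at this

end main

theorem t (k : Type*) [Field k] : StmLB2 k := by
  intro h2 C g κ hC hg hκ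
  obtain ⟨K, rfl⟩ : ∃ K, κ = K + 2 := ⟨κ - 2, by omega⟩
  refine ⟨SS C g K, ?_, fun y w₀ w₁ hS R v hv => ?_⟩
  · rw [show K + 2 - 1 = K + 1 by omega]
    exact card_SS hC hg
  · rw [show 2 * (K + 2) - 1 = 2 * K + 3 by omega] at hv
    exact main h2 hC hg R hS v hv

end Pool.Agent.N729.HQ.LB2
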