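import Pool.Agent.N729.HQ.Stm

/-!
# HQ/LB3 (helper123): linear algebra for `C = 0`, `g ≥ 3`, `κ ≥ 3`
-/

set_option autoImplicit false

namespace Pool.Agent.N729.HQ.LB3

open Finset
open Pool.Agent.N729.HP
open Pool.Agent.N729.HQ

variable {k : Type*} [Field k]

section sB

variable (κ : ℕ) (w₀ w₁ lam : ℕ → k) (j : ℕ)

theorem s00 : sB3 κ w₀ w₁ lam 0 j 0 = lam j := by
  unfold sB3
  rw [if_pos rfl, if_pos rfl]

theorem s01 : sB3 κ w₀ w₁ lam 0 j 1 = - lam j := by
  unfold sB3
  rw [if_pos rfl, if_neg one_ne_zero, if_pos rfl]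

theorem s0m {i : ℕ} (h2 : 2 ≤ i) (h : i + 1 ≠ κ) : sB3 κ w₀ w₁ lam 0 j i = 0 := by
  unfold sB3
  rw [if_pos rfl, if_neg (by omega), if_neg (by omega), if_neg h]

theorem s0l {i : ℕ} (h2 : 2 ≤ i) (h : i + 1 = κ) : sB3 κ w₀ w₁ lam 0 j i = - w₀ j := by
  unfold sB3
  rw [if_pos rfl, if_neg (by omega), if_neg (by omega), if_pos h]

theorem s10 : sB3 κ w₀ w₁ lam 1 j 0 = w₀ j := by
  unfold sB3
  rw [if_neg one_ne_zero, if_pos rfl, if_pos rfl]

theorem s1m {i : ℕ} (h2 : i ≠ 0) (h : i + 2 ≠ κ) : sB3 κ w₀ w₁ lam 1 j i = 0 := by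
  unfold sB3
  rw [if_neg one_ne_zero, if_pos rfl, if_neg h2, if_neg h]

theorem s1l {i : ℕ} (h2 : i ≠ 0) (h : i + 2 = κ) : sB3 κ w₀ w₁ lam 1 j i = - w₁ j := by
  unfold sB3
  rw [if_neg one_ne_zero, if_pos rfl, if_neg h2, if_pos h]

theorem s20 : sB3 κ w₀ w₁ lam 2 j 0 = w₁ j := by
  unfold sB3
  rw [if_neg two_ne_zero, if_neg (by omega), if_pos rfl]

theorem s2m {i : ℕ} (h2 : i ≠ 0) : sB3 κ w₀ w₁ lam 2 j i = 0 := by
  unfold sB3
  rw [if_neg two_ne_zero, if_neg (by omega), if_neg h2]

end sB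

/-- shifting a window -/
theorem shift (F : ℕ → k) (i m : ℕ) :
    ∑ l ∈ range m, F (i + l) + F (i + m) = F i + ∑ l ∈ range m, F (i + 1 + l) := by
  rw [← Finset.sum_range_succ (fun l => F (i + l)), Finset.sum_range_succ' (fun l => F (i + l)),
    add_comm (F i), add_zero]
  congr 1
  refine Finset.sum_congr rfl fun l _ => ?_
  congr 1
  omega

theorem windows (F : ℕ → k) (n : ℕ) (h1 : ∀ i < n + 1, ∑ l ∈ range n, F (i + l) = 0)
    (h2 : ∀ i < n, F (i + n) = 0) : ∀ i < n, F i = 0 := by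
  intro i hi
  have h := shift F i n
  rw [h1 i (by omega), h2 i hi, h1 (i + 1) (by omega)] at h
  rw [add_zero, add_zero] at h
  exact h.symm

theorem two_mul_zero {x : k} (h2 : (2 : k) ≠ 0) (h : 2 * x = 0) : x = 0 :=
  (mul_eq_zero.mp h).resolve_left h2

theorem sum_Ico_first (F : ℕ → k) (m : ℕ) (h : ∀ l, 2 ≤ l → l < m + 2 → F l = 0) :
    ∑ l ∈ Ico 1 (m + 2), F l = F 1 := by
  rw [Finset.sum_eq_single 1]
  · intro b hb hb1
    rw [Finset.mem_Ico] at hb
    exact h b (by omega) hb.2
  · intro hb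
    exact absurd (Finset.mem_Ico.mpr ⟨le_refl 1, by omega⟩) hb

theorem d0_eval (E : ℕ → k) (m : ℕ) (hE : ∀ s < 2 * m + 4, E s = 0) :
    ∑ i ∈ range (m + 3), ∑ l ∈ range (m + 3),
      (if i + 1 = m + 3 ∧ l + 1 = m + 3 then 2 else if i + 1 = m + 3 ∨ l + 1 = m + 3 then 0 else
        if i + l < m + 3 then 1 else -1) * E (i + l) = 2 * E (2 * m + 4) := by
  rw [Finset.sum_eq_single (m + 2)]
  · rw [Finset.sum_eq_single (m + 2)]
    · rw [if_pos (by omega)]
      congr 2
      omega
    · intro l hl hl0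
      rw [Finset.mem_range] at hl
      rw [hE _ (by omega), mul_zero]
    · intro hl
      exact absurd (Finset.mem_range.mpr (by omega)) hl
  · intro i hi hi0
    rw [Finset.mem_range] at hi
    refine Finset.sum_eq_zero fun l hl => ?_
    rw [Finset.mem_range] at hl
    rw [hE _ (by omega), mul_zero]
  · intro hl
    exact absurd (Finset.mem_range.mpr (by omega)) hl

/-! ### The case `g ≥ 4` -/

def S4 (c m : ℕ) : Finset ℕ :=
  (((range c) ×ˢ (range (m + 2))).image fun p => p.1 + (c + 4) * p.2) ∪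
  ((insert 0 (Ico 2 (2 * m + 4))).image fun i => (c + 1) + (c + 4) * i) ∪
  {c, c + (c + 4) * (2 * m + 4), (c + 2) + (c + 4) * (2 * m + 4), (c + 3) + (c + 4) * 1,
    (c + 3) + (c + 4) * (2 * m + 4)}

theorem card_S4 (c m : ℕ) : (S4 c m).card < (c + 4) * (m + 2) + 1 := by
  have h1 : ((((range c) ×ˢ (range (m + 2))).image fun p : ℕ × ℕ => p.1 + (c + 4) * p.2)).card ≤
      c * (m + 2) := by
    refine Finset.card_image_le.trans ?_
    rw [Finset.card_product, Finset.card_range, Finset.card_range]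
  have h2 : (((insert 0 (Ico 2 (2 * m + 4))).image fun i => (c + 1) + (c + 4) * i)).card ≤
      2 * m + 3 := by
    refine Finset.card_image_le.trans ?_
    refine (Finset.card_insert_le _ _).trans ?_
    rw [Nat.card_Ico]
    omega
  have h3 : ({c, c + (c + 4) * (2 * m + 4), (c + 2) + (c + 4) * (2 * m + 4), (c + 3) + (c + 4) * 1,
    (c + 3) + (c + 4) * (2 * m + 4)} : Finset ℕ).card ≤ 5 := Finset.card_le_five
  have h4 := Finset.card_union_le ((((range c) ×ˢ (range (m + 2))).image
    fun p : ℕ × ℕ => p.1 + (c + 4) * p.2) ∪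
    ((insert 0 (Ico 2 (2 * m + 4))).image fun i => (c + 1) + (c + 4) * i))
    ({c, c + (c + 4) * (2 * m + 4), (c + 2) + (c + 4) * (2 * m + 4), (c + 3) + (c + 4) * 1,
    (c + 3) + (c + 4) * (2 * m + 4)} : Finset ℕ)
  have h5 := Finset.card_union_le (((range c) ×ˢ (range (m + 2))).image
    fun p : ℕ × ℕ => p.1 + (c + 4) * p.2)
    ((insert 0 (Ico 2 (2 * m + 4))).image fun i => (c + 1) + (c + 4) * i)
  have h6 : (c + 4) * (m + 2) = c * (m + 2) + 4 * m + 8 := by ring
  unfold S4
  omega

theorem main4 (h2 : (2 : k) ≠ 0) (c m : ℕ) (y w₀ w₁ lam : ℕ → k)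
    (hS : ∀ s ∈ S4 c m, y s = 0) (h : RelB3 (c + 4) (m + 3) y w₀ w₁ lam) :
    ∀ s < c + 4, ∀ i < 2 * m + 5, y (s + (c + 4) * i) = 0 := by
  -- the zeros
  have hS1 : ∀ s < c, ∀ i < m + 2, y (s + (c + 4) * i) = 0 := by
    intro s hs i hi
    refine hS _ ?_
    unfold S4
    refine Finset.mem_union_left _ (Finset.mem_union_left _ ?_)
    exact Finset.mem_image.mpr ⟨(s, i), by simp [hs, hi], rfl⟩
  have hS4 : ∀ i, (i = 0 ∨ (2 ≤ i ∧ i < 2 * m + 4)) → y ((c + 1) + (c + 4) * i) = 0 := by
    intro i hi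
    refine hS _ ?_
    unfold S4
    refine Finset.mem_union_left _ (Finset.mem_union_right _ ?_)
    exact Finset.mem_image.mpr ⟨i, by simp [hi], rfl⟩
  have hS2 : y (c + (c + 4) * 0) = 0 := by
    refine hS _ ?_
    unfold S4
    exact Finset.mem_union_right _ (by simp)
  have hS3 : y (c + (c + 4) * (2 * m + 4)) = 0 := by
    refine hS _ ?_
    unfold S4
    exact Finset.mem_union_right _ (by simp)
  have hS5 : y ((c + 2) + (c + 4) * (2 * m + 4)) = 0 := by
    refine hS _ ?_
    unfold S4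
    exact Finset.mem_union_right _ (by simp)
  have hS6 : y ((c + 3) + (c + 4) * 1) = 0 := by
    refine hS _ ?_
    unfold S4
    exact Finset.mem_union_right _ (by simp)
  have hS7 : y ((c + 3) + (c + 4) * (2 * m + 4)) = 0 := by
    refine hS _ ?_
    unfold S4
    exact Finset.mem_union_right _ (by simp)
  clear hS
  -- the relations
  have A0 : ∀ i < m + 3, ∀ j, j < c + 1 →
      2 * y (j + (c + 4) * (i + (m + 2))) = sB3 (m + 3) w₀ w₁ lam 0 j i := by
    intro i hi j hj
    have := h.a0 i hi j (by omega)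
    rw [← this]
    congr 2
    have e : m + 3 - 1 = m + 2 := rfl
    rw [e]
    ring
  have A1z : ∀ i < m + 2,
      2 * y ((c + 3) + (c + 4) * (i + (m + 2))) = sB3 (m + 3) w₀ w₁ lam 1 0 i := by
    intro i hi
    have := h.a1 i hi 0 (by omega)
    rw [← this]
    congr 2
    have e : m + 3 - 1 = m + 2 := rfl
    have e' : c + 4 - 1 = c + 3 := rfl
    rw [e, e']
    ring
  have A1s : ∀ i < m + 2, ∀ j, j < c + 1 →
      2 * y (j + (c + 4) * (i + (m + 3))) = sB3 (m + 3) w₀ w₁ lam 1 (j + 1) i := by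
    intro i hi j hj
    have := h.a1 i hi (j + 1) (by omega)
    rw [← this]
    congr 2
    have e : m + 3 - 1 = m + 2 := rfl
    have e' : c + 4 - 1 = c + 3 := rfl
    rw [e, e']
    ring
  have A2z : ∀ i < m + 2,
      2 * y ((c + 2) + (c + 4) * (i + (m + 2))) = sB3 (m + 3) w₀ w₁ lam 2 0 i := by
    intro i hi
    have := h.a2 i hi 0 (by omega)
    rw [← this]
    congr 2
    have e : m + 3 - 1 = m + 2 := rfl
    have e' : c + 4 - 2 = c + 2 := rfl
    rw [e, e']
    ring
  have A2o : ∀ i < m + 2,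
      2 * y ((c + 3) + (c + 4) * (i + (m + 2))) = sB3 (m + 3) w₀ w₁ lam 2 1 i := by
    intro i hi
    have := h.a2 i hi 1 (by omega)
    rw [← this]
    congr 2
    have e : m + 3 - 1 = m + 2 := rfl
    have e' : c + 4 - 2 = c + 2 := rfl
    rw [e, e']
    ring
  have A2s : ∀ i < m + 2, ∀ j, j < c →
      2 * y (j + (c + 4) * (i + (m + 3))) = sB3 (m + 3) w₀ w₁ lam 2 (j + 2) i := by
    intro i hi j hj
    have := h.a2 i hi (j + 2) (by omega)
    rw [← this]
    congr 2
    have e : m + 3 - 1 = m + 2 := rfl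
    have e' : c + 4 - 2 = c + 2 := rfl
    rw [e, e']
    ring
  have B0 : ∀ i < m + 3, ∑ l ∈ range (m + 2), y ((c + 2) + (c + 4) * (i + l)) =
      sB3 (m + 3) w₀ w₁ lam 0 (c + 2) i := by
    intro i hi
    have := h.b0 i hi
    rw [show c + 4 - 2 = c + 2 from rfl] at this
    rw [← this]
    refine Finset.sum_congr rfl fun l _ => ?_
    congr 1
    ring
  have B2 : ∀ i < m + 2, y (c + (c + 4) * (i + 1)) -
      ∑ l ∈ Ico 1 (m + 2), y (c + (c + 4) * (i + 1 + l)) =
      sB3 (m + 3) w₀ w₁ lam 2 (c + 2) i := by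
    intro i hi
    have := h.b2 i hi
    rw [show c + 4 - 2 = c + 2 from rfl] at this
    rw [← this]
    congr 1
    · congr 1
      ring
    · refine Finset.sum_congr rfl fun l _ => ?_
      congr 1
      ring
  have C0 : ∀ i < m + 3, ∑ l ∈ range (m + 2), y ((c + 3) + (c + 4) * (i + l)) =
      sB3 (m + 3) w₀ w₁ lam 0 (c + 3) i := by
    intro i hi
    have := h.c0 i hi
    rw [show c + 4 - 1 = c + 3 from rfl] at this
    rw [← this]
    refine Finset.sum_congr rfl fun l _ => ?_
    congr 1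
    ring
  have C1 : ∀ i < m + 2, ∑ l ∈ range (m + 2), y ((c + 2) + (c + 4) * (i + 1 + l)) =
      sB3 (m + 3) w₀ w₁ lam 1 (c + 3) i := by
    intro i hi
    have := h.c1 i hi
    rw [show c + 4 - 1 = c + 3 from rfl] at this
    rw [← this]
    refine Finset.sum_congr rfl fun l _ => ?_
    congr 1
    ring
  have D : ∑ i ∈ range (m + 2), ∑ l ∈ range (m + 2),
      (if i + l + 1 < m + 3 then 1 else -1) * y ((c + 1) + (c + 4) * (i + l + 1)) =
      y ((c + 1) + (c + 4) * 1) := by
    rw [Finset.sum_eq_single 0]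
    · rw [Finset.sum_eq_single 0]
      · rw [if_pos (by omega), one_mul]
      · intro l hl hl0
        rw [Finset.mem_range] at hl
        rw [hS4 _ (Or.inr ⟨by omega, by omega⟩), mul_zero]
      · intro hl
        exact absurd (Finset.mem_range.mpr (by omega)) hl
    · intro i hi hi0
      rw [Finset.mem_range] at hi
      refine Finset.sum_eq_zero fun l hl => ?_
      rw [Finset.mem_range] at hl
      rw [hS4 _ (Or.inr ⟨by omega, by omega⟩), mul_zero]
    · intro hl
      exact absurd (Finset.mem_range.mpr (by omega)) hl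
  have D1 : w₁ (c + 2) = w₀ (c + 2) - y ((c + 1) + (c + 4) * 1) := by
    rw [← D]
    exact h.d1
  have D2 : w₁ (c + 3) = y ((c + 1) + (c + 4) * 1) := by
    rw [← D]
    exact h.d2
  -- step 1
  have s1 : ∀ j, j < c + 1 → y (j + (c + 4) * (2 * m + 4)) = 0 := by
    intro j hj
    rcases Nat.lt_or_ge j c with hc | hc
    · have := A2s (m + 1) (by omega) j hc
      rw [s2m _ _ _ _ _ (by omega), show m + 1 + (m + 3) = 2 * m + 4 by ring] at this
      exact two_mul_zero h2 this
    · have : j = c := by omega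
      rw [this]
      exact hS3
  have s2 : ∀ j, j < c + 1 → w₀ j = 0 := by
    intro j hj
    have := A0 (m + 2) (by omega) j hj
    rw [s0l _ _ _ _ _ (by omega) (by omega), show m + 2 + (m + 2) = 2 * m + 4 by ring, s1 j hj,
      mul_zero] at this
    exact neg_eq_zero.mp this.symm
  have s3 : ∀ j, j < c + 1 → w₁ (j + 1) = 0 := by
    intro j hj
    have := A1s (m + 1) (by omega) j hj
    rw [s1l _ _ _ _ _ (by omega) (by omega), show m + 1 + (m + 3) = 2 * m + 4 by ring, s1 j hj,
      mul_zero] at this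
    exact neg_eq_zero.mp this.symm
  have s4 : ∀ i < m + 2, y ((c + 3) + (c + 4) * (i + (m + 2))) = 0 := by
    intro i hi
    have := A2o i hi
    rcases Nat.eq_zero_or_pos i with hi0 | hi0
    · subst hi0
      rw [s20, s3 0 (by omega)] at this
      exact two_mul_zero h2 this
    · rw [s2m _ _ _ _ _ (by omega)] at this
      exact two_mul_zero h2 this
  have s4' : w₁ 0 = 0 := by
    have := A1z (m + 1) (by omega)
    rw [s1l _ _ _ _ _ (by omega) (by omega), s4 (m + 1) (by omega), mul_zero] at this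
    exact neg_eq_zero.mp this.symm
  have s5l : ∀ j, j < c → lam j = 0 := by
    intro j hj
    have h3 := A1s 0 (by omega) j (by omega)
    rw [s10, s2 (j + 1) (by omega)] at h3
    have h4 := A0 1 (by omega) j (by omega)
    rw [s01, show 1 + (m + 2) = 0 + (m + 3) by ring, h3] at h4
    exact neg_eq_zero.mp h4.symm
  have s5 : ∀ j, j < c → ∀ i < m + 3, y (j + (c + 4) * (i + (m + 2))) = 0 := by
    intro j hj i hi
    have h3 := A0 i hi j (by omega)
    have h4 : sB3 (m + 3) w₀ w₁ lam 0 j i = 0 := by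
      rcases Nat.lt_or_ge i 2 with h5 | h5
      · rcases Nat.lt_or_ge i 1 with h6 | h6
        · have : i = 0 := by omega
          rw [this, s00, s5l j hj]
        · have : i = 1 := by omega
          rw [this, s01, s5l j hj, neg_zero]
      · by_cases h6 : i + 1 = m + 3
        · rw [s0l _ _ _ _ _ h5 h6, s2 j (by omega), neg_zero]
        · exact s0m _ _ _ _ _ h5 h6
    rw [h4] at h3
    exact two_mul_zero h2 h3
  -- class c
  have s6a : ∀ i, 2 ≤ i → i < m + 3 → y (c + (c + 4) * (i + (m + 2))) = 0 := by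
    intro i hi hi'
    have h3 := A0 i hi' c (by omega)
    by_cases h6 : i + 1 = m + 3
    · rw [s0l _ _ _ _ _ hi h6, s2 c (by omega), neg_zero] at h3
      exact two_mul_zero h2 h3
    · rw [s0m _ _ _ _ _ hi h6] at h3
      exact two_mul_zero h2 h3
  have s6b : y (c + (c + 4) * (m + 2)) = y (c + (c + 4) * (m + 3)) := by
    have h3 := B2 (m + 1) (by omega)
    rw [s2m _ _ _ _ _ (by omega), sum_Ico_first (fun l => y (c + (c + 4) * (m + 1 + 1 + l))) m
      (by
        intro l hl hl'
        have := s6a l hl (by omega)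
        rw [← this]
        congr 3
        omega)] at h3
    rw [sub_eq_zero] at h3
    rw [show m + 2 = m + 1 + 1 by omega, h3]
  have s6c : y (c + (c + 4) * (m + 2)) = 0 ∧ y (c + (c + 4) * (m + 3)) = 0 := by
    have h3 := A0 0 (by omega) c (by omega)
    have h4 := A0 1 (by omega) c (by omega)
    rw [s00, show 0 + (m + 2) = m + 2 by ring] at h3
    rw [s01, show 1 + (m + 2) = m + 3 by ring, ← s6b, ← h3] at h4
    have h5 : 2 * (2 * y (c + (c + 4) * (m + 2))) = 0 := by linear_combination h4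
    have h6 := two_mul_zero h2 (two_mul_zero h2 h5)
    exact ⟨h6, by rw [← s6b, h6]⟩
  have s6d : w₀ (c + 1) = 0 := by
    have h3 := A1s 0 (by omega) c (by omega)
    rw [s10, show 0 + (m + 3) = m + 3 by ring, s6c.2, mul_zero] at h3
    exact h3.symm
  have s6e : ∀ i, m + 2 ≤ i → i < 2 * m + 5 → y (c + (c + 4) * i) = 0 := by
    intro i hi hi'
    rcases Nat.lt_or_ge i (m + 4) with h3 | h3
    · rcases Nat.lt_or_ge i (m + 3) with h4 | h4
      · have : i = m + 2 := by omega
        rw [this]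
        exact s6c.1
      · have : i = m + 3 := by omega
        rw [this]
        exact s6c.2
    · have := s6a (i - (m + 2)) (by omega) (by omega)
      rwa [show i - (m + 2) + (m + 2) = i by omega] at this
  have s6f : ∀ n i, n = 2 * m + 5 - i → 2 ≤ i → i < 2 * m + 5 → y (c + (c + 4) * i) = 0 := by
    intro n
    induction n using Nat.strong_induction_on with
    | _ n ih =>
      intro i hn hi hi'
      rcases Nat.lt_or_ge i (m + 2) with h3 | h3
      · have h4 := B2 (i - 1) (by omega)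
        rw [s2m _ _ _ _ _ (by omega), show i - 1 + 1 = i by omega] at h4
        rw [Finset.sum_eq_zero, sub_zero] at h4
        · exact h4
        · intro l hl
          rw [Finset.mem_Ico] at hl
          exact ih (2 * m + 5 - (i + l)) (by omega) (i + l) rfl (by omega) (by omega)
      · exact s6e i h3 hi'
  -- class c + 3
  have s7a : w₀ (c + 3) = 0 := by
    have h3 := C0 (m + 2) (by omega)
    rw [s0l _ _ _ _ _ (by omega) (by omega), Finset.sum_eq_zero] at h3
    · exact neg_eq_zero.mp h3.symm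
    · intro l hl
      rw [Finset.mem_range] at hl
      rw [show m + 2 + l = l + (m + 2) by ring]
      exact s4 l hl
  have s7b : lam (c + 3) = 0 := by
    have h3 := shift (fun i => y ((c + 3) + (c + 4) * i)) 1 (m + 2)
    beta_reduce at h3
    rw [C0 1 (by omega), s01, s4 1 (by omega), hS6, C0 (1 + 1) (by omega)] at h3
    have h4 : sB3 (m + 3) w₀ w₁ lam 0 (c + 3) (1 + 1) = 0 := by
      by_cases h6 : 1 + 1 + 1 = m + 3
      · rw [s0l _ _ _ _ _ (by omega) h6, s7a, neg_zero]
      · exact s0m _ _ _ _ _ (by omega) h6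
    rw [h4, add_zero, add_zero] at h3
    exact neg_eq_zero.mp h3
  have s7c : ∀ i < m + 3, sB3 (m + 3) w₀ w₁ lam 0 (c + 3) i = 0 := by
    intro i hi
    rcases Nat.lt_or_ge i 2 with h5 | h5
    · rcases Nat.lt_or_ge i 1 with h6 | h6
      · have : i = 0 := by omega
        rw [this, s00, s7b]
      · have : i = 1 := by omega
        rw [this, s01, s7b, neg_zero]
    · by_cases h6 : i + 1 = m + 3
      · rw [s0l _ _ _ _ _ h5 h6, s7a, neg_zero]
      · exact s0m _ _ _ _ _ h5 h6
  have s7 : ∀ i < m + 2, y ((c + 3) + (c + 4) * i) = 0 := by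
    refine windows (fun i => y ((c + 3) + (c + 4) * i)) (m + 2) ?_ s4
    intro i hi
    rw [C0 i hi]
    exact s7c i hi
  -- class c + 2
  have s8a : ∀ i < m + 2, y ((c + 2) + (c + 4) * (i + (m + 2))) = 0 := by
    intro i hi
    have h3 := A2z i hi
    rcases Nat.eq_zero_or_pos i with hi0 | hi0
    · subst hi0
      rw [s20, s4'] at h3
      exact two_mul_zero h2 h3
    · rw [s2m _ _ _ _ _ (by omega)] at h3
      exact two_mul_zero h2 h3
  have s8b : lam (c + 2) = 0 := by
    have h3 := C1 0 (by omega)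
    rw [s10, s7a] at h3
    have h4 := B0 1 (by omega)
    rw [s01] at h4
    rw [show 0 + 1 = 1 from rfl, h4] at h3
    exact neg_eq_zero.mp h3
  have s8z : ∑ l ∈ range (m + 2), y ((c + 2) + (c + 4) * (m + 2 + l)) = 0 := by
    refine Finset.sum_eq_zero fun l hl => ?_
    rw [Finset.mem_range] at hl
    rw [show m + 2 + l = l + (m + 2) by ring]
    exact s8a l hl
  have s8c : w₀ (c + 2) = 0 := by
    have h3 := B0 (m + 2) (by omega)
    rw [s0l _ _ _ _ _ (by omega) (by omega), s8z] at h3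
    exact neg_eq_zero.mp h3.symm
  have s8d : w₁ (c + 3) = 0 := by
    have h3 := C1 (m + 1) (by omega)
    rw [s1l _ _ _ _ _ (by omega) (by omega), show m + 1 + 1 = m + 2 from rfl, s8z] at h3
    exact neg_eq_zero.mp h3.symm
  have s8e : ∀ i < m + 3, sB3 (m + 3) w₀ w₁ lam 0 (c + 2) i = 0 := by
    intro i hi
    rcases Nat.lt_or_ge i 2 with h5 | h5
    · rcases Nat.lt_or_ge i 1 with h6 | h6
      · have : i = 0 := by omega
        rw [this, s00, s8b]
      · have : i = 1 := by omega
        rw [this, s01, s8b, neg_zero]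
    · by_cases h6 : i + 1 = m + 3
      · rw [s0l _ _ _ _ _ h5 h6, s8c, neg_zero]
      · exact s0m _ _ _ _ _ h5 h6
  have s8 : ∀ i < m + 2, y ((c + 2) + (c + 4) * i) = 0 := by
    refine windows (fun i => y ((c + 2) + (c + 4) * i)) (m + 2) ?_ s8a
    intro i hi
    rw [B0 i hi]
    exact s8e i hi
  -- class c + 1
  have s9a : y ((c + 1) + (c + 4) * 1) = 0 := by
    rw [← D2]
    exact s8d
  have s9b : w₁ (c + 2) = 0 := by
    rw [D1, s8c, s9a, sub_zero]
  have s9c : ∀ i < 2 * m + 4, y ((c + 1) + (c + 4) * i) = 0 := by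
    intro i hi
    by_cases h3 : i = 1
    · rw [h3]
      exact s9a
    · exact hS4 i (by omega)
  have s9d : y ((c + 1) + (c + 4) * (2 * m + 4)) = 0 := by
    have h3 := d0_eval (fun i => y ((c + 1) + (c + 4) * i)) m s9c
    beta_reduce at h3
    have h4 := h.d0
    rw [show c + 4 - 3 = c + 1 from rfl, s6d] at h4
    have h5 := neg_eq_zero.mp h4.symm
    exact two_mul_zero h2 (h3.symm.trans h5)
  -- class c again
  have s10' : y (c + (c + 4) * 1) = 0 := by
    have h3 := B2 0 (by omega)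
    rw [s20, s9b, Finset.sum_eq_zero, sub_zero] at h3
    · exact h3
    · intro l hl
      rw [Finset.mem_Ico] at hl
      exact s6f _ (0 + 1 + l) rfl (by omega) (by omega)
  -- all
  intro s hs i hi
  rcases Nat.lt_or_ge s c with hc | hc
  · rcases Nat.lt_or_ge i (m + 2) with h3 | h3
    · exact hS1 s hc i h3
    · have := s5 s hc (i - (m + 2)) (by omega)
      rwa [show i - (m + 2) + (m + 2) = i by omega] at this
  · obtain rfl | rfl | rfl | rfl : s = c ∨ s = c + 1 ∨ s = c + 2 ∨ s = c + 3 := by omega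
    · rcases Nat.lt_or_ge i 2 with h3 | h3
      · rcases Nat.lt_or_ge i 1 with h4 | h4
        · have : i = 0 := by omega
          rw [this]
          exact hS2
        · have : i = 1 := by omega
          rw [this]
          exact s10'
      · exact s6f _ i rfl h3 hi
    · rcases Nat.lt_or_ge i (2 * m + 4) with h3 | h3
      · exact s9c i h3
      · have : i = 2 * m + 4 := by omega
        rw [this]
        exact s9d
    · rcases Nat.lt_or_ge i (m + 2) with h3 | h3
      · exact s8 i h3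
      · rcases Nat.lt_or_ge i (2 * m + 4) with h4 | h4
        · have := s8a (i - (m + 2)) (by omega)
          rwa [show i - (m + 2) + (m + 2) = i by omega] at this
        · have : i = 2 * m + 4 := by omega
          rw [this]
          exact hS5
    · rcases Nat.lt_or_ge i (m + 2) with h3 | h3
      · exact s7 i h3
      · rcases Nat.lt_or_ge i (2 * m + 4) with h4 | h4
        · have := s4 (i - (m + 2)) (by omega)
          rwa [show i - (m + 2) + (m + 2) = i by omega] at this
        · have : i = 2 * m + 4 := by omega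
          rw [this]
          exact hS7

/-! ### The case `g = 3` -/

def S3 (m : ℕ) : Finset ℕ :=
  ((range (2 * m + 4)).image fun i => 0 + 3 * i) ∪ {1 + 3 * (2 * m + 4), 2 + 3 * (2 * m + 4)}

theorem card_S3 (m : ℕ) : (S3 m).card < 3 * (m + 2) + 1 := by
  have h1 : ((range (2 * m + 4)).image fun i => 0 + 3 * i).card ≤ 2 * m + 4 := by
    refine Finset.card_image_le.trans ?_
    rw [Finset.card_range]
  have h2 : ({1 + 3 * (2 * m + 4), 2 + 3 * (2 * m + 4)} : Finset ℕ).card ≤ 2 := Finset.card_le_two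
  have h3 := Finset.card_union_le ((range (2 * m + 4)).image fun i => 0 + 3 * i)
    ({1 + 3 * (2 * m + 4), 2 + 3 * (2 * m + 4)} : Finset ℕ)
  unfold S3
  omega

theorem main3 (h2 : (2 : k) ≠ 0) (m : ℕ) (y w₀ w₁ lam : ℕ → k)
    (hS : ∀ s ∈ S3 m, y s = 0) (h : RelB3 3 (m + 3) y w₀ w₁ lam) :
    ∀ s < 3, ∀ i < 2 * m + 5, y (s + 3 * i) = 0 := by
  have hS1 : ∀ i < 2 * m + 4, y (0 + 3 * i) = 0 := by
    intro i hi
    refine hS _ ?_
    unfold S3
    refine Finset.mem_union_left _ ?_
    exact Finset.mem_image.mpr ⟨i, by simp [hi], rfl⟩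
  have hS2 : y (1 + 3 * (2 * m + 4)) = 0 := by
    refine hS _ ?_
    unfold S3
    exact Finset.mem_union_right _ (by simp)
  have hS3 : y (2 + 3 * (2 * m + 4)) = 0 := by
    refine hS _ ?_
    unfold S3
    exact Finset.mem_union_right _ (by simp)
  clear hS
  -- the relations
  have A1 : ∀ i < m + 2, 2 * y (2 + 3 * (i + (m + 2))) = sB3 (m + 3) w₀ w₁ lam 1 0 i := by
    intro i hi
    have := h.a1 i hi 0 (by omega)
    rw [← this]
    congr 2
    have e : m + 3 - 1 = m + 2 := rfl
    rw [e]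
    ring
  have A2 : ∀ i < m + 2, 2 * y (1 + 3 * (i + (m + 2))) = sB3 (m + 3) w₀ w₁ lam 2 0 i := by
    intro i hi
    have := h.a2 i hi 0 (by omega)
    rw [← this]
    congr 2
    have e : m + 3 - 1 = m + 2 := rfl
    rw [e]
    ring
  have B0 : ∀ i < m + 3, ∑ l ∈ range (m + 2), y (1 + 3 * (i + l)) =
      sB3 (m + 3) w₀ w₁ lam 0 1 i := by
    intro i hi
    have := h.b0 i hi
    rw [show 3 - 2 = 1 from rfl] at this
    rw [← this]
    refine Finset.sum_congr rfl fun l _ => ?_
    congr 1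
    ring
  have B2 : ∀ i < m + 2, y (2 + 3 * i) - ∑ l ∈ Ico 1 (m + 2), y (2 + 3 * (i + l)) =
      sB3 (m + 3) w₀ w₁ lam 2 1 i := by
    intro i hi
    have := h.b2 i hi
    rw [show 3 - 2 = 1 from rfl] at this
    rw [← this]
    congr 1
    · congr 1
      ring
    · refine Finset.sum_congr rfl fun l _ => ?_
      congr 1
      ring
  have C0 : ∀ i < m + 3, ∑ l ∈ range (m + 2), y (2 + 3 * (i + l)) =
      sB3 (m + 3) w₀ w₁ lam 0 2 i := by
    intro i hi
    have := h.c0 i hi
    rw [show 3 - 1 = 2 from rfl] at this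
    rw [← this]
    refine Finset.sum_congr rfl fun l _ => ?_
    congr 1
    ring
  have C1 : ∀ i < m + 2, ∑ l ∈ range (m + 2), y (1 + 3 * (i + 1 + l)) =
      sB3 (m + 3) w₀ w₁ lam 1 2 i := by
    intro i hi
    have := h.c1 i hi
    rw [show 3 - 1 = 2 from rfl] at this
    rw [← this]
    refine Finset.sum_congr rfl fun l _ => ?_
    congr 1
    ring
  have D : ∑ i ∈ range (m + 2), ∑ l ∈ range (m + 2),
      (if i + l + 1 < m + 3 then 1 else -1) * y (0 + 3 * (i + l + 1)) = 0 := by
    refine Finset.sum_eq_zero fun i hi => Finset.sum_eq_zero fun l hl => ?_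
    rw [Finset.mem_range] at hi hl
    rw [hS1 _ (by omega), mul_zero]
  have D1 : w₁ 1 = w₀ 1 := by
    rw [← sub_zero (w₀ 1), ← D]
    exact h.d1
  have D2 : w₁ 2 = 0 := by
    rw [← D]
    exact h.d2
  have t2 : ∑ l ∈ range (m + 2), y (1 + 3 * (m + 2 + l)) = 0 := by
    have h3 := C1 (m + 1) (by omega)
    rw [s1l _ _ _ _ _ (by omega) (by omega), D2, neg_zero] at h3
    exact h3
  have t2' : w₀ 1 = 0 := by
    have h3 := B0 (m + 2) (by omega)
    rw [s0l _ _ _ _ _ (by omega) (by omega), t2] at h3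
    exact neg_eq_zero.mp h3.symm
  have t2'' : w₁ 1 = 0 := by rw [D1, t2']
  have t3 : ∀ i, i ≠ 0 → i < m + 2 → y (1 + 3 * (i + (m + 2))) = 0 := by
    intro i hi hi'
    have h3 := A2 i hi'
    rw [s2m _ _ _ _ _ hi] at h3
    exact two_mul_zero h2 h3
  have t3' : y (1 + 3 * (0 + (m + 2))) = 0 := by
    rw [Finset.sum_eq_single 0] at t2
    · rw [show m + 2 + 0 = 0 + (m + 2) by ring] at t2
      exact t2
    · intro l hl hl0
      rw [Finset.mem_range] at hl
      rw [show m + 2 + l = l + (m + 2) by ring]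
      exact t3 l hl0 hl
    · intro hl
      exact absurd (Finset.mem_range.mpr (by omega)) hl
  have t3'' : w₁ 0 = 0 := by
    have h3 := A2 0 (by omega)
    rw [s20, t3', mul_zero] at h3
    exact h3.symm
  have t3a : ∀ i < m + 2, y (1 + 3 * (i + (m + 2))) = 0 := by
    intro i hi
    by_cases h3 : i = 0
    · rw [h3]
      exact t3'
    · exact t3 i h3 hi
  have t4 : ∀ i, i ≠ 0 → i < m + 2 → y (2 + 3 * (i + (m + 2))) = 0 := by
    intro i hi hi'
    have h3 := A1 i hi'
    by_cases h4 : i + 2 = m + 3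
    · rw [s1l _ _ _ _ _ hi h4, t3'', neg_zero] at h3
      exact two_mul_zero h2 h3
    · rw [s1m _ _ _ _ _ hi h4] at h3
      exact two_mul_zero h2 h3
  have B2' : ∀ i < m + 2, y (2 + 3 * i) = ∑ l ∈ Ico 1 (m + 2), y (2 + 3 * (i + l)) := by
    intro i hi
    have h3 := B2 i hi
    have h4 : sB3 (m + 3) w₀ w₁ lam 2 1 i = 0 := by
      by_cases h5 : i = 0
      · rw [h5, s20, t2'']
      · exact s2m _ _ _ _ _ h5
    rw [h4, sub_eq_zero] at h3
    exact h3
  have t5 : ∀ i < m + 2, 2 * y (2 + 3 * i) = sB3 (m + 3) w₀ w₁ lam 0 2 i := by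
    intro i hi
    rw [← C0 i (by omega), Finset.range_eq_Ico, Finset.sum_eq_sum_Ico_succ_bot (by omega), add_zero,
      ← B2' i hi]
    ring
  have t5a : ∀ i, 2 ≤ i → i < m + 2 → y (2 + 3 * i) = 0 := by
    intro i hi hi'
    have h3 := t5 i hi'
    rw [s0m _ _ _ _ _ hi (by omega)] at h3
    exact two_mul_zero h2 h3
  have t5b : y (2 + 3 * 0) = y (2 + 3 * 1) := by
    rw [B2' 0 (by omega), sum_Ico_first (fun l => y (2 + 3 * (0 + l))) m (by
      intro l hl hl'
      rw [show 0 + l = l by ring]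
      exact t5a l hl hl')]
  have t5c : y (2 + 3 * 0) = 0 := by
    have h3 := t5 0 (by omega)
    have h4 := t5 1 (by omega)
    rw [s00] at h3
    rw [s01, ← h3, ← t5b] at h4
    have h5 : 2 * (2 * y (2 + 3 * 0)) = 0 := by linear_combination h4
    exact two_mul_zero h2 (two_mul_zero h2 h5)
  have t5d : lam 2 = 0 := by
    have h3 := t5 0 (by omega)
    rw [s00, t5c, mul_zero] at h3
    exact h3.symm
  have t5e : ∀ i < m + 2, y (2 + 3 * i) = 0 := by
    intro i hi
    rcases Nat.lt_or_ge i 2 with h5 | h5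
    · rcases Nat.lt_or_ge i 1 with h6 | h6
      · have : i = 0 := by omega
        rw [this]
        exact t5c
      · have : i = 1 := by omega
        rw [this, ← t5b]
        exact t5c
    · exact t5a i h5 hi
  have t6 : y (2 + 3 * (0 + (m + 2))) = 0 := by
    have h3 := B2' (m + 1) (by omega)
    rw [t5e (m + 1) (by omega), sum_Ico_first (fun l => y (2 + 3 * (m + 1 + l))) m (by
      intro l hl hl'
      have := t4 (l - 1) (by omega) (by omega)
      rw [← this]
      congr 3
      omega)] at h3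
    rw [show 0 + (m + 2) = m + 1 + 1 by ring]
    exact h3.symm
  have t6a : ∀ i < m + 2, y (2 + 3 * (i + (m + 2))) = 0 := by
    intro i hi
    by_cases h3 : i = 0
    · rw [h3]
      exact t6
    · exact t4 i h3 hi
  have t6b : w₀ 0 = 0 := by
    have h3 := A1 0 (by omega)
    rw [s10, t6, mul_zero] at h3
    exact h3.symm
  have t6c : w₀ 2 = 0 := by
    have h3 := C0 (m + 2) (by omega)
    rw [s0l _ _ _ _ _ (by omega) (by omega), Finset.sum_eq_zero] at h3
    · exact neg_eq_zero.mp h3.symm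
    · intro l hl
      rw [Finset.mem_range] at hl
      rw [show m + 2 + l = l + (m + 2) by ring]
      exact t6a l hl
  have t7a : lam 1 = 0 := by
    have h3 := C1 0 (by omega)
    rw [s10, t6c] at h3
    have h4 := B0 1 (by omega)
    rw [s01] at h4
    rw [show 0 + 1 = 1 from rfl, h4] at h3
    exact neg_eq_zero.mp h3
  have t7b : ∀ i < m + 3, sB3 (m + 3) w₀ w₁ lam 0 1 i = 0 := by
    intro i hi
    rcases Nat.lt_or_ge i 2 with h5 | h5
    · rcases Nat.lt_or_ge i 1 with h6 | h6
      · have : i = 0 := by omega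
        rw [this, s00, t7a]
      · have : i = 1 := by omega
        rw [this, s01, t7a, neg_zero]
    · by_cases h6 : i + 1 = m + 3
      · rw [s0l _ _ _ _ _ h5 h6, t2', neg_zero]
      · exact s0m _ _ _ _ _ h5 h6
  have t7 : ∀ i < m + 2, y (1 + 3 * i) = 0 := by
    refine windows (fun i => y (1 + 3 * i)) (m + 2) ?_ t3a
    intro i hi
    rw [B0 i hi]
    exact t7b i hi
  have t8 : y (0 + 3 * (2 * m + 4)) = 0 := by
    have h3 := d0_eval (fun i => y (0 + 3 * i)) m hS1
    beta_reduce at h3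
    have h4 := h.d0
    rw [show 3 - 3 = 0 from rfl, t6b] at h4
    have h5 := neg_eq_zero.mp h4.symm
    exact two_mul_zero h2 (h3.symm.trans h5)
  intro s hs i hi
  obtain rfl | rfl | rfl : s = 0 ∨ s = 1 ∨ s = 2 := by omega
  · rcases Nat.lt_or_ge i (2 * m + 4) with h3 | h3
    · exact hS1 i h3
    · have : i = 2 * m + 4 := by omega
      rw [this]
      exact t8
  · rcases Nat.lt_or_ge i (m + 2) with h3 | h3
    · exact t7 i h3
    · rcases Nat.lt_or_ge i (2 * m + 4) with h4 | h4
      · have := t3a (i - (m + 2)) (by omega)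
        rwa [show i - (m + 2) + (m + 2) = i by omega] at this
      · have : i = 2 * m + 4 := by omega
        rw [this]
        exact hS2
  · rcases Nat.lt_or_ge i (m + 2) with h3 | h3
    · exact t5e i h3
    · rcases Nat.lt_or_ge i (2 * m + 4) with h4 | h4
      · have := t6a (i - (m + 2)) (by omega)
        rwa [show i - (m + 2) + (m + 2) = i by omega] at this
      · have : i = 2 * m + 4 := by omega
        rw [this]
        exact hS3

theorem t (k : Type*) [Field k] : StmLB3 k := by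
  intro h2 g κ hg hκ
  obtain ⟨m, rfl⟩ : ∃ m, κ = m + 3 := ⟨κ - 3, by omega⟩
  have hfin : ∀ y : ℕ → k, (∀ s < g, ∀ i < 2 * m + 5, y (s + g * i) = 0) →
      ∀ v, v < g * (2 * (m + 3) - 1) → y v = 0 := by
    intro y hy v hv
    have h3 := hy (v % g) (Nat.mod_lt _ (by omega)) (v / g) (by
      rw [Nat.div_lt_iff_lt_mul (by omega)]
      have e : 2 * (m + 3) - 1 = 2 * m + 5 := by omega
      rw [e, mul_comm] at hv
      exact hv)
    rwa [Nat.mod_add_div] at h3
  rcases Nat.eq_or_lt_of_le hg with h3 | h3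
  · subst h3
    refine ⟨S3 m, card_S3 m, fun y w₀ w₁ lam hS h => ?_⟩
    exact hfin y (main3 h2 m y w₀ w₁ lam hS h)
  · obtain ⟨c, rfl⟩ : ∃ c, g = c + 4 := ⟨g - 4, by omega⟩
    refine ⟨S4 c m, card_S4 c m, fun y w₀ w₁ lam hS h => ?_⟩
    exact hfin y (main4 h2 c m y w₀ w₁ lam hS h)

end Pool.Agent.N729.HQ.LB3
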