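import Pool.Agent.N729.HQ.Stm

/-!
Project HQ (helper729), part LK: one more nonzero variable, which occurs once or twice (helper702).
-/

set_option autoImplicit false

namespace Pool.Agent.N729.HQ.LK

open Finset
open Pool.Agent.N186.HK (pm pm_nil pm_cons)
open Pool.Agent.N729.HP

section

variable {D : Type*} [CommRing D]

/-- permanents of submatrices of a matrix -/
def pmM (M : ℕ → ℕ → D) : Finset ℕ → List ℕ → D
  | _, [] => 1
  | J, c :: L => ∑ j ∈ J, M j c * pmM M (J.erase j) L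

theorem pmM_nil (M : ℕ → ℕ → D) (J : Finset ℕ) : pmM M J [] = 1 := by
  unfold pmM; rfl

theorem pmM_cons (M : ℕ → ℕ → D) (J : Finset ℕ) (c : ℕ) (L : List ℕ) :
    pmM M J (c :: L) = ∑ j ∈ J, M j c * pmM M (J.erase j) L := by
  rw [pmM]

theorem pm_eq (x : ℕ → D) (L : List ℕ) : ∀ J : Finset ℕ, pm x J L = pmM (fun j c => x (j + c)) J L := by
  induction L with
  | nil => intro J; rw [pm_nil, pmM_nil]
  | cons c L ih =>
    intro J
    rw [pm_cons, pmM_cons]
    exact sum_congr rfl fun j _ => by rw [ih]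

theorem pmM_congr {M M' : ℕ → ℕ → D} (L : List ℕ) :
    ∀ J : Finset ℕ, (∀ j ∈ J, ∀ c ∈ L, M j c = M' j c) → pmM M J L = pmM M' J L := by
  induction L with
  | nil => intro J _; rw [pmM_nil, pmM_nil]
  | cons c L ih =>
    intro J h
    rw [pmM_cons, pmM_cons]
    refine sum_congr rfl fun j hj => ?_
    rw [h j hj c List.mem_cons_self, ih (J.erase j) fun i hi d hd =>
      h i (mem_of_mem_erase hi) d (List.mem_cons_of_mem _ hd)]

/-- one entry is changed -/
def upd (M : ℕ → ℕ → D) (j₀ c₀ : ℕ) (δ : D) (j c : ℕ) : D :=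
  if j = j₀ ∧ c = c₀ then M j c + δ else M j c

theorem resum (M : ℕ → ℕ → D) (δ : D) (j₀ c : ℕ) (L : List ℕ) (P : Prop) [Decidable P] (J : Finset ℕ) :
    ∑ j ∈ J, M j c * (if j₀ ∈ J.erase j ∧ P then δ * pmM M ((J.erase j).erase j₀) L else 0) =
      if j₀ ∈ J ∧ P then δ * pmM M (J.erase j₀) (c :: L) else 0 := by
  by_cases h : j₀ ∈ J ∧ P
  · rw [if_pos h, pmM_cons, mul_sum, ← add_sum_erase J _ h.1, if_neg (fun h' => (notMem_erase j₀ J) h'.1),
      mul_zero, zero_add]
    refine sum_congr rfl fun j hj => ?_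
    have hj' : j₀ ∈ J.erase j := mem_erase.2 ⟨(ne_of_mem_erase hj).symm, h.1⟩
    rw [if_pos ⟨hj', h.2⟩, erase_right_comm]
    ring
  · rw [if_neg h]
    refine sum_eq_zero fun j _ => ?_
    rw [if_neg (fun h' => h ⟨mem_of_mem_erase h'.1, h'.2⟩), mul_zero]

theorem pmM_upd (M : ℕ → ℕ → D) (j₀ c₀ : ℕ) (δ : D) (L : List ℕ) : L.Nodup → ∀ J : Finset ℕ,
    pmM (upd M j₀ c₀ δ) J L = pmM M J L +
      if j₀ ∈ J ∧ c₀ ∈ L then δ * pmM M (J.erase j₀) (L.erase c₀) else 0 := by
  induction L with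
  | nil =>
    intro _ J
    rw [pmM_nil, pmM_nil, if_neg (fun h => List.not_mem_nil h.2), add_zero]
  | cons c L ih =>
    intro hn J
    have hn' := (List.nodup_cons.1 hn).2
    have hc := (List.nodup_cons.1 hn).1
    rw [pmM_cons, pmM_cons]
    by_cases e : c = c₀
    · subst e
      have h1 : ∀ j, pmM (upd M j₀ c δ) (J.erase j) L = pmM M (J.erase j) L := by
        intro j
        rw [ih hn' (J.erase j), if_neg (fun h => hc h.2), add_zero]
      simp only [h1, List.mem_cons_self, and_true, List.erase_cons_head]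
      by_cases hj : j₀ ∈ J
      · rw [if_pos hj, ← add_sum_erase J _ hj, ← add_sum_erase J (fun j => M j c * pmM M (J.erase j) L) hj]
        have h2 : ∑ j ∈ J.erase j₀, upd M j₀ c δ j c * pmM M (J.erase j) L =
            ∑ j ∈ J.erase j₀, M j c * pmM M (J.erase j) L := by
          refine sum_congr rfl fun j hj' => ?_
          unfold upd
          rw [if_neg (fun h => (ne_of_mem_erase hj') h.1)]
        rw [h2]
        unfold upd
        rw [if_pos ⟨rfl, rfl⟩]
        ring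
      · rw [if_neg hj, add_zero]
        refine sum_congr rfl fun j hj' => ?_
        unfold upd
        rw [if_neg (fun h : j = j₀ ∧ c = c => hj (h.1 ▸ hj'))]
    · have h1 : ∀ j, upd M j₀ c₀ δ j c = M j c := by
        intro j
        unfold upd
        rw [if_neg (fun h => e h.2)]
      have h2 : (c₀ ∈ c :: L) ↔ c₀ ∈ L := by
        rw [List.mem_cons]
        exact ⟨fun h => h.resolve_left (fun h' => e h'.symm), Or.inr⟩
      have h3 : (c :: L).erase c₀ = c :: L.erase c₀ := by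
        rw [List.erase_cons_tail]
        simpa using e
      simp only [h1, ih hn', mul_add, sum_add_distrib]
      rw [resum, h3]
      simp only [h2]

theorem pm1 (x x' : ℕ → D) (z j₀ c₀ : ℕ) (h0 : j₀ + c₀ = z) (hx : ∀ v, v ≠ z → x' v = x v)
    (J : Finset ℕ) (L : List ℕ) (hL : L.Nodup) (h : ∀ j ∈ J, ∀ c ∈ L, j + c = z → j = j₀ ∧ c = c₀) :
    pm x' J L = pm x J L + if j₀ ∈ J ∧ c₀ ∈ L then
      (x' z - x z) * pm x (J.erase j₀) (L.erase c₀) else 0 := by
  rw [pm_eq, pm_eq, pm_eq, ← pmM_upd (fun j c => x (j + c)) j₀ c₀ (x' z - x z) L hL J]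
  refine pmM_congr L J fun j hj c hc => ?_
  unfold upd
  beta_reduce
  by_cases e : j + c = z
  · obtain ⟨rfl, rfl⟩ := h j hj c hc e
    rw [if_pos ⟨rfl, rfl⟩, e]
    ring
  · rw [if_neg (fun h' => e (by rw [h'.1, h'.2, h0])), hx _ e]

theorem pm2 (x x' : ℕ → D) (z j₀ c₀ j₁ c₁ : ℕ) (h0 : j₀ + c₀ = z) (h1 : j₁ + c₁ = z) (hc : c₀ ≠ c₁)
    (hx : ∀ v, v ≠ z → x' v = x v) (J : Finset ℕ) (L : List ℕ) (hL : L.Nodup)
    (h : ∀ j ∈ J, ∀ c ∈ L, j + c = z → (j = j₀ ∧ c = c₀) ∨ (j = j₁ ∧ c = c₁)) :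
    pm x' J L = pm x J L +
      (if j₀ ∈ J ∧ c₀ ∈ L then (x' z - x z) * pm x (J.erase j₀) (L.erase c₀) else 0) +
      (if j₁ ∈ J ∧ c₁ ∈ L then (x' z - x z) * pm x (J.erase j₁) (L.erase c₁) else 0) +
      (if (j₀ ∈ J ∧ c₀ ∈ L) ∧ (j₁ ∈ J ∧ c₁ ∈ L) then (x' z - x z) ^ 2 *
        pm x ((J.erase j₀).erase j₁) ((L.erase c₀).erase c₁) else 0) := by
  have hj : j₀ ≠ j₁ := by
    rintro rfl
    exact hc (by omega)
  have e1 : pm x' J L = pmM (upd (upd (fun j c => x (j + c)) j₀ c₀ (x' z - x z)) j₁ c₁ (x' z - x z)) J L := by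
    rw [pm_eq]
    refine pmM_congr L J fun j hj' c hc' => ?_
    unfold upd
    beta_reduce
    by_cases e : j + c = z
    · rcases h j hj' c hc' e with ⟨rfl, rfl⟩ | ⟨rfl, rfl⟩
      · rw [if_neg (fun h' => hj h'.1), if_pos ⟨rfl, rfl⟩, e]
        ring
      · rw [if_pos ⟨rfl, rfl⟩, if_neg (fun h' => hj h'.1.symm), e]
        ring
    · rw [if_neg (fun h' => e (by rw [h'.1, h'.2, h1])), if_neg (fun h' => e (by rw [h'.1, h'.2, h0])), hx _ e]
  rw [e1, pmM_upd _ j₁ c₁ _ L hL J, pmM_upd _ j₀ c₀ _ L hL J, pmM_upd _ j₀ c₀ _ (L.erase c₁) (hL.erase c₁) (J.erase j₁)]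
  have m1 : j₀ ∈ J.erase j₁ ↔ j₀ ∈ J := by
    rw [mem_erase]
    exact ⟨fun h => h.2, fun h => ⟨hj, h⟩⟩
  have m2 : c₀ ∈ L.erase c₁ ↔ c₀ ∈ L := List.mem_erase_of_ne hc
  simp only [m1, m2]
  rw [pm_eq, pm_eq, pm_eq, pm_eq, erase_right_comm (a := j₀), List.erase_comm c₀ c₁]
  by_cases a : j₀ ∈ J ∧ c₀ ∈ L
  · by_cases b : j₁ ∈ J ∧ c₁ ∈ L
    · rw [if_pos a, if_pos b, if_pos a, if_pos b, if_pos ⟨a, b⟩]
      ring
    · rw [if_pos a, if_neg b, if_neg b, if_neg (fun h => b h.2)]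
      ring
  · by_cases b : j₁ ∈ J ∧ c₁ ∈ L
    · rw [if_neg a, if_pos b, if_neg a, if_pos b, if_neg (fun h => a h.1)]
      ring
    · rw [if_neg a, if_neg b, if_neg b, if_neg (fun h => a h.1)]
      ring

/-- the coefficients -/
theorem coeffs (x y : ℕ → D) (L : List ℕ) : ∀ J : Finset ℕ,
    (pm (fun s => Polynomial.C (x s) + Polynomial.X * Polynomial.C (y s)) J L).coeff 0 = pm x J L ∧
    (pm (fun s => Polynomial.C (x s) + Polynomial.X * Polynomial.C (y s)) J L).coeff 1 = pd x y J L ∧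
    (pm (fun s => Polynomial.C (x s) + Polynomial.X * Polynomial.C (y s)) J L).coeff 2 = pq x y J L := by
  induction L with
  | nil =>
    intro J
    rw [pm_nil, pm_nil, pd, pq]
    refine ⟨by simp, by simp [Polynomial.coeff_one], by simp [Polynomial.coeff_one]⟩
  | cons c L ih =>
    intro J
    rw [pm_cons, pm_cons, pd, pq]
    have e : ∀ (a b : D) (p : Polynomial D), (Polynomial.C a + Polynomial.X * Polynomial.C b) * p =
        Polynomial.C a * p + Polynomial.X * (Polynomial.C b * p) := fun a b p => by ring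
    refine ⟨?_, ?_, ?_⟩
    · rw [Polynomial.finsetSum_coeff]
      refine sum_congr rfl fun j _ => ?_
      rw [e, Polynomial.coeff_add, Polynomial.coeff_C_mul, Polynomial.coeff_X_mul_zero, add_zero, (ih _).1]
    · rw [Polynomial.finsetSum_coeff]
      refine sum_congr rfl fun j _ => ?_
      rw [e, Polynomial.coeff_add, Polynomial.coeff_C_mul, Polynomial.coeff_X_mul, Polynomial.coeff_C_mul,
        (ih _).1, (ih _).2.1]
      ring
    · rw [Polynomial.finsetSum_coeff]
      refine sum_congr rfl fun j _ => ?_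
      rw [e, Polynomial.coeff_add, Polynomial.coeff_C_mul, Polynomial.coeff_X_mul, Polynomial.coeff_C_mul,
        (ih _).2.1, (ih _).2.2]
      ring

end

theorem t (D : Type*) [CommRing D] : StmLK D := by
  refine ⟨fun x x' y z j₀ c₀ h0 hx J L hL h => ?_, fun x x' y z j₀ c₀ j₁ c₁ h0 h1 hc hx J L hL h => ?_⟩
  · have k := pm1 (fun s => Polynomial.C (x s) + Polynomial.X * Polynomial.C (y s))
      (fun s => Polynomial.C (x' s) + Polynomial.X * Polynomial.C (y s)) z j₀ c₀ h0
      (fun v hv => by simp only [hx v hv]) J L hL h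
    have e : (Polynomial.C (x' z) + Polynomial.X * Polynomial.C (y z)) -
        (Polynomial.C (x z) + Polynomial.X * Polynomial.C (y z)) = Polynomial.C (x' z - x z) := by
      rw [Polynomial.C_sub]; ring
    simp only [e] at k
    refine ⟨pm1 x x' z j₀ c₀ h0 hx J L hL h, ?_, ?_⟩
    · rw [← (coeffs x' y L J).2.1, k, Polynomial.coeff_add, (coeffs x y L J).2.1]
      split_ifs
      · rw [Polynomial.coeff_C_mul, (coeffs x y _ _).2.1]
      · rw [Polynomial.coeff_zero]
    · rw [← (coeffs x' y L J).2.2, k, Polynomial.coeff_add, (coeffs x y L J).2.2]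
      split_ifs
      · rw [Polynomial.coeff_C_mul, (coeffs x y _ _).2.2]
      · rw [Polynomial.coeff_zero]
  · have k := pm2 (fun s => Polynomial.C (x s) + Polynomial.X * Polynomial.C (y s))
      (fun s => Polynomial.C (x' s) + Polynomial.X * Polynomial.C (y s)) z j₀ c₀ j₁ c₁ h0 h1 hc
      (fun v hv => by simp only [hx v hv]) J L hL h
    have e : (Polynomial.C (x' z) + Polynomial.X * Polynomial.C (y z)) -
        (Polynomial.C (x z) + Polynomial.X * Polynomial.C (y z)) = Polynomial.C (x' z - x z) := by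
      rw [Polynomial.C_sub]; ring
    simp only [e, ← Polynomial.C_pow] at k
    refine ⟨pm2 x x' z j₀ c₀ j₁ c₁ h0 h1 hc hx J L hL h, ?_⟩
    rw [← (coeffs x' y L J).2.1, k, Polynomial.coeff_add, Polynomial.coeff_add, Polynomial.coeff_add,
      (coeffs x y L J).2.1]
    congr 1
    · congr 1
      · congr 1
        split_ifs
        · rw [Polynomial.coeff_C_mul, (coeffs x y _ _).2.1]
        · rw [Polynomial.coeff_zero]
      · split_ifs
        · rw [Polynomial.coeff_C_mul, (coeffs x y _ _).2.1]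
        · rw [Polynomial.coeff_zero]
    · split_ifs
      · rw [Polynomial.coeff_C_mul, (coeffs x y _ _).2.1]
      · rw [Polynomial.coeff_zero]

end Pool.Agent.N729.HQ.LK
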