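import Pool.Agent.N729.HQ.Stm

/-!
Project HQ (helper729), part PB1 (helper8): the family `C = 1`, point and relations.
-/

set_option autoImplicit false

namespace Pool.Agent.N729.HQ.PB1

open Finset
open Pool.Agent.N186.HK (pm pm_nil pm_cons)
open Pool.Agent.N729.HP
open Pool.Agent.N729.HQ

/-! ### Elementary facts -/

lemma pm_shift {D : Type*} [CommRing D] (u : ℕ → D) (L : List ℕ) : ∀ J : Finset ℕ,
    pm u (J.image (fun l => l + 1)) L = pm (fun s => u (s + 1)) J L := by
  induction L with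
  | nil => intro J; rw [pm_nil, pm_nil]
  | cons c cs ih =>
    intro J
    rw [pm_cons, pm_cons, Finset.sum_image (fun a _ b _ h => Nat.succ_injective h)]
    refine Finset.sum_congr rfl fun i _ => ?_
    have e : (J.image (fun l => l + 1)).erase (i + 1) = (J.erase i).image (fun l => l + 1) := by
      ext a
      simp only [mem_erase, mem_image]
      constructor
      · rintro ⟨h1, b, h2, rfl⟩
        exact ⟨b, ⟨fun h => h1 (by rw [h]), h2⟩, rfl⟩
      · rintro ⟨b, ⟨h1, h2⟩, rfl⟩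
        exact ⟨fun h => h1 (Nat.succ_injective h), b, h2, rfl⟩
    rw [e, ih]
    show u (i + 1 + c) * _ = u (i + c + 1) * _
    rw [show i + 1 + c = i + c + 1 by omega]

lemma erase_zero (n : ℕ) : (range (n + 1)).erase 0 = (range n).image (fun l => l + 1) := by
  ext a
  simp only [mem_erase, mem_image, mem_range]
  constructor
  · rintro ⟨h1, h2⟩
    exact ⟨a - 1, by omega, by omega⟩
  · rintro ⟨b, h1, rfl⟩
    exact ⟨by omega, by omega⟩

lemma erase_erase (n l : ℕ) (hl : 1 ≤ l) : ((range (n + 1)).erase l).erase 0 =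
    ((range n).erase (l - 1)).image (fun l => l + 1) := by
  ext a
  simp only [mem_erase, mem_image, mem_range]
  constructor
  · rintro ⟨h1, h2, h3⟩
    exact ⟨a - 1, ⟨by omega, by omega⟩, by omega⟩
  · rintro ⟨b, ⟨h1, h2⟩, rfl⟩
    exact ⟨by omega, by omega, by omega⟩

/-- the short indices of the blocks -/
def LL (K ρ : ℕ) : List ℕ := if ρ ≤ 1 then List.range (K + 1) else List.range K

/-- the short indices of the blocks, without the row `0` -/
def LL' (K ρ : ℕ) : List ℕ := if ρ = 0 then (List.range (K + 1)).erase 0 else LL K ρ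

/-- the long indices of the blocks -/
def JJ (K r : ℕ) (A B C : Finset ℕ) (ρ : ℕ) : Finset ℕ :=
  if ρ = 0 then A else if ρ = 1 then B else if ρ = r then C else (range (K + 1)).erase 0

lemma JJ0 {K r : ℕ} {A B C : Finset ℕ} : JJ K r A B C 0 = A := if_pos rfl

lemma JJ1 {K r : ℕ} {A B C : Finset ℕ} : JJ K r A B C 1 = B := by
  unfold JJ
  rw [if_neg one_ne_zero, if_pos rfl]

lemma JJr {K r : ℕ} {A B C : Finset ℕ} (hr : 2 ≤ r) : JJ K r A B C r = C := by
  unfold JJ
  rw [if_neg (by omega), if_neg (by omega), if_pos rfl]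

lemma JJd {K r ρ : ℕ} {A B C : Finset ℕ} (h : 2 ≤ ρ) (h' : ρ ≠ r) :
    JJ K r A B C ρ = (range (K + 1)).erase 0 := by
  unfold JJ
  rw [if_neg (by omega), if_neg (by omega), if_neg h']

lemma LL0 {K : ℕ} : LL K 0 = List.range (K + 1) := if_pos (by omega)

lemma LL1 {K : ℕ} : LL K 1 = List.range (K + 1) := if_pos (by omega)

lemma LLd {K ρ : ℕ} (h : 2 ≤ ρ) : LL K ρ = List.range K := if_neg (by omega)

lemma LL'0 {K : ℕ} : LL' K 0 = (List.range (K + 1)).erase 0 := if_pos rfl

lemma LL'1 {K : ℕ} : LL' K 1 = List.range (K + 1) := by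
  unfold LL'
  rw [if_neg one_ne_zero, LL1]

lemma LL'd {K ρ : ℕ} (h : 2 ≤ ρ) : LL' K ρ = List.range K := by
  unfold LL'
  rw [if_neg (by omega), LLd h]

lemma LL_nodup (K ρ : ℕ) : (LL K ρ).Nodup := by
  unfold LL
  split_ifs <;> exact List.nodup_range

lemma LL'_nodup (K ρ : ℕ) : (LL' K ρ).Nodup := by
  unfold LL'
  split_ifs
  · exact List.nodup_range.erase _
  · exact LL_nodup K ρ

lemma shd {ρ : ℕ} (h : 2 ≤ ρ) : sh 1 ρ = 1 := if_neg (by omega)

lemma cc0 {g : ℕ} : cc g 1 0 = 1 := by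
  unfold cc
  rw [if_pos (by omega)]

lemma cc1 {g : ℕ} : cc g 1 1 = 0 := by
  unfold cc
  rw [if_pos (by omega)]

lemma ccd {g ρ : ℕ} (h : 2 ≤ ρ) : cc g 1 ρ = 1 + g - ρ := by
  unfold cc
  rw [if_neg (by omega)]

lemma LG_congr {g : ℕ} {Ls Ls' : ℕ → List ℕ} {A : List ℕ} (h : ∀ ρ ∈ A, Ls ρ = Ls' ρ) :
    LG g Ls A = LG g Ls' A := by
  unfold LG
  induction A with
  | nil => rfl
  | cons a A ih =>
    rw [List.flatMap_cons, List.flatMap_cons, h a List.mem_cons_self,
      ih (fun ρ hρ => h ρ (List.mem_cons_of_mem _ hρ))]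

lemma Lperm (hRD : StmRD) {g : ℕ} (K : ℕ) (hg : 3 ≤ g) :
    (List.range (g * K + 2)).Perm (LG g (LL K) (List.range g)) := by
  have h := hRD.2.1 g (g * K + 2) (by omega)
  have e : LG g (fun ρ => List.range ((g * K + 2 + g - 1 - ρ) / g)) (List.range g) =
      LG g (LL K) (List.range g) := by
    apply LG_congr
    intro ρ hρ
    have hρ' := List.mem_range.1 hρ
    have e1 : (K + 1) * g = g * K + g := by ring
    have e2 : (K + 1 + 1) * g = g * K + g + g := by ring
    have e3 : K * g = g * K := by ring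
    show List.range _ = LL K ρ
    unfold LL
    split_ifs with h1
    · congr 1
      refine Nat.div_eq_of_lt_le ?_ ?_
      · rw [e1]; omega
      · rw [e2]; omega
    · congr 1
      refine Nat.div_eq_of_lt_le ?_ ?_
      · rw [e3]; omega
      · rw [e1]; omega
  rw [e] at h
  exact h

lemma L'perm (hRD : StmRD) {g : ℕ} (K : ℕ) (hg : 3 ≤ g) :
    ((List.range (g * K + 2)).erase 0).Perm (LG g (LL' K) (List.range g)) := by
  have h1 := (Lperm hRD K hg).erase 0
  have h2 := hRD.2.2.2 g (LL K) (LL' K) 0 0 (List.range g) (fun ρ hρ => List.mem_range.1 hρ)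
    List.nodup_range (List.mem_range.2 (by omega)) (fun ρ _ => LL_nodup K ρ)
    (by rw [LL'0, LL0]) (fun ρ hρ => by unfold LL'; rw [if_neg hρ])
  rw [show 0 + g * 0 = 0 by omega] at h2
  exact h1.trans h2

lemma mem_JG {g c : ℕ} {Js : ℕ → Finset ℕ} {A : List ℕ} {j : ℕ} :
    j ∈ JG g c Js A ↔ ∃ ρ ∈ A, ∃ l ∈ Js ρ, cc g c ρ + g * l = j := by
  unfold JG
  simp only [Finset.mem_biUnion, Finset.mem_image, List.mem_toFinset]

lemma zero_mem {g K r : ℕ} (hg : 3 ≤ g) {A B C : Finset ℕ} :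
    0 ∈ JG g 1 (JJ K r A B C) (List.range g) ↔ 0 ∈ B := by
  rw [mem_JG]
  constructor
  · rintro ⟨ρ, hρ, l, hl, h⟩
    rw [List.mem_range] at hρ
    have hρ1 : ρ = 1 := by
      unfold cc at h
      split_ifs at h <;> omega
    have hl0 : l = 0 := by
      rw [hρ1, cc1, zero_add] at h
      rcases Nat.mul_eq_zero.1 h with h' | h'
      · omega
      · exact h'
    rw [hρ1, JJ1, hl0] at hl
    exact hl
  · intro h
    refine ⟨1, List.mem_range.2 (by omega), 0, ?_, ?_⟩
    · rw [JJ1]; exact h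
    · rw [cc1]; omega

lemma J_erase (hRD : StmRD) {g K r : ℕ} (hg : 3 ≤ g) (A B C : Finset ℕ) :
    (JG g 1 (JJ K r A B C) (List.range g)).erase 0 =
      JG g 1 (JJ K r A (B.erase 0) C) (List.range g) := by
  have h := hRD.2.2.1 g 1 (JJ K r A B C) (JJ K r A (B.erase 0) C) 1 0 (List.range g) (by omega)
    (fun ρ hρ => List.mem_range.1 hρ) List.nodup_range (List.mem_range.2 (by omega))
    (by rw [JJ1, JJ1]) (fun ρ hρ => by unfold JJ; rw [if_neg hρ, if_neg hρ])
  rw [cc1, show 0 + g * 0 = 0 by omega] at h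
  exact h

lemma card_JG {k : Type*} [Field k] {g c : ℕ} (hc : c < g) (Js : ℕ → Finset ℕ) :
    (JG g c Js (List.range g)).card = ∑ ρ ∈ range g, (Js ρ).card := by
  have h := (ra k g c (fun _ => 0) hc Js (fun _ => []) (List.range g) []
    (by rw [List.append_nil]; exact List.nodup_range)
    (by rw [List.append_nil]; exact fun ρ hρ => List.mem_range.1 hρ)).2.2.2.1
  rw [List.toFinset_range] at h
  exact h

lemma sum_card {g K r : ℕ} (hr : 2 ≤ r) (hrg : r < g) {A B C : Finset ℕ}
    (hcard : A.card + B.card + C.card = 3 * K + 2) :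
    ∑ ρ ∈ range g, (JJ K r A B C ρ).card = g * K + 2 := by
  have h1 : ∀ ρ ∈ range g, ((JJ K r A B C ρ).card : ℤ) = K + (if ρ = 0 then (A.card : ℤ) - K else 0)
      + (if ρ = 1 then (B.card : ℤ) - K else 0) + (if ρ = r then (C.card : ℤ) - K else 0) := by
    intro ρ _
    have hcd : ((range (K + 1)).erase 0).card = K := by
      rw [card_erase_of_mem (mem_range.2 (by omega)), card_range]
      omega
    unfold JJ
    split_ifs <;> omega
  have h2 : (∑ ρ ∈ range g, ((JJ K r A B C ρ).card : ℤ)) = g * K + 2 := by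
    rw [sum_congr rfl h1, sum_add_distrib, sum_add_distrib, sum_add_distrib, sum_const,
      card_range, sum_ite_eq', sum_ite_eq', sum_ite_eq', if_pos (mem_range.2 (by omega)),
      if_pos (mem_range.2 (by omega)), if_pos (mem_range.2 hrg), nsmul_eq_mul]
    have h3 : (A.card : ℤ) + B.card + C.card = 3 * K + 2 := by exact_mod_cast hcard
    linarith
  exact_mod_cast h2

lemma JJ_lt {g K r : ℕ} {A B C : Finset ℕ} (_hg : 3 ≤ g) (hA : ∀ l ∈ A, l < K + 1)
    (hB : ∀ l ∈ B, l < K + 2) (hC : ∀ l ∈ C, l < K + 1) :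
    ∀ j ∈ JG g 1 (JJ K r A B C) (List.range g), j < g * (K + 1) + 1 := by
  intro j hj
  obtain ⟨ρ, hρ, l, hl, rfl⟩ := mem_JG.1 hj
  rw [List.mem_range] at hρ
  by_cases h1 : ρ = 1
  · rw [h1, JJ1] at hl
    have := hB l hl
    rw [h1, cc1]
    have h3 : g * l ≤ g * (K + 1) := Nat.mul_le_mul_left g (by omega)
    omega
  · have hl' : l < K + 1 := by
      unfold JJ at hl
      split_ifs at hl with a1 a2
      · exact hA l hl
      · exact hC l hl
      · exact mem_range.1 (mem_of_mem_erase hl)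
    have h3 : g * (l + 1) ≤ g * (K + 1) := Nat.mul_le_mul_left g (by omega)
    rw [Nat.mul_add, Nat.mul_one] at h3
    unfold cc
    split_ifs <;> omega

theorem key {k : Type*} [Field k] (hLK : StmLK k) (hRD : StmRD) {g K r : ℕ} (hg : 3 ≤ g)
    (hr : 2 ≤ r) (hrg : r < g) {y : ℕ → k}
    (hy : Tt (g * (K + 1) + 1) (g * K + 2) (qB1 k g (K + 1)) y) {A B C : Finset ℕ}
    (hcard : A.card + B.card + C.card = 3 * K + 2) (hA : ∀ l ∈ A, l < K + 1)
    (hB : ∀ l ∈ B, l < K + 2) (hC : ∀ l ∈ C, l < K + 1) :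
    pd (cst g 1 (uX k (K + 1))) y (JG g 1 (JJ K r A B C) (List.range g))
        (LG g (LL K) (List.range g)) +
      (if 0 ∈ B then pd (cst g 1 (uX k (K + 1))) y
        (JG g 1 (JJ K r A (B.erase 0) C) (List.range g)) (LG g (LL' K) (List.range g)) else 0) =
      0 := by
  have hJc : (JG g 1 (JJ K r A B C) (List.range g)).card = g * K + 2 := by
    rw [card_JG (k := k) (by omega), sum_card hr hrg hcard]
  have h := hy _ hJc (JJ_lt hg hA hB hC)
  have hlk := (hLK.1 (cst g 1 (uX k (K + 1))) (qB1 k g (K + 1)) y 0 0 0 rfl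
    (fun v hv => if_neg hv) (JG g 1 (JJ K r A B C) (List.range g)) (List.range (g * K + 2))
    List.nodup_range (fun j _ c _ hjc => ⟨by omega, by omega⟩)).2.1
  rw [hlk] at h
  have e1 : qB1 k g (K + 1) 0 - cst g 1 (uX k (K + 1)) 0 = 1 := by
    have e2 : qB1 k g (K + 1) 0 = 1 := if_pos rfl
    have e3 : cst g 1 (uX k (K + 1)) 0 = 0 := by
      unfold cst
      rw [Nat.zero_mod, if_neg (by omega)]
    rw [e2, e3, sub_zero]
  rw [e1, one_mul, J_erase hRD hg, (BA.ta k).2.1 _ _ _ _ (Lperm hRD K hg),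
    (BA.ta k).2.1 _ _ _ _ (L'perm hRD K hg)] at h
  have e4 : (0 ∈ JG g 1 (JJ K r A B C) (List.range g) ∧ 0 ∈ List.range (g * K + 2)) ↔ 0 ∈ B := by
    rw [zero_mem hg]
    exact ⟨fun h => h.1, fun h => ⟨h, List.mem_range.2 (by omega)⟩⟩
  rw [if_congr e4 rfl rfl] at h
  exact h

/-! ### The values -/

lemma pm_sh0 {k : Type*} [Field k] (u : ℕ → k) (J : Finset ℕ) (L : List ℕ) :
    pm (fun s => u (s + sh 1 0)) J L = pm u J L := rfl

lemma pm_sh1 {k : Type*} [Field k] (u : ℕ → k) (J : Finset ℕ) (L : List ℕ) :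
    pm (fun s => u (s + sh 1 1)) J L = pm u J L := rfl

lemma pm_shd {k : Type*} [Field k] (u : ℕ → k) (J : Finset ℕ) (L : List ℕ) {ρ : ℕ} (h : 2 ≤ ρ) :
    pm (fun s => u (s + sh 1 ρ)) J L = pm (fun s => u (s + 1)) J L := by rw [shd h]

lemma card_er {n j : ℕ} (h : j < n + 1) : ((range (n + 1)).erase j).card = n := by
  rw [card_erase_of_mem (mem_range.2 h), card_range]
  omega

lemma card_er2 {n j : ℕ} (h : j < n + 1) (h0 : j ≠ 0) :
    (((range (n + 1)).erase j).erase 0).card + 1 = n := by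
  rw [card_erase_of_mem (mem_erase.2 ⟨Ne.symm h0, mem_range.2 (by omega)⟩), card_er h]
  omega

lemma len_er {n j : ℕ} (h : j < n + 1) : ((List.range (n + 1)).erase j).length = n := by
  rw [List.length_erase_of_mem (List.mem_range.2 h), List.length_range]
  omega

section

variable {k : Type*} [Field k]

/-- the blocks `ρ ≥ 2`, `ρ ≠ r` -/
lemma def_one {K r ρ : ℕ} (hK : 1 ≤ K) (A B C : Finset ℕ) (h : 2 ≤ ρ) (h' : ρ ≠ r) :
    pm (fun s => uX k (K + 1) (s + sh 1 ρ)) (JJ K r A B C ρ) (LL K ρ) = 1 := by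
  obtain ⟨c1, c2, c3, c4, c5, c6⟩ := cx k (K + 1) (by omega)
  rw [pm_shd _ _ _ h, JJd h h', LLd h]
  exact c6 0 (by omega)

lemma def_one' {K r ρ : ℕ} (hK : 1 ≤ K) (A B C : Finset ℕ) (h : 2 ≤ ρ) (h' : ρ ≠ r) :
    pm (fun s => uX k (K + 1) (s + sh 1 ρ)) (JJ K r A B C ρ) (LL' K ρ) = 1 := by
  obtain ⟨c1, c2, c3, c4, c5, c6⟩ := cx k (K + 1) (by omega)
  rw [pm_shd _ _ _ h, JJd h h', LL'd h]
  exact c6 0 (by omega)

lemma pm_B {K i l : ℕ} (hK : 1 ≤ K) (hi : i < K + 1) (hl1 : 1 ≤ l) (hl : l < K + 2) :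
    pm (uX k (K + 1)) (((range (K + 1 + 1)).erase l).erase 0) ((List.range (K + 1)).erase i) =
      if i + (l - 1) + 1 < K + 1 then -1 else 1 := by
  obtain ⟨c1, c2, c3, c4, c5, c6⟩ := cx k (K + 1) (by omega)
  rw [erase_erase _ _ hl1, pm_shift]
  exact c4 i hi (l - 1) (by omega)

/-- (i), first term -/
lemma E1 (hRF : StmRF k) {g K r σ l₀ l₁ : ℕ} (hg : 3 ≤ g) (hK : 1 ≤ K) (hr : 2 ≤ r) (hrg : r < g)
    (hσ : σ = 1 + g - r) (y : ℕ → k) (hl₀ : l₀ < K + 1) (hl₁ : l₁ < K + 2) :
    pd (cst g 1 (uX k (K + 1))) y (JG g 1 (JJ K r ((range (K + 1)).erase l₀)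
      ((range (K + 1 + 1)).erase l₁) (range (K + 1))) (List.range g))
        (LG g (LL K) (List.range g)) =
      (∑ i ∈ range (K + 1), (∑ l ∈ range (K + 1), y (g * i + (σ + g * l))) *
        (if i + l₀ < K + 1 then 1 else -1)) * (if l₁ = 0 ∨ l₁ = K + 1 then 0 else 2) := by
  obtain ⟨c1, c2, c3, c4, c5, c6⟩ := cx k (K + 1) (by omega)
  rw [(hRF g 1 (uX k (K + 1)) y (by omega) _ (LL K) (List.range g) List.nodup_range
    (fun ρ hρ => List.mem_range.1 hρ) (fun ρ _ => LL_nodup K ρ)).2.2.1 0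
    (List.mem_range.2 (by omega)) r (List.mem_range.2 hrg) (by omega)
    (by rw [JJ0, LL0, card_er hl₀, List.length_range])
    (by rw [JJr hr, LLd hr, card_range, List.length_range])
    (by
      intro ρ hρ h0 h1
      by_cases h2 : ρ = 1
      · rw [h2, JJ1, LL1, card_er hl₁, List.length_range]
      · rw [JJd (by omega) h1, LLd (by omega), card_er (by omega), List.length_range])]
  congr 1
  · rw [JJ0, JJr hr, LL0, LLd hr, List.toFinset_range, ccd hr, ← hσ]
    refine sum_congr rfl fun i hi => ?_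
    rw [sum_mul]
    refine sum_congr rfl fun l hl => ?_
    rw [pm_sh0, pm_shd _ _ _ hr, c2 i (mem_range.1 hi) l₀ hl₀]
    have e := c6 l (mem_range.1 hl)
    rw [Nat.add_sub_cancel] at e
    rw [e, mul_one, zero_add]
  · rw [List.toFinset_range, prod_eq_single 1]
    · rw [JJ1, LL1, pm_sh1]
      exact c5 l₁ hl₁
    · intro ρ hρ h1
      rw [mem_erase, mem_erase] at hρ
      exact def_one hK _ _ _ (by omega) hρ.1
    · intro h
      exact absurd (mem_erase.2 ⟨by omega, mem_erase.2 ⟨by omega, mem_range.2 (by omega)⟩⟩) h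

/-- (i), second term -/
lemma E2 (hRF : StmRF k) {g K r σ l₀ l₁ : ℕ} (hg : 3 ≤ g) (hK : 1 ≤ K) (hr : 2 ≤ r) (hrg : r < g)
    (hσ : σ = 1 + g - r) (y : ℕ → k) (hl₀ : l₀ < K + 1) (h1l : 1 ≤ l₁) (hl₁ : l₁ < K + 2) :
    pd (cst g 1 (uX k (K + 1))) y (JG g 1 (JJ K r ((range (K + 1)).erase l₀)
      (((range (K + 1 + 1)).erase l₁).erase 0) (range (K + 1))) (List.range g))
        (LG g (LL' K) (List.range g)) =
      ∑ i ∈ range (K + 1), (∑ l ∈ range (K + 1), y (1 + g * i + (σ + g * l))) *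
        (if i + (l₁ - 1) + 1 < K + 1 then -1 else 1) := by
  obtain ⟨c1, c2, c3, c4, c5, c6⟩ := cx k (K + 1) (by omega)
  rw [(hRF g 1 (uX k (K + 1)) y (by omega) _ (LL' K) (List.range g) List.nodup_range
    (fun ρ hρ => List.mem_range.1 hρ) (fun ρ _ => LL'_nodup K ρ)).2.2.1 1
    (List.mem_range.2 (by omega)) r (List.mem_range.2 hrg) (by omega)
    (by rw [JJ1, LL'1, card_er2 hl₁ (by omega), List.length_range])
    (by rw [JJr hr, LL'd hr, card_range, List.length_range])
    (by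
      intro ρ hρ h0 h1
      by_cases h2 : ρ = 0
      · rw [h2, JJ0, LL'0, card_er hl₀, len_er (by omega)]
      · rw [JJd (by omega) h1, LL'd (by omega), card_er (by omega), List.length_range])]
  rw [List.toFinset_range, prod_eq_one, mul_one]
  · rw [JJ1, JJr hr, LL'1, LL'd hr, List.toFinset_range, ccd hr, ← hσ]
    refine sum_congr rfl fun i hi => ?_
    rw [sum_mul]
    refine sum_congr rfl fun l hl => ?_
    rw [pm_sh1, pm_shd _ _ _ hr, pm_B hK (mem_range.1 hi) h1l hl₁]
    have e := c6 l (mem_range.1 hl)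
    rw [Nat.add_sub_cancel] at e
    rw [e, mul_one]
  · intro ρ hρ
    rw [mem_erase, mem_erase] at hρ
    by_cases h2 : ρ = 0
    · rw [h2, JJ0, LL'0, pm_sh0, c2 0 (by omega) l₀ hl₀, if_pos (by omega)]
    · exact def_one' hK _ _ _ (by omega) hρ.1

/-- (ii), first term -/
lemma E3 (hRF : StmRF k) {g K l₀ : ℕ} (hg : 3 ≤ g) (hK : 1 ≤ K) (y : ℕ → k) (hl₀ : l₀ < K + 1) :
    pd (cst g 1 (uX k (K + 1))) y (JG g 1 (JJ K 2 ((range (K + 1)).erase l₀)
      (range (K + 1 + 1)) ((range (K + 1)).erase 0)) (List.range g))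
        (LG g (LL K) (List.range g)) =
      ∑ i ∈ range (K + 1), (∑ l ∈ range (K + 1 + 1), y (g * i + g * l) *
        (if l = 0 ∨ l = K + 1 then 0 else 2)) * (if i + l₀ < K + 1 then 1 else -1) := by
  obtain ⟨c1, c2, c3, c4, c5, c6⟩ := cx k (K + 1) (by omega)
  rw [(hRF g 1 (uX k (K + 1)) y (by omega) _ (LL K) (List.range g) List.nodup_range
    (fun ρ hρ => List.mem_range.1 hρ) (fun ρ _ => LL_nodup K ρ)).2.2.1 0
    (List.mem_range.2 (by omega)) 1 (List.mem_range.2 (by omega)) (by omega)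
    (by rw [JJ0, LL0, card_er hl₀, List.length_range])
    (by rw [JJ1, LL1, card_range, List.length_range])
    (by
      intro ρ hρ h0 h1
      by_cases h2 : ρ = 2
      · rw [h2, JJr le_rfl, LLd le_rfl, card_er (by omega), List.length_range]
      · rw [JJd (by omega) h2, LLd (by omega), card_er (by omega), List.length_range])]
  rw [List.toFinset_range, prod_eq_one, mul_one]
  · rw [JJ0, JJ1, LL0, LL1, List.toFinset_range, cc1]
    refine sum_congr rfl fun i hi => ?_
    rw [sum_mul]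
    refine sum_congr rfl fun l hl => ?_
    rw [pm_sh0, pm_sh1, c2 i (mem_range.1 hi) l₀ hl₀, c5 l (mem_range.1 hl), zero_add, zero_add]
    ring
  · intro ρ hρ
    rw [mem_erase, mem_erase] at hρ
    by_cases h2 : ρ = 2
    · rw [h2, JJr le_rfl, LLd le_rfl, pm_shd _ _ _ le_rfl]
      exact c6 0 (by omega)
    · exact def_one hK _ _ _ (by omega) h2

/-- (ii), second term -/
lemma E4 (hRF : StmRF k) {g K l₀ : ℕ} (hg : 3 ≤ g) (hK : 1 ≤ K) (y : ℕ → k) (hl₀ : l₀ < K + 1) :
    pd (cst g 1 (uX k (K + 1))) y (JG g 1 (JJ K 2 ((range (K + 1)).erase l₀)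
      ((range (K + 1 + 1)).erase 0) ((range (K + 1)).erase 0)) (List.range g))
        (LG g (LL' K) (List.range g)) =
      ∑ i ∈ range (K + 1), ∑ l ∈ range (K + 1),
        (if i + l + 1 < K + 1 then -1 else 1) * y (1 + g * (i + l + 1)) := by
  obtain ⟨c1, c2, c3, c4, c5, c6⟩ := cx k (K + 1) (by omega)
  rw [(hRF g 1 (uX k (K + 1)) y (by omega) _ (LL' K) (List.range g) List.nodup_range
    (fun ρ hρ => List.mem_range.1 hρ) (fun ρ _ => LL'_nodup K ρ)).2.1
    (by
      intro ρ hρ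
      by_cases h0 : ρ = 0
      · rw [h0, JJ0, LL'0, card_er hl₀, len_er (by omega)]
      by_cases h1 : ρ = 1
      · rw [h1, JJ1, LL'1, card_er (by omega), List.length_range]
      by_cases h2 : ρ = 2
      · rw [h2, JJr le_rfl, LL'd le_rfl, card_er (by omega), List.length_range]
      · rw [JJd (by omega) h2, LL'd (by omega), card_er (by omega), List.length_range])]
  rw [List.toFinset_range, sum_eq_single 1]
  · rw [prod_eq_one, mul_one]
    · rw [JJ1, LL'1, bf k _ _ _ _ List.nodup_range, List.toFinset_range]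
      refine sum_congr rfl fun i hi => ?_
      rw [erase_zero, sum_image (fun a _ b _ h => Nat.succ_injective h)]
      refine sum_congr rfl fun l hl => ?_
      have e : ((range (K + 1)).image (fun l => l + 1)).erase (l + 1) =
          ((range (K + 1)).erase l).image (fun l => l + 1) := by
        ext a
        simp only [mem_erase, mem_image]
        constructor
        · rintro ⟨h1, b, h2, rfl⟩
          exact ⟨b, ⟨fun h => h1 (by rw [h]), h2⟩, rfl⟩
        · rintro ⟨b, ⟨h1, h2⟩, rfl⟩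
          exact ⟨fun h => h1 (Nat.succ_injective h), b, h2, rfl⟩
      rw [pm_sh1, e, pm_shift, c4 i (mem_range.1 hi) l (mem_range.1 hl)]
      show y (1 + g * (l + 1 + i + 0)) * _ = _
      rw [show l + 1 + i + 0 = i + l + 1 by omega, mul_comm]
    · intro ρ hρ
      rw [mem_erase] at hρ
      by_cases h0 : ρ = 0
      · rw [h0, JJ0, LL'0, pm_sh0, c2 0 (by omega) l₀ hl₀, if_pos (by omega)]
      by_cases h2 : ρ = 2
      · rw [h2, JJr le_rfl, LL'd le_rfl, pm_shd _ _ _ le_rfl]
        exact c6 0 (by omega)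
      · exact def_one' hK _ _ _ (by omega) h2
  · intro ρ hρ h1
    rw [prod_eq_zero (mem_erase.2 ⟨Ne.symm h1, mem_range.2 (by omega)⟩), mul_zero]
    rw [JJ1, LL'1, pm_sh1, c5 0 (by omega), if_pos (Or.inl rfl)]
  · intro h
    exact absurd (mem_range.2 (by omega)) h

/-- (iii), first term -/
lemma E5 (hRF : StmRF k) {g K l₁ : ℕ} (hg : 3 ≤ g) (hK : 1 ≤ K) (y : ℕ → k) (hl₁ : l₁ < K + 2) :
    pd (cst g 1 (uX k (K + 1))) y (JG g 1 (JJ K 2 (range (K + 1))
      ((range (K + 1 + 1)).erase l₁) ((range (K + 1)).erase 0)) (List.range g))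
        (LG g (LL K) (List.range g)) =
      (∑ i ∈ range (K + 1), ∑ l ∈ range (K + 1),
        (if i + l < K + 1 then 1 else -1) * y (1 + g * (i + l))) *
          (if l₁ = 0 ∨ l₁ = K + 1 then 0 else 2) := by
  obtain ⟨c1, c2, c3, c4, c5, c6⟩ := cx k (K + 1) (by omega)
  rw [(hRF g 1 (uX k (K + 1)) y (by omega) _ (LL K) (List.range g) List.nodup_range
    (fun ρ hρ => List.mem_range.1 hρ) (fun ρ _ => LL_nodup K ρ)).2.1
    (by
      intro ρ hρ
      by_cases h0 : ρ = 0
      · rw [h0, JJ0, LL0, card_range, List.length_range]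
      by_cases h1 : ρ = 1
      · rw [h1, JJ1, LL1, card_er hl₁, List.length_range]
      by_cases h2 : ρ = 2
      · rw [h2, JJr le_rfl, LLd le_rfl, card_er (by omega), List.length_range]
      · rw [JJd (by omega) h2, LLd (by omega), card_er (by omega), List.length_range])]
  rw [List.toFinset_range, sum_eq_single 0]
  · congr 1
    · rw [JJ0, LL0, bf k _ _ _ _ List.nodup_range, List.toFinset_range]
      refine sum_congr rfl fun i hi => ?_
      refine sum_congr rfl fun l hl => ?_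
      rw [pm_sh0, c2 i (mem_range.1 hi) l (mem_range.1 hl)]
      show y (1 + g * (l + i + 0)) * _ = _
      rw [show l + i + 0 = i + l by omega, mul_comm]
    · rw [prod_eq_single 1]
      · rw [JJ1, LL1, pm_sh1]
        exact c5 l₁ hl₁
      · intro ρ hρ h1
        rw [mem_erase] at hρ
        by_cases h2 : ρ = 2
        · rw [h2, JJr le_rfl, LLd le_rfl, pm_shd _ _ _ le_rfl]
          exact c6 0 (by omega)
        · exact def_one hK _ _ _ (by omega) h2
      · intro h
        exact absurd (mem_erase.2 ⟨by omega, mem_range.2 (by omega)⟩) h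
  · intro ρ hρ h1
    rw [prod_eq_zero (mem_erase.2 ⟨Ne.symm h1, mem_range.2 (by omega)⟩), mul_zero]
    rw [JJ0, LL0, pm_sh0, c1]
  · intro h
    exact absurd (mem_range.2 (by omega)) h

/-- (iii), second term -/
lemma E6 (hRF : StmRF k) {g K l₁ : ℕ} (hg : 3 ≤ g) (hK : 1 ≤ K) (y : ℕ → k)
    (h1l : 1 ≤ l₁) (hl₁ : l₁ < K + 2) :
    pd (cst g 1 (uX k (K + 1))) y (JG g 1 (JJ K 2 (range (K + 1))
      (((range (K + 1 + 1)).erase l₁).erase 0) ((range (K + 1)).erase 0)) (List.range g))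
        (LG g (LL' K) (List.range g)) =
      ∑ i ∈ range (K + 1), (∑ l ∈ range (K + 1), y (1 + g * i + (1 + g * l))) *
        (if i + (l₁ - 1) + 1 < K + 1 then -1 else 1) := by
  obtain ⟨c1, c2, c3, c4, c5, c6⟩ := cx k (K + 1) (by omega)
  rw [(hRF g 1 (uX k (K + 1)) y (by omega) _ (LL' K) (List.range g) List.nodup_range
    (fun ρ hρ => List.mem_range.1 hρ) (fun ρ _ => LL'_nodup K ρ)).2.2.1 1
    (List.mem_range.2 (by omega)) 0 (List.mem_range.2 (by omega)) (by omega)
    (by rw [JJ1, LL'1, card_er2 hl₁ (by omega), List.length_range])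
    (by rw [JJ0, LL'0, card_range, len_er (by omega)])
    (by
      intro ρ hρ h0 h1
      by_cases h2 : ρ = 2
      · rw [h2, JJr le_rfl, LL'd le_rfl, card_er (by omega), List.length_range]
      · rw [JJd (by omega) h2, LL'd (by omega), card_er (by omega), List.length_range])]
  rw [List.toFinset_range, prod_eq_one, mul_one]
  · rw [JJ1, JJ0, LL'1, LL'0, List.toFinset_range, cc0]
    refine sum_congr rfl fun i hi => ?_
    rw [sum_mul]
    refine sum_congr rfl fun l hl => ?_
    have e : (if 0 + l < K + 1 then (1 : k) else -1) = 1 :=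
      if_pos (by have := mem_range.1 hl; omega)
    rw [pm_sh1, pm_sh0, pm_B hK (mem_range.1 hi) h1l hl₁, c2 0 (by omega) l (mem_range.1 hl), e,
      mul_one]
  · intro ρ hρ
    rw [mem_erase, mem_erase] at hρ
    by_cases h2 : ρ = 2
    · rw [h2, JJr le_rfl, LL'd le_rfl, pm_shd _ _ _ le_rfl]
      exact c6 0 (by omega)
    · exact def_one' hK _ _ _ (by omega) h2

/-! ### Membership -/

lemma sum_v {g K : ℕ} (hg : 3 ≤ g) :
    ∑ ρ ∈ range g, (if ρ = 1 then K + 1 else K) + 1 = g * K + 2 := by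
  have h1 : ∀ ρ ∈ range g, (if ρ = 1 then K + 1 else K) = K + (if ρ = 1 then 1 else 0) := by
    intro ρ _
    split_ifs <;> rfl
  rw [sum_congr rfl h1, sum_add_distrib, sum_const, card_range, sum_ite_eq',
    if_pos (mem_range.2 (by omega)), smul_eq_mul]

lemma mem1 {g K : ℕ} (hg : 3 ≤ g) (hK : 1 ≤ K) (J : Finset ℕ) (hJ : J.card = g * K + 2)
    (hJn : ∀ j ∈ J, j < g * (K + 1) + 1) :
    pm (cst g 1 (uX k (K + 1))) J (List.range (g * K + 2)) = 0 := by
  obtain ⟨c1, c2, c3, c4, c5, c6⟩ := cx k (K + 1) (by omega)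
  refine mm k g 1 (g * (K + 1) + 1) (g * K + 2) (g * K + 2) (uX k (K + 1)) (by omega)
    (fun ρ => if ρ = 1 then K + 1 else K) (sum_v hg) ?_ J _
    ⟨hJ, List.length_range, List.nodup_range, hJn, fun c hc => List.mem_range.1 hc⟩
  rintro ρ hρ J' L' ⟨h1, h2, h3, h4, h5⟩
  have hb : ∀ i ∈ L', i < K + 1 := by
    intro i hi
    have h6 := h5 i hi
    by_contra hcon
    have h7 : g * (K + 1) ≤ g * i := Nat.mul_le_mul_left g (by omega)
    rw [Nat.mul_add, Nat.mul_one] at h7
    omega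
  by_cases h0 : ρ = 0
  · subst h0
    simp only [if_neg zero_ne_one] at h1 h2
    have hc : ∀ l ∈ J', l < K + 1 := by
      intro l hl
      have h6 := h4 l hl
      rw [cc0] at h6
      by_contra hcon
      have h7 : g * (K + 1) ≤ g * l := Nat.mul_le_mul_left g (by omega)
      omega
    rw [pm_sh0, PX.eq_range h1 hc, (BA.ta k).1 _ _ _ (PX.perm_range h3 h2 hb)]
    exact c1
  by_cases h0' : ρ = 1
  · subst h0'
    simp only [if_true] at h2
    exact (PX.no_list h3 h2 hb (by omega)).elim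
  · simp only [if_neg h0'] at h2
    have hb' : ∀ i ∈ L', i < K := by
      intro i hi
      have h6 := h5 i hi
      by_contra hcon
      have h7 : g * K ≤ g * i := Nat.mul_le_mul_left g (by omega)
      omega
    exact (PX.no_list h3 h2 hb' (by omega)).elim

lemma mem2 (hRD : StmRD) {g K : ℕ} (hg : 3 ≤ g) (hK : 1 ≤ K) (J : Finset ℕ)
    (hJ : J.card = g * K + 2) (hJn : ∀ j ∈ J, j < g * (K + 1) + 1) (h0 : 0 ∈ J) :
    pm (cst g 1 (uX k (K + 1))) (J.erase 0) ((List.range (g * K + 2)).erase 0) = 0 := by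
  obtain ⟨c1, c2, c3, c4, c5, c6⟩ := cx k (K + 1) (by omega)
  rw [(BA.ta k).1 _ _ _ (L'perm hRD K hg)]
  have hJJ := hRD.1 g 1 (by omega) (J.erase 0)
  have hra := ra k g 1 (uX k (K + 1)) (by omega) (fun ρ =>
    ((J.erase 0).filter fun j => j % g = cc g 1 ρ).image fun j => j / g) (LL' K) (List.range g) []
    (by rw [List.append_nil]; exact List.nodup_range)
    (by rw [List.append_nil]; exact fun ρ hρ => List.mem_range.1 hρ)
  rw [← hJJ] at hra
  obtain ⟨-, -, -, r4, r5, -, r7⟩ := hra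
  rw [r7]
  rw [List.toFinset_range] at r4 r5 ⊢
  have hlen : (LG g (LL' K) (List.range g)).length = g * K + 1 := by
    rw [← (L'perm hRD K hg).length_eq, List.length_erase_of_mem (List.mem_range.2 (by omega)),
      List.length_range]
    omega
  have hcd : (J.erase 0).card = g * K + 1 := by
    rw [card_erase_of_mem h0, hJ]
    omega
  by_cases hcase : ∃ ρ ∈ range g, (((J.erase 0).filter fun j => j % g = cc g 1 ρ).image
      fun j => j / g).card < (LL' K ρ).length
  · obtain ⟨ρ, hρ, h⟩ := hcase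
    exact prod_eq_zero hρ ((BA.ta k).2.2 _ _ _ h)
  · push Not at hcase
    have hsum : ∑ ρ ∈ range g, (LL' K ρ).length = ∑ ρ ∈ range g,
        (((J.erase 0).filter fun j => j % g = cc g 1 ρ).image fun j => j / g).card := by
      rw [← r4, ← r5, hlen, hcd]
    have h1 := (sum_eq_sum_iff_of_le hcase).1 hsum 1 (mem_range.2 (by omega))
    rw [LL'1, List.length_range] at h1
    have h2 : (((J.erase 0).filter fun j => j % g = cc g 1 1).image fun j => j / g) =
        (range (K + 1 + 1)).erase 0 := by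
      apply eq_of_subset_of_card_le
      · intro l hl
        rw [mem_image] at hl
        obtain ⟨j, hj, rfl⟩ := hl
        rw [mem_filter, mem_erase, cc1] at hj
        obtain ⟨⟨hj0, hjJ⟩, hjm⟩ := hj
        have hjn := hJn j hjJ
        have hd := Nat.div_add_mod j g
        rw [hjm, add_zero] at hd
        rw [mem_erase, mem_range]
        constructor
        · intro h
          rw [h, Nat.mul_zero] at hd
          omega
        · by_contra hcon
          have h7 : g * (K + 1 + 1) ≤ g * (j / g) := Nat.mul_le_mul_left g (by omega)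
          rw [Nat.mul_add g (K + 1) 1, Nat.mul_one] at h7
          omega
      · rw [← h1, card_er (by omega)]
    refine prod_eq_zero (mem_range.2 (show 1 < g by omega)) ?_
    rw [h2, LL'1, pm_sh1, c5 0 (by omega), if_pos (Or.inl rfl)]

lemma membership (hLK : StmLK k) (hRD : StmRD) {g K : ℕ} (hg : 3 ≤ g) (hK : 1 ≤ K) :
    Vt (g * (K + 1) + 1) (g * K + 2) (qB1 k g (K + 1)) := by
  intro J hJ hJn
  have hlk := (hLK.1 (cst g 1 (uX k (K + 1))) (qB1 k g (K + 1)) (fun _ => 0) 0 0 0 rfl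
    (fun v hv => if_neg hv) J (List.range (g * K + 2))
    List.nodup_range (fun j _ c _ hjc => ⟨by omega, by omega⟩)).1
  rw [hlk, mem1 hg hK J hJ hJn, zero_add]
  split_ifs with h
  · rw [mem2 hRD hg hK J hJ hJn h.1, mul_zero]
  · rfl

/-! ### Relations -/

lemma inv1 (h2 : (2 : k) ≠ 0) {K : ℕ} (W : ℕ → k) (w : k)
    (h : ∀ l < K + 1, ∑ i ∈ range (K + 1), W i * (if i + l < K + 1 then 1 else -1) = -w) :
    ∀ i < K + 1, W i = if i = 0 then -w else 0 := by
  have h1 := (ci k h2 (K + 1) (fun i => W i - if i = 0 then -w else 0)).1 (by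
    intro l hl
    have e : ∀ i ∈ range (K + 1), (W i - if i = 0 then -w else 0) *
        (if i + l < K + 1 then 1 else -1) = W i * (if i + l < K + 1 then 1 else -1) -
        (if i = 0 then -w else 0) := by
      intro i _
      by_cases hi : i = 0
      · rw [hi, if_pos rfl, if_pos (by omega)]
        ring
      · rw [if_neg hi]
        ring
    rw [sum_congr rfl e, sum_sub_distrib, h l hl, sum_ite_eq', if_pos (mem_range.2 (by omega)),
      sub_self])
  intro i hi
  exact sub_eq_zero.1 (h1 i hi)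

lemma inv2 (h2 : (2 : k) ≠ 0) {K : ℕ} (hK : 1 ≤ K) (W : ℕ → k) (w : k)
    (h : ∀ l < K + 1, ∑ i ∈ range (K + 1), W i * (if i + l + 1 < K + 1 then -1 else 1) =
      w * (if l + 1 = K + 1 then 0 else 2)) :
    ∀ i < K + 1, W i = if i = 0 then -w else if i + 1 = K + 1 then w else 0 := by
  have h1 := (ci k h2 (K + 1) (fun i => W i -
    if i = 0 then -w else if i + 1 = K + 1 then w else 0)).2.1 (by
    intro l hl
    have e : ∀ i ∈ range (K + 1), (W i - if i = 0 then -w else if i + 1 = K + 1 then w else 0) *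
        (if i + l + 1 < K + 1 then -1 else 1) =
        W i * (if i + l + 1 < K + 1 then -1 else 1) -
        ((if i = 0 then (if l + 1 = K + 1 then -w else w) else 0) + (if i = K then w else 0)) := by
      intro i _
      by_cases hi : i = 0
      · subst hi
        rw [if_pos rfl, if_pos rfl, if_neg (show ¬ 0 = K by omega)]
        by_cases hl' : l + 1 = K + 1
        · rw [if_pos hl', if_neg (by omega)]
          ring
        · rw [if_neg hl', if_pos (by omega)]
          ring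
      · rw [if_neg hi, if_neg hi]
        by_cases hi' : i = K
        · rw [if_pos (by omega), if_pos hi', if_neg (by omega)]
          ring
        · rw [if_neg (by omega), if_neg hi']
          ring
    rw [sum_congr rfl e, sum_sub_distrib, h l hl, sum_add_distrib, sum_ite_eq', sum_ite_eq',
      if_pos (mem_range.2 (by omega)), if_pos (mem_range.2 (by omega))]
    split_ifs <;> ring)
  intro i hi
  exact sub_eq_zero.1 (h1 i hi)

lemma rel_i (hLK : StmLK k) (hRF : StmRF k) (hRD : StmRD) (hCH : StmCH k) (h2 : (2 : k) ≠ 0)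
    {g K σ : ℕ} (hg : 3 ≤ g) (hK : 1 ≤ K) (h2σ : 2 ≤ σ) (hσg : σ < g) {y : ℕ → k}
    (hy : Tt (g * (K + 1) + 1) (g * K + 2) (qB1 k g (K + 1)) y) :
    ∃ w : k, (∀ i < K + 1, ∑ l ∈ range (K + 1), y (g * i + (σ + g * l)) =
        if i = 0 then - w else 0) ∧
      ∀ i < K + 1, ∑ l ∈ range (K + 1), y (1 + g * i + (σ + g * l)) =
        if i = 0 then - w else if i + 1 = K + 1 then w else 0 := by
  have hr : 2 ≤ 1 + g - σ := by omega
  have hrg : 1 + g - σ < g := by omega
  obtain ⟨w, hw0, hw1⟩ := hCH.1 (range (K + 1)) (range (K + 2))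
    (fun l => ∑ i ∈ range (K + 1), (∑ l ∈ range (K + 1), y (g * i + (σ + g * l))) *
      (if i + l < K + 1 then 1 else -1))
    (fun l => if l = 0 then 0 else ∑ i ∈ range (K + 1),
      (∑ l ∈ range (K + 1), y (1 + g * i + (σ + g * l))) *
        (if i + (l - 1) + 1 < K + 1 then -1 else 1))
    (fun l => if l = 0 ∨ l = K + 1 then 0 else 2) (fun _ => 1)
    (by
      intro l₀ hl₀ l₁ hl₁
      rw [mem_range] at hl₀ hl₁
      have h := key hLK hRD hg hr hrg hy (A := (range (K + 1)).erase l₀)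
        (B := (range (K + 1 + 1)).erase l₁) (C := range (K + 1))
        (by rw [card_er hl₀, card_er hl₁, card_range]; omega)
        (fun l hl => mem_range.1 (mem_of_mem_erase hl))
        (fun l hl => mem_range.1 (mem_of_mem_erase hl)) (fun l hl => mem_range.1 hl)
      rw [E1 hRF hg hK hr hrg (show σ = 1 + g - (1 + g - σ) by omega) y hl₀ hl₁] at h
      by_cases hz : l₁ = 0
      · have hn : ¬ (0 ∈ (range (K + 1 + 1)).erase l₁) := by
          rw [hz]
          exact notMem_erase 0 _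
        rw [if_neg hn] at h
        rw [if_pos hz, mul_zero]
        exact h
      · rw [if_pos (mem_erase.2 ⟨Ne.symm hz, mem_range.2 (by omega)⟩),
          E2 hRF hg hK hr hrg (show σ = 1 + g - (1 + g - σ) by omega) y hl₀ (by omega) hl₁] at h
        simp only [if_neg hz]
        rw [one_mul]
        exact h)
    ⟨1, mem_range.2 (by omega), by
      show (if 1 = 0 ∨ 1 = K + 1 then (0 : k) else 2) ≠ 0
      rw [if_neg (by omega)]
      exact h2⟩
    ⟨0, mem_range.2 (by omega), one_ne_zero⟩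
  refine ⟨w, ?_, ?_⟩
  · refine inv1 h2 (fun i => ∑ l ∈ range (K + 1), y (g * i + (σ + g * l))) w ?_
    intro l hl
    have h := hw0 l (mem_range.2 hl)
    rw [mul_one] at h
    exact h
  · refine inv2 h2 hK (fun i => ∑ l ∈ range (K + 1), y (1 + g * i + (σ + g * l))) w ?_
    intro l hl
    have h := hw1 (l + 1) (mem_range.2 (by omega))
    simp only [if_neg (Nat.succ_ne_zero l), Nat.add_sub_cancel] at h
    rw [h]
    congr 1
    by_cases hl' : l + 1 = K + 1
    · rw [if_pos (Or.inr hl'), if_pos hl']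
    · rw [if_neg (by omega), if_neg hl']

lemma rel_ii (hLK : StmLK k) (hRF : StmRF k) (hRD : StmRD) (h2 : (2 : k) ≠ 0)
    {g K : ℕ} (hg : 3 ≤ g) (hK : 1 ≤ K) {y : ℕ → k}
    (hy : Tt (g * (K + 1) + 1) (g * K + 2) (qB1 k g (K + 1)) y) :
    ∀ i < K + 1, ∑ l ∈ Ico 1 (K + 1), 2 * y (g * i + g * l) =
      if i = 0 then - (∑ i ∈ range (K + 1), ∑ l ∈ range (K + 1),
        (if i + l + 1 < K + 1 then -1 else 1) * y (1 + g * (i + l + 1))) else 0 := by
  have e : ∀ i : ℕ, ∑ l ∈ range (K + 1 + 1), y (g * i + g * l) *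
      (if l = 0 ∨ l = K + 1 then 0 else 2) = ∑ l ∈ Ico 1 (K + 1), 2 * y (g * i + g * l) := by
    intro i
    rw [sum_range_succ, if_pos (Or.inr rfl), mul_zero, add_zero, range_eq_Ico,
      sum_eq_sum_Ico_succ_bot (by omega), if_pos (Or.inl rfl), mul_zero, zero_add]
    refine sum_congr rfl fun l hl => ?_
    rw [mem_Ico] at hl
    rw [if_neg (by omega), mul_comm]
  have h1 := inv1 h2 (K := K) (fun i => ∑ l ∈ Ico 1 (K + 1), 2 * y (g * i + g * l))
    (∑ i ∈ range (K + 1), ∑ l ∈ range (K + 1),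
        (if i + l + 1 < K + 1 then -1 else 1) * y (1 + g * (i + l + 1))) (by
    intro l₀ hl₀
    have h := key hLK hRD hg (r := 2) le_rfl (by omega) hy (A := (range (K + 1)).erase l₀)
      (B := range (K + 1 + 1)) (C := (range (K + 1)).erase 0)
      (by rw [card_er hl₀, card_er (by omega), card_range]; omega)
      (fun l hl => mem_range.1 (mem_of_mem_erase hl))
      (fun l hl => mem_range.1 hl) (fun l hl => mem_range.1 (mem_of_mem_erase hl))
    rw [E3 hRF hg hK y hl₀, if_pos (mem_range.2 (by omega)), E4 hRF hg hK y hl₀] at h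
    rw [eq_neg_iff_add_eq_zero, ← h]
    congr 1
    refine sum_congr rfl fun i _ => ?_
    rw [e i])
  exact h1

lemma rel_iii (hLK : StmLK k) (hRF : StmRF k) (hRD : StmRD) (h2 : (2 : k) ≠ 0)
    {g K : ℕ} (hg : 3 ≤ g) (hK : 1 ≤ K) {y : ℕ → k}
    (hy : Tt (g * (K + 1) + 1) (g * K + 2) (qB1 k g (K + 1)) y) :
    ∀ i < K + 1, ∑ l ∈ range (K + 1), y (1 + g * i + (1 + g * l)) =
      if i = 0 then - (- (∑ i ∈ range (K + 1), ∑ l ∈ range (K + 1),
        (if i + l < K + 1 then 1 else -1) * y (1 + g * (i + l)))) else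
      if i + 1 = K + 1 then - (∑ i ∈ range (K + 1), ∑ l ∈ range (K + 1),
        (if i + l < K + 1 then 1 else -1) * y (1 + g * (i + l))) else 0 := by
  refine inv2 h2 hK (fun i => ∑ l ∈ range (K + 1), y (1 + g * i + (1 + g * l))) _ ?_
  intro l hl
  have h := key hLK hRD hg (r := 2) le_rfl (by omega) hy (A := range (K + 1))
    (B := (range (K + 1 + 1)).erase (l + 1)) (C := (range (K + 1)).erase 0)
    (by rw [card_range, card_er (by omega), card_er (by omega)]; omega)
    (fun l hl => mem_range.1 hl)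
    (fun l hl => mem_range.1 (mem_of_mem_erase hl)) (fun l hl => mem_range.1 (mem_of_mem_erase hl))
  rw [E5 hRF hg hK y (by omega), if_pos (mem_erase.2 ⟨by omega, mem_range.2 (by omega)⟩),
    E6 hRF hg hK y (by omega) (by omega)] at h
  rw [Nat.add_sub_cancel] at h
  rw [eq_neg_of_add_eq_zero_right h, neg_mul]
  congr 2
  by_cases hl' : l + 1 = K + 1
  · rw [if_pos (Or.inr hl'), if_pos hl']
  · rw [if_neg (by omega), if_neg hl']

end

theorem t (k : Type*) [Field k] (hLK : StmLK k) (hRF : StmRF k) (hRD : StmRD) (hCH : StmCH k) :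
    StmPB1 k := by
  intro h2 g κ hg hκ
  obtain ⟨K, rfl⟩ : ∃ K, κ = K + 1 := ⟨κ - 1, by omega⟩
  rw [Nat.add_sub_cancel]
  have hK : 1 ≤ K := by omega
  refine ⟨membership hLK hRD hg hK, fun y hy => ?_⟩
  have hi : ∀ σ : ℕ, ∃ w : k, 2 ≤ σ → σ < g →
      (∀ i < K + 1, ∑ l ∈ range (K + 1), y (g * i + (σ + g * l)) = if i = 0 then - w else 0) ∧
      ∀ i < K + 1, ∑ l ∈ range (K + 1), y (1 + g * i + (σ + g * l)) =
        if i = 0 then - w else if i + 1 = K + 1 then w else 0 := by
    intro σ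
    by_cases h : 2 ≤ σ ∧ σ < g
    · obtain ⟨w, hw⟩ := rel_i hLK hRF hRD hCH h2 hg hK h.1 h.2 hy
      exact ⟨w, fun _ _ => hw⟩
    · exact ⟨0, fun h1 h3 => (h ⟨h1, h3⟩).elim⟩
  choose W hW using hi
  have hii := rel_ii hLK hRF hRD h2 hg hK hy
  have hiii := rel_iii hLK hRF hRD h2 hg hK hy
  refine ⟨fun σ => if σ = 0 then ∑ i ∈ range (K + 1), ∑ l ∈ range (K + 1),
      (if i + l + 1 < K + 1 then -1 else 1) * y (1 + g * (i + l + 1)) else if σ = 1 then
      - ∑ i ∈ range (K + 1), ∑ l ∈ range (K + 1),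
        (if i + l < K + 1 then 1 else -1) * y (1 + g * (i + l)) else W σ, ?_, ?_, ?_, ?_, ?_⟩
  · intro i hi σ h1 h3
    rw [if_neg (by omega : ¬ σ = 0), if_neg (by omega : ¬ σ = 1)]
    exact (hW σ h1 h3).1 i hi
  · intro i hi σ h1 h3
    rw [if_neg (by omega : ¬ σ = 0)]
    by_cases h4 : σ = 1
    · rw [if_pos h4, h4]
      exact hiii i hi
    · rw [if_neg h4]
      exact (hW σ (by omega) h3).2 i hi
  · intro i hi
    rw [if_pos rfl]
    exact hii i hi
  · exact if_pos rfl
  · show (if 1 = 0 then _ else _) = _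
    rw [if_neg one_ne_zero, if_pos rfl]

end Pool.Agent.N729.HQ.PB1
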