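import Pool.Agent.N729.HQ.Stm

/-!
Project HQ (helper729), part PB2a (helper491): the family `2 ≤ C < g`, point and relations.
-/

set_option autoImplicit false

namespace Pool.Agent.N729.HQ.PB2a

open Finset
open Pool.Agent.N186.HK (pm)
open Pool.Agent.N729.HP
open Pool.Agent.N729.HQ

/-! ### Index bookkeeping -/

/-- the number of long indices of a block -/
def cols (C K ρ : ℕ) : ℕ := if ρ = 0 then K else if ρ ≤ C then K + 1 else K

/-- the number of short indices of a block -/
def rows (C K ρ : ℕ) : ℕ := if ρ ≤ C then K else K - 1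

/-- the short indices of a block -/
def Lst (C K ρ : ℕ) : List ℕ := List.range (rows C K ρ)

/-- the default long indices of a block -/
def Dd (C K ρ : ℕ) : Finset ℕ := if ρ ≤ C then (range (K + 1)).erase 1 else (range K).erase 0

/-- the long indices with prescribed blocks `0`, `C`, `1`, `s` -/
def JsD (C K s : ℕ) (A0 AC A1 As : Finset ℕ) (ρ : ℕ) : Finset ℕ :=
  if ρ = 0 then A0 else if ρ = C then AC else if ρ = 1 then A1 else if ρ = s then As else Dd C K ρ

/-- the short indices with prescribed blocks `0`, `C` -/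
def LsD (C K : ℕ) (B0 BC : List ℕ) (ρ : ℕ) : List ℕ :=
  if ρ = 0 then B0 else if ρ = C then BC else Lst C K ρ

lemma LsD_self (C K : ℕ) : LsD C K (List.range K) (List.range K) = Lst C K := by
  funext ρ
  unfold LsD Lst rows
  split_ifs <;> first | rfl | omega

lemma lt_iff1 {g K σ β l : ℕ} (h1 : σ < β) (h2 : β ≤ g) : σ + g * l < g * K + β ↔ l < K + 1 := by
  constructor
  · intro h
    by_contra hcon
    have h3 : g * (K + 1) ≤ g * l := Nat.mul_le_mul_left g (by omega)
    rw [Nat.mul_add, Nat.mul_one] at h3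
    omega
  · intro h
    have h3 : g * l ≤ g * K := Nat.mul_le_mul_left g (by omega)
    omega

lemma lt_iff2 {g K σ β l : ℕ} (h1 : β ≤ σ) (h2 : σ < g) : σ + g * l < g * K + β ↔ l < K := by
  constructor
  · intro h
    by_contra hcon
    have h3 : g * K ≤ g * l := Nat.mul_le_mul_left g (by omega)
    omega
  · intro h
    have h3 : g * (l + 1) ≤ g * K := Nat.mul_le_mul_left g (by omega)
    rw [Nat.mul_add, Nat.mul_one] at h3
    omega

lemma long_iff {g C K ρ l : ℕ} (hC : C < g) (hρ : ρ < g) :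
    cc g C ρ + g * l < g * K + C ↔ l < cols C K ρ := by
  unfold cc cols
  by_cases h0 : ρ = 0
  · subst h0
    rw [if_pos (Nat.zero_le _), if_pos rfl, Nat.sub_zero]
    exact lt_iff2 le_rfl hC
  · rw [if_neg h0]
    by_cases h1 : ρ ≤ C
    · rw [if_pos h1, if_pos h1]
      exact lt_iff1 (by omega) (by omega)
    · rw [if_neg h1, if_neg h1]
      exact lt_iff2 (by omega) (by omega)

lemma short_iff {g C K ρ i : ℕ} (hC : C < g) (hK : 1 ≤ K) (hρ : ρ < g) :
    ρ + g * i < g * (K - 1) + C + 1 ↔ i < rows C K ρ := by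
  unfold rows
  rw [Nat.add_assoc]
  by_cases h1 : ρ ≤ C
  · rw [if_pos h1]
    have := lt_iff1 (g := g) (K := K - 1) (σ := ρ) (β := C + 1) (l := i) (by omega) (by omega)
    rw [this]
    omega
  · rw [if_neg h1]
    exact lt_iff2 (by omega) hρ

lemma rows_eq {g C K ρ : ℕ} (hC : C < g) (hK : 1 ≤ K) (hρ : ρ < g) :
    (g * (K - 1) + C + 1 + g - 1 - ρ) / g = rows C K ρ := by
  have hg : 0 < g := by omega
  apply le_antisymm
  · by_contra hcon
    push Not at hcon
    have h1 : rows C K ρ + 1 ≤ (g * (K - 1) + C + 1 + g - 1 - ρ) / g := hcon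
    rw [Nat.le_div_iff_mul_le hg] at h1
    have h2 := (short_iff (i := rows C K ρ) hC hK hρ).not.2 (lt_irrefl _)
    rw [Nat.add_mul, Nat.one_mul, Nat.mul_comm] at h1
    omega
  · rw [Nat.le_div_iff_mul_le hg]
    by_cases h0 : rows C K ρ = 0
    · rw [h0, Nat.zero_mul]; exact Nat.zero_le _
    · have h2 := (short_iff (i := rows C K ρ - 1) hC hK hρ).2 (by omega)
      have h3 : rows C K ρ * g = g * (rows C K ρ - 1) + g := by
        obtain ⟨r, hr⟩ : ∃ r, rows C K ρ = r + 1 := ⟨rows C K ρ - 1, by omega⟩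
        rw [hr, Nat.add_sub_cancel]
        ring
      rw [h3]
      omega

lemma cc_lt {g c ρ : ℕ} (hc : c < g) : cc g c ρ < g := by
  unfold cc
  split_ifs with h <;> omega

lemma cc_inj {g c ρ ρ' : ℕ} (_hc : c < g) (hρ : ρ < g) (hρ' : ρ' < g)
    (h : cc g c ρ = cc g c ρ') : ρ = ρ' := by
  unfold cc at h
  split_ifs at h <;> omega

lemma mem_JG {g C : ℕ} (Js : ℕ → Finset ℕ) (hC : C < g) {ρ l : ℕ} (hρ : ρ < g) :
    cc g C ρ + g * l ∈ JG g C Js (List.range g) ↔ l ∈ Js ρ := by
  have hg : 0 < g := by omega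
  unfold JG
  simp only [List.toFinset_range, mem_biUnion, mem_range, mem_image]
  constructor
  · rintro ⟨ρ', hρ', l', hl', he⟩
    have h1 : (cc g C ρ' + g * l') % g = (cc g C ρ + g * l) % g := by rw [he]
    rw [Nat.add_mul_mod_self_left, Nat.add_mul_mod_self_left, Nat.mod_eq_of_lt (cc_lt hC),
      Nat.mod_eq_of_lt (cc_lt hC)] at h1
    have h2 := cc_inj hC hρ' hρ h1
    subst h2
    have h3 : g * l' = g * l := by omega
    have h4 := Nat.eq_of_mul_eq_mul_left hg h3
    rwa [h4] at hl'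
  · intro h
    exact ⟨ρ, hρ, l, h, rfl⟩

lemma lt_JG {g C K : ℕ} (Js : ℕ → Finset ℕ) (hC : C < g)
    (hJ : ∀ ρ < g, ∀ l ∈ Js ρ, l < cols C K ρ) :
    ∀ j ∈ JG g C Js (List.range g), j < g * K + C := by
  intro j hj
  unfold JG at hj
  simp only [List.toFinset_range, mem_biUnion, mem_range, mem_image] at hj
  obtain ⟨ρ, hρ, l, hl, rfl⟩ := hj
  exact (long_iff hC hρ).2 (hJ ρ hρ l hl)

/-! ### The expansion along the two links -/

section expand
variable {k : Type*} [Field k]

lemma q_zero {g C K : ℕ} : qB2 k C g K 0 = 1 := by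
  unfold qB2
  rw [if_pos (Or.inl rfl)]

lemma q_last {g C K v : ℕ} (hv : v + 1 = g * (2 * K - 1) + 2 * C) : qB2 k C g K v = 1 := by
  unfold qB2
  rw [if_pos (Or.inr hv)]

lemma cst_zero {g C : ℕ} (u : ℕ → k) (hC : 2 ≤ C) : cst g C u 0 = 0 := by
  unfold cst
  rw [Nat.zero_mod, if_neg (by omega)]

lemma cst_last {g C K v : ℕ} (u : ℕ → k) (hC : 2 ≤ C) (hCg : C < g) (hK : 2 ≤ K)
    (hv : v + 1 = g * (2 * K - 1) + 2 * C) : cst g C u v = 0 := by
  unfold cst
  rw [if_neg]
  intro h
  have h1 : v = (2 * C - 1) + g * (2 * K - 1) := by omega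
  rw [h1, Nat.add_mul_mod_self_left] at h
  by_cases h2 : 2 * C - 1 < g
  · rw [Nat.mod_eq_of_lt h2] at h
    omega
  · rw [Nat.mod_eq_sub_mod (by omega), Nat.mod_eq_of_lt (by omega)] at h
    omega

/-- the point with the first link only -/
def x1 (k : Type*) [Field k] (C g K v : ℕ) : k := if v = 0 then 1 else cst g C (uX k K) v

lemma expand {F : (ℕ → k) → Finset ℕ → List ℕ → k}
    (hp : ∀ (x : ℕ → k) (L L' : List ℕ), L.Perm L' → ∀ J, F x J L = F x J L')
    (hl : ∀ (x x' : ℕ → k) (z j₀ c₀ : ℕ), j₀ + c₀ = z → (∀ v, v ≠ z → x' v = x v) →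
      ∀ (J : Finset ℕ) (L : List ℕ), L.Nodup →
      (∀ j ∈ J, ∀ c ∈ L, j + c = z → j = j₀ ∧ c = c₀) →
      F x' J L = F x J L + if j₀ ∈ J ∧ c₀ ∈ L then
        (x' z - x z) * F x (J.erase j₀) (L.erase c₀) else 0)
    (hRD : StmRD) {C g K : ℕ} (hC : 2 ≤ C) (hCg : C < g) (hK : 2 ≤ K) (Js : ℕ → Finset ℕ)
    (hJ : ∀ ρ < g, ∀ l ∈ Js ρ, l < cols C K ρ) :
    F (qB2 k C g K) (JG g C Js (List.range g)) (List.range (g * (K - 1) + C + 1)) =
      F (cst g C (uX k K)) (JG g C Js (List.range g)) (LG g (Lst C K) (List.range g)) +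
      (if 0 ∈ Js C then
        F (cst g C (uX k K)) (JG g C (Function.update Js C ((Js C).erase 0)) (List.range g))
        (LG g (Function.update (Lst C K) 0 ((Lst C K 0).erase 0)) (List.range g)) else 0) +
      (if K ∈ Js 1 then
        F (cst g C (uX k K)) (JG g C (Function.update Js 1 ((Js 1).erase K)) (List.range g))
        (LG g (Function.update (Lst C K) C ((Lst C K C).erase (K - 1))) (List.range g)) else 0) +
      (if 0 ∈ Js C ∧ K ∈ Js 1 then
        F (cst g C (uX k K)) (JG g C (Function.update (Function.update Js C ((Js C).erase 0))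
          1 ((Js 1).erase K)) (List.range g))
        (LG g (Function.update (Function.update (Lst C K) 0 ((Lst C K 0).erase 0))
          C ((Lst C K C).erase (K - 1))) (List.range g)) else 0) := by
  obtain ⟨-, rd2, rd3, rd4⟩ := hRD
  set J := JG g C Js (List.range g) with hJd
  set t := g * (K - 1) + C + 1 with ht
  set n := g * K + C with hn
  have hgK : g * K = g * (K - 1) + g := by
    obtain ⟨r, rfl⟩ : ∃ r, K = r + 1 := ⟨K - 1, by omega⟩
    rw [Nat.add_sub_cancel]; ring
  have hgK2 : g * (2 * K - 1) = g * K + g * (K - 1) := by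
    obtain ⟨r, rfl⟩ : ∃ r, K = r + 1 := ⟨K - 1, by omega⟩
    rw [Nat.add_sub_cancel]
    have : 2 * (r + 1) - 1 = 2 * r + 1 := by omega
    rw [this]; ring
  have hpos : g ≤ g * (K - 1) := Nat.le_mul_of_pos_right g (by omega)
  have hJn : ∀ j ∈ J, j < n := lt_JG Js hCg hJ
  -- the rows
  have hperm : (List.range t).Perm (LG g (Lst C K) (List.range g)) := by
    have h1 := rd2 g t (by omega)
    have h2 : LG g (fun ρ => List.range ((t + g - 1 - ρ) / g)) (List.range g) =
        LG g (Lst C K) (List.range g) := by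
      unfold LG
      apply List.flatMap_congr
      intro ρ hρ
      rw [List.mem_range] at hρ
      show (List.range ((t + g - 1 - ρ) / g)).map _ = (Lst C K ρ).map _
      rw [ht, rows_eq hCg (by omega) hρ]
      rfl
    rwa [h2] at h1
  have hLn : ∀ ρ, (Lst C K ρ).Nodup := fun ρ => List.nodup_range
  have hgn : (List.range g).Nodup := List.nodup_range
  have hlt : ∀ ρ ∈ List.range g, ρ < g := fun ρ hρ => List.mem_range.1 hρ
  have hcC : cc g C C + g * 0 = 0 := by unfold cc; rw [if_pos le_rfl]; omega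
  have hc1 : cc g C 1 + g * K = n - 1 := by unfold cc; rw [if_pos (by omega)]; omega
  have hr0 : 0 + g * 0 = 0 := by omega
  have hrC : C + g * (K - 1) = t - 1 := by omega
  -- membership of the links
  have m0 : 0 ∈ J ↔ 0 ∈ Js C := by
    have := mem_JG Js hCg (ρ := C) (l := 0) hCg
    rwa [hcC] at this
  have m1 : n - 1 ∈ J ↔ K ∈ Js 1 := by
    have := mem_JG Js hCg (ρ := 1) (l := K) (by omega)
    rwa [hc1] at this
  -- the erased index sets
  have eJ0 : J.erase 0 = JG g C (Function.update Js C ((Js C).erase 0)) (List.range g) := by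
    have := rd3 g C Js (Function.update Js C ((Js C).erase 0)) C 0 (List.range g) hCg hlt hgn
      (List.mem_range.2 hCg) (Function.update_self _ _ _)
      (fun ρ hρ => Function.update_of_ne hρ _ _)
    rwa [hcC] at this
  have eJ1 : ∀ Js' : ℕ → Finset ℕ, (JG g C Js' (List.range g)).erase (n - 1) =
      JG g C (Function.update Js' 1 ((Js' 1).erase K)) (List.range g) := by
    intro Js'
    have := rd3 g C Js' (Function.update Js' 1 ((Js' 1).erase K)) 1 K (List.range g) hCg hlt hgn
      (List.mem_range.2 (by omega)) (Function.update_self _ _ _)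
      (fun ρ hρ => Function.update_of_ne hρ _ _)
    rwa [hc1] at this
  have eL0 : ((List.range t).erase 0).Perm
      (LG g (Function.update (Lst C K) 0 ((Lst C K 0).erase 0)) (List.range g)) := by
    have := rd4 g (Lst C K) (Function.update (Lst C K) 0 ((Lst C K 0).erase 0)) 0 0
      (List.range g) hlt hgn (List.mem_range.2 (by omega)) (fun ρ _ => hLn ρ)
      (Function.update_self _ _ _) (fun ρ hρ => Function.update_of_ne hρ _ _)
    rw [hr0] at this
    exact (hperm.erase 0).trans this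
  have eL1 : ∀ (L : List ℕ) (Ls' : ℕ → List ℕ), (∀ ρ, (Ls' ρ).Nodup) →
      L.Perm (LG g Ls' (List.range g)) → (L.erase (t - 1)).Perm
      (LG g (Function.update Ls' C ((Ls' C).erase (K - 1))) (List.range g)) := by
    intro L Ls' hnd hpe
    have := rd4 g Ls' (Function.update Ls' C ((Ls' C).erase (K - 1))) C (K - 1)
      (List.range g) hlt hgn (List.mem_range.2 (by omega)) (fun ρ _ => hnd ρ)
      (Function.update_self _ _ _) (fun ρ hρ => Function.update_of_ne hρ _ _)
    rw [hrC] at this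
    exact (hpe.erase _).trans this
  -- values at the links
  have hv1 : n - 1 + (t - 1) + 1 = g * (2 * K - 1) + 2 * C := by omega
  have hvn : n - 1 + (t - 1) ≠ 0 := by omega
  have q1 : qB2 k C g K (n - 1 + (t - 1)) - x1 k C g K (n - 1 + (t - 1)) = 1 := by
    rw [q_last hv1]
    unfold x1
    rw [if_neg hvn, cst_last _ hC hCg hK hv1, sub_zero]
  have q0 : x1 k C g K 0 - cst g C (uX k K) 0 = 1 := by
    rw [cst_zero _ hC]
    unfold x1
    rw [if_pos rfl, sub_zero]
  have hx' : ∀ v, v ≠ n - 1 + (t - 1) → qB2 k C g K v = x1 k C g K v := by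
    intro v hv
    unfold qB2 x1
    by_cases h0 : v = 0
    · rw [if_pos (Or.inl h0), if_pos h0]
    · rw [if_neg, if_neg h0]
      rintro (h | h)
      · exact h0 h
      · omega
  have hx1 : ∀ v, v ≠ 0 → x1 k C g K v = cst g C (uX k K) v := by
    intro v hv
    unfold x1
    rw [if_neg hv]
  have s1 := hl (x1 k C g K) (qB2 k C g K) (n - 1 + (t - 1)) (n - 1) (t - 1) rfl hx' J
    (List.range t) List.nodup_range (by
      intro j hj c hc h
      have := hJn j hj
      rw [List.mem_range] at hc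
      omega)
  have s2 := hl (cst g C (uX k K)) (x1 k C g K) 0 0 0 rfl hx1 J (List.range t)
    List.nodup_range (by intro j _ c _ h; omega)
  have s3 := hl (cst g C (uX k K)) (x1 k C g K) 0 0 0 rfl hx1 (J.erase (n - 1))
    ((List.range t).erase (t - 1)) (List.nodup_range.erase _) (by intro j _ c _ h; omega)
  have ht1 : t - 1 ∈ List.range t := List.mem_range.2 (by omega)
  have ht0 : 0 ∈ List.range t := List.mem_range.2 (by omega)
  have ht01 : 0 ∈ (List.range t).erase (t - 1) := by
    rw [List.nodup_range.mem_erase_iff]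
    exact ⟨by omega, ht0⟩
  have mJ01 : 0 ∈ J.erase (n - 1) ↔ 0 ∈ Js C := by
    rw [mem_erase, m0]
    constructor
    · exact fun h => h.2
    · exact fun h => ⟨by omega, h⟩
  rw [q1, s3, q0] at s1
  rw [s2, q0] at s1
  simp only [ht1, ht0, ht01, and_true, one_mul, m0, m1, mJ01] at s1
  rw [s1]
  have g0 : F (cst g C (uX k K)) J (List.range t) =
      F (cst g C (uX k K)) J (LG g (Lst C K) (List.range g)) := hp _ _ _ hperm _
  have g1 : F (cst g C (uX k K)) (J.erase 0) ((List.range t).erase 0) =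
      F (cst g C (uX k K)) (JG g C (Function.update Js C ((Js C).erase 0)) (List.range g))
        (LG g (Function.update (Lst C K) 0 ((Lst C K 0).erase 0)) (List.range g)) := by
    rw [eJ0]
    exact hp _ _ _ eL0 _
  have g2 : F (cst g C (uX k K)) (J.erase (n - 1)) ((List.range t).erase (t - 1)) =
      F (cst g C (uX k K)) (JG g C (Function.update Js 1 ((Js 1).erase K)) (List.range g))
        (LG g (Function.update (Lst C K) C ((Lst C K C).erase (K - 1))) (List.range g)) := by
    rw [hJd, eJ1]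
    exact hp _ _ _ (eL1 _ _ hLn hperm) _
  have g3 : F (cst g C (uX k K)) ((J.erase (n - 1)).erase 0)
      (((List.range t).erase (t - 1)).erase 0) =
      F (cst g C (uX k K)) (JG g C (Function.update (Function.update Js C ((Js C).erase 0))
          1 ((Js 1).erase K)) (List.range g))
        (LG g (Function.update (Function.update (Lst C K) 0 ((Lst C K 0).erase 0))
          C ((Lst C K C).erase (K - 1))) (List.range g)) := by
    rw [Finset.erase_right_comm, eJ0, eJ1, List.erase_comm]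
    have h1 : Function.update Js C ((Js C).erase 0) 1 = Js 1 :=
      Function.update_of_ne (by omega) _ _
    have h2 : Function.update (Lst C K) 0 ((Lst C K 0).erase 0) C = Lst C K C :=
      Function.update_of_ne (by omega) _ _
    have h3 := eL1 _ (Function.update (Lst C K) 0 ((Lst C K 0).erase 0)) (by
      intro ρ
      by_cases h : ρ = 0
      · subst h
        rw [Function.update_self]
        exact (hLn 0).erase _
      · rw [Function.update_of_ne h]
        exact hLn ρ) eL0
    rw [h2] at h3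
    rw [h1]
    exact hp _ _ _ h3 _
  rw [g0, g1, g2, g3]
  by_cases c0 : 0 ∈ Js C
  · by_cases c1 : K ∈ Js 1
    · simp only [c0, c1, if_true, and_self]; ring
    · simp only [c0, c1, if_true, if_false, and_false]; ring
  · by_cases c1 : K ∈ Js 1
    · simp only [c0, c1, if_true, if_false, false_and]; ring
    · simp only [c0, c1, if_false, false_and]; ring

/-! ### Permanents of the blocks -/

/-- the permanents of the blocks -/
def Pb (k : Type*) [Field k] (C K ρ : ℕ) (J : Finset ℕ) (L : List ℕ) : k :=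
  pm (fun s => uX k K (s + sh C ρ)) J L

lemma Pb0 {C K ρ : ℕ} (h : ρ ≤ C) (J : Finset ℕ) (L : List ℕ) :
    Pb k C K ρ J L = pm (uX k K) J L := by
  unfold Pb sh
  rw [if_pos h]
  rfl

lemma Pb1 {C K ρ : ℕ} (h : C < ρ) (J : Finset ℕ) (L : List ℕ) :
    Pb k C K ρ J L = pm (fun s => uX k K (s + 1)) J L := by
  unfold Pb sh
  rw [if_neg (by omega)]

/-- the cofactors -/
def ee (k : Type*) [Field k] (K i l : ℕ) : k := if i + l < K then 1 else -1
def ce (k : Type*) [Field k] (K i l : ℕ) : k := if i + l + 1 < K then -1 else 1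
def al (k : Type*) [Field k] (K l : ℕ) : k := if l = 0 ∨ l = K then 0 else 2

lemma fZ {C K ρ : ℕ} (hK : 2 ≤ K) (h : ρ ≤ C) {i l : ℕ} (hi : i < K) (hl : l < K) :
    Pb k C K ρ ((range K).erase l) ((List.range K).erase i) = ee k K i l := by
  rw [Pb0 h]
  exact (cx k K hK).2.1 i hi l hl

lemma fa {C K ρ : ℕ} (hK : 2 ≤ K) (h : ρ ≤ C) {l : ℕ} (hl : l < K + 1) :
    Pb k C K ρ ((range (K + 1)).erase l) (List.range K) = al k K l := by
  rw [Pb0 h]
  exact (cx k K hK).2.2.2.2.1 l hl

lemma fzK {C K ρ : ℕ} (hK : 2 ≤ K) (h : ρ ≤ C) :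
    Pb k C K ρ (range K) (List.range K) = 0 := by
  rw [Pb0 h]
  exact (cx k K hK).1

lemma fy {C K ρ : ℕ} (hK : 2 ≤ K) (h : C < ρ) {l : ℕ} (hl : l < K) :
    Pb k C K ρ ((range K).erase l) (List.range (K - 1)) = 1 := by
  rw [Pb1 h]
  exact (cx k K hK).2.2.2.2.2 l hl

lemma fc {C K ρ : ℕ} (hK : 2 ≤ K) (h : ρ ≤ C) {i l : ℕ} (hi : i < K) (hl : l < K) :
    Pb k C K ρ (((range (K + 1)).erase (l + 1)).erase 0) ((List.range K).erase i) =
      ce k K i l := by
  rw [Pb0 h]
  have h1 := (cx k K hK).2.2.2.1 i hi l hl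
  have h2 := ((BA.te k) (uX k K) (uX k K) 1 0 1 one_pos ((range K).erase l)
    ((List.range K).erase i)).1
  have h3 : (((range K).erase l).image fun l => 1 + 1 * l) =
      ((range (K + 1)).erase (l + 1)).erase 0 := by
    ext j
    simp only [mem_image, mem_erase, mem_range]
    constructor
    · rintro ⟨a, ⟨h4, h5⟩, rfl⟩
      omega
    · rintro ⟨h4, h5, h6⟩
      exact ⟨j - 1, by omega, by omega⟩
  have h4 : (((List.range K).erase i).map fun i => 0 + 1 * i) = (List.range K).erase i := by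
    simp
  rw [h3, h4] at h2
  rw [h2]
  have h5 : (fun s => uX k K (0 + 1 + 1 * s)) = fun s => uX k K (s + 1) := by
    funext s
    congr 1
    omega
  rw [h5]
  exact h1

/-- at most `K` long indices, `K` short indices -/
lemma fz0 {C K ρ : ℕ} (hK : 2 ≤ K) (h : ρ ≤ C) {A : Finset ℕ} (hA : ∀ l ∈ A, l < K) :
    Pb k C K ρ A (List.range K) = 0 := by
  by_cases hc : A.card < K
  · exact (BA.ta k).2.2 _ _ _ (by rw [List.length_range]; exact hc)
  · have : A = range K := Finset.eq_of_subset_of_card_le (fun j hj => mem_range.2 (hA j hj))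
      (by rw [card_range]; omega)
    rw [this]
    exact fzK hK h

/-- at most `K` long indices from `1, ..., K`, `K` short indices -/
lemma fz1 {C K ρ : ℕ} (hK : 2 ≤ K) (h : ρ ≤ C) {A : Finset ℕ}
    (hA : ∀ l ∈ A, l ≠ 0 ∧ l < K + 1) : Pb k C K ρ A (List.range K) = 0 := by
  by_cases hc : A.card < K
  · exact (BA.ta k).2.2 _ _ _ (by rw [List.length_range]; exact hc)
  · have : A = (range (K + 1)).erase 0 := Finset.eq_of_subset_of_card_le
      (fun j hj => mem_erase.2 ⟨(hA j hj).1, mem_range.2 (hA j hj).2⟩)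
      (by rw [card_erase_of_mem (mem_range.2 (by omega)), card_range]; omega)
    rw [this, fa hK h (by omega)]
    unfold al
    rw [if_pos (Or.inl rfl)]

/-- the product over the blocks -/
lemma pm_prod {g C K : ℕ} (hCg : C < g) (Js : ℕ → Finset ℕ) (Ls : ℕ → List ℕ) :
    pm (cst g C (uX k K)) (JG g C Js (List.range g)) (LG g Ls (List.range g)) =
      ∏ ρ ∈ range g, Pb k C K ρ (Js ρ) (Ls ρ) := by
  have := (ra k g C (uX k K) hCg Js Ls (List.range g) [] (by
    rw [List.append_nil]; exact List.nodup_range) (by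
    rw [List.append_nil]; exact fun ρ hρ => List.mem_range.1 hρ)).2.2.2.2.2.2
  rw [this, List.toFinset_range]
  rfl

lemma expand_pm (hLK : StmLK k) (hRD : StmRD) {C g K : ℕ} (hC : 2 ≤ C) (hCg : C < g)
    (hK : 2 ≤ K) (Js : ℕ → Finset ℕ) (hJ : ∀ ρ < g, ∀ l ∈ Js ρ, l < cols C K ρ) :
    pm (qB2 k C g K) (JG g C Js (List.range g)) (List.range (g * (K - 1) + C + 1)) = 0 := by
  rw [expand (F := fun x J L => pm x J L) (fun x L L' h J => (BA.ta k).1 x L L' h J)
    (fun x x' z j₀ c₀ h1 h2 J L h3 h4 => (hLK.1 x x' x z j₀ c₀ h1 h2 J L h3 h4).1)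
    hRD hC hCg hK Js hJ]
  have hL0 : Lst C K 0 = List.range K := by unfold Lst rows; rw [if_pos (Nat.zero_le _)]
  have hLC : Lst C K C = List.range K := by unfold Lst rows; rw [if_pos le_rfl]
  have hL1 : Lst C K 1 = List.range K := by unfold Lst rows; rw [if_pos (by omega)]
  have hc0 : cols C K 0 = K := if_pos rfl
  have hcC : cols C K C = K + 1 := by unfold cols; rw [if_neg (by omega), if_pos le_rfl]
  have hc1 : cols C K 1 = K + 1 := by unfold cols; rw [if_neg (by omega), if_pos (by omega)]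
  have z0 : pm (cst g C (uX k K)) (JG g C Js (List.range g))
      (LG g (Lst C K) (List.range g)) = 0 := by
    rw [pm_prod hCg]
    refine prod_eq_zero (mem_range.2 (show 0 < g by omega)) ?_
    rw [hL0]
    exact fz0 hK (Nat.zero_le _) fun l hl => by
      have := hJ 0 (by omega) l hl
      rwa [hc0] at this
  have z1 : pm (cst g C (uX k K)) (JG g C (Function.update Js C ((Js C).erase 0))
      (List.range g)) (LG g (Function.update (Lst C K) 0 ((Lst C K 0).erase 0))
      (List.range g)) = 0 := by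
    rw [pm_prod hCg]
    refine prod_eq_zero (mem_range.2 hCg) ?_
    rw [Function.update_self, Function.update_of_ne (by omega), hLC]
    exact fz1 hK le_rfl fun l hl => by
      rw [mem_erase] at hl
      have := hJ C hCg l hl.2
      rw [hcC] at this
      exact ⟨hl.1, this⟩
  have z2 : pm (cst g C (uX k K)) (JG g C (Function.update Js 1 ((Js 1).erase K))
      (List.range g)) (LG g (Function.update (Lst C K) C ((Lst C K C).erase (K - 1)))
      (List.range g)) = 0 := by
    rw [pm_prod hCg]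
    refine prod_eq_zero (mem_range.2 (show 0 < g by omega)) ?_
    rw [Function.update_of_ne (by omega), Function.update_of_ne (by omega), hL0]
    exact fz0 hK (Nat.zero_le _) fun l hl => by
      have := hJ 0 (by omega) l hl
      rwa [hc0] at this
  have z3 : pm (cst g C (uX k K)) (JG g C (Function.update (Function.update Js C
      ((Js C).erase 0)) 1 ((Js 1).erase K)) (List.range g))
      (LG g (Function.update (Function.update (Lst C K) 0 ((Lst C K 0).erase 0))
      C ((Lst C K C).erase (K - 1))) (List.range g)) = 0 := by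
    rw [pm_prod hCg]
    refine prod_eq_zero (mem_range.2 (show 1 < g by omega)) ?_
    rw [Function.update_self, Function.update_of_ne (by omega),
      Function.update_of_ne (by omega), hL1]
    exact fz0 hK (by omega) fun l hl => by
      rw [mem_erase] at hl
      have := hJ 1 (by omega) l hl.2
      rw [hc1] at this
      omega
  rw [z0, z1, z2, z3]
  simp

/-- membership -/
lemma vt (hLK : StmLK k) (hRD : StmRD) {C g K : ℕ} (hC : 2 ≤ C) (hCg : C < g)
    (hK : 2 ≤ K) : Vt (g * K + C) (g * (K - 1) + C + 1) (qB2 k C g K) := by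
  intro J _ hJn
  have h1 := hRD.1 g C hCg J
  rw [h1]
  apply expand_pm hLK hRD hC hCg hK
  intro ρ hρ l hl
  rw [mem_image] at hl
  obtain ⟨j, hj, rfl⟩ := hl
  rw [mem_filter] at hj
  rw [← long_iff hCg hρ, ← hj.2, Nat.mod_add_div]
  exact hJn j hj.1

/-! ### The tangent equation -/

/-- the derivative for given index sets of the blocks -/
def PD (k : Type*) [Field k] (C g K : ℕ) (y : ℕ → k) (Js : ℕ → Finset ℕ) (Ls : ℕ → List ℕ) : k :=
  pd (cst g C (uX k K)) y (JG g C Js (List.range g)) (LG g Ls (List.range g))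

lemma card_JG (k : Type*) [Field k] {g C : ℕ} (hCg : C < g) (Js : ℕ → Finset ℕ) :
    (JG g C Js (List.range g)).card = ∑ ρ ∈ range g, (Js ρ).card := by
  have := (ra k g C (uX k 0) hCg Js (fun _ => []) (List.range g) [] (by
    rw [List.append_nil]; exact List.nodup_range) (by
    rw [List.append_nil]; exact fun ρ hρ => List.mem_range.1 hρ)).2.2.2.1
  rw [this, List.toFinset_range]

lemma sum_Lst (k : Type*) [Field k] (hRD : StmRD) {C g K : ℕ} (hCg : C < g) (hK : 2 ≤ K) :
    g * (K - 1) + C + 1 = ∑ ρ ∈ range g, (Lst C K ρ).length := by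
  have h0 := (ra k g C (uX k 0) hCg (fun _ => ∅) (Lst C K) (List.range g) [] (by
    rw [List.append_nil]; exact List.nodup_range) (by
    rw [List.append_nil]; exact fun ρ hρ => List.mem_range.1 hρ)).2.2.2.2.1
  rw [List.toFinset_range] at h0
  rw [← h0]
  have h1 := (hRD.2.1 g (g * (K - 1) + C + 1) (by omega)).length_eq
  rw [List.length_range] at h1
  have h2 : LG g (fun ρ => List.range ((g * (K - 1) + C + 1 + g - 1 - ρ) / g)) (List.range g) =
      LG g (Lst C K) (List.range g) := by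
    unfold LG
    apply List.flatMap_congr
    intro ρ hρ
    rw [List.mem_range] at hρ
    show (List.range ((g * (K - 1) + C + 1 + g - 1 - ρ) / g)).map _ = (Lst C K ρ).map _
    rw [rows_eq hCg (by omega) hρ]
    rfl
  rw [h2] at h1
  exact h1

lemma upd_C {C K s : ℕ} (hC : 2 ≤ C) (A0 AC A1 As B : Finset ℕ) :
    Function.update (JsD C K s A0 AC A1 As) C B = JsD C K s A0 B A1 As := by
  funext ρ
  by_cases h : ρ = C
  · subst h
    rw [Function.update_self]
    unfold JsD
    rw [if_neg (by omega), if_pos rfl]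
  · rw [Function.update_of_ne h]
    unfold JsD
    rw [if_neg h, if_neg h]

lemma upd_1 {C K s : ℕ} (hC : 2 ≤ C) (A0 AC A1 As B : Finset ℕ) :
    Function.update (JsD C K s A0 AC A1 As) 1 B = JsD C K s A0 AC B As := by
  funext ρ
  by_cases h : ρ = 1
  · subst h
    rw [Function.update_self]
    unfold JsD
    rw [if_neg (by omega), if_neg (by omega), if_pos rfl]
  · rw [Function.update_of_ne h]
    unfold JsD
    rw [if_neg h, if_neg h]

lemma updL_0 {C K : ℕ} (B : List ℕ) :
    Function.update (Lst C K) 0 B = LsD C K B (List.range K) := by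
  funext ρ
  by_cases h : ρ = 0
  · subst h
    rw [Function.update_self]
    unfold LsD
    rw [if_pos rfl]
  · rw [Function.update_of_ne h]
    unfold LsD
    rw [if_neg h]
    by_cases h2 : ρ = C
    · rw [if_pos h2, h2]
      unfold Lst rows
      rw [if_pos le_rfl]
    · rw [if_neg h2]

lemma updL_C {C K : ℕ} (hC : 2 ≤ C) (B0 BC B : List ℕ) :
    Function.update (LsD C K B0 BC) C B = LsD C K B0 B := by
  funext ρ
  by_cases h : ρ = C
  · subst h
    rw [Function.update_self]
    unfold LsD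
    rw [if_neg (by omega), if_pos rfl]
  · rw [Function.update_of_ne h]
    unfold LsD
    rw [if_neg h, if_neg h]

lemma tan_eq (hLK : StmLK k) (hRD : StmRD) {C g K : ℕ} (hC : 2 ≤ C) (hCg : C < g)
    (hK : 2 ≤ K) {y : ℕ → k} (hy : Tt (g * K + C) (g * (K - 1) + C + 1) (qB2 k C g K) y)
    (s s' : ℕ) (hs' : s' < g) (A0 AC A1 As : Finset ℕ)
    (hb : ∀ ρ < g, ∀ l ∈ JsD C K s A0 AC A1 As ρ, l < cols C K ρ)
    (hc : ∀ ρ < g, (JsD C K s A0 AC A1 As ρ).card + (if ρ = 0 then 1 else 0) =
      (Lst C K ρ).length + (if ρ = s' then 1 else 0)) :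
    PD k C g K y (JsD C K s A0 AC A1 As) (LsD C K (List.range K) (List.range K)) +
    (if 0 ∈ AC then PD k C g K y (JsD C K s A0 (AC.erase 0) A1 As)
      (LsD C K ((List.range K).erase 0) (List.range K)) else 0) +
    (if K ∈ A1 then PD k C g K y (JsD C K s A0 AC (A1.erase K) As)
      (LsD C K (List.range K) ((List.range K).erase (K - 1))) else 0) +
    (if 0 ∈ AC ∧ K ∈ A1 then PD k C g K y (JsD C K s A0 (AC.erase 0) (A1.erase K) As)
      (LsD C K ((List.range K).erase 0) ((List.range K).erase (K - 1))) else 0) = 0 := by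
  have h1 := expand (F := fun x J L => pd x y J L) (fun x L L' h J => (BA.ta k).2.1 x y L L' h J)
    (fun x x' z j₀ c₀ h1 h2 J L h3 h4 => (hLK.1 x x' y z j₀ c₀ h1 h2 J L h3 h4).2.1)
    hRD hC hCg hK (JsD C K s A0 AC A1 As) hb
  have h2 := hy (JG g C (JsD C K s A0 AC A1 As) (List.range g)) (by
    rw [card_JG k hCg, sum_Lst k hRD hCg hK]
    have h3 := sum_congr rfl (fun ρ (hρ : ρ ∈ range g) => hc ρ (mem_range.1 hρ))
    rw [sum_add_distrib, sum_add_distrib, sum_ite_eq', sum_ite_eq', if_pos (mem_range.2 hs'),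
      if_pos (mem_range.2 (show 0 < g by omega))] at h3
    omega) (lt_JG _ hCg hb)
  have hL0 : Lst C K 0 = List.range K := by unfold Lst rows; rw [if_pos (Nat.zero_le _)]
  have hLC : Lst C K C = List.range K := by unfold Lst rows; rw [if_pos le_rfl]
  have hJC : JsD C K s A0 AC A1 As C = AC := by
    unfold JsD; rw [if_neg (by omega), if_pos rfl]
  have hJ1 : JsD C K s A0 AC A1 As 1 = A1 := by
    unfold JsD; rw [if_neg (by omega), if_neg (by omega), if_pos rfl]
  rw [h2] at h1
  rw [hL0, hLC, hJC, hJ1, upd_C hC, upd_1 hC, upd_1 hC, updL_0, updL_C hC] at h1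
  have hu : Function.update (Lst C K) C ((List.range K).erase (K - 1)) =
      LsD C K (List.range K) ((List.range K).erase (K - 1)) := by
    rw [← LsD_self, updL_C hC]
  rw [hu] at h1
  rw [← LsD_self] at h1
  exact h1.symm

/-! ### Values of the derivative -/

lemma PD3 (hRF : StmRF k) {C g K : ℕ} (hCg : C < g) (y : ℕ → k) {Js : ℕ → Finset ℕ}
    {Ls : ℕ → List ℕ} {ρ₁ ρ₂ : ℕ} (h1 : ρ₁ < g) (h2 : ρ₂ < g) (hne : ρ₁ ≠ ρ₂)
    (hnd : ∀ ρ < g, (Ls ρ).Nodup) (c1 : (Js ρ₁).card + 1 = (Ls ρ₁).length)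
    (c2 : (Js ρ₂).card = (Ls ρ₂).length + 1)
    (c3 : ∀ ρ < g, ρ ≠ ρ₁ → ρ ≠ ρ₂ → (Js ρ).card = (Ls ρ).length) (hL : Ls ρ₁ = List.range K)
    (f1 f2 : ℕ → k) (hf1 : ∀ i < K, Pb k C K ρ₁ (Js ρ₁) ((List.range K).erase i) = f1 i)
    (A2 : Finset ℕ) (hA2 : Js ρ₂ = A2)
    (hf2 : ∀ l ∈ A2, Pb k C K ρ₂ (A2.erase l) (Ls ρ₂) = f2 l) (R : k)
    (hR : ∏ ρ ∈ ((range g).erase ρ₁).erase ρ₂, Pb k C K ρ (Js ρ) (Ls ρ) = R) :
    PD k C g K y Js Ls = (∑ i ∈ range K, (∑ l ∈ A2,
      y (ρ₁ + g * i + (cc g C ρ₂ + g * l)) * f2 l) * f1 i) * R := by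
  subst hA2
  have h3 := (hRF g C (uX k K) y hCg Js Ls (List.range g) List.nodup_range
    (fun ρ hρ => List.mem_range.1 hρ) (fun ρ hρ => hnd ρ (List.mem_range.1 hρ))).2.2.1 ρ₁
    (List.mem_range.2 h1) ρ₂ (List.mem_range.2 h2) hne c1 c2
    (fun ρ hρ => c3 ρ (List.mem_range.1 hρ))
  unfold PD
  rw [h3, List.toFinset_range, ← hR, hL, List.toFinset_range]
  congr 1
  refine sum_congr rfl fun i hi => ?_
  rw [sum_mul]
  refine sum_congr rfl fun l hl => ?_
  have h4 := hf1 i (mem_range.1 hi)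
  have h5 := hf2 l hl
  unfold Pb at h4 h5
  rw [h4, h5]
  ring

lemma PD2 (hRF : StmRF k) {C g K : ℕ} (hCg : C < g) (y : ℕ → k) {Js : ℕ → Finset ℕ}
    {Ls : ℕ → List ℕ} {ρ₀ : ℕ} (h0 : ρ₀ < g) (hnd : ∀ ρ < g, (Ls ρ).Nodup)
    (c3 : ∀ ρ < g, (Js ρ).card = (Ls ρ).length)
    (hz : Pb k C K ρ₀ (Js ρ₀) (Ls ρ₀) = 0) (R : k)
    (hR : ∏ ρ ∈ (range g).erase ρ₀, Pb k C K ρ (Js ρ) (Ls ρ) = R) :
    PD k C g K y Js Ls = pd (fun s => uX k K (s + sh C ρ₀))
      (fun s => y (C + g * (s + sh C ρ₀))) (Js ρ₀) (Ls ρ₀) * R := by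
  have h3 := (hRF g C (uX k K) y hCg Js Ls (List.range g) List.nodup_range
    (fun ρ hρ => List.mem_range.1 hρ) (fun ρ hρ => hnd ρ (List.mem_range.1 hρ))).2.1
    (fun ρ hρ => c3 ρ (List.mem_range.1 hρ))
  unfold PD
  rw [h3, List.toFinset_range, sum_eq_single ρ₀]
  · rw [← hR]
    rfl
  · intro ρ _ hρ2
    have : ∏ ρ' ∈ (range g).erase ρ, pm (fun s => uX k K (s + sh C ρ')) (Js ρ') (Ls ρ') = 0 :=
      prod_eq_zero (mem_erase.2 ⟨fun h => hρ2 h.symm, mem_range.2 h0⟩) hz
    rw [this, mul_zero]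
  · intro h
    exact absurd (mem_range.2 h0) h

lemma PD5 (hRF : StmRF k) {C g K : ℕ} (hCg : C < g) (y : ℕ → k) {Js : ℕ → Finset ℕ}
    {Ls : ℕ → List ℕ} {ρ₁ ρ₂ : ℕ} (h1 : ρ₁ < g) (h2 : ρ₂ < g) (hne : ρ₁ ≠ ρ₂)
    (hnd : ∀ ρ < g, (Ls ρ).Nodup) (c1 : (Js ρ₁).card < (Ls ρ₁).length)
    (c2 : (Js ρ₂).card < (Ls ρ₂).length) :
    PD k C g K y Js Ls = 0 :=
  (hRF g C (uX k K) y hCg Js Ls (List.range g) List.nodup_range
    (fun ρ hρ => List.mem_range.1 hρ) (fun ρ hρ => hnd ρ (List.mem_range.1 hρ))).2.2.2.2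
    ⟨ρ₁, List.mem_range.2 h1, ρ₂, List.mem_range.2 h2, hne, c1, c2⟩

/-- the default blocks -/
def RR (C g s : ℕ) : Finset ℕ := (range g).filter fun ρ => ρ ≠ 0 ∧ ρ ≠ 1 ∧ ρ ≠ C ∧ ρ ≠ s

lemma mem_RR {C g s ρ : ℕ} : ρ ∈ RR C g s ↔ ρ < g ∧ ρ ≠ 0 ∧ ρ ≠ 1 ∧ ρ ≠ C ∧ ρ ≠ s := by
  unfold RR
  rw [mem_filter, mem_range]

/-- the product over the default blocks -/
def FF (k : Type*) [Field k] (C g K s : ℕ) : k :=
  ∏ ρ ∈ RR C g s, Pb k C K ρ (Dd C K ρ) (Lst C K ρ)

lemma FF_ne (h2 : (2 : k) ≠ 0) {C g K s : ℕ} (hK : 2 ≤ K) : FF k C g K s ≠ 0 := by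
  unfold FF
  rw [prod_ne_zero_iff]
  intro ρ _
  unfold Dd Lst rows
  by_cases h : ρ ≤ C
  · rw [if_pos h, if_pos h, fa hK h (by omega)]
    unfold al
    rw [if_neg (by omega)]
    exact h2
  · rw [if_neg h, if_neg h, fy hK (by omega) (by omega)]
    exact one_ne_zero

lemma card_Dd {C K ρ : ℕ} (hK : 2 ≤ K) : (Dd C K ρ).card = (Lst C K ρ).length := by
  unfold Dd Lst rows
  rw [List.length_range]
  split_ifs with h
  · rw [card_erase_of_mem (mem_range.2 (by omega)), card_range]
    omega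
  · rw [card_erase_of_mem (mem_range.2 (by omega)), card_range]

lemma prodR {C g K s : ℕ} (A0 AC A1 As : Finset ℕ) (B0 BC : List ℕ) :
    ∏ ρ ∈ RR C g s, Pb k C K ρ (JsD C K s A0 AC A1 As ρ) (LsD C K B0 BC ρ) = FF k C g K s := by
  unfold FF
  refine prod_congr rfl fun ρ hρ => ?_
  obtain ⟨-, h0, h1, hC, hs⟩ := mem_RR.1 hρ
  unfold JsD LsD
  rw [if_neg h0, if_neg hC, if_neg h1, if_neg hs, if_neg h0, if_neg hC]

lemma prod2 {C g s : ℕ} (f : ℕ → k) (B : Finset ℕ) (c d : ℕ) (hcd : c ≠ d)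
    (hB : ∀ ρ, ρ ∈ B ↔ ρ = c ∨ ρ = d ∨ ρ ∈ RR C g s) (hc : c ∉ RR C g s) (hd : d ∉ RR C g s) :
    ∏ ρ ∈ B, f ρ = f c * (f d * ∏ ρ ∈ RR C g s, f ρ) := by
  have : B = insert c (insert d (RR C g s)) := by
    ext ρ
    rw [hB, mem_insert, mem_insert]
  rw [this, prod_insert, prod_insert hd]
  rw [mem_insert, not_or]
  exact ⟨hcd, hc⟩

lemma prod1 {C g s : ℕ} (f : ℕ → k) (B : Finset ℕ) (c : ℕ)
    (hB : ∀ ρ, ρ ∈ B ↔ ρ = c ∨ ρ ∈ RR C g s) (hc : c ∉ RR C g s) :
    ∏ ρ ∈ B, f ρ = f c * ∏ ρ ∈ RR C g s, f ρ := by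
  have : B = insert c (RR C g s) := by
    ext ρ
    rw [hB, mem_insert]
  rw [this, prod_insert hc]

/-! ### Linear algebra -/

lemma sumS {K : ℕ} (hK : 2 ≤ K) (A B : k) (f : ℕ → k) :
    ∑ i ∈ range K, (if i = 0 then A else if i + 1 = K then B else 0) * f i =
      A * f 0 + B * f (K - 1) := by
  have h1 : ∀ i ∈ range K, (if i = 0 then A else if i + 1 = K then B else 0) * f i =
      (if i = 0 then A * f 0 else 0) + if i = K - 1 then B * f (K - 1) else 0 := by
    intro i hi
    rw [mem_range] at hi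
    by_cases h0 : i = 0
    · subst h0
      rw [if_pos rfl, if_pos rfl, if_neg (by omega), add_zero]
    · rw [if_neg h0, if_neg h0, zero_add]
      by_cases h2 : i = K - 1
      · rw [if_pos (by omega), if_pos h2, h2]
      · rw [if_neg (by omega), if_neg h2, zero_mul]
  rw [sum_congr rfl h1, sum_add_distrib, sum_ite_eq', sum_ite_eq',
    if_pos (mem_range.2 (by omega)), if_pos (mem_range.2 (by omega))]

lemma solve1 (h2 : (2 : k) ≠ 0) {K : ℕ} (hK : 2 ≤ K) (W : ℕ → k) (A B : k)
    (h : ∀ l < K, ∑ i ∈ range K, W i * ee k K i l = A * ee k K 0 l + B * ee k K (K - 1) l) :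
    ∀ i < K, W i = if i = 0 then A else if i + 1 = K then B else 0 := by
  have h1 := (ci k h2 K
    (fun i => W i - if i = 0 then A else if i + 1 = K then B else 0)).1 (by
      intro l hl
      have h3 := h l hl
      rw [← sumS hK A B (fun i => ee k K i l), ← sub_eq_zero, ← sum_sub_distrib] at h3
      refine Eq.trans (sum_congr rfl fun i _ => ?_) h3
      unfold ee
      ring)
  intro i hi
  exact sub_eq_zero.1 (h1 i hi)

lemma solve2 (h2 : (2 : k) ≠ 0) {K : ℕ} (hK : 2 ≤ K) (W : ℕ → k) (A B : k)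
    (h : ∀ l < K, ∑ i ∈ range K, W i * ce k K i l = A * ce k K 0 l + B * ce k K (K - 1) l) :
    ∀ i < K, W i = if i = 0 then A else if i + 1 = K then B else 0 := by
  have h1 := (ci k h2 K
    (fun i => W i - if i = 0 then A else if i + 1 = K then B else 0)).2.1 (by
      intro l hl
      have h3 := h l hl
      rw [← sumS hK A B (fun i => ce k K i l), ← sub_eq_zero, ← sum_sub_distrib] at h3
      refine Eq.trans (sum_congr rfl fun i _ => ?_) h3
      unfold ce
      ring)
  intro i hi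
  exact sub_eq_zero.1 (h1 i hi)

/-- row `Z` -/
lemma solveZ (h2 : (2 : k) ≠ 0) {K : ℕ} (hK : 2 ≤ K) (W : ℕ → k) (w : k)
    (h : ∀ l < K, ∑ i ∈ range K, W i * ee k K i l = - w) :
    ∀ i < K, W i = if i = 0 then - w else 0 := by
  intro i hi
  have h1 := solve1 h2 hK W (-w) 0 (by
    intro l hl
    rw [h l hl]
    unfold ee
    rw [if_pos (by omega)]
    ring) i hi
  rw [h1]
  split_ifs <;> rfl

/-- row `B_C` -/
lemma solveC (h2 : (2 : k) ≠ 0) {K : ℕ} (hK : 2 ≤ K) (W : ℕ → k) (w₀ w₁ : k)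
    (h : ∀ l < K, ∑ i ∈ range K, W i * ce k K i l = w₀ * al k K (l + 1) - w₁) :
    ∀ i < K, W i = if i = 0 then - w₀ else if i + 1 = K then w₀ - w₁ else 0 := by
  refine solve2 h2 hK W (-w₀) (w₀ - w₁) ?_
  intro l hl
  rw [h l hl]
  unfold al ce
  by_cases h3 : l + 1 = K
  · rw [if_pos (Or.inr h3), if_neg (by omega), if_neg (by omega)]
    ring
  · rw [if_neg (by omega), if_pos (by omega), if_neg (by omega)]
    ring

/-- row `B_1` -/
lemma solveB (h2 : (2 : k) ≠ 0) {K : ℕ} (hK : 2 ≤ K) (W : ℕ → k) (w₁ : k)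
    (h : ∀ l < K, ∑ i ∈ range K, W i * ee k K i l = w₁ * al k K l) :
    ∀ i < K, W i = if i = 0 then w₁ else if i + 1 = K then - w₁ else 0 := by
  refine solve1 h2 hK W w₁ (-w₁) ?_
  intro l hl
  rw [h l hl]
  unfold al ee
  by_cases h3 : l = 0
  · rw [if_pos (Or.inl h3), if_pos (by omega), if_pos (by omega)]
    ring
  · rw [if_neg (by omega), if_pos (by omega), if_neg (by omega)]
    ring

/-! ### Values of the index sets -/

section vals
variable {C K s : ℕ} (A0 AC A1 As : Finset ℕ) (B0 BC : List ℕ)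

lemma J0 : JsD C K s A0 AC A1 As 0 = A0 := if_pos rfl

lemma JC (hC : 2 ≤ C) : JsD C K s A0 AC A1 As C = AC := by
  unfold JsD; rw [if_neg (by omega), if_pos rfl]

lemma J1 (hC : 2 ≤ C) : JsD C K s A0 AC A1 As 1 = A1 := by
  unfold JsD; rw [if_neg (by omega), if_neg (by omega), if_pos rfl]

lemma JS (h0 : s ≠ 0) (h1 : s ≠ 1) (hC : s ≠ C) : JsD C K s A0 AC A1 As s = As := by
  unfold JsD; rw [if_neg h0, if_neg hC, if_neg h1, if_pos rfl]

lemma L0 : LsD C K B0 BC 0 = B0 := if_pos rfl

lemma LC (hC : 2 ≤ C) : LsD C K B0 BC C = BC := by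
  unfold LsD; rw [if_neg (by omega), if_pos rfl]

lemma L1 (hC : 2 ≤ C) : LsD C K B0 BC 1 = List.range K := by
  unfold LsD Lst rows; rw [if_neg (by omega), if_neg (by omega), if_pos (by omega)]

lemma LS {ρ : ℕ} (h0 : ρ ≠ 0) (hC : ρ ≠ C) : LsD C K B0 BC ρ = Lst C K ρ := by
  unfold LsD; rw [if_neg h0, if_neg hC]

lemma nd {g : ℕ} (h0 : B0.Nodup) (hC : BC.Nodup) : ∀ ρ < g, (LsD C K B0 BC ρ).Nodup := by
  intro ρ _
  unfold LsD
  split_ifs
  · exact h0
  · exact hC
  · exact List.nodup_range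

lemma sz {g : ℕ} (hC : 2 ≤ C) (hK : 2 ≤ K) (E : ℕ → Prop) (h0 : E 0 ∨ A0.card = B0.length)
    (hC' : E C ∨ AC.card = BC.length) (h1 : E 1 ∨ A1.card = K)
    (hs : E s ∨ (s = 0 ∨ s = C ∨ s = 1) ∨ As.card = (Lst C K s).length) :
    ∀ ρ < g, ¬ E ρ → (JsD C K s A0 AC A1 As ρ).card = (LsD C K B0 BC ρ).length := by
  intro ρ _ hE
  by_cases e0 : ρ = 0
  · subst e0
    rw [J0, L0]
    exact h0.resolve_left hE
  by_cases eC : ρ = C
  · subst eC
    rw [JC _ _ _ _ hC, LC _ _ hC]
    exact hC'.resolve_left hE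
  by_cases e1 : ρ = 1
  · subst e1
    rw [J1 _ _ _ _ hC, L1 _ _ hC, List.length_range]
    exact h1.resolve_left hE
  rw [LS _ _ e0 eC]
  by_cases es : ρ = s
  · subst es
    rw [JS _ _ _ _ e0 e1 eC]
    rcases hs with h | (h | h | h) | h
    · exact absurd h hE
    · exact absurd h e0
    · exact absurd h eC
    · exact absurd h e1
    · exact h
  · unfold JsD
    rw [if_neg e0, if_neg eC, if_neg e1, if_neg es]
    exact card_Dd hK

end vals

lemma card_er {n l : ℕ} (h : l < n) : ((range n).erase l).card = n - 1 := by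
  rw [card_erase_of_mem (mem_range.2 h), card_range]

lemma len_er {n l : ℕ} (h : l < n) : ((List.range n).erase l).length = n - 1 := by
  rw [List.length_erase_of_mem (List.mem_range.2 h), List.length_range]

lemma card_er2 {K l m : ℕ} (h : l < K + 1) (hm : m < K + 1) (hlm : l ≠ m) :
    (((range (K + 1)).erase l).erase m).card = K - 1 := by
  rw [card_erase_of_mem (mem_erase.2 ⟨hlm.symm, mem_range.2 hm⟩), card_er h]
  omega

lemma er_last {K : ℕ} (l : ℕ) : ((range (K + 1)).erase l).erase K = (range K).erase l := by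
  ext j
  simp only [mem_erase, mem_range]
  omega

lemma er_last' {K : ℕ} : (range (K + 1)).erase K = range K := by
  ext j
  simp only [mem_erase, mem_range]
  omega

lemma cols_le {C K ρ : ℕ} : cols C K ρ ≤ K + 1 := by
  unfold cols
  split_ifs <;> omega

/-- bounds for the index sets -/
lemma bnd {C K s g : ℕ} (hC : 2 ≤ C) (A0 AC A1 As : Finset ℕ) (h0 : A0 ⊆ range K)
    (h1 : AC ⊆ range (K + 1)) (h2 : A1 ⊆ range (K + 1)) (h3 : As ⊆ range (cols C K s)) :
    ∀ ρ < g, ∀ l ∈ JsD C K s A0 AC A1 As ρ, l < cols C K ρ := by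
  intro ρ _ l hl
  by_cases e0 : ρ = 0
  · subst e0
    rw [J0] at hl
    have : cols C K 0 = K := if_pos rfl
    rw [this]
    exact mem_range.1 (h0 hl)
  by_cases eC : ρ = C
  · subst eC
    rw [JC _ _ _ _ hC] at hl
    have : cols ρ K ρ = K + 1 := by unfold cols; rw [if_neg e0, if_pos le_rfl]
    rw [this]
    exact mem_range.1 (h1 hl)
  by_cases e1 : ρ = 1
  · subst e1
    rw [J1 _ _ _ _ hC] at hl
    have : cols C K 1 = K + 1 := by unfold cols; rw [if_neg e0, if_pos (by omega)]
    rw [this]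
    exact mem_range.1 (h2 hl)
  by_cases es : ρ = s
  · subst es
    rw [JS _ _ _ _ e0 e1 eC] at hl
    exact mem_range.1 (h3 hl)
  · unfold JsD at hl
    rw [if_neg e0, if_neg eC, if_neg e1, if_neg es] at hl
    unfold Dd at hl
    unfold cols
    rw [if_neg e0]
    by_cases h : ρ ≤ C
    · rw [if_pos h] at hl ⊢
      exact mem_range.1 (mem_of_mem_erase hl)
    · rw [if_neg h] at hl ⊢
      exact mem_range.1 (mem_of_mem_erase hl)

/-! ### The generic sink -/

/-- the weights of a sink block -/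
def wt (k : Type*) [Field k] (C K s l : ℕ) : k :=
  Pb k C K s ((range (cols C K s)).erase l) (Lst C K s)

/-- the windows of a sink block -/
def WS (k : Type*) [Field k] (C g K : ℕ) (y : ℕ → k) (s h i : ℕ) : k :=
  ∑ l ∈ range (cols C K s), y (h + g * i + (cc g C s + g * l)) * wt k C K s l

/-- the relations of a sink -/
def RelS (K : ℕ) (WZ WC WB : ℕ → k) (w₀ w₁ : k) : Prop :=
  (∀ i < K, WZ i = if i = 0 then - w₀ else 0) ∧
  (∀ i < K, WC i = if i = 0 then - w₀ else if i + 1 = K then w₀ - w₁ else 0) ∧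
  ∀ i < K, WB i = if i = 0 then w₁ else if i + 1 = K then - w₁ else 0

lemma card_sink {C K s : ℕ} (hK : 2 ≤ K) (h0 : s ≠ 0) :
    (range (cols C K s)).card = (Lst C K s).length + 1 := by
  unfold cols Lst rows
  rw [List.length_range, card_range, if_neg h0]
  split_ifs <;> omega

lemma caseG (h2 : (2 : k) ≠ 0) (hLK : StmLK k) (hRF : StmRF k) (hRD : StmRD) (hCH : StmCH k)
    {C g K : ℕ} (hC : 2 ≤ C) (hCg : C < g) (hK : 2 ≤ K) {y : ℕ → k}
    (hy : Tt (g * K + C) (g * (K - 1) + C + 1) (qB2 k C g K) y)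
    {s : ℕ} (hs0 : s ≠ 0) (hs1 : s ≠ 1) (hsC : s ≠ C) (hsg : s < g) :
    ∃ w₀ w₁ : k, RelS K (WS k C g K y s 0) (WS k C g K y s C) (WS k C g K y s 1) w₀ w₁ := by
  have hF := FF_ne (k := k) (C := C) (g := g) (K := K) (s := s) h2 hK
  set F := FF k C g K s with hFd
  set As := range (cols C K s) with hAs
  have n0 : 0 ∉ RR C g s := by rw [mem_RR]; tauto
  have n1 : 1 ∉ RR C g s := by rw [mem_RR]; tauto
  have nC : C ∉ RR C g s := by rw [mem_RR]; tauto
  have rz : ∀ n, (List.range n).Nodup := fun n => List.nodup_range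
  have hee : ∀ l < K, ee k K 0 l = 1 := fun l hl => by unfold ee; rw [if_pos (by omega)]
  have hce : ∀ l < K, ce k K (K - 1) l = 1 := fun l hl => by unfold ce; rw [if_neg (by omega)]
  have T00 : ∀ l0 < K, ∀ l1 < K + 1, ∀ l2 < K + 1,
      PD k C g K y (JsD C K s ((range K).erase l0) ((range (K + 1)).erase l1)
        ((range (K + 1)).erase l2) As) (LsD C K (List.range K) (List.range K)) =
      (∑ i ∈ range K, WS k C g K y s 0 i * ee k K i l0) * (al k K l1 * (al k K l2 * F)) := by
    intro l0 h0 l1 h1 l2 h2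
    refine PD3 hRF hCg y (show 0 < g by omega) hsg (Ne.symm hs0) (nd _ _ (rz _) (rz _)) ?_ ?_ ?_
      (L0 _ _) (fun i => ee k K i l0) (wt k C K s) ?_ As (JS _ _ _ _ hs0 hs1 hsC) ?_ _ ?_
    · rw [J0, L0, card_er h0, List.length_range]; omega
    · rw [JS _ _ _ _ hs0 hs1 hsC, LS _ _ hs0 hsC]; exact card_sink hK hs0
    · intro ρ hρ e1 e2
      exact sz _ _ _ _ _ _ hC hK (fun ρ => ρ = 0 ∨ ρ = s) (Or.inl (Or.inl rfl))
        (Or.inr (by rw [card_er h1, List.length_range]; omega))
        (Or.inr (by rw [card_er h2]; omega)) (Or.inl (Or.inr rfl)) ρ hρ (by tauto)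
    · intro i hi
      rw [J0]
      exact fZ hK (Nat.zero_le _) hi h0
    · intro l _
      rw [LS _ _ hs0 hsC]
      rfl
    · rw [prod2 (s := s) (C := C) (g := g) _ _ C 1 (by omega) (by
        intro ρ
        rw [mem_erase, mem_erase, mem_range, mem_RR]
        omega) nC n1, prodR, JC _ _ _ _ hC, LC _ _ hC, J1 _ _ _ _ hC, L1 _ _ hC,
        fa hK le_rfl h1, fa hK (by omega) h2]
  have T10 : ∀ l0 < K, ∀ l < K, ∀ l2 < K + 1,
      PD k C g K y (JsD C K s ((range K).erase l0) (((range (K + 1)).erase (l + 1)).erase 0)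
        ((range (K + 1)).erase l2) As) (LsD C K ((List.range K).erase 0) (List.range K)) =
      (∑ i ∈ range K, WS k C g K y s C i * ce k K i l) * (1 * (al k K l2 * F)) := by
    intro l0 h0 l h1 l2 h2
    refine PD3 hRF hCg y hCg hsg (Ne.symm hsC) (nd _ _ ((rz _).erase _) (rz _)) ?_ ?_ ?_
      (LC _ _ hC) (fun i => ce k K i l) (wt k C K s) ?_ As (JS _ _ _ _ hs0 hs1 hsC) ?_ _ ?_
    · rw [JC _ _ _ _ hC, LC _ _ hC, card_er2 (by omega) (by omega) (by omega),
        List.length_range]
      omega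
    · rw [JS _ _ _ _ hs0 hs1 hsC, LS _ _ hs0 hsC]; exact card_sink hK hs0
    · intro ρ hρ e1 e2
      exact sz _ _ _ _ _ _ hC hK (fun ρ => ρ = C ∨ ρ = s)
        (Or.inr (by rw [card_er h0, len_er (by omega)])) (Or.inl (Or.inl rfl))
        (Or.inr (by rw [card_er h2]; omega)) (Or.inl (Or.inr rfl)) ρ hρ (by tauto)
    · intro i hi
      rw [JC _ _ _ _ hC]
      exact fc hK le_rfl hi h1
    · intro l _
      rw [LS _ _ hs0 hsC]
      rfl
    · rw [prod2 (s := s) (C := C) (g := g) _ _ 0 1 (by omega) (by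
        intro ρ
        rw [mem_erase, mem_erase, mem_range, mem_RR]
        omega) n0 n1, prodR, J0, L0, J1 _ _ _ _ hC, L1 _ _ hC,
        fZ hK (Nat.zero_le _) (by omega) h0, hee _ h0, fa hK (by omega) h2]
  have T01 : ∀ l0 < K, ∀ l1 < K + 1, ∀ l2 < K,
      PD k C g K y (JsD C K s ((range K).erase l0) ((range (K + 1)).erase l1)
        (((range (K + 1)).erase l2).erase K) As)
        (LsD C K (List.range K) ((List.range K).erase (K - 1))) = 0 := by
    intro l0 h0 l1 h1 l2 h2
    refine PD5 hRF hCg y (show 0 < g by omega) (show 1 < g by omega) (by omega)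
      (nd _ _ (rz _) ((rz _).erase _)) ?_ ?_
    · rw [J0, L0, card_er h0, List.length_range]; omega
    · rw [J1 _ _ _ _ hC, L1 _ _ hC, card_er2 (by omega) (by omega) (by omega),
        List.length_range]
      omega
  have T11 : ∀ l0 < K, ∀ l < K, ∀ l2 < K,
      PD k C g K y (JsD C K s ((range K).erase l0) (((range (K + 1)).erase (l + 1)).erase 0)
        (((range (K + 1)).erase l2).erase K) As)
        (LsD C K ((List.range K).erase 0) ((List.range K).erase (K - 1))) =
      (∑ i ∈ range K, WS k C g K y s 1 i * ee k K i l2) * (1 * (1 * F)) := by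
    intro l0 h0 l h1 l2 h2
    refine PD3 hRF hCg y (show 1 < g by omega) hsg (Ne.symm hs1)
      (nd _ _ ((rz _).erase _) ((rz _).erase _)) ?_ ?_ ?_
      (L1 _ _ hC) (fun i => ee k K i l2) (wt k C K s) ?_ As (JS _ _ _ _ hs0 hs1 hsC) ?_ _ ?_
    · rw [J1 _ _ _ _ hC, L1 _ _ hC, card_er2 (by omega) (by omega) (by omega),
        List.length_range]
      omega
    · rw [JS _ _ _ _ hs0 hs1 hsC, LS _ _ hs0 hsC]; exact card_sink hK hs0
    · intro ρ hρ e1 e2
      exact sz _ _ _ _ _ _ hC hK (fun ρ => ρ = 1 ∨ ρ = s)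
        (Or.inr (by rw [card_er h0, len_er (by omega)]))
        (Or.inr (by rw [card_er2 (by omega) (by omega) (by omega), len_er (by omega)]))
        (Or.inl (Or.inl rfl)) (Or.inl (Or.inr rfl)) ρ hρ (by tauto)
    · intro i hi
      rw [J1 _ _ _ _ hC, er_last]
      exact fZ hK (by omega) hi h2
    · intro l _
      rw [LS _ _ hs0 hsC]
      rfl
    · rw [prod2 (s := s) (C := C) (g := g) _ _ 0 C (by omega) (by
        intro ρ
        rw [mem_erase, mem_erase, mem_range, mem_RR]
        omega) n0 nC, prodR, J0, L0, JC _ _ _ _ hC, LC _ _ hC,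
        fZ hK (Nat.zero_le _) (by omega) h0, hee _ h0, fc hK le_rfl (by omega) h1, hce _ h1]
  -- the equations
  have E : ∀ l0 ∈ range K, ∀ l1 ∈ range (K + 1), ∀ l2 ∈ range (K + 1),
      (∑ i ∈ range K, WS k C g K y s 0 i * ee k K i l0) * al k K l1 * al k K l2 +
      1 * (if l1 = 0 then 0 else ∑ i ∈ range K, WS k C g K y s C i * ce k K i (l1 - 1)) *
        al k K l2 +
      1 * (if l1 = 0 then 0 else 1) *
        (if l2 = K then 0 else ∑ i ∈ range K, WS k C g K y s 1 i * ee k K i l2) = 0 := by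
    intro l0 h0 l1 h1 l2 h2
    rw [mem_range] at h0 h1 h2
    have h3 := tan_eq hLK hRD hC hCg hK hy s s hsg ((range K).erase l0)
      ((range (K + 1)).erase l1) ((range (K + 1)).erase l2) As
      (bnd hC _ _ _ _ (erase_subset _ _) (erase_subset _ _) (erase_subset _ _)
        Subset.rfl) (by
        intro ρ hρ
        by_cases e0 : ρ = 0
        · subst e0
          rw [J0, card_er h0, if_pos rfl, if_neg (Ne.symm hs0)]
          unfold Lst rows
          rw [List.length_range, if_pos (Nat.zero_le _)]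
          omega
        · rw [if_neg e0]
          by_cases es : ρ = s
          · subst es
            rw [JS _ _ _ _ hs0 hs1 hsC, if_pos rfl, card_sink hK hs0]
          · rw [if_neg es, add_zero, add_zero]
            have h4 := sz (g := g) ((range K).erase l0)
              ((range (K + 1)).erase l1) ((range (K + 1)).erase l2) As (List.range K)
              (List.range K) hC hK (fun ρ => ρ = 0 ∨ ρ = s) (Or.inl (Or.inl rfl))
              (Or.inr (by rw [card_er h1, List.length_range]; omega))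
              (Or.inr (by rw [card_er h2]; omega)) (Or.inl (Or.inr rfl)) ρ hρ (by tauto)
            rw [LsD_self] at h4
            exact h4)
    have m0 : 0 ∈ (range (K + 1)).erase l1 ↔ l1 ≠ 0 := by
      rw [mem_erase, mem_range]; omega
    have m1 : K ∈ (range (K + 1)).erase l2 ↔ l2 ≠ K := by
      rw [mem_erase, mem_range]; omega
    rw [T00 l0 h0 l1 h1 l2 h2] at h3
    simp only [m0, m1] at h3
    apply mul_right_cancel₀ hF
    rw [zero_mul]
    refine Eq.trans ?_ h3
    by_cases c1 : l1 = 0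
    · simp only [c1, ne_eq, not_true_eq_false, if_true, if_false, false_and]
      by_cases c2 : l2 = K
      · simp only [c2, not_true_eq_false, if_true, if_false]; ring
      · simp only [c2, not_false_eq_true, if_true, if_false]
        rw [T01 l0 h0 0 (by omega) l2 (by omega)]
        ring
    · obtain ⟨l, rfl⟩ : ∃ l, l1 = l + 1 := ⟨l1 - 1, by omega⟩
      rw [if_neg c1, if_neg c1, if_pos c1, T10 l0 h0 l (by omega) l2 h2, Nat.add_sub_cancel]
      by_cases c2 : l2 = K
      · rw [if_pos c2, if_neg (not_not.2 c2), if_neg (fun h => h.2 c2)]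
        ring
      · rw [if_neg c2, if_pos c2, if_pos ⟨c1, c2⟩, T01 l0 h0 (l + 1) h1 l2 (by omega),
          T11 l0 h0 l (by omega) l2 (by omega)]
        ring
  obtain ⟨w₀, w₁, c1, c2, c3⟩ := hCH.2 (range K) (range (K + 1)) (range (K + 1)) _ _ _ _ _ _ _ E
    ⟨1, mem_range.2 (by omega), by unfold al; rw [if_neg (by omega)]; exact h2⟩
    ⟨1, mem_range.2 (by omega), by rw [if_neg (by omega)]; exact one_ne_zero⟩
    ⟨1, mem_range.2 (by omega), by unfold al; rw [if_neg (by omega)]; exact h2⟩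
    ⟨0, mem_range.2 (by omega), one_ne_zero⟩
  refine ⟨w₀, w₁, solveZ h2 hK _ w₀ ?_, solveC h2 hK _ w₀ w₁ ?_, solveB h2 hK _ w₁ ?_⟩
  · intro l hl
    rw [c1 l (mem_range.2 hl), mul_one]
  · intro l hl
    have := c2 (l + 1) (mem_range.2 (by omega))
    rw [if_neg (by omega), if_neg (by omega), Nat.add_sub_cancel, mul_one] at this
    exact this
  · intro l hl
    have := c3 l (mem_range.2 (by omega))
    rw [if_neg (by omega)] at this
    exact this

/-! ### The sink `Z` -/

lemma LstK {C K ρ : ℕ} (h : ρ ≤ C) : (Lst C K ρ).length = K := by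
  unfold Lst rows
  rw [List.length_range, if_pos h]

lemma caseC (h2 : (2 : k) ≠ 0) (hLK : StmLK k) (hRF : StmRF k) (hRD : StmRD) (hCH : StmCH k)
    {C g K : ℕ} (hC : 2 ≤ C) (hCg : C < g) (hK : 2 ≤ K) {y : ℕ → k}
    (hy : Tt (g * K + C) (g * (K - 1) + C + 1) (qB2 k C g K) y) :
    ∃ w₀ w₁ : k,
      (∀ i < K, ∑ l ∈ range K, y (C + g * i + (cc g C 0 + g * l)) * 1 =
        if i = 0 then - w₀ else if i + 1 = K then w₀ - w₁ else 0) ∧
      (∀ i < K, ∑ l ∈ range K, y (1 + g * i + (cc g C 0 + g * l)) * 1 =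
        if i = 0 then w₁ else if i + 1 = K then - w₁ else 0) ∧
      w₀ = - pd (fun s => uX k K (s + sh C 0)) (fun s => y (C + g * (s + sh C 0)))
        (range K) (List.range K) := by
  have hF := FF_ne (k := k) (C := C) (g := g) (K := K) (s := 0) h2 hK
  set F := FF k C g K 0 with hFd
  set dB := pd (fun s => uX k K (s + sh C 0)) (fun s => y (C + g * (s + sh C 0)))
        (range K) (List.range K) with hdB
  have n0 : 0 ∉ RR C g 0 := by rw [mem_RR]; tauto
  have n1 : 1 ∉ RR C g 0 := by rw [mem_RR]; tauto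
  have nC : C ∉ RR C g 0 := by rw [mem_RR]; tauto
  have rz : ∀ n, (List.range n).Nodup := fun n => List.nodup_range
  have hee : ∀ l < K, ee k K 0 l = 1 := fun l hl => by unfold ee; rw [if_pos (by omega)]
  have hce : ∀ l < K, ce k K (K - 1) l = 1 := fun l hl => by unfold ce; rw [if_neg (by omega)]
  have T00 : ∀ l1 < K + 1, ∀ l2 < K + 1,
      PD k C g K y (JsD C K 0 (range K) ((range (K + 1)).erase l1)
        ((range (K + 1)).erase l2) ∅) (LsD C K (List.range K) (List.range K)) =
      dB * (al k K l1 * (al k K l2 * F)) := by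
    intro l1 h1 l2 h2
    refine (PD2 hRF hCg y (ρ₀ := 0) (show 0 < g by omega) (nd _ _ (rz _) (rz _)) ?_ ?_
      (al k K l1 * (al k K l2 * F)) ?_).trans ?_
    · intro ρ hρ
      exact sz _ _ _ _ _ _ hC hK (fun _ => False) (Or.inr (by rw [card_range, List.length_range]))
        (Or.inr (by rw [card_er h1, List.length_range]; omega))
        (Or.inr (by rw [card_er h2]; omega)) (Or.inr (Or.inl (Or.inl rfl))) ρ hρ (by tauto)
    · rw [J0, L0]
      exact fzK hK (Nat.zero_le _)
    · rw [prod2 (s := 0) (C := C) (g := g) _ _ C 1 (by omega) (by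
        intro ρ
        rw [mem_erase, mem_range, mem_RR]
        omega) nC n1, prodR, JC _ _ _ _ hC, LC _ _ hC, J1 _ _ _ _ hC, L1 _ _ hC,
        fa hK le_rfl h1, fa hK (by omega) h2]
    · rw [J0, L0]
  have T10 : ∀ l < K, ∀ l2 < K + 1,
      PD k C g K y (JsD C K 0 (range K) (((range (K + 1)).erase (l + 1)).erase 0)
        ((range (K + 1)).erase l2) ∅) (LsD C K ((List.range K).erase 0) (List.range K)) =
      (∑ i ∈ range K, (∑ l ∈ range K, y (C + g * i + (cc g C 0 + g * l)) * 1) *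
        ce k K i l) * (al k K l2 * F) := by
    intro l h1 l2 h2
    refine PD3 hRF hCg y hCg (show 0 < g by omega) (by omega)
      (nd _ _ ((rz _).erase _) (rz _)) ?_ ?_ ?_
      (LC _ _ hC) (fun i => ce k K i l) (fun _ => 1) ?_ (range K) (J0 _ _ _ _) ?_ _ ?_
    · rw [JC _ _ _ _ hC, LC _ _ hC, card_er2 (by omega) (by omega) (by omega),
        List.length_range]
      omega
    · rw [J0, L0, card_range, len_er (by omega)]; omega
    · intro ρ hρ e1 e2
      exact sz _ _ _ _ _ _ hC hK (fun ρ => ρ = C ∨ ρ = 0)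
        (Or.inl (Or.inr rfl)) (Or.inl (Or.inl rfl))
        (Or.inr (by rw [card_er h2]; omega)) (Or.inl (Or.inr rfl)) ρ hρ (by tauto)
    · intro i hi
      rw [JC _ _ _ _ hC]
      exact fc hK le_rfl hi h1
    · intro l hl
      rw [L0, fZ hK (Nat.zero_le _) (by omega) (mem_range.1 hl), hee _ (mem_range.1 hl)]
    · rw [prod1 (s := 0) (C := C) (g := g) _ _ 1 (by
        intro ρ
        rw [mem_erase, mem_erase, mem_range, mem_RR]
        omega) n1, prodR, J1 _ _ _ _ hC, L1 _ _ hC, fa hK (by omega) h2]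
  have T01 : ∀ l1 < K + 1, ∀ l2 < K,
      PD k C g K y (JsD C K 0 (range K) ((range (K + 1)).erase l1)
        (((range (K + 1)).erase l2).erase K) ∅)
        (LsD C K (List.range K) ((List.range K).erase (K - 1))) = 0 := by
    intro l1 h1 l2 h2
    refine (PD3 hRF hCg y (show 1 < g by omega) hCg (by omega)
      (nd _ _ (rz _) ((rz _).erase _)) ?_ ?_ ?_
      (L1 _ _ hC) (fun i => Pb k C K 1 (((range (K + 1)).erase l2).erase K)
        ((List.range K).erase i)) (fun l => Pb k C K C (((range (K + 1)).erase l1).erase l)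
        ((List.range K).erase (K - 1))) ?_ ((range (K + 1)).erase l1) (JC _ _ _ _ hC) ?_
        0 ?_).trans (mul_zero _)
    · rw [J1 _ _ _ _ hC, L1 _ _ hC, card_er2 (by omega) (by omega) (by omega),
        List.length_range]
      omega
    · rw [JC _ _ _ _ hC, LC _ _ hC, card_er h1, len_er (by omega)]; omega
    · intro ρ hρ e1 e2
      exact sz _ _ _ _ _ _ hC hK (fun ρ => ρ = 1 ∨ ρ = C)
        (Or.inr (by rw [card_range, List.length_range])) (Or.inl (Or.inr rfl))
        (Or.inl (Or.inl rfl)) (Or.inr (Or.inl (Or.inl rfl))) ρ hρ (by tauto)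
    · intro i _
      rw [J1 _ _ _ _ hC]
    · intro l _
      rw [LC _ _ hC]
    · rw [prod1 (s := 0) (C := C) (g := g) _ _ 0 (by
        intro ρ
        rw [mem_erase, mem_erase, mem_range, mem_RR]
        omega) n0, J0, L0, fzK hK (Nat.zero_le _), zero_mul]
  have T11 : ∀ l < K, ∀ l2 < K,
      PD k C g K y (JsD C K 0 (range K) (((range (K + 1)).erase (l + 1)).erase 0)
        (((range (K + 1)).erase l2).erase K) ∅)
        (LsD C K ((List.range K).erase 0) ((List.range K).erase (K - 1))) =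
      (∑ i ∈ range K, (∑ l ∈ range K, y (1 + g * i + (cc g C 0 + g * l)) * 1) *
        ee k K i l2) * (1 * F) := by
    intro l h1 l2 h2
    refine PD3 hRF hCg y (show 1 < g by omega) (show 0 < g by omega) (by omega)
      (nd _ _ ((rz _).erase _) ((rz _).erase _)) ?_ ?_ ?_
      (L1 _ _ hC) (fun i => ee k K i l2) (fun _ => 1) ?_ (range K) (J0 _ _ _ _) ?_ _ ?_
    · rw [J1 _ _ _ _ hC, L1 _ _ hC, card_er2 (by omega) (by omega) (by omega),
        List.length_range]
      omega
    · rw [J0, L0, card_range, len_er (by omega)]; omega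
    · intro ρ hρ e1 e2
      exact sz _ _ _ _ _ _ hC hK (fun ρ => ρ = 1 ∨ ρ = 0)
        (Or.inl (Or.inr rfl))
        (Or.inr (by rw [card_er2 (by omega) (by omega) (by omega), len_er (by omega)]))
        (Or.inl (Or.inl rfl)) (Or.inl (Or.inr rfl)) ρ hρ (by tauto)
    · intro i hi
      rw [J1 _ _ _ _ hC, er_last]
      exact fZ hK (by omega) hi h2
    · intro l hl
      rw [L0, fZ hK (Nat.zero_le _) (by omega) (mem_range.1 hl), hee _ (mem_range.1 hl)]
    · rw [prod1 (s := 0) (C := C) (g := g) _ _ C (by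
        intro ρ
        rw [mem_erase, mem_erase, mem_range, mem_RR]
        omega) nC, prodR, JC _ _ _ _ hC, LC _ _ hC, fc hK le_rfl (by omega) h1, hce _ h1]
  have E : ∀ l1 ∈ range (K + 1), ∀ l2 ∈ range (K + 1),
      (dB * al k K l1 + if l1 = 0 then 0 else ∑ i ∈ range K,
        (∑ l ∈ range K, y (C + g * i + (cc g C 0 + g * l)) * 1) * ce k K i (l1 - 1)) *
        al k K l2 + (if l1 = 0 then 0 else 1) * (if l2 = K then 0 else ∑ i ∈ range K,
        (∑ l ∈ range K, y (1 + g * i + (cc g C 0 + g * l)) * 1) * ee k K i l2) = 0 := by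
    intro l1 h1 l2 h2
    rw [mem_range] at h1 h2
    have h3 := tan_eq hLK hRD hC hCg hK hy 0 0 (by omega) (range K)
      ((range (K + 1)).erase l1) ((range (K + 1)).erase l2) ∅
      (bnd hC _ _ _ _ Subset.rfl (erase_subset _ _) (erase_subset _ _)
        (empty_subset _)) (by
        intro ρ hρ
        have h4 := sz (g := g) (s := 0) (range K)
          ((range (K + 1)).erase l1) ((range (K + 1)).erase l2) ∅ (List.range K)
          (List.range K) hC hK (fun _ => False)
          (Or.inr (by rw [card_range, List.length_range]))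
          (Or.inr (by rw [card_er h1, List.length_range]; omega))
          (Or.inr (by rw [card_er h2]; omega)) (Or.inr (Or.inl (Or.inl rfl))) ρ hρ (by tauto)
        rw [LsD_self] at h4
        rw [h4])
    have m0 : 0 ∈ (range (K + 1)).erase l1 ↔ l1 ≠ 0 := by
      rw [mem_erase, mem_range]; omega
    have m1 : K ∈ (range (K + 1)).erase l2 ↔ l2 ≠ K := by
      rw [mem_erase, mem_range]; omega
    rw [T00 l1 h1 l2 h2] at h3
    simp only [m0, m1] at h3
    apply mul_right_cancel₀ hF
    rw [zero_mul]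
    refine Eq.trans ?_ h3
    by_cases c1 : l1 = 0
    · simp only [c1, ne_eq, not_true_eq_false, if_true, if_false, false_and]
      by_cases c2 : l2 = K
      · simp only [c2, not_true_eq_false, if_true, if_false]; ring
      · simp only [c2, not_false_eq_true, if_true, if_false]
        rw [T01 0 (by omega) l2 (by omega)]
        ring
    · obtain ⟨l, rfl⟩ : ∃ l, l1 = l + 1 := ⟨l1 - 1, by omega⟩
      rw [if_neg c1, if_neg c1, if_pos c1, T10 l (by omega) l2 h2, Nat.add_sub_cancel]
      by_cases c2 : l2 = K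
      · rw [if_pos c2, if_neg (not_not.2 c2), if_neg (fun h => h.2 c2)]
        ring
      · rw [if_neg c2, if_pos c2, if_pos ⟨c1, c2⟩, T01 (l + 1) h1 l2 (by omega),
          T11 l (by omega) l2 (by omega)]
        ring
  obtain ⟨w, c1, c2⟩ := hCH.1 (range (K + 1)) (range (K + 1)) _ _ _ _ E
    ⟨1, mem_range.2 (by omega), by unfold al; rw [if_neg (by omega)]; exact h2⟩
    ⟨1, mem_range.2 (by omega), by rw [if_neg (by omega)]; exact one_ne_zero⟩
  refine ⟨- dB, w, solveC h2 hK _ (- dB) w ?_, solveB h2 hK _ w ?_, rfl⟩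
  · intro l hl
    have := c1 (l + 1) (mem_range.2 (by omega))
    rw [if_neg (by omega), if_neg (by omega), Nat.add_sub_cancel, mul_one] at this
    linear_combination this
  · intro l hl
    have := c2 l (mem_range.2 (by omega))
    rw [if_neg (by omega)] at this
    exact this

/-! ### The sink `B_C` -/

lemma case0 (h2 : (2 : k) ≠ 0) (hLK : StmLK k) (hRF : StmRF k) (hRD : StmRD) (hCH : StmCH k)
    {C g K : ℕ} (hC : 2 ≤ C) (hCg : C < g) (hK : 2 ≤ K) {y : ℕ → k}
    (hy : Tt (g * K + C) (g * (K - 1) + C + 1) (qB2 k C g K) y) :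
    ∃ w₀ w₁ : k,
      (∀ i < K, ∑ l ∈ range (K + 1), y (0 + g * i + (cc g C C + g * l)) * al k K l =
        if i = 0 then - w₀ else 0) ∧
      (∀ i < K, ∑ l ∈ (range (K + 1)).erase 0, y (1 + g * i + (cc g C C + g * l)) * 1 =
        if i = 0 then w₁ else if i + 1 = K then - w₁ else 0) ∧
      w₁ = w₀ - pd (fun s => uX k K (s + sh C C)) (fun s => y (C + g * (s + sh C C)))
        ((range (K + 1)).erase 0) (List.range K) := by
  have hF := FF_ne (k := k) (C := C) (g := g) (K := K) (s := 0) h2 hK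
  set F := FF k C g K 0 with hFd
  set dA := pd (fun s => uX k K (s + sh C C)) (fun s => y (C + g * (s + sh C C)))
        ((range (K + 1)).erase 0) (List.range K) with hdA
  have n0 : 0 ∉ RR C g 0 := by rw [mem_RR]; tauto
  have n1 : 1 ∉ RR C g 0 := by rw [mem_RR]; tauto
  have rz : ∀ n, (List.range n).Nodup := fun n => List.nodup_range
  have hee : ∀ l < K, ee k K 0 l = 1 := fun l hl => by unfold ee; rw [if_pos (by omega)]
  have hce : ∀ l < K, ce k K (K - 1) l = 1 := fun l hl => by unfold ce; rw [if_neg (by omega)]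
  have T00 : ∀ l0 < K, ∀ l2 < K + 1,
      PD k C g K y (JsD C K 0 ((range K).erase l0) (range (K + 1))
        ((range (K + 1)).erase l2) ∅) (LsD C K (List.range K) (List.range K)) =
      (∑ i ∈ range K, (∑ l ∈ range (K + 1), y (0 + g * i + (cc g C C + g * l)) * al k K l) *
        ee k K i l0) * (al k K l2 * F) := by
    intro l0 h0 l2 h2
    refine PD3 hRF hCg y (show 0 < g by omega) hCg (by omega) (nd _ _ (rz _) (rz _)) ?_ ?_ ?_
      (L0 _ _) (fun i => ee k K i l0) (al k K) ?_ (range (K + 1)) (JC _ _ _ _ hC) ?_ _ ?_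
    · rw [J0, L0, card_er h0, List.length_range]; omega
    · rw [JC _ _ _ _ hC, LC _ _ hC, card_range, List.length_range]
    · intro ρ hρ e1 e2
      exact sz _ _ _ _ _ _ hC hK (fun ρ => ρ = 0 ∨ ρ = C) (Or.inl (Or.inl rfl))
        (Or.inl (Or.inr rfl)) (Or.inr (by rw [card_er h2]; omega)) (Or.inl (Or.inl rfl))
        ρ hρ (by tauto)
    · intro i hi
      rw [J0]
      exact fZ hK (Nat.zero_le _) hi h0
    · intro l hl
      rw [LC _ _ hC]
      exact fa hK le_rfl (mem_range.1 hl)
    · rw [prod1 (s := 0) (C := C) (g := g) _ _ 1 (by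
        intro ρ
        rw [mem_erase, mem_erase, mem_range, mem_RR]
        omega) n1, prodR, J1 _ _ _ _ hC, L1 _ _ hC, fa hK (by omega) h2]
  have T10 : ∀ l0 < K, ∀ l2 < K + 1,
      PD k C g K y (JsD C K 0 ((range K).erase l0) ((range (K + 1)).erase 0)
        ((range (K + 1)).erase l2) ∅) (LsD C K ((List.range K).erase 0) (List.range K)) =
      dA * (1 * (al k K l2 * F)) := by
    intro l0 h0 l2 h2
    refine (PD2 hRF hCg y (ρ₀ := C) hCg (nd _ _ ((rz _).erase _) (rz _)) ?_ ?_
      (1 * (al k K l2 * F)) ?_).trans ?_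
    · intro ρ hρ
      exact sz _ _ _ _ _ _ hC hK (fun _ => False)
        (Or.inr (by rw [card_er h0, len_er (by omega)]))
        (Or.inr (by rw [card_er (by omega), List.length_range]; omega))
        (Or.inr (by rw [card_er h2]; omega)) (Or.inr (Or.inl (Or.inl rfl))) ρ hρ (by tauto)
    · rw [JC _ _ _ _ hC, LC _ _ hC, fa hK le_rfl (by omega)]
      unfold al
      rw [if_pos (Or.inl rfl)]
    · rw [prod2 (s := 0) (C := C) (g := g) _ _ 0 1 (by omega) (by
        intro ρ
        rw [mem_erase, mem_range, mem_RR]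
        omega) n0 n1, prodR, J0, L0, J1 _ _ _ _ hC, L1 _ _ hC,
        fZ hK (Nat.zero_le _) (by omega) h0, hee _ h0, fa hK (by omega) h2]
    · rw [JC _ _ _ _ hC, LC _ _ hC]
  have T01 : ∀ l0 < K, ∀ l2 < K,
      PD k C g K y (JsD C K 0 ((range K).erase l0) (range (K + 1))
        (((range (K + 1)).erase l2).erase K) ∅)
        (LsD C K (List.range K) ((List.range K).erase (K - 1))) = 0 := by
    intro l0 h0 l2 h2
    refine PD5 hRF hCg y (show 0 < g by omega) (show 1 < g by omega) (by omega)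
      (nd _ _ (rz _) ((rz _).erase _)) ?_ ?_
    · rw [J0, L0, card_er h0, List.length_range]; omega
    · rw [J1 _ _ _ _ hC, L1 _ _ hC, card_er2 (by omega) (by omega) (by omega),
        List.length_range]
      omega
  have T11 : ∀ l0 < K, ∀ l2 < K,
      PD k C g K y (JsD C K 0 ((range K).erase l0) ((range (K + 1)).erase 0)
        (((range (K + 1)).erase l2).erase K) ∅)
        (LsD C K ((List.range K).erase 0) ((List.range K).erase (K - 1))) =
      (∑ i ∈ range K, (∑ l ∈ (range (K + 1)).erase 0,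
        y (1 + g * i + (cc g C C + g * l)) * 1) * ee k K i l2) * (1 * F) := by
    intro l0 h0 l2 h2
    refine PD3 hRF hCg y (show 1 < g by omega) hCg (by omega)
      (nd _ _ ((rz _).erase _) ((rz _).erase _)) ?_ ?_ ?_
      (L1 _ _ hC) (fun i => ee k K i l2) (fun _ => 1) ?_ ((range (K + 1)).erase 0)
      (JC _ _ _ _ hC) ?_ _ ?_
    · rw [J1 _ _ _ _ hC, L1 _ _ hC, card_er2 (by omega) (by omega) (by omega),
        List.length_range]
      omega
    · rw [JC _ _ _ _ hC, LC _ _ hC, card_er (by omega), len_er (by omega)]; omega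
    · intro ρ hρ e1 e2
      exact sz _ _ _ _ _ _ hC hK (fun ρ => ρ = 1 ∨ ρ = C)
        (Or.inr (by rw [card_er h0, len_er (by omega)]))
        (Or.inl (Or.inr rfl)) (Or.inl (Or.inl rfl)) (Or.inr (Or.inl (Or.inl rfl)))
        ρ hρ (by tauto)
    · intro i hi
      rw [J1 _ _ _ _ hC, er_last]
      exact fZ hK (by omega) hi h2
    · intro l hl
      rw [mem_erase, mem_range] at hl
      obtain ⟨m, rfl⟩ : ∃ m, l = m + 1 := ⟨l - 1, by omega⟩
      rw [LC _ _ hC, Finset.erase_right_comm, fc hK le_rfl (by omega) (by omega),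
        hce _ (by omega)]
    · rw [prod1 (s := 0) (C := C) (g := g) _ _ 0 (by
        intro ρ
        rw [mem_erase, mem_erase, mem_range, mem_RR]
        omega) n0, prodR, J0, L0, fZ hK (Nat.zero_le _) (by omega) h0, hee _ h0]
  have E : ∀ l0 ∈ range K, ∀ l2 ∈ range (K + 1),
      (∑ i ∈ range K, (∑ l ∈ range (K + 1), y (0 + g * i + (cc g C C + g * l)) * al k K l) *
        ee k K i l0) * al k K l2 +
      1 * (dA * al k K l2 + if l2 = K then 0 else ∑ i ∈ range K,
        (∑ l ∈ (range (K + 1)).erase 0, y (1 + g * i + (cc g C C + g * l)) * 1) *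
          ee k K i l2) = 0 := by
    intro l0 h0 l2 h2
    rw [mem_range] at h0 h2
    have h3 := tan_eq hLK hRD hC hCg hK hy 0 C hCg ((range K).erase l0)
      (range (K + 1)) ((range (K + 1)).erase l2) ∅
      (bnd hC _ _ _ _ (erase_subset _ _) Subset.rfl (erase_subset _ _)
        (empty_subset _)) (by
        intro ρ hρ
        by_cases e0 : ρ = 0
        · subst e0
          rw [J0, card_er h0, if_pos rfl, if_neg (by omega), LstK (Nat.zero_le _)]
          omega
        · rw [if_neg e0]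
          by_cases es : ρ = C
          · subst es
            rw [JC _ _ _ _ hC, if_pos rfl, LstK le_rfl, card_range]
          · rw [if_neg es, add_zero, add_zero]
            have h4 := sz (g := g) (s := 0) ((range K).erase l0)
              (range (K + 1)) ((range (K + 1)).erase l2) ∅ (List.range K)
              (List.range K) hC hK (fun ρ => ρ = 0 ∨ ρ = C) (Or.inl (Or.inl rfl))
              (Or.inl (Or.inr rfl)) (Or.inr (by rw [card_er h2]; omega))
              (Or.inl (Or.inl rfl)) ρ hρ (by tauto)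
            rw [LsD_self] at h4
            exact h4)
    have m0 : 0 ∈ range (K + 1) := mem_range.2 (by omega)
    have m1 : K ∈ (range (K + 1)).erase l2 ↔ l2 ≠ K := by
      rw [mem_erase, mem_range]; omega
    rw [T00 l0 h0 l2 h2, if_pos m0, T10 l0 h0 l2 h2] at h3
    simp only [m0, true_and, m1] at h3
    apply mul_right_cancel₀ hF
    rw [zero_mul]
    refine Eq.trans ?_ h3
    by_cases c2 : l2 = K
    · rw [if_pos c2, if_neg (not_not.2 c2), if_neg (not_not.2 c2)]
      ring
    · rw [if_neg c2, if_pos c2, if_pos c2, T01 l0 h0 l2 (by omega), T11 l0 h0 l2 (by omega)]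
      ring
  obtain ⟨w, c1, c2⟩ := hCH.1 (range K) (range (K + 1)) _ _ _ _ E
    ⟨1, mem_range.2 (by omega), by unfold al; rw [if_neg (by omega)]; exact h2⟩
    ⟨1, mem_range.2 (by omega), one_ne_zero⟩
  refine ⟨w, w - dA, solveZ h2 hK _ w ?_, solveB h2 hK _ (w - dA) ?_, rfl⟩
  · intro l hl
    have := c1 l (mem_range.2 hl)
    rw [mul_one] at this
    exact this
  · intro l hl
    have := c2 l (mem_range.2 (by omega))
    rw [if_neg (by omega)] at this
    linear_combination this

/-! ### The sink `B_1` -/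

lemma case1 (h2 : (2 : k) ≠ 0) (hLK : StmLK k) (hRF : StmRF k) (hRD : StmRD) (hCH : StmCH k)
    {C g K : ℕ} (hC : 2 ≤ C) (hCg : C < g) (hK : 2 ≤ K) {y : ℕ → k}
    (hy : Tt (g * K + C) (g * (K - 1) + C + 1) (qB2 k C g K) y) :
    ∃ w₀ w₁ : k,
      (∀ i < K, ∑ l ∈ range (K + 1), y (0 + g * i + (cc g C 1 + g * l)) * al k K l =
        if i = 0 then - w₀ else 0) ∧
      (∀ i < K, ∑ l ∈ range (K + 1), y (C + g * i + (cc g C 1 + g * l)) * al k K l =
        if i = 0 then - w₀ else if i + 1 = K then w₀ - w₁ else 0) ∧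
      w₁ = pd (fun s => uX k K (s + sh C 1)) (fun s => y (C + g * (s + sh C 1)))
        (range K) (List.range K) := by
  have hF := FF_ne (k := k) (C := C) (g := g) (K := K) (s := 0) h2 hK
  set F := FF k C g K 0 with hFd
  set dB := pd (fun s => uX k K (s + sh C 1)) (fun s => y (C + g * (s + sh C 1)))
        (range K) (List.range K) with hdB
  have n0 : 0 ∉ RR C g 0 := by rw [mem_RR]; tauto
  have n1 : 1 ∉ RR C g 0 := by rw [mem_RR]; tauto
  have nC : C ∉ RR C g 0 := by rw [mem_RR]; tauto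
  have rz : ∀ n, (List.range n).Nodup := fun n => List.nodup_range
  have hee : ∀ l < K, ee k K 0 l = 1 := fun l hl => by unfold ee; rw [if_pos (by omega)]
  have hce : ∀ l < K, ce k K (K - 1) l = 1 := fun l hl => by unfold ce; rw [if_neg (by omega)]
  have T00 : ∀ l0 < K, ∀ l1 < K + 1,
      PD k C g K y (JsD C K 0 ((range K).erase l0) ((range (K + 1)).erase l1)
        (range (K + 1)) ∅) (LsD C K (List.range K) (List.range K)) =
      (∑ i ∈ range K, (∑ l ∈ range (K + 1), y (0 + g * i + (cc g C 1 + g * l)) * al k K l) *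
        ee k K i l0) * (al k K l1 * F) := by
    intro l0 h0 l1 h1
    refine PD3 hRF hCg y (show 0 < g by omega) (show 1 < g by omega) (by omega)
      (nd _ _ (rz _) (rz _)) ?_ ?_ ?_
      (L0 _ _) (fun i => ee k K i l0) (al k K) ?_ (range (K + 1)) (J1 _ _ _ _ hC) ?_ _ ?_
    · rw [J0, L0, card_er h0, List.length_range]; omega
    · rw [J1 _ _ _ _ hC, L1 _ _ hC, card_range, List.length_range]
    · intro ρ hρ e1 e2
      exact sz _ _ _ _ _ _ hC hK (fun ρ => ρ = 0 ∨ ρ = 1) (Or.inl (Or.inl rfl))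
        (Or.inr (by rw [card_er h1, List.length_range]; omega)) (Or.inl (Or.inr rfl))
        (Or.inl (Or.inl rfl)) ρ hρ (by tauto)
    · intro i hi
      rw [J0]
      exact fZ hK (Nat.zero_le _) hi h0
    · intro l hl
      rw [L1 _ _ hC]
      exact fa hK (by omega) (mem_range.1 hl)
    · rw [prod1 (s := 0) (C := C) (g := g) _ _ C (by
        intro ρ
        rw [mem_erase, mem_erase, mem_range, mem_RR]
        omega) nC, prodR, JC _ _ _ _ hC, LC _ _ hC, fa hK le_rfl h1]
  have T10 : ∀ l0 < K, ∀ l < K,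
      PD k C g K y (JsD C K 0 ((range K).erase l0) (((range (K + 1)).erase (l + 1)).erase 0)
        (range (K + 1)) ∅) (LsD C K ((List.range K).erase 0) (List.range K)) =
      (∑ i ∈ range K, (∑ l ∈ range (K + 1), y (C + g * i + (cc g C 1 + g * l)) * al k K l) *
        ce k K i l) * (1 * F) := by
    intro l0 h0 l h1
    refine PD3 hRF hCg y hCg (show 1 < g by omega) (by omega)
      (nd _ _ ((rz _).erase _) (rz _)) ?_ ?_ ?_
      (LC _ _ hC) (fun i => ce k K i l) (al k K) ?_ (range (K + 1)) (J1 _ _ _ _ hC) ?_ _ ?_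
    · rw [JC _ _ _ _ hC, LC _ _ hC, card_er2 (by omega) (by omega) (by omega),
        List.length_range]
      omega
    · rw [J1 _ _ _ _ hC, L1 _ _ hC, card_range, List.length_range]
    · intro ρ hρ e1 e2
      exact sz _ _ _ _ _ _ hC hK (fun ρ => ρ = C ∨ ρ = 1)
        (Or.inr (by rw [card_er h0, len_er (by omega)])) (Or.inl (Or.inl rfl))
        (Or.inl (Or.inr rfl)) (Or.inr (Or.inl (Or.inl rfl))) ρ hρ (by tauto)
    · intro i hi
      rw [JC _ _ _ _ hC]
      exact fc hK le_rfl hi h1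
    · intro l hl
      rw [L1 _ _ hC]
      exact fa hK (by omega) (mem_range.1 hl)
    · rw [prod1 (s := 0) (C := C) (g := g) _ _ 0 (by
        intro ρ
        rw [mem_erase, mem_erase, mem_range, mem_RR]
        omega) n0, prodR, J0, L0, fZ hK (Nat.zero_le _) (by omega) h0, hee _ h0]
  have T01 : ∀ l0 < K, ∀ l1 < K + 1,
      PD k C g K y (JsD C K 0 ((range K).erase l0) ((range (K + 1)).erase l1)
        (range K) ∅) (LsD C K (List.range K) ((List.range K).erase (K - 1))) = 0 := by
    intro l0 h0 l1 h1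
    refine (PD3 hRF hCg y (show 0 < g by omega) hCg (by omega)
      (nd _ _ (rz _) ((rz _).erase _)) ?_ ?_ ?_
      (L0 _ _) (fun i => Pb k C K 0 ((range K).erase l0)
        ((List.range K).erase i)) (fun l => Pb k C K C (((range (K + 1)).erase l1).erase l)
        ((List.range K).erase (K - 1))) ?_ ((range (K + 1)).erase l1) (JC _ _ _ _ hC) ?_
        0 ?_).trans (mul_zero _)
    · rw [J0, L0, card_er h0, List.length_range]; omega
    · rw [JC _ _ _ _ hC, LC _ _ hC, card_er h1, len_er (by omega)]; omega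
    · intro ρ hρ e1 e2
      exact sz _ _ _ _ _ _ hC hK (fun ρ => ρ = 0 ∨ ρ = C)
        (Or.inl (Or.inl rfl)) (Or.inl (Or.inr rfl))
        (Or.inr (card_range _)) (Or.inl (Or.inl rfl)) ρ hρ (by tauto)
    · intro i _
      rw [J0]
    · intro l _
      rw [LC _ _ hC]
    · rw [prod1 (s := 0) (C := C) (g := g) _ _ 1 (by
        intro ρ
        rw [mem_erase, mem_erase, mem_range, mem_RR]
        omega) n1, J1 _ _ _ _ hC, L1 _ _ hC, fzK hK (by omega), zero_mul]
  have T11 : ∀ l0 < K, ∀ l < K,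
      PD k C g K y (JsD C K 0 ((range K).erase l0) (((range (K + 1)).erase (l + 1)).erase 0)
        (range K) ∅) (LsD C K ((List.range K).erase 0) ((List.range K).erase (K - 1))) =
      dB * (1 * (1 * F)) := by
    intro l0 h0 l h1
    refine (PD2 hRF hCg y (ρ₀ := 1) (show 1 < g by omega)
      (nd _ _ ((rz _).erase _) ((rz _).erase _)) ?_ ?_
      (1 * (1 * F)) ?_).trans ?_
    · intro ρ hρ
      exact sz _ _ _ _ _ _ hC hK (fun _ => False)
        (Or.inr (by rw [card_er h0, len_er (by omega)]))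
        (Or.inr (by rw [card_er2 (by omega) (by omega) (by omega), len_er (by omega)]))
        (Or.inr (card_range _)) (Or.inr (Or.inl (Or.inl rfl))) ρ hρ (by tauto)
    · rw [J1 _ _ _ _ hC, L1 _ _ hC]
      exact fzK hK (by omega)
    · rw [prod2 (s := 0) (C := C) (g := g) _ _ 0 C (by omega) (by
        intro ρ
        rw [mem_erase, mem_range, mem_RR]
        omega) n0 nC, prodR, J0, L0, JC _ _ _ _ hC, LC _ _ hC,
        fZ hK (Nat.zero_le _) (by omega) h0, hee _ h0, fc hK le_rfl (by omega) h1, hce _ h1]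
    · rw [J1 _ _ _ _ hC, L1 _ _ hC]
  have E : ∀ l0 ∈ range K, ∀ l1 ∈ range (K + 1),
      (∑ i ∈ range K, (∑ l ∈ range (K + 1), y (0 + g * i + (cc g C 1 + g * l)) * al k K l) *
        ee k K i l0) * al k K l1 +
      1 * (if l1 = 0 then 0 else (∑ i ∈ range K,
        (∑ l ∈ range (K + 1), y (C + g * i + (cc g C 1 + g * l)) * al k K l) *
          ce k K i (l1 - 1)) + dB) = 0 := by
    intro l0 h0 l1 h1
    rw [mem_range] at h0 h1
    have h3 := tan_eq hLK hRD hC hCg hK hy 0 1 (by omega) ((range K).erase l0)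
      ((range (K + 1)).erase l1) (range (K + 1)) ∅
      (bnd hC _ _ _ _ (erase_subset _ _) (erase_subset _ _) Subset.rfl
        (empty_subset _)) (by
        intro ρ hρ
        by_cases e0 : ρ = 0
        · subst e0
          rw [J0, card_er h0, if_pos rfl, if_neg (by omega), LstK (Nat.zero_le _)]
          omega
        · rw [if_neg e0]
          by_cases es : ρ = 1
          · subst es
            rw [J1 _ _ _ _ hC, if_pos rfl, LstK (by omega), card_range]
          · rw [if_neg es, add_zero, add_zero]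
            have h4 := sz (g := g) (s := 0) ((range K).erase l0)
              ((range (K + 1)).erase l1) (range (K + 1)) ∅ (List.range K)
              (List.range K) hC hK (fun ρ => ρ = 0 ∨ ρ = 1) (Or.inl (Or.inl rfl))
              (Or.inr (by rw [card_er h1, List.length_range]; omega)) (Or.inl (Or.inr rfl))
              (Or.inl (Or.inl rfl)) ρ hρ (by tauto)
            rw [LsD_self] at h4
            exact h4)
    have m0 : 0 ∈ (range (K + 1)).erase l1 ↔ l1 ≠ 0 := by
      rw [mem_erase, mem_range]; omega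
    have m1 : K ∈ range (K + 1) := mem_range.2 (by omega)
    rw [T00 l0 h0 l1 h1, if_pos m1, er_last', T01 l0 h0 l1 h1] at h3
    simp only [m0, m1, and_true] at h3
    apply mul_right_cancel₀ hF
    rw [zero_mul]
    refine Eq.trans ?_ h3
    by_cases c1 : l1 = 0
    · rw [if_pos c1, if_neg (not_not.2 c1), if_neg (not_not.2 c1)]
      ring
    · obtain ⟨l, rfl⟩ : ∃ l, l1 = l + 1 := ⟨l1 - 1, by omega⟩
      rw [if_neg c1, if_pos c1, if_pos c1, T10 l0 h0 l (by omega), T11 l0 h0 l (by omega),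
        Nat.add_sub_cancel]
      ring
  obtain ⟨w, c1, c2⟩ := hCH.1 (range K) (range (K + 1)) _ _ _ _ E
    ⟨1, mem_range.2 (by omega), by unfold al; rw [if_neg (by omega)]; exact h2⟩
    ⟨1, mem_range.2 (by omega), one_ne_zero⟩
  refine ⟨w, dB, solveZ h2 hK _ w ?_, solveC h2 hK _ w dB ?_, rfl⟩
  · intro l hl
    have := c1 l (mem_range.2 hl)
    rw [mul_one] at this
    exact this
  · intro l hl
    have := c2 (l + 1) (mem_range.2 (by omega))
    rw [if_neg (by omega), Nat.add_sub_cancel] at this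
    linear_combination this

/-! ### The windows and the derivatives of the square blocks -/

/-- the windows over `K` long indices -/
lemma win1 {C g K : ℕ} (y : ℕ → k) (h i σ : ℕ) (hσ : C ≤ σ) :
    wB2 C g K y h σ i = ∑ l ∈ range K, y (h + g * i + (σ + g * l)) * 1 := by
  unfold wB2
  rw [if_pos hσ]
  exact sum_congr rfl fun l _ => (mul_one _).symm

/-- the windows over `K + 1` long indices -/
lemma win2 {C g K : ℕ} (hK : 2 ≤ K) (y : ℕ → k) (h i σ : ℕ) (hσ : σ < C) :
    wB2 C g K y h σ i = ∑ l ∈ range (K + 1), y (h + g * i + (σ + g * l)) * al k K l := by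
  unfold wB2
  rw [if_neg (by omega)]
  have h1 : Ico 1 K = (range (K + 1)).filter fun l => ¬ (l = 0 ∨ l = K) := by
    ext l
    rw [mem_Ico, mem_filter, mem_range]
    omega
  rw [h1, sum_filter]
  refine sum_congr rfl fun l _ => ?_
  unfold al
  by_cases h9 : l = 0 ∨ l = K
  · rw [if_pos h9, if_neg (not_not.2 h9), mul_zero]
  · rw [if_neg h9, if_pos h9, mul_comm]

/-- the windows of a generic sink -/
lemma winS {C g K s : ℕ} (hC : 2 ≤ C) (hCg : C < g) (hK : 2 ≤ K) (y : ℕ → k) (h i : ℕ)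
    (hs0 : s ≠ 0) (hsg : s < g) : WS k C g K y s h i = wB2 C g K y h (cc g C s) i := by
  unfold WS
  by_cases hs : s ≤ C
  · have e1 : cc g C s = C - s := by unfold cc; rw [if_pos hs]
    have e2 : cols C K s = K + 1 := by unfold cols; rw [if_neg hs0, if_pos hs]
    have e3 : Lst C K s = List.range K := by unfold Lst rows; rw [if_pos hs]
    rw [e1, win2 hK _ _ _ _ (by omega), e2]
    refine sum_congr rfl fun l hl => ?_
    unfold wt
    rw [e2, e3, fa hK hs (mem_range.1 hl)]
  · have e1 : cc g C s = C + g - s := by unfold cc; rw [if_neg hs]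
    have e2 : cols C K s = K := by unfold cols; rw [if_neg hs0, if_neg hs]
    have e3 : Lst C K s = List.range (K - 1) := by unfold Lst rows; rw [if_neg hs]
    rw [e1, win1 _ _ _ _ (by omega), e2]
    refine sum_congr rfl fun l hl => ?_
    unfold wt
    rw [e2, e3, fy hK (by omega) (mem_range.1 hl)]

lemma dB_eq {C g K ρ : ℕ} (hK : 2 ≤ K) (y : ℕ → k) (hρ : ρ ≤ C) :
    pd (fun s => uX k K (s + sh C ρ)) (fun s => y (C + g * (s + sh C ρ)))
      (range K) (List.range K) =
    ∑ i ∈ range K, ∑ l ∈ range K, (if i + l < K then 1 else -1) * y (C + g * (i + l)) := by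
  rw [bf k _ _ _ _ List.nodup_range, List.toFinset_range]
  refine sum_congr rfl fun i hi => sum_congr rfl fun l hl => ?_
  have h1 := fZ (k := k) hK hρ (mem_range.1 hi) (mem_range.1 hl)
  unfold Pb at h1
  rw [h1]
  have h2 : sh C ρ = 0 := by unfold sh; rw [if_pos hρ]
  rw [h2, Nat.add_zero, Nat.add_comm l i, mul_comm]
  rfl

lemma dA_eq {C g K ρ : ℕ} (hK : 2 ≤ K) (y : ℕ → k) (hρ : ρ ≤ C) :
    pd (fun s => uX k K (s + sh C ρ)) (fun s => y (C + g * (s + sh C ρ)))
      ((range (K + 1)).erase 0) (List.range K) =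
    ∑ i ∈ range K, ∑ l ∈ range K,
      (if i + l + 1 < K then -1 else 1) * y (C + g * (i + l + 1)) := by
  rw [bf k _ _ _ _ List.nodup_range, List.toFinset_range]
  refine sum_congr rfl fun i hi => ?_
  have h0 : (range (K + 1)).erase 0 = (range K).image (fun l => l + 1) := by
    ext j
    simp only [mem_erase, mem_range, mem_image]
    constructor
    · rintro ⟨h1, h2⟩
      exact ⟨j - 1, by omega, by omega⟩
    · rintro ⟨a, h1, rfl⟩
      omega
  rw [show ∑ j ∈ (range (K + 1)).erase 0, y (C + g * (j + i + sh C ρ)) *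
      pm (fun s => uX k K (s + sh C ρ)) (((range (K + 1)).erase 0).erase j)
        ((List.range K).erase i) = ∑ j ∈ (range K).image (fun l => l + 1),
      y (C + g * (j + i + sh C ρ)) * pm (fun s => uX k K (s + sh C ρ))
        (((range (K + 1)).erase 0).erase j) ((List.range K).erase i) by rw [← h0],
    sum_image (by intro a _ b _ h; simpa using h)]
  refine sum_congr rfl fun l hl => ?_
  have h1 := fc (k := k) hK hρ (mem_range.1 hi) (mem_range.1 hl)
  unfold Pb at h1
  rw [Finset.erase_right_comm, h1]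
  have h2 : sh C ρ = 0 := by unfold sh; rw [if_pos hρ]
  have h3 : l + 1 + i + 0 = i + l + 1 := by omega
  rw [h2, h3, mul_comm]
  rfl

/-- all the relations of a class of long indices -/
lemma rel (h2 : (2 : k) ≠ 0) (hLK : StmLK k) (hRF : StmRF k) (hRD : StmRD) (hCH : StmCH k)
    {C g K : ℕ} (hC : 2 ≤ C) (hCg : C < g) (hK : 2 ≤ K) {y : ℕ → k}
    (hy : Tt (g * K + C) (g * (K - 1) + C + 1) (qB2 k C g K) y) (σ : ℕ) (hσ : σ < g) :
    ∃ w₀ w₁ : k,
      (σ ≠ C → ∀ i < K, wB2 C g K y 0 σ i = if i = 0 then - w₀ else 0) ∧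
      (σ ≠ 0 → ∀ i < K, wB2 C g K y C σ i =
        if i = 0 then - w₀ else if i + 1 = K then w₀ - w₁ else 0) ∧
      (σ ≠ 0 → σ + 1 ≠ C → ∀ i < K, wB2 C g K y 1 σ i =
        if i = 0 then w₁ else if i + 1 = K then - w₁ else 0) ∧
      (σ = 0 → ∀ i < K, ∑ l ∈ Ico 1 (K + 1), y (1 + g * i + g * l) =
        if i = 0 then w₁ else if i + 1 = K then - w₁ else 0) ∧
      (σ = C → w₀ = - ∑ i ∈ range K, ∑ l ∈ range K,
        (if i + l < K then 1 else -1) * y (C + g * (i + l))) ∧
      (σ = 0 → w₁ = w₀ - ∑ i ∈ range K, ∑ l ∈ range K,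
        (if i + l + 1 < K then -1 else 1) * y (C + g * (i + l + 1))) ∧
      (σ + 1 = C → w₁ = ∑ i ∈ range K, ∑ l ∈ range K,
        (if i + l < K then 1 else -1) * y (C + g * (i + l))) := by
  by_cases c0 : σ = C
  · -- the sink `Z`
    subst c0
    obtain ⟨w₀, w₁, r1, r2, r3⟩ := caseC h2 hLK hRF hRD hCH hC hCg hK hy
    have e : cc g σ 0 = σ := by unfold cc; rw [if_pos (Nat.zero_le _), Nat.sub_zero]
    rw [dB_eq hK y (Nat.zero_le _)] at r3
    rw [e] at r1 r2
    refine ⟨w₀, w₁, fun h => absurd rfl h, fun _ i hi => ?_, fun _ _ i hi => ?_,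
      fun h => by omega, fun _ => r3, fun h => by omega, fun h => by omega⟩
    · rw [win1 _ _ _ _ le_rfl]; exact r1 i hi
    · rw [win1 _ _ _ _ le_rfl]; exact r2 i hi
  by_cases c1 : σ = 0
  · -- the sink `B_C`
    subst c1
    obtain ⟨w₀, w₁, r1, r2, r3⟩ := case0 h2 hLK hRF hRD hCH hC hCg hK hy
    have e : cc g C C = 0 := by unfold cc; rw [if_pos le_rfl, Nat.sub_self]
    rw [dA_eq hK y le_rfl] at r3
    rw [e] at r1 r2
    refine ⟨w₀, w₁, fun _ i hi => ?_, fun h => absurd rfl h, fun h => absurd rfl h,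
      fun _ i hi => ?_, fun h => by omega, fun _ => r3, fun h => by omega⟩
    · rw [win2 hK _ _ _ _ (by omega)]; exact r1 i hi
    · rw [← r2 i hi]
      have h3 : (range (K + 1)).erase 0 = Ico 1 (K + 1) := by
        ext j
        simp only [mem_erase, mem_range, mem_Ico]
        omega
      rw [h3]
      refine sum_congr rfl fun l _ => ?_
      rw [Nat.zero_add, mul_one]
  by_cases c2 : σ + 1 = C
  · -- the sink `B_1`
    obtain ⟨w₀, w₁, r1, r2, r3⟩ := case1 h2 hLK hRF hRD hCH hC hCg hK hy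
    have e : cc g C 1 = σ := by unfold cc; rw [if_pos (by omega)]; omega
    rw [dB_eq hK y (by omega)] at r3
    rw [e] at r1 r2
    refine ⟨w₀, w₁, fun _ i hi => ?_, fun _ i hi => ?_, fun _ h => absurd c2 h,
      fun h => absurd h c1, fun h => absurd h c0, fun h => absurd h c1, fun _ => r3⟩
    · rw [win2 hK _ _ _ _ (by omega)]; exact r1 i hi
    · rw [win2 hK _ _ _ _ (by omega)]; exact r2 i hi
  · -- a generic sink
    obtain ⟨s, hs, hs0, hs1, hsC, hsσ⟩ : ∃ s, s < g ∧ s ≠ 0 ∧ s ≠ 1 ∧ s ≠ C ∧ cc g C s = σ := by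
      by_cases h : σ < C
      · refine ⟨C - σ, by omega, by omega, by omega, by omega, ?_⟩
        unfold cc
        rw [if_pos (by omega)]
        omega
      · refine ⟨C + g - σ, by omega, by omega, by omega, by omega, ?_⟩
        unfold cc
        rw [if_neg (by omega)]
        omega
    obtain ⟨w₀, w₁, r1, r2, r3⟩ := caseG h2 hLK hRF hRD hCH hC hCg hK hy hs0 hs1 hsC hs
    refine ⟨w₀, w₁, fun _ i hi => ?_, fun _ i hi => ?_, fun _ _ i hi => ?_,
      fun h => absurd h c1, fun h => absurd h c0, fun h => absurd h c1, fun h => absurd h c2⟩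
    · rw [← hsσ, ← winS hC hCg hK y _ _ hs0 hs]; exact r1 i hi
    · rw [← hsσ, ← winS hC hCg hK y _ _ hs0 hs]; exact r2 i hi
    · rw [← hsσ, ← winS hC hCg hK y _ _ hs0 hs]; exact r3 i hi

end expand

/-- **PB2**: the family `2 ≤ C < g`, point and relations. -/
theorem t (k : Type*) [Field k] (hLK : StmLK k) (hRF : StmRF k) (hRD : StmRD)
    (hCH : StmCH k) : StmPB2 k := by
  intro h2 C g K hC hCg hK
  refine ⟨vt hLK hRD hC hCg hK, ?_⟩
  intro y hy
  have h := rel h2 hLK hRF hRD hCH hC hCg hK hy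
  choose! w₀ w₁ r using h
  refine ⟨w₀, w₁, ?_⟩
  constructor
  · intro i hi σ hσ hne
    exact (r σ hσ).1 hne i hi
  · intro i hi σ hσ hne
    exact (r σ hσ).2.1 hne i hi
  · intro i hi σ hσ hne hne'
    exact (r σ hσ).2.2.1 hne hne' i hi
  · intro i hi
    exact (r 0 (by omega)).2.2.2.1 rfl i hi
  · exact (r C hCg).2.2.2.2.1 rfl
  · exact (r 0 (by omega)).2.2.2.2.2.1 rfl
  · exact (r (C - 1) (by omega)).2.2.2.2.2.2 (by omega)

end Pool.Agent.N729.HQ.PB2a
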