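import Pool.Agent.N729.HQ.Stm

/-!
Project HQ: part PB3 (family `C = 0`, `g ≥ 3`, `κ ≥ 3`), helper291.
-/

set_option autoImplicit false

namespace Pool.Agent.N729.HQ.PB3b

open Finset
open Pool.Agent.N186.HK (pm)
open Pool.Agent.N729.HP
open Pool.Agent.N729.HQ

variable {k : Type*} [Field k]

/-! ### products -/

lemma erase_prod (s : Finset ℕ) (a : ℕ) (F : ℕ → k) :
    ∏ ρ ∈ s.erase a, F ρ = ∏ ρ ∈ s, if ρ = a then 1 else F ρ := by
  by_cases ha : a ∈ s
  · rw [← Finset.mul_prod_erase s (fun ρ => if ρ = a then 1 else F ρ) ha, if_pos rfl, one_mul]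
    exact Finset.prod_congr rfl fun ρ hρ => by rw [if_neg (Finset.ne_of_mem_erase hρ)]
  · rw [Finset.erase_eq_of_notMem ha]
    refine Finset.prod_congr rfl fun ρ hρ => ?_
    rw [if_neg]
    rintro rfl
    exact ha hρ

lemma split_prod (G : ℕ) (F : ℕ → k) :
    ∏ ρ ∈ range (G + 3), F ρ = F 0 * F (G + 2) * F (G + 1) * ∏ ρ ∈ Ico 1 (G + 1), F ρ := by
  rw [Finset.prod_range_succ, Finset.prod_range_succ, Finset.prod_range_eq_mul_Ico _ (by omega)]
  ring

lemma prod2 (G a b : ℕ) (F : ℕ → k) :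
    ∏ ρ ∈ ((range (G + 3)).erase a).erase b, F ρ =
      (if 0 = a ∨ 0 = b then 1 else F 0) * (if G + 2 = a ∨ G + 2 = b then 1 else F (G + 2)) *
        (if G + 1 = a ∨ G + 1 = b then 1 else F (G + 1)) *
        ∏ ρ ∈ Ico 1 (G + 1), if ρ = a ∨ ρ = b then 1 else F ρ := by
  rw [erase_prod, erase_prod, split_prod]
  have h : ∀ ρ, (if ρ = a then (1 : k) else if ρ = b then 1 else F ρ) =
      if ρ = a ∨ ρ = b then 1 else F ρ := by
    intro ρ
    by_cases h1 : ρ = a <;> by_cases h2 : ρ = b <;> simp [h1, h2]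
  simp only [h]

/-! ### the blocks -/

/-- `x` -/
abbrev xx (k : Type*) [Field k] (G m : ℕ) : ℕ → k := cst (G + 3) G (uN k (m + 2))

/-- the columns -/
abbrev JJ (G : ℕ) (Js : ℕ → Finset ℕ) : Finset ℕ := JG (G + 3) G Js (List.range (G + 3))

/-- the rows -/
abbrev LL (G : ℕ) (Ls : ℕ → List ℕ) : List ℕ := LG (G + 3) Ls (List.range (G + 3))

def L00 (m ρ : ℕ) : List ℕ := if ρ = 0 then List.range (m + 2) else List.range (m + 1)
def L10 (m _ρ : ℕ) : List ℕ := List.range (m + 1)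
def L01 (G m ρ : ℕ) : List ℕ :=
  if ρ = G + 2 then List.range m else if ρ = 0 then List.range (m + 2) else List.range (m + 1)
def L11 (G m ρ : ℕ) : List ℕ := if ρ = G + 2 then List.range m else List.range (m + 1)

/-- delete `l` from `Js ρ₀` -/
def del (ρ₀ l : ℕ) (Js : ℕ → Finset ℕ) (ρ : ℕ) : Finset ℕ :=
  if ρ = ρ₀ then (Js ρ).erase l else Js ρ

lemma cc0 (G : ℕ) : cc (G + 3) G 0 = G := by simp [cc]
lemma cc2 (G : ℕ) : cc (G + 3) G (G + 2) = G + 1 := by
  unfold cc; rw [if_neg (by omega)]; omega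
lemma cc1 (G : ℕ) : cc (G + 3) G (G + 1) = G + 2 := by
  unfold cc; rw [if_neg (by omega)]; omega

lemma cc_lt (G ρ : ℕ) (h : ρ < G + 3) : cc (G + 3) G ρ < G + 3 := by
  unfold cc; split_ifs <;> omega

lemma cc_inj (G ρ ρ' : ℕ) (h : ρ < G + 3) (h' : ρ' < G + 3)
    (e : cc (G + 3) G ρ = cc (G + 3) G ρ') : ρ = ρ' := by
  unfold cc at e; split_ifs at e <;> omega

lemma mem_JJ (G : ℕ) (Js : ℕ → Finset ℕ) (ρ l : ℕ) (h : ρ < G + 3) :
    cc (G + 3) G ρ + (G + 3) * l ∈ JJ G Js ↔ l ∈ Js ρ := by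
  unfold JJ JG
  simp only [List.toFinset_range, mem_biUnion, mem_range, mem_image]
  constructor
  · rintro ⟨ρ', h', l', hl', e⟩
    have e1 : cc (G + 3) G ρ' = cc (G + 3) G ρ := by
      have := congrArg (· % (G + 3)) e
      simpa [Nat.add_mul_mod_self_left, Nat.mod_eq_of_lt (cc_lt G ρ' h'),
        Nat.mod_eq_of_lt (cc_lt G ρ h)] using this
    have e2 := cc_inj G ρ' ρ h' h e1
    subst e2
    have e3 : l' = l := Nat.eq_of_mul_eq_mul_left (by omega : 0 < G + 3) (by omega)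
    exact e3 ▸ hl'
  · intro hl
    exact ⟨ρ, h, l, hl, rfl⟩

lemma JJ_lt (G m : ℕ) (Js : ℕ → Finset ℕ) (h : ∀ ρ < G + 3, Js ρ ⊆ range (m + 2)) :
    ∀ j ∈ JJ G Js, j < (G + 3) * (m + 2) := by
  intro j hj
  unfold JJ JG at hj
  simp only [List.toFinset_range, mem_biUnion, mem_range, mem_image] at hj
  obtain ⟨ρ, hρ, l, hl, rfl⟩ := hj
  have h1 := cc_lt G ρ hρ
  have h2 : l < m + 2 := by simpa using h ρ hρ hl
  have h3 : (G + 3) * l ≤ (G + 3) * (m + 1) := Nat.mul_le_mul_left _ (by omega)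
  have h4 : (G + 3) * (m + 2) = (G + 3) * (m + 1) + (G + 3) := by ring
  omega

lemma LG_congr (G : ℕ) (Ls Ls' : ℕ → List ℕ) (h : ∀ ρ < G + 3, Ls ρ = Ls' ρ) :
    LL G Ls = LL G Ls' := by
  unfold LL LG
  apply List.flatMap_congr
  intro ρ hρ
  rw [h ρ (List.mem_range.1 hρ)]

lemma perm00 (hRD : StmRD) (G m : ℕ) :
    (List.range ((G + 3) * (m + 1) + 1)).Perm (LL G (L00 m)) := by
  have h := hRD.2.1 (G + 3) ((G + 3) * (m + 1) + 1) (by omega)
  refine h.trans (List.Perm.of_eq ?_)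
  apply LG_congr
  intro ρ hρ
  unfold L00
  split_ifs with h0
  · subst h0
    congr 1
    rw [show (G + 3) * (m + 1) + 1 + (G + 3) - 1 - 0 = (G + 3) * (m + 2) by ring_nf; omega]
    exact Nat.mul_div_cancel_left _ (by omega)
  · congr 1
    rw [show (G + 3) * (m + 1) + 1 + (G + 3) - 1 - ρ = (G + 3 - ρ) + (G + 3) * (m + 1) by omega,
      Nat.add_mul_div_left _ _ (by omega), Nat.div_eq_of_lt (by omega), zero_add]

lemma nodup_range (G : ℕ) : (List.range (G + 3)).Nodup := List.nodup_range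

lemma er_range (n : ℕ) : (List.range (n + 1)).erase n = List.range n := by
  rw [List.erase_range]
  simp

lemma er_frange (n : ℕ) : (range (n + 1)).erase n = range n := by
  rw [Finset.range_add_one, Finset.erase_insert (by simp)]

lemma perm10 (hRD : StmRD) (G m : ℕ) :
    ((LL G (L00 m)).erase ((G + 3) * (m + 1))).Perm (LL G (L10 m)) := by
  have h := hRD.2.2.2 (G + 3) (L00 m) (L10 m) 0 (m + 1) (List.range (G + 3))
    (fun ρ hρ => List.mem_range.1 hρ) (nodup_range G) (by simp)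
    (fun ρ _ => by unfold L00; split_ifs <;> exact List.nodup_range)
    (by simp only [L00, L10, if_true]; exact (er_range (m + 1)).symm)
    (fun ρ hρ => by simp [L00, L10, hρ])
  rwa [zero_add] at h

lemma perm01 (hRD : StmRD) (G m : ℕ) :
    ((LL G (L00 m)).erase (G + 2 + (G + 3) * m)).Perm (LL G (L01 G m)) :=
  hRD.2.2.2 (G + 3) (L00 m) (L01 G m) (G + 2) m (List.range (G + 3))
    (fun ρ hρ => List.mem_range.1 hρ) (nodup_range G) (by simp)
    (fun ρ _ => by unfold L00; split_ifs <;> exact List.nodup_range)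
    (by simp only [L00, L01, if_true]; rw [if_neg (by omega)]; exact (er_range m).symm)
    (fun ρ hρ => by simp [L00, L01, hρ])

lemma perm11 (hRD : StmRD) (G m : ℕ) :
    (((LL G (L00 m)).erase ((G + 3) * (m + 1))).erase (G + 2 + (G + 3) * m)).Perm
      (LL G (L11 G m)) := by
  refine ((perm10 hRD G m).erase _).trans ?_
  exact hRD.2.2.2 (G + 3) (L10 m) (L11 G m) (G + 2) m (List.range (G + 3))
    (fun ρ hρ => List.mem_range.1 hρ) (nodup_range G) (by simp)
    (fun ρ _ => by unfold L10; exact List.nodup_range)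
    (by simp only [L10, L11, if_true]; exact (er_range m).symm)
    (fun ρ hρ => by simp [L10, L11, hρ])

lemma erJ (hRD : StmRD) (G ρ₀ l : ℕ) (h : ρ₀ < G + 3) (Js : ℕ → Finset ℕ) :
    (JJ G Js).erase (cc (G + 3) G ρ₀ + (G + 3) * l) = JJ G (del ρ₀ l Js) :=
  hRD.2.2.1 (G + 3) G Js (del ρ₀ l Js) ρ₀ l (List.range (G + 3)) (by omega)
    (fun ρ hρ => List.mem_range.1 hρ) (nodup_range G) (by simpa using h)
    (by simp [del]) (fun ρ hρ => by simp [del, hρ])

/-! ### the two links -/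

lemma qx (G m v : ℕ) (hv : v ≠ 2 * ((G + 3) * (m + 1)) + (G + 1)) :
    qB3 k (G + 3) (m + 2) v = xx k G m v := by
  unfold qB3
  rw [if_neg, Nat.add_sub_cancel]
  intro h
  apply hv
  have : (G + 3) * (2 * (m + 2) - 1) = 2 * ((G + 3) * (m + 1)) + (G + 3) := by
    rw [show 2 * (m + 2) - 1 = 2 * (m + 1) + 1 by omega]; ring
  omega

lemma q1 (G m : ℕ) : qB3 k (G + 3) (m + 2) (2 * ((G + 3) * (m + 1)) + (G + 1)) = 1 := by
  unfold qB3
  rw [if_pos]
  have : (G + 3) * (2 * (m + 2) - 1) = 2 * ((G + 3) * (m + 1)) + (G + 3) := by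
    rw [show 2 * (m + 2) - 1 = 2 * (m + 1) + 1 by omega]; ring
  omega

lemma x1 (G m : ℕ) : xx k G m (2 * ((G + 3) * (m + 1)) + (G + 1)) = 0 := by
  unfold xx cst
  rw [if_neg]
  rw [show 2 * ((G + 3) * (m + 1)) + (G + 1) = (G + 1) + (G + 3) * (2 * (m + 1)) by ring,
    Nat.add_mul_mod_self_left, Nat.mod_eq_of_lt (by omega)]
  omega

lemma expand (hLK : StmLK k) (hRD : StmRD) (G m : ℕ) (y : ℕ → k)
    (Js : ℕ → Finset ℕ) (hJ : ∀ ρ < G + 3, Js ρ ⊆ range (m + 2)) :
    (pm (qB3 k (G + 3) (m + 2)) (JJ G Js) (List.range ((G + 3) * (m + 1) + 1)) =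
      pm (xx k G m) (JJ G Js) (LL G (L00 m)) +
      (if m + 1 ∈ Js (G + 2) then
        pm (xx k G m) (JJ G (del (G + 2) (m + 1) Js)) (LL G (L10 m)) else 0) +
      (if m + 1 ∈ Js (G + 1) then
        pm (xx k G m) (JJ G (del (G + 1) (m + 1) Js)) (LL G (L01 G m)) else 0) +
      (if m + 1 ∈ Js (G + 2) ∧ m + 1 ∈ Js (G + 1) then
        pm (xx k G m) (JJ G (del (G + 1) (m + 1) (del (G + 2) (m + 1) Js)))
          (LL G (L11 G m)) else 0)) ∧
    (pd (qB3 k (G + 3) (m + 2)) y (JJ G Js) (List.range ((G + 3) * (m + 1) + 1)) =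
      pd (xx k G m) y (JJ G Js) (LL G (L00 m)) +
      (if m + 1 ∈ Js (G + 2) then
        pd (xx k G m) y (JJ G (del (G + 2) (m + 1) Js)) (LL G (L10 m)) else 0) +
      (if m + 1 ∈ Js (G + 1) then
        pd (xx k G m) y (JJ G (del (G + 1) (m + 1) Js)) (LL G (L01 G m)) else 0) +
      (if m + 1 ∈ Js (G + 2) ∧ m + 1 ∈ Js (G + 1) then
        pd (xx k G m) y (JJ G (del (G + 1) (m + 1) (del (G + 2) (m + 1) Js)))
          (LL G (L11 G m)) else 0)) := by
  set L := List.range ((G + 3) * (m + 1) + 1) with hL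
  have hG : G + 2 + (G + 3) * m + 1 = (G + 3) * (m + 1) := by ring
  have h := hLK.2 (xx k G m) (qB3 k (G + 3) (m + 2)) y (2 * ((G + 3) * (m + 1)) + (G + 1))
    (G + 1 + (G + 3) * (m + 1)) ((G + 3) * (m + 1)) (G + 2 + (G + 3) * (m + 1))
    (G + 2 + (G + 3) * m) (by ring) (by rw [← hG]; ring) (by omega)
    (fun v hv => qx G m v hv) (JJ G Js) L List.nodup_range
    (by
      intro j hj c hc e
      have h1 := JJ_lt G m Js hJ j hj
      have h2 : c < (G + 3) * (m + 1) + 1 := List.mem_range.1 hc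
      have h3 : (G + 3) * (m + 2) = (G + 3) * (m + 1) + (G + 3) := by ring
      omega)
  rw [q1, x1, sub_zero, one_pow] at h
  simp only [one_mul] at h
  have c0 : (G + 3) * (m + 1) ∈ L := List.mem_range.2 (by omega)
  have c1 : G + 2 + (G + 3) * m ∈ L := List.mem_range.2 (by omega)
  have j0 : G + 1 + (G + 3) * (m + 1) ∈ JJ G Js ↔ m + 1 ∈ Js (G + 2) := by
    have := mem_JJ G Js (G + 2) (m + 1) (by omega)
    rwa [cc2] at this
  have j1 : G + 2 + (G + 3) * (m + 1) ∈ JJ G Js ↔ m + 1 ∈ Js (G + 1) := by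
    have := mem_JJ G Js (G + 1) (m + 1) (by omega)
    rwa [cc1] at this
  have e0 : (JJ G Js).erase (G + 1 + (G + 3) * (m + 1)) = JJ G (del (G + 2) (m + 1) Js) := by
    have := erJ hRD G (G + 2) (m + 1) (by omega) Js
    rwa [cc2] at this
  have e1 : (JJ G Js).erase (G + 2 + (G + 3) * (m + 1)) = JJ G (del (G + 1) (m + 1) Js) := by
    have := erJ hRD G (G + 1) (m + 1) (by omega) Js
    rwa [cc1] at this
  have e2 : (JJ G (del (G + 2) (m + 1) Js)).erase (G + 2 + (G + 3) * (m + 1)) =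
      JJ G (del (G + 1) (m + 1) (del (G + 2) (m + 1) Js)) := by
    have := erJ hRD G (G + 1) (m + 1) (by omega) (del (G + 2) (m + 1) Js)
    rwa [cc1] at this
  have p00 := perm00 hRD G m
  have p10 := (p00.erase ((G + 3) * (m + 1))).trans (perm10 hRD G m)
  have p01 := (p00.erase (G + 2 + (G + 3) * m)).trans (perm01 hRD G m)
  have p11 := ((p00.erase ((G + 3) * (m + 1))).erase (G + 2 + (G + 3) * m)).trans
    (perm11 hRD G m)
  simp only [c0, c1, j0, j1, and_true, e0, e1, e2] at h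
  obtain ⟨h1, h2⟩ := h
  constructor
  · rw [h1, (BA.ta k).1 _ _ _ p00, (BA.ta k).1 _ _ _ p10, (BA.ta k).1 _ _ _ p01,
      (BA.ta k).1 _ _ _ p11]
  · rw [h2, (BA.ta k).2.1 _ _ _ _ p00, (BA.ta k).2.1 _ _ _ _ p10, (BA.ta k).2.1 _ _ _ _ p01,
      (BA.ta k).2.1 _ _ _ _ p11]

/-! ### membership -/

lemma split_sum (G : ℕ) (F : ℕ → ℕ) :
    ∑ ρ ∈ range (G + 3), F ρ = F 0 + F (G + 2) + F (G + 1) + ∑ ρ ∈ Ico 1 (G + 1), F ρ := by
  rw [Finset.sum_range_succ, Finset.sum_range_succ, Finset.sum_range_eq_add_Ico _ (by omega)]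
  ring

lemma len00 (G m : ℕ) :
    ∑ ρ ∈ range (G + 3), (L00 m ρ).length = (G + 3) * (m + 1) + 1 := by
  rw [split_sum]
  have h : ∑ ρ ∈ Ico 1 (G + 1), (L00 m ρ).length = ∑ ρ ∈ Ico 1 (G + 1), (m + 1) :=
    Finset.sum_congr rfl fun ρ hρ => by
      have := Finset.mem_Ico.1 hρ
      rw [L00, if_neg (by omega), List.length_range]
  rw [h]
  simp [L00]
  ring

lemma len10 (G m : ℕ) :
    ∑ ρ ∈ range (G + 3), (L10 m ρ).length = (G + 3) * (m + 1) := by
  simp [L10]

lemma len01 (G m : ℕ) :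
    ∑ ρ ∈ range (G + 3), (L01 G m ρ).length = (G + 3) * (m + 1) := by
  rw [split_sum]
  have h : ∑ ρ ∈ Ico 1 (G + 1), (L01 G m ρ).length = ∑ ρ ∈ Ico 1 (G + 1), (m + 1) :=
    Finset.sum_congr rfl fun ρ hρ => by
      have := Finset.mem_Ico.1 hρ
      rw [L01, if_neg (by omega), if_neg (by omega), List.length_range]
  rw [h]
  simp [L01]
  ring

lemma len11 (G m : ℕ) :
    ∑ ρ ∈ range (G + 3), (L11 G m ρ).length + 1 = (G + 3) * (m + 1) := by
  rw [split_sum]
  have h : ∑ ρ ∈ Ico 1 (G + 1), (L11 G m ρ).length = ∑ ρ ∈ Ico 1 (G + 1), (m + 1) :=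
    Finset.sum_congr rfl fun ρ hρ => by
      have := Finset.mem_Ico.1 hρ
      rw [L11, if_neg (by omega), List.length_range]
  rw [h]
  simp [L11]
  ring

lemma sum_del (G ρ₀ l : ℕ) (Js : ℕ → Finset ℕ) (h : ρ₀ < G + 3) (hl : l ∈ Js ρ₀) :
    ∑ ρ ∈ range (G + 3), (del ρ₀ l Js ρ).card + 1 = ∑ ρ ∈ range (G + 3), (Js ρ).card := by
  rw [← Finset.add_sum_erase _ _ (Finset.mem_range.2 h),
    ← Finset.add_sum_erase (range (G + 3)) (fun ρ => (Js ρ).card) (Finset.mem_range.2 h)]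
  have h1 : ∑ ρ ∈ (range (G + 3)).erase ρ₀, (del ρ₀ l Js ρ).card =
      ∑ ρ ∈ (range (G + 3)).erase ρ₀, (Js ρ).card :=
    Finset.sum_congr rfl fun ρ hρ => by
      rw [del, if_neg (Finset.ne_of_mem_erase hρ)]
  have h2 : (del ρ₀ l Js ρ₀).card + 1 = (Js ρ₀).card := by
    rw [del, if_pos rfl]
    exact Finset.card_erase_add_one hl
  rw [h1]
  omega

lemma JJ_card (k : Type*) [Field k] (G m : ℕ) (Js : ℕ → Finset ℕ) :
    (JJ G Js).card = ∑ ρ ∈ range (G + 3), (Js ρ).card := by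
  have h := (ra k (G + 3) G (uN k (m + 2)) (by omega) Js (fun _ => []) (List.range (G + 3)) []
    (by simpa using nodup_range G) (by simp)).2.2.2.1
  rwa [List.toFinset_range] at h

lemma pm_zero (G m : ℕ) (Js : ℕ → Finset ℕ) (Ls : ℕ → List ℕ) (ρ₀ : ℕ) (h₀ : ρ₀ < G + 3)
    (hs : ∑ ρ ∈ range (G + 3), (Js ρ).card = ∑ ρ ∈ range (G + 3), (Ls ρ).length)
    (hz : (Js ρ₀).card = (Ls ρ₀).length →
      pm (fun s => uN k (m + 2) (s + sh G ρ₀)) (Js ρ₀) (Ls ρ₀) = 0) :
    pm (xx k G m) (JJ G Js) (LL G Ls) = 0 := by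
  have h := (ra k (G + 3) G (uN k (m + 2)) (by omega) Js Ls (List.range (G + 3)) []
    (by simpa using nodup_range G) (by simp)).2.2.2.2.2.2
  rw [h, List.toFinset_range]
  by_cases hx : ∃ ρ ∈ range (G + 3), (Js ρ).card < (Ls ρ).length
  · obtain ⟨ρ, hρ, hlt⟩ := hx
    exact Finset.prod_eq_zero hρ ((BA.ta k).2.2 _ _ _ hlt)
  · push Not at hx
    have h2 := (Finset.sum_eq_sum_iff_of_le hx).1 hs.symm
    exact Finset.prod_eq_zero (Finset.mem_range.2 h₀) (hz (h2 ρ₀ (Finset.mem_range.2 h₀)).symm)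

lemma sh0 (G : ℕ) : sh G 0 = 0 := by simp [sh]
lemma sh1 (G : ℕ) : sh G (G + 1) = 1 := by simp [sh]
lemma sh2 (G : ℕ) : sh G (G + 2) = 1 := by simp [sh]
lemma shD (G ρ : ℕ) (h : ρ < G + 1) : sh G ρ = 0 := by
  unfold sh; rw [if_pos (by omega)]

lemma eq_range {s : Finset ℕ} {n : ℕ} (h : s ⊆ range n) (hc : s.card = n) : s = range n :=
  Finset.eq_of_subset_of_card_le h (by rw [hc, Finset.card_range])

lemma er_sub {s : Finset ℕ} {n : ℕ} (h : s ⊆ range (n + 1)) : s.erase n ⊆ range n := by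
  intro x hx
  have h1 := Finset.mem_range.1 (h (Finset.mem_of_mem_erase hx))
  have h2 := Finset.ne_of_mem_erase hx
  exact Finset.mem_range.2 (by omega)

lemma member (hLK : StmLK k) (hRD : StmRD) (G m : ℕ) (hm : 1 ≤ m) :
    Vt ((G + 3) * (m + 2)) ((G + 3) * (m + 1) + 1) (qB3 k (G + 3) (m + 2)) := by
  intro J hc hJ
  set Js : ℕ → Finset ℕ := fun ρ => (J.filter fun j => j % (G + 3) = cc (G + 3) G ρ).image
    fun j => j / (G + 3) with hJs
  have eJ : J = JJ G Js := hRD.1 (G + 3) G (by omega) J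
  have hsub : ∀ ρ < G + 3, Js ρ ⊆ range (m + 2) := by
    intro ρ _ l hl
    simp only [hJs, mem_image, mem_filter] at hl
    obtain ⟨j, ⟨hj, _⟩, rfl⟩ := hl
    exact mem_range.2 (Nat.div_lt_of_lt_mul (hJ j hj))
  have hcard : ∑ ρ ∈ range (G + 3), (Js ρ).card = (G + 3) * (m + 1) + 1 := by
    rw [← JJ_card k G m, ← eJ, hc]
  obtain ⟨n1, n2, n3, n4, n5⟩ := cn k (m + 2) (by omega)
  rw [eJ, (expand hLK hRD G m (fun _ => 0) Js hsub).1]
  have t00 : pm (xx k G m) (JJ G Js) (LL G (L00 m)) = 0 := by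
    refine pm_zero G m Js (L00 m) 0 (by omega) (by rw [hcard, len00]) ?_
    intro h
    simp only [L00, if_true, List.length_range] at h ⊢
    rw [eq_range (hsub 0 (by omega)) h, sh0]
    exact n1
  have t10 : m + 1 ∈ Js (G + 2) →
      pm (xx k G m) (JJ G (del (G + 2) (m + 1) Js)) (LL G (L10 m)) = 0 := by
    intro hl
    refine pm_zero G m _ (L10 m) (G + 2) (by omega) ?_ ?_
    · have := sum_del G (G + 2) (m + 1) Js (by omega) hl
      rw [len10]; omega
    · intro h
      simp only [L10, del, if_true, List.length_range] at h ⊢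
      rw [eq_range (er_sub (hsub (G + 2) (by omega))) h, sh2]
      exact n3
  have t01 : m + 1 ∈ Js (G + 1) →
      pm (xx k G m) (JJ G (del (G + 1) (m + 1) Js)) (LL G (L01 G m)) = 0 := by
    intro hl
    refine pm_zero G m _ (L01 G m) 0 (by omega) ?_ ?_
    · have := sum_del G (G + 1) (m + 1) Js (by omega) hl
      rw [len01]; omega
    · intro h
      have e1 : L01 G m 0 = List.range (m + 2) := by simp [L01]
      have e2 : del (G + 1) (m + 1) Js 0 = Js 0 := by simp [del]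
      rw [e1, e2, List.length_range] at h
      rw [e1, e2, eq_range (hsub 0 (by omega)) h, sh0]
      exact n1
  have t11 : m + 1 ∈ Js (G + 2) → m + 1 ∈ Js (G + 1) →
      pm (xx k G m) (JJ G (del (G + 1) (m + 1) (del (G + 2) (m + 1) Js)))
        (LL G (L11 G m)) = 0 := by
    intro hl hl'
    have e3 : del (G + 2) (m + 1) Js (G + 1) = Js (G + 1) := by simp [del]
    refine pm_zero G m _ (L11 G m) (G + 1) (by omega) ?_ ?_
    · have a1 := sum_del G (G + 2) (m + 1) Js (by omega) hl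
      have a2 := sum_del G (G + 1) (m + 1) (del (G + 2) (m + 1) Js) (by omega)
        (by rw [e3]; exact hl')
      have a3 := len11 G m
      omega
    · intro h
      have e1 : L11 G m (G + 1) = List.range (m + 1) := by simp [L11]
      have e2 : del (G + 1) (m + 1) (del (G + 2) (m + 1) Js) (G + 1) =
          (Js (G + 1)).erase (m + 1) := by simp [del]
      rw [e1, e2, List.length_range] at h
      rw [e1, e2, eq_range (er_sub (hsub (G + 1) (by omega))) h, sh1]
      exact n3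
  have b10 : (if m + 1 ∈ Js (G + 2) then
      pm (xx k G m) (JJ G (del (G + 2) (m + 1) Js)) (LL G (L10 m)) else 0) = 0 := by
    split_ifs with h
    · exact t10 h
    · rfl
  have b01 : (if m + 1 ∈ Js (G + 1) then
      pm (xx k G m) (JJ G (del (G + 1) (m + 1) Js)) (LL G (L01 G m)) else 0) = 0 := by
    split_ifs with h
    · exact t01 h
    · rfl
  have b11 : (if m + 1 ∈ Js (G + 2) ∧ m + 1 ∈ Js (G + 1) then
      pm (xx k G m) (JJ G (del (G + 1) (m + 1) (del (G + 2) (m + 1) Js)))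
        (LL G (L11 G m)) else 0) = 0 := by
    split_ifs with h
    · exact t11 h.1 h.2
    · rfl
  rw [t00, b10, b01, b11]
  simp only [add_zero]

/-! ### values of the permanents of the blocks -/

/-- the block `ρ` -/
abbrev bl (k : Type*) [Field k] (G m ρ : ℕ) : ℕ → k := fun s => uN k (m + 2) (s + sh G ρ)

/-- cofactors of `Z` -/
def ee (k : Type*) [Field k] (m i l : ℕ) : k :=
  if i + 1 = m + 2 ∧ l + 1 = m + 2 then 2 else if i + 1 = m + 2 ∨ l + 1 = m + 2 then 0 else
    if i + l < m + 2 then 1 else -1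

/-- cofactors of the square part of `A₁`, `A₂` -/
def ap (k : Type*) [Field k] (m i l : ℕ) : k := if i + l + 1 < m + 2 then 1 else -1

/-- maximal minors of `A₁`, `A₂` -/
def aa (k : Type*) [Field k] (m l : ℕ) : k := if l + 1 = m + 2 then 0 else 1

lemma bl0 (G m ρ : ℕ) (hρ : sh G ρ = 0) : bl k G m ρ = uN k (m + 2) := by
  funext s
  show uN k (m + 2) (s + sh G ρ) = _
  rw [hρ, add_zero]

lemma bl1 (G m ρ : ℕ) (hρ : sh G ρ = 1) : bl k G m ρ = fun s => uN k (m + 2) (s + 1) := by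
  funext s
  show uN k (m + 2) (s + sh G ρ) = _
  rw [hρ]

lemma zZ (G m : ℕ) (hm : 1 ≤ m) :
    pm (bl k G m 0) (range (m + 2)) (List.range (m + 2)) = 0 := by
  rw [bl0 G m 0 (sh0 G)]
  exact (cn k (m + 2) (by omega)).1

lemma cZ (G m : ℕ) (hm : 1 ≤ m) (i l : ℕ) (hi : i < m + 2) (hl : l < m + 2) :
    pm (bl k G m 0) ((range (m + 2)).erase l) ((List.range (m + 2)).erase i) = ee k m i l := by
  rw [bl0 G m 0 (sh0 G)]
  exact (cn k (m + 2) (by omega)).2.1 i hi l hl

lemma cD (G m ρ : ℕ) (hm : 1 ≤ m) (hρ : sh G ρ = 0) (l : ℕ) (hl : l < m + 2) :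
    pm (bl k G m ρ) ((range (m + 2)).erase l) (List.range (m + 1)) = ee k m (m + 1) l := by
  have h := (cn k (m + 2) (by omega)).2.1 (m + 1) (by omega) l hl
  rw [er_range] at h
  rw [bl0 G m ρ hρ]
  exact h

lemma vD (G m ρ : ℕ) (hm : 1 ≤ m) (hρ : sh G ρ = 0) :
    pm (bl k G m ρ) (range (m + 1)) (List.range (m + 1)) = 2 := by
  have h := cD (k := k) G m ρ hm hρ (m + 1) (by omega)
  rw [er_frange] at h
  rw [h]
  simp [ee]

lemma zA (G m ρ : ℕ) (hm : 1 ≤ m) (hρ : sh G ρ = 1) :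
    pm (bl k G m ρ) (range (m + 1)) (List.range (m + 1)) = 0 := by
  rw [bl1 G m ρ hρ]
  exact (cn k (m + 2) (by omega)).2.2.1

lemma cA (G m ρ : ℕ) (hm : 1 ≤ m) (hρ : sh G ρ = 1) (i l : ℕ) (hi : i < m + 1)
    (hl : l < m + 1) :
    pm (bl k G m ρ) ((range (m + 1)).erase l) ((List.range (m + 1)).erase i) = ap k m i l := by
  rw [bl1 G m ρ hρ]
  exact (cn k (m + 2) (by omega)).2.2.2.1 i hi l hl

lemma cA' (G m ρ : ℕ) (hm : 1 ≤ m) (hρ : sh G ρ = 1) (l : ℕ) (hl : l < m + 1) :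
    pm (bl k G m ρ) ((range (m + 1)).erase l) (List.range m) = ap k m m l := by
  have h := cA (k := k) G m ρ hm hρ m l (by omega) hl
  rwa [er_range] at h

lemma cA'' (G m ρ : ℕ) (hm : 1 ≤ m) (hρ : sh G ρ = 1) (l : ℕ) (hl : l < m + 2) :
    pm (bl k G m ρ) ((range (m + 2)).erase l) (List.range (m + 1)) = aa k m l := by
  rw [bl1 G m ρ hρ]
  exact (cn k (m + 2) (by omega)).2.2.2.2 l hl

/-- the product of the blocks `D` -/
def Q (k : Type*) [Field k] (G σ : ℕ) : k := ∏ ρ ∈ Ico 1 (G + 1), if ρ = σ then 1 else 2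

lemma Q_ne (h2 : (2 : k) ≠ 0) (G σ : ℕ) : Q k G σ ≠ 0 := by
  unfold Q
  rw [Finset.prod_ne_zero_iff]
  intro ρ _
  split_ifs
  · exact one_ne_zero
  · exact h2

lemma Q_eq (G m σ ρ₁ ρ₂ : ℕ) (hm : 1 ≤ m) (Js : ℕ → Finset ℕ) (Ls : ℕ → List ℕ)
    (hD : ∀ ρ, 1 ≤ ρ → ρ < G + 1 → ρ ≠ σ → Js ρ = range (m + 1) ∧ Ls ρ = List.range (m + 1))
    (hσ : ∀ ρ, 1 ≤ ρ → ρ < G + 1 → ((ρ = ρ₁ ∨ ρ = ρ₂) ↔ ρ = σ)) :
    (∏ ρ ∈ Ico 1 (G + 1), if ρ = ρ₁ ∨ ρ = ρ₂ then 1 else
      pm (bl k G m ρ) (Js ρ) (Ls ρ)) = Q k G σ := by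
  unfold Q
  refine Finset.prod_congr rfl fun ρ hρ => ?_
  obtain ⟨h1, h2⟩ := Finset.mem_Ico.1 hρ
  simp only [hσ ρ h1 h2]
  split_ifs with h
  · rfl
  · rw [(hD ρ h1 h2 h).1, (hD ρ h1 h2 h).2, vD G m ρ hm (shD G ρ (by omega))]

/-- one surplus column and one surplus row -/
lemma surplus (hRF : StmRF k) (G m σ : ℕ) (hm : 1 ≤ m) (y : ℕ → k) (Js : ℕ → Finset ℕ)
    (Ls : ℕ → List ℕ) (ρ₁ ρ₂ : ℕ) (F H : ℕ → k) (P : k)
    (h₁ : ρ₁ < G + 3) (h₂ : ρ₂ < G + 3) (hne : ρ₁ ≠ ρ₂) (hnd : ∀ ρ, (Ls ρ).Nodup)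
    (hD : ∀ ρ, 1 ≤ ρ → ρ < G + 1 → ρ ≠ σ → Js ρ = range (m + 1) ∧ Ls ρ = List.range (m + 1))
    (hσ : ∀ ρ, 1 ≤ ρ → ρ < G + 1 → ((ρ = ρ₁ ∨ ρ = ρ₂) ↔ ρ = σ))
    (hc1 : (Js ρ₁).card + 1 = (Ls ρ₁).length) (hc2 : (Js ρ₂).card = (Ls ρ₂).length + 1)
    (hc : ∀ ρ, ρ = 0 ∨ ρ = G + 1 ∨ ρ = G + 2 → ρ ≠ ρ₁ → ρ ≠ ρ₂ →
      (Js ρ).card = (Ls ρ).length)
    (hF : ∀ i ∈ Ls ρ₁, pm (bl k G m ρ₁) (Js ρ₁) ((Ls ρ₁).erase i) = F i)
    (hH : ∀ l ∈ Js ρ₂, pm (bl k G m ρ₂) ((Js ρ₂).erase l) (Ls ρ₂) = H l)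
    (hP : (if 0 = ρ₁ ∨ 0 = ρ₂ then 1 else pm (bl k G m 0) (Js 0) (Ls 0)) *
      (if G + 2 = ρ₁ ∨ G + 2 = ρ₂ then 1 else
        pm (bl k G m (G + 2)) (Js (G + 2)) (Ls (G + 2))) *
      (if G + 1 = ρ₁ ∨ G + 1 = ρ₂ then 1 else
        pm (bl k G m (G + 1)) (Js (G + 1)) (Ls (G + 1))) = P) :
    pd (xx k G m) y (JJ G Js) (LL G Ls) =
      (∑ i ∈ (Ls ρ₁).toFinset, (∑ l ∈ Js ρ₂,
        y (ρ₁ + (G + 3) * i + (cc (G + 3) G ρ₂ + (G + 3) * l)) * H l) * F i) *
      (P * Q k G σ) := by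
  have hcc : ∀ ρ ∈ List.range (G + 3), ρ ≠ ρ₁ → ρ ≠ ρ₂ → (Js ρ).card = (Ls ρ).length := by
    intro ρ hρ n1 n2
    have hlt := List.mem_range.1 hρ
    by_cases h : ρ = 0 ∨ ρ = G + 1 ∨ ρ = G + 2
    · exact hc ρ h n1 n2
    · have hs : ρ ≠ σ := fun e => by
        have := (hσ ρ (by omega) (by omega)).2 e
        tauto
      rw [(hD ρ (by omega) (by omega) hs).1, (hD ρ (by omega) (by omega) hs).2]
      simp
  have h := (hRF (G + 3) G (uN k (m + 2)) y (by omega) Js Ls (List.range (G + 3))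
    (nodup_range G) (fun ρ hρ => List.mem_range.1 hρ) (fun ρ _ => hnd ρ)).2.2.1
    ρ₁ (List.mem_range.2 h₁) ρ₂ (List.mem_range.2 h₂) hne hc1 hc2 hcc
  rw [h, List.toFinset_range, prod2 G ρ₁ ρ₂ (fun ρ => pm (bl k G m ρ) (Js ρ) (Ls ρ)),
    Q_eq G m σ ρ₁ ρ₂ hm Js Ls hD hσ, hP]
  congr 1
  refine Finset.sum_congr rfl fun i hi => ?_
  rw [Finset.sum_mul]
  refine Finset.sum_congr rfl fun l hl => ?_
  rw [hF i (List.mem_toFinset.1 hi), hH l hl]
  ring

/-- the product rule -/
lemma balanced (hRF : StmRF k) (G m σ : ℕ) (hm : 1 ≤ m) (y : ℕ → k) (Js : ℕ → Finset ℕ)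
    (Ls : ℕ → List ℕ) (ρ₀ : ℕ) (P : k)
    (h₀ : ρ₀ = 0 ∨ ρ₀ = G + 1 ∨ ρ₀ = G + 2) (hnd : ∀ ρ, (Ls ρ).Nodup)
    (hD : ∀ ρ, 1 ≤ ρ → ρ < G + 1 → ρ ≠ σ → Js ρ = range (m + 1) ∧ Ls ρ = List.range (m + 1))
    (hσ : σ = 0 ∨ σ = G + 1 ∨ σ = G + 2)
    (hc : ∀ ρ, ρ = 0 ∨ ρ = G + 1 ∨ ρ = G + 2 → (Js ρ).card = (Ls ρ).length)
    (hz : pm (bl k G m ρ₀) (Js ρ₀) (Ls ρ₀) = 0)
    (hP : (if 0 = ρ₀ ∨ 0 = ρ₀ then 1 else pm (bl k G m 0) (Js 0) (Ls 0)) *
      (if G + 2 = ρ₀ ∨ G + 2 = ρ₀ then 1 else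
        pm (bl k G m (G + 2)) (Js (G + 2)) (Ls (G + 2))) *
      (if G + 1 = ρ₀ ∨ G + 1 = ρ₀ then 1 else
        pm (bl k G m (G + 1)) (Js (G + 1)) (Ls (G + 1))) = P) :
    pd (xx k G m) y (JJ G Js) (LL G Ls) =
      pd (bl k G m ρ₀) (fun s => y (G + (G + 3) * (s + sh G ρ₀))) (Js ρ₀) (Ls ρ₀) *
        (P * Q k G σ) := by
  have hcc : ∀ ρ ∈ List.range (G + 3), (Js ρ).card = (Ls ρ).length := by
    intro ρ hρ
    have hlt := List.mem_range.1 hρ
    by_cases h : ρ = 0 ∨ ρ = G + 1 ∨ ρ = G + 2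
    · exact hc ρ h
    · rw [(hD ρ (by omega) (by omega) (by omega)).1, (hD ρ (by omega) (by omega) (by omega)).2]
      simp
  have h := (hRF (G + 3) G (uN k (m + 2)) y (by omega) Js Ls (List.range (G + 3))
    (nodup_range G) (fun ρ hρ => List.mem_range.1 hρ) (fun ρ _ => hnd ρ)).2.1 hcc
  have hm0 : ρ₀ ∈ range (G + 3) := Finset.mem_range.2 (by omega)
  rw [h, List.toFinset_range, Finset.sum_eq_single ρ₀]
  · congr 1
    have e : (range (G + 3)).erase ρ₀ = ((range (G + 3)).erase ρ₀).erase ρ₀ := by simp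
    rw [e, prod2 G ρ₀ ρ₀ (fun ρ => pm (bl k G m ρ) (Js ρ) (Ls ρ)),
      Q_eq G m σ ρ₀ ρ₀ hm Js Ls hD (fun ρ h1 h2 => by omega), hP]
  · intro ρ _ hne
    rw [Finset.prod_eq_zero (Finset.mem_erase.2 ⟨hne.symm, hm0⟩) hz, mul_zero]
  · intro h
    exact absurd hm0 h

/-- two deficits -/
lemma deficits (hRF : StmRF k) (G m : ℕ) (y : ℕ → k) (Js : ℕ → Finset ℕ)
    (Ls : ℕ → List ℕ) (ρ₁ ρ₂ : ℕ) (h₁ : ρ₁ < G + 3) (h₂ : ρ₂ < G + 3) (hne : ρ₁ ≠ ρ₂)
    (hnd : ∀ ρ, (Ls ρ).Nodup) (hc1 : (Js ρ₁).card < (Ls ρ₁).length)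
    (hc2 : (Js ρ₂).card < (Ls ρ₂).length) :
    pd (xx k G m) y (JJ G Js) (LL G Ls) = 0 :=
  (hRF (G + 3) G (uN k (m + 2)) y (by omega) Js Ls (List.range (G + 3))
    (nodup_range G) (fun ρ hρ => List.mem_range.1 hρ) (fun ρ _ => hnd ρ)).2.2.2.2
    ⟨ρ₁, List.mem_range.2 h₁, ρ₂, List.mem_range.2 h₂, hne, hc1, hc2⟩

lemma nd00 (m ρ : ℕ) : (L00 m ρ).Nodup := by
  unfold L00; split_ifs <;> exact List.nodup_range
lemma nd10 (m ρ : ℕ) : (L10 m ρ).Nodup := List.nodup_range
lemma nd01 (G m ρ : ℕ) : (L01 G m ρ).Nodup := by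
  unfold L01; split_ifs <;> exact List.nodup_range
lemma nd11 (G m ρ : ℕ) : (L11 G m ρ).Nodup := by
  unfold L11; split_ifs <;> exact List.nodup_range

/-! ### linear algebra -/

lemma solveZ (h2 : (2 : k) ≠ 0) (m : ℕ) (hm : 1 ≤ m) (W : ℕ → k) (w : k)
    (h : ∀ l < m + 2, ∑ i ∈ range (m + 2), W i * ee k m i l = - w * ee k m (m + 1) l) :
    ∃ lam : k, ∀ i < m + 2, W i =
      if i = 0 then lam else if i = 1 then - lam else if i + 1 = m + 2 then - w else 0 := by
  have h' := (ci k h2 (m + 2) (fun i => W i + if i = m + 1 then w else 0)).2.2 (by omega) (by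
    intro l hl
    have e : ∑ i ∈ range (m + 2), (W i + if i = m + 1 then w else 0) * ee k m i l = 0 := by
      simp only [add_mul, Finset.sum_add_distrib, ite_mul, zero_mul]
      rw [h l hl, Finset.sum_ite_eq' (range (m + 2)) (m + 1), if_pos (by simp)]
      ring
    exact e)
  obtain ⟨h3, h4⟩ := h'
  refine ⟨W 0, fun i hi => ?_⟩
  have n0 : ¬ (0 : ℕ) = m + 1 := by omega
  have n1 : ¬ (1 : ℕ) = m + 1 := by omega
  simp only [n0, n1, if_false, add_zero] at h3
  split_ifs with i0 i1 i2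
  · rw [i0]
  · rw [i1]; linear_combination h3
  · have h5 := h4 i hi (by omega)
    simp only [show i = m + 1 by omega, if_true] at h5 ⊢
    linear_combination h5
  · have h5 := h4 i hi (by omega)
    simpa only [show ¬ i = m + 1 by omega, if_false, add_zero] using h5

lemma solveA (h2 : (2 : k) ≠ 0) (m : ℕ) (hm : 1 ≤ m) (W : ℕ → k) (w₀ w₁ : k)
    (h : ∀ l < m + 1, ∑ i ∈ range (m + 1), W i * ap k m i l = w₀ - w₁ * ap k m m l) :
    ∀ i < m + 1, W i = if i = 0 then w₀ else if i + 2 = m + 2 then - w₁ else 0 := by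
  have h' := (ci k h2 (m + 1) (fun i => W i + ((if i = 0 then - w₀ else 0) +
    if i = m then w₁ else 0))).1 (by
    intro l hl
    have e : ∑ i ∈ range (m + 1), (W i + ((if i = 0 then - w₀ else 0) +
        if i = m then w₁ else 0)) * ap k m i l = 0 := by
      simp only [add_mul, Finset.sum_add_distrib, ite_mul, zero_mul]
      rw [h l hl, Finset.sum_ite_eq' (range (m + 1)) m, if_pos (by simp),
        Finset.sum_ite_eq' (range (m + 1)) 0, if_pos (by simp)]
      have : ap k m 0 l = 1 := by rw [ap, if_pos (by omega)]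
      rw [this]
      ring
    refine Eq.trans (Finset.sum_congr rfl fun i _ => ?_) e
    congr 1
    unfold ap
    simp only [show (i + l < m + 1) = (i + l + 1 < m + 2) from propext (by omega)])
  intro i hi
  have h5 := h' i hi
  split_ifs with i0 i1
  · simp only [i0, if_true, show ¬ (0 : ℕ) = m by omega, if_false, add_zero] at h5 ⊢
    linear_combination h5
  · simp only [i0, if_false, show i = m by omega, if_true, zero_add] at h5 ⊢
    simp only [show ¬ m = 0 by omega, if_false, zero_add] at h5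
    linear_combination h5
  · simpa only [i0, if_false, show ¬ i = m by omega, add_zero] using h5

/-! ### the minors -/

/-- the columns of the minors: `σ` is the block with all its columns -/
def JS (G m σ l₀ l₁ l₂ ρ : ℕ) : Finset ℕ :=
  if ρ = σ then range (m + 2) else if ρ = 0 then (range (m + 2)).erase l₀ else
    if ρ = G + 2 then (range (m + 2)).erase l₁ else if ρ = G + 1 then (range (m + 2)).erase l₂
    else range (m + 1)

lemma JS_sub (G m σ l₀ l₁ l₂ ρ : ℕ) : JS G m σ l₀ l₁ l₂ ρ ⊆ range (m + 2) := by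
  unfold JS
  split_ifs
  · exact subset_rfl
  · exact Finset.erase_subset _ _
  · exact Finset.erase_subset _ _
  · exact Finset.erase_subset _ _
  · exact Finset.range_subset_range.2 (by omega)

lemma JS_card (G m σ l₀ l₁ l₂ : ℕ) (hσ : σ < G + 3) (h₀ : l₀ < m + 2) (h₁ : l₁ < m + 2)
    (h₂ : l₂ < m + 2) :
    (JJ G (JS G m σ l₀ l₁ l₂)).card = (G + 3) * (m + 1) + 1 := by
  rw [JJ_card ℚ G m]
  have h : ∀ ρ ∈ range (G + 3), (JS G m σ l₀ l₁ l₂ ρ).card =
      (m + 1) + if ρ = σ then 1 else 0 := by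
    intro ρ _
    have c : ∀ l < m + 2, ((range (m + 2)).erase l).card = m + 1 := fun l hl => by
      rw [Finset.card_erase_of_mem (Finset.mem_range.2 hl), Finset.card_range]
      omega
    unfold JS
    split_ifs
    · rw [Finset.card_range]
    · rw [c _ h₀]
    · rw [c _ h₁]
    · rw [c _ h₂]
    · rw [Finset.card_range]
  rw [Finset.sum_congr rfl h, Finset.sum_add_distrib, Finset.sum_ite_eq' (range (G + 3)) σ,
    if_pos (Finset.mem_range.2 hσ)]
  simp

lemma rel (hLK : StmLK k) (hRD : StmRD) (G m : ℕ) (y : ℕ → k)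
    (hy : Tt ((G + 3) * (m + 2)) ((G + 3) * (m + 1) + 1) (qB3 k (G + 3) (m + 2)) y)
    (σ l₀ l₁ l₂ : ℕ) (hσ : σ < G + 3) (h₀ : l₀ < m + 2) (h₁ : l₁ < m + 2)
    (h₂ : l₂ < m + 2) :
    pd (xx k G m) y (JJ G (JS G m σ l₀ l₁ l₂)) (LL G (L00 m)) +
      (if m + 1 ∈ JS G m σ l₀ l₁ l₂ (G + 2) then
        pd (xx k G m) y (JJ G (del (G + 2) (m + 1) (JS G m σ l₀ l₁ l₂))) (LL G (L10 m))
        else 0) +
      (if m + 1 ∈ JS G m σ l₀ l₁ l₂ (G + 1) then
        pd (xx k G m) y (JJ G (del (G + 1) (m + 1) (JS G m σ l₀ l₁ l₂))) (LL G (L01 G m))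
        else 0) +
      (if m + 1 ∈ JS G m σ l₀ l₁ l₂ (G + 2) ∧ m + 1 ∈ JS G m σ l₀ l₁ l₂ (G + 1) then
        pd (xx k G m) y (JJ G (del (G + 1) (m + 1) (del (G + 2) (m + 1)
          (JS G m σ l₀ l₁ l₂)))) (LL G (L11 G m)) else 0) = 0 := by
  rw [← (expand hLK hRD G m y (JS G m σ l₀ l₁ l₂) (fun ρ _ => JS_sub G m σ l₀ l₁ l₂ ρ)).2]
  exact hy _ (JS_card G m σ l₀ l₁ l₂ hσ h₀ h₁ h₂)
    (JJ_lt G m _ fun ρ _ => JS_sub G m σ l₀ l₁ l₂ ρ)

lemma k2 (m l : ℕ) (hl : l < m + 2) : ((range (m + 2)).erase l).card = m + 1 := by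
  rw [Finset.card_erase_of_mem (Finset.mem_range.2 hl), Finset.card_range]
  omega

lemma k1 (m l : ℕ) (hl : l < m + 1) : ((range (m + 1)).erase l).card = m := by
  rw [Finset.card_erase_of_mem (Finset.mem_range.2 hl), Finset.card_range]
  omega

lemma er_er (m l : ℕ) :
    ((range (m + 2)).erase l).erase (m + 1) = (range (m + 1)).erase l := by
  rw [Finset.erase_right_comm, er_frange]

lemma mem_er (m l : ℕ) : m + 1 ∈ (range (m + 2)).erase l ↔ l ≠ m + 1 := by
  simp only [Finset.mem_erase, Finset.mem_range]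
  omega

lemma L00_0 (m : ℕ) : L00 m 0 = List.range (m + 2) := by simp [L00]
lemma L00_n (m ρ : ℕ) (h : ρ ≠ 0) : L00 m ρ = List.range (m + 1) := by simp [L00, h]
lemma L01_0 (G m : ℕ) : L01 G m 0 = List.range (m + 2) := by simp [L01]
lemma L01_2 (G m : ℕ) : L01 G m (G + 2) = List.range m := by simp [L01]
lemma L01_n (G m ρ : ℕ) (h : ρ ≠ 0) (h' : ρ ≠ G + 2) : L01 G m ρ = List.range (m + 1) := by
  simp [L01, h, h']
lemma L11_2 (G m : ℕ) : L11 G m (G + 2) = List.range m := by simp [L11]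
lemma L11_n (G m ρ : ℕ) (h' : ρ ≠ G + 2) : L11 G m ρ = List.range (m + 1) := by
  simp [L11, h']

lemma del_n (ρ₀ l ρ : ℕ) (Js : ℕ → Finset ℕ) (h : ρ ≠ ρ₀) : del ρ₀ l Js ρ = Js ρ := by
  simp [del, h]
lemma del_e (ρ₀ l : ℕ) (Js : ℕ → Finset ℕ) : del ρ₀ l Js ρ₀ = (Js ρ₀).erase l := by
  simp [del]

/-- the sink is a block `D` -/
lemma caseA (hLK : StmLK k) (hRF : StmRF k) (hRD : StmRD) (h2 : (2 : k) ≠ 0) (G m : ℕ)
    (hm : 1 ≤ m) (y : ℕ → k)
    (hy : Tt ((G + 3) * (m + 2)) ((G + 3) * (m + 1) + 1) (qB3 k (G + 3) (m + 2)) y)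
    (σ l₀ l₁ l₂ : ℕ) (hσ : 1 ≤ σ) (hσ' : σ < G + 1) (h₀ : l₀ < m + 2) (h₁ : l₁ < m + 2)
    (h₂ : l₂ < m + 2) :
    (∑ i ∈ range (m + 2), (∑ l ∈ range (m + 2),
        y (0 + (G + 3) * i + (cc (G + 3) G σ + (G + 3) * l)) * ee k m (m + 1) l) *
        ee k m i l₀) * aa k m l₁ * aa k m l₂ +
      ee k m (m + 1) l₀ * (if l₁ < m + 1 then ∑ i ∈ range (m + 1), (∑ l ∈ range (m + 2),
        y (G + 2 + (G + 3) * i + (cc (G + 3) G σ + (G + 3) * l)) * ee k m (m + 1) l) *
        ap k m i l₁ else 0) * aa k m l₂ +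
      ee k m (m + 1) l₀ * (if l₁ < m + 1 then ap k m m l₁ else 0) *
      (if l₂ < m + 1 then ∑ i ∈ range (m + 1), (∑ l ∈ range (m + 2),
        y (G + 1 + (G + 3) * i + (cc (G + 3) G σ + (G + 3) * l)) * ee k m (m + 1) l) *
        ap k m i l₂ else 0) = 0 := by
  set J := JS G m σ l₀ l₁ l₂ with hJ
  have J0 : J 0 = (range (m + 2)).erase l₀ := by
    rw [hJ, JS, if_neg (by omega), if_pos rfl]
  have J2 : J (G + 2) = (range (m + 2)).erase l₁ := by
    rw [hJ, JS, if_neg (by omega), if_neg (by omega), if_pos rfl]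
  have J1 : J (G + 1) = (range (m + 2)).erase l₂ := by
    rw [hJ, JS, if_neg (by omega), if_neg (by omega), if_neg (by omega), if_pos rfl]
  have Jσ : J σ = range (m + 2) := by rw [hJ, JS, if_pos rfl]
  have JD : ∀ ρ, 1 ≤ ρ → ρ < G + 1 → ρ ≠ σ → J ρ = range (m + 1) := fun ρ a b c => by
    rw [hJ, JS, if_neg (by omega), if_neg (by omega), if_neg (by omega), if_neg (by omega)]
  have hr := rel hLK hRD G m y hy σ l₀ l₁ l₂ (by omega) h₀ h₁ h₂
  rw [← hJ, J2, J1] at hr
  simp only [mem_er] at hr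
  have T00 := surplus hRF G m σ hm y J (L00 m) 0 σ (fun i => ee k m i l₀)
    (fun l => ee k m (m + 1) l) (aa k m l₁ * aa k m l₂) (by omega) (by omega) (by omega)
    (nd00 m) (fun ρ a b c => ⟨JD ρ a b c, L00_n m ρ (by omega)⟩)
    (fun ρ a b => by omega)
    (by rw [J0, L00_0, k2 m l₀ h₀, List.length_range])
    (by rw [Jσ, L00_n m σ (by omega), Finset.card_range, List.length_range])
    (by
      rintro ρ (rfl | rfl | rfl) a b
      · exact absurd rfl a
      · rw [J1, L00_n _ _ (by omega), k2 m l₂ h₂, List.length_range]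
      · rw [J2, L00_n _ _ (by omega), k2 m l₁ h₁, List.length_range])
    (by
      intro i hi
      rw [L00_0] at hi ⊢
      rw [J0]
      exact cZ G m hm i l₀ (List.mem_range.1 hi) h₀)
    (by
      intro l hl
      rw [Jσ] at hl ⊢
      rw [L00_n _ _ (by omega)]
      exact cD G m σ hm (shD G σ hσ') l (Finset.mem_range.1 hl))
    (by
      rw [if_pos (Or.inl rfl), if_neg (by omega), if_neg (by omega), J2, J1,
        L00_n _ _ (by omega), L00_n _ _ (by omega), cA'' G m (G + 2) hm (sh2 G) l₁ h₁,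
        cA'' G m (G + 1) hm (sh1 G) l₂ h₂, one_mul])
  have T01 : l₂ ≠ m + 1 →
      pd (xx k G m) y (JJ G (del (G + 1) (m + 1) J)) (LL G (L01 G m)) = 0 := by
    intro hl
    refine deficits hRF G m y _ _ 0 (G + 1) (by omega) (by omega) (by omega) (nd01 G m) ?_ ?_
    · rw [del_n _ _ _ _ (by omega), J0, L01_0, k2 m l₀ h₀, List.length_range]
      omega
    · rw [del_e, J1, er_er, k1 m l₂ (by omega), L01_n _ _ _ (by omega) (by omega),
        List.length_range]
      omega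
  have T10 : l₁ ≠ m + 1 →
      pd (xx k G m) y (JJ G (del (G + 2) (m + 1) J)) (LL G (L10 m)) =
        (∑ i ∈ range (m + 1), (∑ l ∈ range (m + 2),
          y (G + 2 + (G + 3) * i + (cc (G + 3) G σ + (G + 3) * l)) * ee k m (m + 1) l) *
          ap k m i l₁) * (ee k m (m + 1) l₀ * aa k m l₂ * Q k G σ) := by
    intro hl
    have h := surplus hRF G m σ hm y (del (G + 2) (m + 1) J) (L10 m) (G + 2) σ
      (fun i => ap k m i l₁)
      (fun l => ee k m (m + 1) l) (ee k m (m + 1) l₀ * aa k m l₂) (by omega) (by omega)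
      (by omega)
      (nd10 m) (fun ρ a b c => ⟨by rw [del_n _ _ _ _ (by omega)]; exact JD ρ a b c, rfl⟩)
      (fun ρ a b => by omega)
      (by rw [del_e, J2, er_er, k1 m l₁ (by omega), L10, List.length_range])
      (by rw [del_n _ _ _ _ (by omega), Jσ, L10, Finset.card_range, List.length_range])
      (by
        rintro ρ (rfl | rfl | rfl) a b
        · rw [del_n _ _ _ _ (by omega), J0, L10, k2 m l₀ h₀, List.length_range]
        · rw [del_n _ _ _ _ (by omega), J1, L10, k2 m l₂ h₂, List.length_range]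
        · exact absurd rfl a)
      (by
        intro i hi
        rw [L10] at hi ⊢
        rw [del_e, J2, er_er]
        exact cA G m (G + 2) hm (sh2 G) i l₁ (List.mem_range.1 hi) (by omega))
      (by
        intro l hl
        rw [del_n _ _ _ _ (by omega), Jσ] at hl ⊢
        exact cD G m σ hm (shD G σ hσ') l (Finset.mem_range.1 hl))
      (by
        rw [if_neg (by omega), if_pos (Or.inl rfl), if_neg (by omega),
          del_n _ _ _ _ (by omega), del_n _ _ _ _ (by omega), J0, J1, L10, L10,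
          cD G m 0 hm (sh0 G) l₀ h₀, cA'' G m (G + 1) hm (sh1 G) l₂ h₂, mul_one])
    rw [h, del_n _ _ _ _ (by omega), Jσ, L10, List.toFinset_range]
  have T11 : l₁ ≠ m + 1 → l₂ ≠ m + 1 →
      pd (xx k G m) y (JJ G (del (G + 1) (m + 1) (del (G + 2) (m + 1) J)))
        (LL G (L11 G m)) =
        (∑ i ∈ range (m + 1), (∑ l ∈ range (m + 2),
          y (G + 1 + (G + 3) * i + (cc (G + 3) G σ + (G + 3) * l)) * ee k m (m + 1) l) *
          ap k m i l₂) * (ee k m (m + 1) l₀ * ap k m m l₁ * Q k G σ) := by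
    intro hl hl'
    have h := surplus hRF G m σ hm y (del (G + 1) (m + 1) (del (G + 2) (m + 1) J))
      (L11 G m) (G + 1) σ (fun i => ap k m i l₂)
      (fun l => ee k m (m + 1) l) (ee k m (m + 1) l₀ * ap k m m l₁) (by omega) (by omega)
      (by omega)
      (nd11 G m) (fun ρ a b c => ⟨by
        rw [del_n _ _ _ _ (by omega), del_n _ _ _ _ (by omega)]; exact JD ρ a b c,
        L11_n G m ρ (by omega)⟩)
      (fun ρ a b => by omega)
      (by rw [del_e, del_n _ _ _ _ (by omega), J1, er_er, k1 m l₂ (by omega),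
        L11_n _ _ _ (by omega), List.length_range])
      (by rw [del_n _ _ _ _ (by omega), del_n _ _ _ _ (by omega), Jσ,
        L11_n _ _ _ (by omega), Finset.card_range, List.length_range])
      (by
        rintro ρ (rfl | rfl | rfl) a b
        · rw [del_n _ _ _ _ (by omega), del_n _ _ _ _ (by omega), J0, L11_n _ _ _ (by omega),
            k2 m l₀ h₀, List.length_range]
        · exact absurd rfl a
        · rw [del_n _ _ _ _ (by omega), del_e, J2, er_er, L11_2, k1 m l₁ (by omega),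
            List.length_range])
      (by
        intro i hi
        rw [L11_n _ _ _ (by omega)] at hi ⊢
        rw [del_e, del_n _ _ _ _ (by omega), J1, er_er]
        exact cA G m (G + 1) hm (sh1 G) i l₂ (List.mem_range.1 hi) (by omega))
      (by
        intro l hl
        rw [del_n _ _ _ _ (by omega), del_n _ _ _ _ (by omega), Jσ] at hl ⊢
        rw [L11_n _ _ _ (by omega)]
        exact cD G m σ hm (shD G σ hσ') l (Finset.mem_range.1 hl))
      (by
        rw [if_neg (by omega), if_neg (by omega), if_pos (Or.inl rfl),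
          del_n _ _ _ _ (by omega), del_n _ _ _ _ (by omega), del_n _ _ _ _ (by omega),
          del_e, J0, J2, er_er, L11_n _ _ _ (by omega), L11_2,
          cD G m 0 hm (sh0 G) l₀ h₀, cA' G m (G + 2) hm (sh2 G) l₁ (by omega), mul_one])
    rw [h, del_n _ _ _ _ (by omega), del_n _ _ _ _ (by omega), Jσ, L11_n _ _ _ (by omega),
      List.toFinset_range]
  rw [T00, Jσ, L00_0, List.toFinset_range] at hr
  have hQ := Q_ne h2 G σ
  have e01 : (if l₂ ≠ m + 1 then
      pd (xx k G m) y (JJ G (del (G + 1) (m + 1) J)) (LL G (L01 G m)) else 0) = 0 := by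
    split_ifs with h
    · exact T01 h
    · rfl
  rw [e01] at hr
  apply mul_right_cancel₀ hQ
  by_cases a1 : l₁ = m + 1
  · have a1' : ¬ l₁ < m + 1 := by omega
    simp only [ne_eq, a1, not_true_eq_false, if_false, false_and] at hr
    simp only [a1', if_false]
    subst a1
    linear_combination hr
  · have a1' : l₁ < m + 1 := by omega
    by_cases a2 : l₂ = m + 1
    · have a2' : ¬ l₂ < m + 1 := by omega
      simp only [ne_eq, a2, not_true_eq_false, if_false, and_false] at hr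
      rw [if_pos a1, T10 a1] at hr
      simp only [a1', a2', if_true, if_false]
      subst a2
      linear_combination hr
    · have a2' : l₂ < m + 1 := by omega
      rw [if_pos a1, if_pos ⟨a1, a2⟩, T10 a1, T11 a1 a2] at hr
      simp only [a1', a2', if_true]
      linear_combination hr

/-- the derivative of the square part of `A₁`, `A₂` -/
def dA (k : Type*) [Field k] (G m ρ : ℕ) (y : ℕ → k) : k :=
  pd (bl k G m ρ) (fun s => y (G + (G + 3) * (s + sh G ρ))) (range (m + 1)) (List.range (m + 1))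

/-- the derivative of `Z` -/
def dB (k : Type*) [Field k] (G m : ℕ) (y : ℕ → k) : k :=
  pd (bl k G m 0) (fun s => y (G + (G + 3) * (s + sh G 0))) (range (m + 2)) (List.range (m + 2))

/-- the sink is `A₁` -/
lemma caseB (hLK : StmLK k) (hRF : StmRF k) (hRD : StmRD) (h2 : (2 : k) ≠ 0) (G m : ℕ)
    (hm : 1 ≤ m) (y : ℕ → k)
    (hy : Tt ((G + 3) * (m + 2)) ((G + 3) * (m + 1) + 1) (qB3 k (G + 3) (m + 2)) y)
    (l₀ l₂ : ℕ) (h₀ : l₀ < m + 2) (h₂ : l₂ < m + 2) :
    (∑ i ∈ range (m + 2), (∑ l ∈ range (m + 2),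
        y (0 + (G + 3) * i + (cc (G + 3) G (G + 2) + (G + 3) * l)) * aa k m l) *
        ee k m i l₀) * aa k m l₂ +
      ee k m (m + 1) l₀ * (dA k G m (G + 2) y * aa k m l₂ +
      (if l₂ < m + 1 then ∑ i ∈ range (m + 1), (∑ l ∈ range (m + 1),
        y (G + 1 + (G + 3) * i + (cc (G + 3) G (G + 2) + (G + 3) * l)) * ap k m m l) *
        ap k m i l₂ else 0)) = 0 := by
  set J := JS G m (G + 2) l₀ 0 l₂ with hJ
  have J0 : J 0 = (range (m + 2)).erase l₀ := by
    rw [hJ, JS, if_neg (by omega), if_pos rfl]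
  have J2 : J (G + 2) = range (m + 2) := by
    rw [hJ, JS, if_pos rfl]
  have J1 : J (G + 1) = (range (m + 2)).erase l₂ := by
    rw [hJ, JS, if_neg (by omega), if_neg (by omega), if_neg (by omega), if_pos rfl]
  have JD : ∀ ρ, 1 ≤ ρ → ρ < G + 1 → ρ ≠ G + 2 → J ρ = range (m + 1) := fun ρ a b c => by
    rw [hJ, JS, if_neg (by omega), if_neg (by omega), if_neg (by omega), if_neg (by omega)]
  have hr := rel hLK hRD G m y hy (G + 2) l₀ 0 l₂ (by omega) h₀ (by omega) h₂
  rw [← hJ, J2, J1] at hr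
  have hmem : m + 1 ∈ range (m + 2) := by simp
  simp only [mem_er, hmem, if_true, true_and] at hr
  have T00 := surplus hRF G m (G + 2) hm y J (L00 m) 0 (G + 2) (fun i => ee k m i l₀)
    (fun l => aa k m l) (aa k m l₂) (by omega) (by omega) (by omega)
    (nd00 m) (fun ρ a b c => ⟨JD ρ a b c, L00_n m ρ (by omega)⟩)
    (fun ρ a b => by omega)
    (by rw [J0, L00_0, k2 m l₀ h₀, List.length_range])
    (by rw [J2, L00_n m _ (by omega), Finset.card_range, List.length_range])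
    (by
      rintro ρ (rfl | rfl | rfl) a b
      · exact absurd rfl a
      · rw [J1, L00_n _ _ (by omega), k2 m l₂ h₂, List.length_range]
      · exact absurd rfl b)
    (by
      intro i hi
      rw [L00_0] at hi ⊢
      rw [J0]
      exact cZ G m hm i l₀ (List.mem_range.1 hi) h₀)
    (by
      intro l hl
      rw [J2] at hl ⊢
      rw [L00_n _ _ (by omega)]
      exact cA'' G m (G + 2) hm (sh2 G) l (Finset.mem_range.1 hl))
    (by
      rw [if_pos (Or.inl rfl), if_pos (Or.inr rfl), if_neg (by omega), J1,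
        L00_n _ _ (by omega), cA'' G m (G + 1) hm (sh1 G) l₂ h₂, one_mul, one_mul])
  have T01 : l₂ ≠ m + 1 →
      pd (xx k G m) y (JJ G (del (G + 1) (m + 1) J)) (LL G (L01 G m)) = 0 := by
    intro hl
    refine deficits hRF G m y _ _ 0 (G + 1) (by omega) (by omega) (by omega) (nd01 G m) ?_ ?_
    · rw [del_n _ _ _ _ (by omega), J0, L01_0, k2 m l₀ h₀, List.length_range]
      omega
    · rw [del_e, J1, er_er, k1 m l₂ (by omega), L01_n _ _ _ (by omega) (by omega),
        List.length_range]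
      omega
  have T10 : pd (xx k G m) y (JJ G (del (G + 2) (m + 1) J)) (LL G (L10 m)) =
        dA k G m (G + 2) y * (ee k m (m + 1) l₀ * aa k m l₂ * Q k G (G + 2)) := by
    have h := balanced hRF G m (G + 2) hm y (del (G + 2) (m + 1) J) (L10 m) (G + 2)
      (ee k m (m + 1) l₀ * aa k m l₂) (by omega)
      (nd10 m) (fun ρ a b c => ⟨by rw [del_n _ _ _ _ (by omega)]; exact JD ρ a b c, rfl⟩)
      (by omega)
      (by
        rintro ρ (rfl | rfl | rfl)
        · rw [del_n _ _ _ _ (by omega), J0, L10, k2 m l₀ h₀, List.length_range]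
        · rw [del_n _ _ _ _ (by omega), J1, L10, k2 m l₂ h₂, List.length_range]
        · rw [del_e, J2, er_frange, L10, Finset.card_range, List.length_range])
      (by rw [del_e, J2, er_frange, L10]; exact zA G m (G + 2) hm (sh2 G))
      (by
        rw [if_neg (by omega), if_pos (Or.inl rfl), if_neg (by omega),
          del_n _ _ _ _ (by omega), del_n _ _ _ _ (by omega), J0, J1, L10, L10,
          cD G m 0 hm (sh0 G) l₀ h₀, cA'' G m (G + 1) hm (sh1 G) l₂ h₂, mul_one])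
    rw [h, del_e, J2, er_frange, L10, dA]
  have T11 : l₂ ≠ m + 1 →
      pd (xx k G m) y (JJ G (del (G + 1) (m + 1) (del (G + 2) (m + 1) J)))
        (LL G (L11 G m)) =
        (∑ i ∈ range (m + 1), (∑ l ∈ range (m + 1),
          y (G + 1 + (G + 3) * i + (cc (G + 3) G (G + 2) + (G + 3) * l)) * ap k m m l) *
          ap k m i l₂) * (ee k m (m + 1) l₀ * Q k G (G + 2)) := by
    intro hl'
    have h := surplus hRF G m (G + 2) hm y (del (G + 1) (m + 1) (del (G + 2) (m + 1) J))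
      (L11 G m) (G + 1) (G + 2) (fun i => ap k m i l₂)
      (fun l => ap k m m l) (ee k m (m + 1) l₀) (by omega) (by omega)
      (by omega)
      (nd11 G m) (fun ρ a b c => ⟨by
        rw [del_n _ _ _ _ (by omega), del_n _ _ _ _ (by omega)]; exact JD ρ a b c,
        L11_n G m ρ (by omega)⟩)
      (fun ρ a b => by omega)
      (by rw [del_e, del_n _ _ _ _ (by omega), J1, er_er, k1 m l₂ (by omega),
        L11_n _ _ _ (by omega), List.length_range])
      (by rw [del_n _ _ _ _ (by omega), del_e, J2, er_frange,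
        L11_2, Finset.card_range, List.length_range])
      (by
        rintro ρ (rfl | rfl | rfl) a b
        · rw [del_n _ _ _ _ (by omega), del_n _ _ _ _ (by omega), J0, L11_n _ _ _ (by omega),
            k2 m l₀ h₀, List.length_range]
        · exact absurd rfl a
        · exact absurd rfl b)
      (by
        intro i hi
        rw [L11_n _ _ _ (by omega)] at hi ⊢
        rw [del_e, del_n _ _ _ _ (by omega), J1, er_er]
        exact cA G m (G + 1) hm (sh1 G) i l₂ (List.mem_range.1 hi) (by omega))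
      (by
        intro l hl
        rw [del_n _ _ _ _ (by omega), del_e, J2, er_frange] at hl ⊢
        rw [L11_2]
        exact cA' G m (G + 2) hm (sh2 G) l (Finset.mem_range.1 hl))
      (by
        rw [if_neg (by omega), if_pos (Or.inr rfl), if_pos (Or.inl rfl),
          del_n _ _ _ _ (by omega), del_n _ _ _ _ (by omega),
          J0, L11_n _ _ _ (by omega),
          cD G m 0 hm (sh0 G) l₀ h₀, mul_one, mul_one])
    rw [h, del_n _ _ _ _ (by omega), del_e, J2, er_frange, L11_n _ _ _ (by omega),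
      List.toFinset_range]
  rw [T00, J2, L00_0, List.toFinset_range, T10] at hr
  have hQ := Q_ne h2 G (G + 2)
  have e01 : (if l₂ ≠ m + 1 then
      pd (xx k G m) y (JJ G (del (G + 1) (m + 1) J)) (LL G (L01 G m)) else 0) = 0 := by
    split_ifs with h
    · exact T01 h
    · rfl
  rw [e01] at hr
  apply mul_right_cancel₀ hQ
  by_cases a2 : l₂ = m + 1
  · have a2' : ¬ l₂ < m + 1 := by omega
    simp only [ne_eq, a2, not_true_eq_false, if_false] at hr
    simp only [a2', if_false]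
    subst a2
    linear_combination hr
  · have a2' : l₂ < m + 1 := by omega
    rw [if_pos a2, T11 a2] at hr
    simp only [a2', if_true]
    linear_combination hr

/-- the sink is `A₂` -/
lemma caseC (hLK : StmLK k) (hRF : StmRF k) (hRD : StmRD) (h2 : (2 : k) ≠ 0) (G m : ℕ)
    (hm : 1 ≤ m) (y : ℕ → k)
    (hy : Tt ((G + 3) * (m + 2)) ((G + 3) * (m + 1) + 1) (qB3 k (G + 3) (m + 2)) y)
    (l₀ l₁ : ℕ) (h₀ : l₀ < m + 2) (h₁ : l₁ < m + 2) :
    (∑ i ∈ range (m + 2), (∑ l ∈ range (m + 2),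
        y (0 + (G + 3) * i + (cc (G + 3) G (G + 1) + (G + 3) * l)) * aa k m l) *
        ee k m i l₀) * aa k m l₁ +
      ee k m (m + 1) l₀ * ((if l₁ < m + 1 then ∑ i ∈ range (m + 1), (∑ l ∈ range (m + 2),
        y (G + 2 + (G + 3) * i + (cc (G + 3) G (G + 1) + (G + 3) * l)) * aa k m l) *
        ap k m i l₁ else 0) + (if l₁ < m + 1 then ap k m m l₁ else 0) *
        dA k G m (G + 1) y) = 0 := by
  set J := JS G m (G + 1) l₀ l₁ 0 with hJ
  have J0 : J 0 = (range (m + 2)).erase l₀ := by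
    rw [hJ, JS, if_neg (by omega), if_pos rfl]
  have J2 : J (G + 2) = (range (m + 2)).erase l₁ := by
    rw [hJ, JS, if_neg (by omega), if_neg (by omega), if_pos rfl]
  have J1 : J (G + 1) = range (m + 2) := by
    rw [hJ, JS, if_pos rfl]
  have JD : ∀ ρ, 1 ≤ ρ → ρ < G + 1 → ρ ≠ G + 1 → J ρ = range (m + 1) := fun ρ a b c => by
    rw [hJ, JS, if_neg (by omega), if_neg (by omega), if_neg (by omega), if_neg (by omega)]
  have hr := rel hLK hRD G m y hy (G + 1) l₀ l₁ 0 (by omega) h₀ h₁ (by omega)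
  rw [← hJ, J2, J1] at hr
  have hmem : m + 1 ∈ range (m + 2) := by simp
  simp only [mem_er, hmem, if_true, and_true] at hr
  have T00 := surplus hRF G m (G + 1) hm y J (L00 m) 0 (G + 1) (fun i => ee k m i l₀)
    (fun l => aa k m l) (aa k m l₁) (by omega) (by omega) (by omega)
    (nd00 m) (fun ρ a b c => ⟨JD ρ a b c, L00_n m ρ (by omega)⟩)
    (fun ρ a b => by omega)
    (by rw [J0, L00_0, k2 m l₀ h₀, List.length_range])
    (by rw [J1, L00_n m _ (by omega), Finset.card_range, List.length_range])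
    (by
      rintro ρ (rfl | rfl | rfl) a b
      · exact absurd rfl a
      · exact absurd rfl b
      · rw [J2, L00_n _ _ (by omega), k2 m l₁ h₁, List.length_range])
    (by
      intro i hi
      rw [L00_0] at hi ⊢
      rw [J0]
      exact cZ G m hm i l₀ (List.mem_range.1 hi) h₀)
    (by
      intro l hl
      rw [J1] at hl ⊢
      rw [L00_n _ _ (by omega)]
      exact cA'' G m (G + 1) hm (sh1 G) l (Finset.mem_range.1 hl))
    (by
      rw [if_pos (Or.inl rfl), if_neg (by omega), if_pos (Or.inr rfl), J2,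
        L00_n _ _ (by omega), cA'' G m (G + 2) hm (sh2 G) l₁ h₁, one_mul, mul_one])
  have T01 : pd (xx k G m) y (JJ G (del (G + 1) (m + 1) J)) (LL G (L01 G m)) = 0 := by
    have h := surplus hRF G m (G + 1) hm y (del (G + 1) (m + 1) J) (L01 G m) 0 (G + 2)
      (fun i => pm (bl k G m 0) (del (G + 1) (m + 1) J 0) ((L01 G m 0).erase i))
      (fun l => pm (bl k G m (G + 2)) ((del (G + 1) (m + 1) J (G + 2)).erase l)
        (L01 G m (G + 2))) 0 (by omega) (by omega) (by omega)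
      (nd01 G m) (fun ρ a b c => ⟨by rw [del_n _ _ _ _ (by omega)]; exact JD ρ a b c,
        L01_n G m ρ (by omega) (by omega)⟩)
      (fun ρ a b => by omega)
      (by rw [del_n _ _ _ _ (by omega), J0, L01_0, k2 m l₀ h₀, List.length_range])
      (by rw [del_n _ _ _ _ (by omega), J2, L01_2, k2 m l₁ h₁, List.length_range])
      (by
        rintro ρ (rfl | rfl | rfl) a b
        · exact absurd rfl a
        · rw [del_e, J1, er_frange, L01_n _ _ _ (by omega) (by omega), Finset.card_range,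
            List.length_range]
        · exact absurd rfl b)
      (fun i _ => rfl) (fun l _ => rfl)
      (by
        rw [if_pos (Or.inl rfl), if_pos (Or.inr rfl), if_neg (by omega), del_e, J1, er_frange,
          L01_n _ _ _ (by omega) (by omega), zA G m (G + 1) hm (sh1 G), mul_zero])
    rw [h, zero_mul, mul_zero]
  have T10 : l₁ ≠ m + 1 →
      pd (xx k G m) y (JJ G (del (G + 2) (m + 1) J)) (LL G (L10 m)) =
        (∑ i ∈ range (m + 1), (∑ l ∈ range (m + 2),
          y (G + 2 + (G + 3) * i + (cc (G + 3) G (G + 1) + (G + 3) * l)) * aa k m l) *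
          ap k m i l₁) * (ee k m (m + 1) l₀ * Q k G (G + 1)) := by
    intro hl
    have h := surplus hRF G m (G + 1) hm y (del (G + 2) (m + 1) J) (L10 m) (G + 2) (G + 1)
      (fun i => ap k m i l₁)
      (fun l => aa k m l) (ee k m (m + 1) l₀) (by omega) (by omega)
      (by omega)
      (nd10 m) (fun ρ a b c => ⟨by rw [del_n _ _ _ _ (by omega)]; exact JD ρ a b c, rfl⟩)
      (fun ρ a b => by omega)
      (by rw [del_e, J2, er_er, k1 m l₁ (by omega), L10, List.length_range])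
      (by rw [del_n _ _ _ _ (by omega), J1, L10, Finset.card_range, List.length_range])
      (by
        rintro ρ (rfl | rfl | rfl) a b
        · rw [del_n _ _ _ _ (by omega), J0, L10, k2 m l₀ h₀, List.length_range]
        · exact absurd rfl b
        · exact absurd rfl a)
      (by
        intro i hi
        rw [L10] at hi ⊢
        rw [del_e, J2, er_er]
        exact cA G m (G + 2) hm (sh2 G) i l₁ (List.mem_range.1 hi) (by omega))
      (by
        intro l hl
        rw [del_n _ _ _ _ (by omega), J1] at hl ⊢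
        exact cA'' G m (G + 1) hm (sh1 G) l (Finset.mem_range.1 hl))
      (by
        rw [if_neg (by omega), if_pos (Or.inl rfl), if_pos (Or.inr rfl),
          del_n _ _ _ _ (by omega), J0, L10,
          cD G m 0 hm (sh0 G) l₀ h₀, mul_one, mul_one])
    rw [h, del_n _ _ _ _ (by omega), J1, L10, List.toFinset_range]
  have T11 : l₁ ≠ m + 1 →
      pd (xx k G m) y (JJ G (del (G + 1) (m + 1) (del (G + 2) (m + 1) J)))
        (LL G (L11 G m)) =
        dA k G m (G + 1) y * (ee k m (m + 1) l₀ * ap k m m l₁ * Q k G (G + 1)) := by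
    intro hl
    have h := balanced hRF G m (G + 1) hm y (del (G + 1) (m + 1) (del (G + 2) (m + 1) J))
      (L11 G m) (G + 1) (ee k m (m + 1) l₀ * ap k m m l₁) (by omega)
      (nd11 G m) (fun ρ a b c => ⟨by
        rw [del_n _ _ _ _ (by omega), del_n _ _ _ _ (by omega)]; exact JD ρ a b c,
        L11_n G m ρ (by omega)⟩)
      (by omega)
      (by
        rintro ρ (rfl | rfl | rfl)
        · rw [del_n _ _ _ _ (by omega), del_n _ _ _ _ (by omega), J0, L11_n _ _ _ (by omega),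
            k2 m l₀ h₀, List.length_range]
        · rw [del_e, del_n _ _ _ _ (by omega), J1, er_frange, L11_n _ _ _ (by omega),
            Finset.card_range, List.length_range]
        · rw [del_n _ _ _ _ (by omega), del_e, J2, er_er, L11_2, k1 m l₁ (by omega),
            List.length_range])
      (by
        rw [del_e, del_n _ _ _ _ (by omega), J1, er_frange, L11_n _ _ _ (by omega)]
        exact zA G m (G + 1) hm (sh1 G))
      (by
        rw [if_neg (by omega), if_neg (by omega), if_pos (Or.inl rfl),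
          del_n _ _ _ _ (by omega), del_n _ _ _ _ (by omega), del_n _ _ _ _ (by omega),
          del_e, J0, J2, er_er, L11_n _ _ _ (by omega), L11_2,
          cD G m 0 hm (sh0 G) l₀ h₀, cA' G m (G + 2) hm (sh2 G) l₁ (by omega), mul_one])
    rw [h, del_e, del_n _ _ _ _ (by omega), J1, er_frange, L11_n _ _ _ (by omega), dA]
  rw [T00, J1, L00_0, List.toFinset_range, T01] at hr
  have hQ := Q_ne h2 G (G + 1)
  apply mul_right_cancel₀ hQ
  by_cases a1 : l₁ = m + 1
  · have a1' : ¬ l₁ < m + 1 := by omega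
    simp only [ne_eq, a1, not_true_eq_false, if_false] at hr
    simp only [a1', if_false]
    subst a1
    linear_combination hr
  · have a1' : l₁ < m + 1 := by omega
    rw [if_pos a1, if_pos a1, T10 a1, T11 a1] at hr
    simp only [a1', if_true]
    linear_combination hr

/-- the sink is `Z` -/
lemma caseD (hLK : StmLK k) (hRF : StmRF k) (hRD : StmRD) (h2 : (2 : k) ≠ 0) (G m : ℕ)
    (hm : 1 ≤ m) (y : ℕ → k)
    (hy : Tt ((G + 3) * (m + 2)) ((G + 3) * (m + 1) + 1) (qB3 k (G + 3) (m + 2)) y)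
    (l₁ l₂ : ℕ) (h₁ : l₁ < m + 2) (h₂ : l₂ < m + 2) :
    (dB k G m y * aa k m l₁ + (if l₁ < m + 1 then ∑ i ∈ range (m + 1), (∑ l ∈ range (m + 2),
        y (G + 2 + (G + 3) * i + (cc (G + 3) G 0 + (G + 3) * l)) * ee k m (m + 1) l) *
        ap k m i l₁ else 0)) * aa k m l₂ +
      (if l₁ < m + 1 then ap k m m l₁ else 0) *
      (if l₂ < m + 1 then ∑ i ∈ range (m + 1), (∑ l ∈ range (m + 2),
        y (G + 1 + (G + 3) * i + (cc (G + 3) G 0 + (G + 3) * l)) * ee k m (m + 1) l) *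
        ap k m i l₂ else 0) = 0 := by
  set J := JS G m 0 0 l₁ l₂ with hJ
  have J0 : J 0 = range (m + 2) := by
    rw [hJ, JS, if_pos rfl]
  have J2 : J (G + 2) = (range (m + 2)).erase l₁ := by
    rw [hJ, JS, if_neg (by omega), if_neg (by omega), if_pos rfl]
  have J1 : J (G + 1) = (range (m + 2)).erase l₂ := by
    rw [hJ, JS, if_neg (by omega), if_neg (by omega), if_neg (by omega), if_pos rfl]
  have JD : ∀ ρ, 1 ≤ ρ → ρ < G + 1 → ρ ≠ 0 → J ρ = range (m + 1) := fun ρ a b c => by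
    rw [hJ, JS, if_neg (by omega), if_neg (by omega), if_neg (by omega), if_neg (by omega)]
  have hr := rel hLK hRD G m y hy 0 0 l₁ l₂ (by omega) (by omega) h₁ h₂
  rw [← hJ, J2, J1] at hr
  simp only [mem_er] at hr
  have T00 : pd (xx k G m) y (JJ G J) (LL G (L00 m)) =
      dB k G m y * (aa k m l₁ * aa k m l₂ * Q k G 0) := by
    have h := balanced hRF G m 0 hm y J (L00 m) 0 (aa k m l₁ * aa k m l₂) (by omega)
      (nd00 m) (fun ρ a b c => ⟨JD ρ a b c, L00_n m ρ (by omega)⟩)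
      (by omega)
      (by
        rintro ρ (rfl | rfl | rfl)
        · rw [J0, L00_0, Finset.card_range, List.length_range]
        · rw [J1, L00_n _ _ (by omega), k2 m l₂ h₂, List.length_range]
        · rw [J2, L00_n _ _ (by omega), k2 m l₁ h₁, List.length_range])
      (by rw [J0, L00_0]; exact zZ G m hm)
      (by
        rw [if_pos (Or.inl rfl), if_neg (by omega), if_neg (by omega), J2, J1,
          L00_n _ _ (by omega), L00_n _ _ (by omega), cA'' G m (G + 2) hm (sh2 G) l₁ h₁,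
          cA'' G m (G + 1) hm (sh1 G) l₂ h₂, one_mul])
    rw [h, J0, L00_0, dB]
  have T01 : l₂ ≠ m + 1 →
      pd (xx k G m) y (JJ G (del (G + 1) (m + 1) J)) (LL G (L01 G m)) = 0 := by
    intro hl
    have h := surplus hRF G m 0 hm y (del (G + 1) (m + 1) J) (L01 G m) (G + 1) (G + 2)
      (fun i => pm (bl k G m (G + 1)) (del (G + 1) (m + 1) J (G + 1))
        ((L01 G m (G + 1)).erase i))
      (fun l => pm (bl k G m (G + 2)) ((del (G + 1) (m + 1) J (G + 2)).erase l)
        (L01 G m (G + 2))) 0 (by omega) (by omega) (by omega)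
      (nd01 G m) (fun ρ a b c => ⟨by rw [del_n _ _ _ _ (by omega)]; exact JD ρ a b c,
        L01_n G m ρ (by omega) (by omega)⟩)
      (fun ρ a b => by omega)
      (by rw [del_e, J1, er_er, k1 m l₂ (by omega), L01_n _ _ _ (by omega) (by omega),
        List.length_range])
      (by rw [del_n _ _ _ _ (by omega), J2, L01_2, k2 m l₁ h₁, List.length_range])
      (by
        rintro ρ (rfl | rfl | rfl) a b
        · rw [del_n _ _ _ _ (by omega), J0, L01_0, Finset.card_range, List.length_range]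
        · exact absurd rfl a
        · exact absurd rfl b)
      (fun i _ => rfl) (fun l _ => rfl)
      (by
        rw [if_neg (by omega), if_pos (Or.inr rfl), if_pos (Or.inl rfl),
          del_n _ _ _ _ (by omega), J0, L01_0, zZ G m hm, zero_mul, zero_mul])
    rw [h, zero_mul, mul_zero]
  have T10 : l₁ ≠ m + 1 →
      pd (xx k G m) y (JJ G (del (G + 2) (m + 1) J)) (LL G (L10 m)) =
        (∑ i ∈ range (m + 1), (∑ l ∈ range (m + 2),
          y (G + 2 + (G + 3) * i + (cc (G + 3) G 0 + (G + 3) * l)) * ee k m (m + 1) l) *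
          ap k m i l₁) * (aa k m l₂ * Q k G 0) := by
    intro hl
    have h := surplus hRF G m 0 hm y (del (G + 2) (m + 1) J) (L10 m) (G + 2) 0
      (fun i => ap k m i l₁)
      (fun l => ee k m (m + 1) l) (aa k m l₂) (by omega) (by omega)
      (by omega)
      (nd10 m) (fun ρ a b c => ⟨by rw [del_n _ _ _ _ (by omega)]; exact JD ρ a b c, rfl⟩)
      (fun ρ a b => by omega)
      (by rw [del_e, J2, er_er, k1 m l₁ (by omega), L10, List.length_range])
      (by rw [del_n _ _ _ _ (by omega), J0, L10, Finset.card_range, List.length_range])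
      (by
        rintro ρ (rfl | rfl | rfl) a b
        · exact absurd rfl b
        · rw [del_n _ _ _ _ (by omega), J1, L10, k2 m l₂ h₂, List.length_range]
        · exact absurd rfl a)
      (by
        intro i hi
        rw [L10] at hi ⊢
        rw [del_e, J2, er_er]
        exact cA G m (G + 2) hm (sh2 G) i l₁ (List.mem_range.1 hi) (by omega))
      (by
        intro l hl
        rw [del_n _ _ _ _ (by omega), J0] at hl ⊢
        exact cD G m 0 hm (sh0 G) l (Finset.mem_range.1 hl))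
      (by
        rw [if_pos (Or.inr rfl), if_pos (Or.inl rfl), if_neg (by omega),
          del_n _ _ _ _ (by omega), J1, L10,
          cA'' G m (G + 1) hm (sh1 G) l₂ h₂, one_mul, one_mul])
    rw [h, del_n _ _ _ _ (by omega), J0, L10, List.toFinset_range]
  have T11 : l₁ ≠ m + 1 → l₂ ≠ m + 1 →
      pd (xx k G m) y (JJ G (del (G + 1) (m + 1) (del (G + 2) (m + 1) J)))
        (LL G (L11 G m)) =
        (∑ i ∈ range (m + 1), (∑ l ∈ range (m + 2),
          y (G + 1 + (G + 3) * i + (cc (G + 3) G 0 + (G + 3) * l)) * ee k m (m + 1) l) *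
          ap k m i l₂) * (ap k m m l₁ * Q k G 0) := by
    intro hl hl'
    have h := surplus hRF G m 0 hm y (del (G + 1) (m + 1) (del (G + 2) (m + 1) J))
      (L11 G m) (G + 1) 0 (fun i => ap k m i l₂)
      (fun l => ee k m (m + 1) l) (ap k m m l₁) (by omega) (by omega)
      (by omega)
      (nd11 G m) (fun ρ a b c => ⟨by
        rw [del_n _ _ _ _ (by omega), del_n _ _ _ _ (by omega)]; exact JD ρ a b c,
        L11_n G m ρ (by omega)⟩)
      (fun ρ a b => by omega)
      (by rw [del_e, del_n _ _ _ _ (by omega), J1, er_er, k1 m l₂ (by omega),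
        L11_n _ _ _ (by omega), List.length_range])
      (by rw [del_n _ _ _ _ (by omega), del_n _ _ _ _ (by omega), J0,
        L11_n _ _ _ (by omega), Finset.card_range, List.length_range])
      (by
        rintro ρ (rfl | rfl | rfl) a b
        · exact absurd rfl b
        · exact absurd rfl a
        · rw [del_n _ _ _ _ (by omega), del_e, J2, er_er, L11_2, k1 m l₁ (by omega),
            List.length_range])
      (by
        intro i hi
        rw [L11_n _ _ _ (by omega)] at hi ⊢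
        rw [del_e, del_n _ _ _ _ (by omega), J1, er_er]
        exact cA G m (G + 1) hm (sh1 G) i l₂ (List.mem_range.1 hi) (by omega))
      (by
        intro l hl
        rw [del_n _ _ _ _ (by omega), del_n _ _ _ _ (by omega), J0] at hl ⊢
        rw [L11_n _ _ _ (by omega)]
        exact cD G m 0 hm (sh0 G) l (Finset.mem_range.1 hl))
      (by
        rw [if_pos (Or.inr rfl), if_neg (by omega), if_pos (Or.inl rfl),
          del_n _ _ _ _ (by omega),
          del_e, J2, er_er, L11_2, cA' G m (G + 2) hm (sh2 G) l₁ (by omega), mul_one,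
          one_mul])
    rw [h, del_n _ _ _ _ (by omega), del_n _ _ _ _ (by omega), J0, L11_n _ _ _ (by omega),
      List.toFinset_range]
  rw [T00] at hr
  have hQ := Q_ne h2 G 0
  have e01 : (if l₂ ≠ m + 1 then
      pd (xx k G m) y (JJ G (del (G + 1) (m + 1) J)) (LL G (L01 G m)) else 0) = 0 := by
    split_ifs with h
    · exact T01 h
    · rfl
  rw [e01] at hr
  apply mul_right_cancel₀ hQ
  by_cases a1 : l₁ = m + 1
  · have a1' : ¬ l₁ < m + 1 := by omega
    simp only [ne_eq, a1, not_true_eq_false, if_false, false_and] at hr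
    simp only [a1', if_false]
    subst a1
    linear_combination hr
  · have a1' : l₁ < m + 1 := by omega
    by_cases a2 : l₂ = m + 1
    · have a2' : ¬ l₂ < m + 1 := by omega
      simp only [ne_eq, a2, not_true_eq_false, if_false, and_false] at hr
      rw [if_pos a1, T10 a1] at hr
      simp only [a1', a2', if_true, if_false]
      subst a2
      linear_combination hr
    · have a2' : l₂ < m + 1 := by omega
      rw [if_pos a1, if_pos ⟨a1, a2⟩, T10 a1, T11 a1 a2] at hr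
      simp only [a1', a2', if_true]
      linear_combination hr

/-! ### sums -/

lemma S1 (m : ℕ) (Y : ℕ → k) :
    ∑ l ∈ range (m + 2), Y l * ee k m (m + 1) l = 2 * Y (m + 1) := by
  rw [Finset.sum_eq_single (m + 1)]
  · rw [ee, if_pos ⟨rfl, rfl⟩, mul_comm]
  · intro l _ hl
    rw [ee, if_neg (by omega), if_pos (Or.inl rfl), mul_zero]
  · intro h
    exact absurd (by simp) h

lemma S2 (m : ℕ) (Y : ℕ → k) :
    ∑ l ∈ range (m + 2), Y l * aa k m l = ∑ l ∈ range (m + 1), Y l := by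
  rw [Finset.sum_range_succ]
  rw [show aa k m (m + 1) = 0 by rw [aa, if_pos rfl], mul_zero, add_zero]
  refine Finset.sum_congr rfl fun l hl => ?_
  have := Finset.mem_range.1 hl
  rw [aa, if_neg (by omega), mul_one]

lemma S3 (m : ℕ) (Y : ℕ → k) :
    ∑ l ∈ range (m + 1), Y l * ap k m m l = Y 0 - ∑ l ∈ Ico 1 (m + 1), Y l := by
  rw [Finset.sum_range_eq_add_Ico _ (by omega), show ap k m m 0 = 1 by rw [ap, if_pos (by omega)],
    mul_one, sub_eq_add_neg, ← Finset.sum_neg_distrib]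
  congr 1
  refine Finset.sum_congr rfl fun l hl => ?_
  have := Finset.mem_Ico.1 hl
  rw [ap, if_neg (by omega), mul_neg, mul_one]

lemma dA_eq (G m ρ : ℕ) (hm : 1 ≤ m) (hρ : sh G ρ = 1) (y : ℕ → k) :
    dA k G m ρ y = ∑ i ∈ range (m + 1), ∑ l ∈ range (m + 1),
      (if i + l + 1 < m + 2 then 1 else -1) * y (G + (G + 3) * (i + l + 1)) := by
  rw [dA, bf k _ _ _ _ List.nodup_range, List.toFinset_range]
  refine Finset.sum_congr rfl fun i hi => Finset.sum_congr rfl fun l hl => ?_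
  rw [cA G m ρ hm hρ i l (Finset.mem_range.1 hi) (Finset.mem_range.1 hl), ap, hρ, mul_comm,
    add_comm l i]

lemma dB_eq (G m : ℕ) (hm : 1 ≤ m) (y : ℕ → k) :
    dB k G m y = ∑ i ∈ range (m + 2), ∑ l ∈ range (m + 2),
      (if i + 1 = m + 2 ∧ l + 1 = m + 2 then 2 else if i + 1 = m + 2 ∨ l + 1 = m + 2 then 0 else
      if i + l < m + 2 then 1 else -1) * y (G + (G + 3) * (i + l)) := by
  rw [dB, bf k _ _ _ _ List.nodup_range, List.toFinset_range]
  refine Finset.sum_congr rfl fun i hi => Finset.sum_congr rfl fun l hl => ?_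
  rw [cZ G m hm i l (Finset.mem_range.1 hi) (Finset.mem_range.1 hl), ee, sh0, mul_comm,
    add_zero, add_comm l i]

/-! ### the relations for one class of columns -/

/-- the right sides -/
def s3 (m : ℕ) (a b c : k) (h i : ℕ) : k :=
  if h = 0 then (if i = 0 then c else if i = 1 then - c else
    if i + 1 = m + 2 then - a else 0)
  else if h = 1 then (if i = 0 then a else if i + 2 = m + 2 then - b else 0)
  else if i = 0 then b else 0

lemma s3_0 (m : ℕ) (a b c : k) (i : ℕ) : s3 m a b c 0 i =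
    if i = 0 then c else if i = 1 then - c else if i + 1 = m + 2 then - a else 0 := by
  rw [s3, if_pos rfl]

lemma s3_1 (m : ℕ) (a b c : k) (i : ℕ) : s3 m a b c 1 i =
    if i = 0 then a else if i + 2 = m + 2 then - b else 0 := by
  rw [s3, if_neg (by omega), if_pos rfl]

lemma s3_2 (m : ℕ) (a b c : k) (i : ℕ) : s3 m a b c 2 i = if i = 0 then b else 0 := by
  rw [s3, if_neg (by omega), if_neg (by omega)]

/-- the relations for the class `j` -/
structure RJ (G m : ℕ) (y : ℕ → k) (j : ℕ) (a b c : k) : Prop where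
  a0 : j < G → ∀ i < m + 2, 2 * y ((G + 3) * i + j + (G + 3) * (m + 1)) = s3 m a b c 0 i
  a1 : j < G + 1 → ∀ i < m + 1,
    2 * y (G + 2 + (G + 3) * i + j + (G + 3) * (m + 1)) = s3 m a b c 1 i
  a2 : j < G + 1 → ∀ i < m + 1,
    2 * y (G + 1 + (G + 3) * i + j + (G + 3) * (m + 1)) = s3 m a b c 2 i
  b0 : j = G + 1 → ∀ i < m + 2,
    ∑ l ∈ range (m + 1), y ((G + 3) * i + (G + 1) + (G + 3) * l) = s3 m a b c 0 i
  b2 : j = G + 1 → ∀ i < m + 1, y (G + 1 + (G + 3) * i + (G + 1)) -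
    ∑ l ∈ Ico 1 (m + 1), y (G + 1 + (G + 3) * i + (G + 1) + (G + 3) * l) = s3 m a b c 2 i
  c0 : j = G + 2 → ∀ i < m + 2,
    ∑ l ∈ range (m + 1), y ((G + 3) * i + (G + 2) + (G + 3) * l) = s3 m a b c 0 i
  c1 : j = G + 2 → ∀ i < m + 1,
    ∑ l ∈ range (m + 1), y (G + 2 + (G + 3) * i + (G + 2) + (G + 3) * l) = s3 m a b c 1 i
  d0 : j = G → a = - dB k G m y
  d1 : j = G + 1 → b = a - dA k G m (G + 2) y
  d2 : j = G + 2 → b = dA k G m (G + 1) y

lemma exA (hLK : StmLK k) (hRF : StmRF k) (hRD : StmRD) (hCH : StmCH k) (h2 : (2 : k) ≠ 0)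
    (G m : ℕ) (hm : 1 ≤ m) (y : ℕ → k)
    (hy : Tt ((G + 3) * (m + 2)) ((G + 3) * (m + 1) + 1) (qB3 k (G + 3) (m + 2)) y)
    (j : ℕ) (hj : j < G) : ∃ a b c, RJ G m y j a b c := by
  obtain ⟨σ, hσ⟩ : ∃ σ, σ = G - j := ⟨_, rfl⟩
  have hcc : cc (G + 3) G σ = j := by unfold cc; rw [if_pos (by omega)]; omega
  obtain ⟨w₀, w₁, e0, e1, e2⟩ := hCH.2 (range (m + 2)) (range (m + 2)) (range (m + 2))
    (fun l => ∑ i ∈ range (m + 2), (∑ l' ∈ range (m + 2),
      y (0 + (G + 3) * i + (cc (G + 3) G σ + (G + 3) * l')) * ee k m (m + 1) l') * ee k m i l)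
    (fun l => if l < m + 1 then ∑ i ∈ range (m + 1), (∑ l' ∈ range (m + 2),
      y (G + 2 + (G + 3) * i + (cc (G + 3) G σ + (G + 3) * l')) * ee k m (m + 1) l') *
      ap k m i l else 0)
    (fun l => if l < m + 1 then ∑ i ∈ range (m + 1), (∑ l' ∈ range (m + 2),
      y (G + 1 + (G + 3) * i + (cc (G + 3) G σ + (G + 3) * l')) * ee k m (m + 1) l') *
      ap k m i l else 0)
    (fun l => aa k m l) (fun l => aa k m l) (fun l => ee k m (m + 1) l)
    (fun l => if l < m + 1 then ap k m m l else 0)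
    (fun l₀ h₀ l₁ h₁ l₂ h₂ => caseA hLK hRF hRD h2 G m hm y hy σ l₀ l₁ l₂ (by omega) (by omega)
      (Finset.mem_range.1 h₀) (Finset.mem_range.1 h₁) (Finset.mem_range.1 h₂))
    ⟨0, by simp, by simp [aa]⟩ ⟨0, by simp, by simp [ap]⟩ ⟨0, by simp, by simp [aa]⟩
    ⟨m + 1, by simp, by simpa [ee] using h2⟩
  obtain ⟨lam, g0⟩ := solveZ h2 m hm _ w₀ (fun l hl => e0 l (Finset.mem_range.2 hl))
  have g1 := solveA h2 m hm (fun i => ∑ l' ∈ range (m + 2),
      y (G + 2 + (G + 3) * i + (cc (G + 3) G σ + (G + 3) * l')) * ee k m (m + 1) l') w₀ w₁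
    (fun l hl => by
      have := e1 l (Finset.mem_range.2 (by omega))
      simp only [hl, if_true] at this
      rw [this, aa, if_neg (by omega), mul_one])
  have g2 := solveA h2 m hm (fun i => ∑ l' ∈ range (m + 2),
      y (G + 1 + (G + 3) * i + (cc (G + 3) G σ + (G + 3) * l')) * ee k m (m + 1) l') w₁ 0
    (fun l hl => by
      have := e2 l (Finset.mem_range.2 (by omega))
      simp only [hl, if_true] at this
      rw [this, aa, if_neg (by omega), mul_one, zero_mul, sub_zero])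
  simp only [S1, hcc] at g0 g1 g2
  refine ⟨w₀, w₁, lam, ?_, ?_, ?_, by omega, by omega, by omega, by omega, by omega, by omega,
    by omega⟩
  · intro _ i hi
    have := g0 i hi
    rw [show (G + 3) * i + j + (G + 3) * (m + 1) = 0 + (G + 3) * i + (j + (G + 3) * (m + 1)) by
      ring, this, s3_0]
  · intro _ i hi
    have := g1 i hi
    rw [show G + 2 + (G + 3) * i + j + (G + 3) * (m + 1) =
      G + 2 + (G + 3) * i + (j + (G + 3) * (m + 1)) by ring, this, s3_1]
  · intro _ i hi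
    have := g2 i hi
    rw [show G + 1 + (G + 3) * i + j + (G + 3) * (m + 1) =
      G + 1 + (G + 3) * i + (j + (G + 3) * (m + 1)) by ring, this, s3_2, neg_zero,
      ite_self]

lemma exD (hLK : StmLK k) (hRF : StmRF k) (hRD : StmRD) (hCH : StmCH k) (h2 : (2 : k) ≠ 0)
    (G m : ℕ) (hm : 1 ≤ m) (y : ℕ → k)
    (hy : Tt ((G + 3) * (m + 2)) ((G + 3) * (m + 1) + 1) (qB3 k (G + 3) (m + 2)) y) :
    ∃ a b c, RJ G m y G a b c := by
  obtain ⟨w, e0, e1⟩ := hCH.1 (range (m + 2)) (range (m + 2))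
    (fun l => dB k G m y * aa k m l + (if l < m + 1 then ∑ i ∈ range (m + 1),
      (∑ l' ∈ range (m + 2),
      y (G + 2 + (G + 3) * i + (cc (G + 3) G 0 + (G + 3) * l')) * ee k m (m + 1) l') *
      ap k m i l else 0))
    (fun l => if l < m + 1 then ∑ i ∈ range (m + 1), (∑ l' ∈ range (m + 2),
      y (G + 1 + (G + 3) * i + (cc (G + 3) G 0 + (G + 3) * l')) * ee k m (m + 1) l') *
      ap k m i l else 0)
    (fun l => aa k m l) (fun l => if l < m + 1 then ap k m m l else 0)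
    (fun l₁ h₁ l₂ h₂ => caseD hLK hRF hRD h2 G m hm y hy l₁ l₂
      (Finset.mem_range.1 h₁) (Finset.mem_range.1 h₂))
    ⟨0, by simp, by simp [aa]⟩ ⟨0, by simp, by simp [ap]⟩
  have g1 := solveA h2 m hm (fun i => ∑ l' ∈ range (m + 2),
      y (G + 2 + (G + 3) * i + (cc (G + 3) G 0 + (G + 3) * l')) * ee k m (m + 1) l')
      (- dB k G m y) w
    (fun l hl => by
      have := e0 l (Finset.mem_range.2 (by omega))
      simp only [hl, if_true] at this
      rw [aa, if_neg (by omega), mul_one] at this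
      linear_combination this)
  have g2 := solveA h2 m hm (fun i => ∑ l' ∈ range (m + 2),
      y (G + 1 + (G + 3) * i + (cc (G + 3) G 0 + (G + 3) * l')) * ee k m (m + 1) l') w 0
    (fun l hl => by
      have := e1 l (Finset.mem_range.2 (by omega))
      simp only [hl, if_true] at this
      rw [this, aa, if_neg (by omega), mul_one, zero_mul, sub_zero])
  simp only [S1, cc0] at g1 g2
  refine ⟨- dB k G m y, w, 0, by omega, ?_, ?_, by omega, by omega, by omega, by omega,
    fun _ => rfl, by omega, by omega⟩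
  · intro _ i hi
    have := g1 i hi
    rw [show G + 2 + (G + 3) * i + G + (G + 3) * (m + 1) =
      G + 2 + (G + 3) * i + (G + (G + 3) * (m + 1)) by ring, this, s3_1]
  · intro _ i hi
    have := g2 i hi
    rw [show G + 1 + (G + 3) * i + G + (G + 3) * (m + 1) =
      G + 1 + (G + 3) * i + (G + (G + 3) * (m + 1)) by ring, this, s3_2, neg_zero,
      ite_self]

lemma exB (hLK : StmLK k) (hRF : StmRF k) (hRD : StmRD) (hCH : StmCH k) (h2 : (2 : k) ≠ 0)
    (G m : ℕ) (hm : 1 ≤ m) (y : ℕ → k)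
    (hy : Tt ((G + 3) * (m + 2)) ((G + 3) * (m + 1) + 1) (qB3 k (G + 3) (m + 2)) y) :
    ∃ a b c, RJ G m y (G + 1) a b c := by
  obtain ⟨w, e0, e1⟩ := hCH.1 (range (m + 2)) (range (m + 2))
    (fun l => ∑ i ∈ range (m + 2), (∑ l' ∈ range (m + 2),
      y (0 + (G + 3) * i + (cc (G + 3) G (G + 2) + (G + 3) * l')) * aa k m l') * ee k m i l)
    (fun l => dA k G m (G + 2) y * aa k m l + (if l < m + 1 then ∑ i ∈ range (m + 1),
      (∑ l' ∈ range (m + 1),
      y (G + 1 + (G + 3) * i + (cc (G + 3) G (G + 2) + (G + 3) * l')) * ap k m m l') *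
      ap k m i l else 0))
    (fun l => aa k m l) (fun l => ee k m (m + 1) l)
    (fun l₁ h₁ l₂ h₂ => caseB hLK hRF hRD h2 G m hm y hy l₁ l₂
      (Finset.mem_range.1 h₁) (Finset.mem_range.1 h₂))
    ⟨0, by simp, by simp [aa]⟩ ⟨m + 1, by simp, by simpa [ee] using h2⟩
  obtain ⟨lam, g0⟩ := solveZ h2 m hm _ w (fun l hl => e0 l (Finset.mem_range.2 hl))
  have g2 := solveA h2 m hm (fun i => ∑ l' ∈ range (m + 1),
      y (G + 1 + (G + 3) * i + (cc (G + 3) G (G + 2) + (G + 3) * l')) * ap k m m l')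
      (w - dA k G m (G + 2) y) 0
    (fun l hl => by
      have := e1 l (Finset.mem_range.2 (by omega))
      simp only [hl, if_true] at this
      rw [aa, if_neg (by omega), mul_one, mul_one] at this
      linear_combination this)
  simp only [S2, S3, cc2] at g0 g2
  refine ⟨w, w - dA k G m (G + 2) y, lam, by omega, by omega, by omega, ?_, ?_, by omega,
    by omega, by omega, fun _ => rfl, by omega⟩
  · intro _ i hi
    have := g0 i hi
    rw [s3_0, ← this]
    refine Finset.sum_congr rfl fun l _ => congrArg y ?_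
    ring
  · intro _ i hi
    have := g2 i hi
    rw [neg_zero, ite_self] at this
    rw [s3_2, ← this]
    congr 1
    refine Finset.sum_congr rfl fun l _ => congrArg y ?_
    ring

lemma exC (hLK : StmLK k) (hRF : StmRF k) (hRD : StmRD) (hCH : StmCH k) (h2 : (2 : k) ≠ 0)
    (G m : ℕ) (hm : 1 ≤ m) (y : ℕ → k)
    (hy : Tt ((G + 3) * (m + 2)) ((G + 3) * (m + 1) + 1) (qB3 k (G + 3) (m + 2)) y) :
    ∃ a b c, RJ G m y (G + 2) a b c := by
  obtain ⟨w, e0, e1⟩ := hCH.1 (range (m + 2)) (range (m + 2))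
    (fun l => ∑ i ∈ range (m + 2), (∑ l' ∈ range (m + 2),
      y (0 + (G + 3) * i + (cc (G + 3) G (G + 1) + (G + 3) * l')) * aa k m l') * ee k m i l)
    (fun l => (if l < m + 1 then ∑ i ∈ range (m + 1), (∑ l' ∈ range (m + 2),
      y (G + 2 + (G + 3) * i + (cc (G + 3) G (G + 1) + (G + 3) * l')) * aa k m l') *
      ap k m i l else 0) + (if l < m + 1 then ap k m m l else 0) * dA k G m (G + 1) y)
    (fun l => aa k m l) (fun l => ee k m (m + 1) l)
    (fun l₁ h₁ l₂ h₂ => caseC hLK hRF hRD h2 G m hm y hy l₁ l₂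
      (Finset.mem_range.1 h₁) (Finset.mem_range.1 h₂))
    ⟨0, by simp, by simp [aa]⟩ ⟨m + 1, by simp, by simpa [ee] using h2⟩
  obtain ⟨lam, g0⟩ := solveZ h2 m hm _ w (fun l hl => e0 l (Finset.mem_range.2 hl))
  have g1 := solveA h2 m hm (fun i => ∑ l' ∈ range (m + 2),
      y (G + 2 + (G + 3) * i + (cc (G + 3) G (G + 1) + (G + 3) * l')) * aa k m l')
      w (dA k G m (G + 1) y)
    (fun l hl => by
      have := e1 l (Finset.mem_range.2 (by omega))
      simp only [hl, if_true] at this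
      rw [aa, if_neg (by omega), mul_one] at this
      linear_combination this)
  simp only [S2, cc1] at g0 g1
  refine ⟨w, dA k G m (G + 1) y, lam, by omega, by omega, by omega, by omega, by omega, ?_, ?_,
    by omega, by omega, fun _ => rfl⟩
  · intro _ i hi
    have := g0 i hi
    rw [s3_0, ← this]
    refine Finset.sum_congr rfl fun l _ => congrArg y ?_
    ring
  · intro _ i hi
    have := g1 i hi
    rw [s3_1, ← this]
    refine Finset.sum_congr rfl fun l _ => congrArg y ?_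
    ring

/-- PB3 -/
theorem t (k : Type*) [Field k] (hLK : StmLK k) (hRF : StmRF k) (hRD : StmRD)
    (hCH : StmCH k) : StmPB3 k := by
  intro h2 g κ hg hκ
  obtain ⟨G, rfl⟩ : ∃ G, g = G + 3 := ⟨g - 3, by omega⟩
  obtain ⟨m, rfl⟩ : ∃ m, κ = m + 2 := ⟨κ - 2, by omega⟩
  have hm : 1 ≤ m := by omega
  refine ⟨member hLK hRD G m hm, ?_⟩
  intro y hy
  have hex : ∀ j, ∃ a b c, RJ G m y j a b c := by
    intro j
    rcases lt_trichotomy j G with h | h | h
    · exact exA hLK hRF hRD hCH h2 G m hm y hy j h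
    · subst h
      exact exD hLK hRF hRD hCH h2 j m hm y hy
    · by_cases h1 : j = G + 1
      · subst h1
        exact exB hLK hRF hRD hCH h2 G m hm y hy
      · by_cases h3 : j = G + 2
        · subst h3
          exact exC hLK hRF hRD hCH h2 G m hm y hy
        · exact ⟨0, 0, 0, by omega, by omega, by omega, by omega, by omega, by omega,
            by omega, by omega, by omega, by omega⟩
  choose w₀ w₁ lam hR using hex
  refine ⟨w₀, w₁, lam, ?_⟩
  constructor
  · intro i hi j hj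
    exact (hR j).a0 (by omega) i hi
  · intro i hi j hj
    exact (hR j).a1 (by omega) i hi
  · intro i hi j hj
    exact (hR j).a2 (by omega) i hi
  · intro i hi
    exact (hR (G + 1)).b0 rfl i hi
  · intro i hi
    exact (hR (G + 1)).b2 rfl i hi
  · intro i hi
    exact (hR (G + 2)).c0 rfl i hi
  · intro i hi
    exact (hR (G + 2)).c1 rfl i hi
  · have := (hR G).d0 rfl
    rw [dB_eq G m hm] at this
    exact this
  · have := (hR (G + 1)).d1 rfl
    rw [dA_eq G m (G + 2) hm (sh2 G)] at this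
    exact this
  · have := (hR (G + 2)).d2 rfl
    rw [dA_eq G m (G + 1) hm (sh1 G)] at this
    exact this

end Pool.Agent.N729.HQ.PB3b
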