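import Pool.Agent.N729.HQ.Stm

/-!
# HQ/QB: second order terms of permanents of block matrices (helper362 for helper729)
-/

set_option autoImplicit false

namespace Pool.Agent.N729.HQ.QB

open Finset
open Pool.Agent.N186.HK (pm vm IsHankel pm_nil pm_cons)
open Pool.Agent.N729.HP
open Pool.Agent.N729.HP.BC (pd_nil pd_cons erase_left erase_right disj_left disj_right)
open Pool.Agent.N729.HQ

section

variable {D : Type*} [CommRing D]

lemma pq_nil (x y : ℕ → D) (J : Finset ℕ) : pq x y J [] = 0 := by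
  unfold pq; rfl

lemma pq_cons (x y : ℕ → D) (J : Finset ℕ) (c : ℕ) (L : List ℕ) :
    pq x y J (c :: L) = ∑ j ∈ J, (y (j + c) * pd x y (J.erase j) L +
      x (j + c) * pq x y (J.erase j) L) := by
  rw [pq]

lemma pq_perm (x y : ℕ → D) {L L' : List ℕ} (h : L.Perm L') :
    ∀ J, pq x y J L = pq x y J L' := by
  induction h with
  | nil => intro J; rfl
  | cons c h ih =>
    intro J
    rw [pq_cons, pq_cons]
    exact Finset.sum_congr rfl fun j _ => by rw [ih, BA.pd_perm x y h]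
  | swap c d L =>
    intro J
    simp only [pd_cons, pq_cons, Finset.mul_sum, ← Finset.sum_add_distrib]
    rw [BA.swap_sum]
    refine Finset.sum_congr rfl fun i _ => Finset.sum_congr rfl fun j _ => ?_
    rw [Finset.erase_right_comm]
    ring
  | trans _ _ ih1 ih2 => intro J; rw [ih1, ih2]

end

/-- two square blocks -/
theorem t2 (D : Type*) [CommRing D] (x y : ℕ → D) (J₁ J₂ : Finset ℕ) (L₁ L₂ : List ℕ)
    (hd : Disjoint J₁ J₂) (hnd : (L₁ ++ L₂).Nodup)
    (hL1 : ∀ c ∈ L₁, ∀ j ∈ J₂, x (j + c) = 0) (hL2 : ∀ c ∈ L₂, ∀ j ∈ J₁, x (j + c) = 0)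
    (h1 : J₁.card = L₁.length) (h2 : J₂.card = L₂.length) :
    pq x y (J₁ ∪ J₂) (L₁ ++ L₂) = pq x y J₁ L₁ * pm x J₂ L₂ + pd x y J₁ L₁ * pd x y J₂ L₂ +
      pm x J₁ L₁ * pq x y J₂ L₂ +
      ∑ c ∈ L₁.toFinset, ∑ j ∈ J₂, ∑ c' ∈ L₂.toFinset, ∑ j' ∈ J₁, y (j + c) * y (j' + c') *
        pm x (J₁.erase j') (L₁.erase c) * pm x (J₂.erase j) (L₂.erase c') := by
  have hBA := BA.ta D
  have hBB := BA.tb D
  have hBC := BC.tc D hBA hBB
  have hBD := BC.td D hBA hBB
  induction L₁ generalizing J₁ with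
  | nil =>
    rw [List.length_nil, Finset.card_eq_zero] at h1
    subst h1
    rw [Finset.empty_union, List.nil_append, pq_nil, pm_nil, pd_nil]
    simp
  | cons c L ih =>
    have hnd' := List.nodup_cons.1 hnd
    have hcL : c ∉ L := fun h => hnd'.1 (List.mem_append_left _ h)
    have hnd2 : L₂.Nodup := (List.nodup_append.1 hnd).2.1
    rw [List.cons_append, pq_cons, Finset.sum_union hd]
    -- the part of the second block
    have e2 : ∀ j ∈ J₂, (y (j + c) * pd x y ((J₁ ∪ J₂).erase j) (L ++ L₂) +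
        x (j + c) * pq x y ((J₁ ∪ J₂).erase j) (L ++ L₂)) =
        ∑ c' ∈ L₂.toFinset, ∑ j' ∈ J₁, y (j + c) * y (j' + c') *
          pm x (J₁.erase j') L * pm x (J₂.erase j) (L₂.erase c') := by
      intro j hj
      have hc2 := Finset.card_erase_of_mem hj
      have hpos : 0 < J₂.card := Finset.card_pos.2 ⟨j, hj⟩
      rw [hL1 c List.mem_cons_self j hj, zero_mul, add_zero, erase_right hd hj,
        BA.pd_perm x y (List.perm_append_comm (l₁ := L) (l₂ := L₂)), Finset.union_comm,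
        hBD x y (J₂.erase j) J₁ L₂ L (disj_right hd j).symm hnd2
          (fun c' hc' j' hj' => hL2 c' hc' j' hj')
          (fun c' hc' j' hj' => hL1 c' (List.mem_cons_of_mem _ hc') j' (Finset.mem_of_mem_erase hj'))
          (by omega) (by rw [h1, List.length_cons]), Finset.mul_sum]
      refine Finset.sum_congr rfl fun c' _ => ?_
      rw [Finset.mul_sum]
      refine Finset.sum_congr rfl fun j' _ => ?_
      ring
    -- the part of the first block
    have e1 : ∀ j ∈ J₁, (y (j + c) * pd x y ((J₁ ∪ J₂).erase j) (L ++ L₂) +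
        x (j + c) * pq x y ((J₁ ∪ J₂).erase j) (L ++ L₂)) =
        (y (j + c) * pd x y (J₁.erase j) L + x (j + c) * pq x y (J₁.erase j) L) * pm x J₂ L₂ +
        (y (j + c) * pm x (J₁.erase j) L + x (j + c) * pd x y (J₁.erase j) L) * pd x y J₂ L₂ +
        (x (j + c) * pm x (J₁.erase j) L) * pq x y J₂ L₂ +
        ∑ c₁ ∈ L.toFinset, ∑ j₂ ∈ J₂, ∑ c' ∈ L₂.toFinset, ∑ j' ∈ J₁.erase j,
          y (j₂ + c₁) * y (j' + c') * (x (j + c) * pm x ((J₁.erase j').erase j) (L.erase c₁)) *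
            pm x (J₂.erase j₂) (L₂.erase c') := by
      intro j hj
      have hc1 : (J₁.erase j).card = L.length := by
        rw [Finset.card_erase_of_mem hj, h1]; rfl
      rw [erase_left hd hj,
        hBC x y (J₁.erase j) J₂ L L₂ (disj_left hd j)
          (fun c' hc' j' hj' => hL1 c' (List.mem_cons_of_mem _ hc') j' hj')
          (fun c' hc' j' hj' => hL2 c' hc' j' (Finset.mem_of_mem_erase hj')) hc1 h2,
        ih (J₁.erase j) (disj_left hd j) hnd'.2
          (fun c' hc' j' hj' => hL1 c' (List.mem_cons_of_mem _ hc') j' hj')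
          (fun c' hc' j' hj' => hL2 c' hc' j' (Finset.mem_of_mem_erase hj')) hc1]
      have e3 : x (j + c) * (∑ c₁ ∈ L.toFinset, ∑ j₂ ∈ J₂, ∑ c' ∈ L₂.toFinset,
          ∑ j' ∈ J₁.erase j, y (j₂ + c₁) * y (j' + c') *
            pm x ((J₁.erase j).erase j') (L.erase c₁) * pm x (J₂.erase j₂) (L₂.erase c')) =
          ∑ c₁ ∈ L.toFinset, ∑ j₂ ∈ J₂, ∑ c' ∈ L₂.toFinset, ∑ j' ∈ J₁.erase j,
            y (j₂ + c₁) * y (j' + c') * (x (j + c) * pm x ((J₁.erase j').erase j) (L.erase c₁)) *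
              pm x (J₂.erase j₂) (L₂.erase c') := by
        simp only [Finset.mul_sum]
        refine Finset.sum_congr rfl fun c₁ _ => Finset.sum_congr rfl fun j₂ _ =>
          Finset.sum_congr rfl fun c' _ => Finset.sum_congr rfl fun j' _ => ?_
        rw [Finset.erase_right_comm]
        ring
      rw [← e3]
      ring
    -- the exchange of the sums
    have e4 : ∑ j ∈ J₁, ∑ c₁ ∈ L.toFinset, ∑ j₂ ∈ J₂, ∑ c' ∈ L₂.toFinset, ∑ j' ∈ J₁.erase j,
          y (j₂ + c₁) * y (j' + c') * (x (j + c) * pm x ((J₁.erase j').erase j) (L.erase c₁)) *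
            pm x (J₂.erase j₂) (L₂.erase c') =
        ∑ c₁ ∈ L.toFinset, ∑ j₂ ∈ J₂, ∑ c' ∈ L₂.toFinset, ∑ j' ∈ J₁,
          y (j₂ + c₁) * y (j' + c') * pm x (J₁.erase j') ((c :: L).erase c₁) *
            pm x (J₂.erase j₂) (L₂.erase c') := by
      rw [Finset.sum_comm]
      refine Finset.sum_congr rfl fun c₁ hc₁ => ?_
      rw [List.mem_toFinset] at hc₁
      have hne : c ≠ c₁ := fun h => hcL (h ▸ hc₁)
      rw [Finset.sum_comm]
      refine Finset.sum_congr rfl fun j₂ _ => ?_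
      rw [Finset.sum_comm]
      refine Finset.sum_congr rfl fun c' _ => ?_
      rw [Finset.sum_comm' (s' := fun j' => J₁.erase j') (t' := J₁) (by
        intro j j'
        simp only [Finset.mem_erase]
        constructor
        · rintro ⟨h1, h2, h3⟩
          exact ⟨⟨fun h => h2 h.symm, h1⟩, h3⟩
        · rintro ⟨⟨h1, h2⟩, h3⟩
          exact ⟨h2, fun h => h1 h.symm, h3⟩)]
      refine Finset.sum_congr rfl fun j' _ => ?_
      rw [List.erase_cons_tail (by simpa using hne), pm_cons, Finset.mul_sum, Finset.sum_mul]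
    rw [Finset.sum_congr rfl e1, Finset.sum_congr rfl e2, Finset.sum_add_distrib,
      Finset.sum_add_distrib, Finset.sum_add_distrib, e4, ← Finset.sum_mul, ← Finset.sum_mul,
      ← Finset.sum_mul, ← pq_cons, ← pd_cons, ← pm_cons, List.toFinset_cons,
      Finset.sum_insert (by simpa using hcL), List.erase_cons_head]
    ring

/-- one surplus row and one surplus column -/
theorem t3 (D : Type*) [CommRing D] (x y : ℕ → D) (J₁ J₂ : Finset ℕ) (L₁ L₂ : List ℕ)
    (hd : Disjoint J₁ J₂) (hnd : (L₁ ++ L₂).Nodup)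
    (hL1 : ∀ c ∈ L₁, ∀ j ∈ J₂, x (j + c) = 0) (hL2 : ∀ c ∈ L₂, ∀ j ∈ J₁, x (j + c) = 0)
    (h1 : J₁.card + 1 = L₁.length) (h2 : J₂.card = L₂.length + 1) :
    pq x y (J₁ ∪ J₂) (L₁ ++ L₂) = ∑ c ∈ L₁.toFinset, ∑ j ∈ J₂, y (j + c) *
      (pd x y J₁ (L₁.erase c) * pm x (J₂.erase j) L₂ +
        pm x J₁ (L₁.erase c) * pd x y (J₂.erase j) L₂) := by
  have hBA := BA.ta D
  have hBB := BA.tb D
  have hBC := BC.tc D hBA hBB
  have hBD := BC.td D hBA hBB
  induction L₁ generalizing J₁ with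
  | nil =>
    rw [List.length_nil] at h1
    omega
  | cons c L ih =>
    have hnd' := List.nodup_cons.1 hnd
    have hcL : c ∉ L := fun h => hnd'.1 (List.mem_append_left _ h)
    have hndL : L.Nodup := (List.nodup_append.1 hnd'.2).1
    rw [List.length_cons] at h1
    rw [List.cons_append, pq_cons, Finset.sum_union hd]
    have e2 : ∀ j ∈ J₂, (y (j + c) * pd x y ((J₁ ∪ J₂).erase j) (L ++ L₂) +
        x (j + c) * pq x y ((J₁ ∪ J₂).erase j) (L ++ L₂)) =
        y (j + c) * (pd x y J₁ L * pm x (J₂.erase j) L₂ + pm x J₁ L * pd x y (J₂.erase j) L₂) := by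
      intro j hj
      have hc2 := Finset.card_erase_of_mem hj
      rw [hL1 c List.mem_cons_self j hj, zero_mul, add_zero, erase_right hd hj,
        hBC x y J₁ (J₂.erase j) L L₂ (disj_right hd j)
          (fun c' hc' j' hj' => hL1 c' (List.mem_cons_of_mem _ hc') j' (Finset.mem_of_mem_erase hj'))
          (fun c' hc' j' hj' => hL2 c' hc' j' hj') (by omega) (by omega)]
    have e1 : ∀ j ∈ J₁, (y (j + c) * pd x y ((J₁ ∪ J₂).erase j) (L ++ L₂) +
        x (j + c) * pq x y ((J₁ ∪ J₂).erase j) (L ++ L₂)) =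
        ∑ c₁ ∈ L.toFinset, ∑ j₂ ∈ J₂, y (j₂ + c₁) *
          ((y (j + c) * pm x (J₁.erase j) (L.erase c₁) +
            x (j + c) * pd x y (J₁.erase j) (L.erase c₁)) * pm x (J₂.erase j₂) L₂ +
          (x (j + c) * pm x (J₁.erase j) (L.erase c₁)) * pd x y (J₂.erase j₂) L₂) := by
      intro j hj
      have hc1 := Finset.card_erase_of_mem hj
      have hpos : 0 < J₁.card := Finset.card_pos.2 ⟨j, hj⟩
      rw [erase_left hd hj,
        hBD x y (J₁.erase j) J₂ L L₂ (disj_left hd j) hndL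
          (fun c' hc' j' hj' => hL1 c' (List.mem_cons_of_mem _ hc') j' hj')
          (fun c' hc' j' hj' => hL2 c' hc' j' (Finset.mem_of_mem_erase hj')) (by omega) h2,
        ih (J₁.erase j) (disj_left hd j) hnd'.2
          (fun c' hc' j' hj' => hL1 c' (List.mem_cons_of_mem _ hc') j' hj')
          (fun c' hc' j' hj' => hL2 c' hc' j' (Finset.mem_of_mem_erase hj')) (by omega)]
      simp only [Finset.mul_sum]
      rw [← Finset.sum_add_distrib]
      refine Finset.sum_congr rfl fun c₁ _ => ?_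
      rw [← Finset.sum_add_distrib]
      refine Finset.sum_congr rfl fun j₂ _ => ?_
      ring
    have e4 : ∑ j ∈ J₁, ∑ c₁ ∈ L.toFinset, ∑ j₂ ∈ J₂, y (j₂ + c₁) *
          ((y (j + c) * pm x (J₁.erase j) (L.erase c₁) +
            x (j + c) * pd x y (J₁.erase j) (L.erase c₁)) * pm x (J₂.erase j₂) L₂ +
          (x (j + c) * pm x (J₁.erase j) (L.erase c₁)) * pd x y (J₂.erase j₂) L₂) =
        ∑ c₁ ∈ L.toFinset, ∑ j₂ ∈ J₂, y (j₂ + c₁) *
          (pd x y J₁ ((c :: L).erase c₁) * pm x (J₂.erase j₂) L₂ +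
            pm x J₁ ((c :: L).erase c₁) * pd x y (J₂.erase j₂) L₂) := by
      rw [Finset.sum_comm]
      refine Finset.sum_congr rfl fun c₁ hc₁ => ?_
      rw [List.mem_toFinset] at hc₁
      have hne : c ≠ c₁ := fun h => hcL (h ▸ hc₁)
      rw [Finset.sum_comm]
      refine Finset.sum_congr rfl fun j₂ _ => ?_
      rw [List.erase_cons_tail (by simpa using hne), pm_cons, pd_cons, ← Finset.mul_sum,
        Finset.sum_add_distrib, ← Finset.sum_mul, ← Finset.sum_mul]
    rw [Finset.sum_congr rfl e1, Finset.sum_congr rfl e2, e4, List.toFinset_cons,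
      Finset.sum_insert (by simpa using hcL), List.erase_cons_head, add_comm]

theorem t (D : Type*) [CommRing D] : StmQB D :=
  ⟨fun x y _ _ h J => pq_perm x y h J,
    fun x y J₁ J₂ L₁ L₂ hd hnd hL1 hL2 h1 h2 => t2 D x y J₁ J₂ L₁ L₂ hd hnd hL1 hL2 h1 h2,
    fun x y J₁ J₂ L₁ L₂ hd hnd hL1 hL2 h1 h2 => t3 D x y J₁ J₂ L₁ L₂ hd hnd hL1 hL2 h1 h2⟩

end Pool.Agent.N729.HQ.QB
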