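import Pool.Agent.N729.HQ.Stm
import Pool.Agent.N729.HP.RA
import Pool.Agent.N729.HP.MM

/-!
Project HQ, part RD: decomposition into blocks (helper591).
-/

set_option autoImplicit false

namespace Pool.Agent.N729.HQ.RD

open Finset
open Pool.Agent.N729.HP
open Pool.Agent.N729.HP.RA (mem_LG mem_JG cc_lt cc_inj mod_add_mul mod_block LG_cons)
open Pool.Agent.N729.HP.MM (cc_cc)

lemma mod_block' {g ρ : ℕ} (hρ : ρ < g) (l : ℕ) : (ρ + g * l) % g = ρ := by
  rw [mod_add_mul, Nat.mod_eq_of_lt hρ]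

lemma inj_block {g ρ ρ' l l' : ℕ} (hρ : ρ < g) (hρ' : ρ' < g)
    (h : ρ + g * l = ρ' + g * l') : ρ = ρ' ∧ l = l' := by
  have h1 : ρ = ρ' := by rw [← mod_block' hρ l, ← mod_block' hρ' l', h]
  subst h1
  exact ⟨rfl, Nat.eq_of_mul_eq_mul_left (by omega) (Nat.add_left_cancel h)⟩

lemma LG_nodup {g : ℕ} {Ls : ℕ → List ℕ} {A : List ℕ} (hA : ∀ ρ ∈ A, ρ < g) (hn : A.Nodup)
    (hL : ∀ ρ ∈ A, (Ls ρ).Nodup) : (LG g Ls A).Nodup := by
  induction A with
  | nil => simp [LG]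
  | cons ρ A ih =>
    rw [List.nodup_cons] at hn
    have hρ := hA ρ List.mem_cons_self
    rw [LG_cons, List.nodup_append]
    refine ⟨?_, ih (fun r hr => hA r (List.mem_cons_of_mem _ hr)) hn.2
      fun r hr => hL r (List.mem_cons_of_mem _ hr), ?_⟩
    · refine (hL ρ List.mem_cons_self).map ?_
      intro l l' h
      exact (inj_block hρ hρ h).2
    · intro a ha b hb he
      subst he
      obtain ⟨i, _, hi⟩ := List.mem_map.1 ha
      obtain ⟨ρ', hρ', i', _, hi'⟩ := mem_LG.1 hb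
      have h1 := (inj_block hρ (hA ρ' (List.mem_cons_of_mem _ hρ')) (hi.trans hi'.symm)).1
      rw [← h1] at hρ'
      exact hn.1 hρ'

theorem t : StmRD := by
  refine ⟨?_, ?_, ?_, ?_⟩
  · intro g c hc J
    have hg : 0 < g := by omega
    ext x
    rw [mem_JG]
    constructor
    · intro hx
      have hxg := Nat.mod_lt x hg
      refine ⟨cc g c (x % g), List.mem_range.2 (cc_lt hc), x / g, ?_, ?_⟩
      · simp only [mem_image, mem_filter]
        exact ⟨x, ⟨hx, (cc_cc hxg).symm⟩, rfl⟩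
      · rw [cc_cc hxg]
        exact Nat.mod_add_div x g
    · rintro ⟨ρ, -, l, hl, rfl⟩
      simp only [mem_image, mem_filter] at hl
      obtain ⟨y, ⟨hy, hyρ⟩, rfl⟩ := hl
      rw [← hyρ, Nat.mod_add_div]
      exact hy
  · intro g m hg
    rw [List.perm_ext_iff_of_nodup List.nodup_range
      (LG_nodup (fun ρ h => List.mem_range.1 h) List.nodup_range fun ρ _ => List.nodup_range)]
    intro x
    rw [mem_LG]
    simp only [List.mem_range]
    constructor
    · intro hx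
      have hxg := Nat.mod_lt x hg
      refine ⟨x % g, hxg, x / g, ?_, Nat.mod_add_div x g⟩
      have e := Nat.mod_add_div x g
      rw [← Nat.succ_le_iff, Nat.le_div_iff_mul_le hg, Nat.succ_mul, mul_comm]
      omega
    · rintro ⟨ρ, hρ, i, hi, rfl⟩
      rw [← Nat.succ_le_iff, Nat.le_div_iff_mul_le hg, Nat.succ_mul, mul_comm] at hi
      omega
  · intro g c Js Js' ρ₀ l₀ A hc hA hn hρ₀ h1 h2
    have hg : 0 < g := by omega
    ext x
    rw [mem_erase, mem_JG, mem_JG]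
    constructor
    · rintro ⟨hx, ρ, hρ, l, hl, rfl⟩
      refine ⟨ρ, hρ, l, ?_, rfl⟩
      by_cases h : ρ = ρ₀
      · subst h
        rw [h1, mem_erase]
        refine ⟨?_, hl⟩
        rintro rfl
        exact hx rfl
      · rw [h2 ρ h]
        exact hl
    · rintro ⟨ρ, hρ, l, hl, rfl⟩
      by_cases h : ρ = ρ₀
      · subst h
        rw [h1, mem_erase] at hl
        refine ⟨fun he => hl.1 (inj_block (cc_lt hc) (cc_lt hc) he).2, ρ, hρ, l, hl.2, rfl⟩
      · rw [h2 ρ h] at hl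
        refine ⟨fun he => h (cc_inj hc (hA ρ hρ) (hA ρ₀ hρ₀)
          (inj_block (cc_lt hc) (cc_lt hc) he).1), ρ, hρ, l, hl, rfl⟩
  · intro g Ls Ls' ρ₀ i₀ A hA hn hρ₀ hL h1 h2
    have hL' : ∀ ρ ∈ A, (Ls' ρ).Nodup := by
      intro ρ hρ
      by_cases h : ρ = ρ₀
      · subst h
        rw [h1]
        exact (hL ρ hρ).erase _
      · rw [h2 ρ h]
        exact hL ρ hρ
    rw [List.perm_ext_iff_of_nodup ((LG_nodup hA hn hL).erase _) (LG_nodup hA hn hL')]
    intro x
    rw [(LG_nodup hA hn hL).mem_erase_iff, mem_LG, mem_LG]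
    constructor
    · rintro ⟨hx, ρ, hρ, l, hl, rfl⟩
      refine ⟨ρ, hρ, l, ?_, rfl⟩
      by_cases h : ρ = ρ₀
      · subst h
        rw [h1, (hL ρ hρ).mem_erase_iff]
        refine ⟨?_, hl⟩
        rintro rfl
        exact hx rfl
      · rw [h2 ρ h]
        exact hl
    · rintro ⟨ρ, hρ, l, hl, rfl⟩
      by_cases h : ρ = ρ₀
      · subst h
        rw [h1, (hL ρ hρ).mem_erase_iff] at hl
        exact ⟨fun he => hl.1 (inj_block (hA ρ hρ) (hA ρ hρ) he).2, ρ, hρ, l, hl.2, rfl⟩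
      · rw [h2 ρ h] at hl
        exact ⟨fun he => h (inj_block (hA ρ hρ) (hA ρ₀ hρ₀) he).1, ρ, hρ, l, hl, rfl⟩

end Pool.Agent.N729.HQ.RD
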