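import Pool.Agent.N729.HQ.Stm

/-!
Project HQ, part RF: the derivative of a submatrix which consists of submatrices of the blocks
`ρ ∈ A` (helper527).
-/

set_option autoImplicit false

namespace Pool.Agent.N729.HQ.RF

open Finset
open Pool.Agent.N186.HK (pm pm_nil pm_cons pm_congr)
open Pool.Agent.N729.HP

theorem van {D : Type*} [CommRing D] (x : ℕ → D) (L₂ : List ℕ) : ∀ (L₁ : List ℕ)
    (J J₁ : Finset ℕ), (∀ c ∈ L₁, ∀ j ∈ J, j ∉ J₁ → x (j + c) = 0) → J₁.card < L₁.length →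
    pm x J (L₁ ++ L₂) = 0 := by
  intro L₁
  induction L₁ with
  | nil =>
    intro J J₁ _ h
    rw [List.length_nil] at h
    omega
  | cons c L₁ ih =>
    intro J J₁ h hc
    rw [List.cons_append, pm_cons]
    refine Finset.sum_eq_zero fun j hj => ?_
    by_cases hj1 : j ∈ J₁
    · rw [ih (J.erase j) (J₁.erase j) ?_ ?_, mul_zero]
      · intro c' hc' j' hj' hj''
        refine h c' (List.mem_cons_of_mem _ hc') j' (Finset.mem_of_mem_erase hj') fun h1 => ?_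
        exact hj'' (Finset.mem_erase.2 ⟨(Finset.mem_erase.1 hj').1, h1⟩)
      · rw [Finset.card_erase_of_mem hj1]
        rw [List.length_cons] at hc
        have := Finset.card_pos.2 ⟨j, hj1⟩
        omega
    · rw [h c List.mem_cons_self j hj hj1, zero_mul]

theorem LG_perm (g : ℕ) (Ls : ℕ → List ℕ) {A B : List ℕ} (h : A.Perm B) :
    (LG g Ls A).Perm (LG g Ls B) := by
  unfold LG
  exact h.flatMap_right _

theorem JG_perm (g c : ℕ) (Js : ℕ → Finset ℕ) {A B : List ℕ} (h : A.Perm B) :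
    JG g c Js A = JG g c Js B := by
  unfold JG
  rw [List.toFinset_eq_of_perm _ _ h]

theorem van2 {D : Type*} [CommRing D] (hBA : StmBA D) {g c : ℕ} (u : ℕ → D) (hc : c < g)
    (Js : ℕ → Finset ℕ) (Ls : ℕ → List ℕ) (A : List ℕ) (hAg : ∀ ρ ∈ A, ρ < g) (ρ : ℕ)
    (hρ : ρ ∈ A) (c' : ℕ) (h : (Js ρ).card < ((LG g Ls [ρ]).erase c').length) (j : ℕ) :
    pm (cst g c u) ((JG g c Js A).erase j) ((LG g Ls A).erase c') = 0 := by
  obtain ⟨B, hB⟩ : ∃ B, A.Perm (ρ :: B) := ⟨A.erase ρ, List.perm_cons_erase hρ⟩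
  have h1 : (LG g Ls A).Perm (LG g Ls [ρ] ++ LG g Ls B) := by
    rw [← RR.LG_append]
    exact LG_perm g Ls hB
  obtain ⟨M, hM⟩ : ∃ M, (LG g Ls [ρ] ++ LG g Ls B).erase c' = (LG g Ls [ρ]).erase c' ++ M := by
    by_cases hm : c' ∈ LG g Ls [ρ]
    · exact ⟨LG g Ls B, List.erase_append_left _ hm⟩
    · exact ⟨(LG g Ls B).erase c', by rw [List.erase_append_right _ hm, List.erase_of_not_mem hm]⟩
  have h2 : ((LG g Ls A).erase c').Perm ((LG g Ls [ρ]).erase c' ++ M) := by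
    rw [← hM]
    exact h1.erase c'
  rw [hBA.1 _ _ _ h2]
  refine van (cst g c u) M ((LG g Ls [ρ]).erase c') _ ((Js ρ).image fun l => cc g c ρ + g * l)
    ?_ (lt_of_le_of_lt Finset.card_image_le h)
  intro c₁ hc₁ j' hj' hj''
  obtain ⟨ρ₁, hρ₁, i, -, rfl⟩ := RR.mem_LG.1 (List.mem_of_mem_erase hc₁)
  rw [List.mem_singleton] at hρ₁
  subst hρ₁
  obtain ⟨ρ', hρ', l, hl, rfl⟩ := RR.mem_JG.1 (Finset.mem_of_mem_erase hj')
  refine RA.cst_ne u hc (hAg _ hρ) (hAg _ hρ') ?_ i l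
  intro he
  subst he
  exact hj'' (Finset.mem_image_of_mem (fun l => cc g c ρ₁ + g * l) hl)

theorem i2 {D : Type*} [CommRing D] (hBC : StmBC D) (hBE : StmBE D) (hRA : StmRA D)
    {g c : ℕ} (u y : ℕ → D) (hc : c < g) (Js : ℕ → Finset ℕ) (Ls : ℕ → List ℕ) :
    ∀ A : List ℕ, A.Nodup → (∀ ρ ∈ A, ρ < g) → (∀ ρ ∈ A, (Js ρ).card = (Ls ρ).length) →
      pd (cst g c u) y (JG g c Js A) (LG g Ls A) = ∑ ρ ∈ A.toFinset,
        pd (fun s => u (s + sh c ρ)) (fun s => y (c + g * (s + sh c ρ))) (Js ρ) (Ls ρ) *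
          ∏ ρ' ∈ A.toFinset.erase ρ, pm (fun s => u (s + sh c ρ')) (Js ρ') (Ls ρ') := by
  intro A
  induction A with
  | nil =>
    intro _ _ _
    simp [LG, pd]
  | cons ρ A ih =>
    intro hA hAg hsq
    have hA' := (List.nodup_cons.1 hA).2
    have hn : ρ ∉ A := (List.nodup_cons.1 hA).1
    have hn' : ρ ∉ A.toFinset := fun h => hn (List.mem_toFinset.1 h)
    have e1 : JG g c Js (ρ :: A) = JG g c Js [ρ] ∪ JG g c Js A := RR.JG_append g c Js [ρ] A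
    have e2 : LG g Ls (ρ :: A) = LG g Ls [ρ] ++ LG g Ls A := RR.LG_append g Ls [ρ] A
    obtain ⟨a1, a2, a3, a4, a5, -, a7⟩ := hRA g c u hc Js Ls [ρ] A hA hAg
    obtain ⟨-, -, -, b4, b5, -, b7⟩ := hRA g c u hc Js Ls A [] (by simpa using hA')
      fun ρ' hρ' => hAg ρ' (List.mem_cons_of_mem _ (by simpa using hρ'))
    have hcA : (JG g c Js [ρ]).card = (LG g Ls [ρ]).length := by
      rw [a4, a5]
      simp only [List.toFinset_cons, List.toFinset_nil, insert_empty_eq, Finset.sum_singleton]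
      exact hsq ρ List.mem_cons_self
    have hcB : (JG g c Js A).card = (LG g Ls A).length := by
      rw [b4, b5]
      exact Finset.sum_congr rfl fun ρ' hρ' =>
        hsq ρ' (List.mem_cons_of_mem _ (List.mem_toFinset.1 hρ'))
    rw [e1, e2, hBC (cst g c u) y _ _ _ _ a3 a1 a2 hcA hcB, b7,
      ih hA' (fun ρ' hρ' => hAg ρ' (List.mem_cons_of_mem _ hρ'))
        (fun ρ' hρ' => hsq ρ' (List.mem_cons_of_mem _ hρ')),
      List.toFinset_cons, Finset.sum_insert hn', Finset.erase_insert hn', RR.JG_single,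
      RR.LG_single, RR.pd_block hBE hc (hAg ρ List.mem_cons_self),
      RR.pm_block hBE hc (hAg ρ List.mem_cons_self), Finset.mul_sum]
    congr 1
    refine Finset.sum_congr rfl fun ρ' hρ' => ?_
    have hne : ρ ≠ ρ' := fun h => hn' (h ▸ hρ')
    have hn2 : ρ ∉ A.toFinset.erase ρ' := fun h => hn' (Finset.mem_of_mem_erase h)
    rw [Finset.erase_insert_of_ne hne, Finset.prod_insert hn2]
    ring

theorem i3 {D : Type*} [CommRing D] (hBA : StmBA D) (hBB : StmBB D)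
    (hBD : StmBD D) (hBE : StmBE D) (hRA : StmRA D)
    {g c : ℕ} (u y : ℕ → D) (hc : c < g) (Js : ℕ → Finset ℕ) (Ls : ℕ → List ℕ)
    (rest : List ℕ) (ρ₁ ρ₂ : ℕ) (hndA : ([ρ₁] ++ (ρ₂ :: rest)).Nodup)
    (hAg : ∀ ρ ∈ [ρ₁] ++ (ρ₂ :: rest), ρ < g) (hnd1 : (Ls ρ₁).Nodup)
    (hs1 : (Js ρ₁).card + 1 = (Ls ρ₁).length) (hs2 : (Js ρ₂).card = (Ls ρ₂).length + 1)
    (hsq : ∀ ρ ∈ rest, (Js ρ).card = (Ls ρ).length) :
    pd (cst g c u) y (JG g c Js ([ρ₁] ++ (ρ₂ :: rest))) (LG g Ls ([ρ₁] ++ (ρ₂ :: rest))) =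
        (∑ i ∈ (Ls ρ₁).toFinset, ∑ l ∈ Js ρ₂, y (ρ₁ + g * i + (cc g c ρ₂ + g * l)) *
          pm (fun s => u (s + sh c ρ₁)) (Js ρ₁) ((Ls ρ₁).erase i) *
          pm (fun s => u (s + sh c ρ₂)) ((Js ρ₂).erase l) (Ls ρ₂)) *
        ∏ ρ ∈ rest.toFinset, pm (fun s => u (s + sh c ρ)) (Js ρ) (Ls ρ) := by
  have hnd2 : (ρ₂ :: rest).Nodup := (List.nodup_cons.1 hndA).2
  have nrest : rest.Nodup := (List.nodup_cons.1 hnd2).2
  have hρ₁ : ρ₁ < g := hAg ρ₁ List.mem_cons_self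
  have hρ₂ : ρ₂ < g := hAg ρ₂ (List.mem_cons_of_mem _ List.mem_cons_self)
  have hg2 : ∀ ρ ∈ ρ₂ :: rest, ρ < g := fun ρ hρ => hAg ρ (List.mem_cons_of_mem _ hρ)
  have hgr : ∀ ρ ∈ rest, ρ < g := fun ρ hρ => hg2 ρ (List.mem_cons_of_mem _ hρ)
  rw [RR.JG_append, RR.LG_append]
  -- the decompositions
  obtain ⟨a1, a2, a3, a4, a5, a6, -⟩ := hRA g c u hc Js Ls [ρ₁] (ρ₂ :: rest) hndA hAg
  obtain ⟨-, -, -, b4, b5, -, -⟩ := hRA g c u hc Js Ls (ρ₂ :: rest) []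
    (by simpa using hnd2) fun ρ hρ => hg2 ρ (by simpa using hρ)
  obtain ⟨c1, c2, c3, -, -, -, -⟩ := hRA g c u hc Js Ls [ρ₂] rest
    (by simpa using hnd2) fun ρ hρ => hg2 ρ (by simpa using hρ)
  obtain ⟨-, -, -, d4, d5, -, d7⟩ := hRA g c u hc Js Ls rest []
    (by simpa using nrest) fun ρ hρ => hgr ρ (by simpa using hρ)
  have hcardA : (JG g c Js [ρ₁]).card + 1 = (LG g Ls [ρ₁]).length := by
    rw [a4, a5]
    simp only [List.toFinset_cons, List.toFinset_nil, insert_empty_eq, Finset.sum_singleton]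
    exact hs1
  have hcardr : (JG g c Js rest).card = (LG g Ls rest).length := by
    rw [d4, d5]
    exact Finset.sum_congr rfl fun ρ hρ => hsq ρ (List.mem_toFinset.1 hρ)
  have hcardB : (JG g c Js (ρ₂ :: rest)).card = (LG g Ls (ρ₂ :: rest)).length + 1 := by
    have h3 : ρ₂ ∉ rest.toFinset := fun h => (List.nodup_cons.1 hnd2).1 (List.mem_toFinset.1 h)
    rw [b4, b5, List.toFinset_cons, Finset.sum_insert h3, Finset.sum_insert h3, ← d4, ← d5, hcardr,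
      hs2]
    omega
  have hndL : (LG g Ls [ρ₁]).Nodup := a6 fun ρ hρ => by
    rw [List.mem_singleton] at hρ
    rw [hρ]
    exact hnd1
  rw [hBD (cst g c u) y _ _ _ _ a3 hndL a1 a2 hcardA hcardB, ← d7]
  -- the common factor
  obtain ⟨W, hW⟩ : ∃ W, W = pm (cst g c u) (JG g c Js rest) (LG g Ls rest) := ⟨_, rfl⟩
  rw [← hW]
  have hg : 0 < g := by omega
  have inj1 : Function.Injective fun i : ℕ => ρ₁ + g * i := fun a b hab =>
    Nat.eq_of_mul_eq_mul_left hg (Nat.add_left_cancel hab)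
  have inj2 : Function.Injective fun i : ℕ => cc g c ρ₂ + g * i := fun a b hab =>
    Nat.eq_of_mul_eq_mul_left hg (Nat.add_left_cancel hab)
  have hJB : JG g c Js (ρ₂ :: rest) = JG g c Js [ρ₂] ∪ JG g c Js rest :=
    RR.JG_append g c Js [ρ₂] rest
  have hLB : LG g Ls (ρ₂ :: rest) = LG g Ls [ρ₂] ++ LG g Ls rest :=
    RR.LG_append g Ls [ρ₂] rest
  -- the terms
  have t1 : ∀ j ∈ JG g c Js rest, pm (cst g c u) ((JG g c Js (ρ₂ :: rest)).erase j)
      (LG g Ls (ρ₂ :: rest)) = 0 := by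
    intro j hj
    have hj2 : j ∉ JG g c Js [ρ₂] := Finset.disjoint_right.1 c3 hj
    rw [hJB, hLB, Finset.erase_union_distrib, Finset.erase_eq_of_notMem hj2,
      hBB (cst g c u) _ _ _ _ (c3.mono_right (Finset.erase_subset _ _))
        (fun c' hc' j' hj' => c1 c' hc' j' (Finset.mem_of_mem_erase hj')) c2,
      hBA.2.2 (cst g c u) ((JG g c Js rest).erase j) (LG g Ls rest), mul_zero]
    rw [Finset.card_erase_of_mem hj, ← hcardr]
    have := Finset.card_pos.2 ⟨j, hj⟩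
    omega
  have t2 : ∀ l ∈ Js ρ₂, pm (cst g c u) ((JG g c Js (ρ₂ :: rest)).erase (cc g c ρ₂ + g * l))
      (LG g Ls (ρ₂ :: rest)) = pm (fun s => u (s + sh c ρ₂)) ((Js ρ₂).erase l) (Ls ρ₂) * W := by
    intro l hl
    have hj : cc g c ρ₂ + g * l ∈ JG g c Js [ρ₂] := by
      rw [RR.JG_single]
      exact Finset.mem_image_of_mem (fun l => cc g c ρ₂ + g * l) hl
    have hj2 : cc g c ρ₂ + g * l ∉ JG g c Js rest := Finset.disjoint_left.1 c3 hj
    rw [hJB, hLB, Finset.erase_union_distrib, Finset.erase_eq_of_notMem hj2,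
      hBB (cst g c u) _ _ _ _ (c3.mono_left (Finset.erase_subset _ _))
        c1 (fun c' hc' j' hj' => c2 c' hc' j' (Finset.mem_of_mem_erase hj')), ← hW]
    congr 1
    rw [RR.JG_single, RR.LG_single]
    have e1 : ((Js ρ₂).image fun l => cc g c ρ₂ + g * l).erase (cc g c ρ₂ + g * l) =
        ((Js ρ₂).erase l).image fun l => cc g c ρ₂ + g * l :=
      (Finset.image_erase inj2 (Js ρ₂) l).symm
    rw [e1]
    exact RR.pm_block hBE hc hρ₂ u _ _
  have t3 : ∀ i ∈ Ls ρ₁, pm (cst g c u) (JG g c Js [ρ₁]) ((LG g Ls [ρ₁]).erase (ρ₁ + g * i)) =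
      pm (fun s => u (s + sh c ρ₁)) (Js ρ₁) ((Ls ρ₁).erase i) := by
    intro i _
    rw [RR.JG_single, RR.LG_single]
    have e1 : ((Ls ρ₁).map fun i => ρ₁ + g * i).erase (ρ₁ + g * i) =
        ((Ls ρ₁).erase i).map fun i => ρ₁ + g * i := (List.map_erase inj1 (Ls ρ₁)).symm
    rw [e1]
    exact RR.pm_block hBE hc hρ₁ u _ _
  -- conclusion
  have e0 : (LG g Ls [ρ₁]).toFinset = (Ls ρ₁).toFinset.image fun i => ρ₁ + g * i := by
    rw [RR.LG_single]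
    ext x
    simp
  rw [e0, Finset.sum_image (fun a _ b _ hab => inj1 hab), Finset.sum_mul]
  refine Finset.sum_congr rfl fun i hi => ?_
  have hi' := List.mem_toFinset.1 hi
  have e3 : ∀ F : ℕ → D, ∑ j ∈ JG g c Js (ρ₂ :: rest), F j =
      ∑ l ∈ Js ρ₂, F (cc g c ρ₂ + g * l) + ∑ j ∈ JG g c Js rest, F j := by
    intro F
    rw [hJB, Finset.sum_union c3, RR.JG_single, Finset.sum_image (fun a _ b _ hab => inj2 hab)]
  rw [e3, Finset.sum_mul]
  have e4 : ∑ j ∈ JG g c Js rest, y (j + (ρ₁ + g * i)) *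
      pm (cst g c u) (JG g c Js [ρ₁]) ((LG g Ls [ρ₁]).erase (ρ₁ + g * i)) *
      pm (cst g c u) ((JG g c Js (ρ₂ :: rest)).erase j) (LG g Ls (ρ₂ :: rest)) = 0 :=
    Finset.sum_eq_zero fun j hj => by rw [t1 j hj, mul_zero]
  rw [e4, add_zero]
  refine Finset.sum_congr rfl fun l hl => ?_
  rw [t2 l hl, t3 i hi', Nat.add_comm (cc g c ρ₂ + g * l)]
  ring

theorem t' {D : Type*} [CommRing D] (hBA : StmBA D) (hBB : StmBB D) (hBC : StmBC D)
    (hBD : StmBD D) (hBE : StmBE D) (hBF : StmBF D) (hRA : StmRA D) : StmRF D := by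
  intro g c u y hc Js Ls A hA hAg hLn
  obtain ⟨-, -, -, -, -, r6, r7⟩ := hRA g c u hc Js Ls A [] (by simpa using hA)
    fun ρ hρ => hAg ρ (by simpa using hρ)
  have hLnd := r6 hLn
  refine ⟨?_, ?_, ?_, ?_, ?_⟩
  · rintro ⟨ρ, hρ, h⟩
    rw [r7]
    exact Finset.prod_eq_zero (List.mem_toFinset.2 hρ) (hBA.2.2 _ _ _ h)
  · exact i2 hBC hBE hRA u y hc Js Ls A hA hAg
  · intro ρ₁ h₁ ρ₂ h₂ hne hs1 hs2 hsq
    have h₂' : ρ₂ ∈ A.erase ρ₁ := (List.mem_erase_of_ne hne.symm).2 h₂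
    have hP : A.Perm ([ρ₁] ++ (ρ₂ :: (A.erase ρ₁).erase ρ₂)) :=
      (List.perm_cons_erase h₁).trans ((List.perm_cons_erase h₂').cons ρ₁)
    have hnA' : ([ρ₁] ++ (ρ₂ :: (A.erase ρ₁).erase ρ₂)).Nodup := hP.nodup_iff.1 hA
    have hAg' : ∀ ρ ∈ [ρ₁] ++ (ρ₂ :: (A.erase ρ₁).erase ρ₂), ρ < g := fun ρ hρ =>
      hAg ρ (hP.mem_iff.2 hρ)
    have hfin : ((A.erase ρ₁).erase ρ₂).toFinset = (A.toFinset.erase ρ₁).erase ρ₂ := by
      ext ρ
      rw [List.mem_toFinset, (hA.erase ρ₁).mem_erase_iff, hA.mem_erase_iff, Finset.mem_erase,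
        Finset.mem_erase, List.mem_toFinset]
    have := i3 hBA hBB hBD hBE hRA u y hc Js Ls ((A.erase ρ₁).erase ρ₂) ρ₁ ρ₂ hnA' hAg'
      (hLn ρ₁ h₁) hs1 hs2 (fun ρ hρ => by
        rw [(hA.erase ρ₁).mem_erase_iff, hA.mem_erase_iff] at hρ
        exact hsq ρ hρ.2.2 hρ.2.1 hρ.1)
    rw [hfin] at this
    rw [JG_perm g c Js hP, hBA.2.1 _ _ _ _ (LG_perm g Ls hP)]
    exact this
  · rintro ⟨ρ, hρ, h⟩
    rw [hBF _ _ _ _ hLnd]
    refine Finset.sum_eq_zero fun c' _ => Finset.sum_eq_zero fun j _ => ?_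
    rw [van2 hBA u hc Js Ls A hAg ρ hρ c' ?_ j, mul_zero]
    have h1 : (LG g Ls [ρ]).length - 1 ≤ ((LG g Ls [ρ]).erase c').length :=
      List.le_length_erase
    rw [RR.LG_single, List.length_map] at h1
    rw [RR.LG_single]
    omega
  · rintro ⟨ρ₁, h₁, ρ₂, h₂, hne, hs1, hs2⟩
    rw [hBF _ _ _ _ hLnd]
    refine Finset.sum_eq_zero fun c' _ => Finset.sum_eq_zero fun j _ => ?_
    by_cases hc' : c' ∈ LG g Ls [ρ₁]
    · rw [van2 hBA u hc Js Ls A hAg ρ₂ h₂ c' ?_ j, mul_zero]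
      rw [List.erase_of_not_mem, RR.LG_single, List.length_map]
      · exact hs2
      · intro h
        obtain ⟨ρ, hρ, i, -, rfl⟩ := RR.mem_LG.1 hc'
        obtain ⟨ρ', hρ', i', -, he⟩ := RR.mem_LG.1 h
        rw [List.mem_singleton] at hρ hρ'
        subst hρ
        subst hρ'
        have e1 := congrArg (fun z => z % g) he
        simp only [Nat.add_mul_mod_self_left] at e1
        rw [Nat.mod_eq_of_lt (hAg _ h₁), Nat.mod_eq_of_lt (hAg _ h₂)] at e1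
        exact hne e1.symm
    · rw [van2 hBA u hc Js Ls A hAg ρ₁ h₁ c' ?_ j, mul_zero]
      rw [List.erase_of_not_mem hc', RR.LG_single, List.length_map]
      exact hs1

/-- RF, for a field -/
theorem t (k : Type*) [Field k] : StmRF k :=
  t' (BA.ta k) (BA.tb k) (bc k) (bd k) (BA.te k) (bf k) (ra k)

end Pool.Agent.N729.HQ.RF
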