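import Pool.Agent.N729.HQ.Stm

/-!
Project HQ (helper729), part S4 (helper771): `t = 4`, `n = 5`.
-/

set_option autoImplicit false

namespace Pool.Agent.N729.HQ.S4

open Finset
open Pool.Agent.N186.HK (pm pm_map pm_cons pm_nil)
open Pool.Agent.N729.HP

section gen

variable {D : Type*} [CommRing D]

lemma pd_nil (x y : ℕ → D) (J : Finset ℕ) : pd x y J [] = 0 := by
  rw [pd]

lemma pd_cons (x y : ℕ → D) (J : Finset ℕ) (c : ℕ) (L : List ℕ) :
    pd x y J (c :: L) =
      ∑ j ∈ J, (y (j + c) * pm x (J.erase j) L + x (j + c) * pd x y (J.erase j) L) := by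
  rw [pd]

lemma pq_nil (x y : ℕ → D) (J : Finset ℕ) : pq x y J [] = 0 := by
  rw [pq]

lemma pq_cons (x y : ℕ → D) (J : Finset ℕ) (c : ℕ) (L : List ℕ) :
    pq x y J (c :: L) =
      ∑ j ∈ J, (y (j + c) * pd x y (J.erase j) L + x (j + c) * pq x y (J.erase j) L) := by
  rw [pq]

lemma pd_map {S : Type*} [CommRing S] (f : D →+* S) (x y : ℕ → D) (cs : List ℕ) :
    ∀ R : Finset ℕ, f (pd x y R cs) = pd (fun k => f (x k)) (fun k => f (y k)) R cs := by
  induction cs with
  | nil => intro R; rw [pd_nil, pd_nil, map_zero]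
  | cons c cs ih =>
    intro R
    rw [pd_cons, pd_cons, map_sum]
    exact Finset.sum_congr rfl fun i _ => by rw [map_add, map_mul, map_mul, ih, pm_map]

lemma pq_map {S : Type*} [CommRing S] (f : D →+* S) (x y : ℕ → D) (cs : List ℕ) :
    ∀ R : Finset ℕ, f (pq x y R cs) = pq (fun k => f (x k)) (fun k => f (y k)) R cs := by
  induction cs with
  | nil => intro R; rw [pq_nil, pq_nil, map_zero]
  | cons c cs ih =>
    intro R
    rw [pq_cons, pq_cons, map_sum]
    exact Finset.sum_congr rfl fun i _ => by rw [map_add, map_mul, map_mul, ih, pd_map]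

/-- `pd` is linear in the direction -/
lemma pd_lin (x y : ℕ → D) (N : ℕ) (cs : List ℕ) :
    ∀ R : Finset ℕ, (∀ i ∈ R, ∀ c ∈ cs, i + c < N) →
      pd x y R cs = ∑ v ∈ range N, y v * pd x (fun s => if s = v then 1 else 0) R cs := by
  induction cs with
  | nil => intro R _; simp only [pd_nil, mul_zero, Finset.sum_const_zero]
  | cons c cs ih =>
    intro R h
    simp only [pd_cons, Finset.mul_sum]
    rw [Finset.sum_comm]
    refine Finset.sum_congr rfl fun i hi => ?_
    rw [ih (R.erase i) fun j hj d hd => h j (Finset.mem_of_mem_erase hj) d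
      (List.mem_cons_of_mem _ hd)]
    simp only [mul_add, Finset.sum_add_distrib]
    congr 1
    · have h1 : i + c ∈ range N := Finset.mem_range.2 (h i hi c List.mem_cons_self)
      rw [Finset.sum_eq_single (i + c)]
      · rw [if_pos rfl, one_mul]
      · intro v _ hv
        rw [if_neg (Ne.symm hv), zero_mul, mul_zero]
      · intro h2
        exact absurd h1 h2
    · rw [Finset.mul_sum]
      refine Finset.sum_congr rfl fun v _ => ?_
      ring

end gen

/-- the point over `ℤ` -/
def qz (v : ℕ) : ℤ := if v = 0 ∨ v = 1 ∨ v = 2 then 1 else if v = 4 ∨ v = 7 then -1 else 0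

/-- the tangent vector over `ℤ` -/
def wz (v : ℕ) : ℤ := if v = 1 ∨ v = 3 ∨ v = 5 then 1 else 0

/-- the coefficients of the derivatives -/
def tb (a v : ℕ) : ℤ :=
  ([[0, -1, 0, 2, -2, -1, 2, 1], [-1, 0, 2, 0, 1, 0, 1, 0], [0, 1, 0, 0, 2, -1, 0, -1],
    [1, 1, -2, 0, 1, -1, -1, -1], [-1, 0, 2, 2, 1, -2, -1, 0]].getD a []).getD v 0

theorem subsets : ∀ J ∈ Finset.powersetCard 4 (Finset.range 5),
    ∃ a ∈ Finset.range 5, J = (Finset.range 5).erase a := by decide +kernel

theorem pm_eq : ∀ a ∈ Finset.range 5, pm qz ((Finset.range 5).erase a) (List.range 4) = 0 := by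
  decide +kernel

theorem pd_eq : ∀ a ∈ Finset.range 5, ∀ v ∈ Finset.range 8,
    pd qz (fun s => if s = v then 1 else 0) ((Finset.range 5).erase a) (List.range 4) = tb a v := by
  decide +kernel

theorem pq_eq : pq qz wz ((Finset.range 5).erase 1) (List.range 4) = -3 ∧
    pq qz wz ((Finset.range 5).erase 2) (List.range 4) = -4 ∧
    pq qz wz ((Finset.range 5).erase 3) (List.range 4) = -3 := by
  decide +kernel

section fld

variable {k : Type*} [Field k]

/-- the point over `k` -/
def q (k : Type*) [Field k] (v : ℕ) : k := ((qz v : ℤ) : k)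

/-- the tangent vector over `k` -/
def w (k : Type*) [Field k] (v : ℕ) : k := ((wz v : ℤ) : k)

theorem hsub {J : Finset ℕ} (h : J.card = 4) (h' : ∀ j ∈ J, j < 5) :
    ∃ a ∈ Finset.range 5, J = (Finset.range 5).erase a := by
  refine subsets J ?_
  rw [Finset.mem_powersetCard]
  exact ⟨fun j hj => Finset.mem_range.2 (h' j hj), h⟩

theorem hpd (y : ℕ → k) {a : ℕ} (ha : a ∈ Finset.range 5) :
    pd (q k) y ((Finset.range 5).erase a) (List.range 4) =
      ∑ v ∈ Finset.range 8, y v * ((tb a v : ℤ) : k) := by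
  rw [pd_lin (q k) y 8 (List.range 4) _ (by
    intro i hi c hc
    have h1 := Finset.mem_range.1 (Finset.mem_of_mem_erase hi)
    have h2 := List.mem_range.1 hc
    omega)]
  refine Finset.sum_congr rfl fun v hv => ?_
  congr 1
  have h1 := pd_map (Int.castRingHom k) qz (fun s => if s = v then 1 else 0) (List.range 4)
    ((Finset.range 5).erase a)
  rw [pd_eq a ha v hv] at h1
  rw [← eq_intCast (Int.castRingHom k), h1]
  congr 1
  funext s
  split_ifs <;> simp

theorem hpq (a : ℕ) : pq (q k) (w k) ((Finset.range 5).erase a) (List.range 4) =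
    ((pq qz wz ((Finset.range 5).erase a) (List.range 4) : ℤ) : k) := by
  rw [← eq_intCast (Int.castRingHom k), pq_map]
  rfl

/-- the coefficients of the linear relation -/
def cf (k : Type*) [Field k] (a : ℕ) : k := if a = 2 then -1 else 1

end fld

theorem t (k : Type*) [Field k] : StmS4 k := by
  intro h2 hT1
  refine hT1 5 4 (by norm_num) (by norm_num) (q k) ?_ {2, 4, 5, 7} (by decide) ?_ (w k) ?_
    {1, 2, 3} (cf k) (fun a => (Finset.range 5).erase a) ?_ ?_ ?_
  · intro J h h'
    obtain ⟨a, ha, rfl⟩ := hsub h h'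
    have h1 := pm_map (Int.castRingHom k) qz (List.range 4) ((Finset.range 5).erase a)
    rw [pm_eq a ha, map_zero] at h1
    exact h1.symm
  · intro y hy hT v hv
    have e : ∀ a ∈ Finset.range 5, ∑ v ∈ Finset.range 8, y v * ((tb a v : ℤ) : k) = 0 := by
      intro a ha
      rw [← hpd y ha]
      refine hT _ ?_ ?_
      · rw [Finset.card_erase_of_mem ha, Finset.card_range]
      · intro j hj
        exact Finset.mem_range.1 (Finset.mem_of_mem_erase hj)
    have y2 := hy 2 (by simp)
    have y4 := hy 4 (by simp)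
    have y5 := hy 5 (by simp)
    have y7 := hy 7 (by simp)
    have e0 := e 0 (by decide)
    have e1 := e 1 (by decide)
    have e2 := e 2 (by decide)
    have e3 := e 3 (by decide)
    have e4 := e 4 (by decide)
    simp only [Finset.sum_range_succ, Finset.sum_range_zero, tb, List.getD_cons_zero,
      List.getD_cons_succ, y2, y4, y5, y7] at e0 e1 e2 e3 e4
    push_cast at e0 e1 e2 e3 e4
    have y1 : y 1 = 0 := by linear_combination e2
    have y6 : y 6 = y 0 := by linear_combination e1
    have y0 : y 0 = 0 := by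
      have h4 : (2 : k) * 2 * y 0 = 0 := by
        linear_combination e0 - e4 - 3 * y6 + y1
      rcases mul_eq_zero.1 h4 with h5 | h5
      · exact absurd h5 (mul_ne_zero h2 h2)
      · exact h5
    have y3 : y 3 = 0 := by
      have h4 : (2 : k) * y 3 = 0 := by
        linear_combination e4 + y6 + 2 * y0
      exact (mul_eq_zero.1 h4).resolve_left h2
    have hv8 : v < 8 := by omega
    interval_cases v
    · exact y0
    · exact y1
    · exact y2
    · exact y3
    · exact y4
    · exact y5
    · rw [y6, y0]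
    · exact y7
  · intro J h h'
    obtain ⟨a, ha, rfl⟩ := hsub h h'
    rw [hpd (w k) ha]
    have ha' := Finset.mem_range.1 ha
    unfold w
    have h3 : ∀ a ∈ Finset.range 5, ∑ v ∈ Finset.range 8, wz v * tb a v = 0 := by decide +kernel
    have h4 := congrArg (fun z : ℤ => (z : k)) (h3 a ha)
    push_cast at h4
    exact h4
  · intro a ha
    have ha5 : a ∈ Finset.range 5 := by
      have : ∀ a ∈ ({1, 2, 3} : Finset ℕ), a ∈ Finset.range 5 := by decide
      exact this a ha
    refine ⟨?_, ?_⟩
    · rw [Finset.card_erase_of_mem ha5, Finset.card_range]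
    · intro j hj
      exact Finset.mem_range.1 (Finset.mem_of_mem_erase hj)
  · intro y
    rw [Finset.sum_insert (by decide), Finset.sum_insert (by decide), Finset.sum_singleton,
      hpd y (by decide), hpd y (by decide), hpd y (by decide)]
    simp only [Finset.sum_range_succ, Finset.sum_range_zero, tb, List.getD_cons_zero,
      List.getD_cons_succ, cf]
    norm_num
    ring
  · rw [Finset.sum_insert (by decide), Finset.sum_insert (by decide), Finset.sum_singleton,
      hpq, hpq, hpq, pq_eq.1, pq_eq.2.1, pq_eq.2.2]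
    have h3 : cf k 1 * ((-3 : ℤ) : k) + (cf k 2 * ((-4 : ℤ) : k) + cf k 3 * ((-3 : ℤ) : k)) =
        -2 := by
      unfold cf
      norm_num
    rw [h3]
    exact neg_ne_zero.2 h2

end Pool.Agent.N729.HQ.S4
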