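import Pool.Agent.N729.HQ.Stm

/-!
Project HQ, part S5: `t = 5`, `n = 6`.
-/

set_option autoImplicit false

namespace Pool.Agent.N729.HQ.S5

open Finset
open Pool.Agent.N186.HK (pm vm)
open Pool.Agent.N729.HP (pd)
open Pool.Agent.N729.HQ

/-! ### Casts and linearity -/

theorem pm_cast {D : Type*} [CommRing D] (x : ℕ → ℤ) (L : List ℕ) (J : Finset ℕ) :
    pm (fun i => ((x i : ℤ) : D)) J L = ((pm x J L : ℤ) : D) := by
  induction L generalizing J with
  | nil => simp [pm]
  | cons c L ih => simp only [pm, ih]; push_cast; rfl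

theorem pd_cast {D : Type*} [CommRing D] (x y : ℕ → ℤ) (L : List ℕ) (J : Finset ℕ) :
    pd (fun i => ((x i : ℤ) : D)) (fun i => ((y i : ℤ) : D)) J L = ((pd x y J L : ℤ) : D) := by
  induction L generalizing J with
  | nil => simp [pd]
  | cons c L ih => simp only [pd, ih, pm_cast]; push_cast; rfl

theorem pq_cast {D : Type*} [CommRing D] (x y : ℕ → ℤ) (L : List ℕ) (J : Finset ℕ) :
    pq (fun i => ((x i : ℤ) : D)) (fun i => ((y i : ℤ) : D)) J L = ((pq x y J L : ℤ) : D) := by
  induction L generalizing J with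
  | nil => simp [pq]
  | cons c L ih => simp only [pq, ih, pd_cast]; push_cast; rfl

/-- the unit vectors -/
def un (v : ℕ) : ℕ → ℤ := fun i => if i = v then 1 else 0

/-- `pd` is linear in the direction -/
theorem pd_lin {D : Type*} [CommRing D] (x : ℕ → ℤ) (y : ℕ → D) (M : ℕ) (L : List ℕ) (J : Finset ℕ)
    (h : ∀ c ∈ L, ∀ j ∈ J, j + c < M) :
    pd (fun i => ((x i : ℤ) : D)) y J L = ∑ v ∈ range M, y v * ((pd x (un v) J L : ℤ) : D) := by
  induction L generalizing J with
  | nil => simp [pd]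
  | cons c L ih =>
    have h1 : ∀ j ∈ J, pd (fun i => ((x i : ℤ) : D)) y (J.erase j) L =
        ∑ v ∈ range M, y v * ((pd x (un v) (J.erase j) L : ℤ) : D) := by
      intro j hj
      exact ih (J.erase j) fun c' hc' j' hj' =>
        h c' (List.mem_cons_of_mem _ hc') j' (mem_of_mem_erase hj')
    have h2 : ∀ j ∈ J, y (j + c) = ∑ v ∈ range M, y v * ((un v (j + c) : ℤ) : D) := by
      intro j hj
      rw [Finset.sum_eq_single (j + c)]
      · simp [un]
      · intro b _ hb
        simp [un, Ne.symm hb]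
      · intro hn
        exact absurd (mem_range.2 (h c List.mem_cons_self j hj)) hn
    simp only [pd, pm_cast]
    push_cast
    simp only [Finset.mul_sum]
    rw [Finset.sum_comm]
    refine Finset.sum_congr rfl fun j hj => ?_
    rw [h1 j hj, h2 j hj, Finset.sum_mul, Finset.mul_sum, ← Finset.sum_add_distrib]
    refine Finset.sum_congr rfl fun v _ => ?_
    ring

/-! ### The data -/

/-- the point -/
def qz : ℕ → ℤ := fun i => if i = 0 then 1 else if i = 2 then -1 else if i = 4 then 1 else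
  if i = 6 then 1 else if i = 9 then 1 else 0

/-- the first direction -/
def w1 : ℕ → ℤ := fun i => if i = 0 then 2 else if i = 8 then -1 else if i = 1 then -2 else
  if i = 3 then 1 else 0

/-- the second direction -/
def w2 : ℕ → ℤ := fun i => if i = 0 then 2 else if i = 2 then -1 else if i = 8 then -1 else
  if i = 1 then -1 else if i = 5 then 1 else 0

/-- the columns -/
def Jc (c : ℕ) : Finset ℕ := (range 6).erase c

/-- the differentials of the maximal permanents -/
def tab : ℕ → ℕ → ℤ := fun c v => (([[0, 1, 0, 2, 0, 1, 0, 0, 0, 0], [1, 0, 2, 0, 1, 2, 0, 2, 2, 0],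
  [0, 1, 0, 2, 0, 1, 0, 0, 0, 0], [1, 0, 2, 0, 1, 2, 0, -2, 2, 0],
  [0, 0, 2, 0, 4, 2, -2, 2, 0, 0], [0, 0, 0, 0, 0, 0, 0, 0, 0, 0]] : List (List ℤ)).getD c []).getD v 0

theorem pm_tab : ∀ c ∈ range 6, pm qz (Jc c) (List.range 5) = 0 := by decide +kernel

theorem pd_tab : ∀ c ∈ range 6, ∀ v ∈ range 10, pd qz (un v) (Jc c) (List.range 5) = tab c v := by
  decide +kernel

theorem pq_tab1 : pq qz w1 (Jc 0) (List.range 5) = 4 ∧ pq qz w1 (Jc 2) (List.range 5) = -2 ∧
    pq qz w1 (Jc 5) (List.range 5) = -2 := by decide +kernel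

theorem pq_tab2 : pq qz w2 (Jc 0) (List.range 5) = -1 ∧ pq qz w2 (Jc 2) (List.range 5) = 1 ∧
    pq qz w2 (Jc 5) (List.range 5) = 2 := by decide +kernel

theorem pq_tab3 : pq qz (fun v => w1 v + w2 v) (Jc 0) (List.range 5) = 7 ∧
    pq qz (fun v => w1 v + w2 v) (Jc 2) (List.range 5) = -1 ∧
    pq qz (fun v => w1 v + w2 v) (Jc 5) (List.range 5) = -4 := by decide +kernel

theorem pd_w : ∀ c ∈ range 6, pd qz w1 (Jc c) (List.range 5) = 0 ∧
    pd qz w2 (Jc c) (List.range 5) = 0 := by decide +kernel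

theorem subsets : ∀ J ∈ (range 6).powersetCard 5, ∃ c ∈ range 6, J = Jc c := by decide +kernel

theorem exists_c (J : Finset ℕ) (h1 : J.card = 5) (h2 : ∀ j ∈ J, j < 6) : ∃ c ∈ range 6, J = Jc c :=
  subsets J (mem_powersetCard.2 ⟨fun j hj => mem_range.2 (h2 j hj), h1⟩)

theorem pd_eq {D : Type*} [CommRing D] (y : ℕ → D) (c : ℕ) (hc : c ∈ range 6) :
    pd (fun i => ((qz i : ℤ) : D)) y (Jc c) (List.range 5) =
      ∑ v ∈ range 10, y v * ((tab c v : ℤ) : D) := by
  rw [pd_lin qz y 10]
  · exact Finset.sum_congr rfl fun v hv => by rw [pd_tab c hc v hv]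
  · intro a ha j hj
    have h1 := List.mem_range.1 ha
    have h2 := mem_range.1 (mem_of_mem_erase hj)
    omega

theorem t (k : Type*) [Field k] : StmS5 k := by
  intro h2 hT
  have hV : Vt 6 5 (fun i => ((qz i : ℤ) : k)) := by
    intro J h1 h3
    obtain ⟨c, hc, rfl⟩ := exists_c J h1 h3
    rw [pm_cast, pm_tab c hc]
    simp
  have e : ∀ y : ℕ → k, Tt 6 5 (fun i => ((qz i : ℤ) : k)) y →
      ∀ c ∈ range 6, ∑ v ∈ range 10, y v * ((tab c v : ℤ) : k) = 0 := by
    intro y hy c hc
    rw [← pd_eq y c hc]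
    refine hy (Jc c) ?_ ?_
    · rw [Jc, card_erase_of_mem hc, card_range]
    · intro j hj
      exact mem_range.1 (mem_of_mem_erase hj)
  have hJ : ∀ a ∈ ({0, 2, 5} : Finset ℕ), (Jc a).card = 5 ∧ ∀ j ∈ Jc a, j < 6 := by
    intro a ha
    have ha' : a ∈ range 6 := by
      revert a
      decide
    refine ⟨by rw [Jc, card_erase_of_mem ha', card_range], fun j hj => ?_⟩
    exact mem_range.1 (mem_of_mem_erase hj)
  refine hT 6 5 (by norm_num) (by norm_num) (fun i => ((qz i : ℤ) : k)) hV {2, 4, 6, 8, 3, 9}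
    (by decide) ?_ (fun i => ((w1 i : ℤ) : k)) (fun i => ((w2 i : ℤ) : k)) ?_ ?_ {0, 2, 5}
    (fun a => if a = 5 then 1 else 0) (fun a => if a = 2 then -1 else 1) Jc hJ ?_ ?_ ?_ ?_ ?_ ?_
  · intro y hy hty v hv
    have y2 : y 2 = 0 := hy 2 (by decide)
    have y3 : y 3 = 0 := hy 3 (by decide)
    have y4 : y 4 = 0 := hy 4 (by decide)
    have y6 : y 6 = 0 := hy 6 (by decide)
    have y8 : y 8 = 0 := hy 8 (by decide)
    have y9 : y 9 = 0 := hy 9 (by decide)
    have e0 := e y hty 0 (by decide)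
    have e1 := e y hty 1 (by decide)
    have e3 := e y hty 3 (by decide)
    have e4 := e y hty 4 (by decide)
    simp only [tab, Finset.sum_range_succ, Finset.sum_range_zero, List.getD_cons_zero,
      List.getD_cons_succ, y2, y3, y4, y6, y8, y9] at e0 e1 e3 e4
    push_cast at e0 e1 e3 e4
    have h4 : (2 : k) * (2 * y 7) = 0 := by linear_combination e1 - e3
    have y7 : y 7 = 0 := by
      rcases mul_eq_zero.1 h4 with h | h
      · exact absurd h h2
      · rcases mul_eq_zero.1 h with h | h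
        · exact absurd h h2
        · exact h
    have h5 : (2 : k) * y 5 = 0 := by linear_combination e4 - 2 * y7
    have y5 : y 5 = 0 := by
      rcases mul_eq_zero.1 h5 with h | h
      · exact absurd h h2
      · exact h
    have y1 : y 1 = 0 := by linear_combination e0 - y5
    have y0 : y 0 = 0 := by linear_combination e1 - 2 * y5 - 2 * y7
    have hv' : v < 10 := by omega
    interval_cases v <;> assumption
  · intro J h1 h3
    obtain ⟨c, hc, rfl⟩ := exists_c J h1 h3
    rw [pd_cast, (pd_w c hc).1]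
    simp
  · intro J h1 h3
    obtain ⟨c, hc, rfl⟩ := exists_c J h1 h3
    rw [pd_cast, (pd_w c hc).2]
    simp
  · intro y
    rw [Finset.sum_insert (by decide), Finset.sum_insert (by decide), Finset.sum_singleton,
      pd_eq y 0 (by decide), pd_eq y 2 (by decide), pd_eq y 5 (by decide)]
    simp [tab, Finset.sum_range_succ]
  · intro y
    rw [Finset.sum_insert (by decide), Finset.sum_insert (by decide), Finset.sum_singleton,
      pd_eq y 0 (by decide), pd_eq y 2 (by decide), pd_eq y 5 (by decide)]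
    simp [tab, Finset.sum_range_succ]
  · rw [Finset.sum_insert (by decide), Finset.sum_insert (by decide), Finset.sum_singleton,
      pq_cast, pq_cast, pq_cast, pq_tab1.1, pq_tab1.2.1, pq_tab1.2.2]
    intro h
    have h4 : (2 : k) * 2 = 0 := by
      norm_num at h ⊢
      linear_combination h
    rcases mul_eq_zero.1 h4 with h | h <;> exact h2 h
  · rw [Finset.sum_insert (by decide), Finset.sum_insert (by decide), Finset.sum_singleton,
      pq_cast, pq_cast, pq_cast, pq_tab2.1, pq_tab2.2.1, pq_tab2.2.2]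
    norm_num
  · have hc : (fun v => ((w1 v : ℤ) : k) + ((w2 v : ℤ) : k)) =
        fun v => (((fun v => w1 v + w2 v) v : ℤ) : k) := by
      funext v
      push_cast
      rfl
    rw [hc, Finset.sum_insert (by decide), Finset.sum_insert (by decide), Finset.sum_singleton,
      Finset.sum_insert (by decide), Finset.sum_insert (by decide), Finset.sum_singleton,
      pq_cast, pq_cast, pq_cast, pq_cast, pq_cast, pq_cast, pq_tab1.1, pq_tab1.2.1, pq_tab1.2.2,
      pq_tab3.1, pq_tab3.2.1, pq_tab3.2.2]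
    norm_num
  · rw [Finset.sum_insert (by decide), Finset.sum_insert (by decide), Finset.sum_singleton,
      pq_cast, pq_cast, pq_cast, pq_tab2.1, pq_tab2.2.1, pq_tab2.2.2]
    intro h
    apply h2
    norm_num at h ⊢
    linear_combination h

end Pool.Agent.N729.HQ.S5
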