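import Pool.Agent.N729.HQ.Stm

/-!
# Project HQ (MP_9bc296_ag), part T1 (helper713): the criterion with one quadric
-/

set_option autoImplicit false

namespace Pool.Agent.N729.HQ.T1a

open Finset MvPolynomial
open Pool.Agent.N186.HK (pm vm IsHankel zz pm_map pm_congr pm_nil pm_cons pm_mem)
open Pool.Agent.R831.PermIdeal (permIdeal)
open Pool.Agent.N729.HP
open Pool.Agent.N729.HP.JC (dd dd_apply dd_mul dd_X ext0 ext0_of eval_pm dd_pm isHankel_hk zz_hk)

section taylor

variable {D : Type*} [CommRing D]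

lemma yy_pd (x y : ℕ → D) (h3 : ∀ a b c, y a * y b * y c = 0) (a b : ℕ) (L : List ℕ) :
    ∀ J, y a * y b * pd x y J L = 0 := by
  induction L with
  | nil => intro J; rw [pd, mul_zero]
  | cons c L ih =>
    intro J
    rw [pd, mul_sum]
    refine sum_eq_zero fun j _ => ?_
    rw [mul_add, ← mul_assoc, h3, zero_mul, mul_left_comm, ih, mul_zero, add_zero]

lemma y_pq (x y : ℕ → D) (h3 : ∀ a b c, y a * y b * y c = 0) (a : ℕ) (L : List ℕ) :
    ∀ J, y a * pq x y J L = 0 := by
  induction L with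
  | nil => intro J; rw [pq, mul_zero]
  | cons c L ih =>
    intro J
    rw [pq, mul_sum]
    refine sum_eq_zero fun j _ => ?_
    rw [mul_add, ← mul_assoc, yy_pd x y h3, mul_left_comm, ih, mul_zero, add_zero]

/-- the Taylor formula -/
lemma taylor (x y : ℕ → D) (h3 : ∀ a b c, y a * y b * y c = 0) (L : List ℕ) :
    ∀ J, pm (fun v => x v + y v) J L = pm x J L + pd x y J L + pq x y J L := by
  induction L with
  | nil => intro J; rw [pm_nil, pm_nil, pd, pq, add_zero, add_zero]
  | cons c L ih =>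
    intro J
    rw [pm_cons, pm_cons, pd, pq, ← sum_add_distrib, ← sum_add_distrib]
    refine sum_congr rfl fun j _ => ?_
    rw [ih]
    linear_combination y_pq x y h3 (j + c) L (J.erase j)

lemma y_pd (x y w : ℕ → D) (s : D) (hyy : ∀ a b, y a * y b = s * (w a * w b)) (a : ℕ)
    (L : List ℕ) : ∀ J, y a * pd x y J L = s * (w a * pd x w J L) := by
  induction L with
  | nil => intro J; rw [pd, pd, mul_zero, mul_zero, mul_zero]
  | cons c L ih =>
    intro J
    rw [pd, pd, mul_sum, mul_sum, mul_sum]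
    refine sum_congr rfl fun j _ => ?_
    linear_combination (pm x (J.erase j) L) * hyy a (j + c) + x (j + c) * ih (J.erase j)

lemma pq_quad (x y w : ℕ → D) (s : D) (hyy : ∀ a b, y a * y b = s * (w a * w b))
    (L : List ℕ) : ∀ J, pq x y J L = s * pq x w J L := by
  induction L with
  | nil => intro J; rw [pq, pq, mul_zero]
  | cons c L ih =>
    intro J
    rw [pq, pq, mul_sum]
    refine sum_congr rfl fun j _ => ?_
    linear_combination y_pd x y w s hyy (j + c) L (J.erase j) + x (j + c) * ih (J.erase j)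

lemma pd_congr (x : ℕ → D) {y y' : ℕ → D} (L : List ℕ) :
    ∀ J : Finset ℕ, (∀ i ∈ J, ∀ c ∈ L, y (i + c) = y' (i + c)) → pd x y J L = pd x y' J L := by
  induction L with
  | nil => intro J _; rw [pd, pd]
  | cons c L ih =>
    intro J h
    rw [pd, pd]
    refine sum_congr rfl fun i hi => ?_
    rw [h i hi c List.mem_cons_self, ih (J.erase i) fun j hj d hd =>
      h j (mem_of_mem_erase hj) d (List.mem_cons_of_mem _ hd)]

lemma pq_congr (x : ℕ → D) {y y' : ℕ → D} (L : List ℕ) :
    ∀ J : Finset ℕ, (∀ i ∈ J, ∀ c ∈ L, y (i + c) = y' (i + c)) → pq x y J L = pq x y' J L := by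
  induction L with
  | nil => intro J _; rw [pq, pq]
  | cons c L ih =>
    intro J h
    rw [pq, pq]
    refine sum_congr rfl fun i hi => ?_
    have h' : ∀ j ∈ J.erase i, ∀ d ∈ L, y (j + d) = y' (j + d) := fun j hj d hd =>
      h j (mem_of_mem_erase hj) d (List.mem_cons_of_mem _ hd)
    rw [h i hi c List.mem_cons_self, ih (J.erase i) h', pd_congr x L (J.erase i) h']

lemma pq_zero (x : ℕ → D) (J : Finset ℕ) (L : List ℕ) : pq x (fun _ => 0) J L = 0 := by
  rw [pq_quad x (fun _ => 0) (fun _ => 0) 0 (by simp), zero_mul]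

variable {S : Type*} [CommRing S]

lemma pd_map (f : D →+* S) (x y : ℕ → D) (L : List ℕ) :
    ∀ J : Finset ℕ, f (pd x y J L) = pd (fun v => f (x v)) (fun v => f (y v)) J L := by
  induction L with
  | nil => intro J; rw [pd, pd, map_zero]
  | cons c L ih =>
    intro J
    rw [pd, pd, map_sum]
    exact sum_congr rfl fun i _ => by rw [map_add, map_mul, map_mul, ih, pm_map]

lemma pq_map (f : D →+* S) (x y : ℕ → D) (L : List ℕ) :
    ∀ J : Finset ℕ, f (pq x y J L) = pq (fun v => f (x v)) (fun v => f (y v)) J L := by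
  induction L with
  | nil => intro J; rw [pq, pq, map_zero]
  | cons c L ih =>
    intro J
    rw [pq, pq, map_sum]
    exact sum_congr rfl fun i _ => by rw [map_add, map_mul, map_mul, ih, pd_map]

/-- the derivative is linear in the direction -/
lemma pd_lin (N : ℕ) (f : D →+* S) (x : ℕ → D) (y : ℕ → S) (L : List ℕ) :
    ∀ J : Finset ℕ, (∀ j ∈ J, ∀ c ∈ L, j + c < N) →
      pd (fun v => f (x v)) y J L =
        ∑ v ∈ range N, y v * f (pd x (fun u => if u = v then 1 else 0) J L) := by
  induction L with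
  | nil =>
    intro J _
    rw [pd]
    refine (sum_eq_zero fun v _ => ?_).symm
    rw [pd, map_zero, mul_zero]
  | cons c L ih =>
    intro J hJ
    have h2 : ∀ j, ∀ i ∈ J.erase j, ∀ d ∈ L, i + d < N := fun j i hi d hd =>
      hJ i (mem_of_mem_erase hi) d (List.mem_cons_of_mem _ hd)
    simp only [pd, map_sum, mul_sum]
    rw [sum_comm]
    refine sum_congr rfl fun j hj => ?_
    rw [ih _ (h2 j)]
    have h1 : j + c < N := hJ j hj c List.mem_cons_self
    have e1 : y (j + c) * pm (fun v => f (x v)) (J.erase j) L =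
        ∑ v ∈ range N, y v * (f (if j + c = v then 1 else 0) * f (pm x (J.erase j) L)) := by
      rw [sum_eq_single (j + c)]
      · rw [if_pos rfl, map_one, one_mul, pm_map]
      · intro v _ hv
        rw [if_neg (Ne.symm hv), map_zero, zero_mul, mul_zero]
      · intro h
        exact absurd (mem_range.2 h1) h
    rw [e1, mul_sum, ← sum_add_distrib]
    refine sum_congr rfl fun v _ => ?_
    rw [map_add, map_mul, map_mul]
    ring

end taylor

section loc

variable {k : Type*} [Field k] {N : ℕ}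

/-- the local coordinates at the point `q` -/
noncomputable def xi (q : Fin N → k) (v : Fin N) : MvPolynomial (Fin N) k := X v - C (q v)

lemma xi_mem (q : Fin N → k) (v : Fin N) : xi q v ∈ RingHom.ker (eval q) := by
  rw [RingHom.mem_ker, xi, map_sub, eval_X, eval_C, sub_self]

lemma sub_eval_mem (q : Fin N → k) (f : MvPolynomial (Fin N) k) :
    f - C (eval q f) ∈ Ideal.span (Set.range (xi q)) := by
  induction f using MvPolynomial.induction_on with
  | C a => rw [eval_C, sub_self]; exact Ideal.zero_mem _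
  | add f g hf hg =>
    have : f + g - C (eval q (f + g)) = (f - C (eval q f)) + (g - C (eval q g)) := by
      rw [map_add, map_add]; ring
    rw [this]
    exact Ideal.add_mem _ hf hg
  | mul_X f i hf =>
    have : f * X i - C (eval q (f * X i)) = X i * (f - C (eval q f)) + C (eval q f) * xi q i := by
      rw [map_mul, eval_X, map_mul, xi]; ring
    rw [this]
    exact Ideal.add_mem _ (Ideal.mul_mem_left _ _ hf)
      (Ideal.mul_mem_left _ _ (Ideal.subset_span ⟨i, rfl⟩))

lemma ker_eq (q : Fin N → k) : RingHom.ker (eval q) = Ideal.span (Set.range (xi q)) := by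
  apply le_antisymm
  · intro f hf
    rw [RingHom.mem_ker] at hf
    have h := sub_eval_mem q f
    rwa [hf, map_zero, sub_zero] at h
  · rw [Ideal.span_le]
    rintro _ ⟨v, rfl⟩
    exact xi_mem q v

/-- Taylor formula of order one -/
lemma lin_mem (q : Fin N → k) (f : MvPolynomial (Fin N) k) :
    f - C (eval q f) - ∑ v, C (eval q (pderiv v f)) * xi q v ∈ RingHom.ker (eval q) ^ 2 := by
  induction f using MvPolynomial.induction_on with
  | C a =>
    rw [eval_C, sub_self, zero_sub, sum_eq_zero fun v _ => by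
      rw [pderiv_C, map_zero, map_zero, zero_mul], neg_zero]
    exact Ideal.zero_mem _
  | add f g hf hg =>
    have : f + g - C (eval q (f + g)) - ∑ v, C (eval q (pderiv v (f + g))) * xi q v =
        (f - C (eval q f) - ∑ v, C (eval q (pderiv v f)) * xi q v) +
          (g - C (eval q g) - ∑ v, C (eval q (pderiv v g)) * xi q v) := by
      simp only [map_add, add_mul, sum_add_distrib]
      ring
    rw [this]
    exact Ideal.add_mem _ hf hg
  | mul_X f i hf =>
    have e1 : ∑ v, C (eval q (pderiv v (f * X i))) * xi q v =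
        C (q i) * (∑ v, C (eval q (pderiv v f)) * xi q v) + C (eval q f) * xi q i := by
      have e2 : ∀ v, C (eval q (pderiv v (f * X i))) * xi q v =
          C (q i) * (C (eval q (pderiv v f)) * xi q v) +
            (if v = i then C (eval q f) * xi q i else 0) := by
        intro v
        rw [Derivation.leibniz, smul_eq_mul, smul_eq_mul, map_add, map_mul, map_mul, eval_X]
        by_cases h : v = i
        · subst h
          rw [pderiv_X_self, if_pos rfl, map_one, mul_one, map_add, map_mul]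
          ring
        · rw [pderiv_X_of_ne (Ne.symm h), if_neg h, map_zero, mul_zero, zero_add, map_mul]
          ring
      rw [sum_congr rfl fun v _ => e2 v, sum_add_distrib, mul_sum, sum_ite_eq', if_pos (mem_univ i)]
    have : f * X i - C (eval q (f * X i)) - ∑ v, C (eval q (pderiv v (f * X i))) * xi q v =
        C (q i) * (f - C (eval q f) - ∑ v, C (eval q (pderiv v f)) * xi q v) +
          (f - C (eval q f)) * xi q i := by
      rw [e1, map_mul, eval_X, map_mul]
      have : (X i : MvPolynomial (Fin N) k) = xi q i + C (q i) := by rw [xi]; ring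
      rw [this]
      ring
    rw [this]
    refine Ideal.add_mem _ (Ideal.mul_mem_left _ _ hf) ?_
    rw [pow_two]
    refine Ideal.mul_mem_mul ?_ (xi_mem q i)
    rw [ker_eq]
    exact sub_eval_mem q f

/-- Every vector is a gradient of an element of `P` at `q` which is tangent to `w`, plus a vector
supported on `S`. -/
theorem span (P : Ideal (MvPolynomial (Fin N) k)) (q w : Fin N → k)
    (S : Finset (Fin N)) (G : Set (MvPolynomial (Fin N) k)) (hGP : ∀ f ∈ G, f ∈ P)
    (hw : ∀ f ∈ G, dd q w f = 0)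
    (hS : ∀ y : Fin N → k, (∀ s ∈ S, y s = 0) → (∀ f ∈ G, dd q y f = 0) → y = 0)
    (b : Fin N → k) :
    ∃ f ∈ P, dd q w f = 0 ∧ ∃ c : Fin N → k, (∀ v, v ∉ S → c v = 0) ∧
      ∀ v, b v = eval q (pderiv v f) + c v := by
  let W : Submodule k (Fin N → k) :=
    { carrier := {b | ∃ f ∈ P, dd q w f = 0 ∧ ∃ c : Fin N → k, (∀ v, v ∉ S → c v = 0) ∧
        ∀ v, b v = eval q (pderiv v f) + c v}
      add_mem' := by
        rintro a b ⟨f, hf, hfw, c, hc, h⟩ ⟨f', hf', hfw', c', hc', h'⟩
        refine ⟨f + f', P.add_mem hf hf', by rw [map_add, hfw, hfw', add_zero], c + c',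
          fun v hv => ?_, fun v => ?_⟩
        · simp [hc v hv, hc' v hv]
        · rw [Pi.add_apply, h v, h' v, map_add, map_add, Pi.add_apply]; ring
      zero_mem' := ⟨0, P.zero_mem, map_zero _, 0, fun v _ => rfl, fun v => by simp⟩
      smul_mem' := by
        rintro a b ⟨f, hf, hfw, c, hc, h⟩
        refine ⟨C a * f, P.mul_mem_left _ hf, ?_, a • c, fun v hv => ?_, fun v => ?_⟩
        · rw [C_mul', map_smul, hfw, smul_zero]
        · rw [Pi.smul_apply, hc v hv, smul_zero]
        · rw [Pi.smul_apply, h v, pderiv_C_mul, map_mul, eval_C, Pi.smul_apply, smul_eq_mul,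
            smul_eq_mul]; ring }
  have hW : W = ⊤ := by
    by_contra hne
    obtain ⟨φ, hφ0, hφ⟩ := Submodule.exists_le_ker_of_lt_top W (lt_top_iff_ne_top.2 hne)
    apply hφ0
    have hφs : ∀ b : Fin N → k, φ b = ∑ v, b v * φ (Pi.single v 1) := by
      intro b
      conv_lhs => rw [pi_eq_sum_univ' b]
      rw [map_sum]
      refine Finset.sum_congr rfl fun v _ => ?_
      rw [map_smul, smul_eq_mul]
    have hy := hS (fun v => φ (Pi.single v 1)) (fun s hs => ?_) (fun f hf => ?_)
    · ext v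
      simpa using congrFun hy v
    · have : (Pi.single s 1 : Fin N → k) ∈ W := by
        refine ⟨0, P.zero_mem, map_zero _, Pi.single s 1, fun v hv => ?_, fun v => by simp⟩
        rw [Pi.single_apply, if_neg]
        rintro rfl
        exact hv hs
      exact hφ this
    · have : (fun v => eval q (pderiv v f)) ∈ W :=
        ⟨f, hGP f hf, hw f hf, 0, fun v _ => rfl, fun v => by simp⟩
      have h2 := hφ this
      rw [LinearMap.mem_ker, hφs] at h2
      rw [dd_apply]
      exact h2
  have : b ∈ W := by rw [hW]; trivial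
  exact this

/-- the relations of the coordinates modulo `I + M²` -/
lemma rel (P I : Ideal (MvPolynomial (Fin N) k)) (q w : Fin N → k)
    (S : Finset (Fin N)) (G : Set (MvPolynomial (Fin N) k)) (hGP : ∀ f ∈ G, f ∈ P)
    (hw : ∀ f ∈ G, dd q w f = 0)
    (hS : ∀ y : Fin N → k, (∀ s ∈ S, y s = 0) → (∀ f ∈ G, dd q y f = 0) → y = 0)
    (v0 : Fin N) (hPI : P ≤ I)
    (hlam : ∀ s ∈ S, xi q s - C (w s / w v0) * xi q v0 ∈ I) (hq0 : ∀ f ∈ P, eval q f = 0)
    (r : Fin N) :
    xi q r - C (w r / w v0) * xi q v0 ∈ I ⊔ RingHom.ker (eval q) ^ 2 := by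
  obtain ⟨f, hf, hfw, c, hc, hb⟩ := span P q w S G hGP hw hS (Pi.single r 1)
  have e1 : w r = ∑ v, c v * w v := by
    have h1 : w r = ∑ v, (Pi.single r 1 : Fin N → k) v * w v := by simp [Pi.single_apply]
    rw [h1]
    simp only [hb, add_mul, sum_add_distrib]
    rw [← dd_apply, hfw, zero_add]
  have e2 : xi q r = ∑ v, C (eval q (pderiv v f)) * xi q v + ∑ v, C (c v) * xi q v := by
    have h1 : xi q r = ∑ v, C ((Pi.single r 1 : Fin N → k) v) * xi q v := by
      rw [sum_eq_single r]
      · rw [Pi.single_eq_same, C_1, one_mul]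
      · intro v _ hv
        rw [Pi.single_eq_of_ne hv, C_0, zero_mul]
      · intro h
        exact absurd (mem_univ r) h
    rw [h1, ← sum_add_distrib]
    refine sum_congr rfl fun v _ => ?_
    rw [hb v, C_add, add_mul]
  have e3 : C (w r / w v0) * xi q v0 = ∑ v, C (c v) * (C (w v / w v0) * xi q v0) := by
    rw [e1, sum_div, map_sum, sum_mul]
    refine sum_congr rfl fun v _ => ?_
    rw [← mul_assoc, ← C_mul, mul_div_assoc]
  have e4 := lin_mem q f
  rw [hq0 f hf, C_0, sub_zero] at e4
  have e5 : xi q r - C (w r / w v0) * xi q v0 =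
      (f + ∑ v, C (c v) * (xi q v - C (w v / w v0) * xi q v0)) +
        -(f - ∑ v, C (eval q (pderiv v f)) * xi q v) := by
    simp only [mul_sub, sum_sub_distrib]
    rw [← e3]
    nth_rewrite 1 [e2]
    ring
  rw [e5]
  refine Submodule.add_mem_sup (I.add_mem (hPI hf) (I.sum_mem fun v _ => ?_))
    ((RingHom.ker (eval q) ^ 2).neg_mem e4)
  by_cases hv : v ∈ S
  · exact I.mul_mem_left _ (hlam v hv)
  · rw [hc v hv, C_0, zero_mul]
    exact I.zero_mem

lemma mul_rel (I : Ideal (MvPolynomial (Fin N) k)) (q w : Fin N → k) (v0 : Fin N)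
    (hrel : ∀ r, xi q r - C (w r / w v0) * xi q v0 ∈ I ⊔ RingHom.ker (eval q) ^ 2)
    (a b : Fin N) : xi q a * xi q b - C (w a * w b) * (C ((w v0)⁻¹ ^ 2) * (xi q v0 * xi q v0)) ∈
      I ⊔ RingHom.ker (eval q) ^ 3 := by
  have hmul : ∀ x ∈ I ⊔ RingHom.ker (eval q) ^ 2, ∀ y ∈ RingHom.ker (eval q),
      x * y ∈ I ⊔ RingHom.ker (eval q) ^ 3 := by
    intro x hx y hy
    have h1 := Ideal.mul_mem_mul hx hy
    rw [Ideal.sup_mul, ← pow_succ] at h1
    have h2 : I * RingHom.ker (eval q) ⊔ RingHom.ker (eval q) ^ (2 + 1) ≤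
        I ⊔ RingHom.ker (eval q) ^ 3 :=
      sup_le (le_trans (le_trans Ideal.mul_le_inf inf_le_left) le_sup_left) le_sup_right
    exact h2 h1
  have e : xi q a * xi q b - C (w a * w b) * (C ((w v0)⁻¹ ^ 2) * (xi q v0 * xi q v0)) =
      (xi q a - C (w a / w v0) * xi q v0) * xi q b +
        C (w a / w v0) * ((xi q b - C (w b / w v0) * xi q v0) * xi q v0) := by
    simp only [div_eq_mul_inv, C_mul, pow_two]
    ring
  rw [e]
  exact Ideal.add_mem _ (hmul _ (hrel a) _ (xi_mem q b))
    (Ideal.mul_mem_left _ _ (hmul _ (hrel b) _ (xi_mem q v0)))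

end loc

lemma perm_range {t : ℕ} {L : List ℕ} (h1 : L.length = t) (h2 : L.Nodup) (h3 : ∀ c ∈ L, c < t) :
    L.Perm (List.range t) := by
  apply List.perm_of_nodup_nodup_toFinset_eq h2 List.nodup_range
  rw [List.toFinset_range]
  apply Finset.eq_of_subset_of_card_le
  · intro c hc
    rw [List.mem_toFinset] at hc
    exact mem_range.2 (h3 c hc)
  · rw [card_range, List.toFinset_card_of_nodup h2, h1]

/-- **T1** -/
theorem t (k : Type*) [Field k] (hTC : StmTC k) : StmT1 k := by
  classical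
  intro n t ht htn q hV S hS hy w hw A c Js hJs hlin hquad N h hP
  have hn : 0 < n := by omega
  have ht0 : 0 < t := by omega
  have hJN : ∀ J : Finset ℕ, (∀ j ∈ J, j < n) → ∀ j ∈ J, ∀ c ∈ List.range t, j + c < N := by
    intro J hJ j hj c hc
    have h1 := hJ j hj
    rw [List.mem_range] at hc
    omega
  obtain ⟨q', hq'⟩ : ∃ q' : Fin N → k, q' = fun v : Fin N => q v := ⟨_, rfl⟩
  obtain ⟨w', hw'⟩ : ∃ w' : Fin N → k, w' = fun v : Fin N => w v := ⟨_, rfl⟩
  obtain ⟨P, hPd⟩ : ∃ P, P = permIdeal t (vm k (hk h)) := ⟨_, rfl⟩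
  have hJB := HP.JB.t k N n t t h ht htn le_rfl hP
  rw [← hPd] at hP hJB
  -- `P` vanishes at `q`
  have h1 : ∀ f ∈ P, eval q' f = 0 := by
    have h2 : P ≤ RingHom.ker (eval q') := by
      rw [hPd]
      apply Pool.Agent.R831.PermIdeal.permIdeal_le_ker
      intro r c
      have e1 : ((vm k (hk h)).map (eval q')).submatrix r c =
          Matrix.of fun i j : Fin t => q ((fun i => (r i).val) i + (fun j => (c j).val) j) := by
        ext1 i j
        simp only [Matrix.submatrix_apply, Matrix.map_apply, vm, Matrix.of_apply, eval_X, hq', hk]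
      rw [e1, Pool.Agent.N186.HK.permanent_eq_pm q t (fun i => (r i).val)
        (Fin.val_injective.comp r.injective) (fun j => (c j).val)]
      rw [(HP.BA.ta k).1 q _ (List.range t) (perm_range (List.length_ofFn) (by
        rw [List.nodup_ofFn]
        exact Fin.val_injective.comp c.injective) (by
        intro j hj
        rw [List.mem_ofFn] at hj
        obtain ⟨i, rfl⟩ := hj
        exact (c i).isLt))]
      apply hV
      · refine (Finset.card_image_of_injective _ (Fin.val_injective.comp r.injective)).trans ?_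
        rw [card_univ, Fintype.card_fin]
      · intro j hj
        rw [Finset.mem_image] at hj
        obtain ⟨i, -, rfl⟩ := hj
        exact (r i).isLt
    intro f hf
    exact h2 hf
  obtain ⟨S', hS'⟩ : ∃ S' : Finset (Fin N), S' = univ.filter fun v : Fin N => (v : ℕ) ∈ S := ⟨_, rfl⟩
  have hcard : S'.card ≤ t := by
    refine le_trans ?_ hS
    rw [← Finset.card_image_of_injective S' Fin.val_injective]
    apply Finset.card_le_card
    intro v hv
    rw [Finset.mem_image] at hv
    obtain ⟨w, hw, rfl⟩ := hv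
    rw [hS', Finset.mem_filter] at hw
    exact hw.2
  obtain ⟨G, hG⟩ : ∃ G : Set (MvPolynomial (Fin N) k), G = {f | ∃ J : Finset ℕ, J.card = t ∧
    (∀ j ∈ J, j < n) ∧ f = pm (zz k (hk h)) J (List.range t)} := ⟨_, rfl⟩
  have hfP : ∀ J : Finset ℕ, J.card = t → (∀ j ∈ J, j < n) →
      pm (zz k (hk h)) J (List.range t) ∈ P := by
    intro J hJ1 hJ2
    rw [hPd]
    exact pm_mem (k := k) (isHankel_hk h) hJ1 List.length_range hJ2
      (fun c hc => List.mem_range.1 hc) List.nodup_range
  have hGP : ∀ f ∈ G, f ∈ P := by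
    intro f hf
    rw [hG] at hf
    obtain ⟨J, hJ1, hJ2, rfl⟩ := hf
    exact hfP J hJ1 hJ2
  have hddG : ∀ (y : Fin N → k) (J : Finset ℕ), (∀ j ∈ J, j < n) →
      dd q' y (pm (zz k (hk h)) J (List.range t)) = pd q (ext0 y) J (List.range t) := by
    intro y J hJ
    rw [hq']
    exact dd_pm h hn ht0 q y _ J (hJN J hJ)
  have hwG : ∀ f ∈ G, dd q' w' f = 0 := by
    intro f hf
    rw [hG] at hf
    obtain ⟨J, hJ1, hJ2, rfl⟩ := hf
    rw [hddG w' J hJ2, pd_congr q (y' := w) _ J ?_]
    · exact hw J hJ1 hJ2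
    · intro i hi c hc
      rw [ext0_of w' (hJN J hJ2 i hi c hc), hw']
  have hSG : ∀ y : Fin N → k, (∀ s ∈ S', y s = 0) → (∀ f ∈ G, dd q' y f = 0) → y = 0 := by
    intro y hy0 hy1
    have h4 := hy (ext0 y) ?_ ?_
    · funext v
      have hv := v.isLt
      have h5 := h4 v (by omega)
      rw [ext0_of y v.isLt] at h5
      exact h5
    · intro s hs
      by_cases hsN : s < N
      · rw [ext0_of y hsN]
        apply hy0
        rw [hS', Finset.mem_filter]
        exact ⟨mem_univ _, hs⟩
      · exact dif_neg hsN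
    · intro J hJ1 hJ2
      rw [← hddG y J hJ2]
      apply hy1
      rw [hG]
      exact ⟨J, hJ1, hJ2, rfl⟩
  obtain ⟨v0, hv0S, hv0⟩ : ∃ v0 ∈ S', w' v0 ≠ 0 := by
    by_contra hcon
    push Not at hcon
    have hw0 : w' = 0 := hSG w' hcon hwG
    apply hquad
    refine sum_eq_zero fun a ha => ?_
    rw [pq_congr q (y' := fun _ => 0) _ (Js a) ?_, pq_zero, mul_zero]
    intro i hi c hc
    have h2 := congrFun hw0 ⟨i + c, hJN (Js a) (hJs a ha).2 i hi c hc⟩
    rw [hw'] at h2
    exact h2
  -- the linear forms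
  obtain ⟨lam, hlam⟩ : ∃ lam : Fin (S'.erase v0).card → MvPolynomial (Fin N) k,
    lam = fun i => xi q' ((S'.erase v0).equivFin.symm i : Fin N) -
      C (w' ((S'.erase v0).equivFin.symm i : Fin N) / w' v0) * xi q' v0 := ⟨_, rfl⟩
  have hlam0 : ∀ i, eval q' (lam i) = 0 := by
    intro i
    rw [hlam]
    have e1 := xi_mem q' ((S'.erase v0).equivFin.symm i : Fin N)
    have e2 := xi_mem q' v0
    rw [RingHom.mem_ker] at e1 e2
    simp only [map_sub, map_mul, e1, e2, mul_zero, sub_zero]
  obtain ⟨I, hI⟩ : ∃ I, I = P ⊔ Ideal.span (Set.range lam) := ⟨_, rfl⟩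
  have hPI : P ≤ I := by rw [hI]; exact le_sup_left
  have hlamI : ∀ s ∈ S', xi q' s - C (w' s / w' v0) * xi q' v0 ∈ I := by
    intro s hs
    by_cases hsv : s = v0
    · rw [hsv, div_self hv0, C_1, one_mul, sub_self]
      exact I.zero_mem
    · rw [hI]
      refine Submodule.mem_sup_right (Ideal.subset_span
        ⟨(S'.erase v0).equivFin ⟨s, mem_erase.2 ⟨hsv, hs⟩⟩, ?_⟩)
      rw [hlam]
      simp only [Equiv.symm_apply_apply]
  have hrel := rel P I q' w' S' G hGP hwG hSG v0 hPI hlamI h1
  have hmul := mul_rel I q' w' v0 hrel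
  -- the quotient
  obtain ⟨B, hB⟩ : ∃ B, B = I ⊔ RingHom.ker (eval q') ^ 3 := ⟨_, rfl⟩
  rw [← hB] at hmul
  obtain ⟨φ, hφ⟩ : ∃ φ : MvPolynomial (Fin N) k →+* MvPolynomial (Fin N) k ⧸ B,
    φ = Ideal.Quotient.mk B := ⟨_, rfl⟩
  have hφ0 : ∀ f, φ f = 0 ↔ f ∈ B := by
    intro f
    rw [hφ]
    exact Ideal.Quotient.eq_zero_iff_mem
  obtain ⟨τ, hτ⟩ : ∃ τ, τ = φ (C ((w' v0)⁻¹ ^ 2) * (xi q' v0 * xi q' v0)) := ⟨_, rfl⟩
  have hxy : ∀ a b : Fin N, φ (xi q' a) * φ (xi q' b) =
      τ * (φ (C (w' a)) * φ (C (w' b))) := by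
    intro a b
    have h2 := (hφ0 _).2 (hmul a b)
    rw [map_sub, map_mul, map_mul φ (C (w' a * w' b)), ← hτ, sub_eq_zero] at h2
    rw [h2, C_mul, map_mul]
    ring
  obtain ⟨y, hyd⟩ : ∃ y : ℕ → MvPolynomial (Fin N) k ⧸ B,
    y = fun v => if hv : v < N then φ (xi q' ⟨v, hv⟩) else 0 := ⟨_, rfl⟩
  obtain ⟨w₀, hw₀⟩ : ∃ w₀ : ℕ → k, w₀ = fun v => if v < N then w v else 0 := ⟨_, rfl⟩
  have hyy : ∀ a b, y a * y b = τ * ((φ.comp C) (w₀ a) * (φ.comp C) (w₀ b)) := by
    intro a b
    rw [hyd, hw₀]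
    by_cases ha : a < N
    · by_cases hb : b < N
      · simp only [dif_pos ha, dif_pos hb, if_pos ha, if_pos hb]
        rw [hxy, hw']
        rfl
      · simp only [dif_neg hb, if_neg hb, mul_zero, map_zero]
    · simp only [dif_neg ha, if_neg ha, zero_mul, map_zero, mul_zero]
  have h3 : ∀ a b c, y a * y b * y c = 0 := by
    intro a b c
    rw [hyd]
    by_cases ha : a < N
    · by_cases hb : b < N
      · by_cases hc : c < N
        · simp only [dif_pos ha, dif_pos hb, dif_pos hc]
          rw [← map_mul, ← map_mul, hφ0, hB]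
          refine Submodule.mem_sup_right ?_
          rw [pow_succ, pow_two]
          exact Ideal.mul_mem_mul (Ideal.mul_mem_mul (xi_mem q' _) (xi_mem q' _)) (xi_mem q' _)
        · simp only [dif_neg hc, mul_zero]
      · simp only [dif_neg hb, mul_zero, zero_mul]
    · simp only [dif_neg ha, zero_mul]
  have hJ : ∀ a ∈ A, pd (fun v => (φ.comp C) (q v)) y (Js a) (List.range t) +
      τ * (φ.comp C) (pq q w (Js a) (List.range t)) = 0 := by
    intro a ha
    obtain ⟨hJ1, hJ2⟩ := hJs a ha
    have e1 : φ (pm (zz k (hk h)) (Js a) (List.range t)) = 0 := by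
      rw [hφ0, hB]
      exact Submodule.mem_sup_left (hPI (hfP _ hJ1 hJ2))
    rw [pm_map, pm_congr (y := fun v => (φ.comp C) (q v) + y v) (List.range t) (Js a) ?_,
      taylor _ _ h3, ← pm_map (φ.comp C), hV _ hJ1 hJ2, map_zero, zero_add,
      pq_quad _ y _ τ hyy, ← pq_map (φ.comp C) q w₀] at e1
    · rw [← e1, pq_congr q (y' := w₀)]
      intro i hi c hc
      rw [hw₀]
      simp only [if_pos (hJN _ hJ2 i hi c hc)]
    · intro i hi c hc
      have hN := hJN _ hJ2 i hi c hc
      rw [zz_hk h hn ht0 hN, hyd]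
      simp only [dif_pos hN]
      rw [RingHom.comp_apply, ← map_add, xi, hq']
      congr 1
      ring
  have hsum : ∑ a ∈ A, (φ.comp C) (c a) *
      (pd (fun v => (φ.comp C) (q v)) y (Js a) (List.range t) +
      τ * (φ.comp C) (pq q w (Js a) (List.range t))) = 0 :=
    sum_eq_zero fun a ha => by rw [hJ a ha, mul_zero]
  simp only [mul_add, sum_add_distrib] at hsum
  have hs1 : ∑ a ∈ A, (φ.comp C) (c a) *
      pd (fun v => (φ.comp C) (q v)) y (Js a) (List.range t) = 0 := by
    have e1 : ∀ a ∈ A, (φ.comp C) (c a) *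
        pd (fun v => (φ.comp C) (q v)) y (Js a) (List.range t) =
        ∑ v ∈ range N, y v * (φ.comp C) (c a *
          pd q (fun u => if u = v then 1 else 0) (Js a) (List.range t)) := by
      intro a ha
      rw [pd_lin N (φ.comp C) q y _ (Js a) (hJN _ (hJs a ha).2), mul_sum]
      refine sum_congr rfl fun v _ => ?_
      rw [map_mul]
      ring
    rw [sum_congr rfl e1, sum_comm]
    refine sum_eq_zero fun v _ => ?_
    rw [← mul_sum, ← map_sum, hlin, map_zero, mul_zero]
  have hs2 : ∑ a ∈ A, (φ.comp C) (c a) * (τ * (φ.comp C) (pq q w (Js a) (List.range t))) =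
      τ * (φ.comp C) (∑ a ∈ A, c a * pq q w (Js a) (List.range t)) := by
    rw [map_sum, mul_sum]
    refine sum_congr rfl fun a _ => ?_
    rw [map_mul]
    ring
  rw [hs1, hs2, zero_add] at hsum
  have hτ0 : τ = 0 := by
    have e1 : τ = τ * (φ.comp C) (∑ a ∈ A, c a * pq q w (Js a) (List.range t)) *
        (φ.comp C) (∑ a ∈ A, c a * pq q w (Js a) (List.range t))⁻¹ := by
      rw [mul_assoc, ← map_mul, mul_inv_cancel₀ hquad, map_one, mul_one]
    rw [e1, hsum, zero_mul]
  have hMB : RingHom.ker (eval q') ^ 2 ≤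
      P ⊔ Ideal.span (Set.range lam) ⊔ RingHom.ker (eval q') ^ (2 + 1) := by
    rw [← hI]
    show _ ≤ I ⊔ RingHom.ker (eval q') ^ 3
    rw [← hB, pow_two, ker_eq, Ideal.span_mul_span', Ideal.span_le]
    rintro _ ⟨_, ⟨a, rfl⟩, _, ⟨b, rfl⟩, rfl⟩
    show xi q' a * xi q' b ∈ B
    rw [← hφ0, map_mul, hxy, hτ0, zero_mul]
  have h5 := hTC N P hP q' h1 _ lam hlam0 2 hMB
  have h6 := hJB.trans h5
  have h7 : t ≤ (S'.erase v0).card := by exact_mod_cast h6
  rw [card_erase_of_mem hv0S] at h7
  omega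

end Pool.Agent.N729.HQ.T1a
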