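import Pool.Agent.N729.HQ.Stm

/-!
Project HQ, part T2 (copy a): the criterion with two quadrics, from TC. By helper426.
-/

set_option autoImplicit false

namespace Pool.Agent.N729.HQ.T2a

open Finset MvPolynomial
open Pool.Agent.N186.HK (pm vm IsHankel zz pm_map pm_congr pm_nil pm_cons pm_mem permanent_eq_pm)
open Pool.Agent.R831.PermIdeal (permIdeal permIdeal_le_ker)
open Pool.Agent.N729.HP

section gen

variable {D : Type*} [CommRing D]

lemma pd_nil (x y : ℕ → D) (J : Finset ℕ) : pd x y J [] = 0 := by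
  unfold pd; rfl

lemma pd_cons (x y : ℕ → D) (J : Finset ℕ) (c : ℕ) (L : List ℕ) : pd x y J (c :: L) =
    ∑ j ∈ J, (y (j + c) * pm x (J.erase j) L + x (j + c) * pd x y (J.erase j) L) := by
  rw [pd]

lemma pq_nil (x y : ℕ → D) (J : Finset ℕ) : pq x y J [] = 0 := by
  unfold pq; rfl

lemma pq_cons (x y : ℕ → D) (J : Finset ℕ) (c : ℕ) (L : List ℕ) : pq x y J (c :: L) =
    ∑ j ∈ J, (y (j + c) * pd x y (J.erase j) L + x (j + c) * pq x y (J.erase j) L) := by
  rw [pq]

/-- the polar form of `pq` -/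
def pb (x y y' : ℕ → D) : Finset ℕ → List ℕ → D
  | _, [] => 0
  | J, c :: L => ∑ j ∈ J, (y (j + c) * pd x y' (J.erase j) L + y' (j + c) * pd x y (J.erase j) L +
      x (j + c) * pb x y y' (J.erase j) L)

lemma pb_nil (x y y' : ℕ → D) (J : Finset ℕ) : pb x y y' J [] = 0 := by
  unfold pb; rfl

lemma pb_cons (x y y' : ℕ → D) (J : Finset ℕ) (c : ℕ) (L : List ℕ) : pb x y y' J (c :: L) =
    ∑ j ∈ J, (y (j + c) * pd x y' (J.erase j) L + y' (j + c) * pd x y (J.erase j) L +
      x (j + c) * pb x y y' (J.erase j) L) := by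
  rw [pb]

lemma pd_add (x y y' : ℕ → D) (L : List ℕ) : ∀ J : Finset ℕ,
    pd x (fun v => y v + y' v) J L = pd x y J L + pd x y' J L := by
  induction L with
  | nil => intro J; rw [pd_nil, pd_nil, pd_nil, add_zero]
  | cons c L ih =>
    intro J
    rw [pd_cons, pd_cons, pd_cons, ← sum_add_distrib]
    refine sum_congr rfl fun j _ => ?_
    rw [ih]
    ring

lemma pd_smul (x y : ℕ → D) (a : D) (L : List ℕ) : ∀ J : Finset ℕ,
    pd x (fun v => a * y v) J L = a * pd x y J L := by
  induction L with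
  | nil => intro J; rw [pd_nil, pd_nil, mul_zero]
  | cons c L ih =>
    intro J
    rw [pd_cons, pd_cons, mul_sum]
    refine sum_congr rfl fun j _ => ?_
    rw [ih]
    ring

lemma pq_add (x y y' : ℕ → D) (L : List ℕ) : ∀ J : Finset ℕ,
    pq x (fun v => y v + y' v) J L = pq x y J L + pb x y y' J L + pq x y' J L := by
  induction L with
  | nil => intro J; rw [pq_nil, pq_nil, pq_nil, pb_nil]; ring
  | cons c L ih =>
    intro J
    rw [pq_cons, pq_cons, pq_cons, pb_cons, ← sum_add_distrib, ← sum_add_distrib]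
    refine sum_congr rfl fun j _ => ?_
    rw [ih, pd_add]
    ring

lemma pq_smul (x y : ℕ → D) (a : D) (L : List ℕ) : ∀ J : Finset ℕ,
    pq x (fun v => a * y v) J L = a ^ 2 * pq x y J L := by
  induction L with
  | nil => intro J; rw [pq_nil, pq_nil, mul_zero]
  | cons c L ih =>
    intro J
    rw [pq_cons, pq_cons, mul_sum]
    refine sum_congr rfl fun j _ => ?_
    rw [ih, pd_smul]
    ring

lemma pb_smul (x y y' : ℕ → D) (a b : D) (L : List ℕ) : ∀ J : Finset ℕ,
    pb x (fun v => a * y v) (fun v => b * y' v) J L = a * b * pb x y y' J L := by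
  induction L with
  | nil => intro J; rw [pb_nil, pb_nil, mul_zero]
  | cons c L ih =>
    intro J
    rw [pb_cons, pb_cons, mul_sum]
    refine sum_congr rfl fun j _ => ?_
    rw [ih, pd_smul, pd_smul]
    ring

lemma pd_mem (I : Ideal D) (x y : ℕ → D) (L : List ℕ) : ∀ J : Finset ℕ,
    (∀ j ∈ J, ∀ c ∈ L, y (j + c) ∈ I) → pd x y J L ∈ I := by
  induction L with
  | nil => intro J _; rw [pd_nil]; exact I.zero_mem
  | cons c L ih =>
    intro J h
    rw [pd_cons]
    refine sum_mem fun j hj => ?_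
    refine I.add_mem (I.mul_mem_right _ (h j hj c List.mem_cons_self)) (I.mul_mem_left _ ?_)
    exact ih _ fun i hi d hd => h i (mem_of_mem_erase hi) d (List.mem_cons_of_mem _ hd)

lemma pq_mem (I : Ideal D) (x y : ℕ → D) (L : List ℕ) : ∀ J : Finset ℕ,
    (∀ j ∈ J, ∀ c ∈ L, y (j + c) ∈ I) → pq x y J L ∈ I ^ 2 := by
  induction L with
  | nil => intro J _; rw [pq_nil]; exact (I ^ 2).zero_mem
  | cons c L ih =>
    intro J h
    rw [pq_cons]
    refine sum_mem fun j hj => ?_
    have h' : ∀ i ∈ J.erase j, ∀ d ∈ L, y (i + d) ∈ I := fun i hi d hd =>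
      h i (mem_of_mem_erase hi) d (List.mem_cons_of_mem _ hd)
    refine (I ^ 2).add_mem ?_ ((I ^ 2).mul_mem_left _ (ih _ h'))
    rw [pow_two]
    exact Ideal.mul_mem_mul (h j hj c List.mem_cons_self) (pd_mem I x y L _ h')

lemma pb_mem (I I' : Ideal D) (x y y' : ℕ → D) (L : List ℕ) : ∀ J : Finset ℕ,
    (∀ j ∈ J, ∀ c ∈ L, y (j + c) ∈ I) → (∀ j ∈ J, ∀ c ∈ L, y' (j + c) ∈ I') →
    pb x y y' J L ∈ I * I' := by
  induction L with
  | nil => intro J _ _; rw [pb_nil]; exact (I * I').zero_mem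
  | cons c L ih =>
    intro J h g
    rw [pb_cons]
    refine sum_mem fun j hj => ?_
    have h' : ∀ i ∈ J.erase j, ∀ d ∈ L, y (i + d) ∈ I := fun i hi d hd =>
      h i (mem_of_mem_erase hi) d (List.mem_cons_of_mem _ hd)
    have g' : ∀ i ∈ J.erase j, ∀ d ∈ L, y' (i + d) ∈ I' := fun i hi d hd =>
      g i (mem_of_mem_erase hi) d (List.mem_cons_of_mem _ hd)
    refine (I * I').add_mem ((I * I').add_mem ?_ ?_) ((I * I').mul_mem_left _ (ih _ h' g'))
    · exact Ideal.mul_mem_mul (h j hj c List.mem_cons_self) (pd_mem I' x y' L _ g')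
    · rw [mul_comm I I']
      exact Ideal.mul_mem_mul (g j hj c List.mem_cons_self) (pd_mem I x y L _ h')

/-- the expansion of order two -/
lemma taylor (I : Ideal D) (x z : ℕ → D) (L : List ℕ) : ∀ J : Finset ℕ,
    (∀ j ∈ J, ∀ c ∈ L, z (j + c) ∈ I) →
    pm (fun v => x v + z v) J L - pm x J L - pd x z J L - pq x z J L ∈ I ^ 3 := by
  induction L with
  | nil =>
    intro J _
    rw [pm_nil, pm_nil, pd_nil, pq_nil]
    simp
  | cons c L ih =>
    intro J h
    rw [pm_cons, pm_cons, pd_cons, pq_cons, ← sum_sub_distrib, ← sum_sub_distrib,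
      ← sum_sub_distrib]
    refine sum_mem fun j hj => ?_
    have h' : ∀ i ∈ J.erase j, ∀ d ∈ L, z (i + d) ∈ I := fun i hi d hd =>
      h i (mem_of_mem_erase hi) d (List.mem_cons_of_mem _ hd)
    have e : (x (j + c) + z (j + c)) * pm (fun v => x v + z v) (J.erase j) L -
        x (j + c) * pm x (J.erase j) L -
        (z (j + c) * pm x (J.erase j) L + x (j + c) * pd x z (J.erase j) L) -
        (z (j + c) * pd x z (J.erase j) L + x (j + c) * pq x z (J.erase j) L) =
        (x (j + c) + z (j + c)) * (pm (fun v => x v + z v) (J.erase j) L - pm x (J.erase j) L -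
          pd x z (J.erase j) L - pq x z (J.erase j) L) + z (j + c) * pq x z (J.erase j) L := by
      ring
    rw [e]
    refine (I ^ 3).add_mem ((I ^ 3).mul_mem_left _ (ih _ h')) ?_
    rw [pow_succ' I 2]
    exact Ideal.mul_mem_mul (h j hj c List.mem_cons_self) (pq_mem I x z L _ h')

lemma pd_map {S : Type*} [CommRing S] (f : D →+* S) (x y : ℕ → D) (L : List ℕ) :
    ∀ J : Finset ℕ, f (pd x y J L) = pd (fun v => f (x v)) (fun v => f (y v)) J L := by
  induction L with
  | nil => intro J; rw [pd_nil, pd_nil, map_zero]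
  | cons c L ih =>
    intro J
    rw [pd_cons, pd_cons, map_sum]
    refine sum_congr rfl fun j _ => ?_
    rw [map_add, map_mul, map_mul, ih, pm_map]

lemma pq_map {S : Type*} [CommRing S] (f : D →+* S) (x y : ℕ → D) (L : List ℕ) :
    ∀ J : Finset ℕ, f (pq x y J L) = pq (fun v => f (x v)) (fun v => f (y v)) J L := by
  induction L with
  | nil => intro J; rw [pq_nil, pq_nil, map_zero]
  | cons c L ih =>
    intro J
    rw [pq_cons, pq_cons, map_sum]
    refine sum_congr rfl fun j _ => ?_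
    rw [map_add, map_mul, map_mul, ih, pd_map]

/-- the coefficients of the derivative -/
lemma pd_lin {k A : Type*} [CommRing k] [CommRing A] (f : k →+* A) {N : ℕ} (q : ℕ → k)
    (y : ℕ → A) (L : List ℕ) : ∀ J : Finset ℕ, (∀ j ∈ J, ∀ c ∈ L, j + c < N) →
    pd (fun v => f (q v)) y J L =
      ∑ v : Fin N, f (pd q (Pi.single (v : ℕ) 1) J L) * y v := by
  induction L with
  | nil =>
    intro J _
    rw [pd_nil]
    refine (sum_eq_zero fun v _ => ?_).symm
    rw [pd_nil, map_zero, zero_mul]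
  | cons c L ih =>
    intro J h
    have e : ∀ v : Fin N, f (pd q (Pi.single (v : ℕ) 1) J (c :: L)) * y v =
        ∑ j ∈ J, ((if (v : ℕ) = j + c then pm (fun v => f (q v)) (J.erase j) L * y v else 0) +
          f (q (j + c)) * (f (pd q (Pi.single (v : ℕ) 1) (J.erase j) L) * y v)) := by
      intro v
      rw [pd_cons, map_sum, sum_mul]
      refine sum_congr rfl fun j _ => ?_
      rw [map_add, map_mul, map_mul, add_mul, mul_assoc (f (q (j + c))), ← pm_map f]
      congr 1
      rw [Pi.single_apply]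
      by_cases hv : (v : ℕ) = j + c
      · rw [if_pos hv, if_pos hv.symm, map_one, one_mul]
      · rw [if_neg hv, if_neg (fun h => hv h.symm), map_zero, zero_mul, zero_mul]
    rw [sum_congr rfl fun v _ => e v, sum_comm, pd_cons]
    refine sum_congr rfl fun j hj => ?_
    have hN : j + c < N := h j hj c List.mem_cons_self
    rw [sum_add_distrib, ← mul_sum, ← ih (J.erase j) fun i hi d hd =>
      h i (mem_of_mem_erase hi) d (List.mem_cons_of_mem _ hd)]
    congr 1
    rw [sum_eq_single (⟨j + c, hN⟩ : Fin N)]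
    · rw [if_pos rfl, mul_comm]
    · intro v _ hv
      rw [if_neg]
      intro h2
      exact hv (Fin.ext h2)
    · intro h2
      exact absurd (mem_univ _) h2

end gen

section alg

variable {k : Type*} [Field k]

lemma ker_eval {N : ℕ} (q : Fin N → k) : RingHom.ker (eval q) =
    Ideal.span (Set.range fun v : Fin N => (X v - C (q v) : MvPolynomial (Fin N) k)) := by
  apply le_antisymm
  · intro f hf
    have h : ∀ g : MvPolynomial (Fin N) k, g - C (eval q g) ∈
        Ideal.span (Set.range fun v : Fin N => (X v - C (q v) : MvPolynomial (Fin N) k)) := by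
      intro g
      induction g using MvPolynomial.induction_on with
      | C a => rw [eval_C, sub_self]; exact Ideal.zero_mem _
      | add f g hf hg =>
        have e : f + g - C (eval q (f + g)) = (f - C (eval q f)) + (g - C (eval q g)) := by
          rw [map_add, map_add]; ring
        rw [e]; exact Ideal.add_mem _ hf hg
      | mul_X f v hf =>
        have e : f * X v - C (eval q (f * X v)) =
            X v * (f - C (eval q f)) + C (eval q f) * (X v - C (q v)) := by
          rw [map_mul, eval_X, map_mul]; ring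
        rw [e]
        exact Ideal.add_mem _ (Ideal.mul_mem_left _ _ hf)
          (Ideal.mul_mem_left _ _ (Ideal.subset_span ⟨v, rfl⟩))
    have h2 := h f
    rwa [RingHom.mem_ker.1 hf, map_zero, sub_zero] at h2
  · rw [Ideal.span_le]
    rintro _ ⟨v, rfl⟩
    rw [SetLike.mem_coe, RingHom.mem_ker, map_sub, eval_X, eval_C, sub_self]

lemma cube_zero {A : Type*} [CommRing A] (m : Ideal A) (h4 : m ^ 4 = ⊥) (α β : A) (hα : α ∈ m)
    (hβ : β ∈ m) (hm : m ≤ Ideal.span {α, β} ⊔ m ^ 2) (ha : α ^ 2 ∈ m ^ 3) (g : A)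
    (hb : β ^ 2 - g * (α * β) ∈ m ^ 3) : m ^ 3 = ⊥ := by
  have p4 : ∀ x ∈ m, ∀ y ∈ m ^ 3, x * y = 0 := by
    intro x hx y hy
    have h := Ideal.mul_mem_mul hx hy
    have e : m * m ^ 3 = m ^ 4 := by ring
    rwa [e, h4, Ideal.mem_bot] at h
  have p22 : ∀ x ∈ m ^ 2, ∀ y ∈ m, ∀ z ∈ m, x * y * z = 0 := by
    intro x hx y hy z hz
    have h := Ideal.mul_mem_mul (Ideal.mul_mem_mul hx hy) hz
    have e : m ^ 2 * m * m = m ^ 4 := by ring
    rwa [e, h4, Ideal.mem_bot] at h
  have e1 := p4 α hα _ ha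
  have e2 := p4 β hβ _ ha
  have e3 := p4 α hα _ hb
  have e4 := p4 β hβ _ hb
  have e3' : α * β ^ 2 = 0 := by linear_combination e3 + g * e2
  have e4' : β ^ 3 = 0 := by linear_combination e4 + g * e3'
  have hs : ∀ x ∈ Ideal.span {α, β}, ∀ y ∈ Ideal.span {α, β}, ∀ z ∈ Ideal.span {α, β},
      x * y * z = 0 := by
    intro x hx y hy z hz
    obtain ⟨a₁, b₁, rfl⟩ := Ideal.mem_span_pair.1 hx
    obtain ⟨a₂, b₂, rfl⟩ := Ideal.mem_span_pair.1 hy
    obtain ⟨a₃, b₃, rfl⟩ := Ideal.mem_span_pair.1 hz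
    linear_combination (a₁ * a₂ * a₃) * e1 + (a₁ * a₂ * b₃ + a₁ * b₂ * a₃ + b₁ * a₂ * a₃) * e2 +
      (a₁ * b₂ * b₃ + b₁ * a₂ * b₃ + b₁ * b₂ * a₃) * e3' + (b₁ * b₂ * b₃) * e4'
  have hsm : Ideal.span {α, β} ≤ m := by
    rw [Ideal.span_le]
    intro x hx
    rcases hx with rfl | hx
    · exact hα
    · rw [Set.mem_singleton_iff] at hx
      rw [hx]; exact hβ
  have key : ∀ x ∈ m, ∀ y ∈ m, ∀ z ∈ m, x * y * z = 0 := by
    intro x hx y hy z hz
    obtain ⟨x₁, hx₁, x₂, hx₂, rfl⟩ := Submodule.mem_sup.1 (hm hx)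
    obtain ⟨y₁, hy₁, y₂, hy₂, rfl⟩ := Submodule.mem_sup.1 (hm hy)
    obtain ⟨z₁, hz₁, z₂, hz₂, rfl⟩ := Submodule.mem_sup.1 (hm hz)
    have f1 := p22 x₂ hx₂ _ hy _ hz
    have f2 := p22 y₂ hy₂ x₁ (hsm hx₁) _ hz
    have f3 := p22 z₂ hz₂ x₁ (hsm hx₁) y₁ (hsm hy₁)
    have f4 := hs x₁ hx₁ y₁ hy₁ z₁ hz₁
    linear_combination f1 + f2 + f3 + f4
  rw [eq_bot_iff]
  have e : m ^ 3 = m * m * m := by ring
  rw [e, Ideal.mul_le]
  intro r hr z hz
  rw [Ideal.mem_bot]
  refine Submodule.mul_induction_on hr (fun x hx y hy => key x hx y hy z hz) ?_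
  intro a b ha hb
  rw [add_mul, ha, hb, add_zero]

/-- double annihilator -/
lemma double_ann {N : ℕ} {A : Type*} [CommRing A] [Algebra k A] (z : ℕ → A) (I : Ideal A)
    (w₁ w₂ : ℕ → k)
    (h : ∀ y : Fin N → k, (∀ b : Fin N → k, ∑ v : Fin N, algebraMap k A (b v) * z v ∈ I →
      ∑ v, b v * y v = 0) → ∃ a c : k, ∀ v : Fin N, y v = a * w₁ v + c * w₂ v)
    (b : Fin N → k) (h1 : ∑ v : Fin N, b v * w₁ v = 0) (h2 : ∑ v : Fin N, b v * w₂ v = 0) :
    ∑ v : Fin N, algebraMap k A (b v) * z v ∈ I := by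
  let W : Submodule k (Fin N → k) :=
    { carrier := {b | ∑ v : Fin N, algebraMap k A (b v) * z v ∈ I}
      add_mem' := by
        intro a b ha hb
        have e : ∑ v : Fin N, algebraMap k A ((a + b) v) * z v =
            ∑ v : Fin N, algebraMap k A (a v) * z v + ∑ v : Fin N, algebraMap k A (b v) * z v := by
          rw [← sum_add_distrib]
          refine sum_congr rfl fun v _ => ?_
          rw [Pi.add_apply, map_add, add_mul]
        show ∑ v : Fin N, algebraMap k A ((a + b) v) * z v ∈ I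
        rw [e]
        exact I.add_mem ha hb
      zero_mem' := by
        show ∑ v : Fin N, algebraMap k A ((0 : Fin N → k) v) * z v ∈ I
        have e : ∑ v : Fin N, algebraMap k A ((0 : Fin N → k) v) * z v = 0 :=
          sum_eq_zero fun v _ => by rw [Pi.zero_apply, map_zero, zero_mul]
        rw [e]
        exact I.zero_mem
      smul_mem' := by
        intro a b hb
        have e : ∑ v : Fin N, algebraMap k A ((a • b) v) * z v =
            algebraMap k A a * ∑ v : Fin N, algebraMap k A (b v) * z v := by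
          rw [mul_sum]
          refine sum_congr rfl fun v _ => ?_
          rw [Pi.smul_apply, smul_eq_mul, map_mul, mul_assoc]
        show ∑ v : Fin N, algebraMap k A ((a • b) v) * z v ∈ I
        rw [e]
        exact I.mul_mem_left _ hb }
  by_contra hb
  have hbW : b ∉ W := hb
  obtain ⟨φ, hφ, hW⟩ := Submodule.exists_le_ker_of_notMem hbW
  apply hφ
  have hφs : ∀ b : Fin N → k, φ b = ∑ v, b v * φ (Pi.single v 1) := by
    intro b
    conv_lhs => rw [pi_eq_sum_univ' b]
    rw [map_sum]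
    refine Finset.sum_congr rfl fun v _ => ?_
    rw [map_smul, smul_eq_mul]
  obtain ⟨a, c, hac⟩ := h (fun v => φ (Pi.single v 1)) (fun b' hb' => by
    have h3 : b' ∈ W := hb'
    have h4 := hW h3
    rw [LinearMap.mem_ker, hφs] at h4
    exact h4)
  rw [hφs]
  have e : ∀ v : Fin N, b v * φ (Pi.single v 1) = a * (b v * w₁ v) + c * (b v * w₂ v) := by
    intro v
    rw [hac v]
    ring
  rw [sum_congr rfl fun v _ => e v, sum_add_distrib, ← mul_sum, ← mul_sum, h1, h2, mul_zero,
    mul_zero, add_zero]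

/-- extension by zero -/
def ext0 {N : ℕ} (y : Fin N → k) (v : ℕ) : k := if h : v < N then y ⟨v, h⟩ else 0

lemma ext0_of {N : ℕ} (y : Fin N → k) {v : ℕ} (h : v < N) : ext0 y v = y ⟨v, h⟩ := dif_pos h

lemma ext0_fin {N : ℕ} (y : Fin N → k) (v : Fin N) : ext0 y (v : ℕ) = y v := ext0_of y v.isLt

lemma idx {N n t : ℕ} (h : N + 1 = n + t) {J : Finset ℕ} (hJ : ∀ j ∈ J, j < n) :
    ∀ j ∈ J, ∀ c ∈ List.range t, j + c < N := by
  intro j hj c hc
  have := hJ j hj
  have := List.mem_range.1 hc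
  omega

/-- the tangent space -/
lemma tangent {N n t : ℕ} (h : N + 1 = n + t) {q : ℕ → k} (hV : Vt n t q) {A : Type*} [CommRing A]
    [Algebra k A] (z : ℕ → A) (m : Ideal A) (hz : ∀ v, v < N → z v ∈ m)
    (h1 : ∀ J : Finset ℕ, J.card = t → (∀ j ∈ J, j < n) →
      pm (fun v => algebraMap k A (q v) + z v) J (List.range t) = 0)
    (y : Fin N → k) (hy : ∀ b : Fin N → k, ∑ v : Fin N, algebraMap k A (b v) * z v ∈ m ^ 2 →
      ∑ v, b v * y v = 0) : Tt n t q (ext0 y) := by
  intro J hJ1 hJ2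
  have hN := idx h hJ2
  have e1 := pd_lin (RingHom.id k) q (ext0 y) (List.range t) J hN
  have e2 : (fun v => (RingHom.id k) (q v)) = q := rfl
  rw [e2] at e1
  rw [e1]
  simp only [RingHom.id_apply, ext0_fin]
  apply hy
  have e3 := pd_lin (algebraMap k A) q z (List.range t) J hN
  rw [← e3]
  have e4 := taylor m (fun v => algebraMap k A (q v)) z (List.range t) J
    (fun j hj c hc => hz _ (hN j hj c hc))
  have e5 := pq_mem m (fun v => algebraMap k A (q v)) z (List.range t) J
    (fun j hj c hc => hz _ (hN j hj c hc))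
  rw [h1 J hJ1 hJ2, ← pm_map (algebraMap k A), hV J hJ1 hJ2, map_zero] at e4
  have e6 : m ^ 3 ≤ m ^ 2 := Ideal.pow_le_pow_right (by norm_num)
  have e7 := (m ^ 2).add_mem (e6 e4) e5
  have e8 : pd (fun v => algebraMap k A (q v)) z J (List.range t) =
      -(0 - 0 - pd (fun v => algebraMap k A (q v)) z J (List.range t) -
        pq (fun v => algebraMap k A (q v)) z J (List.range t) +
        pq (fun v => algebraMap k A (q v)) z J (List.range t)) := by ring
  rw [e8]
  exact (m ^ 2).neg_mem e7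

lemma pd_zero_of {N n t : ℕ} (h : N + 1 = n + t) (q : ℕ → k) {A : Type*}
    [CommRing A] [Algebra k A] (z : ℕ → A) (B : Finset ℕ) (c : ℕ → k) (Js : ℕ → Finset ℕ)
    (hJs : ∀ a ∈ B, (Js a).card = t ∧ ∀ j ∈ Js a, j < n)
    (hd : ∀ y : ℕ → k, ∑ a ∈ B, c a * pd q y (Js a) (List.range t) = 0) :
    ∑ a ∈ B, algebraMap k A (c a) *
      pd (fun v => algebraMap k A (q v)) z (Js a) (List.range t) = 0 := by
  have e : ∀ a ∈ B, algebraMap k A (c a) *
      pd (fun v => algebraMap k A (q v)) z (Js a) (List.range t) =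
      ∑ v : Fin N, algebraMap k A (c a * pd q (Pi.single (v : ℕ) 1) (Js a) (List.range t)) *
        z v := by
    intro a ha
    rw [pd_lin (algebraMap k A) q z (List.range t) (Js a) (idx h (hJs a ha).2), mul_sum]
    refine sum_congr rfl fun v _ => ?_
    rw [map_mul, mul_assoc]
  rw [sum_congr rfl e, sum_comm]
  refine sum_eq_zero fun v _ => ?_
  rw [← sum_mul, ← map_sum, hd, map_zero, zero_mul]

/-- the quadratic relation -/
lemma quad {N n t : ℕ} (h : N + 1 = n + t) {q : ℕ → k} (hV : Vt n t q) {A : Type*} [CommRing A]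
    [Algebra k A] (z : ℕ → A) (m : Ideal A) (hz : ∀ v, v < N → z v ∈ m)
    (h1 : ∀ J : Finset ℕ, J.card = t → (∀ j ∈ J, j < n) →
      pm (fun v => algebraMap k A (q v) + z v) J (List.range t) = 0)
    (w₁ w₂ : ℕ → k) (α β : A) (hα : α ∈ m) (hβ : β ∈ m)
    (hl : ∀ v, v < N → z v - (α * algebraMap k A (w₁ v) + β * algebraMap k A (w₂ v)) ∈ m ^ 2)
    (B : Finset ℕ) (c : ℕ → k) (Js : ℕ → Finset ℕ)
    (hJs : ∀ a ∈ B, (Js a).card = t ∧ ∀ j ∈ Js a, j < n)
    (hd : ∀ y : ℕ → k, ∑ a ∈ B, c a * pd q y (Js a) (List.range t) = 0) :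
    α ^ 2 * algebraMap k A (∑ a ∈ B, c a * pq q w₁ (Js a) (List.range t)) +
      α * β * algebraMap k A (∑ a ∈ B, c a * pq q (fun v => w₁ v + w₂ v) (Js a) (List.range t) -
        ∑ a ∈ B, c a * pq q w₁ (Js a) (List.range t) -
        ∑ a ∈ B, c a * pq q w₂ (Js a) (List.range t)) +
      β ^ 2 * algebraMap k A (∑ a ∈ B, c a * pq q w₂ (Js a) (List.range t)) ∈ m ^ 3 := by
  have key : ∀ a ∈ B, algebraMap k A (c a) *
      (pd (fun v => algebraMap k A (q v)) z (Js a) (List.range t) +
      (α ^ 2 * algebraMap k A (pq q w₁ (Js a) (List.range t)) +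
      α * β * algebraMap k A (pq q (fun v => w₁ v + w₂ v) (Js a) (List.range t) -
        pq q w₁ (Js a) (List.range t) - pq q w₂ (Js a) (List.range t)) +
      β ^ 2 * algebraMap k A (pq q w₂ (Js a) (List.range t)))) ∈ m ^ 3 := by
    intro a ha
    refine (m ^ 3).mul_mem_left _ ?_
    obtain ⟨hJ1, hJ2⟩ := hJs a ha
    have hN := idx h hJ2
    have e4 := taylor m (fun v => algebraMap k A (q v)) z (List.range t) (Js a)
      (fun j hj c hc => hz _ (hN j hj c hc))
    rw [h1 _ hJ1 hJ2, ← pm_map (algebraMap k A), hV _ hJ1 hJ2, map_zero] at e4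
    -- the second order term
    have e5 := pq_add (fun v => algebraMap k A (q v))
      (fun v => α * algebraMap k A (w₁ v) + β * algebraMap k A (w₂ v))
      (fun v => z v - (α * algebraMap k A (w₁ v) + β * algebraMap k A (w₂ v))) (List.range t)
      (Js a)
    have e6 : (fun v => α * algebraMap k A (w₁ v) + β * algebraMap k A (w₂ v) +
        (z v - (α * algebraMap k A (w₁ v) + β * algebraMap k A (w₂ v)))) = z := by
      funext v
      ring
    rw [e6] at e5
    have e7 := pq_add (fun v => algebraMap k A (q v)) (fun v => α * algebraMap k A (w₁ v))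
      (fun v => β * algebraMap k A (w₂ v)) (List.range t) (Js a)
    rw [pq_smul, pq_smul, pb_smul] at e7
    have e8 := pq_add (fun v => algebraMap k A (q v)) (fun v => algebraMap k A (w₁ v))
      (fun v => algebraMap k A (w₂ v)) (List.range t) (Js a)
    have e9 : (fun v => algebraMap k A (w₁ v) + algebraMap k A (w₂ v)) =
        fun v => algebraMap k A (w₁ v + w₂ v) := by
      funext v
      rw [map_add]
    rw [e9, ← pq_map (algebraMap k A), ← pq_map (algebraMap k A), ← pq_map (algebraMap k A)] at e8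
    rw [← pq_map (algebraMap k A), ← pq_map (algebraMap k A)] at e7
    have m1 := pb_mem m (m ^ 2) (fun v => algebraMap k A (q v))
      (fun v => α * algebraMap k A (w₁ v) + β * algebraMap k A (w₂ v))
      (fun v => z v - (α * algebraMap k A (w₁ v) + β * algebraMap k A (w₂ v))) (List.range t)
      (Js a) (fun j _ c _ => m.add_mem (m.mul_mem_right _ hα) (m.mul_mem_right _ hβ))
      (fun j hj c hc => hl _ (hN j hj c hc))
    have m2 := pq_mem (m ^ 2) (fun v => algebraMap k A (q v))
      (fun v => z v - (α * algebraMap k A (w₁ v) + β * algebraMap k A (w₂ v))) (List.range t)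
      (Js a) (fun j hj c hc => hl _ (hN j hj c hc))
    rw [← pow_succ'] at m1
    rw [← pow_mul] at m2
    have m3 : m ^ (2 * 2) ≤ m ^ 3 := Ideal.pow_le_pow_right (by norm_num)
    have m4 := (m ^ 3).add_mem ((m ^ 3).add_mem e4 m1) (m3 m2)
    have m5 := (m ^ 3).neg_mem m4
    convert m5 using 1
    rw [e5, e7, map_sub, map_sub, e8]
    ring
  have hsum := Ideal.sum_mem (m ^ 3) key
  convert hsum using 1
  simp only [mul_add]
  rw [sum_add_distrib, pd_zero_of h q z B c Js hJs hd, zero_add,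
    sum_add_distrib, sum_add_distrib]
  simp only [map_sub, map_sum, map_mul, mul_sum, ← sum_sub_distrib]
  congr 1
  · congr 1
    · refine sum_congr rfl fun a _ => ?_
      ring
    · refine sum_congr rfl fun a _ => ?_
      ring
  · refine sum_congr rfl fun a _ => ?_
    ring

/-- the linear form `e s - p e u - r e v` -/
def bb {N : ℕ} (p r : k) (s u v x : Fin N) : k :=
  (if x = s then 1 else 0) - p * (if x = u then 1 else 0) - r * (if x = v then 1 else 0)

lemma sum_bb {N : ℕ} {A : Type*} [CommRing A] (f : k →+* A) (p r : k) (s u v : Fin N)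
    (F : Fin N → A) : ∑ x, f (bb p r s u v x) * F x = F s - f p * F u - f r * F v := by
  have hite : ∀ y x : Fin N, f (if x = y then 1 else 0) * F x = if x = y then F x else 0 := by
    intro y x
    by_cases hxy : x = y
    · rw [if_pos hxy, if_pos hxy, map_one, one_mul]
    · rw [if_neg hxy, if_neg hxy, map_zero, zero_mul]
  have e : ∀ x, f (bb p r s u v x) * F x = (if x = s then F x else 0) -
      f p * (if x = u then F x else 0) - f r * (if x = v then F x else 0) := by
    intro x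
    unfold bb
    rw [map_sub, map_sub, map_mul, map_mul, sub_mul, sub_mul, mul_assoc, mul_assoc, hite, hite,
      hite]
  rw [sum_congr rfl fun x _ => e x, sum_sub_distrib, sum_sub_distrib, ← mul_sum, ← mul_sum,
    sum_ite_eq' univ s, sum_ite_eq' univ u, sum_ite_eq' univ v, if_pos (mem_univ _),
    if_pos (mem_univ _), if_pos (mem_univ _)]

/-- a combination of tangent vectors -/
lemma Tt_comb {n t : ℕ} {q y y' : ℕ → k} (h : Tt n t q y) (h' : Tt n t q y') (a b : k) :
    Tt n t q (fun v => a * y v + b * y' v) := by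
  intro J h1 h2
  rw [pd_add q (fun v => a * y v) (fun v => b * y' v), pd_smul, pd_smul, h J h1 h2, h' J h1 h2,
    mul_zero, mul_zero, add_zero]

/-- truncation of tangent vectors -/
lemma Tt_congr {N n t : ℕ} (h : N + 1 = n + t) {q y y' : ℕ → k} (hy : Tt n t q y)
    (e : ∀ v, v < N → y v = y' v) : Tt n t q y' := by
  intro J h1 h2
  have e1 := pd_lin (RingHom.id k) q y' (List.range t) J (idx h h2)
  have e2 := pd_lin (RingHom.id k) q y (List.range t) J (idx h h2)
  have e3 : (fun v => (RingHom.id k) (q v)) = q := rfl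
  rw [e3] at e1 e2
  rw [e1, ← hy J h1 h2, e2]
  refine sum_congr rfl fun v _ => ?_
  rw [e v v.isLt]

/-- evaluation of the elements of the ideal -/
lemma eval_ideal {N n t : ℕ} (h : N + 1 = n + t) {q : ℕ → k} (hV : Vt n t q) :
    ∀ f ∈ permIdeal t (vm k (hk h)), eval (fun v : Fin N => q v) f = 0 := by
  have h2 : permIdeal t (vm k (hk h)) ≤ RingHom.ker (eval (fun v : Fin N => q v)) := by
    apply permIdeal_le_ker
    intro r c
    have e1 : ((vm k (hk h)).map (eval (fun v : Fin N => q v))).submatrix r c =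
        Matrix.of fun i j : Fin t => q ((fun i => (r i).val) i + (fun j => (c j).val) j) := by
      ext1 i j
      simp only [Matrix.submatrix_apply, Matrix.map_apply, vm, Matrix.of_apply, eval_X, hk]
    rw [e1, permanent_eq_pm q t (fun i => (r i).val) (Fin.val_injective.comp r.injective)
      (fun j => (c j).val)]
    have h3 : (List.ofFn fun j => (c j).val).Nodup := by
      rw [List.nodup_ofFn]
      exact Fin.val_injective.comp c.injective
    have h4 : (List.ofFn fun j => (c j).val).Perm (List.range t) := by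
      refine (List.subperm_of_subset h3 fun j hj => ?_).perm_of_length_le ?_
      · rw [List.mem_ofFn] at hj
        obtain ⟨i, rfl⟩ := hj
        exact List.mem_range.2 (c i).isLt
      · rw [List.length_range, List.length_ofFn]
    rw [(BA.ta k).1 q _ _ h4]
    apply hV
    · refine (Finset.card_image_of_injective _ (Fin.val_injective.comp r.injective)).trans ?_
      rw [card_univ, Fintype.card_fin]
    · intro j hj
      rw [Finset.mem_image] at hj
      obtain ⟨i, -, rfl⟩ := hj
      exact (r i).isLt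
  intro f hf
  exact h2 hf

end alg

theorem t (k : Type*) [Field k] (hTC : StmTC k) : StmT2 k := by
  classical
  intro n t ht htn q hV S hS hy w₁ w₂ hw₁ hw₂ B c₁ c₂ Js hJs hd₁ hd₂ hQ1 hQ2 hQ3 hQ4 N h hP
  have hn : 0 < n := by omega
  have ht0 : 0 < t := by omega
  -- the set of coordinates
  obtain ⟨S', hS'⟩ : ∃ S' : Finset (Fin N), S' = univ.filter fun v : Fin N => (v : ℕ) ∈ S := ⟨_, rfl⟩
  have hcard : S'.card ≤ t + 1 := by
    refine le_trans ?_ hS
    rw [← Finset.card_image_of_injective S' Fin.val_injective]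
    apply Finset.card_le_card
    intro v hv
    rw [Finset.mem_image] at hv
    obtain ⟨w, hw, rfl⟩ := hv
    rw [hS', Finset.mem_filter] at hw
    exact hw.2
  have hy' : ∀ y : ℕ → k, (∀ s ∈ S', y (s : ℕ) = 0) → Tt n t q y → ∀ v, v < N → y v = 0 := by
    intro y h0 h1 v hv
    have h2 := hy (fun v => if v < N then y v else 0) ?_ ?_ v (by omega)
    · simp only [if_pos hv] at h2
      exact h2
    · intro s hs
      by_cases hsN : s < N
      · simp only [if_pos hsN]
        exact h0 ⟨s, hsN⟩ (by rw [hS', Finset.mem_filter]; exact ⟨mem_univ _, hs⟩)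
      · simp only [if_neg hsN]
    · refine Tt_congr h h1 fun v hv => ?_
      simp only [if_pos hv]
  -- linear independence
  have hind : ∀ a b : k, (∀ s ∈ S', a * w₁ (s : ℕ) + b * w₂ (s : ℕ) = 0) → a = 0 ∧ b = 0 := by
    intro a b hab
    have h1 := hy' (fun v => a * w₁ v + b * w₂ v) hab (Tt_comb hw₁ hw₂ a b)
    have h2 : ∀ a' ∈ B, a ^ 2 * pq q w₁ (Js a') (List.range t) +
        a * b * (pq q (fun v => w₁ v + w₂ v) (Js a') (List.range t) -
          pq q w₁ (Js a') (List.range t) - pq q w₂ (Js a') (List.range t)) +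
        b ^ 2 * pq q w₂ (Js a') (List.range t) = 0 := by
      intro a' ha'
      have hN := idx h (hJs a' ha').2
      have e1 := pq_mem (⊥ : Ideal k) q (fun v => a * w₁ v + b * w₂ v) (List.range t) (Js a')
        (fun j hj c hc => by
          rw [Ideal.mem_bot]
          exact h1 _ (hN j hj c hc))
      have e2 : (⊥ : Ideal k) ^ 2 = ⊥ := by
        rw [← Ideal.zero_eq_bot, zero_pow two_ne_zero]
      rw [e2, Ideal.mem_bot, pq_add q (fun v => a * w₁ v) (fun v => b * w₂ v), pq_smul, pq_smul,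
        pb_smul] at e1
      have e3 := pq_add q w₁ w₂ (List.range t) (Js a')
      linear_combination e1 + a * b * e3
    have h3 : ∀ c : ℕ → k, a ^ 2 * ∑ a' ∈ B, c a' * pq q w₁ (Js a') (List.range t) +
        a * b * (∑ a' ∈ B, c a' * pq q (fun v => w₁ v + w₂ v) (Js a') (List.range t) -
          ∑ a' ∈ B, c a' * pq q w₁ (Js a') (List.range t) -
          ∑ a' ∈ B, c a' * pq q w₂ (Js a') (List.range t)) +
        b ^ 2 * ∑ a' ∈ B, c a' * pq q w₂ (Js a') (List.range t) = 0 := by
      intro c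
      rw [mul_sub, mul_sub, mul_sum, mul_sum, mul_sum, mul_sum, mul_sum, ← sum_sub_distrib,
        ← sum_sub_distrib, ← sum_add_distrib, ← sum_add_distrib]
      refine sum_eq_zero fun a' ha' => ?_
      linear_combination c a' * h2 a' ha'
    have h4 := h3 c₂
    rw [hQ3, hQ2, sub_self, sub_zero, mul_zero, mul_zero, add_zero, add_zero] at h4
    have ha : a = 0 := by
      rcases mul_eq_zero.1 h4 with h5 | h5
      · exact pow_eq_zero_iff two_ne_zero |>.1 h5
      · exact absurd h5 hQ1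
    have h6 := h3 c₁
    rw [ha] at h6
    have h7 : b ^ 2 * ∑ a' ∈ B, c₁ a' * pq q w₂ (Js a') (List.range t) = 0 := by
      linear_combination h6
    refine ⟨ha, ?_⟩
    rcases mul_eq_zero.1 h7 with h5 | h5
    · exact pow_eq_zero_iff two_ne_zero |>.1 h5
    · exact absurd h5 hQ4
  -- a nonzero minor
  obtain ⟨u, hu, v, hv, hD⟩ : ∃ u ∈ S', ∃ v ∈ S', w₁ (u : ℕ) * w₂ (v : ℕ) -
      w₁ (v : ℕ) * w₂ (u : ℕ) ≠ 0 := by
    by_contra hcon
    push Not at hcon
    by_cases h1 : ∃ v ∈ S', w₂ (v : ℕ) ≠ 0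
    · obtain ⟨v, hv, hv0⟩ := h1
      have h2 := hind (w₂ (v : ℕ)) (-w₁ (v : ℕ)) fun s hs => by
        have := hcon s hs v hv
        linear_combination this
      exact hv0 h2.1
    · push Not at h1
      have h2 := hind 0 1 fun s hs => by rw [h1 s hs]; ring
      exact one_ne_zero h2.2
  obtain ⟨Δ, hΔ⟩ : ∃ Δ : k, Δ = w₁ (u : ℕ) * w₂ (v : ℕ) - w₁ (v : ℕ) * w₂ (u : ℕ) := ⟨_, rfl⟩
  rw [← hΔ] at hD
  have huv : u ≠ v := by
    rintro rfl
    exact hD (by rw [hΔ]; ring)
  obtain ⟨p, hp⟩ : ∃ p : ℕ → k, p = fun s => (w₁ s * w₂ (v : ℕ) - w₂ s * w₁ (v : ℕ)) / Δ := ⟨_, rfl⟩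
  obtain ⟨r, hr⟩ : ∃ r : ℕ → k, r = fun s => (w₁ (u : ℕ) * w₂ s - w₂ (u : ℕ) * w₁ s) / Δ := ⟨_, rfl⟩
  have hcr1 : ∀ s, w₁ s - p s * w₁ (u : ℕ) - r s * w₁ (v : ℕ) = 0 := by
    intro s
    rw [hp, hr]
    simp only
    field_simp
    rw [hΔ]
    ring
  have hcr2 : ∀ s, w₂ s - p s * w₂ (u : ℕ) - r s * w₂ (v : ℕ) = 0 := by
    intro s
    rw [hp, hr]
    simp only
    field_simp
    rw [hΔ]
    ring
  -- the linear forms
  obtain ⟨q', hq'⟩ : ∃ q' : Fin N → k, q' = fun v : Fin N => q v := ⟨_, rfl⟩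
  obtain ⟨ls, hls⟩ : ∃ ls : Fin N → MvPolynomial (Fin N) k, ls = fun s =>
      (X s - C (q' s)) - C (p s) * (X u - C (q' u)) - C (r s) * (X v - C (q' v)) := ⟨_, rfl⟩
  have hls0 : ∀ s, eval q' (ls s) = 0 := by
    intro s
    rw [hls]
    simp
  obtain ⟨E, hE⟩ : ∃ E : Finset (Fin N), E = (S'.erase u).erase v := ⟨_, rfl⟩
  have hEc : E.card ≤ t - 1 := by
    rw [hE, card_erase_of_mem (mem_erase.2 ⟨huv.symm, hv⟩), card_erase_of_mem hu]
    omega
  obtain ⟨lam, hlam⟩ : ∃ lam : Fin (t - 1) → MvPolynomial (Fin N) k, lam =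
      fun i : Fin (t - 1) => (E.toList.map ls).getD (i : ℕ) 0 := ⟨_, rfl⟩
  have hlam0 : ∀ i, eval q' (lam i) = 0 := by
    intro i
    rw [hlam]
    simp only
    by_cases hi : (i : ℕ) < (E.toList.map ls).length
    · rw [List.getD_eq_getElem _ _ hi]
      have h1 := List.getElem_mem hi
      rw [List.mem_map] at h1
      obtain ⟨s, -, hs⟩ := h1
      rw [← hs]
      exact hls0 s
    · rw [List.getD_eq_default _ _ (by omega), map_zero]
  have hlamS : ∀ s ∈ E, ls s ∈ Set.range lam := by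
    intro s hs
    have h1 : ls s ∈ E.toList.map ls := List.mem_map.2 ⟨s, mem_toList.2 hs, rfl⟩
    obtain ⟨i, hi, hi'⟩ := List.mem_iff_getElem.1 h1
    have h2 : i < t - 1 := by
      rw [List.length_map, length_toList] at hi
      omega
    refine ⟨⟨i, h2⟩, ?_⟩
    rw [hlam]
    simp only
    rw [List.getD_eq_getElem _ _ hi, hi']
  -- the main inclusion
  have hmain : RingHom.ker (eval q') ^ 3 ≤ permIdeal t (vm k (hk h)) ⊔
      Ideal.span (Set.range lam) ⊔ RingHom.ker (eval q') ^ (3 + 1) := by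
    set M := RingHom.ker (eval q') with hM
    set I := permIdeal t (vm k (hk h)) ⊔ Ideal.span (Set.range lam) ⊔ M ^ (3 + 1) with hI
    let π : MvPolynomial (Fin N) k →+* (MvPolynomial (Fin N) k ⧸ I) := Ideal.Quotient.mk I
    have hπC : ∀ a : k, π (C a) = algebraMap k (MvPolynomial (Fin N) k ⧸ I) a := fun a => rfl
    have hPI : ∀ f ∈ permIdeal t (vm k (hk h)), π f = 0 := fun f hf =>
      Ideal.Quotient.eq_zero_iff_mem.2 (Ideal.mem_sup_left (Ideal.mem_sup_left hf))
    have hLI : ∀ s ∈ E, π (ls s) = 0 := fun s hs =>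
      Ideal.Quotient.eq_zero_iff_mem.2 (Ideal.mem_sup_left (Ideal.mem_sup_right
        (Ideal.subset_span (hlamS s hs))))
    obtain ⟨z, hz⟩ : ∃ z : ℕ → (MvPolynomial (Fin N) k ⧸ I), z = fun v =>
      if hv : v < N then π (X ⟨v, hv⟩ - C (q v)) else 0 := ⟨_, rfl⟩
    have hzf : ∀ s : Fin N, z (s : ℕ) = π (X s - C (q' s)) := by
      intro s
      rw [hz, hq']
      simp only
      rw [dif_pos s.isLt]
    set m := M.map π with hm
    have hm4 : m ^ 4 = ⊥ := by
      rw [hm, ← Ideal.map_pow, Ideal.map_eq_bot_iff_le_ker]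
      intro f hf
      rw [RingHom.mem_ker]
      exact Ideal.Quotient.eq_zero_iff_mem.2 (Ideal.mem_sup_right hf)
    have hzm : ∀ v, v < N → z v ∈ m := by
      intro v hv
      have h1 := hzf ⟨v, hv⟩
      simp only at h1
      rw [h1]
      apply Ideal.mem_map_of_mem
      rw [hM, RingHom.mem_ker, map_sub, eval_X, eval_C, sub_self]
    have h1 : ∀ J : Finset ℕ, J.card = t → (∀ j ∈ J, j < n) →
        pm (fun v => algebraMap k (MvPolynomial (Fin N) k ⧸ I) (q v) + z v) J
          (List.range t) = 0 := by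
      intro J hJ1 hJ2
      have h2 : pm (zz k (hk h)) J (List.range t) ∈ permIdeal t (vm k (hk h)) :=
        pm_mem (k := k) (JC.isHankel_hk h) hJ1 (List.length_range) hJ2
          (fun c hc => List.mem_range.1 hc) List.nodup_range
      have h3 := hPI _ h2
      rw [pm_map] at h3
      rw [← h3]
      refine pm_congr _ J fun j hj c hc => ?_
      have hN := idx h hJ2 j hj c hc
      rw [JC.zz_hk h hn ht0 hN, hz]
      simp only
      rw [dif_pos hN, map_sub, hπC]
      ring
    -- dual coordinates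
    obtain ⟨α, hα⟩ : ∃ α : MvPolynomial (Fin N) k ⧸ I, α =
        algebraMap k _ (w₂ (v : ℕ) / Δ) * z u - algebraMap k _ (w₂ (u : ℕ) / Δ) * z v := ⟨_, rfl⟩
    obtain ⟨β, hβ⟩ : ∃ β : MvPolynomial (Fin N) k ⧸ I, β =
        algebraMap k _ (w₁ (u : ℕ) / Δ) * z v - algebraMap k _ (w₁ (v : ℕ) / Δ) * z u := ⟨_, rfl⟩
    have hαm : α ∈ m := by
      rw [hα]
      exact m.sub_mem (m.mul_mem_left _ (hzm _ u.isLt)) (m.mul_mem_left _ (hzm _ v.isLt))
    have hβm : β ∈ m := by
      rw [hβ]
      exact m.sub_mem (m.mul_mem_left _ (hzm _ v.isLt)) (m.mul_mem_left _ (hzm _ u.isLt))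
    have hdual : ∀ y : Fin N → k, (∀ b : Fin N → k,
        ∑ v : Fin N, algebraMap k (MvPolynomial (Fin N) k ⧸ I) (b v) * z v ∈ m ^ 2 →
        ∑ v, b v * y v = 0) → ∃ a c : k, ∀ v : Fin N, y v = a * w₁ v + c * w₂ v := by
      intro y hyb
      have hT := tangent h hV z m hzm h1 y hyb
      have hyE : ∀ s ∈ E, y s - p s * y u - r s * y v = 0 := by
        intro s hs
        have e1 := sum_bb (RingHom.id k) (p s) (r s) s u v y
        simp only [RingHom.id_apply] at e1
        rw [← e1]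
        apply hyb
        rw [sum_bb (algebraMap k (MvPolynomial (Fin N) k ⧸ I)) (p s) (r s) s u v
          (fun v => z v), hzf, hzf, hzf, ← hπC, ← hπC, ← map_mul, ← map_mul, ← map_sub, ← map_sub]
        have e2 := hLI s hs
        rw [hls] at e2
        simp only at e2
        rw [e2]
        exact (m ^ 2).zero_mem
      refine ⟨(y u * w₂ (v : ℕ) - y v * w₂ (u : ℕ)) / Δ,
        (w₁ (u : ℕ) * y v - w₁ (v : ℕ) * y u) / Δ, fun x => ?_⟩
      obtain ⟨a, ha⟩ : ∃ a : k, a = (y u * w₂ (v : ℕ) - y v * w₂ (u : ℕ)) / Δ := ⟨_, rfl⟩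
      obtain ⟨c, hc⟩ : ∃ c : k, c = (w₁ (u : ℕ) * y v - w₁ (v : ℕ) * y u) / Δ := ⟨_, rfl⟩
      rw [← ha, ← hc]
      have hau : a * w₁ (u : ℕ) + c * w₂ (u : ℕ) = y u := by
        rw [ha, hc]
        field_simp
        rw [hΔ]
        ring
      have hav : a * w₁ (v : ℕ) + c * w₂ (v : ℕ) = y v := by
        rw [ha, hc]
        field_simp
        rw [hΔ]
        ring
      have hT2 := Tt_comb hT (Tt_comb hw₁ hw₂ a c) 1 (-1)
      have h5 := hy' _ (fun s hs => ?_) hT2 x x.isLt
      · rw [ext0_fin] at h5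
        linear_combination h5
      · rw [ext0_fin]
        by_cases hsu : s = u
        · rw [hsu]
          linear_combination -hau
        · by_cases hsv : s = v
          · rw [hsv]
            linear_combination -hav
          · have hsE : s ∈ E := by
              rw [hE]
              exact mem_erase.2 ⟨hsv, mem_erase.2 ⟨hsu, hs⟩⟩
            have e1 := hyE s hsE
            have e2 := hcr1 s
            have e3 := hcr2 s
            linear_combination e1 - a * e2 - c * e3 - p s * hau - r s * hav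
    have hlin : ∀ x, x < N → z x - (α * algebraMap k _ (w₁ x) + β * algebraMap k _ (w₂ x)) ∈
        m ^ 2 := by
      intro x hx
      have e1 := double_ann z (m ^ 2) w₁ w₂ hdual (bb (p x) (r x) ⟨x, hx⟩ u v) ?_ ?_
      · rw [sum_bb (algebraMap k (MvPolynomial (Fin N) k ⧸ I)) (p x) (r x) ⟨x, hx⟩ u v
          (fun v => z v)] at e1
        convert e1 using 1
        simp only
        rw [hα, hβ, hp, hr]
        simp only
        have e2 : algebraMap k (MvPolynomial (Fin N) k ⧸ I)
            ((w₁ x * w₂ (v : ℕ) - w₂ x * w₁ (v : ℕ)) / Δ) =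
            algebraMap k _ (w₁ x) * algebraMap k _ (w₂ (v : ℕ) / Δ) -
            algebraMap k _ (w₂ x) * algebraMap k _ (w₁ (v : ℕ) / Δ) := by
          rw [← map_mul, ← map_mul, ← map_sub]
          congr 1
          ring
        have e3 : algebraMap k (MvPolynomial (Fin N) k ⧸ I)
            ((w₁ (u : ℕ) * w₂ x - w₂ (u : ℕ) * w₁ x) / Δ) =
            algebraMap k _ (w₂ x) * algebraMap k _ (w₁ (u : ℕ) / Δ) -
            algebraMap k _ (w₁ x) * algebraMap k _ (w₂ (u : ℕ) / Δ) := by
          rw [← map_mul, ← map_mul, ← map_sub]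
          congr 1
          ring
        rw [e2, e3]
        ring
      · have e2 := sum_bb (RingHom.id k) (p x) (r x) ⟨x, hx⟩ u v (fun v => w₁ v)
        simp only [RingHom.id_apply] at e2
        rw [e2]
        exact hcr1 x
      · have e2 := sum_bb (RingHom.id k) (p x) (r x) ⟨x, hx⟩ u v (fun v => w₂ v)
        simp only [RingHom.id_apply] at e2
        rw [e2]
        exact hcr2 x
    have q1 := quad h hV z m hzm h1 w₁ w₂ α β hαm hβm hlin B c₁ Js hJs hd₁
    have q2 := quad h hV z m hzm h1 w₁ w₂ α β hαm hβm hlin B c₂ Js hJs hd₂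
    obtain ⟨e, he⟩ : ∃ e : k, e = ∑ a ∈ B, c₂ a * pq q w₁ (Js a) (List.range t) := ⟨_, rfl⟩
    obtain ⟨f, hf⟩ : ∃ f : k, f = ∑ a ∈ B, c₁ a * pq q w₂ (Js a) (List.range t) := ⟨_, rfl⟩
    rw [hQ3, hQ2, ← he, sub_self, sub_zero, map_zero, mul_zero, mul_zero, add_zero,
      add_zero] at q2
    rw [← hf] at q1
    rw [← he] at hQ1
    rw [← hf] at hQ4
    have ha2 : α ^ 2 ∈ m ^ 3 := by
      have h5 := (m ^ 3).mul_mem_left (algebraMap k _ e⁻¹) q2
      have h6 : algebraMap k (MvPolynomial (Fin N) k ⧸ I) e⁻¹ *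
          (α ^ 2 * algebraMap k (MvPolynomial (Fin N) k ⧸ I) e) = α ^ 2 := by
        rw [mul_left_comm, ← map_mul, inv_mul_cancel₀ hQ1, map_one, mul_one]
      rwa [h6] at h5
    obtain ⟨G, hG⟩ : ∃ G : MvPolynomial (Fin N) k ⧸ I, G = algebraMap k _ (∑ a ∈ B, c₁ a *
        pq q (fun v => w₁ v + w₂ v) (Js a) (List.range t) -
        ∑ a ∈ B, c₁ a * pq q w₁ (Js a) (List.range t) - f) := ⟨_, rfl⟩
    rw [← hG] at q1
    have hb2 : β ^ 2 - (-(algebraMap k _ f⁻¹ * G)) * (α * β) ∈ m ^ 3 := by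
      have h5 := (m ^ 3).mul_mem_left (algebraMap k _ f⁻¹) ((m ^ 3).sub_mem q1
        ((m ^ 3).mul_mem_right (algebraMap k _ (∑ a ∈ B, c₁ a *
          pq q w₁ (Js a) (List.range t))) ha2))
      have h6 : algebraMap k (MvPolynomial (Fin N) k ⧸ I) f⁻¹ *
          algebraMap k (MvPolynomial (Fin N) k ⧸ I) f = 1 := by
        rw [← map_mul, inv_mul_cancel₀ hQ4, map_one]
      convert h5 using 1
      linear_combination (-β ^ 2) * h6
    have hmle : m ≤ Ideal.span {α, β} ⊔ m ^ 2 := by
      rw [hm, hM, ker_eval, Ideal.map_span, Ideal.span_le, ← Set.range_comp]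
      rintro _ ⟨s, rfl⟩
      simp only [Function.comp_apply]
      rw [← hzf]
      have h5 := hlin s s.isLt
      rw [SetLike.mem_coe]
      have h6 : z (s : ℕ) = (α * algebraMap k _ (w₁ s) + β * algebraMap k _ (w₂ s)) +
          (z (s : ℕ) - (α * algebraMap k _ (w₁ s) + β * algebraMap k _ (w₂ s))) := by ring
      rw [h6]
      refine Ideal.add_mem _ (Ideal.mem_sup_left ?_) (Ideal.mem_sup_right ?_)
      · refine Ideal.add_mem _ (Ideal.mul_mem_right _ _ (Ideal.subset_span ?_))
          (Ideal.mul_mem_right _ _ (Ideal.subset_span ?_))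
        · exact Set.mem_insert _ _
        · exact Set.mem_insert_of_mem _ rfl
      · rw [hm, hM, ker_eval, Ideal.map_span, ← Set.range_comp] at h5
        exact h5
    have hm3 := cube_zero m hm4 α β hαm hβm hmle ha2 _ hb2
    rw [hm, ← Ideal.map_pow, Ideal.map_eq_bot_iff_le_ker] at hm3
    intro f' hf'
    have h7 := hm3 hf'
    rw [RingHom.mem_ker] at h7
    exact Ideal.Quotient.eq_zero_iff_mem.1 h7
  -- conclusion
  have h3 := hTC N (permIdeal t (vm k (hk h))) hP q' (by rw [hq']; exact eval_ideal h hV) (t - 1)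
    lam hlam0 3 hmain
  have h6 := (JB.t k N n t t h ht htn le_rfl hP).trans h3
  have h7 : t ≤ t - 1 := by exact_mod_cast h6
  omega

end Pool.Agent.N729.HQ.T2a
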