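import Mathlib
import Pool.Agent.N729.HP.All

/-!
Project HQ (MP_9bc296_ag): Hankel permanental ideals `P_t` of `t × n` matrices, `t < n ≤ 2 t - 2`, are
not prime; `P_n` of `n × n` matrices is prime. Definitions and statements of the parts.

`g = n - t + 1`, `t = g (κ - 1) + C + 1`, `n = g κ + C`, `0 ≤ C < g`, `κ ≥ 2`, `N = t + n - 1`.
`J` is a `t`-element subset of `[0, n)`, the short indices are `L = List.range t`.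
-/

set_option autoImplicit false

namespace Pool.Agent.N729.HQ

open Finset
open Pool.Agent.N186.HK (pm vm IsHankel)
open Pool.Agent.R831.PermIdeal (permIdeal)
open Pool.Agent.N729.HP

/-- the second order term of `pm` at `x` in the direction `y`:
`pm (x + ε y) = pm x + ε pd x y + ε² pq x y + …` -/
def pq {D : Type*} [CommSemiring D] (x y : ℕ → D) : Finset ℕ → List ℕ → D
  | _, [] => 0
  | J, c :: L => ∑ j ∈ J, (y (j + c) * pd x y (J.erase j) L + x (j + c) * pq x y (J.erase j) L)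

/-- `q` is a zero of the maximal permanents of the `t × n` Hankel matrix -/
def Vt {D : Type*} [CommSemiring D] (n t : ℕ) (q : ℕ → D) : Prop :=
  ∀ J : Finset ℕ, J.card = t → (∀ j ∈ J, j < n) → pm q J (List.range t) = 0

/-- `y` is in the tangent space -/
def Tt {D : Type*} [CommSemiring D] (n t : ℕ) (q y : ℕ → D) : Prop :=
  ∀ J : Finset ℕ, J.card = t → (∀ j ∈ J, j < n) → pd q y J (List.range t) = 0

/-- the goal: `P_t` of the `t × n` Hankel matrix is not prime -/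
def NP (k : Type*) [Field k] (n t : ℕ) : Prop :=
  ∀ (N : ℕ) (h : N + 1 = n + t), ¬ (permIdeal t (vm k (hk h))).IsPrime

/-! ### Criteria -/

/-- TC: the tangent cone criterion -/
def StmTC (k : Type*) [Field k] : Prop :=
  ∀ (N : ℕ) (P : Ideal (MvPolynomial (Fin N) k)), P.IsPrime → ∀ q : Fin N → k,
    (∀ f ∈ P, MvPolynomial.eval q f = 0) →
    ∀ (s : ℕ) (lam : Fin s → MvPolynomial (Fin N) k), (∀ i, MvPolynomial.eval q (lam i) = 0) →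
    ∀ K : ℕ, RingHom.ker (MvPolynomial.eval q) ^ K ≤
      P ⊔ Ideal.span (Set.range lam) ⊔ RingHom.ker (MvPolynomial.eval q) ^ (K + 1) →
    Algebra.trdeg k (MvPolynomial (Fin N) k ⧸ P) ≤ (s : Cardinal)

/-- J1: the Jacobian criterion (`StmJC`) for `m = t` -/
def StmJ1 (k : Type*) [Field k] : Prop :=
  ∀ n t : ℕ, 2 ≤ t → t ≤ n → ∀ q : ℕ → k, Vt n t q → ∀ S : Finset ℕ, S.card < t →
    (∀ y : ℕ → k, (∀ s ∈ S, y s = 0) → Tt n t q y → ∀ v, v + 1 < n + t → y v = 0) → NP k n t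

/-- T1: tangent space of dimension at most `t` and one quadric -/
def StmT1 (k : Type*) [Field k] : Prop :=
  ∀ n t : ℕ, 2 ≤ t → t ≤ n → ∀ q : ℕ → k, Vt n t q → ∀ S : Finset ℕ, S.card ≤ t →
    (∀ y : ℕ → k, (∀ s ∈ S, y s = 0) → Tt n t q y → ∀ v, v + 1 < n + t → y v = 0) →
    ∀ w : ℕ → k, Tt n t q w →
    ∀ (A : Finset ℕ) (c : ℕ → k) (Js : ℕ → Finset ℕ),
    (∀ a ∈ A, (Js a).card = t ∧ ∀ j ∈ Js a, j < n) →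
    (∀ y : ℕ → k, ∑ a ∈ A, c a * pd q y (Js a) (List.range t) = 0) →
    ∑ a ∈ A, c a * pq q w (Js a) (List.range t) ≠ 0 → NP k n t

/-- T2: tangent space of dimension at most `t + 1` and two quadrics -/
def StmT2 (k : Type*) [Field k] : Prop :=
  ∀ n t : ℕ, 2 ≤ t → t ≤ n → ∀ q : ℕ → k, Vt n t q → ∀ S : Finset ℕ, S.card ≤ t + 1 →
    (∀ y : ℕ → k, (∀ s ∈ S, y s = 0) → Tt n t q y → ∀ v, v + 1 < n + t → y v = 0) →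
    ∀ w₁ w₂ : ℕ → k, Tt n t q w₁ → Tt n t q w₂ →
    ∀ (A : Finset ℕ) (c₁ c₂ : ℕ → k) (Js : ℕ → Finset ℕ),
    (∀ a ∈ A, (Js a).card = t ∧ ∀ j ∈ Js a, j < n) →
    (∀ y : ℕ → k, ∑ a ∈ A, c₁ a * pd q y (Js a) (List.range t) = 0) →
    (∀ y : ℕ → k, ∑ a ∈ A, c₂ a * pd q y (Js a) (List.range t) = 0) →
    ∑ a ∈ A, c₂ a * pq q w₁ (Js a) (List.range t) ≠ 0 →
    ∑ a ∈ A, c₂ a * pq q w₂ (Js a) (List.range t) = 0 →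
    ∑ a ∈ A, c₂ a * pq q (fun v => w₁ v + w₂ v) (Js a) (List.range t) =
      ∑ a ∈ A, c₂ a * pq q w₁ (Js a) (List.range t) →
    ∑ a ∈ A, c₁ a * pq q w₂ (Js a) (List.range t) ≠ 0 → NP k n t

/-! ### Permanents -/

/-- QB: second order terms of block matrices -/
def StmQB (D : Type*) [CommRing D] : Prop :=
  (∀ (x y : ℕ → D) (L L' : List ℕ), L.Perm L' → ∀ J, pq x y J L = pq x y J L') ∧
  (∀ (x y : ℕ → D) (J₁ J₂ : Finset ℕ) (L₁ L₂ : List ℕ), Disjoint J₁ J₂ → (L₁ ++ L₂).Nodup →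
    (∀ c ∈ L₁, ∀ j ∈ J₂, x (j + c) = 0) → (∀ c ∈ L₂, ∀ j ∈ J₁, x (j + c) = 0) →
    J₁.card = L₁.length → J₂.card = L₂.length →
    pq x y (J₁ ∪ J₂) (L₁ ++ L₂) = pq x y J₁ L₁ * pm x J₂ L₂ + pd x y J₁ L₁ * pd x y J₂ L₂ +
      pm x J₁ L₁ * pq x y J₂ L₂ +
      ∑ c ∈ L₁.toFinset, ∑ j ∈ J₂, ∑ c' ∈ L₂.toFinset, ∑ j' ∈ J₁, y (j + c) * y (j' + c') *
        pm x (J₁.erase j') (L₁.erase c) * pm x (J₂.erase j) (L₂.erase c')) ∧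
  (∀ (x y : ℕ → D) (J₁ J₂ : Finset ℕ) (L₁ L₂ : List ℕ), Disjoint J₁ J₂ → (L₁ ++ L₂).Nodup →
    (∀ c ∈ L₁, ∀ j ∈ J₂, x (j + c) = 0) → (∀ c ∈ L₂, ∀ j ∈ J₁, x (j + c) = 0) →
    J₁.card + 1 = L₁.length → J₂.card = L₂.length + 1 →
    pq x y (J₁ ∪ J₂) (L₁ ++ L₂) = ∑ c ∈ L₁.toFinset, ∑ j ∈ J₂, y (j + c) *
      (pd x y J₁ (L₁.erase c) * pm x (J₂.erase j) L₂ +
        pm x J₁ (L₁.erase c) * pd x y (J₂.erase j) L₂))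

/-- LK: one more nonzero variable, which occurs once or twice -/
def StmLK (D : Type*) [CommRing D] : Prop :=
  (∀ (x x' y : ℕ → D) (z j₀ c₀ : ℕ), j₀ + c₀ = z → (∀ v, v ≠ z → x' v = x v) →
    ∀ (J : Finset ℕ) (L : List ℕ), L.Nodup →
    (∀ j ∈ J, ∀ c ∈ L, j + c = z → j = j₀ ∧ c = c₀) →
    (pm x' J L = pm x J L + if j₀ ∈ J ∧ c₀ ∈ L then
      (x' z - x z) * pm x (J.erase j₀) (L.erase c₀) else 0) ∧
    (pd x' y J L = pd x y J L + if j₀ ∈ J ∧ c₀ ∈ L then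
      (x' z - x z) * pd x y (J.erase j₀) (L.erase c₀) else 0) ∧
    (pq x' y J L = pq x y J L + if j₀ ∈ J ∧ c₀ ∈ L then
      (x' z - x z) * pq x y (J.erase j₀) (L.erase c₀) else 0)) ∧
  (∀ (x x' y : ℕ → D) (z j₀ c₀ j₁ c₁ : ℕ), j₀ + c₀ = z → j₁ + c₁ = z → c₀ ≠ c₁ →
    (∀ v, v ≠ z → x' v = x v) → ∀ (J : Finset ℕ) (L : List ℕ), L.Nodup →
    (∀ j ∈ J, ∀ c ∈ L, j + c = z → (j = j₀ ∧ c = c₀) ∨ (j = j₁ ∧ c = c₁)) →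
    (pm x' J L = pm x J L +
      (if j₀ ∈ J ∧ c₀ ∈ L then (x' z - x z) * pm x (J.erase j₀) (L.erase c₀) else 0) +
      (if j₁ ∈ J ∧ c₁ ∈ L then (x' z - x z) * pm x (J.erase j₁) (L.erase c₁) else 0) +
      (if (j₀ ∈ J ∧ c₀ ∈ L) ∧ (j₁ ∈ J ∧ c₁ ∈ L) then (x' z - x z) ^ 2 *
        pm x ((J.erase j₀).erase j₁) ((L.erase c₀).erase c₁) else 0)) ∧
    (pd x' y J L = pd x y J L +
      (if j₀ ∈ J ∧ c₀ ∈ L then (x' z - x z) * pd x y (J.erase j₀) (L.erase c₀) else 0) +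
      (if j₁ ∈ J ∧ c₁ ∈ L then (x' z - x z) * pd x y (J.erase j₁) (L.erase c₁) else 0) +
      (if (j₀ ∈ J ∧ c₀ ∈ L) ∧ (j₁ ∈ J ∧ c₁ ∈ L) then (x' z - x z) ^ 2 *
        pd x y ((J.erase j₀).erase j₁) ((L.erase c₀).erase c₁) else 0)))

/-- RF: the derivative of a submatrix which consists of submatrices of the blocks `ρ ∈ A` -/
def StmRF (D : Type*) [CommRing D] : Prop :=
  ∀ (g c : ℕ) (u y : ℕ → D), c < g → ∀ (Js : ℕ → Finset ℕ) (Ls : ℕ → List ℕ) (A : List ℕ),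
    A.Nodup → (∀ ρ ∈ A, ρ < g) → (∀ ρ ∈ A, (Ls ρ).Nodup) →
    ((∃ ρ ∈ A, (Js ρ).card < (Ls ρ).length) →
      pm (cst g c u) (JG g c Js A) (LG g Ls A) = 0) ∧
    ((∀ ρ ∈ A, (Js ρ).card = (Ls ρ).length) →
      pd (cst g c u) y (JG g c Js A) (LG g Ls A) = ∑ ρ ∈ A.toFinset,
        pd (fun s => u (s + sh c ρ)) (fun s => y (c + g * (s + sh c ρ))) (Js ρ) (Ls ρ) *
          ∏ ρ' ∈ A.toFinset.erase ρ, pm (fun s => u (s + sh c ρ')) (Js ρ') (Ls ρ')) ∧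
    (∀ ρ₁ ∈ A, ∀ ρ₂ ∈ A, ρ₁ ≠ ρ₂ → (Js ρ₁).card + 1 = (Ls ρ₁).length →
      (Js ρ₂).card = (Ls ρ₂).length + 1 →
      (∀ ρ ∈ A, ρ ≠ ρ₁ → ρ ≠ ρ₂ → (Js ρ).card = (Ls ρ).length) →
      pd (cst g c u) y (JG g c Js A) (LG g Ls A) =
        (∑ i ∈ (Ls ρ₁).toFinset, ∑ l ∈ Js ρ₂, y (ρ₁ + g * i + (cc g c ρ₂ + g * l)) *
          pm (fun s => u (s + sh c ρ₁)) (Js ρ₁) ((Ls ρ₁).erase i) *
          pm (fun s => u (s + sh c ρ₂)) ((Js ρ₂).erase l) (Ls ρ₂)) *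
        ∏ ρ ∈ (A.toFinset.erase ρ₁).erase ρ₂, pm (fun s => u (s + sh c ρ)) (Js ρ) (Ls ρ)) ∧
    ((∃ ρ ∈ A, (Js ρ).card + 2 ≤ (Ls ρ).length) →
      pd (cst g c u) y (JG g c Js A) (LG g Ls A) = 0) ∧
    ((∃ ρ₁ ∈ A, ∃ ρ₂ ∈ A, ρ₁ ≠ ρ₂ ∧ (Js ρ₁).card < (Ls ρ₁).length ∧
      (Js ρ₂).card < (Ls ρ₂).length) → pd (cst g c u) y (JG g c Js A) (LG g Ls A) = 0)

/-- RD: decomposition into blocks -/
def StmRD : Prop :=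
  (∀ g c : ℕ, c < g → ∀ J : Finset ℕ, J = JG g c (fun ρ =>
    (J.filter fun j => j % g = cc g c ρ).image fun j => j / g) (List.range g)) ∧
  (∀ g m : ℕ, 0 < g → (List.range m).Perm
    (LG g (fun ρ => List.range ((m + g - 1 - ρ) / g)) (List.range g))) ∧
  (∀ (g c : ℕ) (Js Js' : ℕ → Finset ℕ) (ρ₀ l₀ : ℕ) (A : List ℕ), c < g → (∀ ρ ∈ A, ρ < g) →
    A.Nodup → ρ₀ ∈ A → Js' ρ₀ = (Js ρ₀).erase l₀ → (∀ ρ, ρ ≠ ρ₀ → Js' ρ = Js ρ) →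
    (JG g c Js A).erase (cc g c ρ₀ + g * l₀) = JG g c Js' A) ∧
  (∀ (g : ℕ) (Ls Ls' : ℕ → List ℕ) (ρ₀ i₀ : ℕ) (A : List ℕ), (∀ ρ ∈ A, ρ < g) →
    A.Nodup → ρ₀ ∈ A → (∀ ρ ∈ A, (Ls ρ).Nodup) → Ls' ρ₀ = (Ls ρ₀).erase i₀ →
    (∀ ρ, ρ ≠ ρ₀ → Ls' ρ = Ls ρ) →
    ((LG g Ls A).erase (ρ₀ + g * i₀)).Perm (LG g Ls' A))

/-- CH: the chain equations -/
def StmCH (k : Type*) [Field k] : Prop :=
  (∀ (I₀ I₁ : Finset ℕ) (X₀ X₁ a b : ℕ → k),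
    (∀ l₀ ∈ I₀, ∀ l₁ ∈ I₁, X₀ l₀ * a l₁ + b l₀ * X₁ l₁ = 0) →
    (∃ l ∈ I₁, a l ≠ 0) → (∃ l ∈ I₀, b l ≠ 0) →
    ∃ w : k, (∀ l ∈ I₀, X₀ l = - w * b l) ∧ ∀ l ∈ I₁, X₁ l = w * a l) ∧
  (∀ (I₀ I₁ I₂ : Finset ℕ) (X₀ X₁ X₂ a₁ a₂ b₀ b₁ : ℕ → k),
    (∀ l₀ ∈ I₀, ∀ l₁ ∈ I₁, ∀ l₂ ∈ I₂,
      X₀ l₀ * a₁ l₁ * a₂ l₂ + b₀ l₀ * X₁ l₁ * a₂ l₂ + b₀ l₀ * b₁ l₁ * X₂ l₂ = 0) →
    (∃ l ∈ I₁, a₁ l ≠ 0) → (∃ l ∈ I₁, b₁ l ≠ 0) → (∃ l ∈ I₂, a₂ l ≠ 0) →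
    (∃ l ∈ I₀, b₀ l ≠ 0) →
    ∃ w₀ w₁ : k, (∀ l ∈ I₀, X₀ l = - w₀ * b₀ l) ∧
      (∀ l ∈ I₁, X₁ l = w₀ * a₁ l - w₁ * b₁ l) ∧ ∀ l ∈ I₂, X₂ l = w₁ * a₂ l)

/-! ### Family B1: `C = 1`, `g ≥ 3`, `κ ≥ 2` -/

/-- the point of the family B1 -/
def qB1 (k : Type*) [Field k] (g κ v : ℕ) : k := if v = 0 then 1 else cst g 1 (uX k κ) v

/-- the relations of the family B1 -/
structure RelB1 {k : Type*} [Field k] (g κ : ℕ) (y w : ℕ → k) : Prop where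
  r0 : ∀ i < κ, ∀ σ, 2 ≤ σ → σ < g →
    ∑ l ∈ range κ, y (g * i + (σ + g * l)) = if i = 0 then - w σ else 0
  r1 : ∀ i < κ, ∀ σ, 1 ≤ σ → σ < g → ∑ l ∈ range κ, y (1 + g * i + (σ + g * l)) =
    if i = 0 then - w σ else if i + 1 = κ then w σ else 0
  r2 : ∀ i < κ, ∑ l ∈ Ico 1 κ, 2 * y (g * i + g * l) = if i = 0 then - w 0 else 0
  d0 : w 0 = ∑ i ∈ range κ, ∑ l ∈ range κ,
    (if i + l + 1 < κ then -1 else 1) * y (1 + g * (i + l + 1))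
  d1 : w 1 = - ∑ i ∈ range κ, ∑ l ∈ range κ,
    (if i + l < κ then 1 else -1) * y (1 + g * (i + l))

/-- PB1 -/
def StmPB1 (k : Type*) [Field k] : Prop := (2 : k) ≠ 0 → ∀ g κ : ℕ, 3 ≤ g → 2 ≤ κ →
  Vt (g * κ + 1) (g * (κ - 1) + 2) (qB1 k g κ) ∧
  ∀ y : ℕ → k, Tt (g * κ + 1) (g * (κ - 1) + 2) (qB1 k g κ) y → ∃ w, RelB1 g κ y w

/-- LB1 -/
def StmLB1 (k : Type*) [Field k] : Prop := (2 : k) ≠ 0 → ∀ g κ : ℕ, 3 ≤ g → 2 ≤ κ →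
  ∃ S : Finset ℕ, S.card < g * (κ - 1) + 2 ∧ ∀ y w : ℕ → k, (∀ s ∈ S, y s = 0) →
    RelB1 g κ y w → ∀ v, v < g * (2 * κ - 1) + 2 → y v = 0

/-! ### Family B2: `2 ≤ C < g`, `κ ≥ 2` -/

/-- the point of the family B2 -/
def qB2 (k : Type*) [Field k] (C g κ v : ℕ) : k :=
  if v = 0 ∨ v + 1 = g * (2 * κ - 1) + 2 * C then 1 else cst g C (uX k κ) v

/-- the windows of the family B2 -/
def wB2 {k : Type*} [Field k] (C g κ : ℕ) (y : ℕ → k) (h σ i : ℕ) : k :=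
  if C ≤ σ then ∑ l ∈ range κ, y (h + g * i + (σ + g * l))
  else ∑ l ∈ Ico 1 κ, 2 * y (h + g * i + (σ + g * l))

/-- the relations of the family B2 -/
structure RelB2 {k : Type*} [Field k] (C g κ : ℕ) (y w₀ w₁ : ℕ → k) : Prop where
  z : ∀ i < κ, ∀ σ < g, σ ≠ C → wB2 C g κ y 0 σ i = if i = 0 then - w₀ σ else 0
  c : ∀ i < κ, ∀ σ < g, σ ≠ 0 → wB2 C g κ y C σ i =
    if i = 0 then - w₀ σ else if i + 1 = κ then w₀ σ - w₁ σ else 0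
  b : ∀ i < κ, ∀ σ < g, σ ≠ 0 → σ + 1 ≠ C → wB2 C g κ y 1 σ i =
    if i = 0 then w₁ σ else if i + 1 = κ then - w₁ σ else 0
  b0 : ∀ i < κ, ∑ l ∈ Ico 1 (κ + 1), y (1 + g * i + g * l) =
    if i = 0 then w₁ 0 else if i + 1 = κ then - w₁ 0 else 0
  d0 : w₀ C = - ∑ i ∈ range κ, ∑ l ∈ range κ,
    (if i + l < κ then 1 else -1) * y (C + g * (i + l))
  d1 : w₁ 0 = w₀ 0 - ∑ i ∈ range κ, ∑ l ∈ range κ,
    (if i + l + 1 < κ then -1 else 1) * y (C + g * (i + l + 1))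
  d2 : w₁ (C - 1) = ∑ i ∈ range κ, ∑ l ∈ range κ,
    (if i + l < κ then 1 else -1) * y (C + g * (i + l))

/-- PB2 -/
def StmPB2 (k : Type*) [Field k] : Prop := (2 : k) ≠ 0 → ∀ C g κ : ℕ, 2 ≤ C → C < g → 2 ≤ κ →
  Vt (g * κ + C) (g * (κ - 1) + C + 1) (qB2 k C g κ) ∧
  ∀ y : ℕ → k, Tt (g * κ + C) (g * (κ - 1) + C + 1) (qB2 k C g κ) y →
    ∃ w₀ w₁, RelB2 C g κ y w₀ w₁

/-- LB2 -/
def StmLB2 (k : Type*) [Field k] : Prop := (2 : k) ≠ 0 → ∀ C g κ : ℕ, 2 ≤ C → C < g → 2 ≤ κ →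
  ∃ S : Finset ℕ, S.card < g * (κ - 1) + C + 1 ∧ ∀ y w₀ w₁ : ℕ → k, (∀ s ∈ S, y s = 0) →
    RelB2 C g κ y w₀ w₁ → ∀ v, v < g * (2 * κ - 1) + 2 * C → y v = 0

/-! ### Family B3: `C = 0`, `g ≥ 3`, `κ ≥ 3` -/

/-- the point of the family B3 -/
def qB3 (k : Type*) [Field k] (g κ v : ℕ) : k :=
  if v + 2 = g * (2 * κ - 1) then 1 else cst g (g - 3) (uN k κ) v

/-- the right sides of the family B3, for the rows of `Z`, `A₁`, `A₂` -/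
def sB3 {k : Type*} [Field k] (κ : ℕ) (w₀ w₁ lam : ℕ → k) (h j i : ℕ) : k :=
  if h = 0 then (if i = 0 then lam j else if i = 1 then - lam j else
    if i + 1 = κ then - w₀ j else 0)
  else if h = 1 then (if i = 0 then w₀ j else if i + 2 = κ then - w₁ j else 0)
  else if i = 0 then w₁ j else 0

/-- the relations of the family B3 -/
structure RelB3 {k : Type*} [Field k] (g κ : ℕ) (y w₀ w₁ lam : ℕ → k) : Prop where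
  a0 : ∀ i < κ, ∀ j, j + 3 < g → 2 * y (g * i + j + g * (κ - 1)) = sB3 κ w₀ w₁ lam 0 j i
  a1 : ∀ i < κ - 1, ∀ j, j + 2 < g →
    2 * y (g - 1 + g * i + j + g * (κ - 1)) = sB3 κ w₀ w₁ lam 1 j i
  a2 : ∀ i < κ - 1, ∀ j, j + 2 < g →
    2 * y (g - 2 + g * i + j + g * (κ - 1)) = sB3 κ w₀ w₁ lam 2 j i
  b0 : ∀ i < κ, ∑ l ∈ range (κ - 1), y (g * i + (g - 2) + g * l) =
    sB3 κ w₀ w₁ lam 0 (g - 2) i
  b2 : ∀ i < κ - 1, y (g - 2 + g * i + (g - 2)) -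
    ∑ l ∈ Ico 1 (κ - 1), y (g - 2 + g * i + (g - 2) + g * l) = sB3 κ w₀ w₁ lam 2 (g - 2) i
  c0 : ∀ i < κ, ∑ l ∈ range (κ - 1), y (g * i + (g - 1) + g * l) =
    sB3 κ w₀ w₁ lam 0 (g - 1) i
  c1 : ∀ i < κ - 1, ∑ l ∈ range (κ - 1), y (g - 1 + g * i + (g - 1) + g * l) =
    sB3 κ w₀ w₁ lam 1 (g - 1) i
  d0 : w₀ (g - 3) = - ∑ i ∈ range κ, ∑ l ∈ range κ,
    (if i + 1 = κ ∧ l + 1 = κ then 2 else if i + 1 = κ ∨ l + 1 = κ then 0 else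
      if i + l < κ then 1 else -1) * y (g - 3 + g * (i + l))
  d1 : w₁ (g - 2) = w₀ (g - 2) - ∑ i ∈ range (κ - 1), ∑ l ∈ range (κ - 1),
    (if i + l + 1 < κ then 1 else -1) * y (g - 3 + g * (i + l + 1))
  d2 : w₁ (g - 1) = ∑ i ∈ range (κ - 1), ∑ l ∈ range (κ - 1),
    (if i + l + 1 < κ then 1 else -1) * y (g - 3 + g * (i + l + 1))

/-- PB3 -/
def StmPB3 (k : Type*) [Field k] : Prop := (2 : k) ≠ 0 → ∀ g κ : ℕ, 3 ≤ g → 3 ≤ κ →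
  Vt (g * κ) (g * (κ - 1) + 1) (qB3 k g κ) ∧
  ∀ y : ℕ → k, Tt (g * κ) (g * (κ - 1) + 1) (qB3 k g κ) y →
    ∃ w₀ w₁ lam, RelB3 g κ y w₀ w₁ lam

/-- LB3 -/
def StmLB3 (k : Type*) [Field k] : Prop := (2 : k) ≠ 0 → ∀ g κ : ℕ, 3 ≤ g → 3 ≤ κ →
  ∃ S : Finset ℕ, S.card < g * (κ - 1) + 1 ∧ ∀ y w₀ w₁ lam : ℕ → k, (∀ s ∈ S, y s = 0) →
    RelB3 g κ y w₀ w₁ lam → ∀ v, v < g * (2 * κ - 1) → y v = 0

/-! ### Family B4: `C = 0`, `κ = 2` -/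

/-- B4 -/
def StmB4 (k : Type*) [Field k] : Prop := (2 : k) ≠ 0 → StmT1 k → ∀ g : ℕ, 2 ≤ g →
  NP k (2 * g) (g + 1)

/-! ### Family C1: `g = 2`, `t = 2 κ`, `κ ≥ 3` -/

/-- the even part of the point -/
def uA (k : Type*) [Field k] (κ s : ℕ) : k :=
  if s = 0 ∨ s = 1 then 1 else if s = κ ∨ s = κ + 1 then -1 else 0

/-- CA: permanents for `uA` -/
def StmCA (k : Type*) [Field k] : Prop := ∀ κ : ℕ, 3 ≤ κ →
  pm (uA k κ) (range κ) (List.range κ) = 0 ∧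
  (∀ i < κ, ∀ l < κ, pm (uA k κ) ((range κ).erase l) ((List.range κ).erase i) =
    (-1) ^ (κ + 1) * if i + l = 0 then 1 else if i + l ≤ κ then -1 else 1) ∧
  pm (fun s => uA k κ (s + 1)) (range κ) (List.range κ) = 0 ∧
  (∀ i < κ, ∀ l < κ, pm (fun s => uA k κ (s + 1)) ((range κ).erase l) ((List.range κ).erase i) =
    (-1) ^ (κ + 1) * if i + l < κ then 1 else -1) ∧
  (∀ l < κ + 1, pm (uA k κ) ((range (κ + 1)).erase l) (List.range κ) =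
    if l = 0 ∨ l = κ then 0 else (-1) ^ (κ + 1) * 2)

/-- the point of the family C1 -/
def qC1 (k : Type*) [Field k] (κ v : ℕ) : k :=
  if v = 0 ∨ v = 2 ∨ v + 1 = 4 * κ then 1 else if v = 2 * κ ∨ v = 2 * κ + 2 then -1 else 0

/-- a tangent vector -/
def wC1 (k : Type*) [Field k] (κ v : ℕ) : k :=
  if v = 0 then 2 else if v = 1 ∨ v = 3 ∨ v = 2 * κ + 1 then 1 else
    if v + 1 = 2 * κ ∨ v + 2 = 4 * κ then -1 else if v + 3 = 4 * κ then -2 else 0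

/-- C1a -/
def StmC1a (k : Type*) [Field k] : Prop := (2 : k) ≠ 0 → ∀ κ : ℕ, 3 ≤ κ →
  Vt (2 * κ + 1) (2 * κ) (qC1 k κ) ∧
  (∀ y : ℕ → k, (∀ s, 1 ≤ s → s < 2 * κ → y (2 * s) = 0) → y (4 * κ - 1) = 0 →
    Tt (2 * κ + 1) (2 * κ) (qC1 k κ) y → ∀ v, v < 4 * κ → y v = 0) ∧
  Tt (2 * κ + 1) (2 * κ) (qC1 k κ) (wC1 k κ)

/-- C1b -/
def StmC1b (k : Type*) [Field k] : Prop := ∀ κ : ℕ, 3 ≤ κ →
  (∀ y : ℕ → k, pd (qC1 k κ) y (range (2 * κ)) (List.range (2 * κ)) = 0) ∧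
  pq (qC1 k κ) (wC1 k κ) (range (2 * κ)) (List.range (2 * κ)) = 16

/-! ### Family C2: `g = 2`, `t = 2 κ - 1`, `κ ≥ 4` -/

/-- the point of the family C2 -/
def qC2 (k : Type*) [Field k] (κ v : ℕ) : k :=
  if v = 0 ∨ v + 2 = 2 * κ ∨ v = 2 * κ ∨ v + 3 = 4 * κ then 1 else if v = 2 then -1 else 0

/-- tangent vectors -/
def wC2 (k : Type*) [Field k] (κ v : ℕ) : k :=
  if v = 1 ∨ v + 1 = 2 * κ then 1 else if v = 2 ∨ v + 3 = 2 * κ then -1 else 0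

def wC2' (k : Type*) [Field k] (κ v : ℕ) : k :=
  if v = 0 ∨ v = 1 then -2 else if v = 3 ∨ v + 4 = 4 * κ then 1 else 0

/-- C2a -/
def StmC2a (k : Type*) [Field k] : Prop := (2 : k) ≠ 0 → ∀ κ : ℕ, 4 ≤ κ →
  Vt (2 * κ) (2 * κ - 1) (qC2 k κ) ∧
  (∀ y : ℕ → k, (∀ s, 1 ≤ s → s + 1 < 2 * κ → y (2 * s) = 0) → y 3 = 0 → y (4 * κ - 3) = 0 →
    Tt (2 * κ) (2 * κ - 1) (qC2 k κ) y → ∀ v, v + 2 < 4 * κ → y v = 0) ∧
  Tt (2 * κ) (2 * κ - 1) (qC2 k κ) (wC2 k κ) ∧ Tt (2 * κ) (2 * κ - 1) (qC2 k κ) (wC2' k κ)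

/-- C2b -/
def StmC2b (k : Type*) [Field k] : Prop := ∀ κ : ℕ, 4 ≤ κ →
  (∀ y : ℕ → k, pd (qC2 k κ) y (range (2 * κ - 1)) (List.range (2 * κ - 1)) = 0) ∧
  pq (qC2 k κ) (wC2 k κ) (range (2 * κ - 1)) (List.range (2 * κ - 1)) = 4 ∧
  pq (qC2 k κ) (wC2' k κ) (range (2 * κ - 1)) (List.range (2 * κ - 1)) = 0 ∧
  pq (qC2 k κ) (fun v => wC2 k κ v + wC2' k κ v) (range (2 * κ - 1))
    (List.range (2 * κ - 1)) = 4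

/-- C2c -/
def StmC2c (k : Type*) [Field k] : Prop := ∀ κ : ℕ, 4 ≤ κ →
  (∀ y : ℕ → k, pd (qC2 k κ) y ((range (2 * κ)).erase 0) (List.range (2 * κ - 1)) =
    pd (qC2 k κ) y ((range (2 * κ)).erase 2) (List.range (2 * κ - 1))) ∧
  pq (qC2 k κ) (wC2' k κ) ((range (2 * κ)).erase 0) (List.range (2 * κ - 1)) = -4 ∧
  pq (qC2 k κ) (wC2' k κ) ((range (2 * κ)).erase 2) (List.range (2 * κ - 1)) = 0

/-! ### Small cases -/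

/-- S4: `t = 4`, `n = 5` -/
def StmS4 (k : Type*) [Field k] : Prop := (2 : k) ≠ 0 → StmT1 k → NP k 5 4

/-- S5: `t = 5`, `n = 6` -/
def StmS5 (k : Type*) [Field k] : Prop := (2 : k) ≠ 0 → StmT2 k → NP k 6 5

/-! ### Irreducibility -/

/-- IG: generic matrices -/
def StmIG (k : Type*) [Field k] : Prop := ∀ n : ℕ, 1 ≤ n → Irreducible
  (Matrix.permanent (Matrix.of fun i j : Fin n =>
    (MvPolynomial.X (i, j) : MvPolynomial (Fin n × Fin n) k)))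

/-- IS: symmetric matrices -/
def StmIS (k : Type*) [Field k] : Prop := ∀ n : ℕ, 1 ≤ n → Irreducible
  (Matrix.permanent (Matrix.of fun i j : Fin n =>
    (MvPolynomial.X s(i, j) : MvPolynomial (Sym2 (Fin n)) k)))

/-- IH: Hankel matrices -/
def StmIH (k : Type*) [Field k] : Prop := ∀ n : ℕ, 1 ≤ n → Irreducible
  (Matrix.permanent (Matrix.of fun i j : Fin n =>
    (MvPolynomial.X (⟨i.val + j.val, by omega⟩ : Fin (n + n - 1)) :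
      MvPolynomial (Fin (n + n - 1)) k)))

end Pool.Agent.N729.HQ
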