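import Mathlib
import Pool.Agent.N729.HQ.Stm

set_option autoImplicit false

namespace Pool.Agent.N729.HQ.TCa

open MvPolynomial

/-- `A` a finitely generated `k`-domain with a `k`-point `ε`, `lam` in the maximal ideal `m` of `ε`
with `m ^ K ≤ (lam) + m ^ (K + 1)`: then `A` is algebraic over `k[lam]`. -/
theorem isAlg (k A : Type*) [Field k] [CommRing A] [IsDomain A] [Algebra k A]
    [Algebra.FiniteType k A] (ε : A →ₐ[k] k) (s : ℕ) (lam : Fin s → A) (hlam : ∀ i, ε (lam i) = 0)
    (K : ℕ) (hK : RingHom.ker ε ^ K ≤ Ideal.span (Set.range lam) ⊔ RingHom.ker ε ^ (K + 1)) :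
    Algebra.IsAlgebraic (Algebra.adjoin k (Set.range lam)) A := by
  classical
  have hnoeth : IsNoetherianRing A := Algebra.FiniteType.isNoetherianRing k A
  set m : Ideal A := RingHom.ker ε with hm
  have hsurj : Function.Surjective ε := fun x => ⟨algebraMap k A x, by simp⟩
  have hmax : m.IsMaximal := RingHom.ker_isMaximal_of_surjective ε hsurj
  set L : Ideal A := Ideal.span (Set.range lam) with hL
  -- step 1
  obtain ⟨f, hf1, hf2⟩ : ∃ f : A, f ∉ m ∧ ∀ x ∈ m ^ K, f * x ∈ L := by
    have h1 : Submodule.map L.mkQ (m ^ K) ≤ m • Submodule.map L.mkQ (m ^ K) := by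
      rw [← Submodule.map_smul'']
      have h2 : (m ^ K : Ideal A) ≤ L ⊔ m • (m ^ K : Ideal A) := by
        rw [smul_eq_mul, ← pow_succ']
        exact hK
      calc Submodule.map L.mkQ (m ^ K) ≤ Submodule.map L.mkQ (L ⊔ m • (m ^ K : Ideal A)) :=
            Submodule.map_mono h2
        _ = Submodule.map L.mkQ (m • (m ^ K : Ideal A)) := by
            rw [Submodule.map_sup, Submodule.mkQ_map_self, bot_sup_eq]
    obtain ⟨r, hr1, hr2⟩ := Submodule.exists_sub_one_mem_and_smul_eq_zero_of_fg_of_le_smul m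
      (Submodule.map L.mkQ (m ^ K)) (Submodule.FG.map _ ((isNoetherianRing_iff_ideal_fg A).1 hnoeth (m ^ K))) h1
    refine ⟨r, fun hr => ?_, fun x hx => ?_⟩
    · apply hmax.ne_top
      rw [Ideal.eq_top_iff_one]
      have := m.sub_mem hr hr1
      simpa using this
    · have h3 := hr2 _ (Submodule.mem_map_of_mem hx)
      rw [← map_smul, Submodule.mkQ_apply, Submodule.Quotient.mk_eq_zero] at h3
      exact h3
  -- step 2
  let algB : Algebra (MvPolynomial (Fin s) k) A := (aeval lam : _ →ₐ[k] A).toRingHom.toAlgebra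
  have hmap : ∀ p : MvPolynomial (Fin s) k, algebraMap (MvPolynomial (Fin s) k) A p = aeval lam p :=
    fun p => rfl
  have tow : IsScalarTower k (MvPolynomial (Fin s) k) A := IsScalarTower.of_algebraMap_eq
    fun x => by
      rw [hmap, algebraMap_eq, aeval_C]
  have ft : Algebra.FiniteType (MvPolynomial (Fin s) k) A :=
    Algebra.FiniteType.of_restrictScalars_finiteType k _ _
  have hprime : m.IsPrime := hmax.isPrime
  have hqf : Algebra.QuasiFiniteAt (MvPolynomial (Fin s) k) m := by
    refine Algebra.QuasiFiniteAt.of_isOpen_singleton_fiber (R := MvPolynomial (Fin s) k)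
      (⟨m, hprime⟩ : PrimeSpectrum A) ?_
    have hset : ({⟨⟨m, hprime⟩, rfl⟩} : Set (PrimeSpectrum.comap (algebraMap (MvPolynomial (Fin s) k) A) ⁻¹'
        {PrimeSpectrum.comap (algebraMap (MvPolynomial (Fin s) k) A) ⟨m, hprime⟩})) =
        Subtype.val ⁻¹' (PrimeSpectrum.basicOpen f : Set (PrimeSpectrum A)) := by
      ext ⟨p, hp⟩
      rw [Set.mem_singleton_iff, Set.mem_preimage, Subtype.ext_iff]
      constructor
      · intro h
        have h' : p = ⟨m, hprime⟩ := h
        subst h'
        exact hf1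
      · intro h
        have h0 : f ∉ p.asIdeal := h
        have hlp : ∀ i, lam i ∈ p.asIdeal := by
          intro i
          have h1 : PrimeSpectrum.comap (algebraMap (MvPolynomial (Fin s) k) A) p =
            PrimeSpectrum.comap (algebraMap (MvPolynomial (Fin s) k) A) ⟨m, hprime⟩ := hp
          have h2 : (X i : MvPolynomial (Fin s) k) ∈
              (PrimeSpectrum.comap (algebraMap (MvPolynomial (Fin s) k) A) ⟨m, hprime⟩).asIdeal := by
            rw [PrimeSpectrum.comap_asIdeal, Ideal.mem_comap, hmap, aeval_X]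
            exact hlam i
          rw [← h1, PrimeSpectrum.comap_asIdeal, Ideal.mem_comap, hmap, aeval_X] at h2
          exact h2
        have hLp : L ≤ p.asIdeal := by
          rw [hL, Ideal.span_le]
          rintro _ ⟨i, rfl⟩
          exact hlp i
        have hmp : m ≤ p.asIdeal := by
          intro x hx
          have h3 : f * x ^ K ∈ p.asIdeal := hLp (hf2 _ (Ideal.pow_mem_pow hx K))
          rcases p.isPrime.mem_or_mem h3 with h4 | h4
          · exact absurd h4 h0
          · exact p.isPrime.mem_of_pow_mem K h4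
        have h5 : m = p.asIdeal := hmax.eq_of_le p.isPrime.ne_top hmp
        exact PrimeSpectrum.ext h5.symm
    rw [hset]
    exact (PrimeSpectrum.basicOpen f).isOpen.preimage continuous_subtype_val
  -- step 3
  have hz : Algebra.ZariskisMainProperty (MvPolynomial (Fin s) k) m :=
    Algebra.ZariskisMainProperty.of_finiteType m
  obtain ⟨r, hrm, hrint, hr⟩ := Algebra.zariskisMainProperty_iff.1 hz
  have hr0 : r ≠ 0 := fun h => hrm (h ▸ m.zero_mem)
  -- step 4
  have hrange : ∀ p : MvPolynomial (Fin s) k, aeval lam p ∈ Algebra.adjoin k (Set.range lam) := by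
    intro p
    rw [Algebra.adjoin_range_eq_range_aeval]
    exact ⟨p, rfl⟩
  let g : MvPolynomial (Fin s) k →+* Algebra.adjoin k (Set.range lam) :=
    ((aeval lam : _ →ₐ[k] A).codRestrict _ hrange).toRingHom
  have hg : algebraMap (MvPolynomial (Fin s) k) A =
      (algebraMap (Algebra.adjoin k (Set.range lam)) A).comp g := rfl
  have htr : ∀ y : A, IsIntegral (MvPolynomial (Fin s) k) y →
      IsIntegral (Algebra.adjoin k (Set.range lam)) y := by
    intro y hy
    have h1 : (algebraMap (MvPolynomial (Fin s) k) A).IsIntegralElem y := hy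
    rw [hg] at h1
    exact h1.of_comp
  refine ⟨fun x => ?_⟩
  obtain ⟨n, hn⟩ := hr x
  have h1 : IsAlgebraic (Algebra.adjoin k (Set.range lam)) (r ^ n) :=
    ((htr r hrint).pow n).isAlgebraic
  exact IsAlgebraic.of_mul (mem_nonZeroDivisors_of_ne_zero (pow_ne_zero n hr0)) h1
    (htr _ hn).isAlgebraic

theorem tc (k : Type*) [Field k] (N : ℕ) (P : Ideal (MvPolynomial (Fin N) k)) (hP : P.IsPrime)
    (q : Fin N → k) (hq : ∀ f ∈ P, MvPolynomial.eval q f = 0)
    (s : ℕ) (lam : Fin s → MvPolynomial (Fin N) k) (hlam : ∀ i, MvPolynomial.eval q (lam i) = 0)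
    (K : ℕ) (hK : RingHom.ker (MvPolynomial.eval q) ^ K ≤
      P ⊔ Ideal.span (Set.range lam) ⊔ RingHom.ker (MvPolynomial.eval q) ^ (K + 1)) :
    Algebra.trdeg k (MvPolynomial (Fin N) k ⧸ P) ≤ (s : Cardinal) := by
  classical
  have hdom : IsDomain (MvPolynomial (Fin N) k ⧸ P) := Ideal.Quotient.isDomain P
  have haev : ∀ f : MvPolynomial (Fin N) k, aeval q f = eval q f := fun f => by
    rw [aeval_eq_eval]
  let ε : (MvPolynomial (Fin N) k ⧸ P) →ₐ[k] k :=
    Ideal.Quotient.liftₐ P (aeval q) (fun f hf => (haev f).trans (hq f hf))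
  have hε : ∀ f : MvPolynomial (Fin N) k, ε (Ideal.Quotient.mk P f) = eval q f := by
    intro f
    rw [← haev f]
    exact Ideal.Quotient.liftₐ_apply P _ _ _
  let lamA : Fin s → MvPolynomial (Fin N) k ⧸ P := fun i => Ideal.Quotient.mk P (lam i)
  have hlamA : ∀ i, ε (lamA i) = 0 := fun i => (hε _).trans (hlam i)
  have hker : RingHom.ker ε = Ideal.map (Ideal.Quotient.mk P) (RingHom.ker (eval q)) := by
    apply le_antisymm
    · intro x hx
      obtain ⟨f, rfl⟩ := Ideal.Quotient.mk_surjective x
      apply Ideal.mem_map_of_mem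
      rw [RingHom.mem_ker] at hx ⊢
      rw [← hε]
      exact hx
    · rw [Ideal.map_le_iff_le_comap]
      intro f hf
      rw [Ideal.mem_comap, RingHom.mem_ker, hε]
      exact hf
  have hK' : RingHom.ker ε ^ K ≤ Ideal.span (Set.range lamA) ⊔ RingHom.ker ε ^ (K + 1) := by
    have h1 := Ideal.map_mono (f := Ideal.Quotient.mk P) hK
    rw [Ideal.map_sup, Ideal.map_sup, Ideal.map_quotient_self, bot_sup_eq, Ideal.map_pow,
      Ideal.map_pow, ← hker, Ideal.map_span, ← Set.range_comp] at h1
    exact h1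
  have h := isAlg k (MvPolynomial (Fin N) k ⧸ P) ε s lamA hlamA K hK'
  have h1 : Algebra.trdeg k (MvPolynomial (Fin N) k ⧸ P) ≤ Cardinal.mk (Set.range lamA) :=
    Algebra.IsAlgebraic.trdeg_le_cardinalMk k (Set.range lamA)
  have h3 : Cardinal.mk (Set.range lamA) ≤ (s : Cardinal) := by
    have := Cardinal.mk_range_le_lift (f := lamA)
    simpa using this
  exact h1.trans h3

theorem t (k : Type*) [Field k] : StmTC k :=
  fun N P hP q hq s lam hlam K hK => tc k N P hP q hq s lam hlam K hK

end Pool.Agent.N729.HQ.TCa
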