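import Pool.Agent.N729.HQ.FIN
import Pool.Agent.N729.HQ.TCa
import Pool.Agent.N729.HQ.T1a
import Pool.Agent.N729.HQ.T2a
import Pool.Agent.N729.HQ.J1
import Pool.Agent.N729.HQ.QB
import Pool.Agent.N729.HQ.LK
import Pool.Agent.N729.HQ.RF
import Pool.Agent.N729.HQ.RD
import Pool.Agent.N729.HQ.CH
import Pool.Agent.N729.HQ.PB1
import Pool.Agent.N729.HQ.PB2a
import Pool.Agent.N729.HQ.PB3b
import Pool.Agent.N633.HB.LE
import Pool.Agent.N633.HB.JD
import Pool.Agent.N633.HB.W1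
import Pool.Agent.N633.HB.WE1
import Pool.Agent.N633.HB.WE2
import Pool.Agent.N633.HB.WF
import Pool.Agent.N729.HQ.LB1
import Pool.Agent.N729.HQ.LB2
import Pool.Agent.N729.HQ.LB3
import Pool.Agent.N729.HQ.B4a
import Pool.Agent.N729.HQ.C2a
import Pool.Agent.N729.HQ.C2b
import Pool.Agent.N729.HQ.C2ca
import Pool.Agent.N729.HQ.S4
import Pool.Agent.N729.HQ.S5
import Pool.Agent.N729.HQ.IG
import Pool.Agent.N729.HQ.IS
import Pool.Agent.N729.HQ.IH

/-!
Project HQ: the parts put together.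
-/

set_option autoImplicit false

namespace Pool.Agent.N729.HQ

theorem tc (k : Type*) [Field k] : StmTC k := TCa.t k

theorem t1 (k : Type*) [Field k] : StmT1 k := T1a.t k (tc k)

theorem t2 (k : Type*) [Field k] : StmT2 k := T2a.t k (tc k)

theorem pb1 (k : Type*) [Field k] : StmPB1 k := PB1.t k (LK.t k) (RF.t k) RD.t (CH.t k)

theorem pb2 (k : Type*) [Field k] : StmPB2 k := PB2a.t k (LK.t k) (RF.t k) RD.t (CH.t k)

theorem pb3 (k : Type*) [Field k] : StmPB3 k := PB3b.t k (LK.t k) (RF.t k) RD.t (CH.t k)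

/-- `n = t + 1`, `t = 2 κ ≥ 6` (project HB of helper633) -/
theorem even (k : Type*) [Field k] (h2 : (2 : k) ≠ 0) (κ : ℕ) (hκ : 3 ≤ κ) :
    NP k (2 * κ + 1) (2 * κ) := fun N h =>
  Pool.Agent.N633.HB.WF.we k (Pool.Agent.N633.HB.JD.t k (Pool.Agent.N729.HP.JB.t k))
    (Pool.Agent.N633.HB.W1.t k (Pool.Agent.N633.HB.LE.le k) (Pool.Agent.N633.HB.LE.ce k))
    (Pool.Agent.N633.HB.WE1.t k) (Pool.Agent.N633.HB.WE2.t2 k) (Pool.Agent.N633.HB.WE2.t3 k)
    h2 κ N h hκ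

theorem c2a (k : Type*) [Field k] : StmC2a k := C2a.t k (LK.t k) (RF.t k) RD.t

theorem c2b (k : Type*) [Field k] : StmC2b k := C2b.t k (QB.t k)

theorem c2c (k : Type*) [Field k] : StmC2c k := C2ca.t k (LK.t k) (QB.t k)

/-- `m = t < n ≤ 2 t - 2` -/
theorem max_not_prime (k : Type*) [Field k] (h2 : (2 : k) ≠ 0) (n t : ℕ) (h1 : t < n)
    (h3 : n + 2 ≤ 2 * t) : NP k n t :=
  FIN.fin h2 (J1.t k) (t1 k) (t2 k) (pb1 k) (LB1.t k) (pb2 k) (LB2.t k) (pb3 k) (LB3.t k) (B4a.t k)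
    (even k h2) (c2a k) (c2b k) (c2c k) (S4.t k) (S5.t k) n t h1 h3

theorem ig (k : Type*) [Field k] : StmIG k := IG.t k

theorem is (k : Type*) [Field k] : StmIS k := IS.t k

theorem ih (k : Type*) [Field k] : StmIH k := IH.t k

end Pool.Agent.N729.HQ
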