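import Pool.Agent.N729.HQ.Stm
import Pool.Agent.N729.HQ.QB

/-!
# HQ/B4b: the family B4, `n = 2 g`, `t = g + 1` (helper225 for helper729)
-/

set_option autoImplicit false

namespace Pool.Agent.N729.HQ.B4b

open Finset
open Pool.Agent.N186.HK (pm vm IsHankel pm_nil pm_cons)
open Pool.Agent.N729.HP
open Pool.Agent.N729.HP.BA (pd_nil pd_cons pm_perm pd_perm)
open Pool.Agent.N729.HQ
open Pool.Agent.N729.HQ.QB (pq_nil pq_cons pq_perm)

section

variable {k : Type*} [Field k]

/-- the point -/
def q (k : Type*) [Field k] (g v : ℕ) : k :=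
  if v = 0 ∨ v = g then 1 else if v = 2 * g then -1 else 0

/-- product formula -/
lemma pm_prod (x : ℕ → k) (L : List ℕ) : ∀ (K : Finset ℕ),
    L.Pairwise (fun c c' => ∀ j ∈ K, x (j + c) * x (j + c') = 0) →
    pm x K L = (L.map fun c => ∑ j ∈ K, x (j + c)).prod := by
  induction L with
  | nil => intro K _; simp [pm_nil]
  | cons c L ih =>
    intro K h
    rw [List.pairwise_cons] at h
    rw [pm_cons, List.map_cons, List.prod_cons, Finset.sum_mul]
    refine Finset.sum_congr rfl fun j hj => ?_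
    rw [ih (K.erase j) (h.2.imp fun {a b} hab i hi => hab i (Finset.mem_of_mem_erase hi))]
    have key : ∀ M : List ℕ, (∀ c' ∈ M, x (j + c) * x (j + c') = 0) →
        x (j + c) * (M.map fun c => ∑ j ∈ K.erase j, x (j + c)).prod =
        x (j + c) * (M.map fun c => ∑ j ∈ K, x (j + c)).prod := by
      intro M
      induction M with
      | nil => intro _; simp
      | cons a M ihM =>
        intro hM
        have h1 := hM a (by simp)
        have h2 := ihM fun c' hc' => hM c' (by simp [hc'])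
        have h3 : ∑ i ∈ K, x (i + a) = x (j + a) + ∑ i ∈ K.erase j, x (i + a) :=
          (Finset.add_sum_erase K (fun i => x (i + a)) hj).symm
        simp only [List.map_cons, List.prod_cons]
        rw [h3]
        linear_combination (∑ i ∈ K.erase j, x (i + a)) * h2 -
          (M.map fun c => ∑ j ∈ K, x (j + c)).prod * h1
    exact key L fun c' hc' => h.1 c' hc' j hj

/-- the sign of a class -/
def e (k : Type*) [Field k] (g : ℕ) (K : Finset ℕ) (τ : ℕ) : k :=
  (if τ ∈ K then 1 else 0) - (if τ + g ∈ K then 1 else 0)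

lemma q_mid {g c j : ℕ} (hc : 1 ≤ c) (hcg : c < g) (hj : j < 2 * g) :
    q k g (j + c) = (if j = g - c then 1 else 0) - (if j = g - c + g then 1 else 0) := by
  unfold q
  by_cases h1 : j = g - c
  · have h2 : j + c = 0 ∨ j + c = g := by omega
    have h3 : ¬ (j = g - c + g) := by omega
    rw [if_pos h2, if_pos h1, if_neg h3, sub_zero]
  · have h2 : ¬ (j + c = 0 ∨ j + c = g) := by omega
    rw [if_neg h2, if_neg h1]
    by_cases h3 : j = g - c + g
    · have h4 : j + c = 2 * g := by omega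
      rw [if_pos h4, if_pos h3, zero_sub]
    · have h4 : ¬ (j + c = 2 * g) := by omega
      rw [if_neg h4, if_neg h3, sub_zero]

lemma q_zero {g j : ℕ} (_hg : 2 ≤ g) (hj : j < 2 * g) :
    q k g (j + 0) = (if j = 0 then 1 else 0) + (if j = g then 1 else 0) := by
  unfold q
  by_cases h1 : j = 0
  · have h2 : j + 0 = 0 ∨ j + 0 = g := by omega
    have h3 : ¬ (j = g) := by omega
    rw [if_pos h2, if_pos h1, if_neg h3, add_zero]
  · by_cases h3 : j = g
    · have h2 : (j + 0 = 0 ∨ j + 0 = g) := by omega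
      rw [if_pos h2, if_neg h1, if_pos h3, zero_add]
    · have h2 : ¬ (j + 0 = 0 ∨ j + 0 = g) := by omega
      have h4 : ¬ (j + 0 = 2 * g) := by omega
      rw [if_neg h2, if_neg h4, if_neg h1, if_neg h3, add_zero]

lemma q_g {g j : ℕ} (_hg : 2 ≤ g) (hj : j < 2 * g) :
    q k g (j + g) = (if j = 0 then 1 else 0) - (if j = g then 1 else 0) := by
  unfold q
  by_cases h1 : j = 0
  · have h2 : j + g = 0 ∨ j + g = g := by omega
    have h3 : ¬ (j = g) := by omega
    rw [if_pos h2, if_pos h1, if_neg h3, sub_zero]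
  · have h2 : ¬ (j + g = 0 ∨ j + g = g) := by omega
    rw [if_neg h2, if_neg h1]
    by_cases h3 : j = g
    · have h4 : j + g = 2 * g := by omega
      rw [if_pos h4, if_pos h3, zero_sub]
    · have h4 : ¬ (j + g = 2 * g) := by omega
      rw [if_neg h4, if_neg h3, sub_zero]

lemma sum_mid {g c : ℕ} (hc : 1 ≤ c) (hcg : c < g) (K : Finset ℕ) (hK : ∀ j ∈ K, j < 2 * g) :
    ∑ j ∈ K, q k g (j + c) = e k g K (g - c) := by
  rw [Finset.sum_congr rfl fun j hj => q_mid hc hcg (hK j hj), Finset.sum_sub_distrib,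
    Finset.sum_ite_eq', Finset.sum_ite_eq']
  rfl

lemma sum_zero {g : ℕ} (hg : 2 ≤ g) (K : Finset ℕ) (hK : ∀ j ∈ K, j < 2 * g) (G : ℕ → k) :
    ∑ j ∈ K, q k g (j + 0) * G j = (if 0 ∈ K then G 0 else 0) + (if g ∈ K then G g else 0) := by
  rw [Finset.sum_congr rfl fun j hj => by rw [q_zero hg (hK j hj), add_mul, ite_mul, ite_mul,
    one_mul, zero_mul], Finset.sum_add_distrib, Finset.sum_ite_eq', Finset.sum_ite_eq']

lemma sum_g {g : ℕ} (hg : 2 ≤ g) (K : Finset ℕ) (hK : ∀ j ∈ K, j < 2 * g) (G : ℕ → k) :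
    ∑ j ∈ K, q k g (j + g) * G j = (if 0 ∈ K then G 0 else 0) - (if g ∈ K then G g else 0) := by
  rw [Finset.sum_congr rfl fun j hj => by rw [q_g hg (hK j hj), sub_mul, ite_mul, ite_mul,
    one_mul, zero_mul], Finset.sum_sub_distrib, Finset.sum_ite_eq', Finset.sum_ite_eq']

lemma pm_mid {g : ℕ} (M : List ℕ) (hM : M.Nodup) (hM1 : ∀ c ∈ M, 1 ≤ c ∧ c < g)
    (K : Finset ℕ) (hK : ∀ j ∈ K, j < 2 * g) :
    pm (q k g) K M = ∏ c ∈ M.toFinset, e k g K (g - c) := by
  rw [pm_prod, List.prod_toFinset _ hM]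
  · congr 1
    refine List.map_congr_left fun c hc => ?_
    exact sum_mid (hM1 c hc).1 (hM1 c hc).2 K hK
  · refine List.Pairwise.imp_of_mem (R := (· ≠ ·)) ?_ hM
    intro a b ha hb hab j hj
    rw [q_mid (hM1 a ha).1 (hM1 a ha).2 (hK j hj), q_mid (hM1 b hb).1 (hM1 b hb).2 (hK j hj)]
    have := hM1 a ha
    have := hM1 b hb
    by_cases h1 : j = g - a
    · rw [if_neg (show ¬ (j = g - b) by omega), if_neg (show ¬ (j = g - b + g) by omega)]
      ring
    · by_cases h2 : j = g - a + g
      · rw [if_neg (show ¬ (j = g - b) by omega), if_neg (show ¬ (j = g - b + g) by omega)]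
        ring
      · rw [if_neg h1, if_neg h2]
        ring

/-- the rows `1, …, g - 1` -/
def R (g : ℕ) : List ℕ := List.range' 1 (g - 1)

lemma mem_R {g c : ℕ} : c ∈ R g ↔ 1 ≤ c ∧ c < g := by
  unfold R
  rw [List.mem_range'_1]
  omega

lemma nodup_R (g : ℕ) : (R g).Nodup := List.nodup_range'

lemma R_toFinset (g : ℕ) : (R g).toFinset = Ico 1 g := by
  ext c
  rw [List.mem_toFinset, mem_R, Finset.mem_Ico]

/-- the product of the signs -/
def P (k : Type*) [Field k] (g : ℕ) (K : Finset ℕ) : k := ∏ τ ∈ Ico 1 g, e k g K τ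

lemma pm_R {g : ℕ} (K : Finset ℕ) (hK : ∀ j ∈ K, j < 2 * g) :
    pm (q k g) K (R g) = P k g K := by
  rw [pm_mid (R g) (nodup_R g) (fun c hc => mem_R.1 hc) K hK, R_toFinset]
  unfold P
  rcases Nat.eq_zero_or_pos g with rfl | hg
  · simp
  · have := Finset.prod_Ico_reflect (fun τ => e k g K τ) 1 (m := g) (n := g) (by omega)
    rw [this]
    congr 2
    all_goals omega

lemma e_erase {g : ℕ} (K : Finset ℕ) (j τ : ℕ) (h1 : j ≠ τ) (h2 : j ≠ τ + g) :
    e k g (K.erase j) τ = e k g K τ := by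
  unfold e
  simp only [Finset.mem_erase, ne_eq, Ne.symm h1, Ne.symm h2, not_false_eq_true, true_and]

lemma P_erase_zero {g : ℕ} (K : Finset ℕ) : P k g (K.erase 0) = P k g K := by
  unfold P
  refine Finset.prod_congr rfl fun τ hτ => ?_
  rw [Finset.mem_Ico] at hτ
  exact e_erase K 0 τ (by omega) (by omega)

lemma P_erase_g {g : ℕ} (K : Finset ℕ) : P k g (K.erase g) = P k g K := by
  unfold P
  refine Finset.prod_congr rfl fun τ hτ => ?_
  rw [Finset.mem_Ico] at hτ
  exact e_erase K g τ (by omega) (by omega)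

lemma pm_vanish {g : ℕ} (hg : 2 ≤ g) (M : List ℕ) (K : Finset ℕ) (hK : ∀ j ∈ K, j < 2 * g) :
    pm (q k g) K (0 :: g :: M) = 0 := by
  have hg0 : g ≠ 0 := by omega
  rw [pm_cons, sum_zero hg K hK (fun j => pm (q k g) (K.erase j) (g :: M))]
  have h : ∀ i, pm (q k g) (K.erase i) (g :: M) =
      (if 0 ∈ K.erase i then pm (q k g) ((K.erase i).erase 0) M else 0) -
      (if g ∈ K.erase i then pm (q k g) ((K.erase i).erase g) M else 0) := fun i => by
    rw [pm_cons, sum_g hg (K.erase i) (fun j hj => hK j (Finset.mem_of_mem_erase hj))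
      (fun j => pm (q k g) ((K.erase i).erase j) M)]
  rw [h 0, h g]
  rw [Finset.erase_right_comm (a := g) (b := 0)]
  simp only [Finset.mem_erase, ne_eq, not_true_eq_false, false_and, if_false, hg0, hg0.symm,
    not_false_eq_true, true_and]
  by_cases h0 : 0 ∈ K <;> by_cases h1 : g ∈ K <;> simp [h0, h1]

lemma perm_range {g : ℕ} (hg : 2 ≤ g) : (List.range (g + 1)).Perm (0 :: g :: R g) := by
  refine (List.perm_ext_iff_of_nodup List.nodup_range ?_).2 fun a => ?_
  · rw [List.nodup_cons, List.nodup_cons]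
    refine ⟨?_, ?_, nodup_R g⟩
    · rw [List.mem_cons, mem_R]; omega
    · rw [mem_R]; omega
  · rw [List.mem_range, List.mem_cons, List.mem_cons, mem_R]; omega

lemma nodup_full {g : ℕ} (hg : 2 ≤ g) : (0 :: g :: R g).Nodup := by
  rw [List.nodup_cons, List.nodup_cons]
  refine ⟨?_, ?_, nodup_R g⟩
  · rw [List.mem_cons, mem_R]; omega
  · rw [mem_R]; omega

/-- the first order terms -/
lemma pd_formula {g : ℕ} (hg : 2 ≤ g) (y : ℕ → k) (K : Finset ℕ) (hK : ∀ j ∈ K, j < 2 * g) :
    pd (q k g) y K (List.range (g + 1)) =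
      ∑ j ∈ K, ((if 0 ∈ K.erase j then y j + y (j + g) else 0) +
        (if g ∈ K.erase j then y (j + g) - y j else 0)) * P k g (K.erase j) := by
  rw [pd_perm (q k g) y (perm_range hg), bf k (q k g) y K _ (nodup_full hg)]
  rw [List.toFinset_cons, List.toFinset_cons, R_toFinset]
  rw [Finset.sum_insert (by simp; omega), Finset.sum_insert (by simp)]
  rw [Finset.sum_eq_zero (s := Ico 1 g), add_zero, ← Finset.sum_add_distrib]
  · refine Finset.sum_congr rfl fun j hj => ?_
    rw [List.erase_cons_head, List.erase_cons_tail (by simp; omega), List.erase_cons_head]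
    have hK' : ∀ i ∈ K.erase j, i < 2 * g := fun i hi => hK i (Finset.mem_of_mem_erase hi)
    have hK0 : ∀ i ∈ (K.erase j).erase 0, i < 2 * g := fun i hi =>
      hK' i (Finset.mem_of_mem_erase hi)
    have hKg : ∀ i ∈ (K.erase j).erase g, i < 2 * g := fun i hi =>
      hK' i (Finset.mem_of_mem_erase hi)
    rw [pm_cons, sum_g hg (K.erase j) hK' (fun i => pm (q k g) ((K.erase j).erase i) (R g)),
      pm_cons, sum_zero hg (K.erase j) hK' (fun i => pm (q k g) ((K.erase j).erase i) (R g)),
      pm_R _ hK0, pm_R _ hKg, P_erase_zero, P_erase_g, add_zero]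
    split_ifs <;> ring
  · intro c hc
    rw [Finset.mem_Ico] at hc
    refine Finset.sum_eq_zero fun j hj => ?_
    rw [List.erase_cons_tail (by simp; omega), List.erase_cons_tail (by simp; omega),
      pm_vanish hg _ _ fun i hi => hK i (Finset.mem_of_mem_erase hi), mul_zero]

lemma P_erase_lo {g τ : ℕ} (hτ : τ ∈ Ico 1 g) (K : Finset ℕ) :
    P k g (K.erase τ) = - (if τ + g ∈ K then 1 else 0) * ∏ σ ∈ (Ico 1 g).erase τ, e k g K σ := by
  unfold P
  rw [← Finset.mul_prod_erase _ _ hτ]
  congr 1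
  · unfold e
    rw [Finset.mem_Ico] at hτ
    rw [if_neg (by simp)]
    simp only [Finset.mem_erase, show τ + g ≠ τ by omega, ne_eq, not_false_eq_true, true_and,
      zero_sub]
  · refine Finset.prod_congr rfl fun σ hσ => ?_
    rw [Finset.mem_erase, Finset.mem_Ico] at hσ
    rw [Finset.mem_Ico] at hτ
    exact e_erase K τ σ (by omega) (by omega)

lemma P_erase_hi {g τ : ℕ} (hτ : τ ∈ Ico 1 g) (K : Finset ℕ) :
    P k g (K.erase (τ + g)) = (if τ ∈ K then 1 else 0) * ∏ σ ∈ (Ico 1 g).erase τ, e k g K σ := by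
  unfold P
  rw [← Finset.mul_prod_erase _ _ hτ]
  congr 1
  · unfold e
    rw [Finset.mem_Ico] at hτ
    rw [if_neg (c := τ + g ∈ K.erase (τ + g)) (by simp)]
    simp only [Finset.mem_erase, show τ ≠ τ + g by omega, ne_eq, not_false_eq_true, true_and,
      sub_zero]
  · refine Finset.prod_congr rfl fun σ hσ => ?_
    rw [Finset.mem_erase, Finset.mem_Ico] at hσ
    rw [Finset.mem_Ico] at hτ
    exact e_erase K (τ + g) σ (by omega) (by omega)

/-- the tangent vector -/
def w (k : Type*) [Field k] (g v : ℕ) : k := if v % g = 0 then 0 else 1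

lemma w_add (g v : ℕ) : w k g (v + g) = w k g v := by
  unfold w
  rw [Nat.add_mod_right]

lemma sum_w {g : ℕ} (_hg : 2 ≤ g) (K : Finset ℕ) (hK : ∀ j ∈ K, j < 2 * g) :
    ∑ j ∈ K, w k g j * P k g (K.erase j) = 0 := by
  have h1 : ∑ j ∈ K, w k g j * P k g (K.erase j) =
      ∑ j ∈ range (g + g), if j ∈ K then w k g j * P k g (K.erase j) else 0 := by
    rw [← Finset.sum_filter]
    refine Finset.sum_congr ?_ fun _ _ => rfl
    ext j
    rw [Finset.mem_filter, Finset.mem_range]
    constructor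
    · intro hj
      exact ⟨by have := hK j hj; omega, hj⟩
    · intro hj
      exact hj.2
  rw [h1, Finset.sum_range_add, ← Finset.sum_add_distrib]
  refine Finset.sum_eq_zero fun j hj => ?_
  rw [Finset.mem_range] at hj
  rw [show g + j = j + g by omega, w_add]
  by_cases hj0 : j = 0
  · have : w k g j = 0 := by subst hj0; simp [w]
    rw [this]
    simp
  · have hj' : j ∈ Ico 1 g := by rw [Finset.mem_Ico]; omega
    rw [P_erase_lo hj', P_erase_hi hj']
    by_cases h2 : j ∈ K <;> by_cases h3 : j + g ∈ K <;> simp [h2, h3]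

lemma tangent_w {g : ℕ} (hg : 2 ≤ g) : Tt (2 * g) (g + 1) (q k g) (w k g) := by
  intro K _ hK
  rw [pd_formula hg _ K hK]
  have h : ∀ j ∈ K, ((if 0 ∈ K.erase j then w k g j + w k g (j + g) else 0) +
        (if g ∈ K.erase j then w k g (j + g) - w k g j else 0)) * P k g (K.erase j) =
      (if 0 ∈ K then 2 else 0) * (w k g j * P k g (K.erase j)) := by
    intro j hj
    rw [w_add, sub_self, ite_self, add_zero]
    by_cases hj0 : j = 0
    · have : w k g j = 0 := by subst hj0; simp [w]
      rw [this]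
      simp
    · have : (0 ∈ K.erase j) = (0 ∈ K) := by
        rw [Finset.mem_erase]; simp [Ne.symm hj0]
      simp only [this]
      split_ifs <;> ring
  rw [Finset.sum_congr rfl h, ← Finset.mul_sum, sum_w hg K hK, mul_zero]

lemma vt {g : ℕ} (hg : 2 ≤ g) : Vt (2 * g) (g + 1) (q k g) := by
  intro K _ hK
  rw [pm_perm (q k g) (perm_range hg), pm_vanish hg _ K hK]

/-- the first order terms if a class is doubled -/
lemma pd_double {g τ : ℕ} (hg : 2 ≤ g) (hτ : τ ∈ Ico 1 g) (y : ℕ → k) (K : Finset ℕ)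
    (hK : ∀ j ∈ K, j < 2 * g) (h1 : τ ∈ K) (h2 : τ + g ∈ K) :
    pd (q k g) y K (List.range (g + 1)) =
      (((if 0 ∈ K then y (τ + g) + y (τ + g + g) else 0) +
        (if g ∈ K then y (τ + g + g) - y (τ + g) else 0)) -
      ((if 0 ∈ K then y τ + y (τ + g) else 0) +
        (if g ∈ K then y (τ + g) - y τ else 0))) * ∏ σ ∈ (Ico 1 g).erase τ, e k g K σ := by
  have hτ' := Finset.mem_Ico.1 hτ
  rw [pd_formula hg y K hK]
  have hs : ({τ, τ + g} : Finset ℕ) ⊆ K := by
    intro i hi
    rw [Finset.mem_insert, Finset.mem_singleton] at hi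
    rcases hi with rfl | rfl
    · exact h1
    · exact h2
  rw [← Finset.sum_subset hs]
  · rw [Finset.sum_pair (by omega), P_erase_lo hτ, P_erase_hi hτ, if_pos h1, if_pos h2]
    simp only [Finset.mem_erase, ne_eq, show (0 : ℕ) ≠ τ by omega, show g ≠ τ by omega,
      show (0 : ℕ) ≠ τ + g by omega, show g ≠ τ + g by omega, not_false_eq_true, true_and]
    ring
  · intro j _ hj2
    rw [Finset.mem_insert, Finset.mem_singleton, not_or] at hj2
    have : P k g (K.erase j) = 0 := by
      unfold P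
      refine Finset.prod_eq_zero hτ ?_
      rw [e_erase K j τ hj2.1 hj2.2]
      unfold e
      rw [if_pos h1, if_pos h2, sub_self]
    rw [this, mul_zero]

/-- the first order terms of a transversal -/
lemma pd_trans {g : ℕ} (hg : 2 ≤ g) (y : ℕ → k) (K : Finset ℕ)
    (hK : ∀ j ∈ K, j < 2 * g) (h0 : 0 ∈ K) (h1 : g ∈ K)
    (hT : ∀ τ ∈ Ico 1 g, τ ∈ K → τ + g ∈ K → False) :
    pd (q k g) y K (List.range (g + 1)) = (2 * y g - y 0 + y (g + g)) * P k g K := by
  rw [pd_formula hg y K hK]
  have hs : ({0, g} : Finset ℕ) ⊆ K := by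
    intro i hi
    rw [Finset.mem_insert, Finset.mem_singleton] at hi
    rcases hi with rfl | rfl
    · exact h0
    · exact h1
  rw [← Finset.sum_subset hs]
  · rw [Finset.sum_pair (by omega), P_erase_zero, P_erase_g]
    simp only [Finset.mem_erase, ne_eq, show (0 : ℕ) ≠ g by omega, show g ≠ 0 by omega,
      not_false_eq_true, not_true_eq_false, false_and, true_and, if_false, h0, h1, if_true,
      zero_add]
    ring
  · intro j hj hj2
    rw [Finset.mem_insert, Finset.mem_singleton, not_or] at hj2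
    have hj3 := hK j hj
    have : P k g (K.erase j) = 0 := by
      by_cases hjg : j < g
      · have hτ : j ∈ Ico 1 g := by rw [Finset.mem_Ico]; omega
        rw [P_erase_lo hτ, if_neg fun h => hT j hτ hj h]
        ring
      · have hτ : j - g ∈ Ico 1 g := by rw [Finset.mem_Ico]; omega
        have hj4 : j = (j - g) + g := by omega
        rw [hj4, P_erase_hi hτ, if_neg fun h => hT (j - g) hτ h (hj4 ▸ hj)]
        ring
    rw [this, mul_zero]

/-- the two transversals -/
def J' (g a : ℕ) : Finset ℕ := insert (1 + a * g) (Ico 2 g)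

def Js (g a : ℕ) : Finset ℕ := {0, g} ∪ J' g a

lemma mem_J' {g a j : ℕ} : j ∈ J' g a ↔ j = 1 + a * g ∨ (2 ≤ j ∧ j < g) := by
  unfold J'
  rw [Finset.mem_insert, Finset.mem_Ico]

lemma mem_Js {g a j : ℕ} : j ∈ Js g a ↔ (j = 0 ∨ j = g) ∨ j = 1 + a * g ∨ (2 ≤ j ∧ j < g) := by
  unfold Js
  rw [Finset.mem_union, Finset.mem_insert, Finset.mem_singleton, mem_J']

lemma a_cases {a : ℕ} (ha : a < 2) (g : ℕ) : a * g = 0 ∨ a * g = g := by
  interval_cases a
  · left; simp
  · right; simp

lemma card_J' {g a : ℕ} (hg : 2 ≤ g) (ha : a < 2) : (J' g a).card = g - 1 := by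
  unfold J'
  rw [Finset.card_insert_of_notMem, Nat.card_Ico]
  · omega
  · rw [Finset.mem_Ico]
    have := a_cases ha g
    omega

lemma disj {g a : ℕ} (hg : 2 ≤ g) (ha : a < 2) : Disjoint ({0, g} : Finset ℕ) (J' g a) := by
  rw [Finset.disjoint_left]
  intro i hi hi2
  rw [Finset.mem_insert, Finset.mem_singleton] at hi
  rw [mem_J'] at hi2
  have := a_cases ha g
  omega

lemma card_Js {g a : ℕ} (hg : 2 ≤ g) (ha : a < 2) : (Js g a).card = g + 1 := by
  unfold Js
  rw [Finset.card_union_of_disjoint (disj hg ha), card_J' hg ha, Finset.card_pair (by omega)]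
  omega

lemma lt_Js {g a : ℕ} (hg : 2 ≤ g) (ha : a < 2) : ∀ j ∈ Js g a, j < 2 * g := by
  intro j hj
  rw [mem_Js] at hj
  have := a_cases ha g
  omega

/-- the sign of the transversal -/
def β (k : Type*) [Field k] (a : ℕ) : k := if a = 0 then 1 else -1

lemma e_two {g : ℕ} (K : Finset ℕ) {σ : ℕ} (h1 : σ ∈ K) (h2 : σ + g ∉ K) : e k g K σ = 1 := by
  unfold e
  rw [if_pos h1, if_neg h2, sub_zero]

lemma e_first {g a : ℕ} (hg : 2 ≤ g) (ha : a < 2) (K : Finset ℕ)
    (hK1 : 1 + a * g ∈ K) (hK2 : ∀ j ∈ K, j % g = 1 % g → j = 1 + a * g) : e k g K 1 = β k a := by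
  unfold e β
  interval_cases a
  · have h1 : 1 ∈ K := by simpa using hK1
    have h2 : 1 + g ∉ K := by
      intro h
      have := hK2 _ h (by rw [Nat.add_mod_right])
      omega
    rw [if_pos h1, if_neg h2]
    simp
  · have h1 : 1 + g ∈ K := by simpa using hK1
    have h2 : 1 ∉ K := by
      intro h
      have := hK2 _ h rfl
      omega
    rw [if_neg h2, if_pos h1]
    simp

lemma mod_first {g a j : ℕ} (hg : 2 ≤ g) (_ha : a < 2)
    (hj : (j = 0 ∨ j = g) ∨ j = 1 + a * g ∨ (2 ≤ j ∧ j < g)) (h : j % g = 1 % g) :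
    j = 1 + a * g := by
  rw [Nat.mod_eq_of_lt (show 1 < g by omega)] at h
  rcases hj with (rfl | rfl) | h1 | h1
  · simp at h
  · simp at h
  · exact h1
  · rw [Nat.mod_eq_of_lt h1.2] at h
    omega

lemma P_Js {g a : ℕ} (hg : 2 ≤ g) (ha : a < 2) : P k g (Js g a) = β k a := by
  unfold P
  rw [Finset.prod_eq_single 1]
  · exact e_first hg ha _ (mem_Js.2 (Or.inr (Or.inl rfl)))
      fun j hj h => mod_first hg ha (mem_Js.1 hj) h
  · intro σ hσ hσ1
    rw [Finset.mem_Ico] at hσ
    have := a_cases ha g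
    exact e_two _ (mem_Js.2 (by omega)) (fun h => by rw [mem_Js] at h; omega)
  · intro h
    exact absurd (Finset.mem_Ico.2 ⟨le_refl 1, by omega⟩) h

lemma pd_Js {g a : ℕ} (hg : 2 ≤ g) (ha : a < 2) (y : ℕ → k) :
    pd (q k g) y (Js g a) (List.range (g + 1)) = (2 * y g - y 0 + y (g + g)) * β k a := by
  rw [pd_trans hg y (Js g a) (lt_Js hg ha) (mem_Js.2 (by omega)) (mem_Js.2 (by omega)),
    P_Js hg ha]
  intro τ hτ h1 h2
  rw [Finset.mem_Ico] at hτ
  rw [mem_Js] at h1 h2
  have := a_cases ha g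
  omega

/-- the relations of the tangent space -/
lemma rel {g : ℕ} (h2 : (2 : k) ≠ 0) (hg : 2 ≤ g) (y : ℕ → k)
    (hy : Tt (2 * g) (g + 1) (q k g) y) :
    2 * y g - y 0 + y (g + g) = 0 ∧
    ∀ τ, 1 ≤ τ → τ < g → y (τ + g) = y τ ∧ y (τ + g + g) = y τ := by
  constructor
  · have := hy (Js g 0) (card_Js hg (by omega)) (lt_Js hg (by omega))
    rw [pd_Js hg (by omega)] at this
    simpa [β] using this
  · intro τ h1 hτg
    have hτ : τ ∈ Ico 1 g := Finset.mem_Ico.2 ⟨h1, hτg⟩
    have hP : ∀ K : Finset ℕ, (∀ σ, 1 ≤ σ → σ < g → σ ≠ τ → σ ∈ K ∧ σ + g ∉ K) →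
        ∏ σ ∈ (Ico 1 g).erase τ, e k g K σ = 1 := by
      intro K hK
      refine Finset.prod_eq_one fun σ hσ => ?_
      rw [Finset.mem_erase, Finset.mem_Ico] at hσ
      have := hK σ hσ.2.1 hσ.2.2 hσ.1
      exact e_two K this.1 this.2
    -- the first relation
    have hA : y (τ + g + g) - y τ = 0 := by
      have hm : ∀ j, j ∈ insert (τ + g) (range g) ↔ j = τ + g ∨ j < g := fun j => by
        rw [Finset.mem_insert, Finset.mem_range]
      have hlt : ∀ j ∈ insert (τ + g) (range g), j < 2 * g := fun j hj => by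
        rw [hm] at hj; omega
      have := hy (insert (τ + g) (range g)) (by
        rw [Finset.card_insert_of_notMem (by simp), Finset.card_range]) hlt
      rw [pd_double hg hτ y _ hlt ((hm _).2 (by omega)) ((hm _).2 (by omega)), hP,
        if_pos ((hm 0).2 (by omega)), if_pos ((hm 0).2 (by omega)),
        if_neg (fun h => by rw [hm] at h; omega), if_neg (fun h => by rw [hm] at h; omega)] at this
      · linear_combination this
      · intro σ h3 h4 h5
        exact ⟨(hm _).2 (by omega), fun h => by rw [hm] at h; omega⟩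
    have hB : y (τ + g + g) - 2 * y (τ + g) + y τ = 0 := by
      have hm : ∀ j, j ∈ insert (τ + g) (Ico 1 (g + 1)) ↔ j = τ + g ∨ (1 ≤ j ∧ j < g + 1) :=
        fun j => by rw [Finset.mem_insert, Finset.mem_Ico]
      have hlt : ∀ j ∈ insert (τ + g) (Ico 1 (g + 1)), j < 2 * g := fun j hj => by
        rw [hm] at hj; omega
      have := hy (insert (τ + g) (Ico 1 (g + 1))) (by
        rw [Finset.card_insert_of_notMem (by simp; omega), Nat.card_Ico]; omega) hlt
      rw [pd_double hg hτ y _ hlt ((hm _).2 (by omega)) ((hm _).2 (by omega)), hP,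
        if_neg (fun h => by rw [hm] at h; omega), if_pos ((hm g).2 (by omega)),
        if_neg (fun h => by rw [hm] at h; omega), if_pos ((hm g).2 (by omega))] at this
      · linear_combination this
      · intro σ h3 h4 h5
        exact ⟨(hm _).2 (by omega), fun h => by rw [hm] at h; omega⟩
    have hC : 2 * (y τ - y (τ + g)) = 0 := by linear_combination hB - hA
    have hD : y τ - y (τ + g) = 0 := (mul_eq_zero.1 hC).resolve_left h2
    exact ⟨by linear_combination - hD, by linear_combination hA⟩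

/-! ### The second order terms -/

lemma pd_zero_of (x y : ℕ → k) (L : List ℕ) : ∀ K : Finset ℕ,
    (∀ j ∈ K, ∀ c ∈ L, y (j + c) = 0) → pd x y K L = 0 := by
  induction L with
  | nil => intro K _; rw [pd_nil]
  | cons c L ih =>
    intro K h
    rw [pd_cons]
    refine Finset.sum_eq_zero fun j hj => ?_
    rw [h j hj c (by simp), ih _ fun i hi c' hc' => h i (Finset.mem_of_mem_erase hi) c'
      (by simp [hc']), zero_mul, mul_zero, add_zero]

lemma pq_zero_of (x y : ℕ → k) (L : List ℕ) : ∀ K : Finset ℕ,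
    (∀ j ∈ K, ∀ c ∈ L, y (j + c) = 0) → pq x y K L = 0 := by
  induction L with
  | nil => intro K _; rw [pq_nil]
  | cons c L ih =>
    intro K h
    rw [pq_cons]
    refine Finset.sum_eq_zero fun j hj => ?_
    rw [h j hj c (by simp), ih _ fun i hi c' hc' => h i (Finset.mem_of_mem_erase hi) c'
      (by simp [hc']), zero_mul, mul_zero, add_zero]

lemma w_zero (g : ℕ) : w k g 0 = 0 := by simp [w]

lemma w_g (g : ℕ) : w k g g = 0 := by simp [w]

lemma w_one {g j : ℕ} (h1 : 1 ≤ j) (h2 : j < g) : w k g j = 1 := by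
  unfold w
  rw [if_neg]
  rw [Nat.mod_eq_of_lt h2]
  omega

lemma w_J' {g a j : ℕ} (hg : 2 ≤ g) (ha : a < 2) (hj : j ∈ J' g a) : w k g j = 1 := by
  rw [mem_J'] at hj
  rcases hj with h | h
  · interval_cases a
    · rw [h, zero_mul, add_zero]
      exact w_one (by omega) (by omega)
    · rw [h, one_mul, w_add]
      exact w_one (by omega) (by omega)
  · exact w_one (by omega) (by omega)

lemma lt_J' {g a : ℕ} (hg : 2 ≤ g) (ha : a < 2) : ∀ j ∈ J' g a, j < 2 * g := by
  intro j hj
  rw [mem_J'] at hj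
  have := a_cases ha g
  omega

lemma mem_erase_R {g c c' : ℕ} :
    c ∈ ((R g).erase c').toFinset ↔ c ≠ c' ∧ 1 ≤ c ∧ c < g := by
  rw [List.mem_toFinset, (nodup_R g).mem_erase_iff, mem_R]

lemma cof {g a j c' : ℕ} (hg : 2 ≤ g) (ha : a < 2) :
    pm (q k g) ((J' g a).erase j) ((R g).erase c') =
      ∏ c ∈ ((R g).erase c').toFinset, e k g ((J' g a).erase j) (g - c) :=
  pm_mid _ ((nodup_R g).erase c')
    (fun _ hc => mem_R.1 (List.mem_of_mem_erase hc)) _
    fun i hi => lt_J' hg ha i (Finset.mem_of_mem_erase hi)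

lemma sum_first {g a : ℕ} (hg : 2 ≤ g) (ha : a < 2) :
    ∑ c' ∈ Ico 1 g, pm (q k g) ((J' g a).erase (1 + a * g)) ((R g).erase c') = 1 := by
  have hag := a_cases ha g
  rw [Finset.sum_eq_single (g - 1)]
  · rw [cof hg ha]
    refine Finset.prod_eq_one fun c hc => ?_
    rw [mem_erase_R] at hc
    refine e_two _ ?_ ?_
    · rw [Finset.mem_erase, mem_J']; omega
    · rw [Finset.mem_erase, mem_J']; omega
  · intro c' hc' hne
    rw [Finset.mem_Ico] at hc'
    rw [cof hg ha]
    refine Finset.prod_eq_zero (i := g - 1) (mem_erase_R.2 (by omega)) ?_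
    rw [show g - (g - 1) = 1 by omega]
    unfold e
    rw [if_neg, if_neg, sub_self]
    · rw [Finset.mem_erase, mem_J']; omega
    · rw [Finset.mem_erase, mem_J']; omega
  · intro h
    exact absurd (Finset.mem_Ico.2 (by omega)) h

lemma sum_other {g a j : ℕ} (hg : 2 ≤ g) (ha : a < 2) (h2 : 2 ≤ j) (hj : j < g) :
    ∑ c' ∈ Ico 1 g, pm (q k g) ((J' g a).erase j) ((R g).erase c') = β k a := by
  have hag := a_cases ha g
  rw [Finset.sum_eq_single (g - j)]
  · rw [cof hg ha, Finset.prod_eq_single (g - 1)]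
    · rw [show g - (g - 1) = 1 by omega]
      refine e_first hg ha _ ?_ ?_
      · rw [Finset.mem_erase, mem_J']; omega
      · intro i hi hm
        refine mod_first hg ha ?_ hm
        exact Or.inr (mem_J'.1 (Finset.mem_of_mem_erase hi))
    · intro c hc hne
      rw [mem_erase_R] at hc
      refine e_two _ ?_ ?_
      · rw [Finset.mem_erase, mem_J']; omega
      · rw [Finset.mem_erase, mem_J']; omega
    · intro h
      exact absurd (mem_erase_R.2 (by omega)) h
  · intro c' hc' hne
    rw [Finset.mem_Ico] at hc'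
    rw [cof hg ha]
    refine Finset.prod_eq_zero (i := g - j) (mem_erase_R.2 (by omega)) ?_
    rw [show g - (g - j) = j by omega]
    unfold e
    rw [if_neg, if_neg, sub_self]
    · rw [Finset.mem_erase, mem_J']; omega
    · rw [Finset.mem_erase, mem_J']; omega
  · intro h
    exact absurd (Finset.mem_Ico.2 (by omega)) h

lemma sum_cof {g a : ℕ} (hg : 2 ≤ g) (ha : a < 2) :
    ∑ j ∈ J' g a, ∑ c' ∈ Ico 1 g, pm (q k g) ((J' g a).erase j) ((R g).erase c') =
      1 + ((g - 2 : ℕ) : k) * β k a := by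
  have hag := a_cases ha g
  have h : ∀ F : ℕ → k, ∑ j ∈ J' g a, F j = F (1 + a * g) + ∑ j ∈ Ico 2 g, F j := fun F => by
    unfold J'
    rw [Finset.sum_insert]
    rw [Finset.mem_Ico]
    omega
  rw [h, sum_first hg ha, Finset.sum_congr rfl fun j hj => sum_other hg ha
    (Finset.mem_Ico.1 hj).1 (Finset.mem_Ico.1 hj).2, Finset.sum_const, Nat.card_Ico, nsmul_eq_mul]

lemma pq_Js {g a : ℕ} (hg : 2 ≤ g) (ha : a < 2) :
    pq (q k g) (w k g) (Js g a) (List.range (g + 1)) =
      2 * (1 + ((g - 2 : ℕ) : k) * β k a) := by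
  have hag := a_cases ha g
  have hg0 : g ≠ 0 := by omega
  rw [pq_perm _ _ (perm_range hg)]
  have hQ := (QB.t k).2.1 (q k g) (w k g) {0, g} (J' g a) [0, g] (R g) (disj hg ha)
    (nodup_full hg) ?_ ?_ ?_ ?_
  · rw [show (Js g a) = {0, g} ∪ J' g a from rfl,
      show (0 :: g :: R g) = [0, g] ++ R g from rfl, hQ]
    have hw0 : ∀ j ∈ ({0, g} : Finset ℕ), ∀ c ∈ [0, g], w k g (j + c) = 0 := by
      intro j hj c hc
      rw [Finset.mem_insert, Finset.mem_singleton] at hj
      rw [List.mem_cons, List.mem_singleton] at hc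
      rcases hj with rfl | rfl <;> rcases hc with rfl | rfl <;>
        simp [w_add, w_zero, w_g]
    have hlt : ∀ j ∈ ({0, g} : Finset ℕ), j < 2 * g := by
      intro j hj
      rw [Finset.mem_insert, Finset.mem_singleton] at hj
      omega
    rw [pq_zero_of _ _ _ _ hw0, pd_zero_of _ _ _ _ hw0, pm_vanish hg [] _ hlt]
    rw [zero_mul, zero_mul, zero_mul, zero_add, zero_add, zero_add, R_toFinset]
    have hT : ([0, g] : List ℕ).toFinset = {0, g} := by simp
    rw [hT, Finset.sum_pair hg0.symm]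
    have e1 : ({0, g} : Finset ℕ).erase 0 = {g} := by
      ext i; simp; omega
    have e2 : ({0, g} : Finset ℕ).erase g = {0} := by
      ext i; simp; omega
    have l1 : ([0, g] : List ℕ).erase 0 = [g] := List.erase_cons_head ..
    have l2 : ([0, g] : List ℕ).erase g = [0] := by
      rw [List.erase_cons_tail (by simp; omega), List.erase_cons_head]
    have p1 : pm (q k g) {g} [g] = -1 := by
      rw [pm_cons, Finset.sum_singleton, pm_nil]
      unfold q
      rw [if_neg (by omega), if_pos (by omega), mul_one]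
    have p2 : pm (q k g) {0} [g] = 1 := by
      rw [pm_cons, Finset.sum_singleton, pm_nil]
      unfold q
      rw [if_pos (by omega), mul_one]
    have p3 : pm (q k g) {g} [0] = 1 := by
      rw [pm_cons, Finset.sum_singleton, pm_nil]
      unfold q
      rw [if_pos (by omega), mul_one]
    have p4 : pm (q k g) {0} [0] = 1 := by
      rw [pm_cons, Finset.sum_singleton, pm_nil]
      unfold q
      rw [if_pos (by omega), mul_one]
    rw [← sum_cof hg ha, Finset.mul_sum, ← Finset.sum_add_distrib]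
    refine Finset.sum_congr rfl fun j hj => ?_
    rw [Finset.mul_sum, ← Finset.sum_add_distrib]
    refine Finset.sum_congr rfl fun c' hc' => ?_
    rw [Finset.mem_Ico] at hc'
    rw [Finset.sum_pair hg0.symm, Finset.sum_pair hg0.symm, e1, e2, l1, l2, p1, p2, p3, p4,
      add_zero, w_add, w_J' hg ha hj, zero_add, add_comm g c', w_add, w_one hc'.1 hc'.2]
    ring
  · intro c hc j hj
    rw [List.mem_cons, List.mem_singleton] at hc
    rw [mem_J'] at hj
    unfold q
    rw [if_neg (by omega), if_neg (by omega)]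
  · intro c hc j hj
    rw [mem_R] at hc
    rw [Finset.mem_insert, Finset.mem_singleton] at hj
    unfold q
    rw [if_neg (by omega), if_neg (by omega)]
  · rw [Finset.card_pair hg0.symm]; rfl
  · rw [card_J' hg ha]
    unfold R
    rw [List.length_range']

end

/-- B4 -/
theorem t (k : Type*) [Field k] : StmB4 k := by
  intro h2 hT1 g hg
  refine hT1 (2 * g) (g + 1) (by omega) (by omega) (q k g) (vt hg) (range (g + 1))
    (by rw [Finset.card_range]) ?_ (w k g) (tangent_w hg) (range 2) (fun _ => 1) (Js g) ?_ ?_ ?_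
  · intro y hS hy v hv
    obtain ⟨hr0, hr⟩ := rel h2 hg y hy
    have hz : ∀ s, s < g + 1 → y s = 0 := fun s hs => hS s (Finset.mem_range.2 hs)
    by_cases h1 : v < g + 1
    · exact hz v h1
    · by_cases h3 : v < 2 * g
      · obtain ⟨τ, rfl⟩ : ∃ τ, v = τ + g := ⟨v - g, by omega⟩
        rw [(hr τ (by omega) (by omega)).1]
        exact hz τ (by omega)
      · by_cases h4 : v = g + g
        · rw [h4]
          rw [hz g (by omega), hz 0 (by omega)] at hr0
          linear_combination hr0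
        · obtain ⟨τ, rfl⟩ : ∃ τ, v = τ + g + g := ⟨v - g - g, by omega⟩
          rw [(hr τ (by omega) (by omega)).2]
          exact hz τ (by omega)
  · intro a ha
    rw [Finset.mem_range] at ha
    exact ⟨card_Js hg ha, lt_Js hg ha⟩
  · intro y
    rw [Finset.sum_range_succ, Finset.sum_range_one, pd_Js hg (by omega), pd_Js hg (by omega)]
    unfold β
    simp
  · rw [Finset.sum_range_succ, Finset.sum_range_one, pq_Js hg (by omega), pq_Js hg (by omega)]
    have h4 : (4 : k) ≠ 0 := by
      have : (4 : k) = 2 * 2 := by norm_num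
      rw [this]
      exact mul_ne_zero h2 h2
    intro h
    apply h4
    unfold β at h
    simp only [if_true, one_ne_zero, if_false] at h
    linear_combination h

end Pool.Agent.N729.HQ.B4b
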