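import Pool.Agent.N729.HQ.Stm

set_option autoImplicit false

namespace Pool.Agent.N729.HQ.C1a

open Finset
open Pool.Agent.N186.HK (pm pm_nil pm_cons pm_congr)
open Pool.Agent.N729.HP
open Pool.Agent.N729.HP.CX (diff_eq single_eq)

set_option linter.unusedSectionVars false

section

variable {k : Type*} [Field k]

/-- the long indices of the two blocks -/
def Jf (a b : Finset ℕ) (ρ : ℕ) : Finset ℕ := if ρ = 0 then a else if ρ = 1 then b else ∅

/-- the short indices of the two blocks -/
def Lf (a b : List ℕ) (ρ : ℕ) : List ℕ := if ρ = 0 then a else if ρ = 1 then b else []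

/-- all long indices -/
abbrev JJ (a b : Finset ℕ) : Finset ℕ := JG 2 0 (Jf a b) [0, 1]

/-- all short indices -/
abbrev LJ (a b : List ℕ) : List ℕ := LG 2 (Lf a b) [0, 1]

lemma mem_JJ (a b : Finset ℕ) (j : ℕ) :
    j ∈ JJ a b ↔ (∃ l ∈ a, 2 * l = j) ∨ ∃ l ∈ b, 2 * l + 1 = j := by
  have h : JJ a b = (a.image fun l => 0 + 2 * l) ∪ (b.image fun l => 1 + 2 * l) := by
    ext x
    simp [JJ, JG, Jf, cc]
  rw [h, Finset.mem_union, Finset.mem_image, Finset.mem_image]
  constructor
  · rintro (⟨l, hl, h⟩ | ⟨l, hl, h⟩)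
    · exact Or.inl ⟨l, hl, by omega⟩
    · exact Or.inr ⟨l, hl, by omega⟩
  · rintro (⟨l, hl, h⟩ | ⟨l, hl, h⟩)
    · exact Or.inl ⟨l, hl, by omega⟩
    · exact Or.inr ⟨l, hl, by omega⟩

lemma JJ_eq (J a b : Finset ℕ) (ha : ∀ l, 2 * l ∈ J ↔ l ∈ a) (hb : ∀ l, 2 * l + 1 ∈ J ↔ l ∈ b) :
    J = JJ a b := by
  ext j
  rw [mem_JJ]
  constructor
  · intro hj
    obtain ⟨m, hm | hm⟩ := Nat.even_or_odd' j
    · exact Or.inl ⟨m, (ha m).1 (hm ▸ hj), hm.symm⟩
    · exact Or.inr ⟨m, (hb m).1 (hm ▸ hj), hm.symm⟩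
  · rintro (⟨l, hl, h⟩ | ⟨l, hl, h⟩)
    · rw [← h]; exact (ha l).2 hl
    · rw [← h]; exact (hb l).2 hl

lemma tf01 : ([0, 1] : List ℕ).toFinset = {0, 1} := by decide

lemma er0 : ({0, 1} : Finset ℕ).erase 0 = {1} := by decide

lemma er1 : ({0, 1} : Finset ℕ).erase 1 = {0} := by decide

lemma er01 : (({0, 1} : Finset ℕ).erase 0).erase 1 = ∅ := by decide

lemma er10 : (({0, 1} : Finset ℕ).erase 1).erase 0 = ∅ := by decide

lemma sh0 (u : ℕ → k) : (fun s => u (s + sh 0 0)) = u := by
  funext s; simp [sh]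

lemma sh1 (u : ℕ → k) : (fun s => u (s + sh 0 1)) = fun s => u (s + 1) := by
  funext s; simp [sh]

lemma sy0 (y : ℕ → k) : (fun s => y (0 + 2 * (s + sh 0 0))) = fun s => y (2 * s) := by
  funext s; simp [sh]

lemma sy1 (y : ℕ → k) : (fun s => y (0 + 2 * (s + sh 0 1))) = fun s => y (2 * (s + 1)) := by
  funext s; simp [sh]

lemma J0 (a b : Finset ℕ) : Jf a b 0 = a := by simp [Jf]
lemma J1 (a b : Finset ℕ) : Jf a b 1 = b := by simp [Jf]
lemma L0 (a b : List ℕ) : Lf a b 0 = a := by simp [Lf]
lemma L1 (a b : List ℕ) : Lf a b 1 = b := by simp [Lf]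

lemma nd (la lb : List ℕ) (ha : la.Nodup) (hb : lb.Nodup) :
    ∀ ρ ∈ ([0, 1] : List ℕ), (Lf la lb ρ).Nodup := by
  intro ρ hρ
  simp only [List.mem_cons, List.not_mem_nil, or_false] at hρ
  rcases hρ with rfl | rfl
  · rw [L0]; exact ha
  · rw [L1]; exact hb

/-- the permanent of a block matrix -/
lemma pmB (u : ℕ → k) (a b : Finset ℕ) (la lb : List ℕ) :
    pm (cst 2 0 u) (JJ a b) (LJ la lb) = pm u a la * pm (fun s => u (s + 1)) b lb := by
  have h := (ra k 2 0 u (by norm_num) (Jf a b) (Lf la lb) [0, 1] [] (by decide)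
    (by decide)).2.2.2.2.2.2
  rw [h, tf01, Finset.prod_pair (by norm_num), sh0, sh1, J0, J1, L0, L1]

/-- square blocks -/
lemma pd00 (hRF : StmRF k) (u y : ℕ → k) (a b : Finset ℕ) (la lb : List ℕ) (na : la.Nodup)
    (nb : lb.Nodup) (ha : a.card = la.length) (hb : b.card = lb.length) :
    pd (cst 2 0 u) y (JJ a b) (LJ la lb) =
      pd u (fun s => y (2 * s)) a la * pm (fun s => u (s + 1)) b lb +
      pd (fun s => u (s + 1)) (fun s => y (2 * (s + 1))) b lb * pm u a la := by
  have h := (hRF 2 0 u y (by norm_num) (Jf a b) (Lf la lb) [0, 1] (by decide)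
    (by decide) (nd la lb na nb)).2.1 (by
      intro ρ hρ
      simp only [List.mem_cons, List.not_mem_nil, or_false] at hρ
      rcases hρ with rfl | rfl
      · rw [L0, J0]; exact ha
      · rw [L1, J1]; exact hb)
  rw [h, tf01, Finset.sum_pair (by norm_num), er0, er1, Finset.prod_singleton,
    Finset.prod_singleton, sh0, sh1, sy0, sy1, J0, J1, L0, L1]

/-- a surplus row in the block `A`, a surplus column in the block `B` -/
lemma pd01 (hRF : StmRF k) (u y : ℕ → k) (a b : Finset ℕ) (la lb : List ℕ) (na : la.Nodup)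
    (nb : lb.Nodup) (ha : a.card + 1 = la.length) (hb : b.card = lb.length + 1) :
    pd (cst 2 0 u) y (JJ a b) (LJ la lb) =
      ∑ i ∈ la.toFinset, ∑ l ∈ b, y (2 * (i + l) + 1) * pm u a (la.erase i) *
        pm (fun s => u (s + 1)) (b.erase l) lb := by
  have h := (hRF 2 0 u y (by norm_num) (Jf a b) (Lf la lb) [0, 1] (by decide)
    (by decide) (nd la lb na nb)).2.2.1 0 (by decide) 1 (by decide) (by norm_num)
    (by rw [L0, J0]; exact ha) (by rw [L1, J1]; exact hb) (by
      intro ρ hρ h1 h2
      simp only [List.mem_cons, List.not_mem_nil, or_false] at hρ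
      omega)
  rw [h, tf01, er01, Finset.prod_empty, mul_one, sh0, sh1, J0, J1, L0, L1]
  refine Finset.sum_congr rfl fun i _ => Finset.sum_congr rfl fun l _ => ?_
  rw [show 0 + 2 * i + (cc 2 0 1 + 2 * l) = 2 * (i + l) + 1 by
    rw [show cc 2 0 1 = 1 from rfl]; ring]

/-- a surplus row in the block `B`, a surplus column in the block `A` -/
lemma pd10 (hRF : StmRF k) (u y : ℕ → k) (a b : Finset ℕ) (la lb : List ℕ) (na : la.Nodup)
    (nb : lb.Nodup) (hb : b.card + 1 = lb.length) (ha : a.card = la.length + 1) :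
    pd (cst 2 0 u) y (JJ a b) (LJ la lb) =
      ∑ i ∈ lb.toFinset, ∑ l ∈ a, y (2 * (i + l) + 1) *
        pm (fun s => u (s + 1)) b (lb.erase i) * pm u (a.erase l) la := by
  have h := (hRF 2 0 u y (by norm_num) (Jf a b) (Lf la lb) [0, 1] (by decide)
    (by decide) (nd la lb na nb)).2.2.1 1 (by decide) 0 (by decide) (by norm_num)
    (by rw [L1, J1]; exact hb) (by rw [L0, J0]; exact ha) (by
      intro ρ hρ h1 h2
      simp only [List.mem_cons, List.not_mem_nil, or_false] at hρ
      omega)
  rw [h, tf01, er10, Finset.prod_empty, mul_one, sh0, sh1, J0, J1, L0, L1]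
  refine Finset.sum_congr rfl fun i _ => Finset.sum_congr rfl fun l _ => ?_
  rw [show 1 + 2 * i + (cc 2 0 0 + 2 * l) = 2 * (i + l) + 1 by
    rw [show cc 2 0 0 = 0 from rfl]; ring]

/-! ### the short indices -/

lemma LJ_eq (F : ℕ → List ℕ) (a b : List ℕ) (ha : F 0 = a) (hb : F 1 = b) :
    LG 2 F [0, 1] = LJ a b := by
  simp [LG, LJ, Lf, ha, hb]

lemma permL (hRD : StmRD) (K : ℕ) :
    (List.range (2 * K)).Perm (LJ (List.range K) (List.range K)) := by
  have h := hRD.2.1 2 (2 * K) (by norm_num)
  have e := LJ_eq (fun ρ => List.range ((2 * K + 2 - 1 - ρ) / 2)) (List.range K) (List.range K)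
    (by
      change List.range ((2 * K + 2 - 1 - 0) / 2) = List.range K
      congr 1
      omega)
    (by
      change List.range ((2 * K + 2 - 1 - 1) / 2) = List.range K
      congr 1
      omega)
  rw [show List.range 2 = [0, 1] from rfl, e] at h
  exact h

lemma permL' (hRD : StmRD) (K : ℕ) (hK : 1 ≤ K) :
    ((List.range (2 * K)).erase (2 * K - 1)).Perm
      (LJ (List.range K) ((List.range K).erase (K - 1))) := by
  have h1 := (permL hRD K).erase (2 * K - 1)
  have h2 := hRD.2.2.2 2 (Lf (List.range K) (List.range K))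
    (Lf (List.range K) ((List.range K).erase (K - 1))) 1 (K - 1) [0, 1] (by decide) (by decide)
    (by decide) (nd _ _ List.nodup_range List.nodup_range) (by rw [L1, L1]) (by
      intro ρ hρ
      unfold Lf
      rw [if_neg hρ, if_neg hρ])
  rw [show 1 + 2 * (K - 1) = 2 * K - 1 by omega] at h2
  exact h1.trans h2

/-! ### the long indices -/

lemma mer (N d j : ℕ) : j ∈ (range N).erase d ↔ j ≠ d ∧ j < N := by
  rw [Finset.mem_erase, Finset.mem_range]

lemma Je (K l₀ : ℕ) : (range (2 * K + 1)).erase (2 * l₀) =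
    JJ ((range (K + 1)).erase l₀) (range K) :=
  JJ_eq _ _ _ (fun l => by rw [mer, mer]; omega)
    (fun l => by rw [mer, Finset.mem_range]; omega)

lemma Je' (K l₀ : ℕ) : ((range (2 * K + 1)).erase (2 * l₀)).erase (2 * K) =
    JJ ((range K).erase l₀) (range K) :=
  JJ_eq _ _ _ (fun l => by rw [Finset.mem_erase, mer, mer]; omega)
    (fun l => by rw [Finset.mem_erase, mer, Finset.mem_range]; omega)

lemma Jo (K l₀ : ℕ) : (range (2 * K + 1)).erase (2 * l₀ + 1) =
    JJ (range (K + 1)) ((range K).erase l₀) :=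
  JJ_eq _ _ _ (fun l => by rw [mer, Finset.mem_range]; omega)
    (fun l => by rw [mer, mer]; omega)

lemma Jo' (K l₀ : ℕ) : ((range (2 * K + 1)).erase (2 * l₀ + 1)).erase (2 * K) =
    JJ (range K) ((range K).erase l₀) :=
  JJ_eq _ _ _ (fun l => by rw [Finset.mem_erase, mer, Finset.mem_range]; omega)
    (fun l => by rw [Finset.mem_erase, mer, mer]; omega)

lemma cardE (N d : ℕ) (hd : d < N) : ((range N).erase d).card = N - 1 := by
  rw [Finset.card_erase_of_mem (Finset.mem_range.2 hd), Finset.card_range]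

lemma allJ (K : ℕ) (J : Finset ℕ) (hJ : J.card = 2 * K) (h : ∀ j ∈ J, j < 2 * K + 1) :
    ∃ d, d < 2 * K + 1 ∧ J = (range (2 * K + 1)).erase d := by
  have hsub : J ⊆ range (2 * K + 1) := fun j hj => Finset.mem_range.2 (h j hj)
  have h1 : (range (2 * K + 1) \ J).card = 1 := by
    rw [Finset.card_sdiff_of_subset hsub, Finset.card_range, hJ]
    omega
  obtain ⟨d, hd⟩ := Finset.card_eq_one.1 h1
  have hd1 : d ∈ range (2 * K + 1) \ J := by
    rw [hd]; exact Finset.mem_singleton_self d
  rw [Finset.mem_sdiff] at hd1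
  refine ⟨d, Finset.mem_range.1 hd1.1, ?_⟩
  ext j
  rw [Finset.mem_erase]
  constructor
  · intro hj
    exact ⟨fun e => hd1.2 (e ▸ hj), hsub hj⟩
  · rintro ⟨h2, h3⟩
    by_contra hj
    have : j ∈ range (2 * K + 1) \ J := Finset.mem_sdiff.2 ⟨h3, hj⟩
    rw [hd, Finset.mem_singleton] at this
    exact h2 this

/-! ### the link -/

lemma q_ne (K : ℕ) (hK : 3 ≤ K) (v : ℕ) (hv : v ≠ 4 * K - 1) :
    qC1 k K v = cst 2 0 (uA k K) v := by
  unfold qC1 cst uA
  obtain ⟨m, hm | hm⟩ := Nat.even_or_odd' v
  · have h1 : v % 2 = 0 := by omega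
    have h2 : v / 2 = m := by omega
    rw [if_pos h1, h2]
    by_cases c1 : m = 0 ∨ m = 1
    · rw [if_pos (by omega), if_pos c1]
    by_cases c2 : m = K ∨ m = K + 1
    · rw [if_neg (by omega), if_pos (by omega), if_neg c1, if_pos c2]
    · rw [if_neg (by omega), if_neg (by omega), if_neg c1, if_neg c2]
  · have h1 : v % 2 ≠ 0 := by omega
    rw [if_neg h1, if_neg (by omega), if_neg (by omega)]

lemma q_link (K : ℕ) (hK : 3 ≤ K) :
    qC1 k K (4 * K - 1) - cst 2 0 (uA k K) (4 * K - 1) = 1 := by
  unfold qC1 cst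
  rw [if_pos (by omega), if_neg (by omega), sub_zero]

lemma link (hLK : StmLK k) (K : ℕ) (hK : 3 ≤ K) (y : ℕ → k) (J : Finset ℕ)
    (hJ : ∀ j ∈ J, j < 2 * K + 1) :
    (pm (qC1 k K) J (List.range (2 * K)) = pm (cst 2 0 (uA k K)) J (List.range (2 * K)) +
      if 2 * K ∈ J then
        pm (cst 2 0 (uA k K)) (J.erase (2 * K)) ((List.range (2 * K)).erase (2 * K - 1))
      else 0) ∧
    (pd (qC1 k K) y J (List.range (2 * K)) = pd (cst 2 0 (uA k K)) y J (List.range (2 * K)) +
      if 2 * K ∈ J then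
        pd (cst 2 0 (uA k K)) y (J.erase (2 * K)) ((List.range (2 * K)).erase (2 * K - 1))
      else 0) := by
  obtain ⟨h1, h2, -⟩ := hLK.1 (cst 2 0 (uA k K)) (qC1 k K) y (4 * K - 1) (2 * K) (2 * K - 1)
    (by omega) (q_ne K hK) J (List.range (2 * K)) List.nodup_range (by
      intro j hj c hc h
      have := hJ j hj
      have := List.mem_range.1 hc
      omega)
  rw [q_link K hK] at h1 h2
  have hL : 2 * K - 1 ∈ List.range (2 * K) := List.mem_range.2 (by omega)
  rw [h1, h2]
  by_cases hh : 2 * K ∈ J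
  · have hh' : 2 * K ∈ J ∧ 2 * K - 1 ∈ List.range (2 * K) := ⟨hh, hL⟩
    rw [if_pos hh', if_pos hh', if_pos hh, if_pos hh, one_mul, one_mul]
    exact ⟨rfl, rfl⟩
  · have hh' : ¬ (2 * K ∈ J ∧ 2 * K - 1 ∈ List.range (2 * K)) := fun h => hh h.1
    rw [if_neg hh', if_neg hh', if_neg hh, if_neg hh]
    exact ⟨rfl, rfl⟩

end

section

variable {k : Type*} [Field k]

/-- the sign -/
def ee (k : Type*) [Field k] (K : ℕ) : k := (-1) ^ (K + 1)

lemma ee_ne (K : ℕ) : ee k K ≠ 0 := pow_ne_zero _ (by norm_num)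

lemma ee_sq (K : ℕ) : ee k K * ee k K = 1 := by
  unfold ee
  rw [← pow_add, ← two_mul, pow_mul]
  norm_num

/-- `c_i` -/
def ci' (K : ℕ) (y : ℕ → k) (i : ℕ) : k :=
  ∑ l ∈ range K, y (2 * (i + l) + 1) * (ee k K * if l = 0 then 1 else -1)

/-- `V_i` -/
def Vi (K : ℕ) (y : ℕ → k) (i : ℕ) : k := ∑ l ∈ Ico 1 K, y (2 * (i + l) + 1)

lemma ci_eq (K : ℕ) (hK : 3 ≤ K) (y : ℕ → k) (i : ℕ) :
    ci' K y i = ee k K * (y (2 * i + 1) - Vi K y i) := by
  unfold ci' Vi
  rw [Finset.range_eq_Ico, Finset.sum_eq_sum_Ico_succ_bot (by omega), if_pos rfl, add_zero, mul_one,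
    Finset.sum_congr rfl (fun l hl => by
      rw [if_neg (by
        have := (Finset.mem_Ico.1 hl).1
        omega : ¬ l = 0)]), ← Finset.sum_mul]
  ring

variable (hCA : StmCA k) (hLK : StmLK k) (hRF : StmRF k) (hRD : StmRD)

include hCA hLK hRD in
lemma vt (K : ℕ) (hK : 3 ≤ K) : Vt (2 * K + 1) (2 * K) (qC1 k K) := by
  intro J hJ hJn
  obtain ⟨a1, a2, a3, a4, a5⟩ := hCA K hK
  rw [(link hLK K hK (fun _ => 0) J hJn).1]
  obtain ⟨d, hd, rfl⟩ := allJ K J hJ hJn
  have hp := (BA.ta k).1 (cst 2 0 (uA k K)) _ _ (permL hRD K)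
  have hp' := (BA.ta k).1 (cst 2 0 (uA k K)) _ _ (permL' hRD K (by omega))
  obtain ⟨l₀, rfl | rfl⟩ := Nat.even_or_odd' d
  · rw [hp, hp', Je', Je, pmB, pmB, a3, mul_zero, zero_add]
    by_cases hl : l₀ = K
    · rw [if_neg]
      rw [← Je, hl]
      exact Finset.notMem_erase _ _
    · rw [(BA.ta k).2.2 (uA k K) ((range K).erase l₀) (List.range K) (by
        rw [cardE K l₀ (by omega), List.length_range]
        omega), zero_mul]
      split_ifs <;> rfl
  · rw [hp, hp', Jo', Jo, pmB, pmB, a1, zero_mul,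
      (BA.ta k).2.2 (fun s => uA k K (s + 1)) ((range K).erase l₀) (List.range K) (by
        rw [cardE K l₀ (by omega), List.length_range]
        omega), mul_zero, zero_add]
    split_ifs <;> rfl

include hCA hLK hRF hRD in
/-- the even equations -/
lemma evenF (K : ℕ) (hK : 3 ≤ K) (y : ℕ → k) (l₀ : ℕ) (hl₀ : l₀ < K + 1) :
    pd (qC1 k K) y ((range (2 * K + 1)).erase (2 * l₀)) (List.range (2 * K)) =
      pd (fun s => uA k K (s + 1)) (fun s => y (2 * (s + 1))) (range K) (List.range K) *
        (if l₀ = 0 ∨ l₀ = K then 0 else ee k K * 2) +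
      if l₀ < K then ∑ i ∈ range K, ci' K y i *
        (ee k K * if i + l₀ = 0 then 1 else if i + l₀ ≤ K then -1 else 1) else 0 := by
  obtain ⟨a1, a2, a3, a4, a5⟩ := hCA K hK
  rw [(link hLK K hK y _ (fun j hj => by rw [mer] at hj; exact hj.2)).2]
  have hp := (BA.ta k).2.1 (cst 2 0 (uA k K)) y _ _ (permL hRD K)
  have hp' := (BA.ta k).2.1 (cst 2 0 (uA k K)) y _ _ (permL' hRD K (by omega))
  have nr : (List.range K).Nodup := List.nodup_range
  have ne : ((List.range K).erase (K - 1)).Nodup := nr.erase _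
  have len : ((List.range K).erase (K - 1)).length = K - 1 := by
    rw [List.length_erase_of_mem (List.mem_range.2 (by omega)), List.length_range]
  rw [hp, hp', Je']
  congr 1
  · rw [Je, pd00 hRF _ _ _ _ _ _ nr nr (by
      rw [cardE _ _ hl₀, List.length_range]
      omega) (by rw [Finset.card_range, List.length_range]), a3, mul_zero, zero_add, a5 l₀ hl₀]
    rfl
  · by_cases hl : l₀ < K
    · rw [if_pos ((mer _ _ _).2 (by omega)), if_pos hl,
        pd01 hRF _ _ _ _ _ _ nr ne (by rw [cardE _ _ hl, List.length_range]; omega)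
          (by rw [Finset.card_range, len]; omega), List.toFinset_range]
      refine Finset.sum_congr rfl fun i hi => ?_
      unfold ci'
      rw [Finset.sum_mul]
      refine Finset.sum_congr rfl fun l hl' => ?_
      rw [Finset.mem_range] at hi hl'
      rw [a2 i hi l₀ hl, a4 (K - 1) (by omega) l hl']
      have e : (if K - 1 + l < K then (1 : k) else -1) = if l = 0 then 1 else -1 := by
        by_cases h0 : l = 0
        · rw [if_pos h0, if_pos (by omega)]
        · rw [if_neg h0, if_neg (by omega)]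
      rw [e]
      unfold ee
      ring
    · rw [if_neg hl, if_neg]
      rw [mer]
      omega

include hCA hLK hRF hRD in
/-- the odd equations -/
lemma oddF (K : ℕ) (hK : 3 ≤ K) (y : ℕ → k) (l₀ : ℕ) (hl₀ : l₀ < K) :
    pd (qC1 k K) y ((range (2 * K + 1)).erase (2 * l₀ + 1)) (List.range (2 * K)) =
      ee k K * ∑ i ∈ range K, (2 * ee k K * Vi K y i + if i + 1 = K then
        pd (uA k K) (fun s => y (2 * s)) (range K) (List.range K) else 0) *
        (if i + l₀ < K then 1 else -1) := by
  obtain ⟨a1, a2, a3, a4, a5⟩ := hCA K hK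
  rw [(link hLK K hK y _ (fun j hj => by rw [mer] at hj; exact hj.2)).2]
  have hp := (BA.ta k).2.1 (cst 2 0 (uA k K)) y _ _ (permL hRD K)
  have hp' := (BA.ta k).2.1 (cst 2 0 (uA k K)) y _ _ (permL' hRD K (by omega))
  have nr : (List.range K).Nodup := List.nodup_range
  have ne : ((List.range K).erase (K - 1)).Nodup := nr.erase _
  have len : ((List.range K).erase (K - 1)).length = K - 1 := by
    rw [List.length_erase_of_mem (List.mem_range.2 (by omega)), List.length_range]
  rw [hp, hp', Jo', if_pos ((mer _ _ _).2 (by omega)), Jo,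
    pd10 hRF _ _ _ _ _ _ nr nr (by rw [cardE _ _ hl₀, List.length_range]; omega)
      (by rw [Finset.card_range, List.length_range]),
    pd00 hRF _ _ _ _ _ _ nr ne (by rw [Finset.card_range, List.length_range])
      (by rw [cardE _ _ hl₀, len]), a1, mul_zero, add_zero, a4 (K - 1) (by omega) l₀ hl₀,
    List.toFinset_range]
  have e1 : ∀ i ∈ range K, ∑ l ∈ range (K + 1), y (2 * (i + l) + 1) *
      pm (fun s => uA k K (s + 1)) ((range K).erase l₀) ((List.range K).erase i) *
        pm (uA k K) ((range (K + 1)).erase l) (List.range K) =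
      ee k K * (2 * ee k K * Vi K y i * if i + l₀ < K then 1 else -1) := by
    intro i hi
    rw [Finset.mem_range] at hi
    rw [a4 i hi l₀ hl₀, Finset.sum_range_succ, a5 K (by omega), if_pos (Or.inr rfl), mul_zero,
      add_zero, Finset.range_eq_Ico, Finset.sum_eq_sum_Ico_succ_bot (by omega),
      a5 0 (by omega), if_pos (Or.inl rfl), mul_zero, zero_add]
    unfold Vi
    rw [Finset.mul_sum, Finset.sum_mul, Finset.mul_sum]
    refine Finset.sum_congr rfl fun l hl => ?_
    rw [Finset.mem_Ico] at hl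
    rw [a5 l (by omega), if_neg (by omega : ¬ (l = 0 ∨ l = K))]
    unfold ee
    ring
  rw [Finset.sum_congr rfl e1, ← Finset.mul_sum]
  have e2 : ∀ i ∈ range K, (2 * ee k K * Vi K y i + if i + 1 = K then
        pd (uA k K) (fun s => y (2 * s)) (range K) (List.range K) else 0) *
        (if i + l₀ < K then 1 else -1) =
      2 * ee k K * Vi K y i * (if i + l₀ < K then 1 else -1) +
      if i = K - 1 then pd (uA k K) (fun s => y (2 * s)) (range K) (List.range K) *
        (if i + l₀ < K then 1 else -1) else 0 := by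
    intro i hi
    rw [Finset.mem_range] at hi
    by_cases h : i + 1 = K
    · rw [if_pos h, if_pos (by omega : i = K - 1)]
      ring
    · rw [if_neg h, if_neg (by omega : ¬ i = K - 1)]
      ring
  rw [Finset.sum_congr rfl e2, Finset.sum_add_distrib, Finset.sum_ite_eq',
    if_pos (Finset.mem_range.2 (by omega))]
  unfold ee
  ring

/-- the cofactor matrix of the block `A'` is invertible -/
lemma inv_a (h2 : (2 : k) ≠ 0) (K : ℕ) (hK : 3 ≤ K) (w : ℕ → k)
    (h : ∀ l < K, ∑ i ∈ range K, w i *
      (if i + l = 0 then (1 : k) else if i + l ≤ K then -1 else 1) = 0) :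
    ∀ i < K, w i = 0 := by
  have h0 : w 0 = 0 := by
    have := diff_eq K w (fun i l => if i + l = 0 then (1 : k) else if i + l ≤ K then -1 else 1)
      0 1 0 2 (by omega) (h _ (by omega)) (h _ (by omega))
      (by
        change (if 0 + 0 = 0 then (1 : k) else if 0 + 0 ≤ K then -1 else 1) -
          (if 0 + 1 = 0 then (1 : k) else if 0 + 1 ≤ K then -1 else 1) = 2
        rw [if_pos (by omega), if_neg (by omega), if_pos (by omega)]; ring)
      (by
        intro j hj hji _
        change (if j + 0 = 0 then (1 : k) else if j + 0 ≤ K then -1 else 1) =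
          (if j + 1 = 0 then (1 : k) else if j + 1 ≤ K then -1 else 1)
        rw [if_neg (by omega : ¬ j + 0 = 0), if_neg (by omega : ¬ j + 1 = 0),
          if_pos (by omega : j + 0 ≤ K), if_pos (by omega : j + 1 ≤ K)])
    exact (mul_eq_zero.1 this).resolve_right h2
  have h1 : ∀ i, 2 ≤ i → i < K → w i = 0 := by
    intro i hi hi'
    have := diff_eq K w (fun i l => if i + l = 0 then (1 : k) else if i + l ≤ K then -1 else 1)
      (K - i) (K - i + 1) i (-2) (by omega) (h _ (by omega)) (h _ (by omega))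
      (by
        change (if i + (K - i) = 0 then (1 : k) else if i + (K - i) ≤ K then -1 else 1) -
          (if i + (K - i + 1) = 0 then (1 : k) else if i + (K - i + 1) ≤ K then -1 else 1) = -2
        rw [if_neg (by omega), if_pos (by omega), if_neg (by omega), if_neg (by omega)]; ring)
      (by
        intro j hj hji _
        change (if j + (K - i) = 0 then (1 : k) else if j + (K - i) ≤ K then -1 else 1) =
          (if j + (K - i + 1) = 0 then (1 : k) else if j + (K - i + 1) ≤ K then -1 else 1)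
        rw [if_neg (by omega : ¬ j + (K - i) = 0), if_neg (by omega : ¬ j + (K - i + 1) = 0)]
        by_cases hc : j + (K - i + 1) ≤ K
        · rw [if_pos (by omega : j + (K - i) ≤ K), if_pos hc]
        · rw [if_neg (by omega : ¬ j + (K - i) ≤ K), if_neg hc])
    exact (mul_eq_zero.1 this).resolve_right (neg_ne_zero.2 h2)
  intro i hi
  by_cases i0 : i = 0
  · rw [i0]; exact h0
  by_cases i1 : i = 1
  · subst i1
    have := single_eq K w (fun i => if i + 0 = 0 then (1 : k) else if i + 0 ≤ K then -1 else 1)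
      1 (-1) hi (h 0 (by omega))
      (by
        change (if 1 + 0 = 0 then (1 : k) else if 1 + 0 ≤ K then -1 else 1) = -1
        rw [if_neg (by omega), if_pos (by omega)])
      (by
        intro j hj hj1 hw
        exfalso
        apply hw
        by_cases j0 : j = 0
        · rw [j0]; exact h0
        · exact h1 j (by omega) hj)
    exact (mul_eq_zero.1 this).resolve_right (by norm_num)
  · exact h1 i (by omega) hi

lemma bfd (u y : ℕ → k) (K : ℕ) : pd u y (range K) (List.range K) =
    ∑ i ∈ range K, ∑ l ∈ range K, y (l + i) * pm u ((range K).erase l) ((List.range K).erase i) := by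
  rw [bf k u y (range K) (List.range K) List.nodup_range, List.toFinset_range]

include hCA hLK hRF hRD in
lemma tangent (h2 : (2 : k) ≠ 0) (K : ℕ) (hK : 3 ≤ K) (y : ℕ → k)
    (hy : ∀ s, 1 ≤ s → s < 2 * K → y (2 * s) = 0) (hy' : y (4 * K - 1) = 0)
    (hT : Tt (2 * K + 1) (2 * K) (qC1 k K) y) : ∀ v, v < 4 * K → y v = 0 := by
  obtain ⟨a1, a2, a3, a4, a5⟩ := hCA K hK
  have hE : ∀ l₀ < K + 1, _ := fun l₀ hl₀ => (evenF hCA hLK hRF hRD K hK y l₀ hl₀).symm.trans
    (hT _ (by rw [cardE _ _ (by omega)]; omega) (fun j hj => by rw [mer] at hj; exact hj.2))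
  have hO : ∀ l₀ < K, _ := fun l₀ hl₀ => (oddF hCA hLK hRF hRD K hK y l₀ hl₀).symm.trans
    (hT _ (by rw [cardE _ _ (by omega)]; omega) (fun j hj => by rw [mer] at hj; exact hj.2))
  have hd : pd (fun s => uA k K (s + 1)) (fun s => y (2 * (s + 1))) (range K) (List.range K) =
      0 := by
    rw [bfd]
    refine Finset.sum_eq_zero fun i hi => Finset.sum_eq_zero fun l hl => ?_
    rw [Finset.mem_range] at hi hl
    rw [hy _ (by omega) (by omega), zero_mul]
  have ha : pd (uA k K) (fun s => y (2 * s)) (range K) (List.range K) = ee k K * y 0 := by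
    rw [bfd, Finset.sum_eq_single 0, Finset.sum_eq_single 0]
    · rw [a2 0 (by omega) 0 (by omega), if_pos rfl, mul_one, mul_comm]
      rfl
    · intro l hl hl0
      rw [Finset.mem_range] at hl
      rw [hy _ (by omega) (by omega), zero_mul]
    · intro h
      exact absurd (Finset.mem_range.2 (by omega)) h
    · intro i hi hi0
      refine Finset.sum_eq_zero fun l hl => ?_
      rw [Finset.mem_range] at hi hl
      rw [hy _ (by omega) (by omega), zero_mul]
    · intro h
      exact absurd (Finset.mem_range.2 (by omega)) h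
  -- the even equations
  have hc : ∀ i < K, ci' K y i = 0 := by
    refine inv_a h2 K hK _ fun l hl => ?_
    have h := hE l (by omega)
    rw [hd, zero_mul, zero_add, if_pos hl] at h
    have h3 : ee k K * ∑ i ∈ range K, ci' K y i *
        (if i + l = 0 then (1 : k) else if i + l ≤ K then -1 else 1) = 0 := by
      rw [← h, Finset.mul_sum]
      exact Finset.sum_congr rfl fun i _ => by ring
    exact (mul_eq_zero.1 h3).resolve_left (ee_ne K)
  have hV : ∀ i < K, y (2 * i + 1) = Vi K y i := by
    intro i hi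
    have h := hc i hi
    rw [ci_eq K hK] at h
    exact sub_eq_zero.1 ((mul_eq_zero.1 h).resolve_left (ee_ne K))
  -- the odd equations
  have ho := (ci k h2 K (fun i => 2 * ee k K * Vi K y i + if i + 1 = K then
    pd (uA k K) (fun s => y (2 * s)) (range K) (List.range K) else 0)).1 (fun l hl =>
      (mul_eq_zero.1 (hO l hl)).resolve_left (ee_ne K))
  have hV0 : ∀ i, i + 1 < K → Vi K y i = 0 := by
    intro i hi
    have h := ho i (by omega)
    simp only [if_neg (show ¬ i + 1 = K by omega), add_zero] at h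
    exact (mul_eq_zero.1 h).resolve_left (mul_ne_zero h2 (ee_ne K))
  have hh : ∀ i, i + 1 < K → y (2 * i + 1) = 0 := fun i hi => by
    rw [hV i (by omega), hV0 i hi]
  have hK1 : y (2 * (K - 1) + 1) = 0 := by
    have h := hV0 0 (by omega)
    unfold Vi at h
    rw [Finset.sum_eq_single (K - 1)] at h
    · rw [zero_add] at h
      exact h
    · intro l hl hl1
      rw [Finset.mem_Ico] at hl
      exact hh _ (by omega)
    · intro h
      exact absurd (Finset.mem_Ico.2 (by omega)) h
  have hVK : Vi K y (K - 1) = 0 := by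
    rw [← hV (K - 1) (by omega)]
    exact hK1
  have hy0 : y 0 = 0 := by
    have h := ho (K - 1) (by omega)
    simp only [if_pos (show K - 1 + 1 = K by omega), hVK, mul_zero, zero_add] at h
    rw [ha] at h
    exact (mul_eq_zero.1 h).resolve_left (ee_ne K)
  have hVa : ∀ i < K, Vi K y i = 0 := by
    intro i hi
    by_cases h : i + 1 < K
    · exact hV0 i h
    · rw [show i = K - 1 by omega]
      exact hVK
  have hh1 : ∀ i, i < K → y (2 * i + 1) = 0 := by
    intro i hi
    rw [hV i hi, hVa i hi]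
  have hstep : ∀ i, i + 1 < K → y (2 * (i + K) + 1) = 0 := by
    intro i hi
    have e1 := hVa i (by omega)
    have e2 := hVa (i + 1) hi
    unfold Vi at e1 e2
    have e3 : ∑ l ∈ Ico 1 K, y (2 * (i + 1 + l) + 1) =
        ∑ l ∈ Ico 2 (K + 1), y (2 * (i + l) + 1) := by
      rw [Finset.sum_Ico_eq_sum_range, Finset.sum_Ico_eq_sum_range]
      refine Finset.sum_congr (by congr 1) fun l _ => ?_
      congr 1
      ring
    rw [e3, Finset.sum_Ico_succ_top (by omega)] at e2
    rw [Finset.sum_eq_sum_Ico_succ_bot (by omega), hh1 _ (by omega), zero_add] at e1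
    rw [e1, zero_add] at e2
    exact e2
  intro v hv
  obtain ⟨m, hm | hm⟩ := Nat.even_or_odd' v
  · by_cases h0 : m = 0
    · rw [hm, h0]; exact hy0
    · rw [hm]; exact hy m (by omega) (by omega)
  · by_cases h1 : m < K
    · rw [hm]; exact hh1 m h1
    by_cases h2 : m + 1 < 2 * K
    · rw [hm]
      have := hstep (m - K) (by omega)
      rw [show m - K + K = m by omega] at this
      exact this
    · rw [show v = 4 * K - 1 by omega]
      exact hy'

/-! ### the tangent vector -/

lemma w_even (K : ℕ) (hK : 3 ≤ K) (s : ℕ) (hs : s < 2 * K) :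
    wC1 k K (2 * s) = if s = 0 then 2 else if s + 1 = 2 * K then -1 else 0 := by
  unfold wC1
  by_cases h0 : s = 0
  · rw [if_pos (by omega), if_pos h0]
  by_cases h1 : s + 1 = 2 * K
  · rw [if_neg (by omega), if_neg (by omega), if_pos (by omega), if_neg h0, if_pos h1]
  · rw [if_neg (by omega), if_neg (by omega), if_neg (by omega), if_neg (by omega), if_neg h0,
      if_neg h1]

lemma w_odd (K : ℕ) (hK : 3 ≤ K) (s : ℕ) (hs : s < 2 * K) :
    wC1 k K (2 * s + 1) = if s = 0 ∨ s = 1 ∨ s = K then 1 else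
      if s + 1 = K then -1 else if s + 2 = 2 * K then -2 else 0 := by
  unfold wC1
  rw [if_neg (by omega)]
  by_cases h0 : s = 0 ∨ s = 1 ∨ s = K
  · rw [if_pos (by omega), if_pos h0]
  by_cases h1 : s + 1 = K
  · rw [if_neg (by omega), if_pos (by omega), if_neg h0, if_pos h1]
  by_cases h2 : s + 2 = 2 * K
  · rw [if_neg (by omega), if_neg (by omega), if_pos (by omega), if_neg h0, if_neg h1, if_pos h2]
  · rw [if_neg (by omega), if_neg (by omega), if_neg (by omega), if_neg h0, if_neg h1, if_neg h2]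

lemma Vw (K : ℕ) (hK : 3 ≤ K) (i : ℕ) (hi : i < K) :
    Vi K (wC1 k K) i = if i + 1 = K then -1 else 0 := by
  unfold Vi
  have e : ∀ l ∈ Ico 1 K, wC1 k K (2 * (i + l) + 1) =
      (if l = 1 then (if i = 0 then (1 : k) else 0) else 0) +
      (if l = K - i then (if i = 0 then (0 : k) else 1) else 0) +
      (if l = K - 1 - i then (if i + 1 = K then (0 : k) else -1) else 0) +
      (if l = K - 1 then (if i + 1 = K then (-2 : k) else 0) else 0) := by
    intro l hl
    rw [Finset.mem_Ico] at hl
    rw [w_odd K hK _ (by omega)]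
    split_ifs <;> first | (exfalso; omega) | ring
  rw [Finset.sum_congr rfl e, Finset.sum_add_distrib, Finset.sum_add_distrib,
    Finset.sum_add_distrib, Finset.sum_ite_eq', Finset.sum_ite_eq', Finset.sum_ite_eq',
    Finset.sum_ite_eq']
  simp only [Finset.mem_Ico]
  split_ifs <;> first | (exfalso; omega) | ring

include hCA hLK hRF hRD in
lemma tw (K : ℕ) (hK : 3 ≤ K) : Tt (2 * K + 1) (2 * K) (qC1 k K) (wC1 k K) := by
  obtain ⟨a1, a2, a3, a4, a5⟩ := hCA K hK
  have hd : pd (fun s => uA k K (s + 1)) (fun s => wC1 k K (2 * (s + 1))) (range K)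
      (List.range K) = ee k K := by
    rw [bfd, Finset.sum_eq_single (K - 1), Finset.sum_eq_single (K - 1)]
    · rw [a4 (K - 1) (by omega) (K - 1) (by omega), if_neg (by omega), w_even K hK _ (by omega),
        if_neg (by omega), if_pos (by omega)]
      unfold ee
      ring
    · intro l hl hl0
      rw [Finset.mem_range] at hl
      rw [w_even K hK _ (by omega), if_neg (by omega), if_neg (by omega), zero_mul]
    · intro h
      exact absurd (Finset.mem_range.2 (by omega)) h
    · intro i hi hi0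
      refine Finset.sum_eq_zero fun l hl => ?_
      rw [Finset.mem_range] at hi hl
      rw [w_even K hK _ (by omega), if_neg (by omega), if_neg (by omega), zero_mul]
    · intro h
      exact absurd (Finset.mem_range.2 (by omega)) h
  have ha : pd (uA k K) (fun s => wC1 k K (2 * s)) (range K) (List.range K) = ee k K * 2 := by
    rw [bfd, Finset.sum_eq_single 0, Finset.sum_eq_single 0]
    · rw [a2 0 (by omega) 0 (by omega), if_pos rfl, w_even K hK _ (by omega), if_pos rfl]
      unfold ee
      ring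
    · intro l hl hl0
      rw [Finset.mem_range] at hl
      rw [w_even K hK _ (by omega), if_neg (by omega), if_neg (by omega), zero_mul]
    · intro h
      exact absurd (Finset.mem_range.2 (by omega)) h
    · intro i hi hi0
      refine Finset.sum_eq_zero fun l hl => ?_
      rw [Finset.mem_range] at hi hl
      rw [w_even K hK _ (by omega), if_neg (by omega), if_neg (by omega), zero_mul]
    · intro h
      exact absurd (Finset.mem_range.2 (by omega)) h
  intro J hJ hJn
  obtain ⟨d, hd', rfl⟩ := allJ K J hJ hJn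
  obtain ⟨l₀, rfl | rfl⟩ := Nat.even_or_odd' d
  · rw [evenF hCA hLK hRF hRD K hK _ l₀ (by omega), hd]
    have hc : ∀ i ∈ range K, ci' K (wC1 k K) i *
        (ee k K * if i + l₀ = 0 then 1 else if i + l₀ ≤ K then -1 else 1) =
        (if i = 0 then (if i + l₀ = 0 then (1 : k) else if i + l₀ ≤ K then -1 else 1) else 0) +
        (if i = 1 then (if i + l₀ = 0 then (1 : k) else if i + l₀ ≤ K then -1 else 1) else 0) := by
      intro i hi
      rw [Finset.mem_range] at hi
      rw [ci_eq K hK, Vw K hK i hi, w_odd K hK i (by omega)]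
      have hs := ee_sq (k := k) K
      have key : ∀ a b : k, ee k K * a * (ee k K * b) = a * b := by
        intro a b
        calc ee k K * a * (ee k K * b) = (ee k K * ee k K) * (a * b) := by ring
          _ = a * b := by rw [hs, one_mul]
      rw [key]
      by_cases i0 : i = 0
      · rw [if_pos (Or.inl i0), if_neg (by omega : ¬ i + 1 = K), if_pos i0,
          if_neg (by omega : ¬ i = 1)]
        ring
      by_cases i1 : i = 1
      · rw [if_pos (Or.inr (Or.inl i1)), if_neg (by omega : ¬ i + 1 = K), if_neg i0, if_pos i1]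
        ring
      by_cases iK : i + 1 = K
      · rw [if_neg (by omega), if_pos iK, if_neg i0, if_neg i1, if_pos iK]
        ring
      · rw [if_neg (by omega), if_neg iK, if_neg (by omega), if_neg i0, if_neg i1, if_neg iK]
        ring
    by_cases hl : l₀ < K
    · rw [if_pos hl, Finset.sum_congr rfl hc, Finset.sum_add_distrib, Finset.sum_ite_eq',
        Finset.sum_ite_eq', if_pos (Finset.mem_range.2 (by omega)),
        if_pos (Finset.mem_range.2 (by omega))]
      by_cases h0 : l₀ = 0
      · rw [if_pos (Or.inl h0), if_pos (by omega : 0 + l₀ = 0), if_neg (by omega : ¬ 1 + l₀ = 0),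
          if_pos (by omega : 1 + l₀ ≤ K)]
        ring
      · rw [if_neg (by omega), if_neg (by omega : ¬ 0 + l₀ = 0), if_neg (by omega : ¬ 1 + l₀ = 0),
          if_pos (by omega : 0 + l₀ ≤ K), if_pos (by omega : 1 + l₀ ≤ K)]
        have hs := ee_sq (k := k) K
        linear_combination 2 * hs
    · rw [if_neg hl, if_pos (Or.inr (by omega))]
      ring
  · rw [oddF hCA hLK hRF hRD K hK _ l₀ (by omega), ha]
    have hz : ∀ i ∈ range K, (2 * ee k K * Vi K (wC1 k K) i + if i + 1 = K then
        ee k K * 2 else 0) * (if i + l₀ < K then (1 : k) else -1) = 0 := by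
      intro i hi
      rw [Finset.mem_range] at hi
      rw [Vw K hK i hi]
      by_cases h : i + 1 = K
      · rw [if_pos h, if_pos h]
        ring
      · rw [if_neg h, if_neg h]
        ring
    rw [Finset.sum_eq_zero hz, mul_zero]

end

theorem t (k : Type*) [Field k] (hCA : StmCA k) (hLK : StmLK k) (hRF : StmRF k) (hRD : StmRD) :
    StmC1a k := by
  intro h2 K hK
  exact ⟨vt hCA hLK hRD K hK, fun y hy hy' hT => tangent hCA hLK hRF hRD h2 K hK y hy hy' hT,
    tw hCA hLK hRF hRD K hK⟩

end Pool.Agent.N729.HQ.C1a
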