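import Pool.Agent.N729.HQ.Stm

/-!
Project HQ: part C1b (helper697): `t = 2 κ`, the quadric at the tangent vector `wC1`.
-/

set_option autoImplicit false

namespace Pool.Agent.N729.HQ.C1b

open Finset
open Pool.Agent.N186.HK (pm vm pm_nil pm_cons pm_congr)
open Pool.Agent.N729.HP

/-! ### The sum -/

def hZ (κ s : ℕ) : ℤ := if s = 0 ∨ s = 1 ∨ s = κ then 1 else if s + 1 = κ then -1 else
  if s + 2 = 2 * κ then -2 else 0

def aZ (κ s : ℕ) : ℤ := if s = 0 then 1 else if s ≤ κ then -1 else 1

def bZ (κ s : ℕ) : ℤ := if s < κ then 1 else -1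

theorem sum_diag {κ i s : ℕ} (F : ℕ → ℤ) : ∑ l ∈ range κ, (if i + l = s then F l else 0) =
    if i ≤ s ∧ s < i + κ then F (s - i) else 0 := by
  split_ifs with h
  · rw [Finset.sum_eq_single (s - i)]
    · rw [if_pos (by omega)]
    · intro b _ hb
      rw [if_neg (by omega)]
    · intro hn
      exact absurd (mem_range.mpr (by omega)) hn
  · apply Finset.sum_eq_zero
    intro l hl
    rw [mem_range] at hl
    rw [if_neg (by omega)]

theorem star {κ i : ℕ} (hκ : 3 ≤ κ) (hi : i < κ) (F : ℕ → ℤ) :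
    ∑ l ∈ range κ, hZ κ (i + l) * F l = (if i = 0 then F 0 + F 1 else 0) +
      (if i = 1 then F 0 else 0) - F (κ - 1 - i) + (if i = 0 then 0 else F (κ - i)) -
      (if i + 1 = κ then 2 * F (κ - 1) else 0) := by
  have h1 : ∀ l ∈ range κ, hZ κ (i + l) * F l = (if i + l = 0 then F l else 0) +
      (if i + l = 1 then F l else 0) - (if i + l = κ - 1 then F l else 0) +
      (if i + l = κ then F l else 0) - 2 * (if i + l = 2 * κ - 2 then F l else 0) := by
    intro l hl
    rw [mem_range] at hl
    unfold hZ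
    split_ifs <;> first | (exfalso; omega) | ring
  rw [Finset.sum_congr rfl h1, Finset.sum_sub_distrib, Finset.sum_add_distrib,
    Finset.sum_sub_distrib, Finset.sum_add_distrib, ← Finset.mul_sum, sum_diag, sum_diag, sum_diag,
    sum_diag, sum_diag]
  by_cases h2 : i = 0
  · subst h2
    rw [if_pos (by omega), if_pos (by omega), if_pos (by omega), if_neg (by omega),
      if_neg (by omega), if_pos rfl, if_neg (by omega), if_pos rfl, if_neg (by omega)]
    simp
  · by_cases h3 : i = 1
    · subst h3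
      rw [if_neg (by omega), if_pos (by omega), if_pos (by omega), if_pos (by omega),
        if_neg (by omega), if_neg (by omega), if_pos rfl, if_neg (by omega), if_neg (by omega)]
      simp
    · by_cases h4 : i + 1 = κ
      · rw [if_neg (by omega), if_neg (by omega), if_pos (by omega), if_pos (by omega),
          if_pos (by omega), if_neg (by omega), if_neg (by omega), if_neg (by omega),
          if_pos (by omega), show 2 * κ - 2 - i = κ - 1 by omega]
      · rw [if_neg (by omega), if_neg (by omega), if_pos (by omega), if_pos (by omega),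
          if_neg (by omega), if_neg (by omega), if_neg (by omega), if_neg (by omega),
          if_neg (by omega)]
        simp

/-- the first product -/
def P (κ i r : ℕ) : ℤ := (if i = 0 then 3 - (if r = 0 then 2 else 0) -
  (if r + 1 = κ then 2 else 0) else 0) + (if i = 1 then 1 else 0) -
  (if i = r ∧ 1 ≤ i then 2 else 0) + (if i + 1 = κ then 2 - (if r = 0 then 4 else 0) else 0)

theorem P_eq {κ i r : ℕ} (hκ : 3 ≤ κ) (hi : i < κ) (hr : r < κ) :
    ∑ l ∈ range κ, hZ κ (i + l) * bZ κ (r + l) = P κ i r := by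
  rw [star hκ hi (fun l => bZ κ (r + l))]
  unfold P bZ
  split_ifs <;> omega

/-- the second product -/
def Q (κ r l : ℕ) : ℤ := aZ κ l * (3 - (if r = 0 then 2 else 0) - (if r + 1 = κ then 2 else 0)) +
  aZ κ (1 + l) - (if 1 ≤ r then 2 * aZ κ (r + l) else 0) +
  aZ κ (κ - 1 + l) * (2 - (if r = 0 then 4 else 0))

theorem Q_eq {κ l r : ℕ} (hκ : 3 ≤ κ) (hr : r < κ) :
    ∑ i ∈ range κ, aZ κ (i + l) * P κ i r = Q κ r l := by
  have h1 : ∀ i ∈ range κ, aZ κ (i + l) * P κ i r =
      (if i = 0 then aZ κ l * (3 - (if r = 0 then 2 else 0) - (if r + 1 = κ then 2 else 0)) else 0) +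
      (if i = 1 then aZ κ (1 + l) else 0) -
      (if i = r then (if 1 ≤ r then 2 * aZ κ (r + l) else 0) else 0) +
      (if i = κ - 1 then aZ κ (κ - 1 + l) * (2 - (if r = 0 then 4 else 0)) else 0) := by
    intro i hi
    rw [mem_range] at hi
    by_cases e1 : i = 0
    · subst e1
      unfold P
      by_cases e2 : r = 0
      · subst e2
        simp; split_ifs <;> first | (exfalso; omega) | ring
      · simp; split_ifs <;> first | (exfalso; omega) | ring
    · by_cases e2 : i = 1
      · subst e2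
        unfold P
        by_cases e3 : r = 1
        · subst e3
          simp; split_ifs <;> first | (exfalso; omega) | ring
        · simp; split_ifs <;> first | (exfalso; omega) | ring
      · unfold P
        by_cases e3 : i = r
        · subst e3
          by_cases e4 : i = κ - 1
          · rw [← e4]
            split_ifs <;> first | (exfalso; omega) | ring
          · split_ifs <;> first | (exfalso; omega) | ring
        · by_cases e4 : i = κ - 1
          · rw [← e4]
            split_ifs <;> first | (exfalso; omega) | ring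
          · split_ifs <;> first | (exfalso; omega) | ring
  rw [Finset.sum_congr rfl h1, Finset.sum_add_distrib, Finset.sum_sub_distrib,
    Finset.sum_add_distrib, Finset.sum_ite_eq', Finset.sum_ite_eq', Finset.sum_ite_eq',
    Finset.sum_ite_eq', if_pos (mem_range.mpr (by omega)), if_pos (mem_range.mpr (by omega)),
    if_pos (mem_range.mpr (by omega)), if_pos (mem_range.mpr (by omega))]
  rfl

theorem a_zero (κ : ℕ) : aZ κ 0 = 1 := rfl

theorem a_mid {κ s : ℕ} (h1 : 1 ≤ s) (h2 : s ≤ κ) : aZ κ s = -1 := by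
  unfold aZ
  rw [if_neg (by omega), if_pos h2]

theorem a_big {κ s : ℕ} (h2 : κ < s) : aZ κ s = 1 := by
  unfold aZ
  rw [if_neg (by omega), if_neg (by omega)]

theorem Q_mid {κ r l : ℕ} (h1 : 1 ≤ r) (h2 : r + 1 < κ) : Q κ r l =
    3 * aZ κ l + aZ κ (1 + l) - 2 * aZ κ (r + l) + 2 * aZ κ (κ - 1 + l) := by
  unfold Q
  rw [if_neg (by omega), if_neg (by omega), if_pos h1, if_neg (by omega)]
  ring

theorem Q_first {κ l : ℕ} (h2 : 1 < κ) : Q κ 0 l =
    aZ κ l + aZ κ (1 + l) - 2 * aZ κ (κ - 1 + l) := by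
  unfold Q
  rw [if_pos rfl, if_neg (by omega), if_neg (by omega), if_pos rfl]
  ring

theorem Q_last {κ l : ℕ} (h2 : 1 < κ) : Q κ (κ - 1) l = aZ κ l + aZ κ (1 + l) := by
  unfold Q
  rw [if_neg (by omega), if_pos (by omega), if_pos (by omega), if_neg (by omega)]
  ring

theorem G_eq {κ l : ℕ} (hκ : 3 ≤ κ) (hl : l < κ) :
    ∑ r ∈ range κ, hZ κ (l + r) * Q κ r l = (if l = 0 then 4 else 0) + (if l = 1 then 2 else 0) +
      (if l = κ - 1 then 8 else 0) := by
  rw [star hκ hl (fun r => Q κ r l)]
  by_cases h0 : l = 0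
  · subst h0
    rw [if_pos rfl, if_neg (by omega), if_pos rfl, if_neg (by omega), if_pos rfl,
      if_neg (by omega), if_neg (by omega), Nat.sub_zero, Q_first (by omega), Q_last (by omega),
      Q_mid le_rfl (by omega), a_zero, a_mid (by omega) (by omega), a_mid (by omega) (by omega)]
    norm_num
  · by_cases h1 : l = 1
    · subst h1
      rw [if_neg (by omega), if_pos rfl, if_neg (by omega), if_neg (by omega), if_neg (by omega),
        if_pos rfl, if_neg (by omega), Q_first (by omega), Q_last (by omega),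
        Q_mid (by omega) (by omega), a_mid (s := 1) (by omega) (by omega),
        a_mid (s := 1 + 1) (by omega) (by omega), a_mid (s := κ - 1 + 1) (by omega) (by omega),
        a_mid (s := κ - 1 - 1 + 1) (by omega) (by omega)]
      norm_num
    · by_cases h2 : l = κ - 1
      · rw [if_neg (by omega), if_neg (by omega), if_neg (by omega), if_pos (by omega),
          if_neg (by omega), if_neg (by omega), if_pos (by omega), show κ - 1 - l = 0 by omega,
          show κ - l = 1 by omega, Q_first (by omega), Q_last (by omega),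
          Q_mid (by omega) (by omega), a_mid (s := l) (by omega) (by omega),
          a_mid (s := 1 + l) (by omega) (by omega), a_big (s := κ - 1 + l) (by omega)]
        norm_num
      · rw [if_neg (by omega), if_neg (by omega), if_neg (by omega), if_neg (by omega),
          if_neg (by omega), if_neg (by omega), if_neg (by omega),
          Q_mid (r := κ - 1 - l) (by omega) (by omega), Q_mid (r := κ - l) (by omega) (by omega),
          a_mid (s := κ - 1 - l + l) (by omega) (by omega),
          a_mid (s := κ - l + l) (by omega) (by omega)]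
        ring

theorem total {κ : ℕ} (hκ : 3 ≤ κ) :
    ∑ i ∈ range κ, ∑ l ∈ range κ, ∑ i' ∈ range κ, ∑ l' ∈ range κ,
      hZ κ (i + l) * hZ κ (l' + i') * (aZ κ (i + l') * bZ κ (i' + l)) = 14 := by
  have h1 : ∑ i ∈ range κ, ∑ l ∈ range κ, ∑ i' ∈ range κ, ∑ l' ∈ range κ,
      hZ κ (i + l) * hZ κ (l' + i') * (aZ κ (i + l') * bZ κ (i' + l)) =
      ∑ l' ∈ range κ, ∑ i' ∈ range κ, hZ κ (l' + i') * ∑ i ∈ range κ, aZ κ (i + l') *
        ∑ l ∈ range κ, hZ κ (i + l) * bZ κ (i' + l) := by
    have e1 : ∀ i ∈ range κ, ∑ l ∈ range κ, ∑ i' ∈ range κ, ∑ l' ∈ range κ,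
      hZ κ (i + l) * hZ κ (l' + i') * (aZ κ (i + l') * bZ κ (i' + l)) =
      ∑ l' ∈ range κ, ∑ i' ∈ range κ, ∑ l ∈ range κ,
      hZ κ (i + l) * hZ κ (l' + i') * (aZ κ (i + l') * bZ κ (i' + l)) := by
      intro i _
      rw [Finset.sum_comm]
      have : ∀ i' ∈ range κ, ∑ l ∈ range κ, ∑ l' ∈ range κ,
        hZ κ (i + l) * hZ κ (l' + i') * (aZ κ (i + l') * bZ κ (i' + l)) = 
        ∑ l' ∈ range κ, ∑ l ∈ range κ,
        hZ κ (i + l) * hZ κ (l' + i') * (aZ κ (i + l') * bZ κ (i' + l)) := fun i' _ =>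
          Finset.sum_comm
      rw [Finset.sum_congr rfl this, Finset.sum_comm]
    rw [Finset.sum_congr rfl e1, Finset.sum_comm]
    refine Finset.sum_congr rfl fun l' _ => ?_
    rw [Finset.sum_comm]
    refine Finset.sum_congr rfl fun i' _ => ?_
    rw [Finset.mul_sum]
    refine Finset.sum_congr rfl fun i _ => ?_
    rw [Finset.mul_sum, Finset.mul_sum]
    refine Finset.sum_congr rfl fun l _ => ?_
    ring
  rw [h1]
  have h2 : ∀ l' ∈ range κ, ∑ i' ∈ range κ, hZ κ (l' + i') * ∑ i ∈ range κ, aZ κ (i + l') *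
        ∑ l ∈ range κ, hZ κ (i + l) * bZ κ (i' + l) = (if l' = 0 then 4 else 0) +
        (if l' = 1 then 2 else 0) + (if l' = κ - 1 then 8 else 0) := by
    intro l' hl'
    rw [← G_eq hκ (mem_range.mp hl')]
    refine Finset.sum_congr rfl fun i' hi' => ?_
    congr 1
    rw [← Q_eq hκ (mem_range.mp hi')]
    refine Finset.sum_congr rfl fun i hi => ?_
    rw [P_eq hκ (mem_range.mp hi) (mem_range.mp hi')]
  rw [Finset.sum_congr rfl h2, Finset.sum_add_distrib, Finset.sum_add_distrib,
    Finset.sum_ite_eq', Finset.sum_ite_eq', Finset.sum_ite_eq',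
    if_pos (mem_range.mpr (by omega)), if_pos (mem_range.mpr (by omega)),
    if_pos (mem_range.mpr (by omega))]
  norm_num

/-! ### Congruence, blocks -/

section

variable {D : Type*} [CommRing D]

theorem pd_congr {x x' y y' : ℕ → D} (cs : List ℕ) :
    ∀ R : Finset ℕ, (∀ i ∈ R, ∀ c ∈ cs, x (i + c) = x' (i + c)) →
      (∀ i ∈ R, ∀ c ∈ cs, y (i + c) = y' (i + c)) → pd x y R cs = pd x' y' R cs := by
  induction cs with
  | nil => intro R _ _; rw [BA.pd_nil, BA.pd_nil]
  | cons c cs ih =>
    intro R h h'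
    rw [BA.pd_cons, BA.pd_cons]
    refine Finset.sum_congr rfl fun i hi => ?_
    rw [h i hi c List.mem_cons_self, h' i hi c List.mem_cons_self,
      ih (R.erase i) (fun j hj d hd =>
        h j (Finset.mem_of_mem_erase hj) d (List.mem_cons_of_mem _ hd)) (fun j hj d hd =>
        h' j (Finset.mem_of_mem_erase hj) d (List.mem_cons_of_mem _ hd)),
      pm_congr cs (R.erase i) (fun j hj d hd =>
        h j (Finset.mem_of_mem_erase hj) d (List.mem_cons_of_mem _ hd))]

theorem pq_nil (x y : ℕ → D) (J : Finset ℕ) : pq x y J [] = 0 := by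
  unfold pq; rfl

theorem pq_cons (x y : ℕ → D) (J : Finset ℕ) (c : ℕ) (L : List ℕ) :
    pq x y J (c :: L) =
      ∑ j ∈ J, (y (j + c) * pd x y (J.erase j) L + x (j + c) * pq x y (J.erase j) L) := by
  rw [pq]

theorem pq_congr {x x' y y' : ℕ → D} (cs : List ℕ) :
    ∀ R : Finset ℕ, (∀ i ∈ R, ∀ c ∈ cs, x (i + c) = x' (i + c)) →
      (∀ i ∈ R, ∀ c ∈ cs, y (i + c) = y' (i + c)) → pq x y R cs = pq x' y' R cs := by
  induction cs with
  | nil => intro R _ _; rw [pq_nil, pq_nil]
  | cons c cs ih =>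
    intro R h h'
    rw [pq_cons, pq_cons]
    refine Finset.sum_congr rfl fun i hi => ?_
    rw [h i hi c List.mem_cons_self, h' i hi c List.mem_cons_self,
      ih (R.erase i) (fun j hj d hd =>
        h j (Finset.mem_of_mem_erase hj) d (List.mem_cons_of_mem _ hd)) (fun j hj d hd =>
        h' j (Finset.mem_of_mem_erase hj) d (List.mem_cons_of_mem _ hd)),
      pd_congr cs (R.erase i) (fun j hj d hd =>
        h j (Finset.mem_of_mem_erase hj) d (List.mem_cons_of_mem _ hd)) (fun j hj d hd =>
        h' j (Finset.mem_of_mem_erase hj) d (List.mem_cons_of_mem _ hd))]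

end

/-- the long indices of the class `σ` -/
def JJ (κ σ : ℕ) : Finset ℕ := (range κ).image fun l => σ + 2 * l

/-- the short indices of the class `ρ` -/
def LL (κ ρ : ℕ) : List ℕ := (List.range κ).map fun i => ρ + 2 * i

theorem range_split (κ : ℕ) : range (2 * κ) = JJ κ 0 ∪ JJ κ 1 := by
  ext x
  simp only [JJ, mem_union, mem_image, mem_range]
  constructor
  · intro h
    rcases Nat.even_or_odd' x with ⟨r, hr | hr⟩
    · exact Or.inl ⟨r, by omega, by omega⟩
    · exact Or.inr ⟨r, by omega, by omega⟩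
  · rintro (⟨r, h1, h2⟩ | ⟨r, h1, h2⟩) <;> omega

theorem disj (κ : ℕ) : Disjoint (JJ κ 0) (JJ κ 1) := by
  rw [Finset.disjoint_left]
  intro x h1 h2
  simp only [JJ, mem_image, mem_range] at h1 h2
  obtain ⟨a, _, ha⟩ := h1
  obtain ⟨b, _, hb⟩ := h2
  omega

theorem mem_LL {κ ρ x : ℕ} : x ∈ LL κ ρ ↔ ∃ i < κ, ρ + 2 * i = x := by
  simp only [LL, List.mem_map, List.mem_range]

theorem inj2 (ρ : ℕ) : Function.Injective fun i : ℕ => ρ + 2 * i := BA.phi_inj (by norm_num) ρ

theorem LL_nodup (κ : ℕ) : (LL κ 0 ++ LL κ 1).Nodup := by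
  rw [List.nodup_append]
  refine ⟨List.nodup_range.map (inj2 0), List.nodup_range.map (inj2 1), ?_⟩
  intro a ha b hb
  obtain ⟨i, _, hi⟩ := mem_LL.mp ha
  obtain ⟨j, _, hj⟩ := mem_LL.mp hb
  omega

theorem LL_perm (κ : ℕ) : (List.range (2 * κ)).Perm (LL κ 0 ++ LL κ 1) := by
  rw [List.perm_ext_iff_of_nodup List.nodup_range (LL_nodup κ)]
  intro x
  rw [List.mem_range, List.mem_append, mem_LL, mem_LL]
  constructor
  · intro h
    rcases Nat.even_or_odd' x with ⟨r, hr | hr⟩
    · exact Or.inl ⟨r, by omega, by omega⟩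
    · exact Or.inr ⟨r, by omega, by omega⟩
  · rintro (⟨r, h1, h2⟩ | ⟨r, h1, h2⟩) <;> omega

theorem LL_toFinset (κ ρ : ℕ) : (LL κ ρ).toFinset = (range κ).image fun i => ρ + 2 * i := by
  ext x
  rw [List.mem_toFinset, mem_LL, mem_image]
  simp only [mem_range]

variable (k : Type*) [Field k]

theorem cst_even (u : ℕ → k) (v : ℕ) (h : v % 2 = 1) : cst 2 0 u v = 0 := by
  unfold cst
  rw [if_neg (by omega)]

theorem cst_two (u : ℕ → k) (s : ℕ) : cst 2 0 u (2 * s) = u s := by
  unfold cst
  rw [if_pos (by omega)]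
  congr 1
  omega

theorem q_cst {κ : ℕ} : ∀ i ∈ range (2 * κ), ∀ c ∈ List.range (2 * κ),
    qC1 k κ (i + c) = cst 2 0 (uA k κ) (i + c) := by
  intro i hi c hc
  rw [mem_range] at hi
  rw [List.mem_range] at hc
  rcases Nat.even_or_odd' (i + c) with ⟨r, hr | hr⟩
  · rw [hr, cst_two]
    unfold qC1 uA
    by_cases h1 : r = 0 ∨ r = 1
    · rw [if_pos (by omega), if_pos h1]
    · rw [if_neg (by omega), if_neg h1]
      by_cases h2 : r = κ ∨ r = κ + 1
      · rw [if_pos (by omega), if_pos h2]
      · rw [if_neg (by omega), if_neg h2]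
  · rw [cst_even k _ _ (by omega)]
    unfold qC1
    rw [if_neg (by omega), if_neg (by omega)]

theorem pm_blk (u : ℕ → k) (ρ σ s : ℕ) (h : ρ + σ = 2 * s) (J : Finset ℕ) (L : List ℕ) :
    pm (cst 2 0 u) (J.image fun l => σ + 2 * l) (L.map fun i => ρ + 2 * i) =
      pm (fun v => u (v + s)) J L := by
  rw [((BA.te k) _ (fun _ => 0) 2 ρ σ (by norm_num) J L).1]
  congr 1
  funext v
  rw [h, ← mul_add, cst_two, add_comm]

theorem pd_blk (u y : ℕ → k) (ρ σ s : ℕ) (h : ρ + σ = 2 * s) (J : Finset ℕ) (L : List ℕ) :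
    pd (cst 2 0 u) y (J.image fun l => σ + 2 * l) (L.map fun i => ρ + 2 * i) =
      pd (fun v => u (v + s)) (fun v => y (2 * (v + s))) J L := by
  rw [((BA.te k) _ y 2 ρ σ (by norm_num) J L).2]
  congr 1
  · funext v
    rw [h, ← mul_add, cst_two, add_comm]
  · funext v
    rw [h, ← mul_add, add_comm]

/-- the entries between the blocks vanish -/
theorem off (u : ℕ → k) {κ ρ σ : ℕ} (h : (ρ + σ) % 2 = 1) : ∀ c ∈ LL κ ρ, ∀ j ∈ JJ κ σ,
    cst 2 0 u (j + c) = 0 := by
  intro c hc j hj
  obtain ⟨i, _, rfl⟩ := mem_LL.mp hc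
  simp only [JJ, mem_image, mem_range] at hj
  obtain ⟨l, _, rfl⟩ := hj
  apply cst_even
  omega


/-! ### The result -/

theorem w_odd {κ : ℕ} (s : ℕ) : wC1 k κ (2 * s + 1) = ((hZ κ s : ℤ) : k) := by
  unfold wC1 hZ
  rw [if_neg (by omega)]
  by_cases h1 : s = 0 ∨ s = 1 ∨ s = κ
  · rw [if_pos (by omega), if_pos h1]; norm_num
  · rw [if_neg (by omega), if_neg h1]
    by_cases h2 : s + 1 = κ
    · rw [if_pos (by omega), if_pos h2]; norm_num
    · rw [if_neg (by omega), if_neg h2]
      by_cases h3 : s + 2 = 2 * κ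
      · rw [if_pos (by omega), if_pos h3]; norm_num
      · rw [if_neg (by omega), if_neg h3]; norm_num

theorem w_even {κ : ℕ} (s : ℕ) : wC1 k κ (2 * s) =
    if s = 0 then 2 else if s + 1 = 2 * κ then -1 else 0 := by
  unfold wC1
  by_cases h1 : s = 0
  · rw [if_pos (by omega), if_pos h1]
  · rw [if_neg (by omega), if_neg (by omega), if_neg h1]
    by_cases h3 : s + 1 = 2 * κ
    · rw [if_pos (by omega), if_pos h3]
    · rw [if_neg (by omega), if_neg (by omega), if_neg h3]

theorem t (hCA : StmCA k) (hQB : StmQB k) : StmC1b k := by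
  intro κ hκ
  obtain ⟨ca1, ca2, ca3, ca4, -⟩ := hCA κ hκ
  set x : ℕ → k := cst 2 0 (uA k κ) with hx
  set e : k := (-1) ^ (κ + 1) with he
  have hee : e * e = 1 := by
    rw [he, ← mul_pow]
    simp
  have p1 : pm x (JJ κ 0) (LL κ 0) = 0 := by
    unfold JJ LL
    rw [pm_blk k _ 0 0 0 rfl]
    exact ca1
  have p2 : pm x (JJ κ 1) (LL κ 1) = 0 := by
    unfold JJ LL
    rw [pm_blk k _ 1 1 1 rfl]
    exact ca3
  have cJ : ∀ σ, (JJ κ σ).card = κ := by
    intro σ
    unfold JJ
    rw [Finset.card_image_of_injective _ (inj2 σ), card_range]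
  have cL : ∀ ρ, (LL κ ρ).length = κ := by
    intro ρ
    unfold LL
    rw [List.length_map, List.length_range]
  constructor
  · intro y
    rw [pd_congr _ _ (q_cst k) (fun _ _ _ _ => rfl), BA.pd_perm _ _ (LL_perm κ), range_split,
      bc k _ _ _ _ _ _ (disj κ) (off k _ rfl) (off k _ rfl) ((cJ 0).trans (cL 0).symm)
        ((cJ 1).trans (cL 1).symm), p1, p2, mul_zero, zero_mul, add_zero]
  · rw [pq_congr _ _ (q_cst k) (fun _ _ _ _ => rfl), hQB.1 _ _ _ _ (LL_perm κ), range_split,
      hQB.2.1 _ _ _ _ _ _ (disj κ) (LL_nodup κ) (off k _ rfl) (off k _ rfl)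
        ((cJ 0).trans (cL 0).symm) ((cJ 1).trans (cL 1).symm), p1, p2, mul_zero, zero_mul,
      zero_add, add_zero]
    have d1 : pd x (wC1 k κ) (JJ κ 0) (LL κ 0) = 2 * e := by
      unfold JJ LL
      rw [pd_blk k _ _ 0 0 0 rfl, bf k _ _ _ _ List.nodup_range, List.toFinset_range,
        Finset.sum_eq_single 0, Finset.sum_eq_single 0]
      · have h1 := ca2 0 (by omega) 0 (by omega)
        rw [if_pos rfl, mul_one] at h1
        change wC1 k κ (2 * 0) * pm (uA k κ) ((range κ).erase 0) ((List.range κ).erase 0) = _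
        rw [h1, w_even, if_pos rfl]
      · intro j hj hj0
        rw [mem_range] at hj
        rw [w_even, if_neg (by omega), if_neg (by omega), zero_mul]
      · intro h
        exact absurd (mem_range.mpr (by omega)) h
      · intro i hi hi0
        rw [mem_range] at hi
        apply Finset.sum_eq_zero
        intro j hj
        rw [mem_range] at hj
        rw [w_even, if_neg (by omega), if_neg (by omega), zero_mul]
      · intro h
        exact absurd (mem_range.mpr (by omega)) h
    have d2 : pd x (wC1 k κ) (JJ κ 1) (LL κ 1) = e := by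
      unfold JJ LL
      rw [pd_blk k _ _ 1 1 1 rfl, bf k _ _ _ _ List.nodup_range, List.toFinset_range,
        Finset.sum_eq_single (κ - 1), Finset.sum_eq_single (κ - 1)]
      · have h1 := ca4 (κ - 1) (by omega) (κ - 1) (by omega)
        rw [if_neg (by omega)] at h1
        rw [h1, w_even, if_neg (by omega), if_pos (by omega)]
        ring
      · intro j hj hj0
        rw [mem_range] at hj
        rw [w_even, if_neg (by omega), if_neg (by omega), zero_mul]
      · intro h
        exact absurd (mem_range.mpr (by omega)) h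
      · intro i hi hi0
        rw [mem_range] at hi
        apply Finset.sum_eq_zero
        intro j hj
        rw [mem_range] at hj
        rw [w_even, if_neg (by omega), if_neg (by omega), zero_mul]
      · intro h
        exact absurd (mem_range.mpr (by omega)) h
    have E1 : ∀ i < κ, ∀ l < κ, pm x ((JJ κ 0).erase (0 + 2 * l)) ((LL κ 0).erase (0 + 2 * i)) =
        e * ((aZ κ (i + l) : ℤ) : k) := by
      intro i hi l hl
      have e1 : (JJ κ 0).erase (0 + 2 * l) = ((range κ).erase l).image fun l => 0 + 2 * l :=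
        (Finset.image_erase (inj2 0) _ _).symm
      have e2 : (LL κ 0).erase (0 + 2 * i) = ((List.range κ).erase i).map fun i => 0 + 2 * i :=
        (List.map_erase (inj2 0) _).symm
      rw [e1, e2, pm_blk k _ 0 0 0 rfl]
      have h1 := ca2 i hi l hl
      have h2 : ((aZ κ (i + l) : ℤ) : k) = if i + l = 0 then 1 else if i + l ≤ κ then -1 else 1 := by
        unfold aZ
        split_ifs <;> norm_num
      rw [h2]
      exact h1
    have E2 : ∀ i < κ, ∀ l < κ, pm x ((JJ κ 1).erase (1 + 2 * l)) ((LL κ 1).erase (1 + 2 * i)) =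
        e * ((bZ κ (i + l) : ℤ) : k) := by
      intro i hi l hl
      have e1 : (JJ κ 1).erase (1 + 2 * l) = ((range κ).erase l).image fun l => 1 + 2 * l :=
        (Finset.image_erase (inj2 1) _ _).symm
      have e2 : (LL κ 1).erase (1 + 2 * i) = ((List.range κ).erase i).map fun i => 1 + 2 * i :=
        (List.map_erase (inj2 1) _).symm
      rw [e1, e2, pm_blk k _ 1 1 1 rfl]
      have h1 := ca4 i hi l hl
      have h2 : ((bZ κ (i + l) : ℤ) : k) = if i + l < κ then 1 else -1 := by
        unfold bZ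
        split_ifs <;> norm_num
      rw [h2]
      exact h1
    have hmix : (∑ c ∈ (LL κ 0).toFinset, ∑ j ∈ JJ κ 1, ∑ c' ∈ (LL κ 1).toFinset,
        ∑ j' ∈ JJ κ 0, wC1 k κ (j + c) * wC1 k κ (j' + c') *
          pm x ((JJ κ 0).erase j') ((LL κ 0).erase c) *
          pm x ((JJ κ 1).erase j) ((LL κ 1).erase c')) = ((14 : ℤ) : k) := by
      rw [← total hκ]
      push_cast
      rw [LL_toFinset, LL_toFinset, Finset.sum_image (inj2 0).injOn]
      refine Finset.sum_congr rfl fun i hi => ?_
      have s1 : ∀ F : ℕ → k, ∑ j ∈ JJ κ 1, F j = ∑ l ∈ range κ, F (1 + 2 * l) := fun F =>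
        Finset.sum_image (inj2 1).injOn
      have s0 : ∀ F : ℕ → k, ∑ j ∈ JJ κ 0, F j = ∑ l ∈ range κ, F (0 + 2 * l) := fun F =>
        Finset.sum_image (inj2 0).injOn
      rw [s1]
      refine Finset.sum_congr rfl fun l hl => ?_
      rw [Finset.sum_image (inj2 1).injOn]
      refine Finset.sum_congr rfl fun i' hi' => ?_
      rw [s0]
      refine Finset.sum_congr rfl fun l' hl' => ?_
      rw [E1 i (mem_range.mp hi) l' (mem_range.mp hl'), E2 i' (mem_range.mp hi') l
        (mem_range.mp hl), show 1 + 2 * l + (0 + 2 * i) = 2 * (i + l) + 1 by ring,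
        show 0 + 2 * l' + (1 + 2 * i') = 2 * (l' + i') + 1 by ring, w_odd, w_odd]
      linear_combination ((hZ κ (i + l) : ℤ) : k) * ((hZ κ (l' + i') : ℤ) : k) *
        (((aZ κ (i + l') : ℤ) : k) * ((bZ κ (i' + l) : ℤ) : k)) * hee
    rw [hmix, d1, d2]
    push_cast
    linear_combination 2 * hee

end Pool.Agent.N729.HQ.C1b
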