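import Pool.Agent.N729.HQ.Stm

/-!
# HQ/C2c (copy b, helper335): the second quadric of the family C2
-/

set_option autoImplicit false

namespace Pool.Agent.N729.HQ.C2cb

open Finset
open Pool.Agent.N186.HK (pm pm_nil pm_cons pm_congr)
open Pool.Agent.N729.HP

section

variable {k : Type*} [Field k]

/-- comparison of permanents -/
lemma pm_eq (x x' : ℕ → k) (J J' : Finset ℕ) (L L' : List ℕ) (hJ : ∀ a, a ∈ J ↔ a ∈ J')
    (h1 : L.Nodup) (h2 : L'.Nodup) (hL : ∀ a, a ∈ L ↔ a ∈ L')
    (hx : ∀ j ∈ J, ∀ c ∈ L, x (j + c) = x' (j + c)) : pm x J L = pm x' J' L' := by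
  have h3 : J = J' := Finset.ext hJ
  subst h3
  rw [pm_congr L J hx]
  exact BA.pm_perm x' ((List.perm_ext_iff_of_nodup h1 h2).2 hL) J

/-- the strip sequence -/
def st (k : Type*) [Field k] (K s : ℕ) : k := if s + 1 = K ∨ s = K then 1 else 0

lemma uN_st (K s : ℕ) (hs : 2 ≤ s) : uN k K s = st k K s := by
  unfold uN st
  rw [if_neg (by omega), if_neg (by omega)]
  by_cases h1 : s + 1 = K
  · simp [h1]
  · by_cases h2 : s = K
    · simp [h2]
    · simp [h1, h2]

lemma nd1 (K i : ℕ) : ((List.range K).erase i).Nodup := List.nodup_range.erase _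

lemma nd2 (K i i' : ℕ) : (((List.range K).erase i).erase i').Nodup := (nd1 K i).erase _

lemma mem1 (K i a : ℕ) : a ∈ (List.range K).erase i ↔ a ≠ i ∧ a < K := by
  rw [List.nodup_range.mem_erase_iff, List.mem_range]

lemma mem2 (K i i' a : ℕ) : a ∈ ((List.range K).erase i).erase i' ↔ a ≠ i' ∧ a ≠ i ∧ a < K := by
  rw [(nd1 K i).mem_erase_iff, mem1]

/-- the strip of the rows `a, …, K - 2`, columns `1, …, K - a` without `z` -/
lemma strip (K a z : ℕ) (h1 : a < K) (hz1 : 1 ≤ z) (hz2 : z + a ≤ K) (J : Finset ℕ) (L : List ℕ)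
    (hL : L.Nodup) (hJm : ∀ j, j ∈ J ↔ j ≠ z ∧ 1 ≤ j ∧ j + a ≤ K)
    (hLm : ∀ c, c ∈ L ↔ a ≤ c ∧ c + 1 < K) (h2 : ∀ j ∈ J, ∀ c ∈ L, 2 ≤ j + c) :
    pm (uN k K) J L = 1 := by
  have h := (HP.sl k).2.1 (st k K) K a (K - 1) (by omega) (by omega) (by
    intro j _ _ c _ _
    unfold st
    rfl) z (mem_Icc.2 ⟨by omega, by omega⟩)
  rw [← h]
  refine pm_eq _ _ _ _ _ _ (fun j => ?_) hL (List.nodup_range' ..) (fun c => ?_) (fun j hj c hc => ?_)
  · rw [hJm, mem_erase, mem_Icc]
    omega
  · rw [hLm, List.mem_range'_1]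
    omega
  · exact uN_st K _ (h2 j hj c hc)

/-- rows `0, …, K - 2` without `i`, columns `2, …, K - 1` -/
lemma M4 (K i : ℕ) (hK : 4 ≤ K) (hi : i < 2) (J : Finset ℕ) (hJm : ∀ j, j ∈ J ↔ 2 ≤ j ∧ j < K) :
    pm (uN k K) J ((List.range (K - 1)).erase i) = 1 := by
  have h := (HP.sl k).2.2 (st k K) K 0 (K - 1) i (by omega) (by omega) (by omega) (by
    intro j _ _ c _ _ _
    unfold st
    rfl) 1 (mem_Icc.2 ⟨by omega, by omega⟩) K (mem_Icc.2 ⟨by omega, by omega⟩) (by omega)
  rw [if_pos (Or.inl ⟨by omega, by omega⟩)] at h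
  rw [← h]
  refine pm_eq _ _ _ _ _ _ (fun j => ?_) (nd1 _ _) ?_ (fun c => ?_) (fun j hj c hc => ?_)
  · rw [hJm, mem_erase, mem_erase, mem_Icc]
    omega
  · rw [List.nodup_append]
    refine ⟨List.nodup_range' .., List.nodup_range' .., ?_⟩
    intro a ha b hb
    rw [List.mem_range'_1] at ha hb
    omega
  · rw [mem1, List.mem_append, List.mem_range'_1, List.mem_range'_1]
    omega
  · rw [hJm] at hj
    exact uN_st K _ (by omega)

lemma M10 (K : ℕ) (hK : 4 ≤ K) :
    pm (uN k K) (((range K).erase 0).erase (K - 1)) (((List.range K).erase 0).erase (K - 1)) =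
      1 := by
  refine strip K 1 (K - 1) (by omega) (by omega) (by omega) _ _ (nd2 _ _ _) (fun j => ?_)
    (fun c => ?_) (fun j hj c hc => ?_)
  · rw [mem_erase, mem_erase, mem_range]
    omega
  · rw [mem2]
    omega
  · rw [mem_erase, mem_erase, mem_range] at hj
    rw [mem2] at hc
    omega

lemma M11 (K : ℕ) (hK : 4 ≤ K) :
    pm (uN k K) (((range K).erase 0).erase (K - 1)) (((List.range K).erase 1).erase (K - 1)) =
      -1 := by
  have h : pm (uN k K) (((range K).erase 0).erase (K - 1))
      (((List.range K).erase 1).erase (K - 1)) =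
      pm (uN k K) (((range K).erase 0).erase (K - 1)) (0 :: List.range' 2 (K - 3)) := by
    refine pm_eq _ _ _ _ _ _ (fun _ => Iff.rfl) (nd2 _ _ _) ?_ (fun c => ?_) (fun _ _ _ _ => rfl)
    · rw [List.nodup_cons]
      exact ⟨by rw [List.mem_range'_1]; omega, List.nodup_range' ..⟩
    · rw [mem2, List.mem_cons, List.mem_range'_1]
      omega
  rw [h, pm_cons, sum_eq_single 1]
  · rw [strip K 2 1 (by omega) le_rfl (by omega) _ _ (List.nodup_range' ..) (fun j => ?_)
      (fun c => ?_) (fun j hj c hc => ?_)]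
    · unfold uN
      rw [if_neg (by omega), if_pos rfl, mul_one]
    · rw [mem_erase, mem_erase, mem_erase, mem_range]
      omega
    · rw [List.mem_range'_1]
      omega
    · rw [List.mem_range'_1] at hc
      omega
  · intro j hj hj1
    rw [mem_erase, mem_erase, mem_range] at hj
    have : uN k K (j + 0) = 0 := by
      unfold uN
      rw [if_neg (by omega), if_neg (by omega), if_neg (by omega), if_neg (by omega)]
    rw [this, zero_mul]
  · intro h1
    exact absurd (by rw [mem_erase, mem_erase, mem_range]; omega) h1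

/-- the first column is `0` -/
lemma M2a (K c₀ i : ℕ) (hK : 4 ≤ K) (hc : c₀ < 2) (hi : i + c₀ = 1) :
    pm (uN k K) (((range K).erase 1).erase (K - 1)) (((List.range K).erase i).erase (K - 1)) =
      uN k K c₀ := by
  have h : pm (uN k K) (((range K).erase 1).erase (K - 1))
      (((List.range K).erase i).erase (K - 1)) =
      pm (uN k K) (((range K).erase 1).erase (K - 1)) (c₀ :: List.range' 2 (K - 3)) := by
    refine pm_eq _ _ _ _ _ _ (fun _ => Iff.rfl) (nd2 _ _ _) ?_ (fun c => ?_) (fun _ _ _ _ => rfl)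
    · rw [List.nodup_cons]
      exact ⟨by rw [List.mem_range'_1]; omega, List.nodup_range' ..⟩
    · rw [mem2, List.mem_cons, List.mem_range'_1]
      omega
  rw [h, pm_cons, sum_eq_single 0]
  · rw [strip K 2 1 (by omega) le_rfl (by omega) _ _ (List.nodup_range' ..) (fun j => ?_)
      (fun c => ?_) (fun j hj c hc => ?_), zero_add, mul_one]
    · rw [mem_erase, mem_erase, mem_erase, mem_range]
      omega
    · rw [List.mem_range'_1]
      omega
    · rw [List.mem_range'_1] at hc
      omega
  · intro j hj hj1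
    rw [mem_erase, mem_erase, mem_range] at hj
    have h2 : pm (uN k K) ((((range K).erase 1).erase (K - 1)).erase j) (List.range' 2 (K - 3)) =
        0 := by
      refine (HP.sl k).1 _ _ _ ?_ 0 ?_ ?_
      · rw [card_erase_of_mem, card_erase_of_mem, card_erase_of_mem, card_range,
          List.length_range']
        · omega
        · rw [mem_range]
          omega
        · rw [mem_erase, mem_range]
          omega
        · rw [mem_erase, mem_erase, mem_range]
          omega
      · rw [mem_erase, mem_erase, mem_erase, mem_range]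
        omega
      · intro c hc
        rw [List.mem_range'_1] at hc
        unfold uN
        rw [if_neg (by omega), if_neg (by omega), if_neg (by omega), if_neg (by omega)]
    rw [h2, mul_zero]
  · intro h1
    exact absurd (by rw [mem_erase, mem_erase, mem_range]; omega) h1

lemma M3 (K : ℕ) (hK : 4 ≤ K) :
    pm (uN k K) (((range K).erase 1).erase 0) (((List.range K).erase 1).erase 0) = 0 := by
  refine (HP.sl k).1 _ _ _ ?_ (K - 1) ?_ ?_
  · rw [card_erase_of_mem, card_erase_of_mem, card_range, List.length_erase_of_mem,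
      List.length_erase_of_mem, List.length_range]
    · rw [List.mem_range]
      omega
    · rw [mem1]
      omega
    · rw [mem_range]
      omega
    · rw [mem_erase, mem_range]
      omega
  · rw [mem_erase, mem_erase, mem_range]
    omega
  · intro c hc
    rw [mem2] at hc
    unfold uN
    rw [if_neg (by omega), if_neg (by omega), if_neg (by omega), if_neg (by omega)]

/-! ### derivatives in the blocks -/

lemma w_even (K s : ℕ) (hK : 4 ≤ K) : wC2' k K (2 * s) =
    if s = 0 then -2 else if s + 2 = 2 * K then 1 else 0 := by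
  unfold wC2'
  by_cases h0 : s = 0
  · rw [if_pos h0, if_pos (by omega)]
  · rw [if_neg h0, if_neg (by omega)]
    by_cases h1 : s + 2 = 2 * K
    · rw [if_pos h1, if_pos (by omega)]
    · rw [if_neg h1, if_neg (by omega)]

lemma w_odd (K v s : ℕ) (hv : v = 2 * s + 1) (hK : 4 ≤ K) : wC2' k K v =
    if s = 0 then -2 else if s = 1 then 1 else 0 := by
  unfold wC2'
  by_cases h0 : s = 0
  · rw [if_pos h0, if_pos (by omega)]
  · rw [if_neg h0, if_neg (by omega)]
    by_cases h1 : s = 1
    · rw [if_pos h1, if_pos (by omega)]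
    · rw [if_neg h1, if_neg (by omega)]

lemma sumf (K : ℕ) (hK : 4 ≤ K) (C J : Finset ℕ) (hC : ∀ c ∈ C, c < K) (hJ : ∀ j ∈ J, j < K)
    (F : ℕ → ℕ → k) :
    ∑ c ∈ C, ∑ j ∈ J, wC2' k K (2 * (j + c)) * F c j =
      (if 0 ∈ C then (if 0 ∈ J then -2 * F 0 0 else 0) else 0) +
      (if K - 1 ∈ C then (if K - 1 ∈ J then F (K - 1) (K - 1) else 0) else 0) := by
  have h1 : ∀ c ∈ C, ∑ j ∈ J, wC2' k K (2 * (j + c)) * F c j =
      (if c = 0 then (if 0 ∈ J then -2 * F c 0 else 0) else 0) +
      (if c = K - 1 then (if K - 1 ∈ J then F c (K - 1) else 0) else 0) := by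
    intro c hc
    have hc' := hC c hc
    have h2 : ∀ j ∈ J, wC2' k K (2 * (j + c)) * F c j =
        (if j = 0 then (if c = 0 then -2 * F c j else 0) else 0) +
        (if j = K - 1 then (if c = K - 1 then F c j else 0) else 0) := by
      intro j hj
      have hj' := hJ j hj
      rw [w_even K _ hK]
      by_cases a1 : j = 0
      · by_cases a2 : c = 0
        · rw [if_pos (by omega), if_pos a1, if_pos a2, if_neg (by omega), add_zero]
        · rw [if_neg (by omega), if_pos a1, if_neg a2, if_neg (by omega), if_neg (by omega)]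
          ring
      · by_cases a2 : j = K - 1
        · by_cases a3 : c = K - 1
          · rw [if_neg (by omega), if_pos (by omega), if_neg a1, if_pos a2, if_pos a3]
            ring
          · rw [if_neg (by omega), if_neg (by omega), if_neg a1, if_pos a2, if_neg a3]
            ring
        · rw [if_neg (by omega), if_neg (by omega), if_neg a1, if_neg a2]
          ring
    rw [sum_congr rfl h2, sum_add_distrib, sum_ite_eq', sum_ite_eq']
    congr 1 <;> split_ifs <;> rfl
  rw [sum_congr rfl h1, sum_add_distrib, sum_ite_eq', sum_ite_eq']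

/-- the derivative in the block `A` -/
lemma PA (K l₀ i : ℕ) (hK : 4 ≤ K) :
    pd (uN k K) (fun s => wC2' k K (2 * s)) ((range K).erase l₀) ((List.range K).erase i) =
      (if i = 0 then 0 else (if l₀ = 0 then 0 else
        -2 * pm (uN k K) (((range K).erase l₀).erase 0) (((List.range K).erase i).erase 0))) +
      (if i = K - 1 then 0 else (if l₀ = K - 1 then 0 else
        pm (uN k K) (((range K).erase l₀).erase (K - 1))
          (((List.range K).erase i).erase (K - 1)))) := by
  rw [HP.bf k _ _ _ _ (nd1 _ _)]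
  have h1 : ∀ c ∈ ((List.range K).erase i).toFinset, ∑ j ∈ (range K).erase l₀,
      wC2' k K (2 * (j + c)) * pm (uN k K) (((range K).erase l₀).erase j)
        (((List.range K).erase i).erase c) = ∑ j ∈ (range K).erase l₀,
      wC2' k K (2 * (j + c)) * (fun c j => pm (uN k K) (((range K).erase l₀).erase j)
        (((List.range K).erase i).erase c)) c j := fun c _ => rfl
  rw [sum_congr rfl h1, sumf K hK]
  · have e1 : (0 ∈ ((List.range K).erase i).toFinset) ↔ ¬ i = 0 := by
      rw [List.mem_toFinset, mem1]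
      omega
    have e2 : (K - 1 ∈ ((List.range K).erase i).toFinset) ↔ ¬ i = K - 1 := by
      rw [List.mem_toFinset, mem1]
      omega
    have e3 : (0 ∈ (range K).erase l₀) ↔ ¬ l₀ = 0 := by
      rw [mem_erase, mem_range]
      omega
    have e4 : (K - 1 ∈ (range K).erase l₀) ↔ ¬ l₀ = K - 1 := by
      rw [mem_erase, mem_range]
      omega
    simp only [e1, e2, e3, e4, ite_not]
  · intro c hc
    rw [List.mem_toFinset, mem1] at hc
    exact hc.2
  · intro j hj
    rw [mem_erase, mem_range] at hj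
    exact hj.2

lemma P00 (K : ℕ) (hK : 4 ≤ K) :
    pd (uN k K) (fun s => wC2' k K (2 * s)) ((range K).erase 0) ((List.range K).erase 0) = 1 := by
  rw [PA K 0 0 hK, if_pos rfl, if_neg (by omega), if_neg (by omega), M10 K hK, zero_add]

lemma P01 (K : ℕ) (hK : 4 ≤ K) :
    pd (uN k K) (fun s => wC2' k K (2 * s)) ((range K).erase 0) ((List.range K).erase 1) =
      -1 := by
  rw [PA K 0 1 hK, if_neg (by omega), if_pos rfl, if_neg (by omega), if_neg (by omega), M11 K hK,
    zero_add]

lemma P10 (K : ℕ) (hK : 4 ≤ K) :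
    pd (uN k K) (fun s => wC2' k K (2 * s)) ((range K).erase 1) ((List.range K).erase 0) =
      -1 := by
  rw [PA K 1 0 hK, if_pos rfl, if_neg (by omega), if_neg (by omega), M2a K 1 0 hK (by omega)
    (by omega), zero_add]
  simp [uN]

lemma P11 (K : ℕ) (hK : 4 ≤ K) :
    pd (uN k K) (fun s => wC2' k K (2 * s)) ((range K).erase 1) ((List.range K).erase 1) = 1 := by
  rw [PA K 1 1 hK, if_neg (by omega), if_neg (by omega), if_neg (by omega), if_neg (by omega),
    M2a K 0 1 hK (by omega) (by omega), M3 K hK]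
  simp [uN]

/-- the derivative in the block `B` -/
lemma QB1 (K l : ℕ) (hK : 4 ≤ K) (hl : l < 2) :
    pd (fun s => uN k K (s + 1)) (fun s => wC2' k K (2 * (s + 1))) ((range K).erase l)
      (List.range (K - 1)) = if l = 0 then 1 else -1 := by
  rw [HP.bf k _ _ _ _ List.nodup_range, sum_eq_single (K - 2)]
  · rw [sum_eq_single (K - 1)]
    · rw [w_even K _ hK, if_neg (by omega), if_pos (by omega), one_mul]
      have h1 : ((range K).erase l).erase (K - 1) = (range (K - 1)).erase l := by
        ext a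
        rw [mem_erase, mem_erase, mem_erase, mem_range, mem_range]
        omega
      rw [h1, (HP.cn k K (by omega)).2.2.2.1 (K - 2) (by omega) l (by omega)]
      by_cases h : l = 0
      · rw [if_pos (by omega), if_pos h]
      · rw [if_neg (by omega), if_neg h]
    · intro j hj hj1
      rw [mem_erase, mem_range] at hj
      rw [w_even K _ hK, if_neg (by omega), if_neg (by omega), zero_mul]
    · intro h
      exact absurd (by rw [mem_erase, mem_range]; omega) h
  · intro c hc hc1
    rw [List.mem_toFinset, List.mem_range] at hc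
    refine sum_eq_zero fun j hj => ?_
    rw [mem_erase, mem_range] at hj
    rw [w_even K _ hK, if_neg (by omega), if_neg (by omega), zero_mul]
  · intro h
    exact absurd (by rw [List.mem_toFinset, List.mem_range]; omega) h

/-- the derivative in the block `B` without the last column -/
lemma QB0 (K : ℕ) (hK : 4 ≤ K) :
    pd (fun s => uN k K (s + 1)) (fun s => wC2' k K (2 * (s + 1))) (range (K - 1))
      (List.range (K - 1)) = 0 := by
  rw [HP.bf k _ _ _ _ List.nodup_range]
  refine sum_eq_zero fun c hc => sum_eq_zero fun j hj => ?_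
  rw [List.mem_toFinset, List.mem_range] at hc
  rw [mem_range] at hj
  rw [w_even K _ hK, if_neg (by omega), if_neg (by omega), zero_mul]

lemma hsum (A B : ℕ) (hA : 2 ≤ A) (hB : 2 ≤ B) (F : ℕ → ℕ → k) :
    ∑ i ∈ range A, ∑ l ∈ range B, (if i + l = 0 then -2 else if i + l = 1 then 1 else 0) * F i l =
      -2 * F 0 0 + F 0 1 + F 1 0 := by
  obtain ⟨A', rfl⟩ : ∃ A', A = A' + 2 := ⟨A - 2, by omega⟩
  obtain ⟨B', rfl⟩ : ∃ B', B = B' + 2 := ⟨B - 2, by omega⟩
  rw [sum_range_succ', sum_range_succ']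
  have h1 : ∑ i ∈ range A', ∑ l ∈ range (B' + 2),
      (if i + 1 + 1 + l = 0 then (-2 : k) else if i + 1 + 1 + l = 1 then 1 else 0) *
        F (i + 1 + 1) l = 0 := by
    refine sum_eq_zero fun i _ => sum_eq_zero fun l _ => ?_
    rw [if_neg (by omega), if_neg (by omega), zero_mul]
  rw [h1, sum_range_succ', sum_range_succ', sum_range_succ', sum_range_succ']
  have h2 : ∑ l ∈ range B', (if 0 + 1 + (l + 1 + 1) = 0 then (-2 : k) else
      if 0 + 1 + (l + 1 + 1) = 1 then 1 else 0) * F (0 + 1) (l + 1 + 1) = 0 := by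
    refine sum_eq_zero fun l _ => ?_
    rw [if_neg (by omega), if_neg (by omega), zero_mul]
  have h3 : ∑ l ∈ range B', (if 0 + (l + 1 + 1) = 0 then (-2 : k) else
      if 0 + (l + 1 + 1) = 1 then 1 else 0) * F 0 (l + 1 + 1) = 0 := by
    refine sum_eq_zero fun l _ => ?_
    rw [if_neg (by omega), if_neg (by omega), zero_mul]
  rw [h2, h3]
  simp
  ring

/-! ### the blocks -/

/-- the point without the link -/
def xx (k : Type*) [Field k] (K : ℕ) : ℕ → k := cst 2 0 (uN k K)

lemma xx_odd (K v : ℕ) (hv : v % 2 = 1) : xx k K v = 0 := by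
  unfold xx cst
  rw [if_neg (by omega)]

lemma q_eq (K v : ℕ) (hK : 4 ≤ K) (hv : v ≠ 4 * K - 3) : qC2 k K v = xx k K v := by
  unfold qC2 xx cst uN
  by_cases h : v % 2 = 0
  · obtain ⟨s, rfl⟩ : ∃ s, v = 2 * s := ⟨v / 2, by omega⟩
    rw [if_pos h, show 2 * s / 2 = s by omega]
    by_cases h0 : s = 0
    · rw [if_pos (by omega), if_pos h0]
    · by_cases h1 : s = 1
      · rw [if_neg (by omega), if_pos (by omega), if_neg h0, if_pos h1]
      · by_cases h2 : s + 1 = K
        · rw [if_pos (by omega), if_neg h0, if_neg h1, if_pos h2]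
        · by_cases h3 : s = K
          · rw [if_pos (by omega), if_neg h0, if_neg h1, if_neg h2, if_pos h3]
          · rw [if_neg (by omega), if_neg (by omega), if_neg h0, if_neg h1, if_neg h2, if_neg h3]
  · rw [if_neg h, if_neg (by omega), if_neg (by omega)]

lemma q_link (K : ℕ) (hK : 4 ≤ K) : qC2 k K (4 * K - 3) - xx k K (4 * K - 3) = 1 := by
  rw [xx_odd K _ (by omega), sub_zero]
  unfold qC2
  rw [if_pos (by omega)]

/-- the columns `2 l` -/
def im0 (J : Finset ℕ) : Finset ℕ := J.image fun l => 0 + 2 * l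

/-- the columns `2 l + 1` -/
def im1 (J : Finset ℕ) : Finset ℕ := J.image fun l => 1 + 2 * l

/-- the rows `2 i` -/
def mp0 (L : List ℕ) : List ℕ := L.map fun i => 0 + 2 * i

/-- the rows `2 i + 1` -/
def mp1 (L : List ℕ) : List ℕ := L.map fun i => 1 + 2 * i

lemma inj0 : Function.Injective fun l : ℕ => 0 + 2 * l := fun a b h => by
  simp only at h
  omega

lemma inj1 : Function.Injective fun l : ℕ => 1 + 2 * l := fun a b h => by
  simp only at h
  omega

lemma mem_im0 {J : Finset ℕ} {a : ℕ} : a ∈ im0 J ↔ ∃ l ∈ J, 0 + 2 * l = a := mem_image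

lemma mem_im1 {J : Finset ℕ} {a : ℕ} : a ∈ im1 J ↔ ∃ l ∈ J, 1 + 2 * l = a := mem_image

lemma mem_mp0 {L : List ℕ} {a : ℕ} : a ∈ mp0 L ↔ ∃ l ∈ L, 0 + 2 * l = a := List.mem_map

lemma mem_mp1 {L : List ℕ} {a : ℕ} : a ∈ mp1 L ↔ ∃ l ∈ L, 1 + 2 * l = a := List.mem_map

lemma card_im0 (J : Finset ℕ) : (im0 J).card = J.card := card_image_of_injective _ inj0

lemma card_im1 (J : Finset ℕ) : (im1 J).card = J.card := card_image_of_injective _ inj1

lemma len_mp0 (L : List ℕ) : (mp0 L).length = L.length := List.length_map _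

lemma len_mp1 (L : List ℕ) : (mp1 L).length = L.length := List.length_map _

lemma im0_erase (J : Finset ℕ) (l : ℕ) : (im0 J).erase (0 + 2 * l) = im0 (J.erase l) :=
  (image_erase inj0 J l).symm

lemma im1_erase (J : Finset ℕ) (l : ℕ) : (im1 J).erase (1 + 2 * l) = im1 (J.erase l) :=
  (image_erase inj1 J l).symm

lemma mp0_erase (L : List ℕ) (i : ℕ) : (mp0 L).erase (0 + 2 * i) = mp0 (L.erase i) :=
  (List.map_erase inj0 (a := i) L).symm

lemma mp1_erase (L : List ℕ) (i : ℕ) : (mp1 L).erase (1 + 2 * i) = mp1 (L.erase i) :=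
  (List.map_erase inj1 (a := i) L).symm

lemma sum_im0 (J : Finset ℕ) (G : ℕ → k) : ∑ j ∈ im0 J, G j = ∑ l ∈ J, G (0 + 2 * l) :=
  sum_image fun _ _ _ _ h => inj0 h

lemma sum_im1 (J : Finset ℕ) (G : ℕ → k) : ∑ j ∈ im1 J, G j = ∑ l ∈ J, G (1 + 2 * l) :=
  sum_image fun _ _ _ _ h => inj1 h

lemma sum_mp0 (n : ℕ) (G : ℕ → k) :
    ∑ c ∈ (mp0 (List.range n)).toFinset, G c = ∑ i ∈ range n, G (0 + 2 * i) := by
  have h : (mp0 (List.range n)).toFinset = im0 (range n) := by
    ext a
    rw [List.mem_toFinset, mem_mp0, mem_im0]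
    simp only [List.mem_range, mem_range]
  rw [h, sum_im0]

lemma sum_mp1 (n : ℕ) (G : ℕ → k) :
    ∑ c ∈ (mp1 (List.range n)).toFinset, G c = ∑ i ∈ range n, G (1 + 2 * i) := by
  have h : (mp1 (List.range n)).toFinset = im1 (range n) := by
    ext a
    rw [List.mem_toFinset, mem_mp1, mem_im1]
    simp only [List.mem_range, mem_range]
  rw [h, sum_im1]

lemma be0 (K : ℕ) (y : ℕ → k) (J : Finset ℕ) (L : List ℕ) :
    pm (xx k K) (im0 J) (mp0 L) = pm (uN k K) J L ∧
    pd (xx k K) y (im0 J) (mp0 L) = pd (uN k K) (fun s => y (2 * s)) J L := by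
  have h := BA.te k (xx k K) y 2 0 0 (by norm_num) J L
  have h1 : (fun s => xx k K (0 + 0 + 2 * s)) = uN k K := by
    funext s
    unfold xx cst
    rw [if_pos (by omega)]
    congr 1
    omega
  have h2 : (fun s => y (0 + 0 + 2 * s)) = fun s => y (2 * s) := by
    funext s
    congr 1
    omega
  rw [h1, h2] at h
  exact h

lemma be1 (K : ℕ) (y : ℕ → k) (J : Finset ℕ) (L : List ℕ) :
    pm (xx k K) (im1 J) (mp1 L) = pm (fun s => uN k K (s + 1)) J L ∧
    pd (xx k K) y (im1 J) (mp1 L) =
      pd (fun s => uN k K (s + 1)) (fun s => y (2 * (s + 1))) J L := by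
  have h := BA.te k (xx k K) y 2 1 1 (by norm_num) J L
  have h1 : (fun s => xx k K (1 + 1 + 2 * s)) = fun s => uN k K (s + 1) := by
    funext s
    unfold xx cst
    rw [if_pos (by omega)]
    congr 1
    omega
  have h2 : (fun s => y (1 + 1 + 2 * s)) = fun s => y (2 * (s + 1)) := by
    funext s
    congr 1
    omega
  rw [h1, h2] at h
  exact h

lemma zero01 (K : ℕ) (L : List ℕ) (J : Finset ℕ) :
    ∀ c ∈ mp0 L, ∀ j ∈ im1 J, xx k K (j + c) = 0 := by
  intro c hc j hj
  obtain ⟨i, -, rfl⟩ := mem_mp0.1 hc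
  obtain ⟨l, -, rfl⟩ := mem_im1.1 hj
  exact xx_odd K _ (by omega)

lemma zero10 (K : ℕ) (L : List ℕ) (J : Finset ℕ) :
    ∀ c ∈ mp1 L, ∀ j ∈ im0 J, xx k K (j + c) = 0 := by
  intro c hc j hj
  obtain ⟨i, -, rfl⟩ := mem_mp1.1 hc
  obtain ⟨l, -, rfl⟩ := mem_im0.1 hj
  exact xx_odd K _ (by omega)

lemma disj (J J' : Finset ℕ) : Disjoint (im0 J) (im1 J') := by
  rw [disjoint_left]
  intro a ha hb
  obtain ⟨i, -, rfl⟩ := mem_im0.1 ha
  obtain ⟨l, -, h⟩ := mem_im1.1 hb
  omega

lemma nodup_mp0 {L : List ℕ} (h : L.Nodup) : (mp0 L).Nodup := h.map inj0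

lemma nodup_mp1 {L : List ℕ} (h : L.Nodup) : (mp1 L).Nodup := h.map inj1

lemma nodup_app {L L' : List ℕ} (h : L.Nodup) (h' : L'.Nodup) : (mp0 L ++ mp1 L').Nodup := by
  rw [List.nodup_append]
  refine ⟨nodup_mp0 h, nodup_mp1 h', ?_⟩
  intro a ha b hb
  obtain ⟨i, -, rfl⟩ := mem_mp0.1 ha
  obtain ⟨l, -, rfl⟩ := mem_mp1.1 hb
  omega

/-- the columns -/
def EE (K l₀ : ℕ) : Finset ℕ := (range (2 * K)).erase (2 * l₀)

lemma EE_eq (K l₀ : ℕ) : EE K l₀ = im0 ((range K).erase l₀) ∪ im1 (range K) := by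
  ext a
  unfold EE
  rw [mem_erase, mem_range, mem_union, mem_im0, mem_im1]
  constructor
  · rintro ⟨h1, h2⟩
    by_cases h : a % 2 = 0
    · left
      refine ⟨a / 2, ?_, by omega⟩
      rw [mem_erase, mem_range]
      omega
    · right
      refine ⟨a / 2, ?_, by omega⟩
      rw [mem_range]
      omega
  · rintro (⟨b, hb, rfl⟩ | ⟨b, hb, rfl⟩)
    · rw [mem_erase, mem_range] at hb
      omega
    · rw [mem_range] at hb
      omega

lemma EE_erase (K l₀ : ℕ) (hK : 4 ≤ K) :
    (EE K l₀).erase (2 * K - 1) = im0 ((range K).erase l₀) ∪ im1 (range (K - 1)) := by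
  ext a
  unfold EE
  rw [mem_erase, mem_erase, mem_range, mem_union, mem_im0, mem_im1]
  constructor
  · rintro ⟨h0, h1, h2⟩
    by_cases h : a % 2 = 0
    · left
      refine ⟨a / 2, ?_, by omega⟩
      rw [mem_erase, mem_range]
      omega
    · right
      refine ⟨a / 2, ?_, by omega⟩
      rw [mem_range]
      omega
  · rintro (⟨b, hb, rfl⟩ | ⟨b, hb, rfl⟩)
    · rw [mem_erase, mem_range] at hb
      omega
    · rw [mem_range] at hb
      omega

lemma L_perm (K : ℕ) (hK : 4 ≤ K) :
    (List.range (2 * K - 1)).Perm (mp0 (List.range K) ++ mp1 (List.range (K - 1))) := by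
  rw [List.perm_ext_iff_of_nodup List.nodup_range (nodup_app List.nodup_range List.nodup_range)]
  intro a
  rw [List.mem_range, List.mem_append, mem_mp0, mem_mp1]
  constructor
  · intro h1
    by_cases h : a % 2 = 0
    · left
      refine ⟨a / 2, ?_, by omega⟩
      rw [List.mem_range]
      omega
    · right
      refine ⟨a / 2, ?_, by omega⟩
      rw [List.mem_range]
      omega
  · rintro (⟨b, hb, rfl⟩ | ⟨b, hb, rfl⟩)
    · rw [List.mem_range] at hb
      omega
    · rw [List.mem_range] at hb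
      omega

lemma L_perm' (K : ℕ) (hK : 4 ≤ K) : ((List.range (2 * K - 1)).erase (2 * K - 2)).Perm
    (mp0 (List.range (K - 1)) ++ mp1 (List.range (K - 1))) := by
  rw [List.perm_ext_iff_of_nodup (nd1 _ _) (nodup_app List.nodup_range List.nodup_range)]
  intro a
  rw [mem1, List.mem_append, mem_mp0, mem_mp1]
  constructor
  · rintro ⟨h1, h2⟩
    by_cases h : a % 2 = 0
    · left
      refine ⟨a / 2, ?_, by omega⟩
      rw [List.mem_range]
      omega
    · right
      refine ⟨a / 2, ?_, by omega⟩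
      rw [List.mem_range]
      omega
  · rintro (⟨b, hb, rfl⟩ | ⟨b, hb, rfl⟩)
    · rw [List.mem_range] at hb
      omega
    · rw [List.mem_range] at hb
      omega

/-! ### values of permanents -/

lemma e_val (K i l₀ : ℕ) (hK : 4 ≤ K) (hl : l₀ < 2) (hi : i < K) :
    pm (uN k K) ((range K).erase l₀) ((List.range K).erase i) = if i + 1 = K then 0 else 1 := by
  rw [(HP.cn k K (by omega)).2.1 i hi l₀ (by omega), if_neg (by omega)]
  by_cases h : i + 1 = K
  · rw [if_pos (by omega), if_pos h]
  · rw [if_neg (by omega), if_pos (by omega), if_neg h]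

lemma e_last (K l₀ : ℕ) (hK : 4 ≤ K) (hl : l₀ < 2) :
    pm (uN k K) ((range K).erase l₀) (List.range (K - 1)) = 0 := by
  have h := e_val (k := k) K (K - 1) l₀ hK hl (by omega)
  rw [if_pos (by omega)] at h
  rw [← h]
  refine pm_eq _ _ _ _ _ _ (fun _ => Iff.rfl) List.nodup_range (nd1 _ _) (fun a => ?_)
    (fun _ _ _ _ => rfl)
  rw [mem1, List.mem_range]
  omega

lemma a_val (K l : ℕ) (hK : 4 ≤ K) (hl : l < K) :
    pm (fun s => uN k K (s + 1)) ((range K).erase l) (List.range (K - 1)) =
      if l + 1 = K then 0 else 1 := (HP.cn k K (by omega)).2.2.2.2 l hl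

lemma card_J (K l₀ : ℕ) (hK : 4 ≤ K) (hl : l₀ < 2) : ((range K).erase l₀).card + 1 = K := by
  rw [card_erase_of_mem (mem_range.2 (by omega)), card_range]
  omega

/-- the first derivatives -/
lemma pdE (hLK : StmLK k) (K l₀ : ℕ) (hK : 4 ≤ K) (hl : l₀ < 2) (y : ℕ → k) :
    pd (qC2 k K) y (EE K l₀) (List.range (2 * K - 1)) =
      ∑ i ∈ range K, ∑ l ∈ range K, y (1 + 2 * l + (0 + 2 * i)) *
        (if i + 1 = K then 0 else 1) * (if l + 1 = K then 0 else 1) := by
  have h := (hLK.1 (xx k K) (qC2 k K) y (4 * K - 3) (2 * K - 1) (2 * K - 2) (by omega)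
    (fun v hv => q_eq K v hK hv) (EE K l₀) (List.range (2 * K - 1)) List.nodup_range (by
      intro j hj c hc hjc
      unfold EE at hj
      rw [mem_erase, mem_range] at hj
      rw [List.mem_range] at hc
      omega)).2.1
  rw [if_pos (by
    unfold EE
    rw [mem_erase, mem_range, List.mem_range]
    omega), q_link K hK, one_mul] at h
  rw [h, BA.pd_perm _ _ (L_perm K hK), BA.pd_perm _ _ (L_perm' K hK), EE_eq,
    HP.bd k _ _ _ _ _ _ (disj _ _) (nodup_mp0 List.nodup_range) (zero01 K _ _) (zero10 K _ _)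
      (by rw [card_im0, len_mp0, List.length_range, card_J K l₀ hK hl])
      (by rw [card_im1, len_mp1, List.length_range, card_range]; omega),
    ← EE_eq, EE_erase K l₀ hK,
    HP.bc k _ _ _ _ _ _ (disj _ _) (zero01 K _ _) (zero10 K _ _)
      (by
        have := card_J K l₀ hK hl
        rw [card_im0, len_mp0, List.length_range]; omega)
      (by rw [card_im1, len_mp1, List.length_range, card_range]),
    (be0 K y _ _).1, (be1 K y _ _).1, e_last K l₀ hK hl, (HP.cn k K (by omega)).2.2.1,
    mul_zero, zero_mul, add_zero, add_zero, sum_mp0]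
  refine sum_congr rfl fun i hi => ?_
  rw [sum_im1]
  refine sum_congr rfl fun l hl' => ?_
  rw [mem_range] at hi hl'
  rw [mp0_erase, im1_erase, (be0 K y _ _).1, (be1 K y _ _).1, e_val K i l₀ hK hl hi,
    a_val K l hK hl']

/-- the second order terms without the link -/
lemma pq1 (hQB : StmQB k) (K l₀ : ℕ) (hK : 4 ≤ K) (hl : l₀ < 2) :
    pq (xx k K) (wC2' k K) (EE K l₀) (List.range (2 * K - 1)) =
      pd (uN k K) (fun s => wC2' k K (2 * s)) ((range K).erase l₀) ((List.range K).erase 1) -
      pd (uN k K) (fun s => wC2' k K (2 * s)) ((range K).erase l₀) ((List.range K).erase 0) -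
      2 := by
  rw [hQB.1 _ _ _ _ (L_perm K hK), EE_eq,
    hQB.2.2 _ _ _ _ _ _ (disj _ _) (nodup_app List.nodup_range List.nodup_range)
      (zero01 K _ _) (zero10 K _ _)
      (by rw [card_im0, len_mp0, List.length_range, card_J K l₀ hK hl])
      (by rw [card_im1, len_mp1, List.length_range, card_range]; omega), sum_mp0]
  have h1 : ∀ i ∈ range K, ∑ j ∈ im1 (range K), wC2' k K (j + (0 + 2 * i)) *
      (pd (xx k K) (wC2' k K) (im0 ((range K).erase l₀)) ((mp0 (List.range K)).erase (0 + 2 * i)) *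
          pm (xx k K) ((im1 (range K)).erase j) (mp1 (List.range (K - 1))) +
        pm (xx k K) (im0 ((range K).erase l₀)) ((mp0 (List.range K)).erase (0 + 2 * i)) *
          pd (xx k K) (wC2' k K) ((im1 (range K)).erase j) (mp1 (List.range (K - 1)))) =
      ∑ l ∈ range K, (if i + l = 0 then -2 else if i + l = 1 then 1 else 0) *
        (fun i l => pd (uN k K) (fun s => wC2' k K (2 * s)) ((range K).erase l₀)
            ((List.range K).erase i) * pm (fun s => uN k K (s + 1)) ((range K).erase l)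
            (List.range (K - 1)) +
          pm (uN k K) ((range K).erase l₀) ((List.range K).erase i) *
            pd (fun s => uN k K (s + 1)) (fun s => wC2' k K (2 * (s + 1))) ((range K).erase l)
              (List.range (K - 1))) i l := by
    intro i _
    rw [sum_im1]
    refine sum_congr rfl fun l _ => ?_
    rw [mp0_erase, im1_erase, (be0 K (wC2' k K) _ _).1, (be0 K (wC2' k K) _ _).2,
      (be1 K (wC2' k K) _ _).1, (be1 K (wC2' k K) _ _).2,
      w_odd K (1 + 2 * l + (0 + 2 * i)) (i + l) (by omega) hK]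
  rw [sum_congr rfl h1, hsum K K (by omega) (by omega)]
  have v1 := e_val (k := k) K 0 l₀ hK hl (by omega)
  have v2 := e_val (k := k) K 1 l₀ hK hl (by omega)
  have v3 := a_val (k := k) K 0 hK (by omega)
  have v4 := a_val (k := k) K 1 hK (by omega)
  have v5 := QB1 (k := k) K 0 hK (by omega)
  have v6 := QB1 (k := k) K 1 hK (by omega)
  rw [if_neg (show ¬ 0 + 1 = K by omega)] at v1 v3
  rw [if_neg (show ¬ 1 + 1 = K by omega)] at v2 v4
  rw [if_pos rfl] at v5
  rw [if_neg one_ne_zero] at v6
  rw [v1, v2, v3, v4, v5, v6]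
  ring

/-- the second order terms with the link -/
lemma pq2 (hQB : StmQB k) (K l₀ : ℕ) (hK : 4 ≤ K) (hl : l₀ < 2) :
    pq (xx k K) (wC2' k K) ((EE K l₀).erase (2 * K - 1))
      ((List.range (2 * K - 1)).erase (2 * K - 2)) = 0 := by
  rw [hQB.1 _ _ _ _ (L_perm' K hK), EE_erase K l₀ hK,
    hQB.2.1 _ _ _ _ _ _ (disj _ _) (nodup_app List.nodup_range List.nodup_range)
      (zero01 K _ _) (zero10 K _ _)
      (by
        have := card_J K l₀ hK hl
        rw [card_im0, len_mp0, List.length_range]; omega)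
      (by rw [card_im1, len_mp1, List.length_range, card_range]),
    (be1 K (wC2' k K) _ _).1, (be1 K (wC2' k K) _ _).2, (be0 K (wC2' k K) _ _).1,
    e_last K l₀ hK hl, QB0 K hK, (HP.cn k K (by omega)).2.2.1, mul_zero, mul_zero, zero_mul,
    zero_add, zero_add, zero_add, sum_mp0]
  have h1 : ∀ i ∈ range (K - 1), ∑ j ∈ im1 (range (K - 1)),
      ∑ c' ∈ (mp1 (List.range (K - 1))).toFinset, ∑ j' ∈ im0 ((range K).erase l₀),
        wC2' k K (j + (0 + 2 * i)) * wC2' k K (j' + c') *
          pm (xx k K) ((im0 ((range K).erase l₀)).erase j')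
            ((mp0 (List.range (K - 1))).erase (0 + 2 * i)) *
          pm (xx k K) ((im1 (range (K - 1))).erase j) ((mp1 (List.range (K - 1))).erase c') =
      ∑ l ∈ range (K - 1), (if i + l = 0 then -2 else if i + l = 1 then 1 else 0) *
        (fun i l => ∑ i' ∈ range (K - 1), ∑ l' ∈ range K,
          (if i' + l' = 0 then -2 else if i' + l' = 1 then 1 else 0) *
          (fun i' l' => if l' ≠ l₀ then pm (uN k K) (((range K).erase l₀).erase l')
              ((List.range (K - 1)).erase i) *
            pm (fun s => uN k K (s + 1)) ((range (K - 1)).erase l)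
              ((List.range (K - 1)).erase i') else 0) i' l') i l := by
    intro i _
    rw [sum_im1]
    refine sum_congr rfl fun l _ => ?_
    rw [sum_mp1]
    simp only
    rw [mul_sum]
    refine sum_congr rfl fun i' _ => ?_
    rw [sum_im0, ← filter_ne', sum_filter, mul_sum]
    refine sum_congr rfl fun l' _ => ?_
    by_cases h : l' = l₀
    · rw [if_neg (not_not.2 h), if_neg (not_not.2 h), mul_zero, mul_zero]
    · rw [if_pos h, if_pos h, filter_ne', im0_erase, mp0_erase, im1_erase, mp1_erase,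
        (be0 K (wC2' k K) _ _).1, (be1 K (wC2' k K) _ _).1,
        w_odd K (1 + 2 * l + (0 + 2 * i)) (i + l) (by omega) hK,
        w_odd K (0 + 2 * l' + (1 + 2 * i')) (i' + l') (by omega) hK]
      ring
  rw [sum_congr rfl h1, hsum (K - 1) (K - 1) (by omega) (by omega)]
  simp only
  rw [hsum (K - 1) K (by omega) (by omega), hsum (K - 1) K (by omega) (by omega),
    hsum (K - 1) K (by omega) (by omega)]
  have hc : ∀ i' l, i' < 2 → l < 2 → pm (fun s => uN k K (s + 1)) ((range (K - 1)).erase l)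
      ((List.range (K - 1)).erase i') = 1 := by
    intro i' l h2 h3
    rw [(HP.cn k K (by omega)).2.2.2.1 i' (by omega) l (by omega), if_pos (by omega)]
  have hm : ∀ i l', i < 2 → l₀ + l' = 1 → pm (uN k K) (((range K).erase l₀).erase l')
      ((List.range (K - 1)).erase i) = 1 := by
    intro i l' h2 h3
    refine M4 K i hK h2 _ fun j => ?_
    rw [mem_erase, mem_erase, mem_range]
    omega
  rcases (show l₀ = 0 ∨ l₀ = 1 by omega) with rfl | rfl
  · simp only [ne_eq, not_true_eq_false, if_false, one_ne_zero, not_false_eq_true, if_true]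
    rw [hm 0 1 (by omega) (by omega), hm 1 1 (by omega) (by omega), hc 0 0 (by omega) (by omega),
      hc 0 1 (by omega) (by omega)]
    ring
  · simp only [ne_eq, not_true_eq_false, if_false, zero_ne_one, not_false_eq_true, if_true]
    rw [hm 0 0 (by omega) (by omega), hm 1 0 (by omega) (by omega), hc 0 0 (by omega) (by omega),
      hc 0 1 (by omega) (by omega), hc 1 0 (by omega) (by omega), hc 1 1 (by omega) (by omega)]
    ring

lemma pqE (hLK : StmLK k) (hQB : StmQB k) (K l₀ : ℕ) (hK : 4 ≤ K) (hl : l₀ < 2) :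
    pq (qC2 k K) (wC2' k K) (EE K l₀) (List.range (2 * K - 1)) =
      pd (uN k K) (fun s => wC2' k K (2 * s)) ((range K).erase l₀) ((List.range K).erase 1) -
      pd (uN k K) (fun s => wC2' k K (2 * s)) ((range K).erase l₀) ((List.range K).erase 0) -
      2 := by
  have h := (hLK.1 (xx k K) (qC2 k K) (wC2' k K) (4 * K - 3) (2 * K - 1) (2 * K - 2) (by omega)
    (fun v hv => q_eq K v hK hv) (EE K l₀) (List.range (2 * K - 1)) List.nodup_range (by
      intro j hj c hc hjc
      unfold EE at hj
      rw [mem_erase, mem_range] at hj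
      rw [List.mem_range] at hc
      omega)).2.2
  rw [if_pos (by
    unfold EE
    rw [mem_erase, mem_range, List.mem_range]
    omega), q_link K hK, one_mul, pq2 hQB K l₀ hK hl, add_zero] at h
  rw [h, pq1 hQB K l₀ hK hl]

end

theorem t (k : Type*) [Field k] (hLK : StmLK k) (hQB : StmQB k) : StmC2c k := by
  intro K hK
  refine ⟨fun y => ?_, ?_, ?_⟩
  · exact (pdE hLK K 0 hK (by omega) y).trans (pdE hLK K 1 hK (by omega) y).symm
  · refine (pqE hLK hQB K 0 hK (by omega)).trans ?_
    rw [P00 K hK, P01 K hK]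
    norm_num
  · refine (pqE hLK hQB K 1 hK (by omega)).trans ?_
    rw [P10 K hK, P11 K hK]
    norm_num

end Pool.Agent.N729.HQ.C2cb
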