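import Pool.Agent.N729.HQ.Stm

set_option autoImplicit false

namespace Pool.Agent.N729.HQ.CA

open Finset
open Pool.Agent.N186.HK (pm pm_nil pm_cons pm_congr)
open Pool.Agent.N729.HP
open Pool.Agent.N729.HP.CN (LL list_range erase_range' mem_LL LL_length)

section

variable {k : Type*} [Field k]

lemma pm_neg (x : ℕ → k) (L : List ℕ) : ∀ J : Finset ℕ,
    pm (fun s => - x s) J L = (-1) ^ L.length * pm x J L := by
  induction L with
  | nil => intro J; rw [pm_nil, pm_nil]; simp
  | cons c L ih =>
    intro J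
    rw [pm_cons, pm_cons, List.length_cons, Finset.mul_sum]
    refine Finset.sum_congr rfl fun j _ => ?_
    rw [ih]
    ring

/-- the opposite of `uA` -/
def vv (k : Type*) [Field k] (K s : ℕ) : k :=
  if s = 0 ∨ s = 1 then -1 else if s = K ∨ s = K + 1 then 1 else 0

lemma uA_eq (K : ℕ) : uA k K = fun s => - vv k K s := by
  funext s
  unfold uA vv
  split_ifs <;> simp

lemma P0 (K : ℕ) (hK : 3 ≤ K) (J : Finset ℕ) (hJ : ∀ j ∈ J, j ≤ K) (L : List ℕ) :
    pm (vv k K) J (0 :: L) = -(if 0 ∈ J then pm (vv k K) (J.erase 0) L else 0) -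
      (if 1 ∈ J then pm (vv k K) (J.erase 1) L else 0) +
      (if K ∈ J then pm (vv k K) (J.erase K) L else 0) := by
  classical
  rw [pm_cons]
  have h1 : ∀ j ∈ J, vv k K (j + 0) * pm (vv k K) (J.erase j) L =
      -(if j = 0 then pm (vv k K) (J.erase j) L else 0) -
      (if j = 1 then pm (vv k K) (J.erase j) L else 0) +
      (if j = K then pm (vv k K) (J.erase j) L else 0) := by
    intro j hj
    have := hJ j hj
    unfold vv
    rw [add_zero]
    by_cases a1 : j = 0
    · rw [if_pos (Or.inl a1), if_pos a1, if_neg (by omega), if_neg (by omega)]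
      ring
    by_cases a2 : j = 1
    · rw [if_pos (Or.inr a2), if_neg a1, if_pos a2, if_neg (by omega)]
      ring
    by_cases a3 : j = K
    · rw [if_neg (by omega), if_pos (Or.inl a3), if_neg a1, if_neg a2, if_pos a3]
      ring
    · rw [if_neg (by omega), if_neg (by omega), if_neg a1, if_neg a2, if_neg a3]
      ring
  rw [Finset.sum_congr rfl h1, Finset.sum_add_distrib, Finset.sum_sub_distrib,
    Finset.sum_neg_distrib, Finset.sum_ite_eq', Finset.sum_ite_eq', Finset.sum_ite_eq']

lemma P1 (K : ℕ) (hK : 3 ≤ K) (J : Finset ℕ) (hJ : ∀ j ∈ J, j ≤ K) (L : List ℕ) :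
    pm (vv k K) J (1 :: L) = -(if 0 ∈ J then pm (vv k K) (J.erase 0) L else 0) +
      (if K - 1 ∈ J then pm (vv k K) (J.erase (K - 1)) L else 0) +
      (if K ∈ J then pm (vv k K) (J.erase K) L else 0) := by
  classical
  rw [pm_cons]
  have h1 : ∀ j ∈ J, vv k K (j + 1) * pm (vv k K) (J.erase j) L =
      -(if j = 0 then pm (vv k K) (J.erase j) L else 0) +
      (if j = K - 1 then pm (vv k K) (J.erase j) L else 0) +
      (if j = K then pm (vv k K) (J.erase j) L else 0) := by
    intro j hj
    have := hJ j hj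
    unfold vv
    by_cases a1 : j = 0
    · rw [if_pos (by omega : j + 1 = 0 ∨ j + 1 = 1), if_pos a1, if_neg (by omega),
        if_neg (by omega)]
      ring
    by_cases a2 : j = K - 1
    · rw [if_neg (by omega : ¬ (j + 1 = 0 ∨ j + 1 = 1)),
        if_pos (by omega : j + 1 = K ∨ j + 1 = K + 1), if_neg a1, if_pos a2, if_neg (by omega)]
      ring
    by_cases a3 : j = K
    · rw [if_neg (by omega : ¬ (j + 1 = 0 ∨ j + 1 = 1)),
        if_pos (by omega : j + 1 = K ∨ j + 1 = K + 1), if_neg a1, if_neg a2, if_pos a3]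
      ring
    · rw [if_neg (by omega : ¬ (j + 1 = 0 ∨ j + 1 = 1)),
        if_neg (by omega : ¬ (j + 1 = K ∨ j + 1 = K + 1)), if_neg a1, if_neg a2, if_neg a3]
      ring
  rw [Finset.sum_congr rfl h1, Finset.sum_add_distrib, Finset.sum_add_distrib,
    Finset.sum_neg_distrib, Finset.sum_ite_eq', Finset.sum_ite_eq', Finset.sum_ite_eq']

lemma vv_strip (K j c : ℕ) (hc : 2 ≤ j + c) :
    vv k K (j + c) = if j + c + 1 = K + 1 ∨ j + c = K + 1 then 1 else 0 := by
  unfold vv
  rw [if_neg (by omega)]
  by_cases a1 : j + c = K ∨ j + c = K + 1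
  · rw [if_pos a1, if_pos (by omega)]
  · rw [if_neg a1, if_neg (by omega)]

/-- the columns `0` and `K` vanish -/
lemma z0 (hSL : StmSL k) (K : ℕ) (J : Finset ℕ) (L : List ℕ) (hL : ∀ c ∈ L, 2 ≤ c ∧ c < K)
    (hJL : J.card ≤ L.length) (hJ : 0 ∈ J ∨ K ∈ J) : pm (vv k K) J L = 0 := by
  rcases hJ with hJ | hJ
  · refine hSL.1 _ _ _ hJL _ hJ fun c hc => ?_
    have := hL c hc
    rw [vv_strip K _ _ (by omega), if_neg (by omega)]
  · refine hSL.1 _ _ _ hJL _ hJ fun c hc => ?_
    have := hL c hc
    rw [vv_strip K _ _ (by omega), if_neg (by omega)]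

lemma a2 (hSL : StmSL k) (K : ℕ) (hK : 3 ≤ K) (J : Finset ℕ) (z : ℕ) (hz1 : 1 ≤ z)
    (hz : z ≤ K - 1) (hJ : ∀ j, j ∈ J ↔ j ≠ z ∧ 1 ≤ j ∧ j ≤ K - 1) :
    pm (vv k K) J (List.range' 2 (K - 2)) = 1 := by
  have h := hSL.2.1 (vv k K) (K + 1) 2 K (by omega) (by omega)
    (fun j _ hj c hc _ => vv_strip K j c (by omega)) z
    (by rw [Finset.mem_Icc]; omega)
  rw [← h]
  congr 1
  ext j
  rw [hJ, Finset.mem_erase, Finset.mem_Icc]
  omega

/-- the value for two missing columns -/
def II (k : Type*) [Field k] (K i z z' : ℕ) : k :=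
  if (z + i < K + 1 ∧ K + 1 ≤ z' + i) ∨ (z' + i < K + 1 ∧ K + 1 ≤ z + i) then 1 else 0

lemma b2 (hSL : StmSL k) (K i : ℕ) (hK : 3 ≤ K) (h2 : 2 ≤ i) (hi : i < K) (J : Finset ℕ)
    (z z' : ℕ) (hz1 : 1 ≤ z) (hz : z ≤ K - 1) (hz1' : 1 ≤ z') (hz' : z' ≤ K - 1) (hzz : z ≠ z')
    (hJ : ∀ j, j ∈ J ↔ j ≠ z' ∧ j ≠ z ∧ 1 ≤ j ∧ j ≤ K - 1) :
    pm (vv k K) J (LL K i) = II k K i z z' := by
  have h := hSL.2.2 (vv k K) (K + 1) 2 K i h2 hi (by omega)
    (fun j _ hj c hc _ _ => vv_strip K j c (by omega)) z
    (by rw [Finset.mem_Icc]; omega) z' (by rw [Finset.mem_Icc]; omega) hzz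
  unfold II
  rw [← h]
  unfold LL
  congr 1
  ext j
  rw [hJ, Finset.mem_erase, Finset.mem_erase, Finset.mem_Icc]
  omega

lemma hLr (K : ℕ) : ∀ c ∈ List.range' 2 (K - 2), 2 ≤ c ∧ c < K := by
  intro c hc
  rw [List.mem_range'_1] at hc
  omega

lemma tz (K a : ℕ) (J : Finset ℕ) (L : List ℕ)
    (h : a ∈ J → pm (vv k K) (J.erase a) L = 0) :
    (if a ∈ J then pm (vv k K) (J.erase a) L else 0) = 0 := by
  by_cases h1 : a ∈ J
  · rw [if_pos h1, h h1]
  · rw [if_neg h1]

lemma c1 (hSL : StmSL k) (K l : ℕ) (hK : 3 ≤ K) (hl : l < K) (J : Finset ℕ)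
    (m : ∀ j, j ∈ J ↔ j ≠ l ∧ j < K) (hc : J.card = K - 1) :
    pm (vv k K) J (1 :: List.range' 2 (K - 2)) = if l = 0 then 1 else -1 := by
  have hcard : ∀ j ∈ J, (J.erase j).card ≤ (List.range' 2 (K - 2)).length := by
    intro j hj
    rw [Finset.card_erase_of_mem hj, List.length_range']
    omega
  rw [P1 K hK _ (fun j hj => by have := (m j).1 hj; omega)]
  rw [if_neg (fun h : K ∈ J => by have := (m _).1 h; omega)]
  by_cases h0 : l = 0
  · rw [if_neg (fun h : 0 ∈ J => by have := (m _).1 h; omega), if_pos ((m _).2 (by omega)),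
      if_pos h0, a2 hSL K hK _ (K - 1) (by omega) (by omega)
        (fun j => by rw [Finset.mem_erase, m]; omega)]
    ring
  · rw [tz K (K - 1) J _ (fun h => z0 hSL K _ _ (hLr K) (hcard _ h) (Or.inl
      (by rw [Finset.mem_erase, m]; omega))), if_pos ((m _).2 (by omega)), if_neg h0,
      a2 hSL K hK _ l (by omega) (by omega) (fun j => by rw [Finset.mem_erase, m]; omega)]
    ring

lemma c0 (hSL : StmSL k) (K l : ℕ) (hK : 3 ≤ K) (hl : l < K) (J : Finset ℕ)
    (m : ∀ j, j ∈ J ↔ j ≠ l ∧ j < K) (hc : J.card = K - 1) :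
    pm (vv k K) J (0 :: List.range' 2 (K - 2)) = -1 := by
  have hcard : ∀ j ∈ J, (J.erase j).card ≤ (List.range' 2 (K - 2)).length := by
    intro j hj
    rw [Finset.card_erase_of_mem hj, List.length_range']
    omega
  rw [P0 K hK _ (fun j hj => by have := (m j).1 hj; omega)]
  rw [if_neg (fun h : K ∈ J => by have := (m _).1 h; omega)]
  by_cases h0 : l = 0
  · rw [if_neg (fun h : 0 ∈ J => by have := (m _).1 h; omega), if_pos ((m _).2 (by omega)),
      a2 hSL K hK _ 1 (by omega) (by omega)
        (fun j => by rw [Finset.mem_erase, m]; omega)]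
    ring
  · rw [tz K 1 J _ (fun h => z0 hSL K _ _ (hLr K) (hcard _ h) (Or.inl
      (by rw [Finset.mem_erase, m]; omega))), if_pos ((m _).2 (by omega)),
      a2 hSL K hK _ l (by omega) (by omega) (fun j => by rw [Finset.mem_erase, m]; omega)]
    ring

lemma F0 (hSL : StmSL k) (K i l : ℕ) (hK : 3 ≤ K) (h2 : 2 ≤ i) (hi : i < K) (hl : l < K)
    (hl1 : 1 ≤ l) (J : Finset ℕ) (m : ∀ j, j ∈ J ↔ j ≠ 0 ∧ j ≠ l ∧ j < K) :
    pm (vv k K) J (1 :: LL K i) = if i + l ≤ K then 1 else 0 := by
  rw [P1 K hK _ (fun j hj => by have := (m j).1 hj; omega)]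
  rw [if_neg (fun h : K ∈ J => by have := (m _).1 h; omega),
    if_neg (fun h : 0 ∈ J => by have := (m _).1 h; omega)]
  by_cases h : l = K - 1
  · rw [if_neg (fun h : K - 1 ∈ J => by have := (m _).1 h; omega), if_neg (by omega)]
    ring
  · rw [if_pos ((m _).2 (by omega)), b2 hSL K i hK h2 hi _ l (K - 1) hl1 (by omega) (by omega)
      (by omega) h (fun j => by rw [Finset.mem_erase, m]; omega)]
    unfold II
    split_ifs <;> first | (exfalso; omega) | ring

lemma F1 (hSL : StmSL k) (K i l : ℕ) (hK : 3 ≤ K) (h2 : 2 ≤ i) (hi : i < K) (hl : l < K)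
    (hl1 : l ≠ 1) (J : Finset ℕ) (m : ∀ j, j ∈ J ↔ j ≠ 1 ∧ j ≠ l ∧ j < K)
    (hc : J.card = K - 2) :
    pm (vv k K) J (1 :: LL K i) = if l = 0 then 1 else if i + l ≤ K then 0 else -1 := by
  have hL : ∀ c ∈ LL K i, 2 ≤ c ∧ c < K := fun c hc =>
    ⟨(mem_LL h2 hi hc).1, (mem_LL h2 hi hc).2.1⟩
  have hcard : ∀ j ∈ J, (J.erase j).card ≤ (LL K i).length := by
    intro j hj
    rw [Finset.card_erase_of_mem hj, LL_length h2 hi]
    omega
  rw [P1 K hK _ (fun j hj => by have := (m j).1 hj; omega)]
  rw [if_neg (fun h : K ∈ J => by have := (m _).1 h; omega)]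
  by_cases h0 : l = 0
  · rw [if_neg (fun h : 0 ∈ J => by have := (m _).1 h; omega), if_pos h0,
      if_pos ((m _).2 (by omega)), b2 hSL K i hK h2 hi _ 1 (K - 1) le_rfl (by omega) (by omega)
      (by omega) (by omega) (fun j => by rw [Finset.mem_erase, m]; omega)]
    unfold II
    split_ifs <;> first | (exfalso; omega) | ring
  · rw [tz K (K - 1) J _ (fun h => z0 hSL K _ _ hL (hcard _ h) (Or.inl
      (by rw [Finset.mem_erase, m]; omega))), if_pos ((m _).2 (by omega)), if_neg h0,
      b2 hSL K i hK h2 hi _ 1 l le_rfl (by omega) (by omega) (by omega) (Ne.symm hl1)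
        (fun j => by rw [Finset.mem_erase, m]; omega)]
    unfold II
    split_ifs <;> first | (exfalso; omega) | ring

lemma last (hSL : StmSL k) (K i l : ℕ) (hK : 3 ≤ K) (h2 : 2 ≤ i) (hi : i < K) (hl : l < K) :
    pm (vv k K) ((range K).erase l) (0 :: 1 :: LL K i) = if i + l ≤ K then -1 else 1 := by
  have m : ∀ j, j ∈ (range K).erase l ↔ j ≠ l ∧ j < K := fun j => by
    rw [Finset.mem_erase, Finset.mem_range]
  have hc : ((range K).erase l).card = K - 1 := by
    rw [Finset.card_erase_of_mem (Finset.mem_range.2 hl), Finset.card_range]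
  rw [P0 K hK _ (fun j hj => by have := (m j).1 hj; omega)]
  rw [if_neg (fun h : K ∈ (range K).erase l => by have := (m _).1 h; omega)]
  by_cases h0 : l = 0
  · rw [if_neg (fun h : 0 ∈ (range K).erase l => by have := (m _).1 h; omega),
      if_pos ((m _).2 (by omega)), F1 hSL K i l hK h2 hi hl (by omega) _
        (fun j => by rw [Finset.mem_erase, m]) (by
          rw [Finset.card_erase_of_mem ((m _).2 (by omega)), hc]
          omega), if_pos h0, if_pos (by omega)]
    ring
  · have e0 : (if 0 ∈ (range K).erase l then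
        pm (vv k K) (((range K).erase l).erase 0) (1 :: LL K i) else 0) =
        if i + l ≤ K then 1 else 0 := by
      rw [if_pos ((m _).2 (by omega)), F0 hSL K i l hK h2 hi hl (by omega) _
        (fun j => by rw [Finset.mem_erase, m])]
    have e1 : (if 1 ∈ (range K).erase l then
        pm (vv k K) (((range K).erase l).erase 1) (1 :: LL K i) else 0) =
        if i + l ≤ K then 0 else -1 := by
      by_cases h1 : l = 1
      · rw [if_neg (fun h : 1 ∈ (range K).erase l => by have := (m _).1 h; omega),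
          if_pos (by omega)]
      · rw [if_pos ((m _).2 (by omega)), F1 hSL K i l hK h2 hi hl h1 _
          (fun j => by rw [Finset.mem_erase, m]) (by
            rw [Finset.card_erase_of_mem ((m _).2 (by omega)), hc]
            omega), if_neg h0]
    rw [e0, e1]
    split_ifs <;> ring

/-- the first permanent -/
lemma full (hSL : StmSL k) (K : ℕ) (hK : 3 ≤ K) :
    pm (vv k K) (range K) (List.range K) = 0 := by
  have m : ∀ j, j ∈ range K ↔ j < K := fun j => Finset.mem_range
  rw [list_range K hK, P0 K hK _ (fun j hj => by have := (m j).1 hj; omega),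
    if_neg (fun h : K ∈ range K => by have := (m _).1 h; omega), if_pos ((m _).2 (by omega)),
    if_pos ((m _).2 (by omega)),
    c1 hSL K 0 hK (by omega) _ (fun j => by rw [Finset.mem_erase, m])
      (by rw [Finset.card_erase_of_mem ((m _).2 (by omega)), Finset.card_range]),
    c1 hSL K 1 hK (by omega) _ (fun j => by rw [Finset.mem_erase, m])
      (by rw [Finset.card_erase_of_mem ((m _).2 (by omega)), Finset.card_range]),
    if_pos rfl, if_neg (by omega)]
  ring

/-- one column more -/
lemma more (hSL : StmSL k) (K l : ℕ) (hK : 3 ≤ K) (hl : l < K + 1) :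
    pm (vv k K) ((range (K + 1)).erase l) (List.range K) = if l = 0 ∨ l = K then 0 else -2 := by
  by_cases hlK : l = K
  · rw [if_pos (Or.inr hlK), hlK, Finset.range_add_one, Finset.erase_insert
      Finset.notMem_range_self, full hSL K hK]
  have m : ∀ j, j ∈ (range (K + 1)).erase l ↔ j ≠ l ∧ j < K + 1 := fun j => by
    rw [Finset.mem_erase, Finset.mem_range]
  have hc : ((range (K + 1)).erase l).card = K := by
    rw [Finset.card_erase_of_mem (Finset.mem_range.2 hl), Finset.card_range]
    omega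
  have hcard : ∀ i j, i ∈ (range (K + 1)).erase l → j ∈ ((range (K + 1)).erase l).erase i →
      ((((range (K + 1)).erase l).erase i).erase j).card ≤
        (List.range' 2 (K - 2)).length := by
    intro i j hi hj
    rw [Finset.card_erase_of_mem hj, Finset.card_erase_of_mem hi, hc, List.length_range']
    omega
  have hK1 : pm (vv k K) (((range (K + 1)).erase l).erase K) (1 :: List.range' 2 (K - 2)) =
      if l = 0 then 1 else -1 :=
    c1 hSL K l hK (by omega) _ (fun j => by rw [Finset.mem_erase, m]; omega) (by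
      rw [Finset.card_erase_of_mem ((m _).2 (by omega)), hc])
  rw [list_range K hK, P0 K hK _ (fun j hj => by have := (m j).1 hj; omega),
    if_pos ((m K).2 (by omega)), hK1]
  by_cases h0 : l = 0
  · rw [if_neg (fun h : 0 ∈ (range (K + 1)).erase l => by have := (m _).1 h; omega),
      if_pos ((m _).2 (by omega)), if_pos h0, if_pos (Or.inl h0)]
    have h1 : 1 ∈ (range (K + 1)).erase l := (m _).2 (by omega)
    rw [P1 K hK _ (fun j hj => by rw [Finset.mem_erase, m] at hj; omega),
      if_neg (fun h => by rw [Finset.mem_erase, m] at h; omega),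
      tz K (K - 1) _ _ (fun h => z0 hSL K _ _ (hLr K) (hcard 1 _ h1 h) (Or.inr
        (by rw [Finset.mem_erase, Finset.mem_erase, m]; omega))),
      if_pos (by rw [Finset.mem_erase, m]; omega),
      a2 hSL K hK _ 1 (by omega) (by omega)
        (fun j => by rw [Finset.mem_erase, Finset.mem_erase, m]; omega)]
    ring
  · have h00 : 0 ∈ (range (K + 1)).erase l := (m _).2 (by omega)
    have e1 : (if 1 ∈ (range (K + 1)).erase l then pm (vv k K)
        (((range (K + 1)).erase l).erase 1) (1 :: List.range' 2 (K - 2)) else 0) = 0 := by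
      refine tz K 1 _ _ fun h1 => ?_
      rw [P1 K hK _ (fun j hj => by rw [Finset.mem_erase, m] at hj; omega),
        tz K 0 _ _ (fun h => z0 hSL K _ _ (hLr K) (hcard 1 _ h1 h) (Or.inr
          (by rw [Finset.mem_erase, Finset.mem_erase, m]; omega))),
        tz K (K - 1) _ _ (fun h => z0 hSL K _ _ (hLr K) (hcard 1 _ h1 h) (Or.inl
          (by rw [Finset.mem_erase, Finset.mem_erase, m]; omega))),
        tz K K _ _ (fun h => z0 hSL K _ _ (hLr K) (hcard 1 _ h1 h) (Or.inl
          (by rw [Finset.mem_erase, Finset.mem_erase, m]; omega)))]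
      ring
    rw [e1, if_pos h00, if_neg h0, if_neg (by omega),
      P1 K hK _ (fun j hj => by rw [Finset.mem_erase, m] at hj; omega),
      if_neg (fun h => by rw [Finset.mem_erase] at h; omega),
      tz K (K - 1) _ _ (fun h => z0 hSL K _ _ (hLr K) (hcard 0 _ h00 h) (Or.inr
        (by rw [Finset.mem_erase, Finset.mem_erase, m]; omega))),
      if_pos (by rw [Finset.mem_erase, m]; omega),
      a2 hSL K hK _ l (by omega) (by omega)
        (fun j => by rw [Finset.mem_erase, Finset.mem_erase, m]; omega)]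
    ring

lemma sgn (K : ℕ) (hK : 3 ≤ K) : (-1 : k) ^ (K - 1) = (-1) ^ (K + 1) := by
  obtain ⟨n, rfl⟩ : ∃ n, K = n + 1 := ⟨K - 1, by omega⟩
  rw [Nat.add_sub_cancel, pow_succ, pow_succ]
  ring

end

theorem t (k : Type*) [Field k] : StmCA k := by
  intro K hK
  have hSL : StmSL k := sl k
  have hrange : List.range K = 0 :: 1 :: List.range' 2 (K - 2) := list_range K hK
  have hX : ∀ s, s + 2 ≤ 2 * K → vv k K (s + 1) = uX k K s := by
    intro s hs
    unfold vv uX
    by_cases b0 : s = 0
    · rw [if_pos (by omega), if_pos b0]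
    by_cases b1 : s + 1 = K
    · rw [if_neg (by omega), if_pos (by omega), if_neg b0, if_pos b1]
    by_cases b2 : s = K
    · rw [if_neg (by omega), if_pos (by omega), if_neg b0, if_neg b1, if_pos b2]
    · rw [if_neg (by omega), if_neg (by omega), if_neg b0, if_neg b1, if_neg b2,
        if_neg (by omega)]
  obtain ⟨x1, x2, -⟩ := cx k K (by omega)
  rw [uA_eq]
  refine ⟨?_, ?_, ?_, ?_, ?_⟩
  · rw [pm_neg, full hSL K hK, mul_zero]
  · intro i hi l hl
    have hlen : ((List.range K).erase i).length = K - 1 := by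
      rw [List.length_erase_of_mem (List.mem_range.2 hi), List.length_range]
    rw [pm_neg, hlen, sgn K hK]
    congr 1
    have m : ∀ j, j ∈ (range K).erase l ↔ j ≠ l ∧ j < K := fun j => by
      rw [Finset.mem_erase, Finset.mem_range]
    have hc : ((range K).erase l).card = K - 1 := by
      rw [Finset.card_erase_of_mem (Finset.mem_range.2 hl), Finset.card_range]
    by_cases i0 : i = 0
    · subst i0
      rw [hrange, List.erase_cons_head, c1 hSL K l hK hl _ m hc]
      split_ifs <;> first | (exfalso; omega) | rfl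
    by_cases i1 : i = 1
    · subst i1
      rw [hrange, List.erase_cons_tail (by simp), List.erase_cons_head, c0 hSL K l hK hl _ m hc]
      split_ifs <;> first | (exfalso; omega) | rfl
    · have e : (List.range K).erase i = 0 :: 1 :: LL K i := by
        rw [hrange, List.erase_cons_tail (by simpa using Ne.symm i0),
          List.erase_cons_tail (by simpa using Ne.symm i1), erase_range' K i (by omega) hi]
      rw [e, last hSL K i l hK (by omega) hi hl]
      split_ifs <;> first | (exfalso; omega) | rfl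
  · have h := pm_neg (fun s => vv k K (s + 1)) (List.range K) (range K)
    refine h.trans ?_
    rw [show pm (fun s => vv k K (s + 1)) (range K) (List.range K) = 0 from
      (pm_congr _ _ fun i hi c hc => hX _ (by
        rw [Finset.mem_range] at hi
        rw [List.mem_range] at hc
        omega)).trans x1, mul_zero]
  · intro i hi l hl
    have hlen : ((List.range K).erase i).length = K - 1 := by
      rw [List.length_erase_of_mem (List.mem_range.2 hi), List.length_range]
    have h := pm_neg (fun s => vv k K (s + 1)) ((List.range K).erase i) ((range K).erase l)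
    refine h.trans ?_
    rw [hlen, sgn K hK]
    congr 1
    rw [← x2 i hi l hl]
    refine pm_congr _ _ fun j hj c hc => hX _ ?_
    have h1 := Finset.mem_range.1 (Finset.mem_of_mem_erase hj)
    have h2 := List.mem_range.1 (List.mem_of_mem_erase hc)
    omega
  · intro l hl
    rw [pm_neg, List.length_range, more hSL K l hK hl]
    by_cases h : l = 0 ∨ l = K
    · rw [if_pos h, if_pos h, mul_zero]
    · rw [if_neg h, if_neg h, pow_succ]
      ring

end Pool.Agent.N729.HQ.CA
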