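import Pool.Agent.N729.HQ.Stm

/-!
Project HQ: assembly of the families.
-/

set_option autoImplicit false

namespace Pool.Agent.N729.HQ.FIN

open Finset
open Pool.Agent.N186.HK (pm vm)
open Pool.Agent.R831.PermIdeal (permIdeal)
open Pool.Agent.N729.HP

variable {k : Type*} [Field k]

theorem b1 (h2 : (2 : k) ≠ 0) (hJ1 : StmJ1 k) (hP : StmPB1 k) (hL : StmLB1 k) (g κ : ℕ)
    (hg : 3 ≤ g) (hκ : 2 ≤ κ) : NP k (g * κ + 1) (g * (κ - 1) + 2) := by
  obtain ⟨hV, hR⟩ := hP h2 g κ hg hκ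
  obtain ⟨S, hS, hy⟩ := hL h2 g κ hg hκ
  obtain ⟨κ, rfl⟩ : ∃ κ', κ = κ' + 1 := ⟨κ - 1, by omega⟩
  simp only [Nat.add_sub_cancel] at *
  refine hJ1 _ _ (by omega) (by rw [mul_add]; omega) _ hV S hS fun y h0 hT v hv => ?_
  obtain ⟨w, hw⟩ := hR y hT
  refine hy y w h0 hw v ?_
  have h5 : g * (2 * (κ + 1) - 1) = g * κ + g * (κ + 1) := by
    rw [← mul_add]; congr 1; omega
  have h6 : g * (κ + 1) = g * κ + g := by ring
  omega

theorem b2 (h2 : (2 : k) ≠ 0) (hJ1 : StmJ1 k) (hP : StmPB2 k) (hL : StmLB2 k) (C g κ : ℕ)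
    (hC : 2 ≤ C) (hg : C < g) (hκ : 2 ≤ κ) : NP k (g * κ + C) (g * (κ - 1) + C + 1) := by
  obtain ⟨hV, hR⟩ := hP h2 C g κ hC hg hκ
  obtain ⟨S, hS, hy⟩ := hL h2 C g κ hC hg hκ
  obtain ⟨κ, rfl⟩ : ∃ κ', κ = κ' + 1 := ⟨κ - 1, by omega⟩
  simp only [Nat.add_sub_cancel] at *
  refine hJ1 _ _ (by omega) (by rw [mul_add]; omega) _ hV S hS fun y h0 hT v hv => ?_
  obtain ⟨w₀, w₁, hw⟩ := hR y hT
  refine hy y w₀ w₁ h0 hw v ?_
  have h5 : g * (2 * (κ + 1) - 1) = g * κ + g * (κ + 1) := by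
    rw [← mul_add]; congr 1; omega
  have h6 : g * (κ + 1) = g * κ + g := by ring
  omega

theorem b3 (h2 : (2 : k) ≠ 0) (hJ1 : StmJ1 k) (hP : StmPB3 k) (hL : StmLB3 k) (g κ : ℕ)
    (hg : 3 ≤ g) (hκ : 3 ≤ κ) : NP k (g * κ) (g * (κ - 1) + 1) := by
  obtain ⟨hV, hR⟩ := hP h2 g κ hg hκ
  obtain ⟨S, hS, hy⟩ := hL h2 g κ hg hκ
  obtain ⟨κ, rfl⟩ : ∃ κ', κ = κ' + 1 := ⟨κ - 1, by omega⟩
  simp only [Nat.add_sub_cancel] at *
  have h1 : 1 ≤ g * κ := Nat.mul_pos (by omega) (by omega)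
  refine hJ1 _ _ (by omega) (by rw [mul_add]; omega) _ hV S hS fun y h0 hT v hv => ?_
  obtain ⟨w₀, w₁, lam, hw⟩ := hR y hT
  refine hy y w₀ w₁ lam h0 hw v ?_
  have h5 : g * (2 * (κ + 1) - 1) = g * κ + g * (κ + 1) := by
    rw [← mul_add]; congr 1; omega
  have h6 : g * (κ + 1) = g * κ + g := by ring
  omega

theorem c1 (h2 : (2 : k) ≠ 0) (hT1 : StmT1 k) (ha : StmC1a k) (hb : StmC1b k) (κ : ℕ)
    (hκ : 3 ≤ κ) : NP k (2 * κ + 1) (2 * κ) := by
  obtain ⟨hV, hT, hw⟩ := ha h2 κ hκ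
  obtain ⟨hd, hq⟩ := hb κ hκ
  refine hT1 _ _ (by omega) (by omega) _ hV
    (((range (2 * κ - 1)).image fun s => 2 * (s + 1)) ∪ {4 * κ - 1}) ?_ ?_ _ hw {0}
    (fun _ => 1) (fun _ => range (2 * κ)) ?_ ?_ ?_
  · refine (card_union_le _ _).trans ?_
    refine (Nat.add_le_add_right card_image_le _).trans ?_
    rw [card_range, card_singleton]
    omega
  · intro y h0 hy v hv
    refine hT y ?_ ?_ hy v (by omega)
    · intro s h1 h3
      refine h0 _ (mem_union_left _ (mem_image.2 ⟨s - 1, mem_range.2 (by omega), by omega⟩))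
    · exact h0 _ (mem_union_right _ (mem_singleton_self _))
  · intro a _
    exact ⟨card_range _, fun j hj => by have := mem_range.1 hj; omega⟩
  · intro y
    rw [sum_singleton, hd, mul_zero]
  · rw [sum_singleton, hq, one_mul]
    have : (16 : k) = 2 ^ 4 := by norm_num
    rw [this]
    exact pow_ne_zero _ h2

theorem c2 (h2 : (2 : k) ≠ 0) (hT2 : StmT2 k) (ha : StmC2a k) (hb : StmC2b k) (hc : StmC2c k)
    (κ : ℕ) (hκ : 4 ≤ κ) : NP k (2 * κ) (2 * κ - 1) := by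
  obtain ⟨hV, hT, hw1, hw2⟩ := ha h2 κ hκ
  obtain ⟨hbd, hb1, hb2, hb3⟩ := hb κ hκ
  obtain ⟨hcd, hc1, hc2⟩ := hc κ hκ
  have h4 : (4 : k) ≠ 0 := by
    have : (4 : k) = 2 ^ 2 := by norm_num
    rw [this]
    exact pow_ne_zero _ h2
  refine hT2 _ _ (by omega) (by omega) _ hV
    (((range (2 * κ - 2)).image fun s => 2 * (s + 1)) ∪ {3, 4 * κ - 3}) ?_ ?_ _ _ hw1 hw2 {0, 1, 2}
    (fun a => if a = 0 then 1 else if a = 1 then -1 else 0) (fun a => if a = 2 then 1 else 0)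
    (fun a => if a = 0 then (range (2 * κ)).erase 0 else if a = 1 then (range (2 * κ)).erase 2 else
      range (2 * κ - 1)) ?_ ?_ ?_ ?_ ?_ ?_ ?_
  · refine (card_union_le _ _).trans ?_
    refine (Nat.add_le_add card_image_le (card_le_two (a := 3) (b := 4 * κ - 3))).trans ?_
    rw [card_range]
    omega
  · intro y h0 hy v hv
    refine hT y ?_ ?_ ?_ hy v (by omega)
    · intro s h1 h3
      refine h0 _ (mem_union_left _ (mem_image.2 ⟨s - 1, mem_range.2 (by omega), by omega⟩))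
    · exact h0 _ (mem_union_right _ (by simp))
    · exact h0 _ (mem_union_right _ (by simp))
  · intro a ha
    simp only [mem_insert, mem_singleton] at ha
    rcases ha with rfl | rfl | rfl
    · simp only [if_true]
      refine ⟨by rw [card_erase_of_mem (mem_range.2 (by omega)), card_range], fun j hj => ?_⟩
      exact mem_range.1 (mem_of_mem_erase hj)
    · simp only [one_ne_zero, if_false, if_true]
      refine ⟨by rw [card_erase_of_mem (mem_range.2 (by omega)), card_range], fun j hj => ?_⟩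
      exact mem_range.1 (mem_of_mem_erase hj)
    · simp only [OfNat.ofNat_ne_zero, OfNat.ofNat_ne_one, if_false]
      exact ⟨card_range _, fun j hj => by have := mem_range.1 hj; omega⟩
  · intro y
    rw [sum_insert (by simp), sum_insert (by simp), sum_singleton]
    simp only [if_true, one_ne_zero, if_false, OfNat.ofNat_ne_zero, OfNat.ofNat_ne_one]
    rw [hcd y]
    ring
  · intro y
    rw [sum_insert (by simp), sum_insert (by simp), sum_singleton]
    simp only [if_true, one_ne_zero, if_false, OfNat.ofNat_ne_zero, OfNat.ofNat_ne_one,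
      OfNat.zero_ne_ofNat, OfNat.one_ne_ofNat]
    rw [hbd y]
    ring
  all_goals
    rw [sum_insert (by simp), sum_insert (by simp), sum_singleton]
    try rw [sum_insert (by simp), sum_insert (by simp), sum_singleton]
    simp only [if_true, one_ne_zero, if_false, OfNat.ofNat_ne_zero, OfNat.ofNat_ne_one,
      OfNat.zero_ne_ofNat, OfNat.one_ne_ofNat, hb1, hb2, hb3, hc1, hc2]
    try ring_nf
  · exact h4
  · exact neg_ne_zero.2 h4

/-- `m = t < n ≤ 2 t - 2` -/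
theorem fin (h2 : (2 : k) ≠ 0) (hJ1 : StmJ1 k) (hT1 : StmT1 k) (hT2 : StmT2 k) (hP1 : StmPB1 k)
    (hL1 : StmLB1 k) (hP2 : StmPB2 k) (hL2 : StmLB2 k) (hP3 : StmPB3 k) (hL3 : StmLB3 k)
    (hB4 : StmB4 k) (hC1 : ∀ κ : ℕ, 3 ≤ κ → NP k (2 * κ + 1) (2 * κ)) (hC2a : StmC2a k)
    (hC2b : StmC2b k) (hC2c : StmC2c k) (hS4 : StmS4 k) (hS5 : StmS5 k) (n t : ℕ) (h1 : t < n)
    (h3 : n + 2 ≤ 2 * t) : NP k n t := by
  obtain ⟨g, κ, C, hg, hC, hκ, rfl, rfl⟩ : ∃ g κ C, 2 ≤ g ∧ C < g ∧ 2 ≤ κ ∧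
      t = g * (κ - 1) + C + 1 ∧ n = g * κ + C := by
    refine ⟨n - t + 1, (t - 1) / (n - t + 1) + 1, (t - 1) % (n - t + 1), by omega,
      Nat.mod_lt _ (by omega), ?_, ?_, ?_⟩
    · have : 1 ≤ (t - 1) / (n - t + 1) := (Nat.one_le_div_iff (by omega)).2 (by omega)
      omega
    · have := Nat.div_add_mod (t - 1) (n - t + 1)
      rw [Nat.add_sub_cancel]
      omega
    · have := Nat.div_add_mod (t - 1) (n - t + 1)
      rw [mul_add, mul_one]
      omega
  rcases Nat.lt_or_ge g 3 with h | h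
  · obtain rfl : g = 2 := by omega
    rcases Nat.lt_or_ge C 1 with h0 | h0
    · obtain rfl : C = 0 := by omega
      rcases Nat.lt_or_ge κ 4 with h4 | h4
      · rcases Nat.lt_or_ge κ 3 with h5 | h5
        · obtain rfl : κ = 2 := by omega
          exact hB4 h2 hT1 2 le_rfl
        · obtain rfl : κ = 3 := by omega
          exact hS5 h2 hT2
      · have := c2 h2 hT2 hC2a hC2b hC2c κ h4
        rwa [show 2 * κ + 0 = 2 * κ from rfl, show 2 * (κ - 1) + 0 + 1 = 2 * κ - 1 by omega]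
    · obtain rfl : C = 1 := by omega
      rcases Nat.lt_or_ge κ 3 with h5 | h5
      · obtain rfl : κ = 2 := by omega
        exact hS4 h2 hT1
      · have := hC1 κ h5
        rwa [show 2 * (κ - 1) + 1 + 1 = 2 * κ by omega]
  · rcases Nat.lt_or_ge C 2 with h0 | h0
    · rcases Nat.lt_or_ge C 1 with h6 | h6
      · obtain rfl : C = 0 := by omega
        rcases Nat.lt_or_ge κ 3 with h5 | h5
        · obtain rfl : κ = 2 := by omega
          have := hB4 h2 hT1 g hg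
          rw [mul_comm 2 g] at this
          rwa [show g * 2 + 0 = g * 2 from rfl, show g * (2 - 1) + 0 + 1 = g + 1 by omega]
        · exact b3 h2 hJ1 hP3 hL3 g κ h h5
      · obtain rfl : C = 1 := by omega
        exact b1 h2 hJ1 hP1 hL1 g κ h hκ
    · exact b2 h2 hJ1 hP2 hL2 C g κ h0 hC hκ

end Pool.Agent.N729.HQ.FIN
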