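import Pool.Agent.N729.HQ.Stm

/-!
Project HQ (MP_9bc296_ag), part PB2 (copy b, helper622): the family `2 ≤ C < g`: the point and the
linear relations of the tangent vectors at the point.
-/

set_option autoImplicit false
set_option linter.unusedSectionVars false

namespace Pool.Agent.N729.HQ.PB2b

open Finset
open Pool.Agent.N186.HK (pm vm IsHankel)
open Pool.Agent.N729.HP
open Pool.Agent.N729.HP.RA (cc_add cc_lt cc_inj mem_LG mem_JG)
open Pool.Agent.N729.HP.PN (perm_range eq_range card_erase_range length_erase_range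
  nodup_erase_range toFinset_range lt_of_mem_erase lt_of_mem_list_erase)

variable {k : Type*} [Field k]

/-! ### the numbers -/

/-- the cofactors of `B` and `Z` -/
def ee (K i l : ℕ) : k := if i + l < K then 1 else -1

/-- the cofactors of the shifted block -/
def ff (K i l : ℕ) : k := if i + l + 1 < K then -1 else 1

/-- the maximal minors of `B` -/
def aa (K l : ℕ) : k := if l = 0 ∨ l = K then 0 else 2

/-- the permanents of the blocks -/
def P (k : Type*) [Field k] (C K ρ : ℕ) (J : Finset ℕ) (L : List ℕ) : k :=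
  pm (fun s => uX k K (s + sh C ρ)) J L

lemma sh_big {C ρ : ℕ} (h : ρ ≤ C) : sh C ρ = 0 := if_pos h

lemma sh_small {C ρ : ℕ} (h : C < ρ) : sh C ρ = 1 := if_neg (by omega)

lemma pm_shift (u : ℕ → k) (J : Finset ℕ) (L : List ℕ) :
    pm u (J.image fun l => l + 1) L = pm (fun s => u (s + 1)) J L := by
  have h := (BA.te k u u 1 0 1 one_pos J L).1
  have e1 : (J.image fun l => 1 + 1 * l) = J.image fun l => l + 1 := by
    congr 1
    funext l
    omega
  have e2 : (L.map fun i => 0 + 1 * i) = L := by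
    have : (fun i : ℕ => 0 + 1 * i) = id := by
      funext i
      simp
    rw [this, List.map_id]
  rw [e1, e2] at h
  rw [h]
  congr 1
  funext s
  congr 1
  omega

lemma erase_erase_zero {K l : ℕ} (hl : l < K) :
    ((range (K + 1)).erase (l + 1)).erase 0 = ((range K).erase l).image fun l => l + 1 := by
  ext j
  simp only [mem_erase, mem_range, mem_image]
  constructor
  · rintro ⟨h1, h2, h3⟩
    exact ⟨j - 1, ⟨by omega, by omega⟩, by omega⟩
  · rintro ⟨i, ⟨h1, h2⟩, rfl⟩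
    exact ⟨by omega, by omega, by omega⟩

lemma erase_last {K l : ℕ} (hl : l < K) :
    ((range (K + 1)).erase l).erase K = (range K).erase l := by
  ext j
  simp only [mem_erase, mem_range]
  omega

lemma erase_last' (K : ℕ) : (range (K + 1)).erase K = range K := by
  ext j
  simp only [mem_erase, mem_range]
  omega

section vals

variable {C K ρ : ℕ} (hK : 2 ≤ K)

include hK

lemma v2 (h : ρ ≤ C) : P k C K ρ (range K) (List.range K) = 0 := by
  obtain ⟨c1, c2, c3, c4, c5, c6⟩ := cx k K hK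
  unfold P
  rw [sh_big h]
  exact c1

lemma v1 (h : ρ ≤ C) {i l : ℕ} (hi : i < K) (hl : l < K) :
    P k C K ρ ((range K).erase l) ((List.range K).erase i) = ee K i l := by
  obtain ⟨c1, c2, c3, c4, c5, c6⟩ := cx k K hK
  unfold P
  rw [sh_big h]
  exact c2 i hi l hl

lemma v3 (h : ρ ≤ C) {l : ℕ} (hl : l < K + 1) :
    P k C K ρ ((range (K + 1)).erase l) (List.range K) = aa K l := by
  obtain ⟨c1, c2, c3, c4, c5, c6⟩ := cx k K hK
  unfold P
  rw [sh_big h]
  exact c5 l hl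

lemma v5 (h : ρ ≤ C) {i l : ℕ} (hi : i < K) (hl : l < K) :
    P k C K ρ (((range (K + 1)).erase (l + 1)).erase 0) ((List.range K).erase i) = ff K i l := by
  obtain ⟨c1, c2, c3, c4, c5, c6⟩ := cx k K hK
  unfold P
  rw [sh_big h, erase_erase_zero hl, pm_shift]
  exact c4 i hi l hl

lemma v6 (h : C < ρ) {l : ℕ} (hl : l < K) :
    P k C K ρ ((range K).erase l) (List.range (K - 1)) = 1 := by
  obtain ⟨c1, c2, c3, c4, c5, c6⟩ := cx k K hK
  unfold P
  rw [sh_small h]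
  exact c6 l hl

end vals

/-! ### inversion of the relations -/

lemma inv0 (hk : (2 : k) ≠ 0) {K : ℕ} (hK : 2 ≤ K) (W : ℕ → k) (w : k)
    (h : ∀ l < K, ∑ i ∈ range K, W i * ee K i l = - w) :
    ∀ i < K, W i = if i = 0 then - w else 0 := by
  have h1 := (ci k hk K (fun i => W i - if i = 0 then - w else 0)).1 (by
    intro l hl
    simp only [sub_mul]
    rw [sum_sub_distrib]
    have h2 := h l hl
    unfold ee at h2
    rw [h2, Finset.sum_eq_single_of_mem 0 (mem_range.2 (by omega)) (by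
      intro i _ hi
      rw [if_neg hi, zero_mul])]
    rw [if_pos rfl, if_pos (by omega)]
    ring)
  intro i hi
  exact sub_eq_zero.1 (h1 i hi)

lemma sum_two {K : ℕ} (hK : 2 ≤ K) (F : ℕ → k) (p q : k) :
    ∑ i ∈ range K, (if i = 0 then p else if i + 1 = K then q else 0) * F i =
      p * F 0 + q * F (K - 1) := by
  rw [Finset.sum_eq_add_of_mem 0 (K - 1) (mem_range.2 (by omega)) (mem_range.2 (by omega))
    (by omega)]
  · rw [if_pos rfl, if_neg (by omega), if_pos (by omega)]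
  · rintro i _ ⟨h1, h2⟩
    rw [if_neg h1, if_neg (by omega), zero_mul]

lemma invC (hk : (2 : k) ≠ 0) {K : ℕ} (hK : 2 ≤ K) (W : ℕ → k) (w₀ w₁ : k)
    (h : ∀ l < K, ∑ i ∈ range K, W i * ff K i l = w₀ * aa K (l + 1) - w₁) :
    ∀ i < K, W i = if i = 0 then - w₀ else if i + 1 = K then w₀ - w₁ else 0 := by
  have h1 := (ci k hk K (fun i => W i - if i = 0 then - w₀ else if i + 1 = K then w₀ - w₁
      else 0)).2.1 (by
    intro l hl
    have h2 := h l hl
    have h3 := sum_two hK (fun i => (ff K i l : k)) (- w₀) (w₀ - w₁)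
    unfold ff at h2 h3
    simp only [sub_mul]
    rw [sum_sub_distrib, h2, h3]
    unfold aa
    rw [if_neg (show ¬ K - 1 + l + 1 < K by omega)]
    by_cases h4 : l + 1 = K
    · rw [if_pos (Or.inr h4), if_neg (by omega)]
      ring
    · rw [if_neg (by omega), if_pos (by omega)]
      ring)
  intro i hi
  exact sub_eq_zero.1 (h1 i hi)

lemma inv1 (hk : (2 : k) ≠ 0) {K : ℕ} (hK : 2 ≤ K) (W : ℕ → k) (w₁ : k)
    (h : ∀ l < K, ∑ i ∈ range K, W i * ee K i l = w₁ * aa K l) :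
    ∀ i < K, W i = if i = 0 then w₁ else if i + 1 = K then - w₁ else 0 := by
  have h1 := (ci k hk K (fun i => W i - if i = 0 then w₁ else if i + 1 = K then - w₁
      else 0)).1 (by
    intro l hl
    have h2 := h l hl
    have h3 := sum_two hK (fun i => (ee K i l : k)) w₁ (- w₁)
    unfold ee at h2 h3
    simp only [sub_mul]
    rw [sum_sub_distrib, h2, h3]
    unfold aa
    rw [if_pos (show 0 + l < K by omega)]
    by_cases h4 : l = 0
    · rw [if_pos (Or.inl h4), if_pos (by omega)]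
      ring
    · rw [if_neg (by omega), if_neg (by omega)]
      ring)
  intro i hi
  exact sub_eq_zero.1 (h1 i hi)

/-! ### blocks -/

/-- number of short indices of the block `ρ` -/
def nr (C K ρ : ℕ) : ℕ := if ρ ≤ C then K else K - 1

/-- number of long indices of the block `ρ` -/
def nc (C K ρ : ℕ) : ℕ := if ρ = 0 then K else if ρ ≤ C then K + 1 else K

/-- the short indices -/
def Lb (C K ρ : ℕ) : List ℕ := List.range (nr C K ρ)

/-- first link -/
def J1 (C : ℕ) (Js : ℕ → Finset ℕ) (ρ : ℕ) : Finset ℕ := if ρ = C then (Js ρ).erase 0 else Js ρ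

def L1 (Ls : ℕ → List ℕ) (ρ : ℕ) : List ℕ := if ρ = 0 then (Ls ρ).erase 0 else Ls ρ

/-- second link -/
def J2 (K : ℕ) (Js : ℕ → Finset ℕ) (ρ : ℕ) : Finset ℕ := if ρ = 1 then (Js ρ).erase K else Js ρ

def L2 (C K : ℕ) (Ls : ℕ → List ℕ) (ρ : ℕ) : List ℕ :=
  if ρ = C then (Ls ρ).erase (K - 1) else Ls ρ

lemma gK {g K : ℕ} (hK : 2 ≤ K) : g * K = g * (K - 1) + g := by
  obtain ⟨q, rfl⟩ : ∃ q, K = q + 1 := ⟨K - 1, by omega⟩
  rw [Nat.add_sub_cancel, Nat.mul_succ]

lemma g2K {g K : ℕ} (hK : 2 ≤ K) : g * (2 * K - 1) = g * (K - 1) + g * K := by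
  rw [← Nat.mul_add]
  congr 1
  omega

lemma short_iff {C g K : ℕ} (hC : C < g) (hK : 2 ≤ K) {ρ : ℕ} (hρ : ρ < g) (i : ℕ) :
    ρ + g * i < g * (K - 1) + C + 1 ↔ i < nr C K ρ := by
  unfold nr
  have e := gK (g := g) hK
  rcases lt_trichotomy i (K - 1) with h | h | h
  · have h' : g * (i + 1) ≤ g * (K - 1) := Nat.mul_le_mul_left g (by omega)
    rw [Nat.mul_succ] at h'
    constructor
    · intro _
      split_ifs <;> omega
    · intro _
      omega
  · subst h
    split_ifs with h5 <;> constructor <;> intro h6 <;> omega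
  · have h' : g * K ≤ g * i := Nat.mul_le_mul_left g (by omega)
    split_ifs with h5 <;> constructor <;> intro h6 <;> omega

lemma long_iff {C g K : ℕ} (hC : C < g) (hK : 2 ≤ K) {ρ : ℕ} (hρ : ρ < g) (l : ℕ) :
    cc g C ρ + g * l < g * K + C ↔ l < nc C K ρ := by
  unfold nc cc
  have e := gK (g := g) hK
  rcases lt_trichotomy l (K - 1) with h | h | h
  · have h' : g * (l + 1) ≤ g * (K - 1) := Nat.mul_le_mul_left g (by omega)
    rw [Nat.mul_succ] at h'
    split_ifs <;> constructor <;> intro h6 <;> omega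
  · subst h
    split_ifs with h5 <;> constructor <;> intro h6 <;> omega
  · rcases lt_trichotomy l K with h1 | h1 | h1
    · omega
    · subst h1
      split_ifs with h5 <;> constructor <;> intro h6 <;> omega
    · have h' : g * (K + 1) ≤ g * l := Nat.mul_le_mul_left g (by omega)
      rw [Nat.mul_succ] at h'
      split_ifs with h5 <;> constructor <;> intro h6 <;> omega

lemma mem_JG' {C g : ℕ} (hC : C < g) {Js : ℕ → Finset ℕ} {ρ : ℕ} (hρ : ρ < g) (l : ℕ) :
    cc g C ρ + g * l ∈ JG g C Js (List.range g) ↔ l ∈ Js ρ := by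
  rw [mem_JG]
  constructor
  · rintro ⟨ρ', hρ', l', hl', h⟩
    rw [List.mem_range] at hρ'
    have h1 : (cc g C ρ' + g * l') % g = (cc g C ρ + g * l) % g := by rw [h]
    rw [Nat.add_mul_mod_self_left, Nat.add_mul_mod_self_left, Nat.mod_eq_of_lt (cc_lt hC),
      Nat.mod_eq_of_lt (cc_lt hC)] at h1
    have h2 := cc_inj hC hρ' hρ h1
    subst h2
    have h3 : g * l' = g * l := by omega
    rw [← Nat.eq_of_mul_eq_mul_left (by omega) h3]
    exact hl'
  · intro hl
    exact ⟨ρ, List.mem_range.2 hρ, l, hl, rfl⟩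

/-- two links -/
lemma two_links (hLK : StmLK k) (x x1 x' y : ℕ → k) (z j₂ c₂ : ℕ) (hz : j₂ + c₂ = z)
    (h1 : ∀ v, v ≠ 0 → x1 v = x v) (h10 : x1 0 - x 0 = 1) (h2 : ∀ v, v ≠ z → x' v = x1 v)
    (h20 : x' z - x1 z = 1) (J : Finset ℕ) (L : List ℕ) (hL : L.Nodup) (hJ : ∀ j ∈ J, j ≤ j₂)
    (hc : ∀ c ∈ L, c ≤ c₂) (h0L : 0 ∈ L) (hcL : c₂ ∈ L) (hj2 : j₂ ≠ 0) (hc2 : c₂ ≠ 0) :
    pm x' J L = pm x J L + (if 0 ∈ J then pm x (J.erase 0) (L.erase 0) else 0) +
      (if j₂ ∈ J then pm x (J.erase j₂) (L.erase c₂) else 0) +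
      (if 0 ∈ J ∧ j₂ ∈ J then pm x ((J.erase 0).erase j₂) ((L.erase 0).erase c₂) else 0) ∧
    pd x' y J L = pd x y J L + (if 0 ∈ J then pd x y (J.erase 0) (L.erase 0) else 0) +
      (if j₂ ∈ J then pd x y (J.erase j₂) (L.erase c₂) else 0) +
      (if 0 ∈ J ∧ j₂ ∈ J then pd x y ((J.erase 0).erase j₂) ((L.erase 0).erase c₂) else 0) := by
  obtain ⟨a1, a2, -⟩ := hLK.1 x1 x' y z j₂ c₂ hz h2 J L hL (by
    intro j hj c hc' h
    have := hJ j hj
    have := hc c hc'
    omega)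
  obtain ⟨b1, b2, -⟩ := hLK.1 x x1 y 0 0 0 rfl h1 J L hL (by
    intro j _ c _ h
    omega)
  obtain ⟨d1, d2, -⟩ := hLK.1 x x1 y 0 0 0 rfl h1 (J.erase j₂) (L.erase c₂) (hL.erase c₂) (by
    intro j _ c _ h
    omega)
  have e1 : (0 ∈ J.erase j₂ ∧ 0 ∈ L.erase c₂) ↔ 0 ∈ J := by
    rw [mem_erase, List.mem_erase_of_ne hc2.symm]
    constructor
    · rintro ⟨⟨_, h⟩, _⟩
      exact h
    · intro h
      exact ⟨⟨hj2.symm, h⟩, h0L⟩
  have e2 : (0 ∈ J ∧ 0 ∈ L) ↔ 0 ∈ J := ⟨fun h => h.1, fun h => ⟨h, h0L⟩⟩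
  have e3 : (j₂ ∈ J ∧ c₂ ∈ L) ↔ j₂ ∈ J := ⟨fun h => h.1, fun h => ⟨h, hcL⟩⟩
  have e4 : (J.erase j₂).erase 0 = (J.erase 0).erase j₂ := Finset.erase_right_comm
  have e5 : (L.erase c₂).erase 0 = (L.erase 0).erase c₂ := List.erase_comm _ _
  rw [if_congr e3 rfl rfl, h20, one_mul] at a1 a2
  rw [if_congr e2 rfl rfl, h10, one_mul] at b1 b2
  rw [if_congr e1 rfl rfl, h10, one_mul, e4, e5] at d1 d2
  rw [a1, a2, b1, b2, d1, d2]
  by_cases hj0 : 0 ∈ J <;> by_cases hj : j₂ ∈ J <;> simp only [hj0, hj, if_true, if_false, and_self,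
    and_true, and_false, add_zero] <;> exact ⟨by ring, by ring⟩

/-- the sum over the links -/
def four {C K : ℕ} (φ : (ℕ → Finset ℕ) → (ℕ → List ℕ) → k) (Js : ℕ → Finset ℕ) : k :=
  φ Js (Lb C K) + (if 0 ∈ Js C then φ (J1 C Js) (L1 (Lb C K)) else 0) +
    (if K ∈ Js 1 then φ (J2 K Js) (L2 C K (Lb C K)) else 0) +
    (if 0 ∈ Js C ∧ K ∈ Js 1 then φ (J2 K (J1 C Js)) (L2 C K (L1 (Lb C K))) else 0)

lemma LG_Lb (hRD : StmRD) {C g K : ℕ} (hCg : C < g) (hK : 2 ≤ K) :
    (List.range (g * (K - 1) + C + 1)).Perm (LG g (Lb C K) (List.range g)) := by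
  have h := hRD.2.1 g (g * (K - 1) + C + 1) (by omega)
  refine h.trans (List.Perm.of_eq ?_)
  unfold LG
  apply List.flatMap_congr
  intro ρ hρ
  rw [List.mem_range] at hρ
  congr 1
  unfold Lb nr
  have e := gK (g := g) hK
  show List.range ((g * (K - 1) + C + 1 + g - 1 - ρ) / g) = _
  congr 1
  split_ifs with h1
  · have h2 : g * (K - 1) + C + 1 + g - 1 - ρ = (C - ρ) + g * K := by omega
    rw [h2, Nat.add_mul_div_left _ _ (by omega), Nat.div_eq_of_lt (by omega), zero_add]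
  · have h2 : g * (K - 1) + C + 1 + g - 1 - ρ = (C + g - ρ) + g * (K - 1) := by omega
    rw [h2, Nat.add_mul_div_left _ _ (by omega), Nat.div_eq_of_lt (by omega), zero_add]

lemma nodup_Lb {C K ρ : ℕ} : (Lb C K ρ).Nodup := List.nodup_range

lemma nodup_L1 {C K ρ : ℕ} : (L1 (Lb C K) ρ).Nodup := by
  unfold L1
  split_ifs
  · exact nodup_Lb.erase _
  · exact nodup_Lb

lemma nodup_L2 {C K ρ : ℕ} : (L2 C K (Lb C K) ρ).Nodup := by
  unfold L2
  split_ifs
  · exact nodup_Lb.erase _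
  · exact nodup_Lb

lemma nodup_L12 {C K ρ : ℕ} : (L2 C K (L1 (Lb C K)) ρ).Nodup := by
  unfold L2
  split_ifs
  · exact nodup_L1.erase _
  · exact nodup_L1

section expand

variable {C g K : ℕ} (hC : 2 ≤ C) (hCg : C < g) (hK : 2 ≤ K)

include hC hCg hK

lemma JG1 (hRD : StmRD) (Js : ℕ → Finset ℕ) :
    (JG g C Js (List.range g)).erase 0 = JG g C (J1 C Js) (List.range g) := by
  have h := hRD.2.2.1 g C Js (J1 C Js) C 0 (List.range g) hCg (fun ρ hρ => List.mem_range.1 hρ)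
    List.nodup_range (List.mem_range.2 hCg) (if_pos rfl) (fun ρ hρ => if_neg hρ)
  have e : cc g C C + g * 0 = 0 := by
    unfold cc
    rw [if_pos le_rfl]
    omega
  rw [e] at h
  exact h

lemma JG2 (hRD : StmRD) (Js : ℕ → Finset ℕ) :
    (JG g C Js (List.range g)).erase (g * K + C - 1) = JG g C (J2 K Js) (List.range g) := by
  have h := hRD.2.2.1 g C Js (J2 K Js) 1 K (List.range g) hCg (fun ρ hρ => List.mem_range.1 hρ)
    List.nodup_range (List.mem_range.2 (by omega)) (if_pos rfl) (fun ρ hρ => if_neg hρ)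
  have e : cc g C 1 + g * K = g * K + C - 1 := by
    unfold cc
    rw [if_pos (by omega)]
    omega
  rw [e] at h
  exact h

lemma LG1 (hRD : StmRD) : ((LG g (Lb C K) (List.range g)).erase 0).Perm
    (LG g (L1 (Lb C K)) (List.range g)) := by
  have h := hRD.2.2.2 g (Lb C K) (L1 (Lb C K)) 0 0 (List.range g)
    (fun ρ hρ => List.mem_range.1 hρ) List.nodup_range (List.mem_range.2 (by omega))
    (fun ρ _ => nodup_Lb) (if_pos rfl) (fun ρ hρ => if_neg hρ)
  rw [mul_zero, add_zero] at h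
  exact h

lemma LG2 (hRD : StmRD) (Ls : ℕ → List ℕ) (hLs : ∀ ρ, (Ls ρ).Nodup) :
    ((LG g Ls (List.range g)).erase (g * (K - 1) + C)).Perm
    (LG g (L2 C K Ls) (List.range g)) := by
  have h := hRD.2.2.2 g Ls (L2 C K Ls) C (K - 1) (List.range g)
    (fun ρ hρ => List.mem_range.1 hρ) List.nodup_range (List.mem_range.2 hCg)
    (fun ρ _ => hLs ρ) (if_pos rfl) (fun ρ hρ => if_neg hρ)
  rw [add_comm C] at h
  exact h

/-- the expansion of the permanents and of the derivatives -/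
lemma expand (hLK : StmLK k) (hRD : StmRD) (y : ℕ → k) (Js : ℕ → Finset ℕ)
    (hJs : ∀ ρ < g, ∀ l ∈ Js ρ, l < nc C K ρ) :
    pm (qB2 k C g K) (JG g C Js (List.range g)) (List.range (g * (K - 1) + C + 1)) =
      four (C := C) (K := K) (fun Js Ls => pm (cst g C (uX k K)) (JG g C Js (List.range g))
        (LG g Ls (List.range g))) Js ∧
    pd (qB2 k C g K) y (JG g C Js (List.range g)) (List.range (g * (K - 1) + C + 1)) =
      four (C := C) (K := K) (fun Js Ls => pd (cst g C (uX k K)) y (JG g C Js (List.range g))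
        (LG g Ls (List.range g))) Js := by
  have e1 := gK (g := g) hK
  have e2 := g2K (g := g) hK
  have hg1 : g * 1 ≤ g * (K - 1) := Nat.mul_le_mul_left g (by omega)
  obtain ⟨L, hLdef⟩ : ∃ L, L = List.range (g * (K - 1) + C + 1) := ⟨_, rfl⟩
  obtain ⟨J, hJdef⟩ : ∃ J, J = JG g C Js (List.range g) := ⟨_, rfl⟩
  have hx0 : cst g C (uX k K) 0 = 0 := by
    unfold cst
    rw [if_neg]
    rw [Nat.zero_mod]
    omega
  have hz : cst g C (uX k K) (g * K + C - 1 + (g * (K - 1) + C)) = 0 := by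
    unfold cst
    rw [if_neg]
    intro h
    by_cases h3 : 2 * C - 1 < g
    · have h2 : g * K + C - 1 + (g * (K - 1) + C) = (2 * C - 1) + g * (2 * K - 1) := by omega
      rw [h2, Nat.add_mul_mod_self_left, Nat.mod_eq_of_lt h3] at h
      omega
    · have h4 : g * (2 * K) = g * (2 * K - 1) + g := by
        rw [← Nat.mul_succ]
        congr 1
        omega
      have h2 : g * K + C - 1 + (g * (K - 1) + C) = (2 * C - 1 - g) + g * (2 * K) := by omega
      rw [h2, Nat.add_mul_mod_self_left, Nat.mod_eq_of_lt (by omega)] at h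
      omega
  have hperm0 : L.Perm (LG g (Lb C K) (List.range g)) := by
    rw [hLdef]
    exact LG_Lb hRD hCg hK
  have hperm1 : (L.erase 0).Perm (LG g (L1 (Lb C K)) (List.range g)) :=
    (hperm0.erase 0).trans (LG1 hC hCg hK hRD)
  have hperm2 : (L.erase (g * (K - 1) + C)).Perm (LG g (L2 C K (Lb C K)) (List.range g)) :=
    (hperm0.erase _).trans (LG2 hC hCg hK hRD _ fun ρ => nodup_Lb)
  have hperm3 : ((L.erase 0).erase (g * (K - 1) + C)).Perm
      (LG g (L2 C K (L1 (Lb C K))) (List.range g)) :=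
    (hperm1.erase _).trans (LG2 hC hCg hK hRD _ fun ρ => nodup_L1)
  have hm0 : 0 ∈ J ↔ 0 ∈ Js C := by
    have h := mem_JG' hCg (Js := Js) hCg 0
    have e : cc g C C + g * 0 = 0 := by
      unfold cc
      rw [if_pos le_rfl]
      omega
    rw [e] at h
    rw [hJdef]
    exact h
  have hm1 : g * K + C - 1 ∈ J ↔ K ∈ Js 1 := by
    have h := mem_JG' hCg (Js := Js) (show 1 < g by omega) K
    have e : cc g C 1 + g * K = g * K + C - 1 := by
      unfold cc
      rw [if_pos (by omega)]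
      omega
    rw [e] at h
    rw [hJdef]
    exact h
  have hJ2 : (JG g C (J1 C Js) (List.range g)).erase (g * K + C - 1) =
      JG g C (J2 K (J1 C Js)) (List.range g) := JG2 hC hCg hK hRD _
  obtain ⟨t1, t2⟩ := two_links hLK (cst g C (uX k K))
    (fun v => if v = 0 then 1 else cst g C (uX k K) v) (qB2 k C g K) y
    (g * K + C - 1 + (g * (K - 1) + C)) (g * K + C - 1) (g * (K - 1) + C) rfl
    (fun v hv => if_neg hv) (by simp only [if_true]; rw [hx0, sub_zero])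
    (by
      intro v hv
      unfold qB2
      by_cases hv0 : v = 0
      · rw [if_pos (Or.inl hv0), if_pos hv0]
      · rw [if_neg, if_neg hv0]
        rintro (h | h)
        · exact hv0 h
        · omega)
    (by
      unfold qB2
      rw [if_pos (Or.inr (by omega)), if_neg (by omega), hz, sub_zero])
    J L (by rw [hLdef]; exact List.nodup_range)
    (by
      intro j hj
      rw [hJdef, mem_JG] at hj
      obtain ⟨ρ, hρ, l, hl, rfl⟩ := hj
      rw [List.mem_range] at hρ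
      have := (long_iff hCg hK hρ l).2 (hJs ρ hρ l hl)
      omega)
    (by
      intro c hc
      rw [hLdef, List.mem_range] at hc
      omega)
    (by rw [hLdef, List.mem_range]; omega) (by rw [hLdef, List.mem_range]; omega) (by omega)
    (by omega)
  rw [if_congr hm0 rfl rfl, if_congr hm1 rfl rfl, if_congr (and_congr hm0 hm1) rfl rfl] at t1 t2
  rw [hJdef, JG1 hC hCg hK hRD, JG2 hC hCg hK hRD, hJ2] at t1 t2
  rw [(BA.ta k).1 _ _ _ hperm0, (BA.ta k).1 _ _ _ hperm1, (BA.ta k).1 _ _ _ hperm2,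
    (BA.ta k).1 _ _ _ hperm3] at t1
  rw [(BA.ta k).2.1 _ _ _ _ hperm0, (BA.ta k).2.1 _ _ _ _ hperm1, (BA.ta k).2.1 _ _ _ _ hperm2,
    (BA.ta k).2.1 _ _ _ _ hperm3] at t2
  rw [(BA.ta k).1 _ _ _ (LG_Lb hRD hCg hK), (BA.ta k).2.1 _ _ _ _ (LG_Lb hRD hCg hK)]
  rw [(BA.ta k).1 _ _ _ hperm0] at t1
  rw [(BA.ta k).2.1 _ _ _ _ hperm0] at t2
  exact ⟨t1, t2⟩

omit hC hK in
lemma pm_prod (Js : ℕ → Finset ℕ) (Ls : ℕ → List ℕ) :
    pm (cst g C (uX k K)) (JG g C Js (List.range g)) (LG g Ls (List.range g)) =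
      ∏ ρ ∈ range g, P k C K ρ (Js ρ) (Ls ρ) := by
  have h := (ra k g C (uX k K) hCg Js Ls (List.range g) [] (by simpa using List.nodup_range)
    (by simp)).2.2.2.2.2.2
  rw [toFinset_range] at h
  exact h

omit hC hK in
lemma card_JG (Js : ℕ → Finset ℕ) :
    (JG g C Js (List.range g)).card = ∑ ρ ∈ range g, (Js ρ).card := by
  have h := (ra ℚ g C (fun _ => 0) hCg Js (fun _ => []) (List.range g) []
    (by simpa using List.nodup_range) (by simp)).2.2.2.1
  rw [toFinset_range] at h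
  exact h

omit hC hK in
lemma length_LG (Ls : ℕ → List ℕ) :
    (LG g Ls (List.range g)).length = ∑ ρ ∈ range g, (Ls ρ).length := by
  have h := (ra ℚ g C (fun _ => 0) hCg (fun _ => ∅) Ls (List.range g) []
    (by simpa using List.nodup_range) (by simp)).2.2.2.2.1
  rw [toFinset_range] at h
  exact h

end expand

section member

variable {C g K : ℕ} (hC : 2 ≤ C) (hCg : C < g) (hK : 2 ≤ K)

include hC hCg hK

lemma mem0 (Js : ℕ → Finset ℕ) (Ls : ℕ → List ℕ)
    (hcard : (JG g C Js (List.range g)).card = (LG g Ls (List.range g)).length)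
    {z : ℕ} (hzg : z < g) (hz : (Js z).card = (Ls z).length → P k C K z (Js z) (Ls z) = 0) :
    pm (cst g C (uX k K)) (JG g C Js (List.range g)) (LG g Ls (List.range g)) = 0 := by
  rw [pm_prod hCg]
  rw [card_JG hCg, length_LG hCg] at hcard
  by_cases h : ∀ ρ ∈ range g, (Ls ρ).length ≤ (Js ρ).card
  · have h2 := (Finset.sum_eq_sum_iff_of_le h).1 hcard.symm
    exact prod_eq_zero (mem_range.2 hzg) (hz (h2 z (mem_range.2 hzg)).symm)
  · push Not at h
    obtain ⟨ρ, hρ, h⟩ := h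
    exact prod_eq_zero hρ ((BA.ta k).2.2 _ _ _ h)

lemma member (hLK : StmLK k) (hRD : StmRD) :
    Vt (g * K + C) (g * (K - 1) + C + 1) (qB2 k C g K) := by
  intro J hJcard hJn
  obtain ⟨Js, hJs⟩ : ∃ Js : ℕ → Finset ℕ, Js = fun ρ =>
    (J.filter fun j => j % g = cc g C ρ).image fun j => j / g := ⟨_, rfl⟩
  have hJ : J = JG g C Js (List.range g) := by
    rw [hJs]
    exact hRD.1 g C hCg J
  have hlt : ∀ ρ < g, ∀ l ∈ Js ρ, l < nc C K ρ := by
    intro ρ hρ l hl
    rw [hJs] at hl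
    simp only [mem_image, mem_filter] at hl
    obtain ⟨j, ⟨hj, hjρ⟩, rfl⟩ := hl
    rw [← long_iff hCg hK hρ, ← hjρ, Nat.mod_add_div]
    exact hJn j hj
  have hlen : ∀ {Ls : ℕ → List ℕ} {L : List ℕ}, L.Perm (LG g Ls (List.range g)) →
      (LG g Ls (List.range g)).length = L.length := fun h => h.length_eq.symm
  have hperm0 := LG_Lb hRD hCg hK
  have hl0 : (LG g (Lb C K) (List.range g)).length = g * (K - 1) + C + 1 := by
    rw [hlen hperm0, List.length_range]
  have hl1 : (LG g (L1 (Lb C K)) (List.range g)).length = g * (K - 1) + C := by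
    rw [hlen ((hperm0.erase 0).trans (LG1 hC hCg hK hRD)),
      List.length_erase_of_mem (List.mem_range.2 (by omega)), List.length_range]
    omega
  have hl2 : (LG g (L2 C K (Lb C K)) (List.range g)).length = g * (K - 1) + C := by
    rw [hlen ((hperm0.erase _).trans (LG2 hC hCg hK hRD _ fun ρ => nodup_Lb)),
      List.length_erase_of_mem (List.mem_range.2 (by omega)), List.length_range]
    omega
  have hl3 : (LG g (L2 C K (L1 (Lb C K))) (List.range g)).length = g * (K - 1) + C - 1 := by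
    have h1 : (g * (K - 1) + C) ∈ (List.range (g * (K - 1) + C + 1)).erase 0 := by
      rw [List.mem_erase_of_ne (by omega)]
      exact List.mem_range.2 (by omega)
    rw [hlen ((((hperm0.erase 0).trans (LG1 hC hCg hK hRD)).erase _).trans
      (LG2 hC hCg hK hRD _ fun ρ => nodup_L1)), List.length_erase_of_mem h1,
      List.length_erase_of_mem (List.mem_range.2 (by omega)), List.length_range]
    omega
  have hm0 : 0 ∈ J ↔ 0 ∈ Js C := by
    have h := mem_JG' hCg (Js := Js) hCg 0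
    have e : cc g C C + g * 0 = 0 := by
      unfold cc
      rw [if_pos le_rfl]
      omega
    rw [e, ← hJ] at h
    exact h
  have hm1 : g * K + C - 1 ∈ J ↔ K ∈ Js 1 := by
    have h := mem_JG' hCg (Js := Js) (show 1 < g by omega) K
    have e : cc g C 1 + g * K = g * K + C - 1 := by
      unfold cc
      rw [if_pos (by omega)]
      omega
    rw [e, ← hJ] at h
    exact h
  have h0 : ∀ J' : Finset ℕ, (∀ l ∈ J', l < nc C K 0) → J'.card = (Lb C K 0).length →
      P k C K 0 J' (Lb C K 0) = 0 := by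
    intro J' h1 h2
    have h3 : Lb C K 0 = List.range K := by
      unfold Lb nr
      rw [if_pos (Nat.zero_le _)]
    rw [h3, List.length_range] at h2
    rw [h3, eq_range h2 (fun l hl => by
      have := h1 l hl
      unfold nc at this
      rwa [if_pos rfl] at this)]
    exact v2 hK (Nat.zero_le _)
  have key := (expand hC hCg hK hLK hRD (qB2 k C g K) Js hlt).1
  rw [← hJ] at key
  rw [key]
  unfold four
  have t0 : pm (cst g C (uX k K)) (JG g C Js (List.range g)) (LG g (Lb C K) (List.range g)) =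
      0 := by
    refine mem0 hC hCg hK _ _ (by rw [← hJ, hl0, hJcard]) (show 0 < g by omega) ?_
    exact h0 _ (hlt 0 (by omega))
  have t1 : 0 ∈ Js C → pm (cst g C (uX k K)) (JG g C (J1 C Js) (List.range g))
      (LG g (L1 (Lb C K)) (List.range g)) = 0 := by
    intro hmem
    refine mem0 hC hCg hK _ _ ?_ hCg ?_
    · rw [← JG1 hC hCg hK hRD, ← hJ, hl1, card_erase_of_mem (hm0.2 hmem), hJcard]
      omega
    · have e1 : J1 C Js C = (Js C).erase 0 := if_pos rfl
      have e2 : L1 (Lb C K) C = List.range K := by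
        unfold L1 Lb nr
        rw [if_neg (by omega), if_pos le_rfl]
      rw [e1, e2, List.length_range]
      intro h1
      have h2 : (Js C).erase 0 = (range (K + 1)).erase 0 := by
        apply Finset.eq_of_subset_of_card_le
        · intro l hl
          rw [mem_erase] at hl ⊢
          refine ⟨hl.1, mem_range.2 ?_⟩
          have := hlt C hCg l hl.2
          unfold nc at this
          rwa [if_neg (by omega), if_pos le_rfl] at this
        · rw [h1, card_erase_of_mem (mem_range.2 (by omega)), card_range]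
          omega
      rw [h2, v3 hK le_rfl (by omega)]
      unfold aa
      rw [if_pos (Or.inl rfl)]
  have t2 : K ∈ Js 1 → pm (cst g C (uX k K)) (JG g C (J2 K Js) (List.range g))
      (LG g (L2 C K (Lb C K)) (List.range g)) = 0 := by
    intro hmem
    refine mem0 hC hCg hK _ _ ?_ (show 0 < g by omega) ?_
    · rw [← JG2 hC hCg hK hRD, ← hJ, hl2, card_erase_of_mem (hm1.2 hmem), hJcard]
      omega
    · have e1 : J2 K Js 0 = Js 0 := if_neg (by omega)
      have e2 : L2 C K (Lb C K) 0 = Lb C K 0 := if_neg (by omega)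
      rw [e1, e2]
      exact h0 _ (hlt 0 (by omega))
  have t3 : 0 ∈ Js C ∧ K ∈ Js 1 → pm (cst g C (uX k K)) (JG g C (J2 K (J1 C Js)) (List.range g))
      (LG g (L2 C K (L1 (Lb C K))) (List.range g)) = 0 := by
    rintro ⟨hmem, hmem2⟩
    refine mem0 hC hCg hK _ _ ?_ (show 1 < g by omega) ?_
    · rw [← JG2 hC hCg hK hRD, ← JG1 hC hCg hK hRD, ← hJ, hl3,
        card_erase_of_mem (mem_erase.2 ⟨?_, hm1.2 hmem2⟩), card_erase_of_mem (hm0.2 hmem), hJcard]
      · omega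
      · have := Nat.mul_le_mul_left g (show 1 ≤ K by omega)
        omega
    · have e1 : J2 K (J1 C Js) 1 = (Js 1).erase K := by
        unfold J2 J1
        rw [if_pos rfl, if_neg (by omega)]
      have e2 : L2 C K (L1 (Lb C K)) 1 = List.range K := by
        unfold L2 L1 Lb nr
        rw [if_neg (by omega), if_neg (by omega), if_pos (by omega)]
      rw [e1, e2, List.length_range]
      intro h1
      rw [eq_range h1 (fun l hl => by
        rw [mem_erase] at hl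
        have := hlt 1 (by omega) l hl.2
        unfold nc at this
        rw [if_neg (by omega), if_pos (by omega)] at this
        omega)]
      exact v2 hK (by omega)
  have hif : ∀ {p : Prop} [Decidable p] {z : k}, (p → z = 0) → (if p then z else 0) = 0 := by
    intro p _ z h
    split_ifs with hp
    · exact h hp
    · rfl
  simp only []
  rw [t0, hif t1, hif t2, hif t3]
  ring

end member

/-! ### the tangent vectors -/

/-- the deleted column -/
def dl (C l₀ l₁ l₂ ρ : ℕ) : ℕ :=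
  if ρ = 0 then l₀ else if ρ = C then l₁ else if ρ = 1 then l₂ else if ρ < C then 1 else 0

/-- the long indices, if the block `s` is the sink -/
def Jb (C K s l₀ l₁ l₂ ρ : ℕ) : Finset ℕ :=
  if ρ = s then range (nc C K ρ) else (range (nc C K ρ)).erase (dl C l₀ l₁ l₂ ρ)

/-- the other blocks -/
def Fo (g C s : ℕ) : Finset ℕ := (range g).filter fun ρ => ρ ≠ 0 ∧ ρ ≠ 1 ∧ ρ ≠ C ∧ ρ ≠ s

/-- the product over the other blocks -/
def Ro (k : Type*) [Field k] (g C s : ℕ) : k := ∏ ρ ∈ Fo g C s, if ρ < C then 2 else 1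

lemma Ro_ne (hk : (2 : k) ≠ 0) (g C s : ℕ) : Ro k g C s ≠ 0 := by
  unfold Ro
  rw [prod_ne_zero_iff]
  intro ρ _
  split_ifs
  · exact hk
  · exact one_ne_zero

lemma prod_two {T F : Finset ℕ} {a b : ℕ} (hab : a ≠ b) (ha : a ∉ F) (hb : b ∉ F)
    (hT : ∀ ρ, ρ ∈ T ↔ ρ = a ∨ ρ = b ∨ ρ ∈ F) (q : ℕ → k) :
    ∏ ρ ∈ T, q ρ = q a * q b * ∏ ρ ∈ F, q ρ := by
  have e : T = insert a (insert b F) := by
    ext ρ
    rw [hT, mem_insert, mem_insert]
  rw [e, prod_insert (by rw [mem_insert]; tauto), prod_insert hb, mul_assoc]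

lemma prod_one {T F : Finset ℕ} {a : ℕ} (ha : a ∉ F)
    (hT : ∀ ρ, ρ ∈ T ↔ ρ = a ∨ ρ ∈ F) (q : ℕ → k) :
    ∏ ρ ∈ T, q ρ = q a * ∏ ρ ∈ F, q ρ := by
  have e : T = insert a F := by
    ext ρ
    rw [hT, mem_insert]
  rw [e, prod_insert ha]

lemma J1_C {C : ℕ} {Js : ℕ → Finset ℕ} : J1 C Js C = (Js C).erase 0 := if_pos rfl

lemma J1_ne {C ρ : ℕ} {Js : ℕ → Finset ℕ} (h : ρ ≠ C) : J1 C Js ρ = Js ρ := if_neg h

lemma L1_0 {Ls : ℕ → List ℕ} : L1 Ls 0 = (Ls 0).erase 0 := if_pos rfl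

lemma L1_ne {ρ : ℕ} {Ls : ℕ → List ℕ} (h : ρ ≠ 0) : L1 Ls ρ = Ls ρ := if_neg h

lemma J2_1 {K : ℕ} {Js : ℕ → Finset ℕ} : J2 K Js 1 = (Js 1).erase K := if_pos rfl

lemma J2_ne {K ρ : ℕ} {Js : ℕ → Finset ℕ} (h : ρ ≠ 1) : J2 K Js ρ = Js ρ := if_neg h

lemma L2_C {C K : ℕ} {Ls : ℕ → List ℕ} : L2 C K Ls C = (Ls C).erase (K - 1) := if_pos rfl

lemma L2_ne {C K ρ : ℕ} {Ls : ℕ → List ℕ} (h : ρ ≠ C) : L2 C K Ls ρ = Ls ρ := if_neg h

lemma Lb_le {C K ρ : ℕ} (h : ρ ≤ C) : Lb C K ρ = List.range K := by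
  unfold Lb nr
  rw [if_pos h]

section tan

variable {C g K s l₀ l₁ l₂ : ℕ}

lemma Jb_sink : Jb C K s l₀ l₁ l₂ s = range (nc C K s) := if_pos rfl

lemma Jb_0 (h : s ≠ 0) : Jb C K s l₀ l₁ l₂ 0 = (range K).erase l₀ := by
  unfold Jb dl nc
  rw [if_neg h.symm, if_pos rfl, if_pos rfl]

lemma Jb_C (h0 : C ≠ 0) (h : s ≠ C) : Jb C K s l₀ l₁ l₂ C = (range (K + 1)).erase l₁ := by
  unfold Jb dl nc
  rw [if_neg h.symm, if_neg h0, if_pos le_rfl, if_neg h0, if_pos rfl]

lemma Jb_1 (h0 : 2 ≤ C) (h : s ≠ 1) : Jb C K s l₀ l₁ l₂ 1 = (range (K + 1)).erase l₂ := by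
  unfold Jb dl nc
  rw [if_neg h.symm, if_neg one_ne_zero, if_pos (by omega), if_neg one_ne_zero,
    if_neg (by omega), if_pos rfl]

lemma nc_0 : nc C K 0 = K := if_pos rfl

lemma nc_C (h0 : C ≠ 0) : nc C K C = K + 1 := by
  unfold nc
  rw [if_neg h0, if_pos le_rfl]

lemma nc_1 (h0 : 2 ≤ C) : nc C K 1 = K + 1 := by
  unfold nc
  rw [if_neg one_ne_zero, if_pos (by omega)]

lemma nc_eq (hK : 2 ≤ K) {ρ : ℕ} (h : ρ ≠ 0) : nc C K ρ = nr C K ρ + 1 := by
  unfold nc nr
  rw [if_neg h]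
  split_ifs <;> omega

lemma card_Jb_o (hK : 2 ≤ K) {ρ : ℕ} (h0 : ρ ≠ 0) (h1 : ρ ≠ 1) (hC : ρ ≠ C) (hs : ρ ≠ s) :
    (Jb C K s l₀ l₁ l₂ ρ).card = (Lb C K ρ).length := by
  have e1 := nc_eq (C := C) hK h0
  have e2 : dl C l₀ l₁ l₂ ρ < nc C K ρ := by
    unfold dl nc
    rw [if_neg h0, if_neg hC, if_neg h1, if_neg h0]
    split_ifs <;> omega
  unfold Jb Lb
  rw [if_neg hs, card_erase_of_mem (mem_range.2 e2), card_range, List.length_range]
  omega

lemma P_Jb_o (hK : 2 ≤ K) {ρ : ℕ} (h0 : ρ ≠ 0) (h1 : ρ ≠ 1) (hC : ρ ≠ C) (hs : ρ ≠ s) :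
    P k C K ρ (Jb C K s l₀ l₁ l₂ ρ) (Lb C K ρ) = if ρ < C then 2 else 1 := by
  unfold Jb Lb nr nc dl
  rw [if_neg hs, if_neg h0, if_neg h0, if_neg hC, if_neg h1]
  by_cases h : ρ < C
  · rw [if_pos h, if_pos h.le, if_pos h.le, if_pos h, v3 hK h.le (by omega)]
    unfold aa
    rw [if_neg (by omega)]
  · rw [if_neg h, if_neg (by omega), if_neg (by omega), if_neg h, v6 hK (by omega) (by omega)]

/-- the sums over the sink -/
def W (g C K s : ℕ) (y : ℕ → k) (h i : ℕ) : k :=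
  ∑ l ∈ range (nc C K s), y (h + g * i + (cc g C s + g * l)) *
    P k C K s ((range (nc C K s)).erase l) (Lb C K s)

def X0 (K : ℕ) (w : ℕ → k) (l : ℕ) : k := ∑ i ∈ range K, w i * ee K i l

def X1 (K : ℕ) (w : ℕ → k) (l : ℕ) : k :=
  if l = 0 then 0 else ∑ i ∈ range K, w i * ff K i (l - 1)

def X2 (K : ℕ) (w : ℕ → k) (l : ℕ) : k := if l = K then 0 else ∑ i ∈ range K, w i * ee K i l

def b1 (k : Type*) [Field k] (l : ℕ) : k := if l = 0 then 0 else 1

lemma T_ds (hRF : StmRF k) (hCg : C < g) (y : ℕ → k) (Js : ℕ → Finset ℕ) (Ls : ℕ → List ℕ)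
    (hL : ∀ ρ, (Ls ρ).Nodup) {ρ₁ ρ₂ : ℕ} (h1 : ρ₁ < g) (h2 : ρ₂ < g) (hne : ρ₁ ≠ ρ₂)
    (hc1 : (Js ρ₁).card + 1 = (Ls ρ₁).length) (hc2 : (Js ρ₂).card = (Ls ρ₂).length + 1)
    (hc : ∀ ρ < g, ρ ≠ ρ₁ → ρ ≠ ρ₂ → (Js ρ).card = (Ls ρ).length) :
    pd (cst g C (uX k K)) y (JG g C Js (List.range g)) (LG g Ls (List.range g)) =
      (∑ i ∈ (Ls ρ₁).toFinset, (∑ l ∈ Js ρ₂, y (ρ₁ + g * i + (cc g C ρ₂ + g * l)) *
        P k C K ρ₂ ((Js ρ₂).erase l) (Ls ρ₂)) * P k C K ρ₁ (Js ρ₁) ((Ls ρ₁).erase i)) *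
      ∏ ρ ∈ ((range g).erase ρ₁).erase ρ₂, P k C K ρ (Js ρ) (Ls ρ) := by
  have h := (hRF g C (uX k K) y hCg Js Ls (List.range g) List.nodup_range
    (fun ρ hρ => List.mem_range.1 hρ) (fun ρ _ => hL ρ)).2.2.1 ρ₁ (List.mem_range.2 h1) ρ₂
    (List.mem_range.2 h2) hne hc1 hc2 (fun ρ hρ => hc ρ (List.mem_range.1 hρ))
  rw [toFinset_range] at h
  rw [h]
  congr 1
  apply Finset.sum_congr rfl
  intro i _
  rw [Finset.sum_mul]
  apply Finset.sum_congr rfl
  intro l _
  unfold P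
  ring

lemma T_pr (hRF : StmRF k) (hCg : C < g) (y : ℕ → k) (Js : ℕ → Finset ℕ) (Ls : ℕ → List ℕ)
    (hL : ∀ ρ, (Ls ρ).Nodup) {z : ℕ} (hz : z < g)
    (hc : ∀ ρ < g, (Js ρ).card = (Ls ρ).length) (hP : P k C K z (Js z) (Ls z) = 0) :
    pd (cst g C (uX k K)) y (JG g C Js (List.range g)) (LG g Ls (List.range g)) =
      pd (fun s => uX k K (s + sh C z)) (fun s => y (C + g * (s + sh C z))) (Js z) (Ls z) *
      ∏ ρ ∈ (range g).erase z, P k C K ρ (Js ρ) (Ls ρ) := by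
  have h := (hRF g C (uX k K) y hCg Js Ls (List.range g) List.nodup_range
    (fun ρ hρ => List.mem_range.1 hρ) (fun ρ _ => hL ρ)).2.1
    (fun ρ hρ => hc ρ (List.mem_range.1 hρ))
  rw [toFinset_range] at h
  rw [h, Finset.sum_eq_single_of_mem z (mem_range.2 hz)]
  · rfl
  · intro ρ hρ hne
    rw [prod_eq_zero (i := z) (mem_erase.2 ⟨hne.symm, mem_range.2 hz⟩) hP, mul_zero]

lemma T_two (hRF : StmRF k) (hCg : C < g) (y : ℕ → k) (Js : ℕ → Finset ℕ) (Ls : ℕ → List ℕ)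
    (hL : ∀ ρ, (Ls ρ).Nodup) {ρ₁ ρ₂ : ℕ} (h1 : ρ₁ < g) (h2 : ρ₂ < g) (hne : ρ₁ ≠ ρ₂)
    (hc1 : (Js ρ₁).card < (Ls ρ₁).length) (hc2 : (Js ρ₂).card < (Ls ρ₂).length) :
    pd (cst g C (uX k K)) y (JG g C Js (List.range g)) (LG g Ls (List.range g)) = 0 :=
  (hRF g C (uX k K) y hCg Js Ls (List.range g) List.nodup_range
    (fun ρ hρ => List.mem_range.1 hρ) (fun ρ _ => hL ρ)).2.2.2.2
    ⟨ρ₁, List.mem_range.2 h1, ρ₂, List.mem_range.2 h2, hne, hc1, hc2⟩

variable (hRF : StmRF k) (hC : 2 ≤ C) (hCg : C < g) (hK : 2 ≤ K)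

lemma length_Lb_0 : (Lb C K 0).length = K := by
  rw [Lb_le (Nat.zero_le _), List.length_range]

lemma ee_0 {l : ℕ} (h : l < K) : (ee K 0 l : k) = 1 := by
  unfold ee
  rw [if_pos (by omega)]

lemma ff_last {l : ℕ} (h : 0 < K) : (ff K (K - 1) l : k) = 1 := by
  unfold ff
  rw [if_neg (by omega)]

/-- the values which do not depend on the case -/
lemma q0' (hK : 2 ≤ K) (hs0 : s ≠ 0) (h0 : l₀ < K) :
    P k C K 0 (Jb C K s l₀ l₁ l₂ 0) ((List.range K).erase 0) = 1 := by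
  rw [Jb_0 hs0, v1 hK (Nat.zero_le _) (by omega) h0, ee_0 h0]

lemma q1 (hC : 2 ≤ C) (hK : 2 ≤ K) (hs1 : s ≠ 1) (h2 : l₂ < K + 1) :
    P k C K 1 (Jb C K s l₀ l₁ l₂ 1) (List.range K) = aa K l₂ := by
  rw [Jb_1 hC hs1, v3 hK (by omega) h2]

lemma qC (hC : 2 ≤ C) (hK : 2 ≤ K) (hsC : s ≠ C) (h1 : l₁ < K + 1) :
    P k C K C (Jb C K s l₀ l₁ l₂ C) (List.range K) = aa K l₁ := by
  rw [Jb_C (by omega) hsC, v3 hK le_rfl h1]

lemma qC' (hC : 2 ≤ C) (hK : 2 ≤ K) (hsC : s ≠ C) (h1 : l₁ < K + 1) (h1' : l₁ ≠ 0) {i : ℕ}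
    (hi : i < K) :
    P k C K C ((Jb C K s l₀ l₁ l₂ C).erase 0) ((List.range K).erase i) = ff K i (l₁ - 1) := by
  obtain ⟨l, rfl⟩ : ∃ l, l₁ = l + 1 := ⟨l₁ - 1, by omega⟩
  rw [Jb_C (by omega) hsC, v5 hK le_rfl hi (by omega), Nat.add_sub_cancel]

lemma q1' (hC : 2 ≤ C) (hK : 2 ≤ K) (hs1 : s ≠ 1) (h2 : l₂ < K + 1) (h2' : l₂ ≠ K) {i : ℕ}
    (hi : i < K) :
    P k C K 1 ((Jb C K s l₀ l₁ l₂ 1).erase K) ((List.range K).erase i) = ee K i l₂ := by
  rw [Jb_1 hC hs1, erase_last (by omega), v1 hK (by omega) hi (by omega)]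

lemma cJ0 (hs0 : s ≠ 0) (h0 : l₀ < K) : (Jb C K s l₀ l₁ l₂ 0).card + 1 = K := by
  rw [Jb_0 hs0, card_erase_range h0]
  omega

lemma cJ0' : (Jb C K 0 l₀ l₁ l₂ 0).card = K := by
  rw [Jb_sink, card_range, nc_0]

lemma cJC (hC : 2 ≤ C) (hsC : s ≠ C) (h1 : l₁ < K + 1) : (Jb C K s l₀ l₁ l₂ C).card = K := by
  rw [Jb_C (by omega) hsC, card_erase_range h1, Nat.add_sub_cancel]

lemma cJCe (hC : 2 ≤ C) (hsC : s ≠ C) (h1 : l₁ < K + 1) (h1' : l₁ ≠ 0) :
    ((Jb C K s l₀ l₁ l₂ C).erase 0).card + 1 = K := by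
  have h := cJC (l₀ := l₀) (l₂ := l₂) hC hsC h1
  have h2 : 0 ∈ Jb C K s l₀ l₁ l₂ C := by
    rw [Jb_C (by omega) hsC, mem_erase, mem_range]
    exact ⟨h1'.symm, by omega⟩
  rw [card_erase_of_mem h2, h]
  have := card_pos.2 ⟨_, h2⟩
  omega

lemma cJ1 (hC : 2 ≤ C) (hs1 : s ≠ 1) (h2 : l₂ < K + 1) : (Jb C K s l₀ l₁ l₂ 1).card = K := by
  rw [Jb_1 hC hs1, card_erase_range h2, Nat.add_sub_cancel]

lemma cJ1e (hC : 2 ≤ C) (hs1 : s ≠ 1) (h2 : l₂ < K + 1) (h2' : l₂ ≠ K) :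
    ((Jb C K s l₀ l₁ l₂ 1).erase K).card + 1 = K := by
  have h := cJ1 (l₀ := l₀) (l₁ := l₁) hC hs1 h2
  have h3 : K ∈ Jb C K s l₀ l₁ l₂ 1 := by
    rw [Jb_1 hC hs1, mem_erase, mem_range]
    exact ⟨h2'.symm, by omega⟩
  rw [card_erase_of_mem h3, h]
  have := card_pos.2 ⟨_, h3⟩
  omega

lemma cJs (hK : 2 ≤ K) (hs0 : s ≠ 0) :
    (Jb C K s l₀ l₁ l₂ s).card = (Lb C K s).length + 1 := by
  rw [Jb_sink, card_range, nc_eq hK hs0]
  unfold Lb
  rw [List.length_range]

lemma mem0C (hC : 2 ≤ C) (hsC : s ≠ C) : 0 ∈ Jb C K s l₀ l₁ l₂ C ↔ l₁ ≠ 0 := by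
  rw [Jb_C (by omega) hsC, mem_erase, mem_range]
  omega

lemma memK1 (hC : 2 ≤ C) (hs1 : s ≠ 1) : K ∈ Jb C K s l₀ l₁ l₂ 1 ↔ l₂ ≠ K := by
  rw [Jb_1 hC hs1, mem_erase, mem_range]
  omega

/-- the product over the other blocks -/
lemma prod_Fo (hK : 2 ≤ K) {Js : ℕ → Finset ℕ} {Ls : ℕ → List ℕ}
    (hJ : ∀ ρ, ρ ≠ 1 → ρ ≠ C → Js ρ = Jb C K s l₀ l₁ l₂ ρ)
    (hL : ∀ ρ, ρ ≠ 0 → ρ ≠ C → Ls ρ = Lb C K ρ) :
    ∏ ρ ∈ Fo g C s, P k C K ρ (Js ρ) (Ls ρ) = Ro k g C s := by
  unfold Ro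
  apply prod_congr rfl
  intro ρ hρ
  unfold Fo at hρ
  rw [mem_filter] at hρ
  obtain ⟨-, h0, h1, hC, hs⟩ := hρ
  rw [hJ ρ h1 hC, hL ρ h0 hC]
  exact P_Jb_o hK h0 h1 hC hs

lemma G01 (hRF : StmRF k) (hC : 2 ≤ C) (hCg : C < g) (hK : 2 ≤ K) (hs0 : s ≠ 0) (hs1 : s ≠ 1)
    (h0 : l₀ < K) (h2 : l₂ < K + 1) (y : ℕ → k) (h2' : l₂ ≠ K) :
    pd (cst g C (uX k K)) y (JG g C (J2 K (Jb C K s l₀ l₁ l₂)) (List.range g))
      (LG g (L2 C K (Lb C K)) (List.range g)) = 0 := by
  refine T_two hRF hCg y _ _ (fun ρ => nodup_L2) (show 0 < g by omega) (show 1 < g by omega)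
    zero_ne_one ?_ ?_
  · rw [J2_ne zero_ne_one, L2_ne (by omega), length_Lb_0]
    have := cJ0 (C := C) (l₁ := l₁) (l₂ := l₂) hs0 h0
    omega
  · rw [J2_1, L2_ne (by omega), Lb_le (by omega), List.length_range]
    have := cJ1e (K := K) (l₀ := l₀) (l₁ := l₁) hC hs1 h2 h2'
    omega

section caseG

variable (hs : s < g) (hs0 : s ≠ 0) (hs1 : s ≠ 1) (hsC : s ≠ C) (h0 : l₀ < K) (h1 : l₁ < K + 1)
  (h2 : l₂ < K + 1) (y : ℕ → k)

include hRF hC hCg hK hs hs0 hs1 hsC h0 h1 h2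

lemma G00 : pd (cst g C (uX k K)) y (JG g C (Jb C K s l₀ l₁ l₂) (List.range g))
      (LG g (Lb C K) (List.range g)) =
    X0 K (W g C K s y 0) l₀ * (aa K l₂ * aa K l₁ * Ro k g C s) := by
  rw [T_ds hRF hCg y (Jb C K s l₀ l₁ l₂) (Lb C K) (fun ρ => nodup_Lb) (show 0 < g by omega) hs
    hs0.symm
    (by rw [length_Lb_0]; exact cJ0 hs0 h0) (cJs hK hs0) (by
      intro ρ _ hρ0 hρs
      by_cases hρ1 : ρ = 1
      · subst hρ1
        rw [cJ1 hC hs1 h2, Lb_le (by omega), List.length_range]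
      · by_cases hρC : ρ = C
        · subst hρC
          rw [cJC hC hsC h1, Lb_le le_rfl, List.length_range]
        · exact card_Jb_o hK hρ0 hρ1 hρC hρs)]
  congr 1
  · rw [Lb_le (Nat.zero_le _), toFinset_range]
    unfold X0 W
    apply Finset.sum_congr rfl
    intro i hi
    rw [mem_range] at hi
    rw [Jb_0 hs0, v1 hK (Nat.zero_le _) hi h0, Jb_sink]
  · rw [prod_two (F := Fo g C s) (a := 1) (b := C) (by omega) (by simp [Fo]) (by simp [Fo])
      (by intro ρ; simp only [mem_erase, mem_range, Fo, mem_filter]; omega),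
      prod_Fo hK (fun ρ _ _ => rfl) (fun ρ _ _ => rfl), Lb_le (show 1 ≤ C by omega),
      Lb_le (le_refl C), q1 hC hK hs1 h2, qC hC hK hsC h1]

lemma G10 (h1' : l₁ ≠ 0) :
    pd (cst g C (uX k K)) y (JG g C (J1 C (Jb C K s l₀ l₁ l₂)) (List.range g))
      (LG g (L1 (Lb C K)) (List.range g)) =
    X1 K (W g C K s y C) l₁ * (aa K l₂ * Ro k g C s) := by
  rw [T_ds hRF hCg y _ _ (fun ρ => nodup_L1) hCg hs hsC.symm
    (by rw [J1_C, L1_ne (by omega), Lb_le le_rfl, List.length_range]; exact cJCe hC hsC h1 h1')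
    (by rw [J1_ne hsC, L1_ne hs0]; exact cJs hK hs0) (by
      intro ρ _ hρC hρs
      rw [J1_ne hρC]
      by_cases hρ0 : ρ = 0
      · subst hρ0
        rw [L1_0, Lb_le (Nat.zero_le _), length_erase_range (by omega)]
        have := cJ0 (C := C) (l₁ := l₁) (l₂ := l₂) hs0 h0
        omega
      · rw [L1_ne hρ0]
        by_cases hρ1 : ρ = 1
        · subst hρ1
          rw [cJ1 hC hs1 h2, Lb_le (by omega), List.length_range]
        · exact card_Jb_o hK hρ0 hρ1 hρC hρs)]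
  congr 1
  · rw [L1_ne (by omega), Lb_le le_rfl, toFinset_range, J1_C, J1_ne hsC, L1_ne hs0]
    unfold X1 W
    rw [if_neg h1']
    apply Finset.sum_congr rfl
    intro i hi
    rw [mem_range] at hi
    rw [qC' hC hK hsC h1 h1' hi, Jb_sink]
  · rw [prod_two (F := Fo g C s) (a := 0) (b := 1) (by omega) (by simp [Fo]) (by simp [Fo])
      (by intro ρ; simp only [mem_erase, mem_range, Fo, mem_filter]; omega),
      prod_Fo hK (fun ρ _ h => J1_ne h) (fun ρ h _ => L1_ne h),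
      J1_ne (show 0 ≠ C by omega), L1_0, J1_ne (show 1 ≠ C by omega), L1_ne one_ne_zero,
      Lb_le (Nat.zero_le _), Lb_le (show 1 ≤ C by omega), q0' hK hs0 h0, q1 hC hK hs1 h2, one_mul]

lemma G11 (h1' : l₁ ≠ 0) (h2' : l₂ ≠ K) :
    pd (cst g C (uX k K)) y (JG g C (J2 K (J1 C (Jb C K s l₀ l₁ l₂))) (List.range g))
      (LG g (L2 C K (L1 (Lb C K))) (List.range g)) =
    X2 K (W g C K s y 1) l₂ * Ro k g C s := by
  have eC : L2 C K (L1 (Lb C K)) C = (List.range K).erase (K - 1) := by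
    rw [L2_C, L1_ne (by omega), Lb_le le_rfl]
  have e0 : L2 C K (L1 (Lb C K)) 0 = (List.range K).erase 0 := by
    rw [L2_ne (by omega), L1_0, Lb_le (Nat.zero_le _)]
  have e1 : L2 C K (L1 (Lb C K)) 1 = List.range K := by
    rw [L2_ne (by omega), L1_ne one_ne_zero, Lb_le (by omega)]
  have jC : J2 K (J1 C (Jb C K s l₀ l₁ l₂)) C = (Jb C K s l₀ l₁ l₂ C).erase 0 := by
    rw [J2_ne (by omega), J1_C]
  have j0 : J2 K (J1 C (Jb C K s l₀ l₁ l₂)) 0 = Jb C K s l₀ l₁ l₂ 0 := by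
    rw [J2_ne zero_ne_one, J1_ne (by omega)]
  have j1 : J2 K (J1 C (Jb C K s l₀ l₁ l₂)) 1 = (Jb C K s l₀ l₁ l₂ 1).erase K := by
    rw [J2_1, J1_ne (by omega)]
  have jo : ∀ ρ, ρ ≠ 1 → ρ ≠ C → J2 K (J1 C (Jb C K s l₀ l₁ l₂)) ρ = Jb C K s l₀ l₁ l₂ ρ := by
    intro ρ h h'
    rw [J2_ne h, J1_ne h']
  have eo : ∀ ρ, ρ ≠ 0 → ρ ≠ C → L2 C K (L1 (Lb C K)) ρ = Lb C K ρ := by
    intro ρ h h'
    rw [L2_ne h', L1_ne h]
  rw [T_ds hRF hCg y _ _ (fun ρ => nodup_L12) (show 1 < g by omega) hs hs1.symm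
    (by rw [j1, e1, List.length_range]; exact cJ1e hC hs1 h2 h2')
    (by rw [jo s hs1 hsC, eo s hs0 hsC]; exact cJs hK hs0) (by
      intro ρ _ hρ1 hρs
      by_cases hρ0 : ρ = 0
      · subst hρ0
        rw [j0, e0, length_erase_range (by omega)]
        have := cJ0 (C := C) (l₁ := l₁) (l₂ := l₂) hs0 h0
        omega
      · by_cases hρC : ρ = C
        · subst hρC
          rw [jC, eC, length_erase_range (by omega)]
          have := cJCe (K := K) (l₀ := l₀) (l₂ := l₂) hC hsC h1 h1'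
          omega
        · rw [jo ρ hρ1 hρC, eo ρ hρ0 hρC]
          exact card_Jb_o hK hρ0 hρ1 hρC hρs)]
  congr 1
  · rw [e1, toFinset_range, j1, jo s hs1 hsC, eo s hs0 hsC]
    unfold X2 W
    rw [if_neg h2']
    apply Finset.sum_congr rfl
    intro i hi
    rw [mem_range] at hi
    rw [q1' hC hK hs1 h2 h2' hi, Jb_sink]
  · rw [prod_two (F := Fo g C s) (a := 0) (b := C) (by omega) (by simp [Fo]) (by simp [Fo])
      (by intro ρ; simp only [mem_erase, mem_range, Fo, mem_filter]; omega),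
      prod_Fo hK jo eo, j0, e0, jC, eC, q0' hK hs0 h0, qC' hC hK hsC h1 h1' (by omega),
      ff_last (by omega), one_mul, one_mul]

end caseG

lemma cc_0 : cc g C 0 = C := if_pos (Nat.zero_le _)

lemma cc_C : cc g C C = 0 := by
  unfold cc
  rw [if_pos le_rfl, Nat.sub_self]

/-- the derivative of the square block -/
def dB (K g C : ℕ) (y : ℕ → k) : k := ∑ i ∈ range K, ∑ l ∈ range K,
  (if i + l < K then 1 else -1) * y (C + g * (i + l))

/-- the derivative of the shifted square block -/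
def dA (K g C : ℕ) (y : ℕ → k) : k := ∑ i ∈ range K, ∑ l ∈ range K,
  (if i + l + 1 < K then -1 else 1) * y (C + g * (i + l + 1))

lemma dB_eq (hK : 2 ≤ K) (y : ℕ → k) {ρ : ℕ} (hρ : ρ ≤ C) :
    pd (fun s => uX k K (s + sh C ρ)) (fun s => y (C + g * (s + sh C ρ))) (range K)
      (List.range K) = dB K g C y := by
  rw [bf k _ _ _ _ List.nodup_range, toFinset_range]
  unfold dB
  apply Finset.sum_congr rfl
  intro i hi
  apply Finset.sum_congr rfl
  intro l hl
  rw [mem_range] at hi hl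
  have h := v1 (k := k) hK hρ hi hl
  unfold P ee at h
  rw [h, sh_big hρ, add_zero, add_comm l i, mul_comm]

lemma dA_eq (hK : 2 ≤ K) (y : ℕ → k) {ρ : ℕ} (hρ : ρ ≤ C) :
    pd (fun s => uX k K (s + sh C ρ)) (fun s => y (C + g * (s + sh C ρ)))
      ((range (K + 1)).erase 0) (List.range K) = dA K g C y := by
  rw [bf k _ _ _ _ List.nodup_range, toFinset_range]
  unfold dA
  apply Finset.sum_congr rfl
  intro i hi
  have e : (range (K + 1)).erase 0 = (range K).image fun l => l + 1 := by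
    ext j
    simp only [mem_erase, mem_range, mem_image]
    constructor
    · rintro ⟨h1, h2⟩
      exact ⟨j - 1, by omega, by omega⟩
    · rintro ⟨l, h1, rfl⟩
      omega
  rw [show ∑ j ∈ (range (K + 1)).erase 0, y (C + g * (j + i + sh C ρ)) *
      pm (fun s => uX k K (s + sh C ρ)) (((range (K + 1)).erase 0).erase j)
        ((List.range K).erase i) = ∑ j ∈ (range K).image (fun l => l + 1),
      y (C + g * (j + i + sh C ρ)) *
      pm (fun s => uX k K (s + sh C ρ)) (((range (K + 1)).erase 0).erase j)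
        ((List.range K).erase i) from by rw [← e],
    Finset.sum_image (fun a _ b _ h => by omega)]
  apply Finset.sum_congr rfl
  intro l hl
  rw [mem_range] at hi hl
  have h := v5 (k := k) hK hρ hi hl
  unfold P ff at h
  rw [Finset.erase_right_comm, h, sh_big hρ, add_zero, mul_comm]
  congr 3
  ring

/-! case `s = 0` -/

section case0

variable (h1 : l₁ < K + 1) (h2 : l₂ < K + 1) (y : ℕ → k)

include hRF hC hCg hK h1 h2

lemma Z00 : pd (cst g C (uX k K)) y (JG g C (Jb C K 0 l₀ l₁ l₂) (List.range g))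
      (LG g (Lb C K) (List.range g)) = dB K g C y * (aa K l₂ * aa K l₁ * Ro k g C 0) := by
  have e0 : Jb C K 0 l₀ l₁ l₂ 0 = range K := by rw [Jb_sink, nc_0]
  have hC0 : (0 : ℕ) ≠ C := by omega
  rw [T_pr hRF hCg y (Jb C K 0 l₀ l₁ l₂) (Lb C K) (fun ρ => nodup_Lb) (show 0 < g by omega)
    (by
      intro ρ _
      by_cases hρ0 : ρ = 0
      · subst hρ0
        rw [cJ0', length_Lb_0]
      · by_cases hρ1 : ρ = 1
        · subst hρ1
          rw [cJ1 hC zero_ne_one h2, Lb_le (by omega), List.length_range]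
        · by_cases hρC : ρ = C
          · subst hρC
            rw [cJC hC hC0 h1, Lb_le le_rfl, List.length_range]
          · exact card_Jb_o hK hρ0 hρ1 hρC hρ0)
    (by rw [e0, Lb_le (Nat.zero_le _)]; exact v2 hK (Nat.zero_le _))]
  rw [e0, Lb_le (Nat.zero_le _), dB_eq hK y (Nat.zero_le _)]
  congr 1
  rw [prod_two (F := Fo g C 0) (a := 1) (b := C) (by omega) (by simp [Fo]) (by simp [Fo])
      (by intro ρ; simp only [mem_erase, mem_range, Fo, mem_filter]; omega),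
      prod_Fo hK (fun ρ _ _ => rfl) (fun ρ _ _ => rfl), Lb_le (show 1 ≤ C by omega),
      Lb_le (le_refl C), q1 hC hK zero_ne_one h2, qC hC hK hC0 h1]

lemma Z10 (h1' : l₁ ≠ 0) :
    pd (cst g C (uX k K)) y (JG g C (J1 C (Jb C K 0 l₀ l₁ l₂)) (List.range g))
      (LG g (L1 (Lb C K)) (List.range g)) =
    X1 K (fun i => ∑ l ∈ range K, y (C + g * i + (C + g * l))) l₁ * (aa K l₂ * Ro k g C 0) := by
  have e0 : Jb C K 0 l₀ l₁ l₂ 0 = range K := by rw [Jb_sink, nc_0]
  have hC0 : (0 : ℕ) ≠ C := by omega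
  rw [T_ds hRF hCg y _ _ (fun ρ => nodup_L1) hCg (show 0 < g by omega) hC0.symm
    (by rw [J1_C, L1_ne (by omega), Lb_le le_rfl, List.length_range]; exact cJCe hC hC0 h1 h1')
    (by
      rw [J1_ne hC0, L1_0, Lb_le (Nat.zero_le _), length_erase_range (by omega), e0, card_range]
      omega) (by
      intro ρ _ hρC hρ0
      rw [J1_ne hρC, L1_ne hρ0]
      by_cases hρ1 : ρ = 1
      · subst hρ1
        rw [cJ1 hC zero_ne_one h2, Lb_le (by omega), List.length_range]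
      · exact card_Jb_o hK hρ0 hρ1 hρC hρ0)]
  congr 1
  · rw [L1_ne (by omega), Lb_le le_rfl, toFinset_range, J1_C, J1_ne hC0, L1_0,
      Lb_le (Nat.zero_le _), e0, cc_0]
    unfold X1
    rw [if_neg h1']
    apply Finset.sum_congr rfl
    intro i hi
    rw [mem_range] at hi
    rw [qC' hC hK hC0 h1 h1' hi]
    congr 1
    apply Finset.sum_congr rfl
    intro l hl
    rw [v1 hK (Nat.zero_le _) (by omega) (mem_range.1 hl), ee_0 (mem_range.1 hl), mul_one]
  · rw [prod_one (F := Fo g C 0) (a := 1) (by simp [Fo])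
      (by intro ρ; simp only [mem_erase, mem_range, Fo, mem_filter]; omega),
      prod_Fo hK (fun ρ _ h => J1_ne h) (fun ρ h _ => L1_ne h),
      J1_ne (show 1 ≠ C by omega), L1_ne one_ne_zero,
      Lb_le (show 1 ≤ C by omega), q1 hC hK zero_ne_one h2]

lemma Z01 (h2' : l₂ ≠ K) :
    pd (cst g C (uX k K)) y (JG g C (J2 K (Jb C K 0 l₀ l₁ l₂)) (List.range g))
      (LG g (L2 C K (Lb C K)) (List.range g)) = 0 := by
  have e0 : Jb C K 0 l₀ l₁ l₂ 0 = range K := by rw [Jb_sink, nc_0]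
  have hC0 : (0 : ℕ) ≠ C := by omega
  rw [T_ds hRF hCg y _ _ (fun ρ => nodup_L2) (show 1 < g by omega) hCg (by omega)
    (by
      rw [J2_1, L2_ne (by omega), Lb_le (by omega), List.length_range]
      exact cJ1e hC zero_ne_one h2 h2')
    (by
      rw [J2_ne (by omega), L2_C, Lb_le le_rfl, length_erase_range (by omega), cJC hC hC0 h1]
      omega) (by
      intro ρ _ hρ1 hρC
      rw [J2_ne hρ1, L2_ne hρC]
      by_cases hρ0 : ρ = 0
      · subst hρ0
        rw [cJ0', length_Lb_0]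
      · exact card_Jb_o hK hρ0 hρ1 hρC hρ0)]
  rw [prod_eq_zero (i := 0) (mem_erase.2 ⟨hC0, mem_erase.2 ⟨zero_ne_one, mem_range.2 (by omega)⟩⟩)
    (by
      rw [J2_ne zero_ne_one, L2_ne hC0, e0, Lb_le (Nat.zero_le _)]
      exact v2 hK (Nat.zero_le _)), mul_zero]

lemma Z11 (h1' : l₁ ≠ 0) (h2' : l₂ ≠ K) :
    pd (cst g C (uX k K)) y (JG g C (J2 K (J1 C (Jb C K 0 l₀ l₁ l₂))) (List.range g))
      (LG g (L2 C K (L1 (Lb C K))) (List.range g)) =
    X2 K (fun i => ∑ l ∈ range K, y (1 + g * i + (C + g * l))) l₂ * Ro k g C 0 := by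
  have hC0 : (0 : ℕ) ≠ C := by omega
  have eC : L2 C K (L1 (Lb C K)) C = (List.range K).erase (K - 1) := by
    rw [L2_C, L1_ne (by omega), Lb_le le_rfl]
  have e0 : L2 C K (L1 (Lb C K)) 0 = (List.range K).erase 0 := by
    rw [L2_ne (by omega), L1_0, Lb_le (Nat.zero_le _)]
  have e1 : L2 C K (L1 (Lb C K)) 1 = List.range K := by
    rw [L2_ne (by omega), L1_ne one_ne_zero, Lb_le (by omega)]
  have jC : J2 K (J1 C (Jb C K 0 l₀ l₁ l₂)) C = (Jb C K 0 l₀ l₁ l₂ C).erase 0 := by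
    rw [J2_ne (by omega), J1_C]
  have j0 : J2 K (J1 C (Jb C K 0 l₀ l₁ l₂)) 0 = range K := by
    rw [J2_ne zero_ne_one, J1_ne (by omega), Jb_sink, nc_0]
  have j1 : J2 K (J1 C (Jb C K 0 l₀ l₁ l₂)) 1 = (Jb C K 0 l₀ l₁ l₂ 1).erase K := by
    rw [J2_1, J1_ne (by omega)]
  have jo : ∀ ρ, ρ ≠ 1 → ρ ≠ C → J2 K (J1 C (Jb C K 0 l₀ l₁ l₂)) ρ = Jb C K 0 l₀ l₁ l₂ ρ := by
    intro ρ h h'
    rw [J2_ne h, J1_ne h']
  have eo : ∀ ρ, ρ ≠ 0 → ρ ≠ C → L2 C K (L1 (Lb C K)) ρ = Lb C K ρ := by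
    intro ρ h h'
    rw [L2_ne h', L1_ne h]
  rw [T_ds hRF hCg y _ _ (fun ρ => nodup_L12) (show 1 < g by omega) (show 0 < g by omega)
    one_ne_zero
    (by rw [j1, e1, List.length_range]; exact cJ1e hC zero_ne_one h2 h2')
    (by rw [j0, e0, card_range, length_erase_range (by omega)]; omega) (by
      intro ρ _ hρ1 hρ0
      by_cases hρC : ρ = C
      · subst hρC
        rw [jC, eC, length_erase_range (by omega)]
        have := cJCe (K := K) (l₀ := l₀) (l₂ := l₂) hC hC0 h1 h1'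
        omega
      · rw [jo ρ hρ1 hρC, eo ρ hρ0 hρC]
        exact card_Jb_o hK hρ0 hρ1 hρC hρ0)]
  congr 1
  · rw [e1, toFinset_range, j1, j0, e0, cc_0]
    unfold X2
    rw [if_neg h2']
    apply Finset.sum_congr rfl
    intro i hi
    rw [mem_range] at hi
    rw [q1' hC hK zero_ne_one h2 h2' hi]
    congr 1
    apply Finset.sum_congr rfl
    intro l hl
    rw [v1 hK (Nat.zero_le _) (by omega) (mem_range.1 hl), ee_0 (mem_range.1 hl), mul_one]
  · rw [prod_one (F := Fo g C 0) (a := C) (by simp [Fo])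
      (by intro ρ; simp only [mem_erase, mem_range, Fo, mem_filter]; omega),
      prod_Fo hK jo eo, jC, eC, qC' hC hK hC0 h1 h1' (by omega), ff_last (by omega), one_mul]

end case0

/-! case `s = C` -/

section caseC

variable (h0 : l₀ < K) (h2 : l₂ < K + 1) (y : ℕ → k)

include hRF hC hCg hK h0 h2

lemma C00 : pd (cst g C (uX k K)) y (JG g C (Jb C K C l₀ l₁ l₂) (List.range g))
      (LG g (Lb C K) (List.range g)) =
    X0 K (W g C K C y 0) l₀ * (aa K l₂ * Ro k g C C) := by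
  have hs0 : C ≠ 0 := by omega
  have hs1 : C ≠ 1 := by omega
  rw [T_ds hRF hCg y (Jb C K C l₀ l₁ l₂) (Lb C K) (fun ρ => nodup_Lb) (show 0 < g by omega) hCg
    hs0.symm
    (by rw [length_Lb_0]; exact cJ0 hs0 h0) (cJs hK hs0) (by
      intro ρ _ hρ0 hρC
      by_cases hρ1 : ρ = 1
      · subst hρ1
        rw [cJ1 hC hs1 h2, Lb_le (by omega), List.length_range]
      · exact card_Jb_o hK hρ0 hρ1 hρC hρC)]
  congr 1
  · rw [Lb_le (Nat.zero_le _), toFinset_range]
    unfold X0 W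
    apply Finset.sum_congr rfl
    intro i hi
    rw [mem_range] at hi
    rw [Jb_0 hs0, v1 hK (Nat.zero_le _) hi h0, Jb_sink]
  · rw [prod_one (F := Fo g C C) (a := 1) (by simp [Fo])
      (by intro ρ; simp only [mem_erase, mem_range, Fo, mem_filter]; omega),
      prod_Fo hK (fun ρ _ _ => rfl) (fun ρ _ _ => rfl), Lb_le (show 1 ≤ C by omega),
      q1 hC hK hs1 h2]

lemma C10 :
    pd (cst g C (uX k K)) y (JG g C (J1 C (Jb C K C l₀ l₁ l₂)) (List.range g))
      (LG g (L1 (Lb C K)) (List.range g)) = dA K g C y * (aa K l₂ * Ro k g C C) := by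
  have hs0 : C ≠ 0 := by omega
  have hs1 : C ≠ 1 := by omega
  have jC : J1 C (Jb C K C l₀ l₁ l₂) C = (range (K + 1)).erase 0 := by
    rw [J1_C, Jb_sink, nc_C hs0]
  have eC : L1 (Lb C K) C = List.range K := by rw [L1_ne hs0, Lb_le le_rfl]
  rw [T_pr hRF hCg y (J1 C (Jb C K C l₀ l₁ l₂)) (L1 (Lb C K)) (fun ρ => nodup_L1) hCg
    (by
      intro ρ _
      by_cases hρC : ρ = C
      · subst hρC
        rw [jC, eC, card_erase_range (by omega), List.length_range, Nat.add_sub_cancel]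
      · rw [J1_ne hρC]
        by_cases hρ0 : ρ = 0
        · subst hρ0
          rw [L1_0, Lb_le (Nat.zero_le _), length_erase_range (by omega)]
          have := cJ0 (C := C) (l₁ := l₁) (l₂ := l₂) hs0 h0
          omega
        · rw [L1_ne hρ0]
          by_cases hρ1 : ρ = 1
          · subst hρ1
            rw [cJ1 hC hs1 h2, Lb_le (by omega), List.length_range]
          · exact card_Jb_o hK hρ0 hρ1 hρC hρC)
    (by
      rw [jC, eC, v3 hK le_rfl (by omega)]
      unfold aa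
      rw [if_pos (Or.inl rfl)])]
  rw [jC, eC, dA_eq hK y le_rfl]
  congr 1
  rw [prod_two (F := Fo g C C) (a := 0) (b := 1) (by omega) (by simp [Fo]) (by simp [Fo])
      (by intro ρ; simp only [mem_erase, mem_range, Fo, mem_filter]; omega),
      prod_Fo hK (fun ρ _ h => J1_ne h) (fun ρ h _ => L1_ne h),
      J1_ne (show 0 ≠ C by omega), L1_0, J1_ne (show 1 ≠ C by omega), L1_ne one_ne_zero,
      Lb_le (Nat.zero_le _), Lb_le (show 1 ≤ C by omega), q0' hK hs0 h0, q1 hC hK hs1 h2, one_mul]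

lemma C11 (h2' : l₂ ≠ K) :
    pd (cst g C (uX k K)) y (JG g C (J2 K (J1 C (Jb C K C l₀ l₁ l₂))) (List.range g))
      (LG g (L2 C K (L1 (Lb C K))) (List.range g)) =
    X2 K (fun i => ∑ l ∈ Ico 1 (K + 1), y (1 + g * i + g * l)) l₂ * Ro k g C C := by
  have hs0 : C ≠ 0 := by omega
  have hs1 : C ≠ 1 := by omega
  have eC : L2 C K (L1 (Lb C K)) C = (List.range K).erase (K - 1) := by
    rw [L2_C, L1_ne (by omega), Lb_le le_rfl]
  have e0 : L2 C K (L1 (Lb C K)) 0 = (List.range K).erase 0 := by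
    rw [L2_ne (by omega), L1_0, Lb_le (Nat.zero_le _)]
  have e1 : L2 C K (L1 (Lb C K)) 1 = List.range K := by
    rw [L2_ne (by omega), L1_ne one_ne_zero, Lb_le (by omega)]
  have jC : J2 K (J1 C (Jb C K C l₀ l₁ l₂)) C = (range (K + 1)).erase 0 := by
    rw [J2_ne (by omega), J1_C, Jb_sink, nc_C hs0]
  have j0 : J2 K (J1 C (Jb C K C l₀ l₁ l₂)) 0 = Jb C K C l₀ l₁ l₂ 0 := by
    rw [J2_ne zero_ne_one, J1_ne (by omega)]
  have j1 : J2 K (J1 C (Jb C K C l₀ l₁ l₂)) 1 = (Jb C K C l₀ l₁ l₂ 1).erase K := by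
    rw [J2_1, J1_ne (by omega)]
  have jo : ∀ ρ, ρ ≠ 1 → ρ ≠ C → J2 K (J1 C (Jb C K C l₀ l₁ l₂)) ρ = Jb C K C l₀ l₁ l₂ ρ := by
    intro ρ h h'
    rw [J2_ne h, J1_ne h']
  have eo : ∀ ρ, ρ ≠ 0 → ρ ≠ C → L2 C K (L1 (Lb C K)) ρ = Lb C K ρ := by
    intro ρ h h'
    rw [L2_ne h', L1_ne h]
  rw [T_ds hRF hCg y _ _ (fun ρ => nodup_L12) (show 1 < g by omega) hCg hs1.symm
    (by rw [j1, e1, List.length_range]; exact cJ1e hC hs1 h2 h2')
    (by rw [jC, eC, card_erase_range (by omega), length_erase_range (by omega)]; omega) (by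
      intro ρ _ hρ1 hρC
      by_cases hρ0 : ρ = 0
      · subst hρ0
        rw [j0, e0, length_erase_range (by omega)]
        have := cJ0 (C := C) (l₁ := l₁) (l₂ := l₂) hs0 h0
        omega
      · rw [jo ρ hρ1 hρC, eo ρ hρ0 hρC]
        exact card_Jb_o hK hρ0 hρ1 hρC hρC)]
  congr 1
  · rw [e1, toFinset_range, j1, jC, eC, cc_C]
    unfold X2
    rw [if_neg h2']
    apply Finset.sum_congr rfl
    intro i hi
    rw [mem_range] at hi
    rw [q1' hC hK hs1 h2 h2' hi]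
    congr 1
    have e : (range (K + 1)).erase 0 = Ico 1 (K + 1) := by
      ext j
      simp only [mem_erase, mem_range, mem_Ico]
      omega
    rw [show ∑ l ∈ (range (K + 1)).erase 0, y (1 + g * i + (0 + g * l)) *
      P k C K C (((range (K + 1)).erase 0).erase l) ((List.range K).erase (K - 1)) =
      ∑ l ∈ Ico 1 (K + 1), y (1 + g * i + (0 + g * l)) *
      P k C K C (((range (K + 1)).erase 0).erase l) ((List.range K).erase (K - 1)) from by rw [← e]]
    apply Finset.sum_congr rfl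
    intro l hl
    rw [mem_Ico] at hl
    obtain ⟨l', rfl⟩ : ∃ l', l = l' + 1 := ⟨l - 1, by omega⟩
    rw [Finset.erase_right_comm, v5 hK le_rfl (by omega) (by omega), ff_last (by omega), mul_one,
      zero_add]
  · rw [prod_one (F := Fo g C C) (a := 0) (by simp [Fo])
      (by intro ρ; simp only [mem_erase, mem_range, Fo, mem_filter]; omega),
      prod_Fo hK jo eo, j0, e0, q0' hK hs0 h0, one_mul]

end caseC

/-! case `s = 1` -/

section case1

variable (h0 : l₀ < K) (h1 : l₁ < K + 1) (y : ℕ → k)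

include hRF hC hCg hK h0 h1

lemma O00 : pd (cst g C (uX k K)) y (JG g C (Jb C K 1 l₀ l₁ l₂) (List.range g))
      (LG g (Lb C K) (List.range g)) =
    X0 K (W g C K 1 y 0) l₀ * (aa K l₁ * Ro k g C 1) := by
  have hsC : 1 ≠ C := by omega
  rw [T_ds hRF hCg y (Jb C K 1 l₀ l₁ l₂) (Lb C K) (fun ρ => nodup_Lb) (show 0 < g by omega)
    (show 1 < g by omega) zero_ne_one
    (by rw [length_Lb_0]; exact cJ0 one_ne_zero h0) (cJs hK one_ne_zero) (by
      intro ρ _ hρ0 hρ1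
      by_cases hρC : ρ = C
      · subst hρC
        rw [cJC hC hsC h1, Lb_le le_rfl, List.length_range]
      · exact card_Jb_o hK hρ0 hρ1 hρC hρ1)]
  congr 1
  · rw [Lb_le (Nat.zero_le _), toFinset_range]
    unfold X0 W
    apply Finset.sum_congr rfl
    intro i hi
    rw [mem_range] at hi
    rw [Jb_0 one_ne_zero, v1 hK (Nat.zero_le _) hi h0, Jb_sink]
  · rw [prod_one (F := Fo g C 1) (a := C) (by simp [Fo])
      (by intro ρ; simp only [mem_erase, mem_range, Fo, mem_filter]; omega),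
      prod_Fo hK (fun ρ _ _ => rfl) (fun ρ _ _ => rfl), Lb_le (le_refl C), qC hC hK hsC h1]

lemma O10 (h1' : l₁ ≠ 0) :
    pd (cst g C (uX k K)) y (JG g C (J1 C (Jb C K 1 l₀ l₁ l₂)) (List.range g))
      (LG g (L1 (Lb C K)) (List.range g)) =
    X1 K (W g C K 1 y C) l₁ * Ro k g C 1 := by
  have hsC : 1 ≠ C := by omega
  rw [T_ds hRF hCg y _ _ (fun ρ => nodup_L1) hCg (show 1 < g by omega) hsC.symm
    (by rw [J1_C, L1_ne (by omega), Lb_le le_rfl, List.length_range]; exact cJCe hC hsC h1 h1')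
    (by rw [J1_ne hsC, L1_ne one_ne_zero]; exact cJs hK one_ne_zero) (by
      intro ρ _ hρC hρ1
      rw [J1_ne hρC]
      by_cases hρ0 : ρ = 0
      · subst hρ0
        rw [L1_0, Lb_le (Nat.zero_le _), length_erase_range (by omega)]
        have := cJ0 (C := C) (l₁ := l₁) (l₂ := l₂) one_ne_zero h0
        omega
      · rw [L1_ne hρ0]
        exact card_Jb_o hK hρ0 hρ1 hρC hρ1)]
  congr 1
  · rw [L1_ne (by omega), Lb_le le_rfl, toFinset_range, J1_C, J1_ne hsC, L1_ne one_ne_zero]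
    unfold X1 W
    rw [if_neg h1']
    apply Finset.sum_congr rfl
    intro i hi
    rw [mem_range] at hi
    rw [qC' hC hK hsC h1 h1' hi, Jb_sink]
  · rw [prod_one (F := Fo g C 1) (a := 0) (by simp [Fo])
      (by intro ρ; simp only [mem_erase, mem_range, Fo, mem_filter]; omega),
      prod_Fo hK (fun ρ _ h => J1_ne h) (fun ρ h _ => L1_ne h),
      J1_ne (show 0 ≠ C by omega), L1_0, Lb_le (Nat.zero_le _), q0' hK one_ne_zero h0, one_mul]

lemma O01 :
    pd (cst g C (uX k K)) y (JG g C (J2 K (Jb C K 1 l₀ l₁ l₂)) (List.range g))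
      (LG g (L2 C K (Lb C K)) (List.range g)) = 0 := by
  have hsC : 1 ≠ C := by omega
  have j1 : J2 K (Jb C K 1 l₀ l₁ l₂) 1 = range K := by
    rw [J2_1, Jb_sink, nc_1 hC, erase_last']
  have e1 : L2 C K (Lb C K) 1 = List.range K := by
    rw [L2_ne (by omega), Lb_le (by omega)]
  rw [T_ds hRF hCg y _ _ (fun ρ => nodup_L2) (show 0 < g by omega) hCg (by omega)
    (by
      rw [J2_ne zero_ne_one, L2_ne (by omega), length_Lb_0]
      exact cJ0 one_ne_zero h0)
    (by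
      rw [J2_ne (by omega), L2_C, Lb_le le_rfl, length_erase_range (by omega), cJC hC hsC h1]
      omega) (by
      intro ρ _ hρ0 hρC
      by_cases hρ1 : ρ = 1
      · subst hρ1
        rw [j1, e1, card_range, List.length_range]
      · rw [J2_ne hρ1, L2_ne hρC]
        exact card_Jb_o hK hρ0 hρ1 hρC hρ1)]
  rw [prod_eq_zero (i := 1) (mem_erase.2 ⟨hsC, mem_erase.2 ⟨one_ne_zero, mem_range.2 (by omega)⟩⟩)
    (by
      rw [j1, e1]
      exact v2 hK (by omega)), mul_zero]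

lemma O11 (h1' : l₁ ≠ 0) :
    pd (cst g C (uX k K)) y (JG g C (J2 K (J1 C (Jb C K 1 l₀ l₁ l₂))) (List.range g))
      (LG g (L2 C K (L1 (Lb C K))) (List.range g)) = dB K g C y * Ro k g C 1 := by
  have hsC : 1 ≠ C := by omega
  have eC : L2 C K (L1 (Lb C K)) C = (List.range K).erase (K - 1) := by
    rw [L2_C, L1_ne (by omega), Lb_le le_rfl]
  have e0 : L2 C K (L1 (Lb C K)) 0 = (List.range K).erase 0 := by
    rw [L2_ne (by omega), L1_0, Lb_le (Nat.zero_le _)]
  have e1 : L2 C K (L1 (Lb C K)) 1 = List.range K := by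
    rw [L2_ne (by omega), L1_ne one_ne_zero, Lb_le (by omega)]
  have jC : J2 K (J1 C (Jb C K 1 l₀ l₁ l₂)) C = (Jb C K 1 l₀ l₁ l₂ C).erase 0 := by
    rw [J2_ne (by omega), J1_C]
  have j0 : J2 K (J1 C (Jb C K 1 l₀ l₁ l₂)) 0 = Jb C K 1 l₀ l₁ l₂ 0 := by
    rw [J2_ne zero_ne_one, J1_ne (by omega)]
  have j1 : J2 K (J1 C (Jb C K 1 l₀ l₁ l₂)) 1 = range K := by
    rw [J2_1, J1_ne (by omega), Jb_sink, nc_1 hC, erase_last']
  have jo : ∀ ρ, ρ ≠ 1 → ρ ≠ C → J2 K (J1 C (Jb C K 1 l₀ l₁ l₂)) ρ = Jb C K 1 l₀ l₁ l₂ ρ := by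
    intro ρ h h'
    rw [J2_ne h, J1_ne h']
  have eo : ∀ ρ, ρ ≠ 0 → ρ ≠ C → L2 C K (L1 (Lb C K)) ρ = Lb C K ρ := by
    intro ρ h h'
    rw [L2_ne h', L1_ne h]
  rw [T_pr hRF hCg y _ _ (fun ρ => nodup_L12) (show 1 < g by omega)
    (by
      intro ρ _
      by_cases hρ1 : ρ = 1
      · subst hρ1
        rw [j1, e1, card_range, List.length_range]
      · by_cases hρ0 : ρ = 0
        · subst hρ0
          rw [j0, e0, length_erase_range (by omega)]
          have := cJ0 (C := C) (l₁ := l₁) (l₂ := l₂) one_ne_zero h0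
          omega
        · by_cases hρC : ρ = C
          · subst hρC
            rw [jC, eC, length_erase_range (by omega)]
            have := cJCe (K := K) (l₀ := l₀) (l₂ := l₂) hC hsC h1 h1'
            omega
          · rw [jo ρ hρ1 hρC, eo ρ hρ0 hρC]
            exact card_Jb_o hK hρ0 hρ1 hρC hρ1)
    (by rw [j1, e1]; exact v2 hK (by omega))]
  rw [j1, e1, dB_eq hK y (show 1 ≤ C by omega)]
  congr 1
  rw [prod_two (F := Fo g C 1) (a := 0) (b := C) (by omega) (by simp [Fo]) (by simp [Fo])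
      (by intro ρ; simp only [mem_erase, mem_range, Fo, mem_filter]; omega),
      prod_Fo hK jo eo, j0, e0, jC, eC, q0' hK one_ne_zero h0, qC' hC hK hsC h1 h1' (by omega),
      ff_last (by omega), one_mul, one_mul]

end case1

section rel

variable (hLK : StmLK k) (hRD : StmRD) (hk : (2 : k) ≠ 0) {y : ℕ → k}
  (hT : Tt (g * K + C) (g * (K - 1) + C + 1) (qB2 k C g K) y)

include hLK hRD hC hCg hK hT in
lemma four_zero (hs : s < g) (h0 : l₀ < K) (h1 : l₁ < K + 1) (h2 : l₂ < K + 1) :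
    four (C := C) (K := K) (fun Js Ls => pd (cst g C (uX k K)) y (JG g C Js (List.range g))
      (LG g Ls (List.range g))) (Jb C K s l₀ l₁ l₂) = 0 := by
  have hlt : ∀ ρ < g, ∀ l ∈ Jb C K s l₀ l₁ l₂ ρ, l < nc C K ρ := by
    intro ρ _ l hl
    unfold Jb at hl
    split_ifs at hl
    · exact mem_range.1 hl
    · exact mem_range.1 (mem_of_mem_erase hl)
  rw [← (expand hC hCg hK hLK hRD y _ hlt).2]
  apply hT
  · have hl0 : (LG g (Lb C K) (List.range g)).length = g * (K - 1) + C + 1 := by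
      rw [← (LG_Lb hRD hCg hK).length_eq, List.length_range]
    rw [card_JG hCg, ← hl0, length_LG hCg]
    have key : ∀ ρ ∈ range g, (Jb C K s l₀ l₁ l₂ ρ).card + (if ρ = 0 then 1 else 0) =
        (Lb C K ρ).length + (if ρ = s then 1 else 0) := by
      intro ρ _
      by_cases hρ0 : ρ = 0
      · subst hρ0
        rw [if_pos rfl, length_Lb_0]
        by_cases hs0 : 0 = s
        · subst hs0
          rw [if_pos rfl, cJ0']
        · rw [if_neg hs0, cJ0 (fun h => hs0 h.symm) h0, add_zero]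
      · rw [if_neg hρ0, add_zero]
        by_cases hρs : ρ = s
        · subst hρs
          rw [if_pos rfl, cJs hK hρ0]
        · rw [if_neg hρs, add_zero]
          by_cases hρ1 : ρ = 1
          · subst hρ1
            rw [cJ1 hC (fun h => hρs h.symm) h2, Lb_le (by omega), List.length_range]
          · by_cases hρC : ρ = C
            · subst hρC
              rw [cJC hC (fun h => hρs h.symm) h1, Lb_le le_rfl, List.length_range]
            · exact card_Jb_o hK hρ0 hρ1 hρC hρs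
    have h3 := Finset.sum_congr rfl key
    rw [sum_add_distrib, sum_add_distrib, Finset.sum_ite_eq', Finset.sum_ite_eq',
      if_pos (mem_range.2 hs), if_pos (mem_range.2 (by omega))] at h3
    omega
  · intro j hj
    rw [mem_JG] at hj
    obtain ⟨ρ, hρ, l, hl, rfl⟩ := hj
    rw [List.mem_range] at hρ
    exact (long_iff hCg hK hρ l).2 (hlt ρ hρ l hl)

include hRF hLK hRD hk hC hCg hK hT

lemma relG (hs : s < g) (hs0 : s ≠ 0) (hs1 : s ≠ 1) (hsC : s ≠ C) (h0 : l₀ < K)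
    (h1 : l₁ < K + 1) (h2 : l₂ < K + 1) :
    X0 K (W g C K s y 0) l₀ * aa K l₁ * aa K l₂ + 1 * X1 K (W g C K s y C) l₁ * aa K l₂ +
      1 * b1 k l₁ * X2 K (W g C K s y 1) l₂ = 0 := by
  have h := four_zero hC hCg hK hLK hRD hT hs h0 h1 h2
  unfold four at h
  simp only [] at h
  rw [if_congr (mem0C hC hsC) rfl rfl, if_congr (memK1 hC hs1) rfl rfl,
    if_congr (and_congr (mem0C hC hsC) (memK1 hC hs1)) rfl rfl,
    G00 hRF hC hCg hK hs hs0 hs1 hsC h0 h1 h2] at h
  apply mul_right_cancel₀ (Ro_ne hk g C s)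
  by_cases h1' : l₁ = 0
  · have e1 : X1 K (W g C K s y C) l₁ = 0 := if_pos h1'
    have e2 : b1 k l₁ = 0 := if_pos h1'
    rw [if_neg (show ¬ (l₁ ≠ 0) from fun h3 => h3 h1'), if_neg (show ¬ (l₁ ≠ 0 ∧ l₂ ≠ K) from fun h3 => h3.1 h1')] at h
    by_cases h2' : l₂ = K
    · rw [if_neg (show ¬ (l₂ ≠ K) from fun h3 => h3 h2')] at h
      rw [e1, e2]
      linear_combination h
    · rw [if_pos h2', G01 hRF hC hCg hK hs0 hs1 h0 h2 y h2'] at h
      rw [e1, e2]
      linear_combination h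
  · have e2 : b1 k l₁ = 1 := if_neg h1'
    rw [if_pos h1', G10 hRF hC hCg hK hs hs0 hs1 hsC h0 h1 h2 y h1'] at h
    by_cases h2' : l₂ = K
    · have e3 : X2 K (W g C K s y 1) l₂ = 0 := if_pos h2'
      rw [if_neg (show ¬ (l₂ ≠ K) from fun h3 => h3 h2'), if_neg (show ¬ (l₁ ≠ 0 ∧ l₂ ≠ K) from fun h3 => h3.2 h2')] at h
      rw [e2, e3]
      linear_combination h
    · rw [if_pos h2', G01 hRF hC hCg hK hs0 hs1 h0 h2 y h2', if_pos ⟨h1', h2'⟩,
        G11 hRF hC hCg hK hs hs0 hs1 hsC h0 h1 h2 y h1' h2'] at h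
      rw [e2]
      linear_combination h

lemma rel0 (h1 : l₁ < K + 1) (h2 : l₂ < K + 1) :
    (dB K g C y * aa K l₁ + X1 K (fun i => ∑ l ∈ range K, y (C + g * i + (C + g * l))) l₁) *
      aa K l₂ + b1 k l₁ * X2 K (fun i => ∑ l ∈ range K, y (1 + g * i + (C + g * l))) l₂ = 0 := by
  have h := four_zero (l₀ := 0) hC hCg hK hLK hRD hT (show 0 < g by omega) (by omega) h1 h2
  have hC0 : (0 : ℕ) ≠ C := by omega
  unfold four at h
  simp only [] at h
  rw [if_congr (mem0C hC hC0) rfl rfl, if_congr (memK1 hC zero_ne_one) rfl rfl,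
    if_congr (and_congr (mem0C hC hC0) (memK1 hC zero_ne_one)) rfl rfl,
    Z00 hRF hC hCg hK h1 h2] at h
  apply mul_right_cancel₀ (Ro_ne hk g C 0)
  by_cases h1' : l₁ = 0
  · have e1 : X1 K (fun i => ∑ l ∈ range K, y (C + g * i + (C + g * l))) l₁ = 0 := if_pos h1'
    have e2 : b1 k l₁ = 0 := if_pos h1'
    rw [if_neg (show ¬ (l₁ ≠ 0) from fun h3 => h3 h1'), if_neg (show ¬ (l₁ ≠ 0 ∧ l₂ ≠ K) from fun h3 => h3.1 h1')] at h
    by_cases h2' : l₂ = K
    · rw [if_neg (show ¬ (l₂ ≠ K) from fun h3 => h3 h2')] at h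
      rw [e1, e2]
      linear_combination h
    · rw [if_pos h2', Z01 hRF hC hCg hK h1 h2 y h2'] at h
      rw [e1, e2]
      linear_combination h
  · have e2 : b1 k l₁ = 1 := if_neg h1'
    rw [if_pos h1', Z10 hRF hC hCg hK h1 h2 y h1'] at h
    by_cases h2' : l₂ = K
    · have e3 : X2 K (fun i => ∑ l ∈ range K, y (1 + g * i + (C + g * l))) l₂ = 0 := if_pos h2'
      rw [if_neg (show ¬ (l₂ ≠ K) from fun h3 => h3 h2'), if_neg (show ¬ (l₁ ≠ 0 ∧ l₂ ≠ K) from fun h3 => h3.2 h2')] at h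
      rw [e2, e3]
      linear_combination h
    · rw [if_pos h2', Z01 hRF hC hCg hK h1 h2 y h2', if_pos ⟨h1', h2'⟩,
        Z11 hRF hC hCg hK h1 h2 y h1' h2'] at h
      rw [e2]
      linear_combination h

lemma relC (h0 : l₀ < K) (h2 : l₂ < K + 1) :
    X0 K (W g C K C y 0) l₀ * aa K l₂ + 1 * (dA K g C y * aa K l₂ +
      X2 K (fun i => ∑ l ∈ Ico 1 (K + 1), y (1 + g * i + g * l)) l₂) = 0 := by
  have hs0 : C ≠ 0 := by omega
  have hs1 : C ≠ 1 := by omega
  have h := four_zero (l₁ := 0) hC hCg hK hLK hRD hT hCg h0 (by omega) h2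
  have hm : (0 ∈ Jb C K C l₀ 0 l₂ C) ↔ True := by
    rw [Jb_sink, nc_C hs0, mem_range]
    simp
  unfold four at h
  simp only [] at h
  rw [if_congr hm rfl rfl, if_congr (memK1 hC hs1) rfl rfl,
    if_congr (and_congr hm (memK1 hC hs1)) rfl rfl, if_pos trivial,
    C00 hRF hC hCg hK h0 h2, C10 hRF hC hCg hK h0 h2] at h
  apply mul_right_cancel₀ (Ro_ne hk g C C)
  by_cases h2' : l₂ = K
  · have e3 : X2 K (fun i => ∑ l ∈ Ico 1 (K + 1), y (1 + g * i + g * l)) l₂ = 0 := if_pos h2'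
    rw [if_neg (show ¬ (l₂ ≠ K) from fun h3 => h3 h2'), if_neg (show ¬ (True ∧ l₂ ≠ K) from fun h3 => h3.2 h2')] at h
    rw [e3]
    linear_combination h
  · rw [if_pos h2', G01 hRF hC hCg hK hs0 hs1 h0 h2 y h2', if_pos ⟨trivial, h2'⟩,
      C11 hRF hC hCg hK h0 h2 y h2'] at h
    linear_combination h

lemma rel1 (h0 : l₀ < K) (h1 : l₁ < K + 1) :
    X0 K (W g C K 1 y 0) l₀ * aa K l₁ + 1 * (X1 K (W g C K 1 y C) l₁ +
      b1 k l₁ * dB K g C y) = 0 := by
  have hsC : 1 ≠ C := by omega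
  have h := four_zero (l₂ := 0) hC hCg hK hLK hRD hT (show 1 < g by omega) h0 h1 (by omega)
  have hm : (K ∈ Jb C K 1 l₀ l₁ 0 1) ↔ True := by
    rw [Jb_sink, nc_1 hC, mem_range]
    simp
  unfold four at h
  simp only [] at h
  rw [if_congr (mem0C hC hsC) rfl rfl, if_congr hm rfl rfl,
    if_congr (and_congr (mem0C hC hsC) hm) rfl rfl, if_pos trivial,
    O00 hRF hC hCg hK h0 h1, O01 hRF hC hCg hK h0 h1] at h
  apply mul_right_cancel₀ (Ro_ne hk g C 1)
  by_cases h1' : l₁ = 0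
  · have e1 : X1 K (W g C K 1 y C) l₁ = 0 := if_pos h1'
    have e2 : b1 k l₁ = 0 := if_pos h1'
    rw [if_neg (show ¬ (l₁ ≠ 0) from fun h3 => h3 h1'), if_neg (show ¬ (l₁ ≠ 0 ∧ True) from fun h3 => h3.1 h1')] at h
    rw [e1, e2]
    linear_combination h
  · have e2 : b1 k l₁ = 1 := if_neg h1'
    rw [if_pos h1', O10 hRF hC hCg hK h0 h1 y h1', if_pos ⟨h1', trivial⟩,
      O11 hRF hC hCg hK h0 h1 y h1'] at h
    rw [e2]
    linear_combination h

end rel

lemma W_eq (hK : 2 ≤ K) (hs : s < g) (hs0 : s ≠ 0) (y : ℕ → k) (h i : ℕ) :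
    W g C K s y h i = wB2 C g K y h (cc g C s) i := by
  unfold W wB2
  by_cases hsC : s ≤ C
  · have e1 : nc C K s = K + 1 := by
      unfold nc
      rw [if_neg hs0, if_pos hsC]
    have e2 : ¬ C ≤ cc g C s := by
      unfold cc
      rw [if_pos hsC]
      omega
    rw [if_neg e2, e1, Lb_le hsC]
    have hsub : Ico 1 K ⊆ range (K + 1) := by
      intro l hl
      rw [mem_Ico] at hl
      rw [mem_range]
      omega
    rw [← Finset.sum_subset hsub]
    · apply Finset.sum_congr rfl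
      intro l hl
      rw [mem_Ico] at hl
      rw [v3 hK hsC (by omega)]
      unfold aa
      rw [if_neg (by omega), mul_comm]
    · intro l hl hl'
      rw [mem_range] at hl
      rw [mem_Ico] at hl'
      rw [v3 hK hsC hl]
      unfold aa
      rw [if_pos (by omega), mul_zero]
  · have e1 : nc C K s = K := by
      unfold nc
      rw [if_neg hs0, if_neg hsC]
    have e2 : C ≤ cc g C s := by
      unfold cc
      rw [if_neg hsC]
      omega
    have e3 : Lb C K s = List.range (K - 1) := by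
      unfold Lb nr
      rw [if_neg hsC]
    rw [if_pos e2, e1, e3]
    apply Finset.sum_congr rfl
    intro l hl
    rw [v6 hK (by omega) (mem_range.1 hl), mul_one]

lemma cc_cc (hCg : C < g) {σ : ℕ} (hσ : σ < g) : cc g C (cc g C σ) = σ := by
  unfold cc
  split_ifs <;> omega

/-- the relations for one class -/
def RelS (C g K : ℕ) (y : ℕ → k) (σ : ℕ) (w₀ w₁ : k) : Prop :=
  (σ ≠ C → ∀ i < K, wB2 C g K y 0 σ i = if i = 0 then - w₀ else 0) ∧
  (σ ≠ 0 → ∀ i < K, wB2 C g K y C σ i = if i = 0 then - w₀ else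
    if i + 1 = K then w₀ - w₁ else 0) ∧
  (σ ≠ 0 → σ + 1 ≠ C → ∀ i < K, wB2 C g K y 1 σ i = if i = 0 then w₁ else
    if i + 1 = K then - w₁ else 0) ∧
  (σ = 0 → ∀ i < K, ∑ l ∈ Ico 1 (K + 1), y (1 + g * i + g * l) = if i = 0 then w₁ else
    if i + 1 = K then - w₁ else 0) ∧
  (σ = C → w₀ = - dB K g C y) ∧ (σ = 0 → w₁ = w₀ - dA K g C y) ∧ (σ + 1 = C → w₁ = dB K g C y)

section fin

variable (hLK : StmLK k) (hRD : StmRD) (hCH : StmCH k) (hk : (2 : k) ≠ 0) {y : ℕ → k}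
  (hT : Tt (g * K + C) (g * (K - 1) + C + 1) (qB2 k C g K) y)

include hRF hLK hRD hCH hk hC hCg hK hT

lemma rel_all {σ : ℕ} (hσ : σ < g) : ∃ w₀ w₁, RelS C g K y σ w₀ w₁ := by
  have haa : ∃ l ∈ range (K + 1), (aa K l : k) ≠ 0 := by
    refine ⟨1, mem_range.2 (by omega), ?_⟩
    unfold aa
    rw [if_neg (by omega)]
    exact hk
  have hb1 : ∃ l ∈ range (K + 1), b1 k l ≠ 0 := by
    refine ⟨1, mem_range.2 (by omega), ?_⟩
    unfold b1
    rw [if_neg one_ne_zero]
    exact one_ne_zero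
  have h1r : ∃ l ∈ range K, (1 : k) ≠ 0 := ⟨0, mem_range.2 (by omega), one_ne_zero⟩
  -- translation of the relations
  have t0 : ∀ (w : ℕ → k) (w₀ : k), (∀ l ∈ range K, X0 K w l = - w₀ * 1) →
      ∀ i < K, w i = if i = 0 then - w₀ else 0 := by
    intro w w₀ h
    apply inv0 hk hK
    intro l hl
    have := h l (mem_range.2 hl)
    rw [mul_one] at this
    exact this
  have tC : ∀ (w : ℕ → k) (w₀ w₁ : k), (∀ l ∈ range (K + 1), X1 K w l = w₀ * aa K l -
      w₁ * b1 k l) → ∀ i < K, w i = if i = 0 then - w₀ else if i + 1 = K then w₀ - w₁ else 0 := by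
    intro w w₀ w₁ h
    apply invC hk hK
    intro l hl
    have h3 := h (l + 1) (mem_range.2 (by omega))
    unfold X1 b1 at h3
    rw [if_neg (by omega), if_neg (by omega), Nat.add_sub_cancel, mul_one] at h3
    exact h3
  have t1 : ∀ (w : ℕ → k) (w₁ : k), (∀ l ∈ range (K + 1), X2 K w l = w₁ * aa K l) →
      ∀ i < K, w i = if i = 0 then w₁ else if i + 1 = K then - w₁ else 0 := by
    intro w w₁ h
    apply inv1 hk hK
    intro l hl
    have h3 := h l (mem_range.2 (by omega))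
    unfold X2 at h3
    rw [if_neg (by omega)] at h3
    exact h3
  obtain ⟨s, hsdef⟩ : ∃ s, s = cc g C σ := ⟨_, rfl⟩
  have hs : s < g := by rw [hsdef]; exact cc_lt hCg
  have hsσ : cc g C s = σ := by rw [hsdef]; exact cc_cc hCg hσ
  have hcase : (s = 0 ↔ σ = C) ∧ (s = C ↔ σ = 0) ∧ (s = 1 ↔ σ + 1 = C) := by
    rw [hsdef]
    unfold cc
    split_ifs <;> omega
  obtain ⟨c0, cC, c1⟩ := hcase
  by_cases hs0 : s = 0
  · have hσC := c0.1 hs0
    subst hσC
    obtain ⟨w, a1, a2⟩ := hCH.1 (range (K + 1)) (range (K + 1)) _ _ _ _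
      (fun l₀ h₀ l₁ h₁ => rel0 hRF hC hCg hK hLK hRD hk hT (mem_range.1 h₀) (mem_range.1 h₁))
      haa hb1
    have b2 := tC _ (- dB K g σ y) w (fun l hl => by
      have := a1 l hl
      linear_combination this)
    have b3 := t1 _ w a2
    have e : ∀ h i, wB2 σ g K y h σ i = ∑ l ∈ range K, y (h + g * i + (σ + g * l)) := by
      intro h i
      unfold wB2
      rw [if_pos le_rfl]
    refine ⟨- dB K g σ y, w, fun h => absurd rfl h, fun _ i hi => ?_, fun _ _ i hi => ?_,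
      fun h => by omega, fun _ => rfl, fun h => by omega, fun h => by omega⟩
    · rw [e]
      exact b2 i hi
    · rw [e]
      exact b3 i hi
  · by_cases hsC : s = C
    · have hσ0 := cC.1 hsC
      subst hσ0
      obtain ⟨w, a1, a2⟩ := hCH.1 (range K) (range (K + 1)) (X0 K (W g C K C y 0))
        (fun l => dA K g C y * aa K l +
          X2 K (fun i => ∑ l ∈ Ico 1 (K + 1), y (1 + g * i + g * l)) l) (aa K) (fun _ => 1)
        (fun l₀ h₀ l₁ h₁ => relC hRF hC hCg hK hLK hRD hk hT (mem_range.1 h₀) (mem_range.1 h₁))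
        haa h1r
      have b1' := t0 _ w a1
      have b3 := t1 _ (w - dA K g C y) (fun l hl => by
        have := a2 l hl
        linear_combination this)
      refine ⟨w, w - dA K g C y, fun _ i hi => ?_, fun h => absurd rfl h, fun h => absurd rfl h,
        fun _ i hi => b3 i hi, fun h => by omega, fun _ => rfl, fun h => by omega⟩
      have h4 := b1' i hi
      rw [W_eq hK hCg (by omega), cc_C] at h4
      exact h4
    · by_cases hs1 : s = 1
      · have hσ1 := c1.1 hs1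
        obtain ⟨w, a1, a2⟩ := hCH.1 (range K) (range (K + 1)) (X0 K (W g C K 1 y 0))
          (fun l => X1 K (W g C K 1 y C) l + b1 k l * dB K g C y) (aa K) (fun _ => 1)
          (fun l₀ h₀ l₁ h₁ => rel1 hRF hC hCg hK hLK hRD hk hT (mem_range.1 h₀) (mem_range.1 h₁))
          haa h1r
        have b1' := t0 _ w a1
        have b2 := tC _ w (dB K g C y) (fun l hl => by
          have := a2 l hl
          linear_combination this)
        subst hs1
        refine ⟨w, dB K g C y, fun _ i hi => ?_, fun _ i hi => ?_, fun _ h => absurd hσ1 h,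
          fun h => by omega, fun h => by omega, fun h => by omega, fun _ => rfl⟩
        · have h4 := b1' i hi
          rw [W_eq hK hs one_ne_zero, hsσ] at h4
          exact h4
        · have h4 := b2 i hi
          rw [W_eq hK hs one_ne_zero, hsσ] at h4
          exact h4
      · obtain ⟨w₀, w₁, a1, a2, a3⟩ := hCH.2 (range K) (range (K + 1)) (range (K + 1)) _ _ _ _ _
          (fun _ => 1) _ (fun l₀ h₀ l₁ h₁ l₂ h₂ => relG hRF hC hCg hK hLK hRD hk hT hs hs0 hs1
          hsC (mem_range.1 h₀) (mem_range.1 h₁) (mem_range.1 h₂)) haa hb1 haa h1r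
        have b1' := t0 _ w₀ a1
        have b2 := tC _ w₀ w₁ a2
        have b3 := t1 _ w₁ a3
        refine ⟨w₀, w₁, fun _ i hi => ?_, fun _ i hi => ?_, fun _ _ i hi => ?_,
          fun h => absurd (cC.2 h) hsC, fun h => absurd (c0.2 h) hs0,
          fun h => absurd (cC.2 h) hsC, fun h => absurd (c1.2 h) hs1⟩
        · have h4 := b1' i hi
          rw [W_eq hK hs hs0, hsσ] at h4
          exact h4
        · have h4 := b2 i hi
          rw [W_eq hK hs hs0, hsσ] at h4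
          exact h4
        · have h4 := b3 i hi
          rw [W_eq hK hs hs0, hsσ] at h4
          exact h4

end fin

end tan

/-- PB2 -/
theorem t (k : Type*) [Field k] (hLK : StmLK k) (hRF : StmRF k) (hRD : StmRD) (hCH : StmCH k) :
    StmPB2 k := by
  intro hk C g K hC hCg hK
  refine ⟨member hC hCg hK hLK hRD, fun y hT => ?_⟩
  have h : ∀ σ : ℕ, ∃ w₀ w₁ : k, σ < g → RelS C g K y σ w₀ w₁ := by
    intro σ
    by_cases hσ : σ < g
    · obtain ⟨w₀, w₁, h⟩ := rel_all hRF hC hCg hK hLK hRD hCH hk hT hσ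
      exact ⟨w₀, w₁, fun _ => h⟩
    · exact ⟨0, 0, fun h => absurd h hσ⟩
  choose w₀ w₁ hw using h
  refine ⟨w₀, w₁, ⟨?_, ?_, ?_, ?_, ?_, ?_, ?_⟩⟩
  · intro i hi σ hσ hσC
    exact (hw σ hσ).1 hσC i hi
  · intro i hi σ hσ hσ0
    exact (hw σ hσ).2.1 hσ0 i hi
  · intro i hi σ hσ hσ0 hσC
    exact (hw σ hσ).2.2.1 hσ0 hσC i hi
  · intro i hi
    exact (hw 0 (by omega)).2.2.2.1 rfl i hi
  · exact (hw C hCg).2.2.2.2.1 rfl
  · exact (hw 0 (by omega)).2.2.2.2.2.1 rfl
  · exact (hw (C - 1) (by omega)).2.2.2.2.2.2 (by omega)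

end Pool.Agent.N729.HQ.PB2b
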