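import Pool.Agent.N729.HQ.PB3aS

/-!
Project HQ, part PB3 (copy a): the family `C = 0`, `g ≥ 3`, `κ ≥ 3`: the point and the relations.
-/

set_option autoImplicit false
set_option linter.unusedSectionVars false

namespace Pool.Agent.N729.HQ.PB3a

open Finset
open Pool.Agent.N186.HK (pm vm IsHankel)
open Pool.Agent.N729.HP

section

variable {k : Type*} [Field k] {M : ℕ} (hM : 1 ≤ M) (h2 : (2 : k) ≠ 0)
include hM h2

theorem sol0 (W : ℕ → k) (w : k) (h : ∀ l < M + 2, S0 M W l = - w * b0 k M l) :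
    ∃ lam : k, ∀ i < M + 2, W i = if i = 0 then lam else if i = 1 then - lam else
      if i + 1 = M + 2 then - w else 0 := by
  have hc := ((ci k h2) (M + 2) (fun i => W i + if i = M + 1 then w else 0)).2.2 (by omega) (by
    intro l hl
    have h1 := h l hl
    unfold S0 at h1
    have e : ∀ i ∈ range (M + 2), (W i + if i = M + 1 then w else 0) *
        (if i + 1 = M + 2 ∧ l + 1 = M + 2 then 2 else if i + 1 = M + 2 ∨ l + 1 = M + 2 then 0 else
          if i + l < M + 2 then 1 else -1) =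
        W i * ea k M i l + (if i = M + 1 then w else 0) * ea k M i l := by
      intro i _
      rw [← add_mul]
      rfl
    rw [Finset.sum_congr rfl e, Finset.sum_add_distrib, h1,
      Finset.sum_eq_single (M + 1)]
    · rw [if_pos rfl]
      have : ea k M (M + 1) l = b0 k M l := by
        unfold ea b0
        by_cases h1 : l + 1 = M + 2
        · rw [if_pos ⟨rfl, h1⟩, if_pos h1]
        · rw [if_neg (fun h => h1 h.2), if_pos (Or.inl rfl), if_neg h1]
      rw [this]
      ring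
    · intro i _ hi
      rw [if_neg hi, zero_mul]
    · intro hi
      exact absurd (mem_range.2 (by omega)) hi)
  refine ⟨W 0, ?_⟩
  intro i hi
  by_cases h0 : i = 0
  · rw [if_pos h0, h0]
  rw [if_neg h0]
  by_cases h1 : i = 1
  · rw [if_pos h1, h1]
    have := hc.1
    rw [if_neg (by omega), if_neg (by omega)] at this
    linear_combination this
  rw [if_neg h1]
  have h3 := hc.2 i hi (by omega)
  by_cases h4 : i + 1 = M + 2
  · rw [if_pos h4]
    rw [if_pos (by omega)] at h3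
    linear_combination h3
  · rw [if_neg h4]
    rw [if_neg (by omega)] at h3
    linear_combination h3

theorem sol1 (W : ℕ → k) (w w' : k)
    (h : ∀ l < M + 2, S1 M W l = w * a5 k M l - w' * b1 k M l) :
    ∀ i < M + 1, W i = if i = 0 then w else if i + 2 = M + 2 then - w' else 0 := by
  have hc := ((ci k h2) (M + 1)
    (fun i => W i - (if i = 0 then w else 0) + if i = M then w' else 0)).1 (by
    intro l hl
    have h1 := h l (by omega)
    unfold S1 a5 b1 at h1
    rw [if_neg (by omega), if_neg (by omega), if_neg (by omega)] at h1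
    have e : ∀ i ∈ range (M + 1), (W i - (if i = 0 then w else 0) + if i = M then w' else 0) *
        (if i + l < M + 1 then 1 else -1) =
        W i * aa k M i l - (if i = 0 then w else 0) * aa k M i l +
          (if i = M then w' else 0) * aa k M i l := by
      intro i _
      rw [← sub_mul, ← add_mul]
      congr 1
      unfold aa
      by_cases h2 : i + l < M + 1
      · rw [if_pos h2, if_pos (by omega)]
      · rw [if_neg h2, if_neg (by omega)]
    rw [Finset.sum_congr rfl e, Finset.sum_add_distrib, Finset.sum_sub_distrib, h1,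
      Finset.sum_eq_single 0, Finset.sum_eq_single M]
    · rw [if_pos rfl, if_pos rfl]
      have : aa k M 0 l = 1 := by
        unfold aa
        rw [if_pos (by omega)]
      rw [this]
      ring
    · intro i _ hi
      rw [if_neg hi, zero_mul]
    · intro hi
      exact absurd (mem_range.2 (by omega)) hi
    · intro i _ hi
      rw [if_neg hi, zero_mul]
    · intro hi
      exact absurd (mem_range.2 (by omega)) hi)
  intro i hi
  have h3 := hc i hi
  by_cases h0 : i = 0
  · rw [if_pos h0]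
    rw [if_pos h0, if_neg (by omega)] at h3
    linear_combination h3
  rw [if_neg h0]
  rw [if_neg h0] at h3
  by_cases h4 : i + 2 = M + 2
  · rw [if_pos h4]
    rw [if_pos (by omega)] at h3
    linear_combination h3
  · rw [if_neg h4]
    rw [if_neg (by omega)] at h3
    linear_combination h3

theorem sol2 (W : ℕ → k) (w : k)
    (h : ∀ l < M + 2, S1 M W l = w * a5 k M l) :
    ∀ i < M + 1, W i = if i = 0 then w else 0 := by
  intro i hi
  rw [sol1 hM h2 W w 0 (by intro l hl; rw [h l hl]; ring) i hi, neg_zero, ite_self]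

omit hM in
theorem na5 : ∃ l ∈ range (M + 2), a5 k M l ≠ 0 := by
  refine ⟨0, mem_range.2 (by omega), ?_⟩
  unfold a5
  rw [if_neg (by omega)]
  exact one_ne_zero

omit hM in
theorem nb1 : ∃ l ∈ range (M + 2), b1 k M l ≠ 0 := by
  refine ⟨0, mem_range.2 (by omega), ?_⟩
  unfold b1 aa
  rw [if_neg (by omega), if_pos (by omega)]
  exact one_ne_zero

omit hM in
theorem nb0 : ∃ l ∈ range (M + 2), b0 k M l ≠ 0 := by
  refine ⟨M + 1, mem_range.2 (by omega), ?_⟩
  unfold b0
  rw [if_pos rfl]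
  exact h2

omit hM h2 in
theorem sumb0 (f : ℕ → k) : ∑ l ∈ range (M + 2), f l * b0 k M l = 2 * f (M + 1) := by
  rw [Finset.sum_eq_single (M + 1)]
  · unfold b0
    rw [if_pos rfl, mul_comm]
  · intro l _ hl
    unfold b0
    rw [if_neg (by omega), mul_zero]
  · intro h
    exact absurd (mem_range.2 (by omega)) h

omit hM h2 in
theorem suma5 (f : ℕ → k) : ∑ l ∈ range (M + 2), f l * a5 k M l = ∑ l ∈ range (M + 1), f l := by
  rw [Finset.sum_range_succ]
  have h1 : a5 k M (M + 1) = 0 := by unfold a5; rw [if_pos rfl]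
  rw [h1, mul_zero, add_zero]
  refine Finset.sum_congr rfl fun l hl => ?_
  rw [mem_range] at hl
  unfold a5
  rw [if_neg (by omega), mul_one]

omit hM h2 in
theorem sumaa (f : ℕ → k) : ∑ l ∈ range (M + 1), f l * aa k M M l =
    f 0 - ∑ l ∈ Ico 1 (M + 1), f l := by
  rw [Finset.range_eq_Ico, Finset.sum_eq_sum_Ico_succ_bot (by omega)]
  have h1 : aa k M M 0 = 1 := by unfold aa; rw [if_pos (by omega)]
  rw [h1, mul_one, sub_eq_add_neg, ← Finset.sum_neg_distrib]
  congr 1
  refine Finset.sum_congr rfl fun l hl => ?_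
  rw [mem_Ico] at hl
  unfold aa
  rw [if_neg (by omega)]
  ring

variable (hLK : StmLK k) (hRF : StmRF k) (hRD : StmRD) (hCH : StmCH k) (G : ℕ)
    (y : ℕ → k)
    (hy : Tt ((G + 3) * (M + 2)) ((G + 3) * (M + 1) + 1) (qB3 k (G + 3) (M + 2)) y)

include hLK hRF hRD hCH hy

theorem exD (j : ℕ) (hj : j < G) : ∃ a b c : k,
    (∀ i < M + 2, 2 * y ((G + 3) * i + j + (G + 3) * (M + 1)) =
      sB3 (M + 2) (fun _ => a) (fun _ => b) (fun _ => c) 0 0 i) ∧
    (∀ i < M + 1, 2 * y (G + 2 + (G + 3) * i + j + (G + 3) * (M + 1)) =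
      sB3 (M + 2) (fun _ => a) (fun _ => b) (fun _ => c) 1 0 i) ∧
    (∀ i < M + 1, 2 * y (G + 1 + (G + 3) * i + j + (G + 3) * (M + 1)) =
      sB3 (M + 2) (fun _ => a) (fun _ => b) (fun _ => c) 2 0 i) := by
  obtain ⟨w₀, w₁, h1, h3, h4⟩ := hCH.2 (range (M + 2)) (range (M + 2)) (range (M + 2)) _ _ _ _ _ _ _
    (fun l0 hl0 l1 hl1 l2 hl2 => relD hM hLK hRF hRD h2 G y hy (σ := G - j) (by omega)
      (by omega) (mem_range.1 hl0) (mem_range.1 hl1) (mem_range.1 hl2))
    (na5 h2) (nb1 h2) (na5 h2) (nb0 h2)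
  obtain ⟨lam, h5⟩ := sol0 hM h2 _ w₀ fun l hl => h1 l (mem_range.2 hl)
  have h6 := sol1 hM h2 _ w₀ w₁ fun l hl => h3 l (mem_range.2 hl)
  have h7 := sol2 hM h2 _ w₁ fun l hl => h4 l (mem_range.2 hl)
  have hGj : G - (G - j) = j := by omega
  rw [hGj] at h5 h6 h7
  refine ⟨w₀, w₁, lam, ?_, ?_, ?_⟩
  · intro i hi
    have h8 := h5 i hi
    rw [sumb0 (fun l => y ((G + 3) * i + (j + (G + 3) * l)))] at h8
    rw [add_assoc]
    exact h8
  · intro i hi
    have h8 := h6 i hi
    rw [sumb0 (fun l => y (G + 2 + (G + 3) * i + (j + (G + 3) * l)))] at h8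
    rw [add_assoc]
    exact h8
  · intro i hi
    have h8 := h7 i hi
    rw [sumb0 (fun l => y (G + 1 + (G + 3) * i + (j + (G + 3) * l)))] at h8
    rw [add_assoc]
    exact h8

theorem exZ : ∃ a b c : k, a = - dBs G M y ∧
    (∀ i < M + 1, 2 * y (G + 2 + (G + 3) * i + G + (G + 3) * (M + 1)) =
      sB3 (M + 2) (fun _ => a) (fun _ => b) (fun _ => c) 1 0 i) ∧
    (∀ i < M + 1, 2 * y (G + 1 + (G + 3) * i + G + (G + 3) * (M + 1)) =
      sB3 (M + 2) (fun _ => a) (fun _ => b) (fun _ => c) 2 0 i) := by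
  obtain ⟨w₁, h3, h4⟩ := hCH.1 (range (M + 2)) (range (M + 2)) _ _ _ _
    (fun l1 hl1 l2 hl2 => relZ hM hLK hRF hRD h2 G y hy
      (mem_range.1 hl1) (mem_range.1 hl2))
    (na5 h2) (nb1 h2)
  have h6 := sol1 hM h2 _ (- dBs G M y) w₁ fun l hl => by
    have := h3 l (mem_range.2 hl)
    rw [eq_sub_iff_add_eq, ← sub_eq_zero]
    rw [← sub_eq_zero] at this
    rw [← this]
    ring
  have h7 := sol2 hM h2 _ w₁ fun l hl => h4 l (mem_range.2 hl)
  refine ⟨_, w₁, 0, rfl, ?_, ?_⟩
  · intro i hi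
    have h8 := h6 i hi
    rw [sumb0 (fun l => y (G + 2 + (G + 3) * i + (G + (G + 3) * l)))] at h8
    rw [add_assoc _ G]
    exact h8
  · intro i hi
    have h8 := h7 i hi
    rw [sumb0 (fun l => y (G + 1 + (G + 3) * i + (G + (G + 3) * l)))] at h8
    rw [add_assoc _ G]
    exact h8

theorem exA : ∃ a b c : k, b = a - dAs G M y ∧
    (∀ i < M + 2, ∑ l ∈ range (M + 1), y ((G + 3) * i + (G + 1) + (G + 3) * l) =
      sB3 (M + 2) (fun _ => a) (fun _ => b) (fun _ => c) 0 0 i) ∧
    (∀ i < M + 1, y (G + 1 + (G + 3) * i + (G + 1)) -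
      ∑ l ∈ Ico 1 (M + 1), y (G + 1 + (G + 3) * i + (G + 1) + (G + 3) * l) =
      sB3 (M + 2) (fun _ => a) (fun _ => b) (fun _ => c) 2 0 i) := by
  obtain ⟨w, h3, h4⟩ := hCH.1 (range (M + 2)) (range (M + 2)) _ _ _ _
    (fun l1 hl1 l2 hl2 => relA hM hLK hRF hRD h2 G y hy
      (mem_range.1 hl1) (mem_range.1 hl2))
    (na5 h2) (nb0 h2)
  obtain ⟨lam, h5⟩ := sol0 hM h2 _ w fun l hl => h3 l (mem_range.2 hl)
  have h7 := sol2 hM h2 _ (w - dAs G M y) fun l hl => by
    have := h4 l (mem_range.2 hl)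
    rw [sub_mul, eq_sub_iff_add_eq, add_comm]
    exact this
  refine ⟨w, _, lam, rfl, ?_, ?_⟩
  · intro i hi
    have h8 := h5 i hi
    rw [suma5 (fun l => y ((G + 3) * i + (G + 1 + (G + 3) * l)))] at h8
    simp only [add_assoc _ (G + 1)]
    exact h8
  · intro i hi
    have h8 := h7 i hi
    rw [sumaa (fun l => y (G + 1 + (G + 3) * i + (G + 1 + (G + 3) * l)))] at h8
    simp only [add_assoc _ (G + 1)]
    exact h8

theorem exB : ∃ a b c : k, b = dAs G M y ∧
    (∀ i < M + 2, ∑ l ∈ range (M + 1), y ((G + 3) * i + (G + 2) + (G + 3) * l) =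
      sB3 (M + 2) (fun _ => a) (fun _ => b) (fun _ => c) 0 0 i) ∧
    (∀ i < M + 1, ∑ l ∈ range (M + 1), y (G + 2 + (G + 3) * i + (G + 2) + (G + 3) * l) =
      sB3 (M + 2) (fun _ => a) (fun _ => b) (fun _ => c) 1 0 i) := by
  obtain ⟨w, h3, h4⟩ := hCH.1 (range (M + 2)) (range (M + 2)) _ _ _ _
    (fun l1 hl1 l2 hl2 => relB hM hLK hRF hRD h2 G y hy
      (mem_range.1 hl1) (mem_range.1 hl2))
    (na5 h2) (nb0 h2)
  obtain ⟨lam, h5⟩ := sol0 hM h2 _ w fun l hl => h3 l (mem_range.2 hl)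
  have h7 := sol1 hM h2 _ w (dAs G M y) fun l hl => by
    have := h4 l (mem_range.2 hl)
    rw [eq_sub_iff_add_eq, mul_comm (dAs G M y)]
    exact this
  refine ⟨w, _, lam, rfl, ?_, ?_⟩
  · intro i hi
    have h8 := h5 i hi
    rw [suma5 (fun l => y ((G + 3) * i + (G + 2 + (G + 3) * l)))] at h8
    simp only [add_assoc _ (G + 2)]
    exact h8
  · intro i hi
    have h8 := h7 i hi
    rw [suma5 (fun l => y (G + 2 + (G + 3) * i + (G + 2 + (G + 3) * l)))] at h8
    simp only [add_assoc _ (G + 2)]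
    exact h8

omit hM h2 hLK hRF hRD hCH hy in
theorem sBc {κ h j i : ℕ} {w₀ w₁ lam : ℕ → k} {a b c : k} (h0 : w₀ j = a) (h1 : w₁ j = b)
    (h3 : lam j = c) : sB3 κ w₀ w₁ lam h j i =
      sB3 κ (fun _ => a) (fun _ => b) (fun _ => c) h 0 i := by
  subst h0 h1 h3
  rfl

theorem exRel : ∃ w₀ w₁ lam, RelB3 (G + 3) (M + 2) y w₀ w₁ lam := by
  have hD := exD hM h2 hLK hRF hRD hCH G y hy
  choose! aD bD cD hD using hD
  obtain ⟨aZ, bZ, cZ, z1, z2, z3⟩ := exZ hM h2 hLK hRF hRD hCH G y hy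
  obtain ⟨aA, bA, cA, p1, p2, p3⟩ := exA hM h2 hLK hRF hRD hCH G y hy
  obtain ⟨aB, bB, cB, q1, q2, q3⟩ := exB hM h2 hLK hRF hRD hCH G y hy
  have e0 : ∀ (f : ℕ → k) (a b c : k) (j : ℕ), j < G → (fun j => if j < G then f j else
      if j = G then a else if j = G + 1 then b else c) j = f j := by
    intro f a b c j hj
    beta_reduce
    rw [if_pos hj]
  have e1 : ∀ (f : ℕ → k) (a b c : k), (fun j => if j < G then f j else
      if j = G then a else if j = G + 1 then b else c) G = a := by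
    intro f a b c
    beta_reduce
    rw [if_neg (by omega), if_pos rfl]
  have e2 : ∀ (f : ℕ → k) (a b c : k), (fun j => if j < G then f j else
      if j = G then a else if j = G + 1 then b else c) (G + 1) = b := by
    intro f a b c
    beta_reduce
    rw [if_neg (by omega), if_neg (by omega), if_pos rfl]
  have e3 : ∀ (f : ℕ → k) (a b c : k), (fun j => if j < G then f j else
      if j = G then a else if j = G + 1 then b else c) (G + 2) = c := by
    intro f a b c
    beta_reduce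
    rw [if_neg (by omega), if_neg (by omega), if_neg (by omega)]
  refine ⟨fun j => if j < G then aD j else if j = G then aZ else if j = G + 1 then aA else aB,
    fun j => if j < G then bD j else if j = G then bZ else if j = G + 1 then bA else bB,
    fun j => if j < G then cD j else if j = G then cZ else if j = G + 1 then cA else cB,
    ?_, ?_, ?_, ?_, ?_, ?_, ?_, ?_, ?_, ?_⟩
  · intro i hi j hj
    rw [sBc (e0 _ _ _ _ j (by omega)) (e0 _ _ _ _ j (by omega)) (e0 _ _ _ _ j (by omega))]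
    exact (hD j (by omega)).1 i hi
  · intro i hi j hj
    by_cases hj' : j < G
    · rw [sBc (e0 _ _ _ _ j hj') (e0 _ _ _ _ j hj') (e0 _ _ _ _ j hj')]
      exact (hD j hj').2.1 i hi
    · have hjG : j = G := by omega
      subst hjG
      rw [sBc (e1 _ _ _ _) (e1 _ _ _ _) (e1 _ _ _ _)]
      exact z2 i hi
  · intro i hi j hj
    by_cases hj' : j < G
    · rw [sBc (e0 _ _ _ _ j hj') (e0 _ _ _ _ j hj') (e0 _ _ _ _ j hj')]
      exact (hD j hj').2.2 i hi
    · have hjG : j = G := by omega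
      subst hjG
      rw [sBc (e1 _ _ _ _) (e1 _ _ _ _) (e1 _ _ _ _)]
      exact z3 i hi
  · intro i hi
    refine Eq.trans ?_ (sBc (j := G + 1) (e2 _ _ _ _) (e2 _ _ _ _) (e2 _ _ _ _)).symm
    exact p2 i hi
  · intro i hi
    refine Eq.trans ?_ (sBc (j := G + 1) (e2 _ _ _ _) (e2 _ _ _ _) (e2 _ _ _ _)).symm
    exact p3 i hi
  · intro i hi
    refine Eq.trans ?_ (sBc (j := G + 2) (e3 _ _ _ _) (e3 _ _ _ _) (e3 _ _ _ _)).symm
    exact q2 i hi
  · intro i hi
    refine Eq.trans ?_ (sBc (j := G + 2) (e3 _ _ _ _) (e3 _ _ _ _) (e3 _ _ _ _)).symm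
    exact q3 i hi
  · exact (e1 _ _ _ _).trans z1
  · refine (e2 _ _ _ _).trans ?_
    refine p1.trans ?_
    exact congrArg (fun t => t - dAs G M y) (e2 aD aZ aA aB).symm
  · exact (e3 _ _ _ _).trans q1

end

/-- PB3 -/
theorem t (k : Type*) [Field k] (hLK : StmLK k) (hRF : StmRF k) (hRD : StmRD) (hCH : StmCH k) :
    StmPB3 k := by
  intro h2 g κ hg hκ
  obtain ⟨G, rfl⟩ : ∃ G, g = G + 3 := ⟨g - 3, by omega⟩
  obtain ⟨M, rfl⟩ : ∃ M, κ = M + 2 := ⟨κ - 2, by omega⟩
  have hM : 1 ≤ M := by omega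
  exact ⟨vt hLK hRD G M hM, fun y hy => exRel hM h2 hLK hRF hRD hCH G y hy⟩

end Pool.Agent.N729.HQ.PB3a
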