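import Pool.Agent.N729.HQ.Stm

/-!
Project HQ, part PB3 (copy a), preparations: the master formula.
-/

set_option autoImplicit false

namespace Pool.Agent.N729.HQ.PB3a

open Finset
open Pool.Agent.N186.HK (pm vm IsHankel)
open Pool.Agent.N729.HP

/-! ### Elementary facts -/

theorem lerase (m : ℕ) : (List.range (m + 1)).erase m = List.range m := by
  rw [List.range_succ, List.erase_append_right _ (by simp)]
  simp

theorem ferase (m : ℕ) : (range (m + 1)).erase m = range m := by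
  rw [Finset.range_add_one, Finset.erase_insert (by simp)]

theorem ferase2 (m l : ℕ) : ((range (m + 1)).erase l).erase m = (range m).erase l := by
  rw [Finset.erase_right_comm, ferase]

theorem card_er {m l : ℕ} (h : l < m) : ((range m).erase l).card + 1 = m := by
  rw [Finset.card_erase_add_one (Finset.mem_range.2 h), Finset.card_range]

/-- the rows -/
def LL (G M p q : ℕ) : ℕ → List ℕ := fun ρ =>
  if ρ = 0 then List.range p else if ρ = G + 2 then List.range q else List.range (M + 1)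

/-- the columns -/
def JJ (G M σ : ℕ) (Z A B : Finset ℕ) : ℕ → Finset ℕ := fun ρ =>
  if ρ = 0 then Z else if ρ = G + 2 then A else if ρ = G + 1 then B else
    if ρ = σ then range (M + 2) else range (M + 1)

/-- remove the last column of a class -/
def up (M ρ₀ : ℕ) (Js : ℕ → Finset ℕ) : ℕ → Finset ℕ := fun ρ =>
  if ρ = ρ₀ then (Js ρ).erase (M + 1) else Js ρ

theorem LL_nodup (G M p q ρ : ℕ) : (LL G M p q ρ).Nodup := by
  unfold LL
  split_ifs <;> exact List.nodup_range

theorem up_A (G M σ : ℕ) (Z A B : Finset ℕ) :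
    up M (G + 2) (JJ G M σ Z A B) = JJ G M σ Z (A.erase (M + 1)) B := by
  funext ρ
  unfold up JJ
  split_ifs <;> first | rfl | omega

theorem up_B (G M σ : ℕ) (Z A B : Finset ℕ) :
    up M (G + 1) (JJ G M σ Z A B) = JJ G M σ Z A (B.erase (M + 1)) := by
  funext ρ
  unfold up JJ
  split_ifs <;> first | rfl | omega

theorem cc_lt {G ρ : ℕ} (h : ρ < G + 3) : cc (G + 3) G ρ < G + 3 := by
  unfold cc
  split_ifs <;> omega

theorem cc_inj {G ρ ρ' : ℕ} (h : ρ < G + 3) (h' : ρ' < G + 3)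
    (e : cc (G + 3) G ρ = cc (G + 3) G ρ') : ρ = ρ' := by
  unfold cc at e
  split_ifs at e <;> omega

theorem divmod {g a b l l' : ℕ} (ha : a < g) (hb : b < g) (e : a + g * l = b + g * l') :
    a = b ∧ l = l' := by
  have h1 : (a + g * l) % g = a := by rw [Nat.add_mul_mod_self_left, Nat.mod_eq_of_lt ha]
  have h2 : (b + g * l') % g = b := by rw [Nat.add_mul_mod_self_left, Nat.mod_eq_of_lt hb]
  have h3 : a = b := by rw [← h1, ← h2, e]
  subst h3
  have h4 : g * l = g * l' := by omega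
  exact ⟨rfl, Nat.eq_of_mul_eq_mul_left (by omega) h4⟩

theorem mem_JG {G : ℕ} (Js : ℕ → Finset ℕ) {ρ₀ l₀ : ℕ} (h : ρ₀ < G + 3) :
    cc (G + 3) G ρ₀ + (G + 3) * l₀ ∈ JG (G + 3) G Js (List.range (G + 3)) ↔ l₀ ∈ Js ρ₀ := by
  unfold JG
  rw [Finset.mem_biUnion]
  constructor
  · rintro ⟨ρ, hρ, hl⟩
    rw [List.mem_toFinset, List.mem_range] at hρ
    rw [Finset.mem_image] at hl
    obtain ⟨l, hl, e⟩ := hl
    obtain ⟨e1, e2⟩ := divmod (cc_lt hρ) (cc_lt h) e
    have := cc_inj hρ h e1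
    subst this
    subst e2
    exact hl
  · intro hl
    exact ⟨ρ₀, by simpa using h, Finset.mem_image.2 ⟨l₀, hl, rfl⟩⟩

theorem JG_lt {G M : ℕ} {Js : ℕ → Finset ℕ} (hJ : ∀ ρ < G + 3, Js ρ ⊆ range (M + 2)) :
    ∀ j ∈ JG (G + 3) G Js (List.range (G + 3)), j < (G + 3) * (M + 2) := by
  intro j hj
  unfold JG at hj
  rw [Finset.mem_biUnion] at hj
  obtain ⟨ρ, hρ, hl⟩ := hj
  rw [List.mem_toFinset, List.mem_range] at hρ
  rw [Finset.mem_image] at hl
  obtain ⟨l, hl, rfl⟩ := hl
  have h1 := Finset.mem_range.1 (hJ ρ hρ hl)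
  have h2 := cc_lt hρ
  have h3 : (G + 3) * (l + 1) ≤ (G + 3) * (M + 2) := Nat.mul_le_mul_left _ (by omega)
  rw [Nat.mul_succ] at h3
  omega

theorem cc_A (G : ℕ) : cc (G + 3) G (G + 2) = G + 1 := by
  unfold cc
  rw [if_neg (by omega)]
  omega

theorem cc_B (G : ℕ) : cc (G + 3) G (G + 1) = G + 2 := by
  unfold cc
  rw [if_neg (by omega)]
  omega

theorem cc_Z (G : ℕ) : cc (G + 3) G 0 = G := by
  unfold cc
  rw [if_pos (by omega)]
  omega

theorem cc_D {G σ : ℕ} (h : σ ≤ G) : cc (G + 3) G σ = G - σ := by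
  unfold cc
  rw [if_pos h]

/-! ### The rows -/

theorem LG_congr (g : ℕ) (Ls Ls' : ℕ → List ℕ) (A : List ℕ) (h : ∀ ρ ∈ A, Ls ρ = Ls' ρ) :
    LG g Ls A = LG g Ls' A := by
  induction A with
  | nil => rfl
  | cons a A ih =>
    unfold LG at *
    rw [List.flatMap_cons, List.flatMap_cons, h a (by simp), ih fun ρ hρ => h ρ (by simp [hρ])]

theorem rows0 (hRD : StmRD) (G M : ℕ) : (List.range ((G + 3) * (M + 1) + 1)).Perm
    (LG (G + 3) (LL G M (M + 2) (M + 1)) (List.range (G + 3))) := by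
  have h := hRD.2.1 (G + 3) ((G + 3) * (M + 1) + 1) (by omega)
  have e : LG (G + 3) (fun ρ => List.range (((G + 3) * (M + 1) + 1 + (G + 3) - 1 - ρ) / (G + 3)))
      (List.range (G + 3)) = LG (G + 3) (LL G M (M + 2) (M + 1)) (List.range (G + 3)) := by
    apply LG_congr
    intro ρ hρ
    rw [List.mem_range] at hρ
    unfold LL
    by_cases h0 : ρ = 0
    · rw [if_pos h0, h0]
      congr 1
      have : (G + 3) * (M + 1) + 1 + (G + 3) - 1 - 0 = (G + 3) * (M + 2) := by
        have : (G + 3) * (M + 2) = (G + 3) * (M + 1) + (G + 3) := Nat.mul_succ _ _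
        omega
      rw [this, Nat.mul_div_cancel_left _ (by omega)]
    · rw [if_neg h0]
      have h1 : ((G + 3) * (M + 1) + 1 + (G + 3) - 1 - ρ) / (G + 3) = M + 1 := by
        have : (G + 3) * (M + 1) + 1 + (G + 3) - 1 - ρ = (G + 3 - ρ) + (G + 3) * (M + 1) := by
          omega
        rw [this, Nat.add_mul_div_left _ _ (by omega), Nat.div_eq_of_lt (by omega), zero_add]
      rw [h1]
      split_ifs <;> rfl
  rw [e] at h
  exact h

theorem rowsZ (hRD : StmRD) (G M q : ℕ) :
    ((LG (G + 3) (LL G M (M + 2) q) (List.range (G + 3))).erase (0 + (G + 3) * (M + 1))).Perm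
      (LG (G + 3) (LL G M (M + 1) q) (List.range (G + 3))) := by
  refine hRD.2.2.2 (G + 3) _ _ 0 (M + 1) _ (fun ρ h => List.mem_range.1 h) List.nodup_range
    (by simp) (fun ρ _ => LL_nodup _ _ _ _ _) ?_ ?_
  · simp [LL, lerase]
  · intro ρ hρ
    simp [LL, hρ]

theorem rowsA (hRD : StmRD) (G M p : ℕ) :
    ((LG (G + 3) (LL G M p (M + 1)) (List.range (G + 3))).erase (G + 2 + (G + 3) * M)).Perm
      (LG (G + 3) (LL G M p M) (List.range (G + 3))) := by
  refine hRD.2.2.2 (G + 3) _ _ (G + 2) M _ (fun ρ h => List.mem_range.1 h) List.nodup_range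
    (by simp) (fun ρ _ => LL_nodup _ _ _ _ _) ?_ ?_
  · simp [LL, lerase]
  · intro ρ hρ
    simp [LL, hρ]

theorem colsUp (hRD : StmRD) (G M ρ₀ : ℕ) (h : ρ₀ < G + 3) (Js : ℕ → Finset ℕ) :
    (JG (G + 3) G Js (List.range (G + 3))).erase (cc (G + 3) G ρ₀ + (G + 3) * (M + 1)) =
      JG (G + 3) G (up M ρ₀ Js) (List.range (G + 3)) := by
  refine hRD.2.2.1 (G + 3) G Js _ ρ₀ (M + 1) _ (by omega) (fun ρ h => List.mem_range.1 h)
    List.nodup_range (by simpa using h) ?_ ?_
  · simp [up]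
  · intro ρ hρ
    simp [up, hρ]

/-! ### The master formula -/

section

variable {k : Type*} [Field k]

theorem master (hLK : StmLK k) (hRD : StmRD) (G M : ℕ) (y : ℕ → k) (Js : ℕ → Finset ℕ)
    (hJ : ∀ ρ < G + 3, Js ρ ⊆ range (M + 2)) (F : (ℕ → k) → Finset ℕ → List ℕ → k)
    (hF : F = pm ∨ F = fun x => pd x y) :
    F (qB3 k (G + 3) (M + 2)) (JG (G + 3) G Js (List.range (G + 3)))
      (List.range ((G + 3) * (M + 1) + 1)) =
    F (cst (G + 3) G (uN k (M + 2))) (JG (G + 3) G Js (List.range (G + 3)))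
      (LG (G + 3) (LL G M (M + 2) (M + 1)) (List.range (G + 3))) +
    (if M + 1 ∈ Js (G + 2) then F (cst (G + 3) G (uN k (M + 2)))
      (JG (G + 3) G (up M (G + 2) Js) (List.range (G + 3)))
      (LG (G + 3) (LL G M (M + 1) (M + 1)) (List.range (G + 3))) else 0) +
    (if M + 1 ∈ Js (G + 1) then F (cst (G + 3) G (uN k (M + 2)))
      (JG (G + 3) G (up M (G + 1) Js) (List.range (G + 3)))
      (LG (G + 3) (LL G M (M + 2) M) (List.range (G + 3))) else 0) +
    (if M + 1 ∈ Js (G + 2) ∧ M + 1 ∈ Js (G + 1) then F (cst (G + 3) G (uN k (M + 2)))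
      (JG (G + 3) G (up M (G + 1) (up M (G + 2) Js)) (List.range (G + 3)))
      (LG (G + 3) (LL G M (M + 1) M) (List.range (G + 3))) else 0) := by
  have hP1 : (G + 3) * (M + 2) = (G + 3) * (M + 1) + (G + 3) := Nat.mul_succ _ _
  have hP2 : (G + 3) * (M + 1) = (G + 3) * M + (G + 3) := Nat.mul_succ _ _
  have hN : (G + 3) * (2 * (M + 2) - 1) = 2 * ((G + 3) * (M + 1)) + (G + 3) := by
    have : 2 * (M + 2) - 1 = 2 * (M + 1) + 1 := by omega
    rw [this]
    ring
  set P := (G + 3) * (M + 1) with hPdef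
  set x0 := cst (G + 3) G (uN k (M + 2)) with hx0
  set x1 := qB3 k (G + 3) (M + 2) with hx1
  set J := JG (G + 3) G Js (List.range (G + 3)) with hJd
  set L := List.range (P + 1) with hLd
  -- permutation invariance
  have hperm : ∀ (x : ℕ → k) (L L' : List ℕ), L.Perm L' → ∀ J, F x J L = F x J L' := by
    intro x L L' h J
    rcases hF with rfl | rfl
    · exact (BA.ta k).1 x L L' h J
    · exact (BA.ta k).2.1 x y L L' h J
  -- the variable
  have hz : ∀ v, v ≠ G + 1 + P + P → x1 v = x0 v := by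
    intro v hv
    rw [hx1, qB3, if_neg]
    · rfl
    · rw [hN]
      omega
  have hz1 : x1 (G + 1 + P + P) - x0 (G + 1 + P + P) = 1 := by
    have h1 : x1 (G + 1 + P + P) = 1 := by
      rw [hx1, qB3, if_pos]
      rw [hN]
      omega
    have h2 : x0 (G + 1 + P + P) = 0 := by
      rw [hx0, cst, if_neg]
      have : G + 1 + P + P = G + 1 + (G + 3) * (2 * (M + 1)) := by
        rw [hPdef]
        ring
      rw [this, Nat.add_mul_mod_self_left, Nat.mod_eq_of_lt (by omega)]
      omega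
    rw [h1, h2, sub_zero]
  have hlk := hLK.2 x0 x1 y (G + 1 + P + P) (G + 1 + P) P (G + 2 + P) (G + 2 + (G + 3) * M)
    (by ring) (by omega) (by omega) hz J L List.nodup_range (by
      intro j hj c hc e
      have h1 := JG_lt hJ j hj
      have h2 := List.mem_range.1 hc
      omega)
  have hm0 : (G + 1 + P ∈ J ∧ P ∈ L) ↔ M + 1 ∈ Js (G + 2) := by
    have h1 := mem_JG (G := G) Js (ρ₀ := G + 2) (l₀ := M + 1) (by omega)
    rw [cc_A] at h1
    constructor
    · rintro ⟨h, -⟩
      exact h1.1 h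
    · intro h
      exact ⟨h1.2 h, List.mem_range.2 (by omega)⟩
  have hm1 : (G + 2 + P ∈ J ∧ G + 2 + (G + 3) * M ∈ L) ↔ M + 1 ∈ Js (G + 1) := by
    have h1 := mem_JG (G := G) Js (ρ₀ := G + 1) (l₀ := M + 1) (by omega)
    rw [cc_B] at h1
    constructor
    · rintro ⟨h, -⟩
      exact h1.1 h
    · intro h
      exact ⟨h1.2 h, List.mem_range.2 (by omega)⟩
  have hr0 := rows0 hRD G M
  have hr1 : (L.erase P).Perm (LG (G + 3) (LL G M (M + 1) (M + 1)) (List.range (G + 3))) := by
    have hrz := rowsZ hRD G M (M + 1)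
    rw [zero_add] at hrz
    exact (hr0.erase P).trans hrz
  have hr2 : (L.erase (G + 2 + (G + 3) * M)).Perm
      (LG (G + 3) (LL G M (M + 2) M) (List.range (G + 3))) :=
    (hr0.erase _).trans (rowsA hRD G M (M + 2))
  have hr3 : ((L.erase P).erase (G + 2 + (G + 3) * M)).Perm
      (LG (G + 3) (LL G M (M + 1) M) (List.range (G + 3))) :=
    (hr1.erase _).trans (rowsA hRD G M (M + 1))
  have hc1 : J.erase (G + 1 + P) = JG (G + 3) G (up M (G + 2) Js) (List.range (G + 3)) := by
    have := colsUp hRD G M (G + 2) (by omega) Js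
    rw [cc_A] at this
    exact this
  have hc2 : J.erase (G + 2 + P) = JG (G + 3) G (up M (G + 1) Js) (List.range (G + 3)) := by
    have := colsUp hRD G M (G + 1) (by omega) Js
    rw [cc_B] at this
    exact this
  have hc3 : (J.erase (G + 1 + P)).erase (G + 2 + P) =
      JG (G + 3) G (up M (G + 1) (up M (G + 2) Js)) (List.range (G + 3)) := by
    have := colsUp hRD G M (G + 1) (by omega) (up M (G + 2) Js)
    rw [cc_B] at this
    rw [hc1]
    exact this
  have hlk' : F x1 J L = F x0 J L +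
      (if G + 1 + P ∈ J ∧ P ∈ L then F x0 (J.erase (G + 1 + P)) (L.erase P) else 0) +
      (if G + 2 + P ∈ J ∧ G + 2 + (G + 3) * M ∈ L then
        F x0 (J.erase (G + 2 + P)) (L.erase (G + 2 + (G + 3) * M)) else 0) +
      (if (G + 1 + P ∈ J ∧ P ∈ L) ∧ (G + 2 + P ∈ J ∧ G + 2 + (G + 3) * M ∈ L) then
        F x0 ((J.erase (G + 1 + P)).erase (G + 2 + P))
          ((L.erase P).erase (G + 2 + (G + 3) * M)) else 0) := by
    rcases hF with rfl | rfl
    · have := hlk.1
      rw [hz1] at this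
      simp only [one_mul, one_pow] at this
      exact this
    · have := hlk.2
      rw [hz1] at this
      simp only [one_mul, one_pow] at this
      exact this
  rw [hlk', hperm _ _ _ hr0 J, hperm _ _ _ hr1, hperm _ _ _ hr2, hperm _ _ _ hr3, hc3, hc1, hc2]
  simp only [hm0, hm1]

end

end Pool.Agent.N729.HQ.PB3a
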