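import Pool.Agent.N729.HQ.PB3aV

/-!
Project HQ, part PB3 (copy a), preparations: evaluation of derivatives.
-/

set_option autoImplicit false
set_option linter.unusedSectionVars false

namespace Pool.Agent.N729.HQ.PB3a

open Finset
open Pool.Agent.N186.HK (pm vm IsHankel)
open Pool.Agent.N729.HP

section

variable (k : Type*) [Field k]

/-- cofactors of `Z` -/
def ea (M i l : ℕ) : k :=
  if i + 1 = M + 2 ∧ l + 1 = M + 2 then 2 else if i + 1 = M + 2 ∨ l + 1 = M + 2 then 0 else
    if i + l < M + 2 then 1 else -1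

/-- cofactors of `A` -/
def aa (M i l : ℕ) : k := if i + l + 1 < M + 2 then 1 else -1

/-- maximal minors of `A` -/
def a5 (M l : ℕ) : k := if l + 1 = M + 2 then 0 else 1

/-- maximal minors of `D` -/
def b0 (M l : ℕ) : k := if l + 1 = M + 2 then 2 else 0

variable {M : ℕ} (hM : 1 ≤ M)
include hM

theorem f1 : pm (uN k (M + 2)) (range (M + 2)) (List.range (M + 2)) = 0 :=
  (cn k (M + 2) (by omega)).1

theorem f2 : ∀ i < M + 2, ∀ l < M + 2,
    pm (uN k (M + 2)) ((range (M + 2)).erase l) ((List.range (M + 2)).erase i) = ea k M i l :=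
  (cn k (M + 2) (by omega)).2.1

theorem f3 : pm (fun s => uN k (M + 2) (s + 1)) (range (M + 1)) (List.range (M + 1)) = 0 :=
  (cn k (M + 2) (by omega)).2.2.1

theorem f4 : ∀ i < M + 1, ∀ l < M + 1,
    pm (fun s => uN k (M + 2) (s + 1)) ((range (M + 1)).erase l) ((List.range (M + 1)).erase i) =
      aa k M i l :=
  (cn k (M + 2) (by omega)).2.2.2.1

theorem f5 : ∀ l < M + 2,
    pm (fun s => uN k (M + 2) (s + 1)) ((range (M + 2)).erase l) (List.range (M + 1)) =
      a5 k M l :=
  (cn k (M + 2) (by omega)).2.2.2.2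

theorem f6 : ∀ l < M + 2,
    pm (uN k (M + 2)) ((range (M + 2)).erase l) (List.range (M + 1)) = b0 k M l := by
  intro l hl
  have h := f2 k hM (M + 1) (by omega) l hl
  rw [lerase] at h
  rw [h]
  unfold ea b0
  by_cases h1 : l + 1 = M + 2
  · rw [if_pos ⟨rfl, h1⟩, if_pos h1]
  · rw [if_neg (fun h => h1 h.2), if_pos (Or.inl rfl), if_neg h1]

theorem f7 : ∀ l < M + 1,
    pm (fun s => uN k (M + 2) (s + 1)) ((range (M + 1)).erase l) (List.range M) =
      aa k M M l := by
  intro l hl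
  have h := f4 k hM M (by omega) l hl
  rw [lerase] at h
  exact h

theorem f8 : pm (uN k (M + 2)) (range (M + 1)) (List.range (M + 1)) = 2 := by
  have h := f6 k hM (M + 1) (by omega)
  rw [ferase] at h
  rw [h, b0, if_pos rfl]

end

/-! ### Columns -/

section

variable (G M σ : ℕ) (Z A B : Finset ℕ)

theorem JJ0 : JJ G M σ Z A B 0 = Z := by simp [JJ]

theorem JJA : JJ G M σ Z A B (G + 2) = A := by simp [JJ]

theorem JJB : JJ G M σ Z A B (G + 1) = B := by simp [JJ]

theorem JJs (h1 : 1 ≤ σ) (h2 : σ ≤ G) : JJ G M σ Z A B σ = range (M + 2) := by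
  unfold JJ
  rw [if_neg (by omega), if_neg (by omega), if_neg (by omega), if_pos rfl]

theorem JJD {ρ : ℕ} (h1 : 1 ≤ ρ) (h2 : ρ ≤ G) (h3 : ρ ≠ σ) :
    JJ G M σ Z A B ρ = range (M + 1) := by
  unfold JJ
  rw [if_neg (by omega), if_neg (by omega), if_neg (by omega), if_neg h3]

end

/-- the three special blocks -/
def Tri (G a b c : ℕ) : Prop := a ≠ b ∧ a ≠ c ∧ b ≠ c ∧ (a = 0 ∨ a = G + 1 ∨ a = G + 2) ∧
  (b = 0 ∨ b = G + 1 ∨ b = G + 2) ∧ (c = 0 ∨ c = G + 1 ∨ c = G + 2)

theorem setD {G a b c σ : ℕ} (h : Tri G a b c) (h1 : 1 ≤ σ) (h2 : σ ≤ G) :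
    ((range (G + 3)).erase a).erase σ = insert b (insert c ((Ico 1 (G + 1)).erase σ)) := by
  ext ρ
  simp only [mem_erase, mem_range, mem_insert, mem_Ico]
  unfold Tri at h
  omega

theorem set0 {G a b c : ℕ} (h : Tri G a b c) :
    ((range (G + 3)).erase a).erase b = insert c ((Ico 1 (G + 1)).erase 0) := by
  ext ρ
  simp only [mem_erase, mem_range, mem_insert, mem_Ico]
  unfold Tri at h
  omega

theorem set1 {G a b c : ℕ} (h : Tri G a b c) :
    (range (G + 3)).erase a = insert b (insert c ((Ico 1 (G + 1)).erase 0)) := by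
  ext ρ
  simp only [mem_erase, mem_range, mem_insert, mem_Ico]
  unfold Tri at h
  omega

section

variable {k : Type*} [Field k]

/-- the permanent of a block -/
def V (k : Type*) [Field k] (G M σ : ℕ) (Z A B : Finset ℕ) (p q ρ : ℕ) : k :=
  pm (fun s => uN k (M + 2) (s + sh G ρ)) (JJ G M σ Z A B ρ) (LL G M p q ρ)

/-- the common factor -/
def Pc (k : Type*) [Field k] (G σ : ℕ) : k := ∏ _ρ ∈ (Ico 1 (G + 1)).erase σ, (2 : k)

theorem Pc_ne (h2 : (2 : k) ≠ 0) (G σ : ℕ) : Pc k G σ ≠ 0 :=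
  Finset.prod_ne_zero_iff.2 fun _ _ => h2

variable {M : ℕ} (hM : 1 ≤ M)
include hM

theorem prodV (G σ : ℕ) (Z A B : Finset ℕ) (p q : ℕ) :
    ∏ ρ ∈ (Ico 1 (G + 1)).erase σ, V k G M σ Z A B p q ρ = Pc k G σ := by
  unfold Pc
  refine Finset.prod_congr rfl fun ρ hρ => ?_
  rw [mem_erase, mem_Ico] at hρ
  unfold V
  rw [bk0 _ (by omega), JJD G M σ Z A B (by omega) (by omega) hρ.1,
    LLD G M p q (by omega) (by omega), f8 k hM]

theorem evD (hRF : StmRF k) (G : ℕ) (y : ℕ → k) {σ : ℕ} (h1 : 1 ≤ σ) (h2 : σ ≤ G)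
    (Z A B : Finset ℕ) (p q : ℕ) {a b c : ℕ} (ht : Tri G a b c)
    (ha : (JJ G M σ Z A B a).card + 1 = (LL G M p q a).length)
    (hb : (JJ G M σ Z A B b).card = (LL G M p q b).length)
    (hc : (JJ G M σ Z A B c).card = (LL G M p q c).length) :
    pd (cst (G + 3) G (uN k (M + 2))) y (JG (G + 3) G (JJ G M σ Z A B) (List.range (G + 3)))
      (LG (G + 3) (LL G M p q) (List.range (G + 3))) =
    (∑ i ∈ (LL G M p q a).toFinset, ∑ l ∈ range (M + 2),
      y (a + (G + 3) * i + (G - σ + (G + 3) * l)) *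
        pm (fun s => uN k (M + 2) (s + sh G a)) (JJ G M σ Z A B a) ((LL G M p q a).erase i) *
        b0 k M l) * (V k G M σ Z A B p q b * (V k G M σ Z A B p q c * Pc k G σ)) := by
  have hT := ht
  unfold Tri at hT
  have h := (hRF (G + 3) G (uN k (M + 2)) y (by omega) (JJ G M σ Z A B) (LL G M p q)
    (List.range (G + 3)) List.nodup_range (fun ρ h => List.mem_range.1 h)
    (fun ρ _ => LL_nodup G M p q ρ)).2.2.1 a (List.mem_range.2 (by omega)) σ
    (List.mem_range.2 (by omega)) (by omega) ha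
    (by rw [JJs G M σ Z A B h1 h2, LLD G M p q h1 h2, card_range, List.length_range])
    (by
      intro ρ hρ hρa hρσ
      rw [List.mem_range] at hρ
      by_cases e1 : ρ = b
      · rw [e1]; exact hb
      by_cases e2 : ρ = c
      · rw [e2]; exact hc
      rw [JJD G M σ Z A B (by omega) (by omega) hρσ, LLD G M p q (by omega) (by omega),
        card_range, List.length_range])
  rw [List.toFinset_range, setD ht h1 h2, Finset.prod_insert (by
    simp only [mem_insert, mem_erase, mem_Ico]; omega), Finset.prod_insert (by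
    simp only [mem_erase, mem_Ico]; omega)] at h
  have h3 := prodV (k := k) hM G σ Z A B p q
  unfold V at h3
  rw [h3, JJs G M σ Z A B h1 h2, LLD G M p q h1 h2, bk0 _ h2, cc_D h2] at h
  refine h.trans ?_
  unfold V
  congr 1
  refine Finset.sum_congr rfl fun i _ => Finset.sum_congr rfl fun l hl => ?_
  rw [f6 k hM l (mem_range.1 hl)]

theorem ev0 (hRF : StmRF k) (G : ℕ) (y : ℕ → k)
    (Z A B : Finset ℕ) (p q : ℕ) {a b c : ℕ} (ht : Tri G a b c)
    (ha : (JJ G M 0 Z A B a).card + 1 = (LL G M p q a).length)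
    (hb : (JJ G M 0 Z A B b).card = (LL G M p q b).length + 1)
    (hc : (JJ G M 0 Z A B c).card = (LL G M p q c).length) :
    pd (cst (G + 3) G (uN k (M + 2))) y (JG (G + 3) G (JJ G M 0 Z A B) (List.range (G + 3)))
      (LG (G + 3) (LL G M p q) (List.range (G + 3))) =
    (∑ i ∈ (LL G M p q a).toFinset, ∑ l ∈ JJ G M 0 Z A B b,
      y (a + (G + 3) * i + (cc (G + 3) G b + (G + 3) * l)) *
        pm (fun s => uN k (M + 2) (s + sh G a)) (JJ G M 0 Z A B a) ((LL G M p q a).erase i) *
        pm (fun s => uN k (M + 2) (s + sh G b)) ((JJ G M 0 Z A B b).erase l) (LL G M p q b)) *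
      (V k G M 0 Z A B p q c * Pc k G 0) := by
  have hT := ht
  unfold Tri at hT
  have h := (hRF (G + 3) G (uN k (M + 2)) y (by omega) (JJ G M 0 Z A B) (LL G M p q)
    (List.range (G + 3)) List.nodup_range (fun ρ h => List.mem_range.1 h)
    (fun ρ _ => LL_nodup G M p q ρ)).2.2.1 a (List.mem_range.2 (by omega)) b
    (List.mem_range.2 (by omega)) (by omega) ha hb
    (by
      intro ρ hρ hρa hρσ
      rw [List.mem_range] at hρ
      by_cases e2 : ρ = c
      · rw [e2]; exact hc
      rw [JJD G M 0 Z A B (by omega) (by omega) (by omega), LLD G M p q (by omega) (by omega),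
        card_range, List.length_range])
  rw [List.toFinset_range, set0 ht, Finset.prod_insert (by
    simp only [mem_erase, mem_Ico]; omega)] at h
  have h3 := prodV (k := k) hM G 0 Z A B p q
  unfold V at h3
  rw [h3] at h
  exact h

theorem evP (hRF : StmRF k) (G : ℕ) (y : ℕ → k)
    (Z A B : Finset ℕ) (p q : ℕ) {a b c : ℕ} (ht : Tri G a b c)
    (ha : (JJ G M 0 Z A B a).card = (LL G M p q a).length)
    (hb : (JJ G M 0 Z A B b).card = (LL G M p q b).length)
    (hc : (JJ G M 0 Z A B c).card = (LL G M p q c).length)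
    (h0 : V k G M 0 Z A B p q a = 0) :
    pd (cst (G + 3) G (uN k (M + 2))) y (JG (G + 3) G (JJ G M 0 Z A B) (List.range (G + 3)))
      (LG (G + 3) (LL G M p q) (List.range (G + 3))) =
    pd (fun s => uN k (M + 2) (s + sh G a)) (fun s => y (G + (G + 3) * (s + sh G a)))
      (JJ G M 0 Z A B a) (LL G M p q a) *
      (V k G M 0 Z A B p q b * (V k G M 0 Z A B p q c * Pc k G 0)) := by
  have hT := ht
  unfold Tri at hT
  have h := (hRF (G + 3) G (uN k (M + 2)) y (by omega) (JJ G M 0 Z A B) (LL G M p q)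
    (List.range (G + 3)) List.nodup_range (fun ρ h => List.mem_range.1 h)
    (fun ρ _ => LL_nodup G M p q ρ)).2.1
    (by
      intro ρ hρ
      rw [List.mem_range] at hρ
      by_cases e1 : ρ = a
      · rw [e1]; exact ha
      by_cases e2 : ρ = b
      · rw [e2]; exact hb
      by_cases e3 : ρ = c
      · rw [e3]; exact hc
      rw [JJD G M 0 Z A B (by omega) (by omega) (by omega), LLD G M p q (by omega) (by omega),
        card_range, List.length_range])
  rw [List.toFinset_range, Finset.sum_eq_single a, set1 ht, Finset.prod_insert (by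
    simp only [mem_insert, mem_erase, mem_Ico]; omega), Finset.prod_insert (by
    simp only [mem_erase, mem_Ico]; omega)] at h
  · have h3 := prodV (k := k) hM G 0 Z A B p q
    unfold V at h3
    rw [h3] at h
    exact h
  · intro ρ _ hρ
    unfold V at h0
    have hmem : a ∈ (range (G + 3)).erase ρ := by
      simp only [mem_erase, mem_range]
      exact ⟨fun h => hρ h.symm, by omega⟩
    rw [Finset.prod_eq_zero hmem h0, mul_zero]
  · intro h
    exact absurd (mem_range.2 (by omega)) h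

omit hM in
theorem evZ (hRF : StmRF k) (G M : ℕ) (y : ℕ → k) (σ : ℕ) (Z A B : Finset ℕ) (p q : ℕ) {a b : ℕ}
    (ha : a < G + 3) (hb : b < G + 3) (hab : a ≠ b)
    (h1 : (JJ G M σ Z A B a).card < (LL G M p q a).length)
    (h2 : (JJ G M σ Z A B b).card < (LL G M p q b).length) :
    pd (cst (G + 3) G (uN k (M + 2))) y (JG (G + 3) G (JJ G M σ Z A B) (List.range (G + 3)))
      (LG (G + 3) (LL G M p q) (List.range (G + 3))) = 0 :=
  (hRF (G + 3) G (uN k (M + 2)) y (by omega) (JJ G M σ Z A B) (LL G M p q)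
    (List.range (G + 3)) List.nodup_range (fun ρ h => List.mem_range.1 h)
    (fun ρ _ => LL_nodup G M p q ρ)).2.2.2.2 ⟨a, List.mem_range.2 ha, b, List.mem_range.2 hb, hab,
      h1, h2⟩

end

end Pool.Agent.N729.HQ.PB3a
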