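import Pool.Agent.N729.HQ.PB3aE

/-!
Project HQ, part PB3 (copy a), preparations: the relations.
-/

set_option autoImplicit false
set_option linter.unusedSectionVars false

namespace Pool.Agent.N729.HQ.PB3a

open Finset
open Pool.Agent.N186.HK (pm vm IsHankel)
open Pool.Agent.N729.HP

section

variable {k : Type*} [Field k]

/-- the four terms of a tangent equation -/
theorem tang (hLK : StmLK k) (hRD : StmRD) (G M : ℕ) (y : ℕ → k)
    (hy : Tt ((G + 3) * (M + 2)) ((G + 3) * (M + 1) + 1) (qB3 k (G + 3) (M + 2)) y)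
    (Js : ℕ → Finset ℕ) (hJ : ∀ ρ < G + 3, Js ρ ⊆ range (M + 2)) (s : ℕ) (hs : s < G + 3)
    (hc : ∀ ρ < G + 3, (Js ρ).card = M + 1 + if ρ = s then 1 else 0) :
    pd (cst (G + 3) G (uN k (M + 2))) y (JG (G + 3) G Js (List.range (G + 3)))
      (LG (G + 3) (LL G M (M + 2) (M + 1)) (List.range (G + 3))) +
    (if M + 1 ∈ Js (G + 2) then pd (cst (G + 3) G (uN k (M + 2))) y
      (JG (G + 3) G (up M (G + 2) Js) (List.range (G + 3)))
      (LG (G + 3) (LL G M (M + 1) (M + 1)) (List.range (G + 3))) else 0) +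
    (if M + 1 ∈ Js (G + 1) then pd (cst (G + 3) G (uN k (M + 2))) y
      (JG (G + 3) G (up M (G + 1) Js) (List.range (G + 3)))
      (LG (G + 3) (LL G M (M + 2) M) (List.range (G + 3))) else 0) +
    (if M + 1 ∈ Js (G + 2) ∧ M + 1 ∈ Js (G + 1) then pd (cst (G + 3) G (uN k (M + 2))) y
      (JG (G + 3) G (up M (G + 1) (up M (G + 2) Js)) (List.range (G + 3)))
      (LG (G + 3) (LL G M (M + 1) M) (List.range (G + 3))) else 0) = 0 := by
  have h := master hLK hRD G M y Js hJ (fun x => pd x y) (Or.inr rfl)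
  rw [← h]
  apply hy
  · rw [cardJG (k := k) G (uN k (M + 2)) Js,
      Finset.sum_congr rfl fun ρ hρ => hc ρ (mem_range.1 hρ), Finset.sum_add_distrib,
      Finset.sum_const, Finset.card_range, smul_eq_mul, Finset.sum_ite_eq', if_pos]
    exact mem_range.2 hs
  · exact JG_lt hJ

/-- combinations with the cofactors of `Z` -/
def S0 (M : ℕ) (W : ℕ → k) (l : ℕ) : k := ∑ i ∈ range (M + 2), W i * ea k M i l

/-- combinations with the cofactors of `A` -/
def S1 (M : ℕ) (W : ℕ → k) (l : ℕ) : k :=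
  if l + 1 = M + 2 then 0 else ∑ i ∈ range (M + 1), W i * aa k M i l

/-- the minors of `A` without last row -/
def b1 (k : Type*) [Field k] (M l : ℕ) : k := if l + 1 = M + 2 then 0 else aa k M M l

variable {M : ℕ} (hM : 1 ≤ M)

section
include hM

theorem srcZ (G σ q : ℕ) (y : ℕ → k) (A B S : Finset ℕ) (d : ℕ) (wt wt' : ℕ → k) {l0 : ℕ}
    (h0 : l0 < M + 2) (hw : ∀ l ∈ S, wt l = wt' l) :
    ∑ i ∈ (LL G M (M + 2) q 0).toFinset, ∑ l ∈ S, y (0 + (G + 3) * i + (d + (G + 3) * l)) *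
      pm (fun s => uN k (M + 2) (s + sh G 0)) (JJ G M σ ((range (M + 2)).erase l0) A B 0)
        ((LL G M (M + 2) q 0).erase i) * wt l =
    S0 M (fun i => ∑ l ∈ S, y ((G + 3) * i + (d + (G + 3) * l)) * wt' l) l0 := by
  unfold S0
  rw [LL0, JJ0, List.toFinset_range, bk0 _ (by omega)]
  refine Finset.sum_congr rfl fun i hi => ?_
  rw [f2 k hM i (mem_range.1 hi) l0 h0, Finset.sum_mul]
  refine Finset.sum_congr rfl fun l hl => ?_
  rw [hw l hl, zero_add]
  ring

theorem srcA (G σ p : ℕ) (y : ℕ → k) (Z B S : Finset ℕ) (d : ℕ) (wt wt' : ℕ → k) {l1 : ℕ}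
    (h1 : l1 < M + 1) (hw : ∀ l ∈ S, wt l = wt' l) :
    ∑ i ∈ (LL G M p (M + 1) (G + 2)).toFinset, ∑ l ∈ S,
      y (G + 2 + (G + 3) * i + (d + (G + 3) * l)) *
      pm (fun s => uN k (M + 2) (s + sh G (G + 2)))
        (JJ G M σ Z ((range (M + 1)).erase l1) B (G + 2))
        ((LL G M p (M + 1) (G + 2)).erase i) * wt l =
    S1 M (fun i => ∑ l ∈ S, y (G + 2 + (G + 3) * i + (d + (G + 3) * l)) * wt' l) l1 := by
  unfold S1
  rw [LLA, JJA, List.toFinset_range, bk1 _ (by omega), if_neg (by omega)]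
  refine Finset.sum_congr rfl fun i hi => ?_
  rw [f4 k hM i (mem_range.1 hi) l1 h1, Finset.sum_mul]
  refine Finset.sum_congr rfl fun l hl => ?_
  rw [hw l hl]
  ring

theorem srcB (G σ p q : ℕ) (y : ℕ → k) (Z A S : Finset ℕ) (d : ℕ) (wt wt' : ℕ → k) {l2 : ℕ}
    (h2 : l2 < M + 1) (hw : ∀ l ∈ S, wt l = wt' l) :
    ∑ i ∈ (LL G M p q (G + 1)).toFinset, ∑ l ∈ S,
      y (G + 1 + (G + 3) * i + (d + (G + 3) * l)) *
      pm (fun s => uN k (M + 2) (s + sh G (G + 1)))
        (JJ G M σ Z A ((range (M + 1)).erase l2) (G + 1))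
        ((LL G M p q (G + 1)).erase i) * wt l =
    S1 M (fun i => ∑ l ∈ S, y (G + 1 + (G + 3) * i + (d + (G + 3) * l)) * wt' l) l2 := by
  unfold S1
  rw [LLB, JJB, List.toFinset_range, bk1 _ (by omega), if_neg (by omega)]
  refine Finset.sum_congr rfl fun i hi => ?_
  rw [f4 k hM i (mem_range.1 hi) l2 h2, Finset.sum_mul]
  refine Finset.sum_congr rfl fun l hl => ?_
  rw [hw l hl]
  ring

theorem VA (G σ p : ℕ) (Z B : Finset ℕ) {l : ℕ} (h : l < M + 2) :
    V k G M σ Z ((range (M + 2)).erase l) B p (M + 1) (G + 2) = a5 k M l := by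
  unfold V
  rw [LLA, JJA, bk1 _ (by omega), f5 k hM l h]

theorem VA' (G σ p : ℕ) (Z B : Finset ℕ) {l : ℕ} (h : l < M + 1) :
    V k G M σ Z ((range (M + 1)).erase l) B p M (G + 2) = b1 k M l := by
  unfold V
  rw [LLA, JJA, bk1 _ (by omega), f7 k hM l h, b1, if_neg (by omega)]

theorem VA0 (G σ p : ℕ) (Z B : Finset ℕ) :
    V k G M σ Z (range (M + 1)) B p (M + 1) (G + 2) = 0 := by
  unfold V
  rw [LLA, JJA, bk1 _ (by omega), f3 k hM]

theorem VB (G σ p q : ℕ) (Z A : Finset ℕ) {l : ℕ} (h : l < M + 2) :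
    V k G M σ Z A ((range (M + 2)).erase l) p q (G + 1) = a5 k M l := by
  unfold V
  rw [LLB, JJB, bk1 _ (by omega), f5 k hM l h]

theorem VB0 (G σ p q : ℕ) (Z A : Finset ℕ) :
    V k G M σ Z A (range (M + 1)) p q (G + 1) = 0 := by
  unfold V
  rw [LLB, JJB, bk1 _ (by omega), f3 k hM]

theorem VZ (G σ q : ℕ) (A B : Finset ℕ) {l : ℕ} (h : l < M + 2) :
    V k G M σ ((range (M + 2)).erase l) A B (M + 1) q 0 = b0 k M l := by
  unfold V
  rw [LL0, JJ0, bk0 _ (by omega), f6 k hM l h]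

theorem VZ0 (G σ q : ℕ) (A B : Finset ℕ) :
    V k G M σ (range (M + 2)) A B (M + 2) q 0 = 0 := by
  unfold V
  rw [LL0, JJ0, bk0 _ (by omega), f1 k hM]

/-- the derivative of `A` -/
theorem dA_eq (G a : ℕ) (ha : G < a) (y : ℕ → k) :
    pd (fun s => uN k (M + 2) (s + sh G a)) (fun s => y (G + (G + 3) * (s + sh G a)))
      (range (M + 1)) (List.range (M + 1)) =
    ∑ i ∈ range (M + 1), ∑ l ∈ range (M + 1), aa k M i l * y (G + (G + 3) * (i + l + 1)) := by
  rw [bf k _ _ _ _ List.nodup_range, List.toFinset_range, bk1 _ ha]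
  refine Finset.sum_congr rfl fun i hi => Finset.sum_congr rfl fun l hl => ?_
  rw [f4 k hM i (mem_range.1 hi) l (mem_range.1 hl), mul_comm, sh, if_neg (by omega),
    add_comm l i]

/-- the derivative of `Z` -/
theorem dB_eq (G : ℕ) (y : ℕ → k) :
    pd (fun s => uN k (M + 2) (s + sh G 0)) (fun s => y (G + (G + 3) * (s + sh G 0)))
      (range (M + 2)) (List.range (M + 2)) =
    ∑ i ∈ range (M + 2), ∑ l ∈ range (M + 2), ea k M i l * y (G + (G + 3) * (i + l)) := by
  rw [bf k _ _ _ _ List.nodup_range, List.toFinset_range, bk0 _ (by omega)]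
  refine Finset.sum_congr rfl fun i hi => Finset.sum_congr rfl fun l hl => ?_
  rw [f2 k hM i (mem_range.1 hi) l (mem_range.1 hl), mul_comm, sh, if_pos (by omega),
    add_zero, add_comm l i]

end

theorem memer {M l : ℕ} : M + 1 ∈ (range (M + 2)).erase l ↔ l ≠ M + 1 := by
  simp only [mem_erase, mem_range]
  omega

theorem card1 {M l : ℕ} (h : l < M + 2) : ((range (M + 2)).erase l).card = M + 1 := by
  have := card_er h
  omega

theorem card2 {M l : ℕ} (h : l < M + 1) : ((range (M + 1)).erase l).card = M := by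
  have := card_er h
  omega

include hM

/-- the relations for the sinks `D` -/
theorem relD (hLK : StmLK k) (hRF : StmRF k) (hRD : StmRD) (h2 : (2 : k) ≠ 0) (G : ℕ)
    (y : ℕ → k)
    (hy : Tt ((G + 3) * (M + 2)) ((G + 3) * (M + 1) + 1) (qB3 k (G + 3) (M + 2)) y)
    {σ : ℕ} (hσ1 : 1 ≤ σ) (hσ2 : σ ≤ G) {l0 l1 l2 : ℕ} (hl0 : l0 < M + 2) (hl1 : l1 < M + 2)
    (hl2 : l2 < M + 2) :
    S0 M (fun i => ∑ l ∈ range (M + 2), y ((G + 3) * i + (G - σ + (G + 3) * l)) * b0 k M l) l0 *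
      a5 k M l1 * a5 k M l2 +
    b0 k M l0 * S1 M (fun i => ∑ l ∈ range (M + 2),
      y (G + 2 + (G + 3) * i + (G - σ + (G + 3) * l)) * b0 k M l) l1 * a5 k M l2 +
    b0 k M l0 * b1 k M l1 * S1 M (fun i => ∑ l ∈ range (M + 2),
      y (G + 1 + (G + 3) * i + (G - σ + (G + 3) * l)) * b0 k M l) l2 = 0 := by
  have T := tang hLK hRD G M y hy (JJ G M σ ((range (M + 2)).erase l0)
    ((range (M + 2)).erase l1) ((range (M + 2)).erase l2)) (by
      intro ρ _
      unfold JJ
      split_ifs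
      · exact Finset.erase_subset _ _
      · exact Finset.erase_subset _ _
      · exact Finset.erase_subset _ _
      · exact subset_rfl
      · exact Finset.range_subset_range.2 (by omega)) σ (by omega) (by
      intro ρ _
      unfold JJ
      split_ifs <;> first
        | omega
        | (rw [card1 hl0])
        | (rw [card1 hl1])
        | (rw [card1 hl2])
        | (rw [card_range]))
  rw [up_A, up_B, up_B, ferase2, ferase2, JJA, JJB] at T
  simp only [memer] at T
  have e0 := evD hM hRF G y hσ1 hσ2 ((range (M + 2)).erase l0) ((range (M + 2)).erase l1)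
    ((range (M + 2)).erase l2) (M + 2) (M + 1) (a := 0) (b := G + 2) (c := G + 1)
    (by unfold Tri; omega) (by rw [JJ0, LL0, card1 hl0, List.length_range])
    (by rw [JJA, LLA, card1 hl1, List.length_range])
    (by rw [JJB, LLB, card1 hl2, List.length_range])
  rw [VA hM _ _ _ _ _ hl1, VB hM _ _ _ _ _ _ hl2,
    srcZ hM G σ (M + 1) y _ _ (range (M + 2)) (G - σ) _ (b0 k M) hl0 (fun _ _ => rfl)] at e0
  have e1 : l1 ≠ M + 1 → pd (cst (G + 3) G (uN k (M + 2))) y
      (JG (G + 3) G (JJ G M σ ((range (M + 2)).erase l0) ((range (M + 1)).erase l1)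
        ((range (M + 2)).erase l2)) (List.range (G + 3)))
      (LG (G + 3) (LL G M (M + 1) (M + 1)) (List.range (G + 3))) =
      S1 M (fun i => ∑ l ∈ range (M + 2),
        y (G + 2 + (G + 3) * i + (G - σ + (G + 3) * l)) * b0 k M l) l1 *
        (b0 k M l0 * (a5 k M l2 * Pc k G σ)) := by
    intro hn
    rw [evD hM hRF G y hσ1 hσ2 _ _ _ (M + 1) (M + 1) (a := G + 2) (b := 0) (c := G + 1)
      (by unfold Tri; omega)
      (by rw [JJA, LLA, card2 (by omega), List.length_range])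
      (by rw [JJ0, LL0, card1 hl0, List.length_range])
      (by rw [JJB, LLB, card1 hl2, List.length_range]),
      VZ hM _ _ _ _ _ hl0, VB hM _ _ _ _ _ _ hl2,
      srcA hM G σ (M + 1) y _ _ (range (M + 2)) (G - σ) _ (b0 k M) (by omega) (fun _ _ => rfl)]
  have e2 : l2 ≠ M + 1 → pd (cst (G + 3) G (uN k (M + 2))) y
      (JG (G + 3) G (JJ G M σ ((range (M + 2)).erase l0) ((range (M + 2)).erase l1)
        ((range (M + 1)).erase l2)) (List.range (G + 3)))
      (LG (G + 3) (LL G M (M + 2) M) (List.range (G + 3))) = 0 := by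
    intro hn
    refine evZ hRF G M y σ _ _ _ _ _ (a := 0) (b := G + 1) (by omega) (by omega) (by omega)
      ?_ ?_
    · rw [JJ0, LL0, card1 hl0, List.length_range]; omega
    · rw [JJB, LLB, card2 (by omega), List.length_range]; omega
  have e3 : l1 ≠ M + 1 → l2 ≠ M + 1 → pd (cst (G + 3) G (uN k (M + 2))) y
      (JG (G + 3) G (JJ G M σ ((range (M + 2)).erase l0) ((range (M + 1)).erase l1)
        ((range (M + 1)).erase l2)) (List.range (G + 3)))
      (LG (G + 3) (LL G M (M + 1) M) (List.range (G + 3))) =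
      S1 M (fun i => ∑ l ∈ range (M + 2),
        y (G + 1 + (G + 3) * i + (G - σ + (G + 3) * l)) * b0 k M l) l2 *
        (b0 k M l0 * (b1 k M l1 * Pc k G σ)) := by
    intro hn hn'
    rw [evD hM hRF G y hσ1 hσ2 _ _ _ (M + 1) M (a := G + 1) (b := 0) (c := G + 2)
      (by unfold Tri; omega)
      (by rw [JJB, LLB, card2 (by omega), List.length_range])
      (by rw [JJ0, LL0, card1 hl0, List.length_range])
      (by rw [JJA, LLA, card2 (by omega), List.length_range]),
      VZ hM _ _ _ _ _ hl0, VA' hM _ _ _ _ _ (by omega),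
      srcB hM G σ (M + 1) M y _ _ (range (M + 2)) (G - σ) _ (b0 k M) (by omega)
        (fun _ _ => rfl)]
  rw [e0, ite_eq_right_iff.2 e2, add_zero] at T
  have hP := Pc_ne (k := k) h2 G σ
  apply mul_right_cancel₀ hP
  rw [zero_mul, ← T]
  by_cases c1 : l1 = M + 1
  · have z1 : ∀ W : ℕ → k, S1 M W l1 = 0 := fun W => by unfold S1; rw [if_pos (by omega)]
    have z2 : b1 k M l1 = 0 := by unfold b1; rw [if_pos (by omega)]
    rw [if_neg (fun h => h c1), if_neg (fun h => h.1 c1), z1, z2]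
    ring
  · rw [if_pos c1, e1 c1]
    by_cases c2 : l2 = M + 1
    · have z1 : ∀ W : ℕ → k, S1 M W l2 = 0 := fun W => by unfold S1; rw [if_pos (by omega)]
      rw [if_neg (fun h => h.2 c2), z1]
      ring
    · rw [if_pos ⟨c1, c2⟩, e3 c1 c2]
      ring

end

end Pool.Agent.N729.HQ.PB3a
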