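import Pool.Agent.N729.HQ.PB3aR

/-!
Project HQ, part PB3 (copy a), preparations: the relations for the sinks `A₁`, `A₂`, `Z`.
-/

set_option autoImplicit false
set_option linter.unusedSectionVars false

namespace Pool.Agent.N729.HQ.PB3a

open Finset
open Pool.Agent.N186.HK (pm vm IsHankel)
open Pool.Agent.N729.HP

section

variable {k : Type*} [Field k]

/-- the derivative of `A` -/
def dAs (G M : ℕ) (y : ℕ → k) : k :=
  ∑ i ∈ range (M + 1), ∑ l ∈ range (M + 1), aa k M i l * y (G + (G + 3) * (i + l + 1))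

/-- the derivative of `Z` -/
def dBs (G M : ℕ) (y : ℕ → k) : k :=
  ∑ i ∈ range (M + 2), ∑ l ∈ range (M + 2), ea k M i l * y (G + (G + 3) * (i + l))

theorem S1z {M l : ℕ} (h : l = M + 1) (W : ℕ → k) : S1 M W l = 0 := by
  unfold S1; rw [if_pos (by omega)]

theorem b1z {M l : ℕ} (h : l = M + 1) : b1 k M l = 0 := by
  unfold b1; rw [if_pos (by omega)]

theorem memr {M : ℕ} : M + 1 ∈ range (M + 2) ↔ True := by
  simp only [mem_range, iff_true]; omega

variable {M : ℕ} (hM : 1 ≤ M)
include hM

/-- the relations for the sink `A₁` -/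
theorem relA (hLK : StmLK k) (hRF : StmRF k) (hRD : StmRD) (h2 : (2 : k) ≠ 0) (G : ℕ)
    (y : ℕ → k)
    (hy : Tt ((G + 3) * (M + 2)) ((G + 3) * (M + 1) + 1) (qB3 k (G + 3) (M + 2)) y)
    {l0 l2 : ℕ} (hl0 : l0 < M + 2) (hl2 : l2 < M + 2) :
    S0 M (fun i => ∑ l ∈ range (M + 2), y ((G + 3) * i + (G + 1 + (G + 3) * l)) * a5 k M l) l0 *
      a5 k M l2 +
    b0 k M l0 * (dAs G M y * a5 k M l2 + S1 M (fun i => ∑ l ∈ range (M + 1),
      y (G + 1 + (G + 3) * i + (G + 1 + (G + 3) * l)) * aa k M M l) l2) = 0 := by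
  have T := tang hLK hRD G M y hy (JJ G M 0 ((range (M + 2)).erase l0)
    (range (M + 2)) ((range (M + 2)).erase l2)) (by
      intro ρ _
      unfold JJ
      split_ifs
      · exact Finset.erase_subset _ _
      · exact subset_rfl
      · exact Finset.erase_subset _ _
      · exact Finset.range_subset_range.2 (by omega)) (G + 2) (by omega) (by
      intro ρ _
      unfold JJ
      split_ifs <;> first
        | omega
        | (rw [card1 hl0])
        | (rw [card1 hl2])
        | (rw [card_range]))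
  rw [up_A, up_B, up_B, ferase2, ferase, JJA, JJB] at T
  simp only [memer, memr, true_and, if_true] at T
  have e0 := ev0 hM hRF G y ((range (M + 2)).erase l0) (range (M + 2))
    ((range (M + 2)).erase l2) (M + 2) (M + 1) (a := 0) (b := G + 2) (c := G + 1)
    (by unfold Tri; omega) (by rw [JJ0, LL0, card1 hl0, List.length_range])
    (by rw [JJA, LLA, card_range, List.length_range])
    (by rw [JJB, LLB, card1 hl2, List.length_range])
  rw [VB hM _ _ _ _ _ _ hl2, JJA, LLA, cc_A,
    srcZ hM G 0 (M + 1) y _ _ (range (M + 2)) (G + 1) _ (a5 k M) hl0 (by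
      intro l hl
      rw [bk1 _ (by omega)]
      exact f5 k hM l (mem_range.1 hl))] at e0
  have e1 := evP hM hRF G y ((range (M + 2)).erase l0) (range (M + 1))
    ((range (M + 2)).erase l2) (M + 1) (M + 1) (a := G + 2) (b := 0) (c := G + 1)
    (by unfold Tri; omega)
    (by rw [JJA, LLA, card_range, List.length_range])
    (by rw [JJ0, LL0, card1 hl0, List.length_range])
    (by rw [JJB, LLB, card1 hl2, List.length_range])
    (VA0 hM _ _ _ _ _)
  rw [VZ hM _ _ _ _ _ hl0, VB hM _ _ _ _ _ _ hl2, JJA, LLA, dA_eq hM G (G + 2) (by omega),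
    ← dAs] at e1
  have e2 : l2 ≠ M + 1 → pd (cst (G + 3) G (uN k (M + 2))) y
      (JG (G + 3) G (JJ G M 0 ((range (M + 2)).erase l0) (range (M + 2))
        ((range (M + 1)).erase l2)) (List.range (G + 3)))
      (LG (G + 3) (LL G M (M + 2) M) (List.range (G + 3))) = 0 := by
    intro hn
    refine evZ hRF G M y 0 _ _ _ _ _ (a := 0) (b := G + 1) (by omega) (by omega) (by omega)
      ?_ ?_
    · rw [JJ0, LL0, card1 hl0, List.length_range]; omega
    · rw [JJB, LLB, card2 (by omega), List.length_range]; omega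
  have e3 : l2 ≠ M + 1 → pd (cst (G + 3) G (uN k (M + 2))) y
      (JG (G + 3) G (JJ G M 0 ((range (M + 2)).erase l0) (range (M + 1))
        ((range (M + 1)).erase l2)) (List.range (G + 3)))
      (LG (G + 3) (LL G M (M + 1) M) (List.range (G + 3))) =
      S1 M (fun i => ∑ l ∈ range (M + 1),
        y (G + 1 + (G + 3) * i + (G + 1 + (G + 3) * l)) * aa k M M l) l2 *
        (b0 k M l0 * Pc k G 0) := by
    intro hn
    rw [ev0 hM hRF G y _ _ _ (M + 1) M (a := G + 1) (b := G + 2) (c := 0)
      (by unfold Tri; omega)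
      (by rw [JJB, LLB, card2 (by omega), List.length_range])
      (by rw [JJA, LLA, card_range, List.length_range])
      (by rw [JJ0, LL0, card1 hl0, List.length_range]),
      VZ hM _ _ _ _ _ hl0, JJA, LLA, cc_A,
      srcB hM G 0 (M + 1) M y _ _ (range (M + 1)) (G + 1) _ (aa k M M) (by omega) (by
        intro l hl
        rw [bk1 _ (by omega)]
        exact f7 k hM l (mem_range.1 hl))]
  rw [e0, e1, ite_eq_right_iff.2 e2, add_zero] at T
  have hP := Pc_ne (k := k) h2 G 0
  apply mul_right_cancel₀ hP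
  rw [zero_mul, ← T]
  by_cases c2 : l2 = M + 1
  · rw [if_neg (fun h => h c2), S1z c2]
    ring
  · rw [if_pos c2, e3 c2]
    ring

/-- the relations for the sink `A₂` -/
theorem relB (hLK : StmLK k) (hRF : StmRF k) (hRD : StmRD) (h2 : (2 : k) ≠ 0) (G : ℕ)
    (y : ℕ → k)
    (hy : Tt ((G + 3) * (M + 2)) ((G + 3) * (M + 1) + 1) (qB3 k (G + 3) (M + 2)) y)
    {l0 l1 : ℕ} (hl0 : l0 < M + 2) (hl1 : l1 < M + 2) :
    S0 M (fun i => ∑ l ∈ range (M + 2), y ((G + 3) * i + (G + 2 + (G + 3) * l)) * a5 k M l) l0 *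
      a5 k M l1 +
    b0 k M l0 * (S1 M (fun i => ∑ l ∈ range (M + 2),
      y (G + 2 + (G + 3) * i + (G + 2 + (G + 3) * l)) * a5 k M l) l1 +
      b1 k M l1 * dAs G M y) = 0 := by
  have T := tang hLK hRD G M y hy (JJ G M 0 ((range (M + 2)).erase l0)
    ((range (M + 2)).erase l1) (range (M + 2))) (by
      intro ρ _
      unfold JJ
      split_ifs
      · exact Finset.erase_subset _ _
      · exact Finset.erase_subset _ _
      · exact subset_rfl
      · exact Finset.range_subset_range.2 (by omega)) (G + 1) (by omega) (by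
      intro ρ _
      unfold JJ
      split_ifs <;> first
        | omega
        | (rw [card1 hl0])
        | (rw [card1 hl1])
        | (rw [card_range]))
  rw [up_A, up_B, up_B, ferase2, ferase, JJA, JJB] at T
  simp only [memer, memr, and_true, if_true] at T
  have e0 := ev0 hM hRF G y ((range (M + 2)).erase l0) ((range (M + 2)).erase l1)
    (range (M + 2)) (M + 2) (M + 1) (a := 0) (b := G + 1) (c := G + 2)
    (by unfold Tri; omega) (by rw [JJ0, LL0, card1 hl0, List.length_range])
    (by rw [JJB, LLB, card_range, List.length_range])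
    (by rw [JJA, LLA, card1 hl1, List.length_range])
  rw [VA hM _ _ _ _ _ hl1, JJB, LLB, cc_B,
    srcZ hM G 0 (M + 1) y _ _ (range (M + 2)) (G + 2) _ (a5 k M) hl0 (by
      intro l hl
      rw [bk1 _ (by omega)]
      exact f5 k hM l (mem_range.1 hl))] at e0
  have e1 : l1 ≠ M + 1 → pd (cst (G + 3) G (uN k (M + 2))) y
      (JG (G + 3) G (JJ G M 0 ((range (M + 2)).erase l0) ((range (M + 1)).erase l1)
        (range (M + 2))) (List.range (G + 3)))
      (LG (G + 3) (LL G M (M + 1) (M + 1)) (List.range (G + 3))) =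
      S1 M (fun i => ∑ l ∈ range (M + 2),
        y (G + 2 + (G + 3) * i + (G + 2 + (G + 3) * l)) * a5 k M l) l1 *
        (b0 k M l0 * Pc k G 0) := by
    intro hn
    rw [ev0 hM hRF G y _ _ _ (M + 1) (M + 1) (a := G + 2) (b := G + 1) (c := 0)
      (by unfold Tri; omega)
      (by rw [JJA, LLA, card2 (by omega), List.length_range])
      (by rw [JJB, LLB, card_range, List.length_range])
      (by rw [JJ0, LL0, card1 hl0, List.length_range]),
      VZ hM _ _ _ _ _ hl0, JJB, LLB, cc_B,
      srcA hM G 0 (M + 1) y _ _ (range (M + 2)) (G + 2) _ (a5 k M) (by omega) (by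
        intro l hl
        rw [bk1 _ (by omega)]
        exact f5 k hM l (mem_range.1 hl))]
  have e2 := ev0 hM hRF G y ((range (M + 2)).erase l0) ((range (M + 2)).erase l1)
    (range (M + 1)) (M + 2) M (a := 0) (b := G + 2) (c := G + 1)
    (by unfold Tri; omega) (by rw [JJ0, LL0, card1 hl0, List.length_range])
    (by rw [JJA, LLA, card1 hl1, List.length_range])
    (by rw [JJB, LLB, card_range, List.length_range])
  rw [VB0 hM, zero_mul, mul_zero] at e2
  have e3 : l1 ≠ M + 1 → pd (cst (G + 3) G (uN k (M + 2))) y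
      (JG (G + 3) G (JJ G M 0 ((range (M + 2)).erase l0) ((range (M + 1)).erase l1)
        (range (M + 1))) (List.range (G + 3)))
      (LG (G + 3) (LL G M (M + 1) M) (List.range (G + 3))) =
      dAs G M y * (b0 k M l0 * (b1 k M l1 * Pc k G 0)) := by
    intro hn
    rw [evP hM hRF G y _ _ _ (M + 1) M (a := G + 1) (b := 0) (c := G + 2)
      (by unfold Tri; omega)
      (by rw [JJB, LLB, card_range, List.length_range])
      (by rw [JJ0, LL0, card1 hl0, List.length_range])
      (by rw [JJA, LLA, card2 (by omega), List.length_range])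
      (VB0 hM _ _ _ _ _ _),
      VZ hM _ _ _ _ _ hl0, VA' hM _ _ _ _ _ (by omega), JJB, LLB,
      dA_eq hM G (G + 1) (by omega), ← dAs]
  rw [e0, e2, add_zero] at T
  have hP := Pc_ne (k := k) h2 G 0
  apply mul_right_cancel₀ hP
  rw [zero_mul, ← T]
  by_cases c1 : l1 = M + 1
  · rw [if_neg (fun h => h c1), if_neg (fun h => h c1), S1z c1, b1z c1]
    ring
  · rw [if_pos c1, if_pos c1, e1 c1, e3 c1]
    ring

/-- the relations for the sink `Z` -/
theorem relZ (hLK : StmLK k) (hRF : StmRF k) (hRD : StmRD) (h2 : (2 : k) ≠ 0) (G : ℕ)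
    (y : ℕ → k)
    (hy : Tt ((G + 3) * (M + 2)) ((G + 3) * (M + 1) + 1) (qB3 k (G + 3) (M + 2)) y)
    {l1 l2 : ℕ} (hl1 : l1 < M + 2) (hl2 : l2 < M + 2) :
    (dBs G M y * a5 k M l1 + S1 M (fun i => ∑ l ∈ range (M + 2),
      y (G + 2 + (G + 3) * i + (G + (G + 3) * l)) * b0 k M l) l1) * a5 k M l2 +
      b1 k M l1 * S1 M (fun i => ∑ l ∈ range (M + 2),
        y (G + 1 + (G + 3) * i + (G + (G + 3) * l)) * b0 k M l) l2 = 0 := by
  have T := tang hLK hRD G M y hy (JJ G M 0 (range (M + 2))
    ((range (M + 2)).erase l1) ((range (M + 2)).erase l2)) (by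
      intro ρ _
      unfold JJ
      split_ifs
      · exact subset_rfl
      · exact Finset.erase_subset _ _
      · exact Finset.erase_subset _ _
      · exact Finset.range_subset_range.2 (by omega)) 0 (by omega) (by
      intro ρ _
      unfold JJ
      split_ifs <;> first
        | omega
        | (rw [card1 hl1])
        | (rw [card1 hl2])
        | (rw [card_range]))
  rw [up_A, up_B, up_B, ferase2, ferase2, JJA, JJB] at T
  simp only [memer] at T
  have e0 := evP hM hRF G y (range (M + 2)) ((range (M + 2)).erase l1)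
    ((range (M + 2)).erase l2) (M + 2) (M + 1) (a := 0) (b := G + 2) (c := G + 1)
    (by unfold Tri; omega) (by rw [JJ0, LL0, card_range, List.length_range])
    (by rw [JJA, LLA, card1 hl1, List.length_range])
    (by rw [JJB, LLB, card1 hl2, List.length_range])
    (VZ0 hM _ _ _ _ _)
  rw [VA hM _ _ _ _ _ hl1, VB hM _ _ _ _ _ _ hl2, JJ0, LL0, dB_eq hM, ← dBs] at e0
  have e1 : l1 ≠ M + 1 → pd (cst (G + 3) G (uN k (M + 2))) y
      (JG (G + 3) G (JJ G M 0 (range (M + 2)) ((range (M + 1)).erase l1)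
        ((range (M + 2)).erase l2)) (List.range (G + 3)))
      (LG (G + 3) (LL G M (M + 1) (M + 1)) (List.range (G + 3))) =
      S1 M (fun i => ∑ l ∈ range (M + 2),
        y (G + 2 + (G + 3) * i + (G + (G + 3) * l)) * b0 k M l) l1 *
        (a5 k M l2 * Pc k G 0) := by
    intro hn
    rw [ev0 hM hRF G y _ _ _ (M + 1) (M + 1) (a := G + 2) (b := 0) (c := G + 1)
      (by unfold Tri; omega)
      (by rw [JJA, LLA, card2 (by omega), List.length_range])
      (by rw [JJ0, LL0, card_range, List.length_range])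
      (by rw [JJB, LLB, card1 hl2, List.length_range]),
      VB hM _ _ _ _ _ _ hl2, JJ0, LL0, cc_Z,
      srcA hM G 0 (M + 1) y _ _ (range (M + 2)) G _ (b0 k M) (by omega) (by
        intro l hl
        rw [bk0 _ (by omega)]
        exact f6 k hM l (mem_range.1 hl))]
  have e2 : l2 ≠ M + 1 → pd (cst (G + 3) G (uN k (M + 2))) y
      (JG (G + 3) G (JJ G M 0 (range (M + 2)) ((range (M + 2)).erase l1)
        ((range (M + 1)).erase l2)) (List.range (G + 3)))
      (LG (G + 3) (LL G M (M + 2) M) (List.range (G + 3))) = 0 := by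
    intro hn
    rw [ev0 hM hRF G y _ _ _ (M + 2) M (a := G + 1) (b := G + 2) (c := 0)
      (by unfold Tri; omega)
      (by rw [JJB, LLB, card2 (by omega), List.length_range])
      (by rw [JJA, LLA, card1 hl1, List.length_range])
      (by rw [JJ0, LL0, card_range, List.length_range]), VZ0 hM, zero_mul, mul_zero]
  have e3 : l1 ≠ M + 1 → l2 ≠ M + 1 → pd (cst (G + 3) G (uN k (M + 2))) y
      (JG (G + 3) G (JJ G M 0 (range (M + 2)) ((range (M + 1)).erase l1)
        ((range (M + 1)).erase l2)) (List.range (G + 3)))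
      (LG (G + 3) (LL G M (M + 1) M) (List.range (G + 3))) =
      S1 M (fun i => ∑ l ∈ range (M + 2),
        y (G + 1 + (G + 3) * i + (G + (G + 3) * l)) * b0 k M l) l2 *
        (b1 k M l1 * Pc k G 0) := by
    intro hn hn'
    rw [ev0 hM hRF G y _ _ _ (M + 1) M (a := G + 1) (b := 0) (c := G + 2)
      (by unfold Tri; omega)
      (by rw [JJB, LLB, card2 (by omega), List.length_range])
      (by rw [JJ0, LL0, card_range, List.length_range])
      (by rw [JJA, LLA, card2 (by omega), List.length_range]),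
      VA' hM _ _ _ _ _ (by omega), JJ0, LL0, cc_Z,
      srcB hM G 0 (M + 1) M y _ _ (range (M + 2)) G _ (b0 k M) (by omega) (by
        intro l hl
        rw [bk0 _ (by omega)]
        exact f6 k hM l (mem_range.1 hl))]
  rw [e0, ite_eq_right_iff.2 e2, add_zero] at T
  have hP := Pc_ne (k := k) h2 G 0
  apply mul_right_cancel₀ hP
  rw [zero_mul, ← T]
  by_cases c1 : l1 = M + 1
  · rw [if_neg (fun h => h c1), if_neg (fun h => h.1 c1), S1z c1, b1z c1]
    ring
  · rw [if_pos c1, e1 c1]
    by_cases c2 : l2 = M + 1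
    · rw [if_neg (fun h => h.2 c2), S1z c2]
      ring
    · rw [if_pos ⟨c1, c2⟩, e3 c1 c2]
      ring

end

end Pool.Agent.N729.HQ.PB3a
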