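import Pool.Agent.N729.HQ.PB3aB

/-!
Project HQ, part PB3 (copy a), preparations: membership, evaluation of derivatives.
-/

set_option autoImplicit false
set_option linter.unusedSectionVars false

namespace Pool.Agent.N729.HQ.PB3a

open Finset
open Pool.Agent.N186.HK (pm vm IsHankel)
open Pool.Agent.N729.HP

section

variable {k : Type*} [Field k]

theorem bk0 (u : ℕ → k) {G ρ : ℕ} (h : ρ ≤ G) : (fun s => u (s + sh G ρ)) = u := by
  funext s
  rw [sh, if_pos h, add_zero]

theorem bk1 (u : ℕ → k) {G ρ : ℕ} (h : G < ρ) :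
    (fun s => u (s + sh G ρ)) = fun s => u (s + 1) := by
  funext s
  rw [sh, if_neg (by omega)]

theorem LL0 (G M p q : ℕ) : LL G M p q 0 = List.range p := by simp [LL]

theorem LLA (G M p q : ℕ) : LL G M p q (G + 2) = List.range q := by simp [LL]

theorem LLB (G M p q : ℕ) : LL G M p q (G + 1) = List.range (M + 1) := by simp [LL]

theorem LLD (G M p q : ℕ) {ρ : ℕ} (h1 : 1 ≤ ρ) (h2 : ρ ≤ G) :
    LL G M p q ρ = List.range (M + 1) := by
  unfold LL
  rw [if_neg (by omega), if_neg (by omega)]

theorem sumLL (G M p q : ℕ) :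
    ∑ ρ ∈ range (G + 3), (LL G M p q ρ).length = p + q + (G + 1) * (M + 1) := by
  rw [Finset.sum_range_succ, Finset.sum_range_succ']
  have h1 : ∀ ρ ∈ range (G + 1), (LL G M p q (ρ + 1)).length = M + 1 := by
    intro ρ hρ
    rw [Finset.mem_range] at hρ
    unfold LL
    rw [if_neg (by omega), if_neg (by omega), List.length_range]
  rw [Finset.sum_congr rfl h1, Finset.sum_const, Finset.card_range, smul_eq_mul]
  have h2 : (LL G M p q 0).length = p := by simp [LL]
  have h3 : (LL G M p q (G + 2)).length = q := by simp [LL]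
  rw [h2, h3]
  ring

theorem sumUp (G M ρ₀ : ℕ) (h : ρ₀ < G + 3) (Js : ℕ → Finset ℕ) (hm : M + 1 ∈ Js ρ₀) :
    ∑ ρ ∈ range (G + 3), (up M ρ₀ Js ρ).card + 1 = ∑ ρ ∈ range (G + 3), (Js ρ).card := by
  rw [← Finset.add_sum_erase _ _ (Finset.mem_range.2 h),
    ← Finset.add_sum_erase (range (G + 3)) (fun ρ => (Js ρ).card) (Finset.mem_range.2 h)]
  have h1 : ∀ ρ ∈ (range (G + 3)).erase ρ₀, (up M ρ₀ Js ρ).card = (Js ρ).card := by
    intro ρ hρ
    rw [Finset.mem_erase] at hρ
    unfold up
    rw [if_neg hρ.1]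
  rw [Finset.sum_congr rfl h1]
  have h2 : (up M ρ₀ Js ρ₀).card + 1 = (Js ρ₀).card := by
    unfold up
    rw [if_pos rfl]
    exact Finset.card_erase_add_one hm
  omega

/-- the product formula -/
theorem pmProd (G : ℕ) (u : ℕ → k) (Js : ℕ → Finset ℕ) (Ls : ℕ → List ℕ) :
    pm (cst (G + 3) G u) (JG (G + 3) G Js (List.range (G + 3))) (LG (G + 3) Ls
      (List.range (G + 3))) = ∏ ρ ∈ range (G + 3), pm (fun s => u (s + sh G ρ)) (Js ρ) (Ls ρ) := by
  have h := ra k (G + 3) G u (by omega) Js Ls (List.range (G + 3)) []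
    (by rw [List.append_nil]; exact List.nodup_range)
    (by rw [List.append_nil]; exact fun ρ h => List.mem_range.1 h)
  have h1 := h.2.2.2.2.2.2
  rw [List.toFinset_range] at h1
  exact h1

theorem cardJG (G : ℕ) (u : ℕ → k) (Js : ℕ → Finset ℕ) :
    (JG (G + 3) G Js (List.range (G + 3))).card = ∑ ρ ∈ range (G + 3), (Js ρ).card := by
  have h := ra k (G + 3) G u (by omega) Js (fun _ => []) (List.range (G + 3)) []
    (by rw [List.append_nil]; exact List.nodup_range)
    (by rw [List.append_nil]; exact fun ρ h => List.mem_range.1 h)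
  have h1 := h.2.2.2.1
  rw [List.toFinset_range] at h1
  exact h1

theorem pmZero (G M p q : ℕ) (u : ℕ → k) (Js : ℕ → Finset ℕ)
    (hs : ∑ ρ ∈ range (G + 3), (Js ρ).card = p + q + (G + 1) * (M + 1))
    (hz : (∀ ρ < G + 3, (Js ρ).card = (LL G M p q ρ).length) →
      ∃ ρ < G + 3, pm (fun s => u (s + sh G ρ)) (Js ρ) (LL G M p q ρ) = 0) :
    pm (cst (G + 3) G u) (JG (G + 3) G Js (List.range (G + 3)))
      (LG (G + 3) (LL G M p q) (List.range (G + 3))) = 0 := by
  rw [pmProd]
  by_contra hne
  replace hne := Finset.prod_ne_zero_iff.1 hne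
  have hle : ∀ ρ ∈ range (G + 3), (LL G M p q ρ).length ≤ (Js ρ).card := by
    intro ρ hρ
    by_contra hlt
    exact hne ρ hρ ((BA.ta k).2.2 _ _ _ (not_le.1 hlt))
  rw [← sumLL G M p q] at hs
  have heq := (Finset.sum_eq_sum_iff_of_le hle).1 hs.symm
  obtain ⟨ρ, hρ, h0⟩ := hz fun ρ hρ => (heq ρ (Finset.mem_range.2 hρ)).symm
  exact hne ρ (Finset.mem_range.2 hρ) h0

/-- membership -/
theorem vt (hLK : StmLK k) (hRD : StmRD) (G M : ℕ) (hM : 1 ≤ M) :
    Vt ((G + 3) * (M + 2)) ((G + 3) * (M + 1) + 1) (qB3 k (G + 3) (M + 2)) := by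
  intro J hJc hJn
  have hCN := cn k (M + 2) (by omega)
  have hJ := hRD.1 (G + 3) G (by omega) J
  set Js : ℕ → Finset ℕ := fun ρ =>
    (J.filter fun j => j % (G + 3) = cc (G + 3) G ρ).image fun j => j / (G + 3) with hJs
  have hsub : ∀ ρ < G + 3, Js ρ ⊆ range (M + 2) := by
    intro ρ _ l hl
    rw [hJs] at hl
    simp only [Finset.mem_image, Finset.mem_filter] at hl
    obtain ⟨j, ⟨hj, -⟩, rfl⟩ := hl
    rw [Finset.mem_range]
    exact Nat.div_lt_of_lt_mul (hJn j hj)
  have hcard : ∑ ρ ∈ range (G + 3), (Js ρ).card = (G + 3) * (M + 1) + 1 := by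
    rw [← cardJG (k := k) G (uN k (M + 2)) Js, ← hJ]
    exact hJc
  rw [hJ]
  rw [master hLK hRD G M (fun _ => (0 : k)) Js hsub pm (Or.inl rfl)]
  have h0 : pm (cst (G + 3) G (uN k (M + 2))) (JG (G + 3) G Js (List.range (G + 3)))
      (LG (G + 3) (LL G M (M + 2) (M + 1)) (List.range (G + 3))) = 0 := by
    apply pmZero
    · rw [hcard]; ring
    · intro he
      refine ⟨0, by omega, ?_⟩
      have h1 : Js 0 = range (M + 2) := by
        apply Finset.eq_of_subset_of_card_le (hsub 0 (by omega))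
        rw [he 0 (by omega)]
        simp [LL]
      rw [bk0 _ (by omega), h1]
      exact hCN.1
  have h1 : M + 1 ∈ Js (G + 2) → pm (cst (G + 3) G (uN k (M + 2)))
      (JG (G + 3) G (up M (G + 2) Js) (List.range (G + 3)))
      (LG (G + 3) (LL G M (M + 1) (M + 1)) (List.range (G + 3))) = 0 := by
    intro hm
    have hs := sumUp G M (G + 2) (by omega) Js hm
    apply pmZero
    · rw [hcard] at hs
      have : M + 1 + (M + 1) + (G + 1) * (M + 1) = (G + 3) * (M + 1) := by ring
      omega
    · intro he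
      refine ⟨G + 2, by omega, ?_⟩
      have h1 : up M (G + 2) Js (G + 2) = range (M + 1) := by
        apply Finset.eq_of_subset_of_card_le
        · unfold up
          rw [if_pos rfl, ← ferase (M + 1)]
          exact Finset.erase_subset_erase _ (hsub _ (by omega))
        · rw [he (G + 2) (by omega)]
          simp [LL]
      rw [bk1 _ (by omega), h1, LLA]
      exact hCN.2.2.1
  have h2 : M + 1 ∈ Js (G + 1) → pm (cst (G + 3) G (uN k (M + 2)))
      (JG (G + 3) G (up M (G + 1) Js) (List.range (G + 3)))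
      (LG (G + 3) (LL G M (M + 2) M) (List.range (G + 3))) = 0 := by
    intro hm
    have hs := sumUp G M (G + 1) (by omega) Js hm
    apply pmZero
    · rw [hcard] at hs
      have : M + 2 + M + (G + 1) * (M + 1) = (G + 3) * (M + 1) := by ring
      omega
    · intro he
      refine ⟨0, by omega, ?_⟩
      have h1 : up M (G + 1) Js 0 = range (M + 2) := by
        apply Finset.eq_of_subset_of_card_le
        · unfold up
          rw [if_neg (by omega)]
          exact hsub 0 (by omega)
        · rw [he 0 (by omega)]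
          simp [LL]
      rw [bk0 _ (by omega), h1]
      exact hCN.1
  have h3 : M + 1 ∈ Js (G + 2) ∧ M + 1 ∈ Js (G + 1) → pm (cst (G + 3) G (uN k (M + 2)))
      (JG (G + 3) G (up M (G + 1) (up M (G + 2) Js)) (List.range (G + 3)))
      (LG (G + 3) (LL G M (M + 1) M) (List.range (G + 3))) = 0 := by
    rintro ⟨hm, hm'⟩
    have hs := sumUp G M (G + 2) (by omega) Js hm
    have hs' := sumUp G M (G + 1) (by omega) (up M (G + 2) Js) (by
      unfold up
      rw [if_neg (by omega)]
      exact hm')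
    apply pmZero
    · rw [hcard] at hs
      have : M + 1 + M + (G + 1) * (M + 1) + 1 = (G + 3) * (M + 1) := by ring
      omega
    · intro he
      refine ⟨G + 1, by omega, ?_⟩
      have h1 : up M (G + 1) (up M (G + 2) Js) (G + 1) = range (M + 1) := by
        apply Finset.eq_of_subset_of_card_le
        · unfold up
          rw [if_pos rfl, if_neg (by omega), ← ferase (M + 1)]
          exact Finset.erase_subset_erase _ (hsub _ (by omega))
        · rw [he (G + 1) (by omega)]
          simp [LL]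
      rw [bk1 _ (by omega), h1, LLB]
      exact hCN.2.2.1
  rw [h0, ite_eq_right_iff.2 h1, ite_eq_right_iff.2 h2, ite_eq_right_iff.2 h3]
  simp

end

end Pool.Agent.N729.HQ.PB3a
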