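import Pool.Agent.N729.HQ.Stm

/-!
Project HQ (MP_9bc296_ag), part T1 (copy b): criterion with one quadric, from the tangent cone
criterion TC.
-/

set_option autoImplicit false

namespace Pool.Agent.N729.HQ.T1b

open Finset
open Pool.Agent.N186.HK (pm vm IsHankel zz pm_map pm_congr pm_nil pm_cons pm_mem permanent_eq_pm)
open Pool.Agent.R831.PermIdeal (permIdeal permIdeal_le_ker)
open Pool.Agent.N729.HP

section gen

variable {A : Type*} [CommRing A]

lemma pd_nil (x y : ℕ → A) (J : Finset ℕ) : pd x y J [] = 0 := by unfold pd; rfl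

lemma pd_cons (x y : ℕ → A) (J : Finset ℕ) (c : ℕ) (L : List ℕ) : pd x y J (c :: L) =
    ∑ j ∈ J, (y (j + c) * pm x (J.erase j) L + x (j + c) * pd x y (J.erase j) L) := by rw [pd]

lemma pq_nil (x y : ℕ → A) (J : Finset ℕ) : pq x y J [] = 0 := by unfold pq; rfl

lemma pq_cons (x y : ℕ → A) (J : Finset ℕ) (c : ℕ) (L : List ℕ) : pq x y J (c :: L) =
    ∑ j ∈ J, (y (j + c) * pd x y (J.erase j) L + x (j + c) * pq x y (J.erase j) L) := by rw [pq]

lemma zz_pd (a z : ℕ → A) (hz : ∀ a b c, z a * z b * z c = 0) (u v : ℕ) (L : List ℕ) :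
    ∀ J, z u * z v * pd a z J L = 0 := by
  induction L with
  | nil => intro J; rw [pd_nil, mul_zero]
  | cons c L ih =>
    intro J
    rw [pd_cons, mul_sum]
    refine sum_eq_zero fun j _ => ?_
    linear_combination (pm a (J.erase j) L) * hz u v (j + c) + a (j + c) * ih (J.erase j)

lemma z_pq (a z : ℕ → A) (hz : ∀ a b c, z a * z b * z c = 0) (u : ℕ) (L : List ℕ) :
    ∀ J, z u * pq a z J L = 0 := by
  induction L with
  | nil => intro J; rw [pq_nil, mul_zero]
  | cons c L ih =>
    intro J
    rw [pq_cons, mul_sum]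
    refine sum_eq_zero fun j _ => ?_
    linear_combination zz_pd a z hz u (j + c) L (J.erase j) + a (j + c) * ih (J.erase j)

lemma expand (a z : ℕ → A) (hz : ∀ a b c, z a * z b * z c = 0) (L : List ℕ) :
    ∀ J, pm (fun v => a v + z v) J L = pm a J L + pd a z J L + pq a z J L := by
  induction L with
  | nil => intro J; rw [pm_nil, pm_nil, pd_nil, pq_nil, add_zero, add_zero]
  | cons c L ih =>
    intro J
    rw [pm_cons, pm_cons, pd_cons, pq_cons, ← sum_add_distrib, ← sum_add_distrib]
    refine sum_congr rfl fun j _ => ?_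
    rw [ih]
    linear_combination z_pq a z hz (j + c) L (J.erase j)

lemma pd_congr (x y y' : ℕ → A) (L : List ℕ) : ∀ J : Finset ℕ,
    (∀ j ∈ J, ∀ c ∈ L, y (j + c) = y' (j + c)) → pd x y J L = pd x y' J L := by
  induction L with
  | nil => intro J _; rw [pd_nil, pd_nil]
  | cons c L ih =>
    intro J h
    rw [pd_cons, pd_cons]
    refine sum_congr rfl fun j hj => ?_
    rw [h j hj c List.mem_cons_self, ih (J.erase j) fun i hi d hd =>
      h i (Finset.mem_of_mem_erase hi) d (List.mem_cons_of_mem _ hd)]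

lemma pq_congr (x y y' : ℕ → A) (L : List ℕ) : ∀ J : Finset ℕ,
    (∀ j ∈ J, ∀ c ∈ L, y (j + c) = y' (j + c)) → pq x y J L = pq x y' J L := by
  induction L with
  | nil => intro J _; rw [pq_nil, pq_nil]
  | cons c L ih =>
    intro J h
    rw [pq_cons, pq_cons]
    refine sum_congr rfl fun j hj => ?_
    have h2 : ∀ i ∈ J.erase j, ∀ d ∈ L, y (i + d) = y' (i + d) := fun i hi d hd =>
      h i (Finset.mem_of_mem_erase hi) d (List.mem_cons_of_mem _ hd)
    rw [h j hj c List.mem_cons_self, ih (J.erase j) h2, pd_congr x y y' L (J.erase j) h2]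

lemma pd_lin (q y w : ℕ → A) (c : A) (L : List ℕ) : ∀ J : Finset ℕ,
    pd q (fun v => y v - c * w v) J L = pd q y J L - c * pd q w J L := by
  induction L with
  | nil => intro J; rw [pd_nil, pd_nil, pd_nil]; ring
  | cons d L ih =>
    intro J
    rw [pd_cons, pd_cons, pd_cons, mul_sum, ← sum_sub_distrib]
    refine sum_congr rfl fun j _ => ?_
    rw [ih]
    ring

end gen

section lin

variable {k A : Type*} [Field k] [CommRing A] [Algebra k A]

lemma pm_alg (q : ℕ → k) (L : List ℕ) (J : Finset ℕ) :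
    pm (fun v => algebraMap k A (q v)) J L = algebraMap k A (pm q J L) :=
  (pm_map (algebraMap k A) q L J).symm

lemma phi_pd (φ : A →ₗ[k] k) (q : ℕ → k) (z : ℕ → A) (L : List ℕ) : ∀ J : Finset ℕ,
    φ (pd (fun v => algebraMap k A (q v)) z J L) = pd q (fun v => φ (z v)) J L := by
  induction L with
  | nil => intro J; rw [pd_nil, pd_nil, map_zero]
  | cons c L ih =>
    intro J
    rw [pd_cons, pd_cons, map_sum]
    refine sum_congr rfl fun j _ => ?_
    rw [pm_alg, map_add, ← ih (J.erase j), mul_comm (z (j + c)), ← Algebra.smul_def,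
      ← Algebra.smul_def, map_smul, map_smul, smul_eq_mul, smul_eq_mul]
    ring

lemma z_pd (q w : ℕ → k) (z : ℕ → A) (ζ : A)
    (h : ∀ r s, z r * z s = algebraMap k A (w r * w s) * ζ) (u : ℕ) (L : List ℕ) :
    ∀ J : Finset ℕ, z u * pd (fun v => algebraMap k A (q v)) z J L =
      algebraMap k A (w u * pd q w J L) * ζ := by
  induction L with
  | nil => intro J; rw [pd_nil, pd_nil, mul_zero, mul_zero, map_zero, zero_mul]
  | cons c L ih =>
    intro J
    rw [pd_cons, pd_cons, mul_sum, mul_sum, map_sum, sum_mul]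
    refine sum_congr rfl fun j _ => ?_
    rw [pm_alg]
    have h1 := h u (j + c)
    have h2 := ih (J.erase j)
    simp only [map_mul, map_add] at h1 h2 ⊢
    linear_combination (algebraMap k A (pm q (J.erase j) L)) * h1 +
      algebraMap k A (q (j + c)) * h2

lemma pq_prod (q w : ℕ → k) (z : ℕ → A) (ζ : A)
    (h : ∀ r s, z r * z s = algebraMap k A (w r * w s) * ζ) (L : List ℕ) :
    ∀ J : Finset ℕ, pq (fun v => algebraMap k A (q v)) z J L =
      algebraMap k A (pq q w J L) * ζ := by
  induction L with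
  | nil => intro J; rw [pq_nil, pq_nil, map_zero, zero_mul]
  | cons c L ih =>
    intro J
    rw [pq_cons, pq_cons, map_sum, sum_mul]
    refine sum_congr rfl fun j _ => ?_
    rw [ih, z_pd q w z ζ h]
    simp only [map_mul, map_add]
    ring

/-- the core of the proof: all products `z a * z b` vanish -/
lemma core {n t N : ℕ} (hN : N + 1 = n + t) (q w : ℕ → k) (z : ℕ → A)
    (hz3 : ∀ a b c, z a * z b * z c = 0) (hzN : ∀ v, N ≤ v → z v = 0) (hV : Vt n t q)
    (hpm : ∀ J : Finset ℕ, J.card = t → (∀ j ∈ J, j < n) →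
      pm (fun v => algebraMap k A (q v) + z v) J (List.range t) = 0)
    (S : Finset ℕ)
    (hS : ∀ y : ℕ → k, (∀ s ∈ S, y s = 0) → Tt n t q y → ∀ v, v + 1 < n + t → y v = 0)
    (hw : Tt n t q w) (hwN : ∀ v, N ≤ v → w v = 0) (v₀ : ℕ) (hw0 : w v₀ ≠ 0)
    (hlam : ∀ s ∈ S, z s = algebraMap k A (w s / w v₀) * z v₀)
    (B : Finset ℕ) (c : ℕ → k) (Js : ℕ → Finset ℕ)
    (hJs : ∀ a ∈ B, (Js a).card = t ∧ ∀ j ∈ Js a, j < n)
    (h1 : ∀ y : ℕ → k, ∑ a ∈ B, c a * pd q y (Js a) (List.range t) = 0)
    (h2 : ∑ a ∈ B, c a * pq q w (Js a) (List.range t) ≠ 0) : ∀ a b, z a * z b = 0 := by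
  classical
  -- the relations
  have hrel : ∀ J : Finset ℕ, J.card = t → (∀ j ∈ J, j < n) →
      pd (fun v => algebraMap k A (q v)) z J (List.range t) =
        - pq (fun v => algebraMap k A (q v)) z J (List.range t) := by
    intro J hJ hJ'
    have h3 := hpm J hJ hJ'
    rw [expand (fun v => algebraMap k A (q v)) z hz3, pm_alg, hV J hJ hJ', map_zero] at h3
    linear_combination h3
  -- the annihilator of the `z u`
  let W : Submodule k A :=
    { carrier := {x | ∀ u, z u * x = 0}
      add_mem' := by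
        intro a b ha hb u
        rw [mul_add, ha u, hb u, add_zero]
      zero_mem' := fun u => mul_zero _
      smul_mem' := by
        intro a b hb u
        rw [mul_smul_comm, hb u, smul_zero] }
  have hWmem : ∀ x, x ∈ W ↔ ∀ u, z u * x = 0 := fun x => Iff.rfl
  have hlin : ∀ r, z r - algebraMap k A (w r / w v₀) * z v₀ ∈ W := by
    intro r
    by_contra hr
    obtain ⟨φ, hφ, hφW⟩ := Submodule.exists_le_ker_of_notMem hr
    apply hφ
    have hy : Tt n t q (fun v => φ (z v)) := by
      intro J hJ hJ'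
      rw [← phi_pd φ q z, hrel J hJ hJ', map_neg, neg_eq_zero]
      have : pq (fun v => algebraMap k A (q v)) z J (List.range t) ∈ W :=
        fun u => z_pq _ z hz3 u _ J
      exact hφW this
    have hy2 : Tt n t q (fun v => φ (z v) - (φ (z v₀) / w v₀) * w v) := by
      intro J hJ hJ'
      rw [pd_lin, hy J hJ hJ', hw J hJ hJ', mul_zero, sub_zero]
    have h3 := hS _ (fun s hs => by
      rw [hlam s hs, ← Algebra.smul_def, map_smul, smul_eq_mul]
      field_simp
      ring) hy2
    have h4 : φ (z r) = (φ (z v₀) / w v₀) * w r := by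
      by_cases hrN : r < N
      · have := h3 r (by omega)
        linear_combination this
      · rw [hzN r (by omega), hwN r (by omega), map_zero, mul_zero]
    rw [map_sub, ← Algebra.smul_def, map_smul, smul_eq_mul, h4]
    field_simp
    ring
  -- products
  have hprod : ∀ r s, z r * z s =
      algebraMap k A (w r * w s) * (algebraMap k A ((w v₀)⁻¹ ^ 2) * (z v₀ * z v₀)) := by
    intro r s
    have h3 := hlin r s
    have h4 := hlin s v₀
    have e1 : w r / w v₀ = w r * (w v₀)⁻¹ := div_eq_mul_inv _ _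
    have e2 : w s / w v₀ = w s * (w v₀)⁻¹ := div_eq_mul_inv _ _
    rw [e1] at h3
    rw [e2] at h4
    simp only [map_mul, map_pow] at h3 h4 ⊢
    linear_combination h3 + (algebraMap k A (w r) * algebraMap k A ((w v₀)⁻¹)) * h4
  -- the quadric
  have h5 : ∑ a ∈ B, algebraMap k A (c a) *
      pd (fun v => algebraMap k A (q v)) z (Js a) (List.range t) = 0 := by
    by_contra hne
    obtain ⟨φ, hφ, _⟩ := Submodule.exists_le_ker_of_notMem
      (p := (⊥ : Submodule k A)) (fun h => hne ((Submodule.mem_bot k).1 h))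
    apply hφ
    rw [map_sum, ← h1 (fun v => φ (z v))]
    refine sum_congr rfl fun a _ => ?_
    rw [← Algebra.smul_def, map_smul, smul_eq_mul, phi_pd]
  have h6 : algebraMap k A (∑ a ∈ B, c a * pq q w (Js a) (List.range t)) *
      (algebraMap k A ((w v₀)⁻¹ ^ 2) * (z v₀ * z v₀)) = 0 := by
    rw [map_sum, sum_mul, ← neg_eq_zero, ← h5, ← sum_neg_distrib]
    refine sum_congr rfl fun a ha => ?_
    rw [hrel (Js a) (hJs a ha).1 (hJs a ha).2, pq_prod q w z _ hprod, map_mul]
    ring
  have h7 : algebraMap k A ((w v₀)⁻¹ ^ 2) * (z v₀ * z v₀) = 0 := by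
    have h8 : IsUnit (algebraMap k A (∑ a ∈ B, c a * pq q w (Js a) (List.range t))) :=
      (isUnit_iff_ne_zero.2 h2).map (algebraMap k A)
    exact (h8.mul_right_eq_zero).1 h6
  intro a b
  rw [hprod a b, h7, mul_zero]

end lin

open MvPolynomial

lemma ker_le {k : Type*} [Field k] {N : ℕ} (q : Fin N → k) :
    RingHom.ker (eval q) ≤ Ideal.span (Set.range fun r : Fin N => X r - C (q r)) := by
  have h : ∀ f : MvPolynomial (Fin N) k,
      f - C (eval q f) ∈ Ideal.span (Set.range fun r : Fin N => X r - C (q r)) := by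
    intro f
    induction f using MvPolynomial.induction_on with
    | C a => rw [eval_C, sub_self]; exact Ideal.zero_mem _
    | add f g hf hg =>
      have := Ideal.add_mem _ hf hg
      rw [map_add, map_add]
      convert this using 1
      ring
    | mul_X f i hf =>
      have h1 := Ideal.mul_mem_right (X i) _ hf
      have h2 := Ideal.mul_mem_left (Ideal.span (Set.range fun r : Fin N => X r - C (q r)))
        (C (eval q f)) (Ideal.subset_span (Set.mem_range_self i))
      have := Ideal.add_mem _ h1 h2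
      rw [map_mul, map_mul, eval_X]
      convert this using 1
      ring
  intro f hf
  have h1 := h f
  rw [RingHom.mem_ker] at hf
  rw [hf, map_zero, sub_zero] at h1
  exact h1

/-- **T1** -/
theorem t (k : Type*) [Field k] (hTC : StmTC k) : StmT1 k := by
  classical
  intro n t ht htn q hV S hScard hS w₁ hw₁ B c Js hJs h1 h2 N h hP
  have hn : 0 < n := by omega
  have ht0 : 0 < t := by omega
  -- replace `w₁` by zero outside of `[0, N)`
  obtain ⟨w, hwdef⟩ : ∃ w : ℕ → k, w = fun v => if v < N then w₁ v else 0 := ⟨_, rfl⟩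
  have hwN : ∀ v, N ≤ v → w v = 0 := by
    intro v hv
    rw [hwdef]
    exact if_neg (by omega)
  have hww : ∀ J : Finset ℕ, (∀ j ∈ J, j < n) → ∀ j ∈ J, ∀ c ∈ List.range t,
      w₁ (j + c) = w (j + c) := by
    intro J hJ j hj c hc
    have := hJ j hj
    rw [List.mem_range] at hc
    rw [hwdef]
    exact (if_pos (by omega)).symm
  have hw : Tt n t q w := by
    intro J hJ hJ'
    rw [← hw₁ J hJ hJ']
    exact (pd_congr q w₁ w _ J (hww J hJ')).symm
  have h2' : ∑ a ∈ B, c a * pq q w (Js a) (List.range t) ≠ 0 := by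
    intro h3
    apply h2
    rw [← h3]
    refine sum_congr rfl fun a ha => ?_
    rw [pq_congr q w₁ w _ (Js a) (hww (Js a) (hJs a ha).2)]
  -- the coordinate `v₀`
  obtain ⟨v₀, hv₀S, hv₀⟩ : ∃ v₀ ∈ S, w v₀ ≠ 0 := by
    by_contra hcon
    push Not at hcon
    have h3 := hS w hcon hw
    apply h2'
    refine sum_eq_zero fun a ha => ?_
    have h4 : pq q w (Js a) (List.range t) = pq q (fun _ => 0) (Js a) (List.range t) := by
      apply pq_congr
      intro j hj c hc
      have := (hJs a ha).2 j hj
      rw [List.mem_range] at hc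
      exact h3 _ (by omega)
    have h5 : ∀ (L : List ℕ) (J : Finset ℕ), pd q (fun _ => 0) J L = 0 := by
      intro L
      induction L with
      | nil => intro J; rw [pd_nil]
      | cons c L ih =>
        intro J
        rw [pd_cons]
        refine sum_eq_zero fun j _ => ?_
        rw [ih, zero_mul, mul_zero, add_zero]
    have h6 : ∀ (L : List ℕ) (J : Finset ℕ), pq q (fun _ => 0) J L = 0 := by
      intro L
      induction L with
      | nil => intro J; rw [pq_nil]
      | cons c L ih =>
        intro J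
        rw [pq_cons]
        refine sum_eq_zero fun j _ => ?_
        rw [ih, zero_mul, mul_zero, add_zero]
    rw [h4, h6, mul_zero]
  have hv₀N : v₀ < N := by
    by_contra hcon
    exact hv₀ (hwN v₀ (by omega))
  -- the point
  obtain ⟨q', hq'⟩ : ∃ q' : Fin N → k, q' = fun v : Fin N => q v := ⟨_, rfl⟩
  have hev : ∀ f ∈ permIdeal t (vm k (hk h)), eval q' f = 0 := by
    have h2 : permIdeal t (vm k (hk h)) ≤ RingHom.ker (eval q') := by
      apply permIdeal_le_ker
      intro r c
      have e1 : ((vm k (hk h)).map (eval q')).submatrix r c =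
          Matrix.of fun i j : Fin t => q ((fun i => (r i).val) i + (fun j => (c j).val) j) := by
        ext1 i j
        simp only [Matrix.submatrix_apply, Matrix.map_apply, vm, Matrix.of_apply, eval_X, hq', hk]
      rw [e1, permanent_eq_pm q t (fun i => (r i).val) (Fin.val_injective.comp r.injective)
        (fun j => (c j).val)]
      have hperm : (List.ofFn fun j => (c j).val).Perm (List.range t) := by
        have hnd : (List.ofFn fun j => (c j).val).Nodup := by
          rw [List.nodup_ofFn]
          exact Fin.val_injective.comp c.injective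
        rw [List.perm_ext_iff_of_nodup hnd List.nodup_range]
        intro a
        rw [List.mem_ofFn, List.mem_range]
        constructor
        · rintro ⟨i, rfl⟩
          exact (c i).isLt
        · intro ha
          obtain ⟨i, hi⟩ := (Finite.injective_iff_surjective.1 c.injective) ⟨a, ha⟩
          exact ⟨i, by rw [hi]⟩
      rw [BA.pm_perm q hperm]
      apply hV
      · refine (Finset.card_image_of_injective _ (Fin.val_injective.comp r.injective)).trans ?_
        rw [card_univ, Fintype.card_fin]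
      · intro j hj
        rw [Finset.mem_image] at hj
        obtain ⟨i, -, rfl⟩ := hj
        exact (r i).isLt
    intro f hf
    exact h2 hf
  -- the linear forms
  obtain ⟨S', hS'⟩ : ∃ S' : Finset (Fin N), S' = univ.filter fun v : Fin N => (v : ℕ) ∈ S := ⟨_, rfl⟩
  have hcard : S'.card ≤ t := by
    refine le_trans ?_ hScard
    rw [← Finset.card_image_of_injective S' Fin.val_injective]
    apply Finset.card_le_card
    intro v hv
    rw [Finset.mem_image] at hv
    obtain ⟨w, hw, rfl⟩ := hv
    rw [hS', Finset.mem_filter] at hw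
    exact hw.2
  have hv₀S' : (⟨v₀, hv₀N⟩ : Fin N) ∈ S' := by
    rw [hS', Finset.mem_filter]
    exact ⟨mem_univ _, hv₀S⟩
  let g : Fin N → MvPolynomial (Fin N) k := fun s =>
    (X s - C (q' s)) - C (w s / w v₀) * (X ⟨v₀, hv₀N⟩ - C (q' ⟨v₀, hv₀N⟩))
  let l : List (Fin N) := (S'.erase ⟨v₀, hv₀N⟩).toList
  have hl : l.length ≤ t - 1 := by
    rw [Finset.length_toList, Finset.card_erase_of_mem hv₀S']
    omega
  let lam : Fin (t - 1) → MvPolynomial (Fin N) k := fun i => (l.map g).getD i 0
  have hlamq : ∀ i, eval q' (lam i) = 0 := by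
    intro i
    by_cases hi : (i : ℕ) < (l.map g).length
    · have e1 : lam i = (l.map g)[(i : ℕ)] := List.getD_eq_getElem _ _ hi
      have e2 : lam i ∈ l.map g := by
        rw [e1]
        exact List.getElem_mem hi
      rw [List.mem_map] at e2
      obtain ⟨s, -, hs⟩ := e2
      rw [← hs]
      simp only [g, map_sub, map_mul, eval_X, eval_C, sub_self, mul_zero]
    · have e1 : lam i = 0 := List.getD_eq_default _ _ (by omega)
      rw [e1, map_zero]
  have hlamr : ∀ s ∈ S', s ≠ ⟨v₀, hv₀N⟩ → g s ∈ Set.range lam := by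
    intro s hs hs'
    have h3 : g s ∈ l.map g := by
      apply List.mem_map_of_mem
      rw [Finset.mem_toList, Finset.mem_erase]
      exact ⟨hs', hs⟩
    obtain ⟨i, hi, hi'⟩ := List.getElem_of_mem h3
    have hi2 : i < t - 1 := by
      have : i < l.length := by rwa [List.length_map] at hi
      omega
    refine ⟨⟨i, hi2⟩, ?_⟩
    have e1 : lam ⟨i, hi2⟩ = (l.map g)[i] := List.getD_eq_getElem _ _ hi
    rw [e1, hi']
  -- the quotient ring
  let M := RingHom.ker (eval q')
  let I := permIdeal t (vm k (hk h)) ⊔ Ideal.span (Set.range lam) ⊔ M ^ (2 + 1)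
  let π := Ideal.Quotient.mkₐ k I
  let z : ℕ → MvPolynomial (Fin N) k ⧸ I := fun v =>
    if hv : v < N then π (X ⟨v, hv⟩ - C (q v)) else 0
  have hz : ∀ v (hv : v < N), z v = π (X ⟨v, hv⟩ - C (q v)) := fun v hv => dif_pos hv
  have hzN : ∀ v, N ≤ v → z v = 0 := fun v hv => dif_neg (by omega)
  have hM : ∀ v (hv : v < N), (X ⟨v, hv⟩ - C (q v) : MvPolynomial (Fin N) k) ∈ M := by
    intro v hv
    rw [RingHom.mem_ker, map_sub, eval_X, eval_C, hq', sub_self]
  have hπ : ∀ f, f ∈ I → π f = 0 := fun f hf => Ideal.Quotient.eq_zero_iff_mem.2 hf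
  have hz3 : ∀ a b c, z a * z b * z c = 0 := by
    intro a b c
    by_cases ha : a < N
    · by_cases hb : b < N
      · by_cases hc : c < N
        · rw [hz a ha, hz b hb, hz c hc, ← map_mul, ← map_mul]
          apply hπ
          apply Ideal.mem_sup_right
          have e1 : M ^ (2 + 1) = M * M * M := by ring
          rw [e1]
          exact Ideal.mul_mem_mul (Ideal.mul_mem_mul (hM a ha) (hM b hb)) (hM c hc)
        · rw [hzN c (by omega), mul_zero]
      · rw [hzN b (by omega), mul_zero, zero_mul]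
    · rw [hzN a (by omega), zero_mul, zero_mul]
  have hpm : ∀ J : Finset ℕ, J.card = t → (∀ j ∈ J, j < n) →
      pm (fun v => algebraMap k (MvPolynomial (Fin N) k ⧸ I) (q v) + z v) J (List.range t) = 0 := by
    intro J hJ hJ'
    have h3 := hπ _ (Ideal.mem_sup_left (Ideal.mem_sup_left (pm_mem (k := k) (JC.isHankel_hk h) hJ
      (List.length_range (n := t)) hJ' (fun c hc => List.mem_range.1 hc) List.nodup_range)))
    rw [← h3]
    have h4 := pm_map (Ideal.Quotient.mk I) (zz k (hk h)) (List.range t) J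
    have h5 : (Ideal.Quotient.mk I) (pm (zz k (hk h)) J (List.range t)) =
      π (pm (zz k (hk h)) J (List.range t)) := rfl
    rw [← h5, h4]
    apply pm_congr
    intro j hj c hc
    have h6 := hJ' j hj
    rw [List.mem_range] at hc
    have h7 : j + c < N := by omega
    rw [hz _ h7, JC.zz_hk h hn ht0 h7, map_sub]
    have h8 : π (C (q (j + c))) = algebraMap k (MvPolynomial (Fin N) k ⧸ I) (q (j + c)) :=
      π.commutes (q (j + c))
    rw [h8, add_sub_cancel]
    rfl
  have hlam : ∀ s ∈ S, z s = algebraMap k (MvPolynomial (Fin N) k ⧸ I) (w s / w v₀) * z v₀ := by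
    intro s hs
    by_cases hsN : s < N
    · by_cases hs0 : s = v₀
      · rw [hs0, div_self hv₀, map_one, one_mul]
      · have h3 : g ⟨s, hsN⟩ ∈ Set.range lam := by
          apply hlamr
          · rw [hS', Finset.mem_filter]
            exact ⟨mem_univ _, hs⟩
          · intro h4
            exact hs0 (congrArg Fin.val h4)
        have h4 := hπ _ (Ideal.mem_sup_left (Ideal.mem_sup_right (Ideal.subset_span h3)))
        have h5 : g ⟨s, hsN⟩ = (X ⟨s, hsN⟩ - C (q s)) -
            C (w s / w v₀) * (X ⟨v₀, hv₀N⟩ - C (q v₀)) := by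
          simp only [g, hq']
        have h8 : π (C (w s / w v₀)) =
          algebraMap k (MvPolynomial (Fin N) k ⧸ I) (w s / w v₀) := π.commutes (w s / w v₀)
        rw [h5, map_sub, map_mul, h8, ← hz s hsN, ← hz v₀ hv₀N, sub_eq_zero] at h4
        exact h4
    · rw [hzN s (by omega), hwN s (by omega), zero_div, map_zero, zero_mul]
  have hz2 := core h q w z hz3 hzN hV hpm S hS hw hwN v₀ hv₀ hlam B c Js hJs h1 h2'
  -- the tangent cone criterion
  have hM2 : M ^ 2 ≤ I := by
    have h3 : M ≤ Ideal.span (Set.range fun r : Fin N => X r - C (q' r)) := ker_le q'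
    have h4 : M ^ 2 ≤ Ideal.span (Set.range fun r : Fin N => X r - C (q' r)) *
        Ideal.span (Set.range fun r : Fin N => X r - C (q' r)) := by
      rw [pow_two]
      exact Ideal.mul_mono h3 h3
    refine h4.trans ?_
    rw [Ideal.span_mul_span', Ideal.span_le]
    rintro _ ⟨_, ⟨a, rfl⟩, _, ⟨b, rfl⟩, rfl⟩
    have h5 := hz2 a b
    rw [hz a a.isLt, hz b b.isLt, ← map_mul] at h5
    have h6 := Ideal.Quotient.eq_zero_iff_mem.1 h5
    simp only [hq']
    exact h6
  have h3 := hTC N (permIdeal t (vm k (hk h))) hP q' hev (t - 1) lam hlamq 2 hM2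
  have h4 := (JB.t k N n t t h ht htn le_rfl hP).trans h3
  have h7 : t ≤ t - 1 := by exact_mod_cast h4
  omega

end Pool.Agent.N729.HQ.T1b
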