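import Pool.Agent.N729.HQ.Stm

/-!
Project HQ: the tangent cone criterion for the transcendence degree, from Krull's height theorem,
Noether normalization and going down. By helper945.
-/

set_option autoImplicit false

namespace Pool.Agent.N729.HQ.TCb

open MvPolynomial

section chain

variable {k : Type*} [Field k] {d : ℕ} (a : Fin d → k)

/-- `X i` goes to `a i` for `i < j` -/
noncomputable def ph (j : ℕ) : MvPolynomial (Fin d) k →ₐ[k] MvPolynomial (Fin d) k :=
  aeval (fun i : Fin d => if (i : ℕ) < j then C (a i) else X i)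

theorem ph_comp (j : ℕ) : (ph a (j + 1)).comp (ph a j) = ph a (j + 1) := by
  refine MvPolynomial.algHom_ext fun i => ?_
  rw [AlgHom.comp_apply]
  unfold ph
  rw [aeval_X, aeval_X]
  by_cases h : (i : ℕ) < j
  · rw [if_pos h, if_pos (by omega : (i : ℕ) < j + 1), algHom_C]
    rfl
  · rw [if_neg h, aeval_X]

/-- the prime `(X i - a i : i < j)` -/
noncomputable def pr (j : ℕ) : PrimeSpectrum (MvPolynomial (Fin d) k) :=
  ⟨RingHom.ker (ph a j), RingHom.ker_isPrime _⟩

theorem pr_lt {j : ℕ} (hj : j < d) : pr a j < pr a (j + 1) := by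
  rw [← PrimeSpectrum.asIdeal_lt_asIdeal]
  refine lt_of_le_of_ne (fun f hf => ?_) fun h => ?_
  · change f ∈ RingHom.ker (ph a j) at hf
    change f ∈ RingHom.ker (ph a (j + 1))
    rw [RingHom.mem_ker] at hf ⊢
    rw [← ph_comp a j, AlgHom.comp_apply, hf, map_zero]
  · have h1 : (X ⟨j, hj⟩ - C (a ⟨j, hj⟩) : MvPolynomial (Fin d) k) ∈ (pr a (j + 1)).asIdeal := by
      change _ ∈ RingHom.ker (ph a (j + 1))
      rw [RingHom.mem_ker, map_sub]
      unfold ph
      rw [aeval_X, if_pos (by simp : ((⟨j, hj⟩ : Fin d) : ℕ) < j + 1), algHom_C]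
      exact sub_self _
    rw [← h] at h1
    change _ ∈ RingHom.ker (ph a j) at h1
    rw [RingHom.mem_ker, map_sub] at h1
    unfold ph at h1
    rw [aeval_X, if_neg (by simp : ¬ ((⟨j, hj⟩ : Fin d) : ℕ) < j), algHom_C, sub_eq_zero] at h1
    have h2 := congrArg (eval (fun _ => a ⟨j, hj⟩ + 1)) h1
    rw [eval_X, algebraMap_eq, eval_C] at h2
    exact one_ne_zero (add_eq_left.1 h2)

theorem exists_chain : ∃ l : LTSeries (PrimeSpectrum (MvPolynomial (Fin d) k)), l.length = d ∧
    l.last.asIdeal = RingHom.ker (aeval a : MvPolynomial (Fin d) k →ₐ[k] k) := by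
  refine ⟨LTSeries.mk d (fun j => pr a j) ?_, rfl, ?_⟩
  · rw [Fin.strictMono_iff_lt_succ]
    intro i
    exact pr_lt a i.2
  · change RingHom.ker (ph a ((Fin.last d : Fin (d + 1)) : ℕ)) = _
    have h1 : ph a ((Fin.last d : Fin (d + 1)) : ℕ) =
        (Algebra.ofId k (MvPolynomial (Fin d) k)).comp (aeval a) := by
      refine MvPolynomial.algHom_ext fun i => ?_
      rw [AlgHom.comp_apply, aeval_X]
      unfold ph
      rw [aeval_X, if_pos (by simp)]
      rfl
    rw [h1]
    ext f
    rw [RingHom.mem_ker, RingHom.mem_ker, AlgHom.comp_apply]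
    constructor
    · intro h
      exact C_injective (Fin d) k (by rw [map_zero]; exact h)
    · intro h
      rw [h, map_zero]

end chain

/-- the transcendence degree is at most the height of a rational maximal ideal -/
theorem trdeg_le_height {k : Type*} [Field k] (A : Type*) [CommRing A] [IsDomain A] [Algebra k A]
    [Algebra.FiniteType k A] (ev : A →ₐ[k] k) :
    ∃ d : ℕ, (d : ℕ∞) ≤ (RingHom.ker ev).height ∧ Algebra.trdeg k A ≤ (d : Cardinal) := by
  obtain ⟨d, g, hg, hint⟩ := exists_integral_inj_algHom_of_fg k A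
  refine ⟨d, ?_, ?_⟩
  · let _ := g.toRingHom.toAlgebra
    have : Algebra.IsIntegral (MvPolynomial (Fin d) k) A := ⟨hint⟩
    have : FaithfulSMul (MvPolynomial (Fin d) k) A :=
      (faithfulSMul_iff_algebraMap_injective _ _).2 hg
    obtain ⟨l, hl, hlast⟩ := exists_chain (fun i => ev (g (X i)))
    have hp : (RingHom.ker ev).IsPrime := RingHom.ker_isPrime _
    have : (RingHom.ker ev).LiesOver l.last.asIdeal := by
      constructor
      rw [hlast]
      ext f
      change aeval (fun i => ev (g (X i))) f = 0 ↔ ev (g f) = 0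
      have h1 : (aeval (fun i => ev (g (X i))) : MvPolynomial (Fin d) k →ₐ[k] k) = ev.comp g :=
        MvPolynomial.algHom_ext fun i => by rw [aeval_X, AlgHom.comp_apply]
      rw [h1, AlgHom.comp_apply]
    obtain ⟨L, hL1, hL2, -⟩ := Ideal.exists_ltSeries_of_hasGoingDown l (RingHom.ker ev)
    rw [← hl, ← hL1]
    have h2 := Order.length_le_height_last (p := L)
    rw [hL2] at h2
    refine h2.trans (le_of_eq ?_)
    exact (PrimeSpectrum.height_eq_orderHeight _).symm
  · have : Algebra.IsAlgebraic (Algebra.adjoin k (Set.range fun i : Fin d => g (X i))) A := by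
      constructor
      intro x
      obtain ⟨f, hf1, hf2⟩ := hint x
      have hgm : ∀ y, g y ∈ Algebra.adjoin k (Set.range fun i : Fin d => g (X i)) := by
        intro y
        rw [Algebra.adjoin_range_eq_range_aeval]
        refine ⟨y, ?_⟩
        change aeval (fun i : Fin d => g (X i)) y = g y
        have h1 : (aeval (fun i => g (X i)) : MvPolynomial (Fin d) k →ₐ[k] A) = g :=
          MvPolynomial.algHom_ext fun i => by rw [aeval_X]
        rw [h1]
      have h2 : IsIntegral (Algebra.adjoin k (Set.range fun i : Fin d => g (X i))) x := by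
        refine ⟨f.map (g.codRestrict _ hgm).toRingHom, hf1.map _, ?_⟩
        rw [Polynomial.eval₂_map]
        exact hf2
      exact h2.isAlgebraic
    have h1 := Algebra.IsAlgebraic.trdeg_le_cardinalMk k (Set.range fun i : Fin d => g (X i))
    refine h1.trans ?_
    have h3 := Cardinal.mk_range_le_lift (f := fun i : Fin d => g (X i))
    rw [Cardinal.lift_uzero, Cardinal.mk_fin, Cardinal.lift_natCast] at h3
    exact h3

theorem t (k : Type*) [Field k] : StmTC k := by
  intro N P hP q hPq s lam hlam K hK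
  set M := RingHom.ker (MvPolynomial.eval q) with hM
  have hdom : IsDomain (MvPolynomial (Fin N) k ⧸ P) := Ideal.Quotient.isDomain P
  let ev : (MvPolynomial (Fin N) k ⧸ P) →ₐ[k] k := Ideal.Quotient.liftₐ P (aeval q) (fun f hf => by
    rw [aeval_eq_eval]
    exact hPq f hf)
  set mk := Ideal.Quotient.mk P with hmk
  have hsurj : Function.Surjective mk := Ideal.Quotient.mk_surjective
  have hev : ∀ f, ev (mk f) = eval q f := fun f => by
    change aeval q f = _
    rw [aeval_eq_eval]
  set m := RingHom.ker ev with hm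
  have hmp : m.IsPrime := RingHom.ker_isPrime _
  have hmM : M.map mk = m := by
    have h1 : M = m.comap mk := by
      ext f
      rw [Ideal.mem_comap, hm, RingHom.mem_ker, RingHom.mem_ker, hev]
    rw [h1, Ideal.map_comap_of_surjective mk hsurj]
  have hK' : m ^ K ≤ Ideal.span (Set.range fun i => mk (lam i)) ⊔ m ^ (K + 1) := by
    have h1 := Ideal.map_mono (f := mk) hK
    rw [Ideal.map_sup, Ideal.map_sup, Ideal.map_pow, Ideal.map_pow, hmM, Ideal.map_span,
      Ideal.map_quotient_self, bot_sup_eq, ← Set.range_comp] at h1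
    exact h1
  set I := Ideal.span (Set.range fun i => mk (lam i)) with hI
  have hIm : I ≤ m := by
    rw [hI, Ideal.span_le]
    rintro _ ⟨i, rfl⟩
    change mk (lam i) ∈ m
    rw [hm, RingHom.mem_ker, hev, hlam]
  obtain ⟨r, hr1, hr2⟩ := Submodule.exists_sub_one_mem_and_smul_le_of_fg_of_le_sup
    (I := m) (N := I) (N' := m ^ K) (P := m ^ K) (IsNoetherian.noetherian _) le_rfl (by
      rw [smul_eq_mul, ← pow_succ']
      exact hK')
  have hrm : r ∉ m := by
    intro h
    have h1 : (1 : MvPolynomial (Fin N) k ⧸ P) ∈ m := by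
      have h2 := m.sub_mem h hr1
      rwa [sub_sub_cancel] at h2
    exact hmp.ne_top ((Ideal.eq_top_iff_one _).2 h1)
  have hmin : m ∈ I.minimalPrimes := by
    refine ⟨⟨hmp, hIm⟩, fun p hp hpm => ?_⟩
    intro x hx
    have h1 : r • x ^ K ∈ I := hr2 (Submodule.smul_mem_pointwise_smul _ _ _ (Ideal.pow_mem_pow hx K))
    have h2 : r * x ^ K ∈ p := hp.2 h1
    rcases hp.1.mem_or_mem h2 with h3 | h3
    · exact absurd (hpm h3) hrm
    · exact hp.1.mem_of_pow_mem _ h3
  have hht : m.height ≤ (s : ℕ∞) := by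
    refine (Ideal.height_le_card_of_mem_minimalPrimes_span (Set.finite_range _) hmin).trans ?_
    have h1 : (Set.range fun i => mk (lam i)).ncard ≤ s := by
      rw [← Set.image_univ]
      refine (Set.ncard_image_le Set.finite_univ).trans ?_
      rw [Set.ncard_univ, Nat.card_eq_fintype_card, Fintype.card_fin]
    exact_mod_cast h1
  obtain ⟨d, hd1, hd2⟩ := trdeg_le_height (MvPolynomial (Fin N) k ⧸ P) ev
  have h3 : (d : ℕ∞) ≤ (s : ℕ∞) := hd1.trans hht
  have h4 : d ≤ s := by exact_mod_cast h3
  exact hd2.trans (by exact_mod_cast h4)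

end Pool.Agent.N729.HQ.TCb
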